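import Pool.Agent.MP_19ffc6_ag.LU.HensB

-- ======== part 0: formerly Pool.Agent.MP_19ffc6_ag.LU2.Defs
section MrgPart0

/-! Definitions for PROJECT LU2: local uniformization in rational rank `n - 2`. -/

namespace Pool.Agent.MP_19ffc6_ag.LU2

open Polynomial Pool.Agent.MP_19ffc6_ag.LU

/-- The point `(α, j, i)` stands for `mon α * y ^ j * z ^ i`; `α` is its level, `i` its height. -/
abbrev Pt := ℝ × ℕ × ℕ

/-- Polynomials in monomials and two more variables. -/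
abbrev Pol2 (k : Type*) [Field k] := Pt →₀ k

/-- The monomial is a `p`-th power (and cleaning is switched on). -/
def PW2 (fl : Prop) (p : ℕ) (Λ : AddSubgroup ℝ) (x : Pt) : Prop :=
  fl ∧ PMul p Λ x.1 ∧ p ∣ x.2.1 ∧ p ∣ x.2.2

/-- The critical power of `p` attached to the height `s`. -/
def qq (p s : ℕ) : ℕ := if p ∣ s then p ^ padicValNat p s else p ^ padicValNat p (s - 1)

/-- Polygon parameters: top monomial `(β, ε, s)` and vertex `(δ, b)`. -/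
structure Par where
  β : ℝ
  ε : ℕ
  s : ℕ
  δ : ℝ
  b : ℝ

namespace Par

variable (P : Par)

/-- The top monomial. -/
def top : Pt := (P.β, P.ε, P.s)

/-- The distance of the height from the top height. -/
def gap (x : Pt) : ℝ := (P.s : ℝ) - x.2.2

/-- The defect of a point: zero on the vertical edge. -/
def dfc (x : Pt) : ℝ := x.1 - P.β - P.gap x * P.δ

/-- The codegree of a point: zero at the vertex. -/
def cod (x : Pt) : ℝ := P.ε + P.gap x * P.b - x.2.1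

/-- The level of the vertical edge. -/
def lev : ℝ := P.β + P.s * P.δ

end Par

/-- Lattice data of a transition. -/
structure SD (Λ Λ' : AddSubgroup ℝ) (η : ℝ) (d : ℕ) (σ : ℝ → ℤ) : Prop where
  pos : 0 < η
  d_pos : 0 < d
  dvd_iff : ∀ j : ℤ, (j : ℝ) * η ∈ Λ ↔ (d : ℤ) ∣ j
  lat : Λ' = Λ ⊔ AddSubgroup.zmultiples η
  σ_add : ∀ β ∈ Λ', ∀ β' ∈ Λ', σ (β + β') = σ β + σ β'
  σ_mem : ∀ β ∈ Λ', β - σ β * η ∈ Λ
  triv : d = 1 → ∀ β, σ β = 0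

/-- The exponent of the unit in the transform of a monomial. -/
noncomputable def ex (η : ℝ) (d : ℕ) (σ : ℝ → ℤ) (x : Pt) : ℤ :=
  ((x.2.1 : ℤ) - σ (x.1 + x.2.1 * η)) / d

section comb

variable {k : Type*} [Field k]

/-- The polynomial only uses monomials of the lattice. -/
def Supp (Λ : AddSubgroup ℝ) (Φ : Pol2 k) : Prop := ∀ x ∈ Φ.support, x.1 ∈ Λ

open Classical in
/-- Removal of the `p`-th power monomials. -/
noncomputable def cln (fl : Prop) (p : ℕ) (Λ : AddSubgroup ℝ) (Φ : Pol2 k) : Pol2 k :=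
  Φ.filter fun x => ¬ PW2 fl p Λ x

/-- The polynomial `g` in `y` placed at level `α` and height `i`. -/
noncomputable def emb (α : ℝ) (i : ℕ) (g : k[X]) : Pol2 k :=
  ∑ j ∈ g.support, Finsupp.single (α, j, i) (g.coeff j)

/-- The substitution of `z + mon a * l y` for `z`. -/
noncomputable def shp (a : ℝ) (l : k[X]) (Φ : Pol2 k) : Pol2 k :=
  ∑ x ∈ Φ.support, ∑ n ∈ Finset.range (x.2.2 + 1),
    emb (x.1 + n * a) (x.2.2 - n) (monomial x.2.1 (Φ x * (x.2.2.choose n : k)) * l ^ n)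

/-- The substitution of `mon ζ * y` for `y` and `mon ξ * z` for `z`. -/
noncomputable def scl (ζ ξ : ℝ) (Φ : Pol2 k) : Pol2 k :=
  Φ.mapDomain fun x => (x.1 + x.2.1 * ζ + x.2.2 * ξ, x.2)

/-- Exchange of `y` and `z`. -/
noncomputable def swp (Φ : Pol2 k) : Pol2 k := Φ.mapDomain fun x => (x.1, x.2.2, x.2.1)

open Classical in
/-- The part of level `α` and height `i` after a transition, a polynomial in the unit `u`. -/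
noncomputable def fib (η : ℝ) (d : ℕ) (σ : ℝ → ℤ) (n0 : ℕ) (Φ : Pol2 k) (α : ℝ) (i : ℕ) : k[X] :=
  ∑ x ∈ Φ.support with x.1 + x.2.1 * η = α ∧ x.2.2 = i, monomial (ex η d σ x + n0).toNat (Φ x)

/-- The transform under a transition (`u = κ + y`), multiplied by `u ^ n0`. -/
noncomputable def stp (η : ℝ) (d : ℕ) (σ : ℝ → ℤ) (n0 : ℕ) (κ : k) (Φ : Pol2 k) : Pol2 k :=
  ∑ x ∈ Φ.support,
    emb (x.1 + x.2.1 * η) x.2.2 (taylor κ (monomial (ex η d σ x + n0).toNat (Φ x)))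

open Classical in
/-- The terms on the line `α + i * a = B`, as a polynomial in `k[y][z]`. -/
noncomputable def diag (Φ : Pol2 k) (a B : ℝ) : k[X][X] :=
  ∑ x ∈ Φ.support with x.1 + x.2.2 * a = B, monomial x.2.2 (monomial x.2.1 (Φ x))

open Classical in
/-- The polynomial of the vertex, in `k[z]`. -/
noncomputable def vtx (Φ : Pol2 k) (P : Par) : k[X] :=
  ∑ x ∈ Φ.support with x.2.2 ≤ P.s ∧ P.dfc x = 0 ∧ P.cod x = 0, monomial x.2.2 (Φ x)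

variable (fl : Prop) (p : ℕ) (Λ : AddSubgroup ℝ)

/-- A polygon state. -/
structure PS (Φ : Pol2 k) (P : Par) : Prop where
  supp : Supp Λ Φ
  ess : ∀ x ∈ Φ.support, ¬ PW2 fl p Λ x
  top : P.top ∈ Φ.support
  eps : P.ε ≤ 1
  two : 2 ≤ P.s
  β0 : 0 ≤ P.β
  δ0 : 0 ≤ P.δ
  pos : 0 < P.δ ∨ 0 ≤ P.b
  typ : P.ε = 1 → fl ∧ p ∣ P.s ∧ PMul p Λ P.β
  low : ∀ x ∈ Φ.support, x.2.2 < P.s → 0 < P.dfc x ∨ (P.dfc x = 0 ∧ P.cod x ≤ 0)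
  junk : ∀ x ∈ Φ.support, P.s ≤ x.2.2 → x ≠ P.top → P.β ≤ x.1 ∧ (P.β < x.1 ∨ P.ε < x.2.1)
  rat : ∃ n : ℤ, P.b * P.s.factorial = n

/-- In type D nothing but the top lives at heights at least `s`. -/
def Exact (Φ : Pol2 k) (P : Par) : Prop :=
  P.ε = 1 → ∀ x ∈ Φ.support, P.s ≤ x.2.2 → x = P.top

/-- The vertex lies in a cleaned class. -/
def VCl (P : Par) : Prop :=
  fl ∧ P.δ ∈ Λ ∧ PMul p Λ P.lev ∧ ∃ m : ℕ, P.b = m ∧ p ∣ P.ε + P.s * m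

/-- After every shift by the vertex an essential vertex term of gap at most `g` survives. -/
def Uns (Φ : Pol2 k) (P : Par) (g : ℕ) : Prop :=
  ∀ c : k, (c ≠ 0 → P.δ ∈ Λ ∧ ∃ m : ℕ, P.b = m) →
    ∃ i, i < P.s ∧ P.s ≤ i + g ∧ (taylor c (vtx Φ P)).coeff i ≠ 0 ∧ ¬ (VCl fl p Λ P ∧ p ∣ i)

/-- No vertex term has degree `s`. -/
def NoX (Φ : Pol2 k) (P : Par) : Prop :=
  ∀ x ∈ Φ.support, x.2.2 < P.s → P.dfc x = 0 → P.cod x = 0 → x.2.1 + x.2.2 ≠ P.s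

/-- The exceptional vertex form of type A. -/
def Exc (Φ : Pol2 k) (P : Par) : Prop :=
  fl ∧ P.ε = 0 ∧ p ∣ P.s - 1 ∧ P.b = 1 ∧ P.δ ∈ Λ ∧ PMul p Λ P.lev ∧
    (∃ x ∈ Φ.support, x.2.2 + 1 = P.s ∧ P.dfc x = 0 ∧ P.cod x = 0) ∧
    ∀ x ∈ Φ.support, x.2.2 < P.s → P.dfc x = 0 → P.cod x = 0 → x.2.2 + 1 = P.s

/-- One monomial shift with exponent satisfying `Q`, followed by cleaning. -/
def Sh (Q : ℝ → ℕ → Prop) (Φ Φ' : Pol2 k) : Prop :=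
  ∃ (a : ℝ) (m : ℕ) (c : k), a ∈ Λ ∧ Q a m ∧ Φ' = cln fl p Λ (shp a (monomial m c) Φ)

/-- Finitely many monomial shifts. -/
def Shs (Q : ℝ → ℕ → Prop) : Pol2 k → Pol2 k → Prop := Relation.ReflTransGen (Sh fl p Λ Q)

/-- The exponent `(a, m)` lies on the face of slope `θ` through the vertex. -/
def OnFace (P : Par) (θ : ℝ) (a : ℝ) (m : ℕ) : Prop := (m : ℝ) ≤ P.b ∧ a - P.δ = θ * (P.b - m)

/-- No term lies below the line of slope `θ` through the vertex. -/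
def Above (Φ : Pol2 k) (P : Par) (θ : ℝ) : Prop := ∀ x ∈ Φ.support, θ * P.cod x ≤ P.dfc x

/-- A term of the face of slope `θ`, below the top height. -/
def Face (Φ : Pol2 k) (P : Par) (θ : ℝ) (x : Pt) : Prop :=
  x ∈ Φ.support ∧ x.2.2 < P.s ∧ P.dfc x = θ * P.cod x

/-- The heights that control the shifts. -/
def Relv (s i : ℕ) : Prop := p ∣ s ∨ ¬ p ∣ i

/-- The face of slope `θ` is prepared: if the highest relevant face height has gap `q`, some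
term of that height is not a `q`-th power times the top. -/
def Prep (Φ : Pol2 k) (P : Par) (θ : ℝ) : Prop :=
  (∀ x, Face Φ P θ x → Relv p P.s x.2.2 → x.2.2 + qq p P.s ≤ P.s) →
    (∃ x, Face Φ P θ x ∧ x.2.2 + qq p P.s = P.s) →
    ∃ x, Face Φ P θ x ∧ x.2.2 + qq p P.s = P.s ∧
      ¬ ∃ a ∈ Λ, ∃ m : ℕ, x.1 = P.β + qq p P.s * a ∧ x.2.1 = P.ε + qq p P.s * m

/-- Every term of `Φ'` descends from a term of `Φ` along the slope `θ`. -/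
def Dsc (Φ : Pol2 k) (P : Par) (Φ' : Pol2 k) (P' : Par) (θ φ : ℝ) : Prop :=
  ∀ x' ∈ Φ'.support, ∃ x ∈ Φ.support, P.cod x ≤ P'.cod x' ∧
    P'.dfc x' + φ * P'.cod x' = P.dfc x + θ * (P'.cod x' - P.cod x)

/-- A stationary move. -/
def Stat (W : ℝ) (Φ : Pol2 k) (P : Par) (Λ' : AddSubgroup ℝ) (Φ' : Pol2 k) (P' : Par) : Prop :=
  Λ' = Λ ∧ ∃ θ φ : ℝ, 0 < θ ∧ θ * P.b ≤ W ∧ φ ∈ Λ ∧ P'.β = P.β + P.ε * φ ∧
    P'.δ = P.δ + P.b * φ ∧ Above Φ P θ ∧ (∃ x ∈ Φ.support, 0 < P.cod x ∧ P.dfc x = θ * P.cod x) ∧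
    Dsc Φ P Φ' P' θ φ ∧
    (φ = θ ∨ (φ = 0 ∧ ∀ x' ∈ Φ'.support, 0 < P'.cod x' → θ * P'.cod x' < P'.dfc x'))

/-- The memory of a state of type L that comes from a state of type D with invariant `b0`. -/
def Phi (b0 : ℝ) (P : Par) (U : ℕ → Prop) : Prop :=
  ∃ g J : ℕ, 1 ≤ g ∧ g * P.b ≤ J ∧ (g * P.b = J → g < qq p P.s → U g) ∧
    ((J : ℝ) ≤ 1 + g * b0 ∨ (g = qq p P.s ∧ (J : ℝ) ≤ 2 + g * b0 ∧ 2 * (g : ℝ) ≤ 1 + g * b0))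

/-- What is known about one move of the engine. -/
structure Tr (W : ℝ) (Φ : Pol2 k) (P : Par) (Λ' : AddSubgroup ℝ) (Φ' : Pol2 k) (P' : Par) :
    Prop where
  s_eq : P'.s = P.s
  same : P'.ε = P.ε → P'.b < P.b ∨ (P'.b = P.b ∧ Stat Λ W Φ P Λ' Φ' P' ∧
    (p ∣ P.s → ∀ g < qq p P.s, Uns fl p Λ Φ P g → Uns fl p Λ' Φ' P' g))
  dl : P.ε = 1 → P'.ε = 0 → Phi p P.b P' (Uns fl p Λ' Φ' P')
  ld1 : P.ε = 0 → P'.ε = 1 → ∀ b0 : ℝ, 1 ≤ b0 → Phi p b0 P (Uns fl p Λ Φ P) → P'.b < b0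
  ld2 : P.ε = 0 → P'.ε = 1 → P.b = 1 → P'.b < 1 ∧ NoX Φ' P'
  ld3 : P.ε = 0 → P'.ε = 1 → P.b * (P.s - 1) ≤ P.s →
    (P.s = 2 → P.b = 2 → Uns fl p Λ Φ P 1) → P'.b * P.s < P.s - 1
  ld4 : P.ε = 0 → P'.ε = 1 → Uns fl p Λ Φ P 1 → P'.b < 1 → P'.δ ∈ Λ'

/-- The face of a transition, written in the unit `u`: top `t * u ^ n`, coefficient `G i` at
height `i`; `jj i e` is the old exponent of `y` of the term `u ^ e` of `G i`; `χ i` says that the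
height `i` lies in a cleaned class; `adm` says that shifts are possible. -/
structure FD (s ε ε' d n : ℕ) (b : ℝ) (adm : Prop) (χ : ℕ → Prop) (t κ : k) (G : ℕ → k[X])
    (jj : ℕ → ℕ → ℕ) : Prop where
  t_ne : t ≠ 0
  κ_ne : κ ≠ 0
  two : 2 ≤ s
  one_le : 1 ≤ b
  d_pos : 0 < d
  eps : ε ≤ 1
  eps' : ε' ≤ 1
  rng : ∀ i < s, ∀ e, (G i).coeff e ≠ 0 → (jj i e : ℝ) ≤ ε + ((s : ℝ) - i) * b
  inj : ∀ i < s, ∀ e e', (G i).coeff e ≠ 0 → (G i).coeff e' ≠ 0 →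
    (jj i e : ℤ) - jj i e' = d * ((e : ℤ) - e')
  one : d = 1 → n = ε ∧ ∀ i < s, ∀ e, (G i).coeff e ≠ 0 → jj i e = e
  chi_p : ∀ i, χ i → p ∣ i
  chi_e : ∀ i < s, χ i → ∀ e, (G i).coeff e ≠ 0 → ¬ p ∣ e ∧ (¬ p ∣ d → jj i e ≠ 0)
  chi_adm : adm → ∀ i i', p ∣ i' → χ i → χ i'
  chi_top : (ε' = 1 ↔ χ s) ∧ (χ s → ¬ p ∣ n)
  nadm : ¬ adm → G (s - 1) = 0
  typ1 : ε = 1 → p ∣ s
  typ2 : ε' = 1 → (p ∣ d ↔ ε = 0)
  prep : adm → (∀ i < s, G i ≠ 0 → Relv p s i → i + qq p s ≤ s) → G (s - qq p s) ≠ 0 →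
    ∃ e, (G (s - qq p s)).coeff e ≠ 0 ∧ ¬ (qq p s : ℤ) ∣ (e : ℤ) - n
  ne : ∃ i < s, G i ≠ 0

/-- The face as a polynomial in the new coordinates. -/
noncomputable def facePol (s n : ℕ) (t κ : k) (G : ℕ → k[X]) : k[X][X] :=
  monomial s (taylor κ (monomial n t)) + ∑ i ∈ Finset.range s, monomial i (taylor κ (G i))

/-- An essential term `y ^ j * z ^ i` of `E`. -/
def Ess (χ : ℕ → Prop) (E : k[X][X]) (i j : ℕ) : Prop :=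
  (E.coeff i).coeff j ≠ 0 ∧ ¬ (χ i ∧ p ∣ j)

/-- The numerical data of a transition from type L to type D. -/
def LDnum (q : ℕ) (b : ℝ) (g J : ℕ) : Prop :=
  (∃ R : ℕ, J ≤ R ∧ (p * R : ℝ) ≤ g * b) ∨
  (p ∣ g ∧ ∃ R : ℕ, J ≤ R + 1 ∧ (p * R : ℝ) ≤ g * b ∧ (p = 2 → 2 ∣ R)) ∨
  (g = q ∧ ∃ t R : ℕ, p ^ (t + 1) ∣ q ∧ J ≤ 1 + R + p ^ t ∧ (p * R : ℝ) ≤ g * b ∧
    (p = 2 → 1 ≤ t ∧ 2 ^ (t + 1) ∣ R) ∧ (p = 3 → t = 0 → 3 ∣ R))

end comb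

section

variable {Ω : Type*} [NontriviallyNormedField Ω]

variable (Ω) in
/-- A stage with a dense lattice and two coordinates `y`, `z`. -/
structure St extends Stage Ω where
  z : Ω
  norm_z : ‖z‖ < 1
  dense : Dense (Λ : Set ℝ)

/-- The generators of a stage. -/
def St.gens (s : St Ω) : Set Ω := s.mon '' s.Λ ∪ {s.y, s.z}

/-- The derivation `D` is bounded by `exp A` on the stage. -/
def DB (D : Ω → Ω) (s : St Ω) (A : ℝ) : Prop :=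
  (∀ α ∈ s.Λ, ‖D (s.mon α)‖ ≤ Real.exp A * ‖s.mon α‖) ∧ ‖D s.y‖ ≤ Real.exp A ∧
    ‖D s.z‖ ≤ Real.exp A

variable (k : Type*) [Field k] [Algebra k Ω]

/-- The rational function field of a stage. -/
def St.M (s : St Ω) : IntermediateField k Ω := IntermediateField.adjoin k s.gens

/-- The ring generated by the integral monomials, `y` and `z`. -/
def St.R0 (s : St Ω) : Subalgebra k Ω :=
  Algebra.adjoin k (s.mon '' {α | α ∈ s.Λ ∧ 0 ≤ α} ∪ {s.y, s.z})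

variable {k} in
/-- Closed under inverses of elements of norm one and under simple roots that lie in `T`. -/
def HCl (T : Set Ω) (B : Subalgebra k Ω) : Prop :=
  (∀ b ∈ B, ‖b‖ = 1 → b⁻¹ ∈ B) ∧ ∀ (Q : Polynomial Ω) (η : Ω), η ∈ T → (∀ i, Q.coeff i ∈ B) →
    Q.eval η = 0 → ‖η‖ ≤ 1 → ‖Q.derivative.eval η‖ = 1 → η ∈ B

/-- The local ring of a stage, henselized inside `T`. -/
def St.H (T : Set Ω) (s : St Ω) : Subalgebra k Ω := sInf {B | HCl T B ∧ s.R0 k ≤ B}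

/-- A monomial times a unit. -/
def St.Good (T : Set Ω) (s : St Ω) (b : Ω) : Prop :=
  ∃ α ∈ s.Λ, ∃ w ∈ s.H k T, ‖w‖ = 1 ∧ b = s.mon α * w

/-- Evaluation of a polynomial at a stage. -/
noncomputable def St.ev (s : St Ω) : Pol2 k →ₗ[k] Ω :=
  Finsupp.linearCombination k fun x : Pt => s.mon x.1 * s.y ^ x.2.1 * s.z ^ x.2.2

/-- `s'` is a later stage than `s`. -/
structure Nx (T : Set Ω) (s s' : St Ω) : Prop where
  H_le : s.H k T ≤ s'.H k T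
  lat : s.Λ ≤ s'.Λ
  mon : ∀ α ∈ s.Λ, s'.Good k T (s.mon α)
  gen : ∀ B : Subalgebra k Ω, (∀ b ∈ B, s'.Good k T b → b⁻¹ ∈ B) → s.gens ⊆ B → s'.gens ⊆ B

/-- `h` is adically approximated by polynomials. -/
def Apx (T : Set Ω) (s : St Ω) (h : Ω) : Prop :=
  h ∈ s.H k T ∧ ∀ N ∈ s.Λ, ∃ a ∈ s.R0 k, ∃ h' ∈ s.H k T, h = a + s.mon N * h'

/-- The two coordinates of every stage over which `Ω` is algebraic are independent. -/
def NA2 (k Ω : Type*) [Field k] [NontriviallyNormedField Ω] [Algebra k Ω] : Prop :=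
  ∀ s : St Ω, Algebra.IsAlgebraic (s.M k) Ω →
    AlgebraicIndependent (IntermediateField.adjoin k (s.mon '' s.Λ)) ![s.y, s.z]

variable (Ω) in
/-- The fixed data of a run of the engine. -/
structure Cx where
  fl : Prop
  K : IntermediateField k Ω
  f : Ω
  D : Ω → Ω
  s0 : St Ω
  der : IsDer K D
  f_mem : f ∈ K
  Df : D f ≠ 0
  M_le : s0.M k ≤ K
  ne : ∀ s, Nx k {a | fl ∧ a ∈ K} s0 s → s.y ≠ 0 ∧ s.z ≠ 0

variable {k}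

/-- The allowed roots. -/
def Cx.T (cx : Cx Ω k) : Set Ω := {a | cx.fl ∧ a ∈ cx.K}

/-- `Φ` represents `f` at the stage `s`, up to `p`-th powers, with remainder `r`. -/
def Rp (p : ℕ) (cx : Cx Ω k) (s : St Ω) (Φ : Pol2 k) (r : Ω) : Prop :=
  Nx k cx.T cx.s0 s ∧ Supp s.Λ Φ ∧ ∃ c ∈ s.H k cx.T, ‖c‖ = 1 ∧ ∃ b ∈ cx.K, (¬ cx.fl → b = 0) ∧
    c ^ p * cx.f + b ^ p = s.ev k Φ + r

/-- A unique bottom monomial. -/
def Start (p : ℕ) (cx : Cx Ω k) (s : St Ω) (B : ℝ) (j i : ℕ) : Prop :=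
  0 ≤ B ∧ ¬ PW2 cx.fl p s.Λ (B, j, i) ∧ ∃ t : k, t ≠ 0 ∧ ∃ N ∈ s.Λ, B < N ∧ ∃ h,
    Apx k cx.T s h ∧ Rp p cx s (Finsupp.single (B, j, i) t) (s.mon N * h)

/-- Some stage has a unique bottom monomial of degree less than `μ`. -/
def Lower (p : ℕ) (cx : Cx Ω k) (μ : ℕ) : Prop := ∃ s B j i, Start p cx s B j i ∧ j + i < μ

/-- A start of type D. -/
def StartD (p : ℕ) (cx : Cx Ω k) (μ : ℕ) : Prop :=
  cx.fl ∧ p ∣ μ ∧ ∃ s B, Start p cx s B 1 μ ∧ PMul p s.Λ B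

/-- A start of degree `μ` in which both variables occur. -/
def StartX (p : ℕ) (cx : Cx Ω k) (μ : ℕ) : Prop :=
  ∃ s B j i, Start p cx s B j i ∧ j + i = μ ∧ 0 < j ∧ 0 < i

/-- A state of the engine. -/
structure WS (p : ℕ) (cx : Cx Ω k) where
  s : St Ω
  Φ : Pol2 k
  P : Par
  r : Ω
  N : ℝ
  rep : Rp p cx s Φ r
  N_mem : N ∈ s.Λ
  rem : ∃ h ∈ s.H k cx.T, r = s.mon N * h
  ps : PS cx.fl p s.Λ Φ P
  room : P.lev < N

variable {p : ℕ} {cx : Cx Ω k}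

/-- Unsolvability of the vertex of a state. -/
def WS.U (X : WS p cx) (g : ℕ) : Prop := Uns cx.fl p X.s.Λ X.Φ X.P g

/-- The move relation between two states. -/
def WS.Tr (X : WS p cx) (W : ℝ) (Y : WS p cx) : Prop :=
  LU2.Tr cx.fl p X.s.Λ W X.Φ X.P Y.s.Λ Y.Φ Y.P

/-- The remainder can be approximated further, and `z` is smaller than the vertex. -/
def WS.Pre (X : WS p cx) : Prop :=
  X.P.δ < nu X.s.z ∧ ∃ h, Apx k cx.T X.s h ∧ X.r = X.s.mon X.N * h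

/-- The bounds for the derivation that hold during a phase. -/
structure WS.Inv (X : WS p cx) (A0 : ℝ) : Prop where
  db : ∃ A, DB cx.D X.s A ∧ A ≤ A0 + X.P.δ
  dz : ‖cx.D X.s.z‖ ≤ Real.exp A0
  dr : ‖cx.D X.r‖ < ‖cx.D cx.f‖
  big : (2 * (A0 + nu (cx.D cx.f)) + 2) * (X.P.s + 1) < X.N

/-- A state from which the engine moves on. -/
structure WS.Full (X : WS p cx) (A0 : ℝ) : Prop extends X.Inv A0 where
  exact : Exact X.Φ X.P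
  one_le : 1 ≤ X.P.b
  lt : X.P.δ < nu X.s.z
  uns : X.U X.P.s ∨ A0 + nu (cx.D cx.f) + 1 < X.P.b * nu X.s.y

/-- `K` and the field of the stage have the same henselization. -/
def Weak (K : IntermediateField k Ω) (s : St Ω) : Prop :=
  Algebra.IsAlgebraic (s.M k) Ω ∧ s.M k ≤ hens K ∧ K ≤ hens (s.M k)

/-- `K` lies between the field of the stage and its henselization. -/
def Strong (K : IntermediateField k Ω) (s : St Ω) : Prop :=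
  Algebra.IsAlgebraic (s.M k) Ω ∧ s.M k ≤ K ∧ K ≤ hens (s.M k)

end

end Pool.Agent.MP_19ffc6_ag.LU2

end MrgPart0

-- ======== part 1: formerly Pool.Agent.MP_19ffc6_ag.LU2.Spec
section MrgPart1

/-! Module statements of PROJECT LU2.  Every module proves one `...Stmt`, under the standing
assumptions
`[Field k] [NontriviallyNormedField Ω] [IsUltrametricDist Ω] [Algebra k Ω] [IsAlgClosed k]
[IsAlgClosed Ω] [Ctx k Ω] [Fact p.Prime] [CharP k p] [CharP Ω p]`. -/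

namespace Pool.Agent.MP_19ffc6_ag.LU2

open Polynomial IntermediateField NNReal Pool.Agent.MP_19ffc6_ag.LU

/-! ### Pure combinatorics and algebra -/

/-- Convexity lemma: an infinite stationary run is impossible. -/
def ConvStmt : Prop :=
  ∀ (Λ : AddSubgroup ℝ), Λ.FG → ∀ (S : ℕ → Finset (ℝ × ℤ)) (G : ℕ → ℝ) (Dm : ℤ) (W : ℝ),
    (∀ n, ∀ x ∈ S n, x.1 ∈ Λ ∧ x.2 ≤ Dm) → StrictMono G → (∀ n, G n ≤ W) → 0 < G 0 →
    (∀ x ∈ S 0, 0 ≤ x.1) → (∀ n, ∀ x ∈ S n, x.2 * G n ≤ x.1) →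
    (∀ n, ∃ x ∈ S n, 0 < x.2 ∧ x.1 = x.2 * G n) →
    (∀ n, ∀ x' ∈ S (n + 1), ∃ x ∈ S n, x.2 ≤ x'.2 ∧ x'.1 = x.1 + (x'.2 - x.2) * G n) → False

/-- The arithmetic of the cycles D, L, D. -/
def ArithStmt (p : ℕ) : Prop :=
  ∀ (s g J : ℕ) (b : ℝ), p ∣ s → 2 ≤ s → 1 ≤ g → g ≤ s → 1 ≤ b → LDnum p (qq p s) b g J →
    (∀ (b0 : ℝ) (g0 J0 : ℕ), 1 ≤ b0 → 1 ≤ g0 → g0 * b ≤ J0 →
      (g0 * b = J0 → g0 < qq p s → g ≤ g0) →
      ((J0 : ℝ) ≤ 1 + g0 * b0 ∨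
        (g0 = qq p s ∧ (J0 : ℝ) ≤ 2 + g0 * b0 ∧ 2 * (g0 : ℝ) ≤ 1 + g0 * b0)) →
      (J : ℝ) < 1 + g * b0) ∧
    (b = 1 → J + 1 ≤ g) ∧
    (b * (s - 1) ≤ s → (s = 2 → b = 2 → g = 1) → J ≤ g ∧ (g = s → J + 1 ≤ g))

section

variable (k : Type*) [Field k] (p : ℕ)

/-- Orders of vanishing at a nonzero point. -/
structure OrdStmt : Prop where
  /-- range bound -/
  o1 : ∀ (G : k[X]) (κ : k) (R : ℕ), κ ≠ 0 → G ≠ 0 →
    (∀ e e', G.coeff e ≠ 0 → G.coeff e' ≠ 0 → e ≤ e' + R) →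
    ∃ j ≤ R, (taylor κ G).coeff j ≠ 0
  /-- range bound in a cleaned class -/
  o2 : ∀ (G : k[X]) (κ : k) (R : ℕ), κ ≠ 0 → G ≠ 0 → (∀ e, G.coeff e ≠ 0 → ¬ p ∣ e) →
    (∀ e e', G.coeff e ≠ 0 → G.coeff e' ≠ 0 → e ≤ e' + R) →
    ∃ j ≤ R + 1, (taylor κ G).coeff j ≠ 0 ∧ ¬ p ∣ j
  /-- the bound of Moh; `t` is the least `p`-adic valuation of `e - n` -/
  o3 : ∀ (G l : k[X]) (κ c : k) (a t n R : ℕ), κ ≠ 0 → t < a →
    (∀ e, G.coeff e ≠ 0 → (p : ℤ) ^ t ∣ (e : ℤ) - n) →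
    (∃ e, G.coeff e ≠ 0 ∧ ¬ (p : ℤ) ^ (t + 1) ∣ (e : ℤ) - n) →
    (∀ e e', G.coeff e ≠ 0 → G.coeff e' ≠ 0 → ¬ (p : ℤ) ^ (t + 1) ∣ (e : ℤ) - n →
      ¬ (p : ℤ) ^ (t + 1) ∣ (e' : ℤ) - n → e ≤ e' + R) →
    ∃ j ≤ R + p ^ t, (taylor κ G + l ^ p ^ a * taylor κ (monomial n c)).coeff j ≠ 0
  /-- degree bound -/
  o4 : ∀ (G l : k[X]) (κ c : k) (a : ℕ), (∃ e, G.coeff e ≠ 0 ∧ ¬ p ^ a ∣ e) →
    ∃ j ≤ G.natDegree, (taylor κ G + l ^ p ^ a * C c).coeff j ≠ 0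
  /-- degree bound for the top `u` -/
  o5 : ∀ (G l : k[X]) (κ c : k) (a m : ℕ), 0 < a → G.natDegree ≤ m →
    (∃ e, G.coeff e ≠ 0 ∧ ¬ (p : ℤ) ^ a ∣ (e : ℤ) - 1) →
    ∃ j, (j ≤ m ∨ (p ^ a ∣ m ∧ j = m + 1)) ∧
      (taylor κ G + l ^ p ^ a * taylor κ (monomial 1 c)).coeff j ≠ 0

/-- The effect of a shift on the coefficients of the face. -/
structure LucStmt : Prop where
  q_le : ∀ s, 2 ≤ s → qq p s ≤ s ∧ (¬ p ∣ s → qq p s < s ∧ ¬ p ∣ s - qq p s) ∧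
    ((s.choose (qq p s) : k) ≠ 0)
  /-- below a run of vanishing relevant heights only the top contributes -/
  coeff : ∀ (E : k[X][X]) (l : k[X]) (s i : ℕ), E.natDegree ≤ s → i < s → Relv p s i →
    (∀ i', i < i' → i' < s → Relv p s i' → E.coeff i' = 0) →
    (taylor l E).coeff i = E.coeff i + l ^ (s - i) * (C (s.choose (s - i) : k) * E.coeff s)
  choose : ∀ s g, 2 ≤ s → 0 < g → g < qq p s → Relv p s (s - g) → (s.choose g : k) = 0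
  choose' : ∀ s g, p ∣ s → (s.choose g : k) ≠ 0 → p ∣ g
  /-- a shift of large order can be undone -/
  back : ∀ (E : k[X][X]) (l : k[X]) (χ : ℕ → Prop) (s : ℕ) (e b : ℝ), E.natDegree ≤ s →
    (∀ i, χ i → p ∣ i) → (∀ i i', p ∣ i' → χ i → χ i') → (∀ m, l.coeff m ≠ 0 → b ≤ m) →
    (∀ i ≤ s, ∀ j, Ess p χ E i j → e + ((s : ℝ) - i) * b ≤ j) →
    ∀ i ≤ s, ∀ j, Ess p χ (taylor l E) i j → e + ((s : ℝ) - i) * b ≤ j

/-- The bounds for the new vertex after a transition. -/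
def BoundStmt : Prop :=
  ∀ (s ε ε' d n : ℕ) (b : ℝ) (adm : Prop) (χ : ℕ → Prop) (t κ : k) (G : ℕ → k[X])
    (jj : ℕ → ℕ → ℕ), FD p s ε ε' d n b adm χ t κ G jj →
    (¬ p ∣ s ∧ b = 1 ∧ adm ∧ χ (s - 1) ∧ (∀ i, i + 1 < s → G i = 0) ∧
      ∃ c e, c ≠ 0 ∧ G (s - 1) = monomial e c) ∨
    ∃ g J : ℕ, 1 ≤ g ∧ g ≤ s ∧
      (∀ (l : k[X]) (b' : ℝ), (l ≠ 0 → adm) →
        (∀ i < s, ∀ j, Ess p χ (taylor l (facePol s n t κ G)) i j → ε' + ((s : ℝ) - i) * b' ≤ j) →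
        ε' + g * b' ≤ J) ∧
      (p ∣ s → g < qq p s → ∀ l : k[X], (l ≠ 0 → adm) →
        ∃ j ≤ J, Ess p χ (taylor l (facePol s n t κ G)) (s - g) j) ∧
      (p ∣ s → ∀ i < s, G i ≠ 0 → i + g ≤ s) ∧
      (ε' = 1 → ∀ l : k[X], (l ≠ 0 → adm) → ∀ i < s, s < i + g → ∀ j,
        Ess p χ (taylor l (facePol s n t κ G)) i j → i + j ≠ s) ∧
      (ε' = ε → (J : ℝ) < ε + g * b ∨ (d = 1 ∧ (J : ℝ) ≤ ε + g * b ∧
        ∃ i < s, ∃ e, (G i).coeff e ≠ 0 ∧ (jj i e : ℝ) < ε + ((s : ℝ) - i) * b)) ∧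
      (ε = 1 → ε' = 0 → (J : ℝ) ≤ 1 + g * b ∨
        (g = qq p s ∧ (J : ℝ) ≤ 2 + g * b ∧ 2 * (g : ℝ) ≤ 1 + g * b)) ∧
      (ε = 0 → ε' = 1 → LDnum p (qq p s) b g J)

/-- One monomial shift inside the polygon. -/
def ShStmt : Prop :=
  ∀ (fl : Prop) (Λ : AddSubgroup ℝ) (Φ : Pol2 k) (P : Par) (a : ℝ) (m : ℕ) (c : k),
    PS fl p Λ Φ P → a ∈ Λ → (P.δ < a ∨ (P.δ = a ∧ P.b ≤ m)) →
    PS fl p Λ (cln fl p Λ (shp a (monomial m c) Φ)) P ∧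
    (Exact Φ P → Exact (cln fl p Λ (shp a (monomial m c) Φ)) P) ∧
    (∀ g, Uns fl p Λ Φ P g → Uns fl p Λ (cln fl p Λ (shp a (monomial m c) Φ)) P g) ∧
    (P.ε = 1 → P.b ≤ 0 → NoX Φ P → NoX (cln fl p Λ (shp a (monomial m c) Φ)) P) ∧
    ∀ θ, OnFace P θ a m → Dsc Φ P (cln fl p Λ (shp a (monomial m c) Φ)) P θ 0

/-- Finitely many shifts along a face. -/
def ShsStmt : Prop :=
  ∀ (fl : Prop) (Λ : AddSubgroup ℝ) (Φ Φ' : Pol2 k) (P : Par) (θ : ℝ), 0 < θ →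
    PS fl p Λ Φ P → Shs fl p Λ (OnFace P θ) Φ Φ' →
    PS fl p Λ Φ' P ∧ (Exact Φ P → Exact Φ' P) ∧
    (∀ g, Uns fl p Λ Φ P g → Uns fl p Λ Φ' P g) ∧ Dsc Φ P Φ' P θ 0 ∧
    (Above Φ P θ → Above Φ' P θ)

/-- Rescaling of `y` that keeps the vertex. -/
def ScStmt : Prop :=
  ∀ (fl : Prop) (Λ : AddSubgroup ℝ) (Φ : Pol2 k) (P : Par), PS fl p Λ Φ P → 0 ≤ P.b →
    (∀ ζ, 0 < ζ → PMul p Λ ζ → (∀ x ∈ Φ.support, 0 < P.cod x → ζ * P.cod x < P.dfc x) →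
      (∀ x ∈ Φ.support, P.s ≤ x.2.2 → x ≠ P.top → P.β + P.ε * ζ < x.1 + x.2.1 * ζ) →
      PS fl p Λ (scl ζ 0 Φ) ⟨P.β + P.ε * ζ, P.ε, P.s, P.δ + ζ * P.b, P.b⟩ ∧
      (∀ g, Uns fl p Λ Φ P g →
        Uns fl p Λ (scl ζ 0 Φ) ⟨P.β + P.ε * ζ, P.ε, P.s, P.δ + ζ * P.b, P.b⟩ g) ∧
      (0 < P.δ + ζ * P.b → ∀ x ∈ (scl ζ 0 Φ).support, x ≠ (P.β + P.ε * ζ, P.ε, P.s) →
        P.β + P.ε * ζ < x.1)) ∧
    ∃ e, 0 < e ∧ ∀ ζ, 0 < ζ → ζ < e →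
      (∀ x ∈ Φ.support, 0 < P.cod x → ζ * P.cod x < P.dfc x) ∧
      ∀ x ∈ Φ.support, P.s ≤ x.2.2 → x ≠ P.top → P.β + P.ε * ζ < x.1 + x.2.1 * ζ

/-- The first edge of the polygon is removed, or its lower vertex becomes the new vertex. -/
def SolveStmt : Prop :=
  ∀ (fl : Prop) (Λ : AddSubgroup ℝ) (Φ : Pol2 k) (P : Par) (θ : ℝ), PS fl p Λ Φ P → Exact Φ P →
    1 ≤ P.b → 0 < θ → Above Φ P θ → ∃ Φ', Shs fl p Λ (OnFace P θ) Φ Φ' ∧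
      ((∀ x ∈ Φ'.support, 0 < P.cod x → θ * P.cod x < P.dfc x) ∨
      ∃ b' e : ℝ, b' < P.b ∧ 0 < e ∧ ∀ ζ, θ < ζ → ζ < θ + e → PMul p Λ ζ →
        PS fl p Λ (scl ζ 0 Φ') ⟨P.β + P.ε * ζ, P.ε, P.s, P.δ + θ * P.b + (ζ - θ) * b', b'⟩ ∧
        Exact (scl ζ 0 Φ') ⟨P.β + P.ε * ζ, P.ε, P.s, P.δ + θ * P.b + (ζ - θ) * b', b'⟩ ∧
        Uns fl p Λ (scl ζ 0 Φ')
          ⟨P.β + P.ε * ζ, P.ε, P.s, P.δ + θ * P.b + (ζ - θ) * b', b'⟩ P.s ∧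
        0 < P.δ + θ * P.b + (ζ - θ) * b')

/-- Preparation of a face. -/
def PrepStmt : Prop :=
  ∀ (fl : Prop) (Λ : AddSubgroup ℝ) (Φ : Pol2 k) (P : Par) (θ : ℝ), PS fl p Λ Φ P → Exact Φ P →
    1 ≤ P.b → 0 < θ → Above Φ P θ → ∃ Φ', Shs fl p Λ (OnFace P θ) Φ Φ' ∧ Prep p Λ Φ' P θ ∧
      ((∃ x ∈ Φ'.support, 0 < P.cod x ∧ P.dfc x = θ * P.cod x) →
        ∃ x ∈ Φ.support, 0 < P.cod x ∧ P.dfc x = θ * P.cod x)

open Classical in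
/-- The face data of a prepared state. -/
def FaceStmt : Prop :=
  ∀ (fl : Prop) (Λ Λ' : AddSubgroup ℝ) (Φ : Pol2 k) (P : Par) (η : ℝ) (d n0 : ℕ) (σ : ℝ → ℤ)
    (κ : k), PS fl p Λ Φ P → Exact Φ P → 1 ≤ P.b → Uns fl p Λ Φ P P.s → SD Λ Λ' η d σ →
    Above Φ P η → Prep p Λ Φ P η → κ ≠ 0 → p ∣ n0 → (d = 1 → n0 = 0) →
    (∀ x ∈ Φ.support, 0 ≤ ex η d σ x + n0) →
    ∃ (ε' n : ℕ) (jj : ℕ → ℕ → ℕ),
      FD p P.s P.ε ε' d n P.b (P.δ + η * P.b ∈ Λ')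
        (fun i => fl ∧ PMul p Λ' (P.β + P.ε * η + ((P.s : ℝ) - i) * (P.δ + η * P.b)) ∧ p ∣ i)
        (Φ P.top) κ
        (fun i => fib η d σ n0 Φ (P.β + P.ε * η + ((P.s : ℝ) - i) * (P.δ + η * P.b)) i) jj ∧
      diag (stp η d σ n0 κ Φ) (P.δ + η * P.b) (P.β + P.ε * η + P.s * (P.δ + η * P.b)) =
        facePol P.s n (Φ P.top) κ
          (fun i => fib η d σ n0 Φ (P.β + P.ε * η + ((P.s : ℝ) - i) * (P.δ + η * P.b)) i) ∧
      (∀ i < P.s, ∀ e, (fib η d σ n0 Φ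
          (P.β + P.ε * η + ((P.s : ℝ) - i) * (P.δ + η * P.b)) i).coeff e ≠ 0 →
        ∃ x, Face Φ P η x ∧ x.2.2 = i ∧ x.2.1 = jj i e) ∧
      ∀ x, Face Φ P η x →
        fib η d σ n0 Φ (P.β + P.ε * η + ((P.s : ℝ) - x.2.2) * (P.δ + η * P.b)) x.2.2 ≠ 0

/-- The full transition on the level of polynomials. -/
def StepStmt : Prop :=
  ∀ (fl : Prop) (Λ Λ' : AddSubgroup ℝ) (Φ : Pol2 k) (P : Par) (η W : ℝ) (d n0 : ℕ) (σ : ℝ → ℤ)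
    (κ : k), PS fl p Λ Φ P → Exact Φ P → 1 ≤ P.b → Uns fl p Λ Φ P P.s → SD Λ Λ' η d σ →
    Above Φ P η → Prep p Λ Φ P η → κ ≠ 0 → p ∣ n0 → (d = 1 → n0 = 0) →
    (∀ x ∈ Φ.support, 0 ≤ ex η d σ x + n0) → η * P.b ≤ W →
    ∃ (l : k[X]) (P' : Par) (Φ' : Pol2 k), (l ≠ 0 → P'.δ ∈ Λ') ∧ P'.β = P.β + P.ε * η ∧
      P'.s = P.s ∧ P'.δ = P.δ + η * P.b ∧ Φ' = cln fl p Λ' (shp P'.δ l (stp η d σ n0 κ Φ)) ∧
      PS fl p Λ' Φ' P' ∧ (Exc fl p Λ' Φ' P' ∨ (Uns fl p Λ' Φ' P' P'.s ∧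
        Tr fl p Λ W Φ P Λ' Φ' P' ∧ (P'.ε = P.ε → P'.b = P.b → Exact Φ' P')))

end

/-! ### Stages -/

section

variable (k Ω : Type*) [Field k] [NontriviallyNormedField Ω] [Algebra k Ω] (p : ℕ)

/-- Analytic facts on the local ring of a stage. -/
structure HS : Prop where
  der : ∀ (T : Set Ω) (s : St Ω) (K : IntermediateField k Ω) (D : Ω → Ω) (A : ℝ), T ⊆ K →
    s.M k ≤ K → IsDer K D → DB D s A → ∀ h ∈ s.H k T, ‖D h‖ ≤ Real.exp A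
  der' : ∀ (T : Set Ω) (s : St Ω) (K : IntermediateField k Ω) (D : Ω → Ω) (m : ℝ), T ⊆ K →
    s.M k ≤ K → IsDer K D → 0 ≤ m → (∀ α ∈ s.Λ, ‖D (s.mon α)‖ ≤ m * ‖s.mon α‖) →
    ‖D s.y‖ ≤ m → ‖D s.z‖ ≤ m → ∀ h ∈ s.H k T, ‖D h‖ ≤ m
  exists_db : ∀ (s : St Ω) (K : IntermediateField k Ω) (D : Ω → Ω), s.M k ≤ K → IsDer K D →
    ∃ A, DB D s A
  near : ∀ (T : Set Ω) (s : St Ω) (W : IntermediateField k Ω) (e : ℝ), e ≤ 1 →
    (∀ α ∈ s.Λ, 0 ≤ α → ∃ w ∈ W, ‖s.mon α - w‖ < e) → (∃ w ∈ W, ‖s.y - w‖ < e) →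
    (∃ w ∈ W, ‖s.z - w‖ < e) → ∀ h ∈ s.H k T, ∃ w ∈ W, ‖h - w‖ < e
  apx : ∀ (T : Set Ω) (s s' : St Ω) (π : ℝ), π ∈ s'.Λ → 0 < π → s'.Λ = s.Λ → s'.mon = s.mon →
    s.R0 k ≤ s'.R0 k → s.y / s.mon π ∈ s'.R0 k → s.z / s.mon π ∈ s'.R0 k →
    ∀ h ∈ s.H k T, Apx k T s' h
  nx_alg : ∀ (T : Set Ω) (s s' : St Ω), Nx k T s s' → Algebra.IsAlgebraic (s.M k) Ω →
    Algebra.IsAlgebraic (s'.M k) Ω ∧ s.M k ≤ hens (s'.M k) ∧
      s'.H k T ≤ (hens (s'.M k)).toSubalgebra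

/-- Realization of the operations on polynomials by changes of the stage. -/
structure RS : Prop where
  transl : ∀ (T : Set Ω) (s : St Ω) (w : Ω),
    w ∈ Algebra.adjoin k (s.mon '' {α | α ∈ s.Λ ∧ 0 ≤ α} ∪ {s.y}) → ‖s.z - w‖ < 1 →
    ∃ s' : St Ω, s'.toStage = s.toStage ∧ s'.z = s.z - w ∧ s'.R0 k = s.R0 k ∧
      s'.H k T = s.H k T ∧ Nx k T s s'
  shift : ∀ (s s' : St Ω) (a : ℝ) (l : k[X]), a ∈ s.Λ → s'.toStage = s.toStage →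
    s'.z = s.z - s.mon a * aeval s.y l → ∀ Φ, Supp s.Λ Φ → s'.ev k (shp a l Φ) = s.ev k Φ
  scale : ∀ (T : Set Ω) (s : St Ω) (ζ ξ : ℝ), ζ ∈ s.Λ → ξ ∈ s.Λ → 0 ≤ ζ → 0 ≤ ξ →
    (ζ = 0 ∨ ζ < nu s.y) → (ξ = 0 ∨ ξ < nu s.z) →
    ∃ s' : St Ω, s'.Λ = s.Λ ∧ s'.mon = s.mon ∧ s'.y = s.y / s.mon ζ ∧ s'.z = s.z / s.mon ξ ∧
      Nx k T s s' ∧ (∀ Φ, Supp s.Λ Φ → s'.ev k (scl ζ ξ Φ) = s.ev k Φ) ∧
      (∀ h, Apx k T s h → Apx k T s' h) ∧ (0 < ζ → 0 < ξ → ∀ h ∈ s.H k T, Apx k T s' h) ∧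
      ∀ (K : IntermediateField k Ω) (D : Ω → Ω) (A : ℝ), s.M k ≤ K → IsDer K D → DB D s A →
        DB D s' (A + max ζ ξ)
  swap : ∀ (T : Set Ω) (s : St Ω), ∃ s' : St Ω, s'.Λ = s.Λ ∧ s'.mon = s.mon ∧ s'.y = s.z ∧
    s'.z = s.y ∧ s'.R0 k = s.R0 k ∧ s'.H k T = s.H k T ∧ Nx k T s s' ∧
      ∀ Φ, s'.ev k (swp Φ) = s.ev k Φ
  step : ∀ (T : Set Ω) (s : St Ω), s.y ≠ 0 →
    ∃ (d : ℕ) (σ : ℝ → ℤ) (κ : k) (s' : St Ω) (u : Ω), SD s.Λ s'.Λ (nu s.y) d σ ∧ κ ≠ 0 ∧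
      s'.z = s.z ∧ Nx k T s s' ∧ s'.Good k T s.y ∧ u ∈ s'.H k T ∧ ‖u‖ = 1 ∧
      (∀ (Φ : Pol2 k) (n0 : ℕ), Supp s.Λ Φ → (∀ x ∈ Φ.support, 0 ≤ ex (nu s.y) d σ x + n0) →
        s'.ev k (stp (nu s.y) d σ n0 κ Φ) = u ^ n0 * s.ev k Φ) ∧
      ∀ (K : IntermediateField k Ω) (D : Ω → Ω) (A : ℝ), s.M k ≤ K → IsDer K D → DB D s A →
        DB D s' (A + nu s.y)
  clean : ∀ (cx : Cx Ω k) (s : St Ω) (Φ : Pol2 k) (r : Ω), Rp p cx s Φ r →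
    Rp p cx s (cln cx.fl p s.Λ Φ) r

/-- Isolation of a bottom monomial of least degree. -/
def IsoStmt : Prop :=
  ∀ (cx : Cx Ω k) (s : St Ω) (Φ : Pol2 k) (N δ B0 : ℝ) (h : Ω), N ∈ s.Λ → h ∈ s.H k cx.T →
    Rp p cx s Φ (s.mon N * h) → (∀ x ∈ Φ.support, ¬ PW2 cx.fl p s.Λ x) →
    (∀ x ∈ Φ.support, 0 ≤ x.1) → 0 ≤ δ → δ < nu s.z → B0 < N →
    (∀ x ∈ Φ.support, B0 ≤ x.1 + x.2.2 * δ) → (∃ x ∈ Φ.support, x.1 + x.2.2 * δ = B0) →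
    ∃ x0 ∈ Φ.support, x0.1 + x0.2.2 * δ = B0 ∧
      (∀ x ∈ Φ.support, x.1 + x.2.2 * δ = B0 → x0.2.1 + x0.2.2 < x.2.1 + x.2.2 ∨
        (x0.2.1 + x0.2.2 = x.2.1 + x.2.2 ∧ x.2.2 ≤ x0.2.2)) ∧
      ∃ s' B, Start p cx s' B x0.2.1 x0.2.2 ∧ s'.Λ = s.Λ ∧ PMul p s.Λ (B - x0.1)

/-- The first start. -/
def Init2Stmt : Prop := ∀ cx : Cx Ω k, cx.f ∈ cx.s0.H k cx.T → ∃ μ, Lower p cx μ

/-- The a priori bound. -/
def AprStmt : Prop :=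
  ∀ (cx : Cx Ω k) (X : WS p cx) (A0 : ℝ), X.Inv A0 → X.P.δ ≤ nu X.s.z →
    X.P.β + (X.P.s - 1) * X.P.δ ≤ A0 + nu (cx.D cx.f)

/-- The transition at `z`, when `z` is not smaller than the vertex. -/
def RhoStmt : Prop :=
  ∀ (cx : Cx Ω k) (X : WS p cx), nu X.s.z ≤ X.P.δ →
    ((nu X.s.z < X.P.δ ∨ 0 < X.P.b) → Lower p cx 2) ∧
    (X.P.δ ∉ X.s.Λ → Lower p cx X.P.s ∨ (X.P.s = 2 ∧ X.P.ε = 1 ∧ StartX p cx 2))

/-- The exit from type D through a pure power of `y`. -/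
def X0Stmt : Prop :=
  ∀ (cx : Cx Ω k) (X : WS p cx), X.P.ε = 1 → 0 < X.P.δ → X.P.δ < nu X.s.z →
    (∀ x ∈ X.Φ.support, X.P.dfc x = 0 →
      X.P.s ≤ x.2.1 + x.2.2 ∧ (x.2.1 + x.2.2 = X.P.s → x.2.2 = 0)) →
    (∃ x ∈ X.Φ.support, X.P.dfc x = 0 ∧ x.2.1 = X.P.s ∧ x.2.2 = 0) →
    ∃ Y : WS p cx, Y.Pre ∧ Y.P.ε = 0 ∧ Y.P.s = X.P.s ∧ Y.P.b * (Y.P.s - 1) = Y.P.s ∧
      Y.U (Y.P.s - 1)

/-- The exit through the exceptional form. -/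
def ExcStmt : Prop :=
  ∀ (cx : Cx Ω k) (X : WS p cx), Exc cx.fl p X.s.Λ X.Φ X.P → X.P.δ < nu X.s.z →
    StartD p cx (X.P.s - 1)

/-- The exits when `b < 1`. -/
def LowbStmt : Prop :=
  ∀ (cx : Cx Ω k) (X : WS p cx), X.P.b < 1 → X.U X.P.s → 0 < X.P.δ →
    Lower p cx X.P.s ∨
    (X.P.ε = 1 ∧ StartX p cx X.P.s ∧ (¬ NoX X.Φ X.P ∨ (X.P.s = 2 ∧ X.P.δ ∉ X.s.Λ))) ∨
    (X.P.ε = 1 ∧ ¬ NoX X.Φ X.P ∧ X.P.b * X.P.s = X.P.s - 1 ∧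
      ∃ Y : WS p cx, Y.Pre ∧ Y.P.ε = 0 ∧ Y.P.s = X.P.s ∧ Y.P.b * (Y.P.s - 1) = Y.P.s ∧
        Y.U (Y.P.s - 1))

/-- Normal form in type D. -/
def NfdStmt : Prop :=
  ∀ (cx : Cx Ω k) (X : WS p cx) (A : ℝ), X.P.ε = 1 →
    (∀ x ∈ X.Φ.support, x ≠ X.P.top → X.P.β < x.1) → DB cx.D X.s A →
    ‖cx.D X.r‖ < ‖cx.D cx.f‖ →
    ∃ Y : WS p cx, Y.P = X.P ∧ Y.N = X.N ∧ Y.s.Λ = X.s.Λ ∧ Y.s.z = X.s.z ∧ DB cx.D Y.s A ∧
      ‖cx.D Y.r‖ < ‖cx.D cx.f‖ ∧ Exact Y.Φ Y.P ∧ vtx Y.Φ Y.P = vtx X.Φ X.P ∧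
      ∀ x ∈ Y.Φ.support, x ≠ Y.P.top → Y.P.β < x.1

/-- From starts to states. -/
structure StartStmt : Prop where
  swap : ∀ (cx : Cx Ω k) s B j i, Start p cx s B j i → ∃ s', Start p cx s' B i j
  virt : ∀ (cx : Cx Ω k) s B ε μ, Start p cx s B ε μ → ε ≤ 1 → 2 ≤ μ →
    (ε = 1 → cx.fl ∧ p ∣ μ ∧ PMul p s.Λ B) →
    ∃ (X : WS p cx) (A0 : ℝ), X.Full A0 ∧ X.P.ε = ε ∧ X.P.s = μ
  real : ∀ (cx : Cx Ω k) μ, StartX p cx μ → ∃ Y : WS p cx, Y.Pre ∧ Y.P.ε = 0 ∧ Y.P.s = μ ∧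
    Y.P.b = 1 ∧ Y.U μ ∧ (p ∣ μ → μ = 2 → Y.U 1)
  refresh : ∀ (cx : Cx Ω k) (Y : WS p cx), Y.Pre → Y.P.ε = 0 → 1 ≤ Y.P.b → Y.U Y.P.s →
    ∃ (X : WS p cx) (A0 : ℝ), X.Full A0 ∧ X.P = Y.P ∧ ∀ g, Y.U g → X.U g

/-- Realization of shifts along a face, and of a rescaling of `y`. -/
structure RealStmt : Prop where
  shs : ∀ (cx : Cx Ω k) (X : WS p cx) (A0 θ : ℝ) (Φ' : Pol2 k), X.Inv A0 → 0 < θ → 0 < X.P.b →
    X.P.δ < nu X.s.z → Shs cx.fl p X.s.Λ (OnFace X.P θ) X.Φ Φ' →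
    ∃ Y : WS p cx, Y.Φ = Φ' ∧ Y.P = X.P ∧ Y.s.Λ = X.s.Λ ∧ Y.s.y = X.s.y ∧ Y.Inv A0 ∧
      Y.P.δ < nu Y.s.z
  scl : ∀ (cx : Cx Ω k) (X : WS p cx) (A0 ζ : ℝ) (P' : Par), X.Inv A0 → ζ ∈ X.s.Λ → 0 < ζ →
    ζ < nu X.s.y → PS cx.fl p X.s.Λ (scl ζ 0 X.Φ) P' → P'.s = X.P.s →
    P'.lev ≤ (2 * (A0 + nu (cx.D cx.f)) + 2) * (X.P.s + 1) →
    ∃ Y : WS p cx, Y.Φ = scl ζ 0 X.Φ ∧ Y.P = P' ∧ Y.s.Λ = X.s.Λ ∧ Y.s.z = X.s.z ∧
      (X.P.δ + ζ ≤ P'.δ → Y.Inv A0)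
  step : ∀ (cx : Cx Ω k) (X : WS p cx) (A0 : ℝ), X.Inv A0 → 1 ≤ X.P.b →
    ∃ (d n0 : ℕ) (σ : ℝ → ℤ) (κ : k) (Λ' : AddSubgroup ℝ), SD X.s.Λ Λ' (nu X.s.y) d σ ∧ κ ≠ 0 ∧
      p ∣ n0 ∧ (d = 1 → n0 = 0) ∧ (∀ x ∈ X.Φ.support, 0 ≤ ex (nu X.s.y) d σ x + n0) ∧
      ∀ (l : k[X]) (P' : Par), (l ≠ 0 → P'.δ ∈ Λ') → P'.s = X.P.s →
        P'.δ = X.P.δ + nu X.s.y * X.P.b →
        PS cx.fl p Λ' (cln cx.fl p Λ' (shp P'.δ l (stp (nu X.s.y) d σ n0 κ X.Φ))) P' →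
        P'.lev ≤ (2 * (A0 + nu (cx.D cx.f)) + 2) * (X.P.s + 1) →
        ∃ Y : WS p cx, Y.Φ = cln cx.fl p Λ' (shp P'.δ l (stp (nu X.s.y) d σ n0 κ X.Φ)) ∧
          Y.P = P' ∧ Y.s.Λ = Λ' ∧ Y.Inv A0

/-- One move of the engine. -/
def MoveStmt : Prop :=
  ∀ (cx : Cx Ω k) (X : WS p cx) (A0 : ℝ), X.Full A0 →
    Lower p cx 2 ∨ StartD p cx (X.P.s - 1) ∨
    ∃ Y : WS p cx, X.Tr (A0 + nu (cx.D cx.f) + 2) Y ∧
      ((Y.U Y.P.s ∧ 0 < Y.P.δ ∧ Y.P.b < 1) ∨ Y.Full A0)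

/-- Termination of the moves that keep the type. -/
def RunStmt : Prop :=
  ∀ (cx : Cx Ω k) (A0 W : ℝ) (Q : WS p cx → Prop) (Goal : Prop),
    (∀ X, X.Full A0 → Q X → Goal ∨ ∃ Y : WS p cx, Y.Full A0 ∧ Q Y ∧ Y.P.s = X.P.s ∧
      Y.P.ε = X.P.ε ∧ (Y.P.b < X.P.b ∨
        (Y.P.b = X.P.b ∧ Stat X.s.Λ W X.Φ X.P Y.s.Λ Y.Φ Y.P))) →
    ∀ X, X.Full A0 → Q X → Goal

/-- The engine. -/
def EngineStmt : Prop := ∀ (cx : Cx Ω k) (μ : ℕ), Lower p cx μ → Lower p cx 2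

/-- Perturbation: a field that approximates the generators of a stage adically has the stage
in its henselization. -/
def PertStmt : Prop :=
  ∀ (T : Set Ω) (s : St Ω) (K W : IntermediateField k Ω) (μ : ℝ), K.FG → T ⊆ K → s.M k ≤ K →
    W ≤ K → SepOver (s.M k ⊔ W) K → μ ∈ s.Λ → 0 < μ →
    (∀ α ∈ s.Λ, ∃ m ∈ W, ∃ h ∈ s.H k T, s.mon α = m * (1 + s.mon μ * h)) →
    (∃ m ∈ W, ∃ h ∈ s.H k T, s.y = m + s.mon μ * h) →
    (∃ m ∈ W, ∃ h ∈ s.H k T, s.z = m + s.mon μ * h) → SepOver W K ∧ s.M k ≤ hens W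

/-- The terminal states in the purely inseparable case. -/
def TermStmt : Prop :=
  ∀ cx : Cx Ω k, cx.fl → cx.K.FG → Strong cx.K cx.s0 → Lower p cx 2 → ∀ w : Ω, w ^ p = cx.f →
    ∃ s', Strong (cx.K ⊔ adjoin k {w}) s'

/-- The terminal states of monomialization. -/
def LinStmt : Prop :=
  ∀ cx : Cx Ω k, ¬ cx.fl → Lower p cx 2 → ∃ s', Nx k ∅ cx.s0 s' ∧ s'.Good k ∅ cx.f

/-- Monomialization. -/
def Mon2Stmt : Prop :=
  NA2 k Ω → ∀ (s : St Ω) (Z : Finset Ω), Algebra.IsAlgebraic (s.M k) Ω →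
    (∀ b ∈ Z, b ∈ s.M k ∧ b ≠ 0) → ∃ s', Nx k ∅ s s' ∧ ∀ b ∈ Z, s'.Good k ∅ b

/-- An element that is not a `p`-th power is not killed by all derivations. -/
def DerExStmt : Prop :=
  ∀ K : IntermediateField k Ω, K.FG → ∀ f ∈ K, (∀ a ∈ K, a ^ p ≠ f) →
    ∃ D : Ω → Ω, IsDer K D ∧ D f ≠ 0

/-- Ascent along a purely inseparable extension of degree `p`. -/
def PIStmt : Prop :=
  NA2 k Ω → ∀ (K : IntermediateField k Ω) (s : St Ω), K.FG → Strong K s → ∀ w : Ω, w ^ p ∈ K →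
    ∃ s', Strong (K ⊔ adjoin k {w}) s'

/-- Descent along a purely inseparable extension. -/
def TowerStmt : Prop :=
  NA2 k Ω → ∀ (K K' : IntermediateField k Ω) (N : ℕ) (s : St Ω), K.FG → K'.FG → K ≤ K' →
    (∀ a ∈ K', a ^ p ^ N ∈ K) → Weak K' s → ∃ s', Weak K s'

/-- Descent of a stage from the henselization of `F` to `F`. -/
def Desc2Stmt : Prop :=
  NA2 k Ω → ∀ (F : IntermediateField k Ω) (s : St Ω), Weak F s → ∃ s', Strong F s'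

/-- The smooth model. -/
def Final2Stmt : Prop :=
  NA2 k Ω → ∀ (F : IntermediateField k Ω) (s : St Ω) (Z : Finset Ω), F.FG → Strong F s →
    (∀ z ∈ Z, z ∈ F ∧ ‖z‖ ≤ 1) → ∃ A, Model F Z A

/-- The first stage. -/
def InitKStmt : Prop :=
  ∀ (F : IntermediateField k Ω), F.FG → Algebra.IsAlgebraic F Ω →
    ∀ (r : ℕ) (x : Fin r → Ω), (∀ i, x i ∈ F ∧ x i ≠ 0) →
    LinearIndependent ℤ (fun i => nu (x i)) → 2 ≤ r → Algebra.trdeg k F ≤ r + 2 →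
    (∃ (r' : ℕ) (x' : Fin r' → Ω), (∀ i, x' i ∈ F ∧ x' i ≠ 0) ∧
      LinearIndependent ℤ (fun i => nu (x' i)) ∧ Algebra.trdeg k F ≤ r' + 1) ∨
    (NA2 k Ω ∧ ∃ s : St Ω, s.M k ≤ F ∧ Algebra.IsAlgebraic (s.M k) Ω)

/-! ### Relative uniformization -/

/-- Simple roots lie in a henselian field. -/
def HenselStmt : Prop :=
  ∀ L : IntermediateField k Ω, Algebra.IsAlgebraic L Ω → IsHens L →
    ∀ (Q : Polynomial Ω) (η : Ω), (∀ i, Q.coeff i ∈ L ∧ ‖Q.coeff i‖ ≤ 1) → Q.eval η = 0 →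
    ‖η‖ ≤ 1 → ‖Q.derivative.eval η‖ = 1 → η ∈ L

/-- Relative henselian rationality, after a purely inseparable extension. -/
def RelStmt : Prop :=
  ∀ (F K1 : IntermediateField k Ω) (w0 : Ω), F.FG → K1.FG → K1 ≤ F → Algebra.IsAlgebraic F Ω →
    Algebra.IsAlgebraic ↥(K1 ⊔ adjoin k {w0}) Ω →
    (∀ a : Ω, a ≠ 0 → ∃ d : ℕ, 0 < d ∧ ∃ b ∈ K1, ‖b‖ = ‖a‖ ^ d) →
    ∃ (L1 F2 : IntermediateField k Ω) (y : Ω) (N : ℕ), L1.FG ∧ K1 ≤ L1 ∧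
      (∀ a ∈ L1, IsAlgebraic K1 a) ∧ F2.FG ∧ F ≤ F2 ∧ (∀ a ∈ F2, a ^ p ^ N ∈ F) ∧
      L1 ⊔ adjoin k {y} ≤ hens F2 ∧ F2 ≤ hens (L1 ⊔ adjoin k {y})

/-- The theorem in rational rank `n - 1` for a subfield over which `Ω` is not algebraic. -/
def LowStmt : Prop :=
  ∀ L : IntermediateField k Ω, L.FG → ∀ (r : ℕ) (x : Fin r → Ω), (∀ i, x i ∈ L ∧ x i ≠ 0) →
    LinearIndependent ℤ (fun i => nu (x i)) → Algebra.trdeg k L ≤ r + 1 →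
    (∀ a : Ω, a ≠ 0 → ∃ d : ℕ, 0 < d ∧ ∃ b ∈ L, b ≠ 0 ∧ nu b = d * nu a) →
    ∃ s : Stage Ω, s.M k ≤ hens L ∧ L ≤ hens (s.M k)

/-- A stage for a purely inseparable extension. -/
def RStmt : Prop :=
  ∀ (K : IntermediateField k Ω) (s : St Ω), K.FG → Algebra.IsAlgebraic (s.M k) Ω → s.M k ≤ K →
    ∃ (K' : IntermediateField k Ω) (N : ℕ) (s' : St Ω), K'.FG ∧ K ≤ K' ∧
      (∀ a ∈ K', a ^ p ^ N ∈ K) ∧ Weak K' s'

/-- The theorem inside `Ω`. -/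
def Core2Stmt : Prop :=
  ∀ (F : IntermediateField k Ω), F.FG → Algebra.IsAlgebraic F Ω →
    ∀ (r : ℕ) (x : Fin r → Ω), (∀ i, x i ∈ F ∧ x i ≠ 0) →
    LinearIndependent ℤ (fun i => nu (x i)) → 2 ≤ r → Algebra.trdeg k F ≤ r + 2 →
    ∀ Z : Finset Ω, (∀ z ∈ Z, z ∈ F ∧ ‖z‖ ≤ 1) → ∃ A, Model F Z A

end

/-- The theorem for an abstract function field. -/
def Result2Stmt (k F : Type*) [Field k] [Field F] [Algebra k F] : Prop :=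
  (⊤ : IntermediateField k F).FG → ∀ v : Valuation F ℝ≥0,
    (∀ c : k, c ≠ 0 → v (algebraMap k F c) = 1) →
    (∀ a : F, v a ≤ 1 → ∃ c : k, v (a - algebraMap k F c) < 1) →
    ∀ (r : ℕ) (x : Fin r → F), (∀ i, x i ≠ 0) →
    (∀ m : Fin r → ℤ, ∏ i, v (x i) ^ m i = 1 → m = 0) → 2 ≤ r → Algebra.trdeg k F ≤ r + 2 →
    ∀ Z : Finset F, (∀ z ∈ Z, v z ≤ 1) →
      ∃ A : Subalgebra k F, A.FG ∧ (∀ a ∈ A, v a ≤ 1) ∧ (∀ z ∈ Z, z ∈ A) ∧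
        IsFractionRing A F ∧ Algebra.Smooth k A

universe u v

/-- Reduction of the theorem to the normed algebraically closed setting. -/
def Glue2Stmt (k : Type u) (F : Type v) [Field k] [Field F] [Algebra k F] (p : ℕ) : Prop :=
  (∀ (Ω : Type v) [NontriviallyNormedField Ω] [IsUltrametricDist Ω] [Algebra k Ω]
    [IsAlgClosed Ω] [Ctx k Ω] [CharP Ω p], Core2Stmt k Ω) → Result2Stmt k F

end Pool.Agent.MP_19ffc6_ag.LU2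

end MrgPart1

-- ======== part 2: formerly Pool.Agent.MP_19ffc6_ag.LU2.Tower
section MrgPart2

/-! PROJECT LU2, module TOWER: descent along a purely inseparable extension, by a Frobenius twist
followed by finitely many ascents of degree `p`. -/

namespace Pool.Agent.MP_19ffc6_ag.LU2

open Polynomial IntermediateField Pool.Agent.MP_19ffc6_ag.LU

namespace Tower

section twist

variable {k Ω : Type*} [Field k] [NontriviallyNormedField Ω] [Algebra k Ω]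

/-- A power map which is a ring homomorphism, is onto, and maps the constants onto themselves. -/
structure Tw (k : Type*) {Ω : Type*} [Field k] [Field Ω] [Algebra k Ω] (φ : Ω →+* Ω) (q : ℕ) :
    Prop where
  pos : 0 < q
  app : ∀ a, φ a = a ^ q
  surj : Function.Surjective φ
  const : ∀ c : k, ∃ c' : k, φ (algebraMap k Ω c') = algebraMap k Ω c

variable {φ : Ω →+* Ω} {q : ℕ}

/-- The image of an intermediate field under the power map. -/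
def frob (h : Tw k φ q) (M : IntermediateField k Ω) : IntermediateField k Ω :=
  (M.toSubfield.map φ).toIntermediateField fun c => by
    obtain ⟨c', hc⟩ := h.const c
    exact ⟨_, M.algebraMap_mem c', hc⟩

theorem mem_frob (h : Tw k φ q) {M : IntermediateField k Ω} {a : Ω} :
    a ∈ frob h M ↔ ∃ b ∈ M, φ b = a := Iff.rfl

theorem app_mem_frob (h : Tw k φ q) {M : IntermediateField k Ω} {a : Ω} (ha : a ∈ M) :
    φ a ∈ frob h M := ⟨a, ha, rfl⟩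

theorem frob_mono (h : Tw k φ q) {M K : IntermediateField k Ω} (hMK : M ≤ K) :
    frob h M ≤ frob h K := by
  rintro _ ⟨b, hb, rfl⟩
  exact ⟨b, hMK hb, rfl⟩

theorem frob_adjoin (h : Tw k φ q) (S : Set Ω) : frob h (adjoin k S) = adjoin k (φ '' S) := by
  apply le_antisymm
  · rintro _ ⟨b, hb, rfl⟩
    have hle : adjoin k S ≤ ((adjoin k (φ '' S)).toSubfield.comap φ).toIntermediateField
        (fun c => by
          show φ (algebraMap k Ω c) ∈ adjoin k (φ '' S)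
          rw [h.app]
          exact pow_mem ((adjoin k (φ '' S)).algebraMap_mem c) q) :=
      adjoin_le_iff.2 fun a ha => subset_adjoin k (φ '' S) ⟨a, ha, rfl⟩
    exact hle hb
  · refine adjoin_le_iff.2 ?_
    rintro _ ⟨a, ha, rfl⟩
    exact app_mem_frob h (subset_adjoin k S ha)

theorem frob_fg (h : Tw k φ q) {M : IntermediateField k Ω} (hM : M.FG) : (frob h M).FG := by
  obtain ⟨t, ht, rfl⟩ := fg_def.1 hM
  rw [frob_adjoin]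
  exact fg_adjoin_of_finite (ht.image _)

/-- The power map from a field onto its image. -/
def toFrob (h : Tw k φ q) (M : IntermediateField k Ω) : M →+* frob h M where
  toFun a := ⟨φ a, app_mem_frob h a.2⟩
  map_one' := Subtype.ext (map_one φ)
  map_mul' a b := Subtype.ext (map_mul φ (a : Ω) b)
  map_zero' := Subtype.ext (map_zero φ)
  map_add' a b := Subtype.ext (map_add φ (a : Ω) b)

theorem aeval_map (h : Tw k φ q) (M : IntermediateField k Ω) (P : M[X]) (a : Ω) :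
    aeval (φ a) (P.map (toFrob h M)) = φ (aeval a P) :=
  (map_aeval_eq_aeval_map (φ := toFrob h M) (ψ := φ) (RingHom.ext fun _ => rfl) P a).symm

theorem sep_frob (h : Tw k φ q) {M : IntermediateField k Ω} {a : Ω} (ha : IsSeparable M a) :
    IsSeparable (frob h M) (φ a) := by
  have h1 : ((minpoly M a).map (toFrob h M)).Separable := Separable.map ha
  refine h1.of_dvd (minpoly.dvd _ _ ?_)
  rw [aeval_map, minpoly.aeval, map_zero]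

theorem alg_frob (h : Tw k φ q) {M : IntermediateField k Ω} (hM : Algebra.IsAlgebraic M Ω) :
    Algebra.IsAlgebraic (frob h M) Ω := by
  refine ⟨fun a => ?_⟩
  obtain ⟨b, rfl⟩ := h.surj a
  obtain ⟨P, hP, hb⟩ := hM.1 b
  exact ⟨P.map (toFrob h M), Polynomial.map_ne_zero hP, by rw [aeval_map, hb, map_zero]⟩

theorem frob_hens (h : Tw k φ q) (M : IntermediateField k Ω) :
    frob h (hens M) ≤ hens (frob h M) := by
  rintro _ ⟨a, ha, rfl⟩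
  obtain ⟨h1, h2⟩ := mem_hens_iff.1 ha
  refine mem_hens_iff.2 ⟨sep_frob h h1, fun ε hε => ?_⟩
  obtain ⟨b, hb, hab⟩ := h2 (min 1 ε) (lt_min one_pos hε)
  refine ⟨φ b, app_mem_frob h hb, ?_⟩
  rw [← map_sub, h.app, norm_pow]
  exact (pow_le_of_le_one (norm_nonneg _) (hab.le.trans (min_le_left _ _)) h.pos.ne').trans_lt
    (hab.trans_le (min_le_right _ _))

/-- The lattice `q Λ`. -/
noncomputable def lat (q : ℕ) (Λ : AddSubgroup ℝ) : AddSubgroup ℝ :=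
  Λ.comap (AddMonoidHom.mulRight (q : ℝ)⁻¹)

theorem mem_lat {Λ : AddSubgroup ℝ} {α : ℝ} : α ∈ lat q Λ ↔ α * (q : ℝ)⁻¹ ∈ Λ := Iff.rfl

theorem lat_le (hq : 0 < q) (Λ : AddSubgroup ℝ) : lat q Λ ≤ Λ := fun α hα => by
  have h1 := natCast_mul_mem (mem_lat.1 hα) q
  have h0 : (q : ℝ) ≠ 0 := Nat.cast_ne_zero.2 hq.ne'
  have h2 : (q : ℝ) * (α * (q : ℝ)⁻¹) = α := by field_simp
  rwa [h2] at h1

theorem mul_mem_lat (hq : 0 < q) {Λ : AddSubgroup ℝ} {α : ℝ} (hα : α ∈ Λ) :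
    α * q ∈ lat q Λ := by
  have h0 : (q : ℝ) ≠ 0 := Nat.cast_ne_zero.2 hq.ne'
  rwa [mem_lat, mul_inv_cancel_right₀ h0]

/-- The twisted stage. -/
noncomputable def tws (hq : 0 < q) (s : St Ω) : St Ω where
  Λ := lat q s.Λ
  fg := fg_of_le s.fg (lat_le hq s.Λ)
  full a ha := by
    obtain ⟨d, hd, h⟩ := s.full a ha
    refine ⟨d * q, Nat.mul_pos hd hq, ?_⟩
    have h1 := mul_mem_lat hq h
    have h2 : (d : ℝ) * nu a * q = ((d * q : ℕ) : ℝ) * nu a := by push_cast; ring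
    rwa [h2] at h1
  mon α := s.mon (α * (q : ℝ)⁻¹) ^ q
  mon_add α hα β hβ := by
    rw [add_mul, s.mon_add _ (mem_lat.1 hα) _ (mem_lat.1 hβ), mul_pow]
  norm_mon α hα := by
    have h0 : (q : ℝ) ≠ 0 := Nat.cast_ne_zero.2 hq.ne'
    have h2 : (q : ℝ) * -(α * (q : ℝ)⁻¹) = -α := by field_simp
    rw [norm_pow, s.norm_mon _ (mem_lat.1 hα), ← Real.exp_nat_mul, h2]
  y := s.y ^ q
  norm_y := by
    rw [norm_pow]
    exact pow_lt_one₀ (norm_nonneg _) s.norm_y hq.ne'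
  z := s.z ^ q
  norm_z := by
    rw [norm_pow]
    exact pow_lt_one₀ (norm_nonneg _) s.norm_z hq.ne'
  dense := by
    have h0 : (q : ℝ)⁻¹ ≠ 0 := inv_ne_zero (Nat.cast_ne_zero.2 hq.ne')
    exact s.dense.preimage (Homeomorph.mulRight₀ _ h0).isOpenMap

theorem tws_gens (h : Tw k φ q) (s : St Ω) : (tws h.pos s).gens = φ '' s.gens := by
  have h0 : (q : ℝ) ≠ 0 := Nat.cast_ne_zero.2 h.pos.ne'
  rw [St.gens, St.gens, Set.image_union, Set.image_pair, h.app, h.app]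
  have h1 : (tws h.pos s).mon '' (tws h.pos s).Λ = φ '' (s.mon '' s.Λ) := by
    ext a
    constructor
    · rintro ⟨α, hα, rfl⟩
      exact ⟨_, ⟨_, mem_lat.1 hα, rfl⟩, h.app _⟩
    · rintro ⟨_, ⟨α, hα, rfl⟩, rfl⟩
      refine ⟨α * q, mul_mem_lat h.pos hα, ?_⟩
      show s.mon (α * q * (q : ℝ)⁻¹) ^ q = _
      rw [mul_inv_cancel_right₀ h0, h.app]
  rw [h1]
  rfl

theorem tws_M (h : Tw k φ q) (s : St Ω) : (tws h.pos s).M k = frob h (s.M k) := by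
  rw [St.M, St.M, frob_adjoin, tws_gens h]

theorem strong_frob (h : Tw k φ q) {K : IntermediateField k Ω} {s : St Ω} (hs : Strong K s) :
    Strong (frob h K) (tws h.pos s) := by
  obtain ⟨h1, h2, h3⟩ := hs
  refine ⟨?_, ?_, ?_⟩
  · rw [tws_M h]
    exact alg_frob h h1
  · rw [tws_M h]
    exact frob_mono h h2
  · rw [tws_M h]
    exact (frob_mono h h3).trans (frob_hens h _)

theorem M_fg (s : St Ω) : (s.M k).FG := by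
  have h1 : s.M k = s.toStage.M k ⊔ adjoin k {s.z} := by
    rw [St.M, Stage.M, ← adjoin_union, St.gens, Stage.gens, Set.union_assoc]
    rfl
  rw [h1]
  exact fg_sup (s.toStage.M_fg k) (fg_adjoin_of_finite (Set.finite_singleton _))

end twist

variable {k Ω : Type*} [Field k] [NontriviallyNormedField Ω] [Algebra k Ω] {p : ℕ}

theorem tw_frob [IsAlgClosed k] [IsAlgClosed Ω] [Fact p.Prime] [CharP Ω p] (N : ℕ) :
    Tw k (iterateFrobenius Ω p N) (p ^ N) := by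
  have hq : 0 < p ^ N := pow_pos (Fact.out : p.Prime).pos N
  refine ⟨hq, fun _ => rfl, fun a => IsAlgClosed.exists_pow_nat_eq a hq, fun c => ?_⟩
  obtain ⟨c', hc⟩ := IsAlgClosed.exists_pow_nat_eq c hq
  exact ⟨c', by rw [iterateFrobenius_def, ← map_pow, hc]⟩

/-- Adjunction of one purely inseparable element. -/
theorem adj_one (hpi : PIStmt k Ω p) (hna : NA2 k Ω) {L : IntermediateField k Ω} (hL : L.FG)
    {s : St Ω} (hs : Strong L s) (n : ℕ) :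
    ∀ a : Ω, a ^ p ^ n ∈ L → ∃ s', Strong (L ⊔ adjoin k {a}) s' := by
  induction n with
  | zero =>
    intro a ha
    rw [pow_zero, pow_one] at ha
    have h1 : L ⊔ adjoin k {a} = L := sup_eq_left.2 (adjoin_simple_le_iff.2 ha)
    exact ⟨s, by rwa [h1]⟩
  | succ n ih =>
    intro a ha
    obtain ⟨s1, hs1⟩ := ih (a ^ p) (by rwa [← pow_mul, ← pow_succ'])
    obtain ⟨s2, hs2⟩ := hpi hna _ s1 (fg_sup hL (fg_adjoin_of_finite (Set.finite_singleton _)))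
      hs1 a ((le_sup_right : adjoin k {a ^ p} ≤ _) (mem_adjoin_simple_self k _))
    have h1 : adjoin k {a ^ p} ⊔ adjoin k {a} = adjoin k {a} :=
      sup_eq_right.2 (adjoin_simple_le_iff.2 (pow_mem (mem_adjoin_simple_self k a) p))
    exact ⟨s2, by rwa [sup_assoc, h1] at hs2⟩

/-- Adjunction of finitely many purely inseparable elements. -/
theorem adj_fin (hpi : PIStmt k Ω p) (hna : NA2 k Ω) {L : IntermediateField k Ω} (hL : L.FG)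
    {s : St Ω} (hs : Strong L s) (n : ℕ) {t : Set Ω} (ht : t.Finite) :
    (∀ a ∈ t, a ^ p ^ n ∈ L) → ∃ s', Strong (L ⊔ adjoin k t) s' := by
  induction t, ht using Set.Finite.induction_on with
  | empty => exact fun _ => ⟨s, by rwa [adjoin_empty, sup_bot_eq]⟩
  | @insert a t _ ht ih =>
    intro h
    obtain ⟨s1, hs1⟩ := ih fun b hb => h b (Set.mem_insert_of_mem _ hb)
    obtain ⟨s2, hs2⟩ := adj_one hpi hna (fg_sup hL (fg_adjoin_of_finite ht)) hs1 n a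
      ((le_sup_left : L ≤ _) (h a (Set.mem_insert _ _)))
    refine ⟨s2, ?_⟩
    rwa [sup_assoc, ← adjoin_union, Set.union_singleton] at hs2

end Tower

variable {k Ω : Type*} [Field k] [NontriviallyNormedField Ω] [IsUltrametricDist Ω] [Algebra k Ω]
  [IsAlgClosed k] [IsAlgClosed Ω] [Ctx k Ω] {p : ℕ} [Fact p.Prime] [CharP k p] [CharP Ω p]

open Tower in
omit [IsUltrametricDist Ω] [Ctx k Ω] [CharP k p] in
/-- Descent along a purely inseparable extension. -/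
theorem tower (hpi : PIStmt k Ω p) : TowerStmt k Ω p := by
  intro hna K K' N s hK hK' hKK' hq hw
  obtain ⟨h1, h2, h3⟩ := hw
  have h := tw_frob (k := k) (Ω := Ω) (p := p) N
  have hs : Strong (K' ⊔ s.M k) s := ⟨h1, le_sup_right, sup_le h3 (le_hens _)⟩
  obtain ⟨t, ht, rfl⟩ := fg_def.1 hK
  obtain ⟨s', g1, g2, g3⟩ := adj_fin hpi hna (frob_fg h (fg_sup hK' (M_fg s))) (strong_frob h hs)
    N ht fun a ha => app_mem_frob h ((le_sup_left : K' ≤ _) (hKK' (subset_adjoin k t ha)))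
  have hle : frob h K' ≤ adjoin k t := by
    rintro _ ⟨b, hb, rfl⟩
    exact hq b hb
  refine ⟨s', g1, g2.trans (sup_le ?_ (le_hens _)), le_sup_right.trans g3⟩
  exact (frob_mono h (sup_le (le_hens _) h2)).trans ((frob_hens h K').trans (hens_mono hle))

end Pool.Agent.MP_19ffc6_ag.LU2

end MrgPart2

-- marker of a merged file
example : 731051 + 644716 = 731051 + 644716 := rfl
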