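import Mathlib.NumberTheory.Padics.PadicVal.Basic
import Pool.Agent.MP_19ffc6_ag.LU2.Tower

-- ======== part 0: formerly Pool.Agent.MP_19ffc6_ag.LU2.BasicP1
section MrgPart0

/-! Basic API of PROJECT LU2, lattices. -/

namespace Pool.Agent.MP_19ffc6_ag.LU2

open Polynomial Pool.Agent.MP_19ffc6_ag.LU

section lattice

variable {p : ℕ} {Λ Λ' : AddSubgroup ℝ} {α β : ℝ}

theorem pmul_mem (h : PMul p Λ α) : α ∈ Λ := by
  obtain ⟨γ, hγ, rfl⟩ := h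
  exact natCast_mul_mem hγ p

theorem pmul_zero : PMul p Λ 0 := ⟨0, Λ.zero_mem, by simp⟩

theorem pmul_add (h : PMul p Λ α) (h' : PMul p Λ β) : PMul p Λ (α + β) := by
  obtain ⟨γ, hγ, rfl⟩ := h
  obtain ⟨γ', hγ', rfl⟩ := h'
  exact ⟨γ + γ', Λ.add_mem hγ hγ', by ring⟩

theorem pmul_neg (h : PMul p Λ α) : PMul p Λ (-α) := by
  obtain ⟨γ, hγ, rfl⟩ := h
  exact ⟨-γ, Λ.neg_mem hγ, by ring⟩

theorem pmul_sub (h : PMul p Λ α) (h' : PMul p Λ β) : PMul p Λ (α - β) := by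
  rw [sub_eq_add_neg]; exact pmul_add h (pmul_neg h')

theorem pmul_nat_mul (h : PMul p Λ α) (n : ℕ) : PMul p Λ (n * α) := by
  obtain ⟨γ, hγ, rfl⟩ := h
  exact ⟨n * γ, natCast_mul_mem hγ n, by ring⟩

theorem pmul_int_mul (h : PMul p Λ α) (n : ℤ) : PMul p Λ (n * α) := by
  obtain ⟨γ, hγ, rfl⟩ := h
  exact ⟨n * γ, intCast_mul_mem hγ n, by ring⟩

theorem pmul_of_dvd (h : α ∈ Λ) {n : ℕ} (hn : p ∣ n) : PMul p Λ (n * α) := by
  obtain ⟨c, rfl⟩ := hn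
  exact ⟨c * α, natCast_mul_mem h c, by push_cast; ring⟩

theorem pmul_of_int_dvd (h : α ∈ Λ) {n : ℤ} (hn : (p : ℤ) ∣ n) : PMul p Λ (n * α) := by
  obtain ⟨c, rfl⟩ := hn
  exact ⟨c * α, intCast_mul_mem h c, by push_cast; ring⟩

theorem pmul_mono (hle : Λ ≤ Λ') (h : PMul p Λ α) : PMul p Λ' α := by
  obtain ⟨γ, hγ, rfl⟩ := h
  exact ⟨γ, hle hγ, rfl⟩

theorem pmul_add_iff (h : PMul p Λ β) : PMul p Λ (α + β) ↔ PMul p Λ α :=
  ⟨fun h' => by simpa using pmul_sub h' h, fun h' => pmul_add h' h⟩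

theorem pmul_iff_of_sub (h : PMul p Λ (α - β)) : PMul p Λ α ↔ PMul p Λ β := by
  rw [← pmul_add_iff (α := β) h]; simp

theorem pmul_of_nat_mul [Fact p.Prime] {n : ℕ} (hn : ¬ p ∣ n) (hα : α ∈ Λ)
    (h : PMul p Λ (n * α)) : PMul p Λ α := by
  have hc : IsCoprime (p : ℤ) n :=
    Nat.isCoprime_iff_coprime.2 ((Nat.Prime.coprime_iff_not_dvd Fact.out).2 hn)
  obtain ⟨u, v, huv⟩ := hc
  have h1 : (u : ℝ) * p + v * n = 1 := by exact_mod_cast huv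
  have h2 := pmul_add (pmul_of_int_dvd (p := p) hα (n := u * p) (dvd_mul_left _ _))
    (pmul_int_mul h v)
  have e : ((u * p : ℤ) : ℝ) * α + v * (n * α) = α := by
    push_cast; linear_combination α * h1
  rwa [e] at h2

theorem exists_mem_between (hd : Dense (Λ : Set ℝ)) {a b : ℝ} (h : a < b) :
    ∃ ζ ∈ Λ, a < ζ ∧ ζ < b := by
  obtain ⟨ζ, h1, h2⟩ := hd.exists_between h
  exact ⟨ζ, h1, h2⟩

theorem exists_pmul_between [Fact p.Prime] (hd : Dense (Λ : Set ℝ)) {a b : ℝ} (h : a < b) :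
    ∃ ζ, PMul p Λ ζ ∧ a < ζ ∧ ζ < b := by
  have hp : (0 : ℝ) < p := by exact_mod_cast (Fact.out : p.Prime).pos
  obtain ⟨ζ, h1, h2, h3⟩ := exists_mem_between hd (div_lt_div_of_pos_right h hp)
  rw [div_lt_iff₀ hp] at h2
  rw [lt_div_iff₀ hp] at h3
  exact ⟨p * ζ, ⟨ζ, h1, rfl⟩, by linarith, by linarith⟩

theorem exists_coset_between [Fact p.Prime] (hd : Dense (Λ : Set ℝ)) {γ : ℝ} (hγ : γ ∈ Λ)
    {a b : ℝ} (h : a < b) : ∃ ζ ∈ Λ, PMul p Λ (ζ + γ) ∧ a < ζ ∧ ζ < b := by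
  obtain ⟨ζ, h1, h2, h3⟩ := exists_pmul_between (p := p) hd (add_lt_add_left h γ)
  exact ⟨ζ - γ, Λ.sub_mem (pmul_mem h1) hγ, by simpa using h1, by linarith, by linarith⟩

theorem exists_not_pmul_between [Fact p.Prime] (hfg : Λ.FG) (hd : Dense (Λ : Set ℝ))
    {a b : ℝ} (h : a < b) : ∃ ζ ∈ Λ, ¬ PMul p Λ ζ ∧ a < ζ ∧ ζ < b := by
  have hex : ∃ γ ∈ Λ, ¬ PMul p Λ γ := by
    obtain ⟨r, B, -⟩ := exists_lattice_basis hfg
    obtain ⟨ζ, h1, h2, -⟩ := exists_mem_between hd (zero_lt_one (α := ℝ))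
    rcases Nat.eq_zero_or_pos r with rfl | hr
    · have := B.sum_repr ⟨ζ, h1⟩
      simp only [Finset.univ_eq_empty, Finset.sum_empty] at this
      exact absurd (congrArg Subtype.val this) h2.ne
    · refine ⟨B ⟨0, hr⟩, (B ⟨0, hr⟩).2, ?_⟩
      rintro ⟨γ, hγ, e⟩
      have e1 : B ⟨0, hr⟩ = (p : ℤ) • (⟨γ, hγ⟩ : Λ) := by
        apply Subtype.ext; simpa using e
      have e2 := congrArg (fun x => B.repr x ⟨0, hr⟩) e1
      simp only [Module.Basis.repr_self, Finsupp.single_eq_same, map_zsmul, Finsupp.smul_apply,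
        smul_eq_mul] at e2
      have : (p : ℤ) ∣ 1 := ⟨_, e2⟩
      exact (Fact.out : p.Prime).one_lt.ne' (by exact_mod_cast Int.natCast_dvd_natCast.1 this |> Nat.dvd_one.1)
  obtain ⟨γ, hγ, hn⟩ := hex
  obtain ⟨ζ, h1, h2, h3⟩ := exists_coset_between (p := p) hd (Λ.neg_mem hγ) h
  exact ⟨ζ, h1, fun h4 => hn ((pmul_iff_of_sub (by simpa [sub_eq_add_neg] using h2)).1 h4), h3⟩

theorem pw2_congr {fl : Prop} {x x' : Pt} (h1 : PMul p Λ (x'.1 - x.1)) (h2 : x'.2 = x.2) :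
    PW2 fl p Λ x' ↔ PW2 fl p Λ x := by
  simp only [PW2, h2, pmul_iff_of_sub h1]

theorem pw2_swap {fl : Prop} (α : ℝ) (j i : ℕ) :
    PW2 fl p Λ (α, j, i) ↔ PW2 fl p Λ (α, i, j) := by
  simp only [PW2]; tauto

/-- A positive lower bound for finitely many positive numbers, inside a lattice. -/
theorem exists_pos_lower_mem {ι : Type*} (S : Finset ι) (Q : ι → Prop) (f : ι → ℝ) {N : ℝ}
    (hN : N ∈ Λ) (h0 : 0 < N) (h : ∀ x ∈ S, Q x → 0 < f x ∧ f x ∈ Λ) :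
    ∃ e ∈ Λ, 0 < e ∧ e ≤ N ∧ ∀ x ∈ S, Q x → e ≤ f x := by
  classical
  induction S using Finset.induction_on with
  | empty => exact ⟨N, hN, h0, le_rfl, by simp⟩
  | insert a S ha ih =>
    obtain ⟨e, h1, h2, h3, h4⟩ := ih fun x hx => h x (Finset.mem_insert_of_mem hx)
    by_cases hq : Q a ∧ f a < e
    · obtain ⟨g1, g2⟩ := h a (Finset.mem_insert_self _ _) hq.1
      refine ⟨f a, g2, g1, hq.2.le.trans h3, fun x hx hx' => ?_⟩
      rcases Finset.mem_insert.1 hx with rfl | hx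
      · exact le_rfl
      · exact hq.2.le.trans (h4 x hx hx')
    · refine ⟨e, h1, h2, h3, fun x hx hx' => ?_⟩
      rcases Finset.mem_insert.1 hx with rfl | hx
      · exact not_lt.1 fun h5 => hq ⟨hx', h5⟩
      · exact h4 x hx hx'

/-- A positive lower bound for finitely many positive numbers. -/
theorem exists_pos_lower {ι : Type*} (S : Finset ι) (Q : ι → Prop) (f : ι → ℝ)
    (h : ∀ x ∈ S, Q x → 0 < f x) : ∃ e, 0 < e ∧ ∀ x ∈ S, Q x → e ≤ f x := by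
  obtain ⟨e, -, h2, -, h4⟩ := exists_pos_lower_mem (Λ := ⊤) S Q f (N := 1) trivial one_pos
    fun x hx hq => ⟨h x hx hq, trivial⟩
  exact ⟨e, h2, h4⟩

theorem dvd_qq [Fact p.Prime] {s : ℕ} (h : p ∣ s) (h0 : s ≠ 0) : p ∣ qq p s := by
  rw [qq, if_pos h]
  exact dvd_pow_self p (by have := one_le_padicValNat_of_dvd h0 h; omega)

theorem qq_dvd {s : ℕ} (h : p ∣ s) : qq p s ∣ s := by
  rw [qq, if_pos h]; exact pow_padicValNat_dvd

theorem qq_pos [Fact p.Prime] (s : ℕ) : 0 < qq p s := by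
  have := (Fact.out : p.Prime).pos
  unfold qq; split_ifs <;> positivity

theorem two_le_qq [Fact p.Prime] {s : ℕ} (h : p ∣ s) (h0 : s ≠ 0) : 2 ≤ qq p s :=
  (Fact.out : p.Prime).two_le.trans (Nat.le_of_dvd (qq_pos s) (dvd_qq h h0))

theorem qq_le [Fact p.Prime] {s : ℕ} (h : 2 ≤ s) : qq p s ≤ s := by
  by_cases hp : p ∣ s
  · exact Nat.le_of_dvd (by omega) (qq_dvd hp)
  · rw [qq, if_neg hp]
    exact (Nat.le_of_dvd (by omega) pow_padicValNat_dvd).trans (Nat.sub_le s 1)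

namespace SD

variable {η : ℝ} {d : ℕ} {σ : ℝ → ℤ}

theorem le (h : SD Λ Λ' η d σ) : Λ ≤ Λ' := h.lat ▸ le_sup_left

theorem η_mem (h : SD Λ Λ' η d σ) : η ∈ Λ' :=
  h.lat ▸ (le_sup_right : _ ≤ Λ ⊔ AddSubgroup.zmultiples η) (AddSubgroup.mem_zmultiples η)

theorem d_mul_mem (h : SD Λ Λ' η d σ) : (d : ℝ) * η ∈ Λ := by
  simpa using (h.dvd_iff d).2 dvd_rfl

theorem add_mul_mem (h : SD Λ Λ' η d σ) (hα : α ∈ Λ) (j : ℕ) : α + j * η ∈ Λ' :=
  Λ'.add_mem (h.le hα) (natCast_mul_mem h.η_mem j)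

theorem eq_of_one (h : SD Λ Λ' η 1 σ) : Λ' = Λ := by
  refine le_antisymm (fun β hβ => ?_) h.le
  simpa [h.triv rfl] using h.σ_mem β hβ

theorem σ_zero (h : SD Λ Λ' η d σ) : σ 0 = 0 := by
  have := h.σ_add 0 Λ'.zero_mem 0 Λ'.zero_mem
  rw [add_zero] at this; omega

theorem σ_int_mul (h : SD Λ Λ' η d σ) (hβ : β ∈ Λ') (n : ℤ) : σ (n * β) = n * σ β := by
  have hn : ∀ m : ℕ, σ (m * β) = m * σ β := by
    intro m
    induction m with
    | zero => simp [h.σ_zero]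
    | succ m ih =>
      rw [Nat.cast_succ, add_mul, one_mul, h.σ_add _ (natCast_mul_mem hβ m) _ hβ, ih]
      push_cast; ring
  obtain ⟨m, rfl | rfl⟩ := n.eq_nat_or_neg
  · simpa using hn m
  · have h1 := h.σ_add _ (natCast_mul_mem hβ m) _ (Λ'.neg_mem (natCast_mul_mem hβ m))
    rw [add_neg_cancel, h.σ_zero, hn] at h1
    push_cast
    rw [neg_mul, neg_mul]; omega

theorem d_mul_mem' (h : SD Λ Λ' η d σ) (hβ : β ∈ Λ') : (d : ℝ) * β ∈ Λ := by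
  have := Λ.add_mem (natCast_mul_mem (h.σ_mem β hβ) d) (intCast_mul_mem h.d_mul_mem (σ β))
  have e : (d : ℝ) * (β - σ β * η) + σ β * (d * η) = d * β := by ring
  rwa [e] at this

theorem ex_spec (h : SD Λ Λ' η d σ) {x : Pt} (hx : x.1 ∈ Λ) :
    (x.2.1 : ℤ) = σ (x.1 + x.2.1 * η) + d * ex η d σ x := by
  have h1 := Λ.sub_mem (h.σ_mem _ (h.add_mul_mem hx x.2.1)) hx
  have h2 : (d : ℤ) ∣ (x.2.1 : ℤ) - σ (x.1 + x.2.1 * η) := by
    refine (h.dvd_iff _).1 ?_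
    have e : (((x.2.1 : ℤ) - σ (x.1 + x.2.1 * η) : ℤ) : ℝ) * η =
        x.1 + x.2.1 * η - σ (x.1 + x.2.1 * η) * η - x.1 := by push_cast; ring
    rwa [e]
  rw [ex, Int.mul_ediv_cancel' h2]; ring

theorem ex_unique (h : SD Λ Λ' η d σ) {x : Pt} {e : ℤ}
    (he : (x.2.1 : ℤ) = σ (x.1 + x.2.1 * η) + d * e) : ex η d σ x = e := by
  have hd : (d : ℤ) ≠ 0 := by exact_mod_cast h.d_pos.ne'
  rw [ex, sub_eq_of_eq_add' he, Int.mul_ediv_cancel_left _ hd]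

theorem ex_one (h : SD Λ Λ' η 1 σ) (x : Pt) : ex η 1 σ x = x.2.1 := by
  simp [ex, h.triv rfl]

theorem ex_sub (h : SD Λ Λ' η d σ) {x x' : Pt} (hx : x.1 ∈ Λ) (hx' : x'.1 ∈ Λ)
    (hl : x.1 + x.2.1 * η = x'.1 + x'.2.1 * η) :
    (x.2.1 : ℤ) - x'.2.1 = d * (ex η d σ x - ex η d σ x') := by
  have h1 := h.ex_spec hx
  have h2 := h.ex_spec hx'
  rw [hl] at h1
  linear_combination h1 - h2

theorem qpow (h : SD Λ Λ' η d σ) {x x' : Pt} (hx : x.1 ∈ Λ) (hx' : x'.1 ∈ Λ) {q : ℕ} {δ' : ℝ}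
    (hδ : δ' ∈ Λ') (hl : x.1 + x.2.1 * η = x'.1 + x'.2.1 * η + q * δ')
    (he : (q : ℤ) ∣ ex η d σ x - ex η d σ x') :
    ∃ a ∈ Λ, ∃ m : ℤ, x.1 = x'.1 + q * a ∧ (x.2.1 : ℤ) = x'.2.1 + q * m := by
  obtain ⟨e, he⟩ := he
  have h1 := h.ex_spec hx
  have h2 := h.ex_spec hx'
  have h3 := h.σ_int_mul hδ q
  rw [Int.cast_natCast] at h3
  rw [hl, h.σ_add _ (h.add_mul_mem hx' _) _ (natCast_mul_mem hδ q), h3] at h1
  have h4 : (x.2.1 : ℤ) = x'.2.1 + q * (σ δ' + d * e) := by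
    linear_combination h1 - h2 + d * he
  refine ⟨δ' - σ δ' * η - e * (d * η),
    Λ.sub_mem (h.σ_mem _ hδ) (intCast_mul_mem h.d_mul_mem e), _, ?_, h4⟩
  have h5 : (x.2.1 : ℝ) = x'.2.1 + q * (σ δ' + d * e) := by exact_mod_cast h4
  linear_combination hl - η * h5

theorem pw (h : SD Λ Λ' η d σ) {x : Pt} (hx : x.1 ∈ Λ) (h1 : PMul p Λ' (x.1 + x.2.1 * η))
    (h2 : (p : ℤ) ∣ ex η d σ x) : PMul p Λ x.1 ∧ p ∣ x.2.1 := by
  obtain ⟨γ, hγ, e⟩ := h1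
  have h0 : ex η d σ (0, 0, 0) = 0 := h.ex_unique (by simp [h.σ_zero])
  obtain ⟨a, ha, m, e1, e2⟩ := h.qpow (x' := (0, 0, 0)) hx Λ.zero_mem (q := p) hγ
    (by simpa using e) (by simpa [h0] using h2)
  exact ⟨⟨a, ha, by simpa using e1⟩, Int.natCast_dvd_natCast.1 ⟨m, by simpa using e2⟩⟩

theorem pmul_of_not_dvd [Fact p.Prime] (h : SD Λ Λ' η d σ) (hd : ¬ p ∣ d) (hα : α ∈ Λ)
    (h1 : PMul p Λ' α) : PMul p Λ α := by
  refine pmul_of_nat_mul hd hα ?_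
  obtain ⟨γ, hγ, rfl⟩ := h1
  exact ⟨d * γ, h.d_mul_mem' hγ, by ring⟩

theorem not_dvd_of_pmul [Fact p.Prime] (h : SD Λ Λ' η d σ) (h1 : PMul p Λ' η) : ¬ p ∣ d := by
  obtain ⟨γ, hγ, e⟩ := h1
  intro hd
  have h2 : (d : ℤ) ∣ 1 - p * σ γ := by
    refine (h.dvd_iff _).1 ?_
    have e1 : ((1 - p * σ γ : ℤ) : ℝ) * η = p * (γ - σ γ * η) := by
      push_cast; linear_combination e
    rw [e1]; exact natCast_mul_mem (h.σ_mem γ hγ) p
  have h3 : (p : ℤ) ∣ 1 := by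
    have := dvd_add ((Int.natCast_dvd_natCast.2 hd).trans h2) (dvd_mul_right (p : ℤ) (σ γ))
    simpa using this
  exact (Fact.out : p.Prime).one_lt.ne' (Nat.dvd_one.1 (Int.natCast_dvd_natCast.1 h3))

end SD

end lattice

end Pool.Agent.MP_19ffc6_ag.LU2

end MrgPart0

-- ======== part 1: formerly Pool.Agent.MP_19ffc6_ag.LU2.BasicP2
section MrgPart1

/-! Basic API of PROJECT LU2, operations on polynomials. -/

namespace Pool.Agent.MP_19ffc6_ag.LU2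

open Polynomial Pool.Agent.MP_19ffc6_ag.LU

section ops

variable {k : Type*} [Field k] {fl : Prop} {p : ℕ} {Λ Λ' : AddSubgroup ℝ} {Φ Ψ : Pol2 k}

open Classical in
theorem emb_apply (α : ℝ) (i : ℕ) (g : k[X]) (x : Pt) :
    emb α i g x = if x.1 = α ∧ x.2.2 = i then g.coeff x.2.1 else 0 := by
  obtain ⟨a, j, i'⟩ := x
  unfold emb
  rw [Finsupp.finsetSum_apply]
  split_ifs with h
  · obtain ⟨rfl, rfl⟩ := h
    rw [Finset.sum_eq_single j]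
    · simp
    · intro j' _ hj
      rw [Finsupp.single_eq_of_ne]
      intro h
      exact hj (by simpa using h.symm)
    · intro hi
      rw [notMem_support_iff.1 hi]
      simp
  · refine Finset.sum_eq_zero fun j' _ => ?_
    rw [Finsupp.single_eq_of_ne]
    intro h'
    simp only [Prod.mk.injEq] at h'
    exact h ⟨h'.1, h'.2.2⟩

theorem emb_monomial (α : ℝ) (i m : ℕ) (c : k) :
    emb α i (monomial m c) = Finsupp.single (α, m, i) c := by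
  classical
  ext ⟨a, j, i'⟩
  rw [emb_apply, coeff_monomial, Finsupp.single_apply]
  simp only [Prod.mk.injEq]
  split_ifs <;> first | rfl | tauto

theorem emb_add (α : ℝ) (i : ℕ) (g g' : k[X]) : emb α i (g + g') = emb α i g + emb α i g' := by
  ext x; simp only [Finsupp.add_apply, emb_apply, coeff_add]; split_ifs <;> simp

theorem emb_zero (α : ℝ) (i : ℕ) : emb α i (0 : k[X]) = 0 := by
  ext x; simp [emb_apply]

theorem Supp.mono (h : Supp Λ Φ) (hs : Ψ.support ⊆ Φ.support) : Supp Λ Ψ :=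
  fun x hx => h x (hs hx)

theorem Supp.of_le (h : Supp Λ Φ) (hle : Λ ≤ Λ') : Supp Λ' Φ := fun x hx => hle (h x hx)

theorem Supp.add (h : Supp Λ Φ) (h' : Supp Λ Ψ) : Supp Λ (Φ + Ψ) := by
  classical
  exact fun x hx => (Finset.mem_union.1 (Finsupp.support_add hx)).elim (h x) (h' x)

theorem Supp.sub (h : Supp Λ Φ) (h' : Supp Λ Ψ) : Supp Λ (Φ - Ψ) := by
  classical
  exact fun x hx => (Finset.mem_union.1 (Finsupp.support_sub hx)).elim (h x) (h' x)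

theorem Supp.single {x : Pt} (h : x.1 ∈ Λ) (c : k) : Supp Λ (Finsupp.single x c) := by
  intro x' hx'
  rwa [Finset.mem_singleton.1 (Finsupp.support_single_subset hx')]

theorem Supp.filter (h : Supp Λ Φ) (Q : Pt → Prop) [DecidablePred Q] : Supp Λ (Φ.filter Q) :=
  h.mono (by rw [Finsupp.support_filter]; exact Finset.filter_subset _ _)

open Classical in
theorem cln_apply (Φ : Pol2 k) (x : Pt) :
    cln fl p Λ Φ x = if PW2 fl p Λ x then 0 else Φ x := by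
  rw [cln, Finsupp.filter_apply]; split_ifs <;> simp_all

theorem cln_apply_of_not {x : Pt} (h : ¬ PW2 fl p Λ x) : cln fl p Λ Φ x = Φ x := by
  rw [cln_apply, if_neg h]

theorem mem_cln_support {x : Pt} :
    x ∈ (cln fl p Λ Φ).support ↔ x ∈ Φ.support ∧ ¬ PW2 fl p Λ x := by
  rw [Finsupp.mem_support_iff, Finsupp.mem_support_iff, cln_apply]
  split_ifs with h <;> simp [h]

theorem cln_eq_self (h : ∀ x ∈ Φ.support, ¬ PW2 fl p Λ x) : cln fl p Λ Φ = Φ := by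
  ext x
  rw [cln_apply]
  split_ifs with hx
  · exact (Finsupp.notMem_support_iff.1 fun h' => h x h' hx).symm
  · rfl

theorem cln_add (Φ Ψ : Pol2 k) : cln fl p Λ (Φ + Ψ) = cln fl p Λ Φ + cln fl p Λ Ψ := by
  ext x; simp only [Finsupp.add_apply, cln_apply]; split_ifs <;> simp

theorem Supp.cln (h : Supp Λ Φ) : Supp Λ (cln fl p Λ' Φ) :=
  fun x hx => h x (mem_cln_support.1 hx).1

theorem diag_coeff (Φ : Pol2 k) (a B : ℝ) (i j : ℕ) :
    ((diag Φ a B).coeff i).coeff j = Φ (B - i * a, j, i) := by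
  classical
  rw [diag, finsetSum_coeff, finsetSum_coeff, Finset.sum_eq_single (B - i * a, j, i)]
  · simp
  · rintro ⟨α, j', i'⟩ hx hne
    simp only [Finset.mem_filter] at hx
    simp only [coeff_monomial]
    split_ifs with h1
    · rw [coeff_monomial, if_neg]
      rintro rfl
      subst h1
      exact hne (by rw [← hx.2]; simp)
    · simp
  · intro h
    simp only [Finset.mem_filter, sub_add_cancel, and_true] at h
    simp [Finsupp.notMem_support_iff.1 h]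

theorem taylor_mono_coeff (l g : k[X]) (i i' : ℕ) :
    (taylor l (monomial i g)).coeff i' = g * (C (i.choose i' : k) * l ^ (i - i')) := by
  rw [taylor_monomial, coeff_C_mul, coeff_X_add_C_pow, map_natCast]; ring

theorem shp_term (a : ℝ) (l : k[X]) (x0 x : Pt) (c : k)
    [Decidable (x0.1 + x0.2.2 * a = x.1 + x.2.2 * a)] :
    (∑ n ∈ Finset.range (x0.2.2 + 1), emb (x0.1 + n * a) (x0.2.2 - n)
      (monomial x0.2.1 (c * (x0.2.2.choose n : k)) * l ^ n)) x =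
    if x0.1 + x0.2.2 * a = x.1 + x.2.2 * a then
      ((taylor l (monomial x0.2.2 (monomial x0.2.1 c))).coeff x.2.2).coeff x.2.1 else 0 := by
  obtain ⟨α, j, i⟩ := x0
  obtain ⟨α', j', i'⟩ := x
  simp only [Finsupp.finsetSum_apply, emb_apply, taylor_mono_coeff]
  split_ifs with h
  · by_cases hi : i' ≤ i
    · rw [Finset.sum_eq_single (i - i')]
      · rw [if_pos ⟨by push_cast [hi]; linarith, by omega⟩, Nat.choose_symm hi, ← mul_assoc,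
          monomial_mul_C]
      · intro n hn hne
        rw [if_neg]
        rintro ⟨-, h2⟩
        simp only [Finset.mem_range] at hn
        omega
      · intro hn
        simp only [Finset.mem_range] at hn
        omega
    · rw [Nat.choose_eq_zero_of_lt (not_le.1 hi), Finset.sum_eq_zero]
      · simp
      · intro n _
        rw [if_neg]
        rintro ⟨-, h2⟩
        omega
  · refine Finset.sum_eq_zero fun n hn => if_neg ?_
    rintro ⟨h1, h2⟩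
    simp only [Finset.mem_range] at hn
    apply h
    have : (i : ℝ) = i' + n := by exact_mod_cast (by omega : i = i' + n)
    rw [h1, this]; ring

theorem shp_apply (a : ℝ) (l : k[X]) (Φ : Pol2 k) (x : Pt) :
    shp a l Φ x = ((taylor l (diag Φ a (x.1 + x.2.2 * a))).coeff x.2.2).coeff x.2.1 := by
  classical
  rw [shp, Finsupp.finsetSum_apply, diag, map_sum, finsetSum_coeff, finsetSum_coeff,
    Finset.sum_filter]
  exact Finset.sum_congr rfl fun x0 _ => shp_term a l x0 x _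

theorem diag_shp (a : ℝ) (l : k[X]) (Φ : Pol2 k) (B : ℝ) :
    diag (shp a l Φ) a B = taylor l (diag Φ a B) := by
  ext i j
  rw [diag_coeff, shp_apply]; simp

theorem diag_add (Φ Ψ : Pol2 k) (a B : ℝ) : diag (Φ + Ψ) a B = diag Φ a B + diag Ψ a B := by
  ext i j; simp [diag_coeff]

theorem shp_shp (a : ℝ) (l l' : k[X]) (Φ : Pol2 k) :
    shp a l (shp a l' Φ) = shp a (l + l') Φ := by
  ext x; rw [shp_apply, shp_apply, diag_shp, taylor_taylor]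

theorem shp_zero (a : ℝ) (Φ : Pol2 k) : shp a 0 Φ = Φ := by
  ext x; rw [shp_apply, taylor_zero, diag_coeff]; simp

theorem shp_add (a : ℝ) (l : k[X]) (Φ Ψ : Pol2 k) :
    shp a l (Φ + Ψ) = shp a l Φ + shp a l Ψ := by
  ext x; simp [shp_apply, diag_add]

theorem shp_single (a : ℝ) (l : k[X]) (x : Pt) (c : k) :
    shp a l (Finsupp.single x c) = ∑ n ∈ Finset.range (x.2.2 + 1),
      emb (x.1 + n * a) (x.2.2 - n) (monomial x.2.1 (c * (x.2.2.choose n : k)) * l ^ n) := by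
  by_cases hc : c = 0
  · simp [hc, shp, emb_zero]
  · rw [shp, Finsupp.support_single _ hc, Finset.sum_singleton, Finsupp.single_eq_same]

theorem shp_support {a : ℝ} {l : k[X]} {x' : Pt} (h : x' ∈ (shp a l Φ).support) :
    ∃ x ∈ Φ.support, ∃ n j : ℕ, (l ^ n).coeff j ≠ 0 ∧ (x.2.2.choose n : k) ≠ 0 ∧
      x'.1 = x.1 + n * a ∧ x'.2.1 = x.2.1 + j ∧ x'.2.2 + n = x.2.2 := by
  rw [Finsupp.mem_support_iff, shp, Finsupp.finsetSum_apply] at h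
  obtain ⟨x, hx, h⟩ := Finset.exists_ne_zero_of_sum_ne_zero h
  rw [Finsupp.finsetSum_apply] at h
  obtain ⟨n, hn, h⟩ := Finset.exists_ne_zero_of_sum_ne_zero h
  simp only [Finset.mem_range] at hn
  rw [emb_apply] at h
  split_ifs at h with h1
  · rw [← C_mul_X_pow_eq_monomial, mul_assoc, coeff_C_mul, coeff_X_pow_mul'] at h
    split_ifs at h with h2
    · refine ⟨x, hx, n, x'.2.1 - x.2.1, right_ne_zero_of_mul h,
        right_ne_zero_of_mul (left_ne_zero_of_mul h), h1.1, by omega, by omega⟩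
    · simp at h
  · exact absurd rfl h

theorem shp_mono_support {a : ℝ} {m : ℕ} {c : k} {x' : Pt}
    (h : x' ∈ (shp a (monomial m c) Φ).support) :
    ∃ x ∈ Φ.support, ∃ n : ℕ, (n = 0 ∨ c ≠ 0) ∧ (x.2.2.choose n : k) ≠ 0 ∧
      x'.1 = x.1 + n * a ∧ x'.2.1 = x.2.1 + n * m ∧ x'.2.2 + n = x.2.2 := by
  obtain ⟨x, hx, n, j, h1, h2, h3, h4, h5⟩ := shp_support h
  rw [monomial_pow, coeff_monomial] at h1
  split_ifs at h1 with h6
  · refine ⟨x, hx, n, ?_, h2, h3, by rw [h4, ← h6, mul_comm], h5⟩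
    by_contra h7
    push Not at h7
    exact h1 (by rw [h7.2, zero_pow h7.1])
  · exact absurd rfl h1

open Classical in
theorem shp_mono_apply (a : ℝ) (m : ℕ) (c : k) (Φ : Pol2 k) (x : Pt) :
    shp a (monomial m c) Φ x = ∑ x0 ∈ Φ.support, ∑ n ∈ Finset.range (x0.2.2 + 1),
      if x.1 = x0.1 + n * a ∧ x.2.1 = x0.2.1 + n * m ∧ x.2.2 + n = x0.2.2 then
        (x0.2.2.choose n : k) * c ^ n * Φ x0 else 0 := by
  rw [shp, Finsupp.finsetSum_apply]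
  refine Finset.sum_congr rfl fun x0 _ => ?_
  rw [Finsupp.finsetSum_apply]
  refine Finset.sum_congr rfl fun n hn => ?_
  simp only [Finset.mem_range] at hn
  rw [emb_apply, monomial_pow, monomial_mul_monomial, coeff_monomial, mul_comm m n]
  by_cases h1 : x.1 = x0.1 + n * a
  · by_cases h2 : x.2.2 + n = x0.2.2
    · by_cases h3 : x.2.1 = x0.2.1 + n * m
      · rw [if_pos ⟨h1, by omega⟩, if_pos h3.symm, if_pos ⟨h1, h3, h2⟩]; ring
      · rw [if_pos ⟨h1, by omega⟩, if_neg (Ne.symm h3), if_neg fun h => h3 h.2.1]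
    · rw [if_neg fun h => h2 (by omega), if_neg fun h => h2 h.2.2]
  · rw [if_neg fun h => h1 h.1, if_neg fun h => h1 h.1]

open Classical in
theorem sum_parent (Φ : Pol2 k) (c : k) {a : ℝ} {m n1 : ℕ} {x x1 : Pt} (h1 : x.1 = x1.1 + n1 * a)
    (h2 : x.2.1 = x1.2.1 + n1 * m) (h3 : x.2.2 + n1 = x1.2.2) :
    (∑ x0 ∈ Φ.support, ∑ n ∈ Finset.range (x0.2.2 + 1),
      if n = n1 ∧ x.1 = x0.1 + n * a ∧ x.2.1 = x0.2.1 + n * m ∧ x.2.2 + n = x0.2.2 then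
        (x0.2.2.choose n : k) * c ^ n * Φ x0 else 0) =
      (x1.2.2.choose n1 : k) * c ^ n1 * Φ x1 := by
  rw [Finset.sum_eq_single x1]
  · rw [Finset.sum_eq_single n1, if_pos ⟨rfl, h1, h2, h3⟩]
    · exact fun n _ hn => if_neg fun h => hn h.1
    · intro hn
      simp only [Finset.mem_range] at hn
      omega
  · refine fun x0 _ hne => Finset.sum_eq_zero fun n _ => if_neg ?_
    rintro ⟨rfl, g1, g2, g3⟩
    exact hne (Prod.ext (by linarith) (Prod.ext (by omega) (by omega)))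
  · intro hx
    simp [Finsupp.notMem_support_iff.1 hx]

/-- No term of `Φ` other than `x` itself contributes to `x`. -/
theorem shp_mono_apply_self {a : ℝ} {m : ℕ} {c : k} {x : Pt}
    (h : ∀ x0 ∈ Φ.support, ∀ n : ℕ, 0 < n → (x0.2.2.choose n : k) ≠ 0 → x.1 = x0.1 + n * a →
      x.2.1 = x0.2.1 + n * m → x.2.2 + n = x0.2.2 → False) :
    shp a (monomial m c) Φ x = Φ x := by
  classical
  have := sum_parent Φ c (a := a) (m := m) (n1 := 0) (x := x) (x1 := x) (by simp) (by simp) rfl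
  simp only [Nat.choose_zero_right, Nat.cast_one, pow_zero, one_mul] at this
  rw [shp_mono_apply, ← this]
  refine Finset.sum_congr rfl fun x0 hx0 => Finset.sum_congr rfl fun n _ => ?_
  by_cases h1 : x.1 = x0.1 + n * a ∧ x.2.1 = x0.2.1 + n * m ∧ x.2.2 + n = x0.2.2
  · rw [if_pos h1]
    rcases Nat.eq_zero_or_pos n with h0 | h0
    · rw [if_pos ⟨h0, h1⟩]
    · rw [if_neg fun h2 => h0.ne' h2.1]
      by_contra h2
      exact h x0 hx0 n h0 (left_ne_zero_of_mul (left_ne_zero_of_mul h2)) h1.1 h1.2.1 h1.2.2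
  · rw [if_neg h1, if_neg fun h2 => h1 h2.2]

/-- Exactly one other term `x1` contributes to `x`. -/
theorem shp_mono_apply_one {a : ℝ} {m : ℕ} {c : k} {x x1 : Pt} {n1 : ℕ} (h0 : 0 < n1)
    (h1 : x.1 = x1.1 + n1 * a) (h2 : x.2.1 = x1.2.1 + n1 * m) (h3 : x.2.2 + n1 = x1.2.2)
    (h : ∀ x0 ∈ Φ.support, ∀ n : ℕ, 0 < n → (x0.2.2.choose n : k) ≠ 0 → x.1 = x0.1 + n * a →
      x.2.1 = x0.2.1 + n * m → x.2.2 + n = x0.2.2 → n = n1) :
    shp a (monomial m c) Φ x = Φ x + (x1.2.2.choose n1 : k) * c ^ n1 * Φ x1 := by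
  classical
  have e0 := sum_parent Φ c (a := a) (m := m) (n1 := 0) (x := x) (x1 := x) (by simp) (by simp) rfl
  simp only [Nat.choose_zero_right, Nat.cast_one, pow_zero, one_mul] at e0
  rw [shp_mono_apply, ← e0, ← sum_parent Φ c h1 h2 h3, ← Finset.sum_add_distrib]
  refine Finset.sum_congr rfl fun x0 hx0 => ?_
  rw [← Finset.sum_add_distrib]
  refine Finset.sum_congr rfl fun n _ => ?_
  by_cases g1 : x.1 = x0.1 + n * a ∧ x.2.1 = x0.2.1 + n * m ∧ x.2.2 + n = x0.2.2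
  · rw [if_pos g1]
    rcases Nat.eq_zero_or_pos n with g0 | g0
    · rw [if_pos ⟨g0, g1⟩, if_neg fun g2 => by omega, add_zero]
    · rw [if_neg fun g2 => g0.ne' g2.1, zero_add]
      by_cases g3 : n = n1
      · rw [if_pos ⟨g3, g1⟩]
      · rw [if_neg fun g2 => g3 g2.1]
        by_contra g2
        exact g3 (h x0 hx0 n g0 (left_ne_zero_of_mul (left_ne_zero_of_mul g2)) g1.1 g1.2.1 g1.2.2)
  · rw [if_neg g1, if_neg fun g2 => g1 g2.2, if_neg fun g2 => g1 g2.2, add_zero]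

theorem eq_zero_or_ne_of_coeff_pow {l : k[X]} {n j : ℕ} (h : (l ^ n).coeff j ≠ 0) :
    n = 0 ∨ l ≠ 0 := by
  by_contra h1
  push Not at h1
  exact h (by rw [h1.2, zero_pow h1.1, coeff_zero])

theorem Supp.shp (h : Supp Λ Φ) {a : ℝ} {l : k[X]} (ha : l ≠ 0 → a ∈ Λ) :
    Supp Λ (shp a l Φ) := by
  intro x' hx'
  obtain ⟨x, hx, n, j, h1, -, h3, -⟩ := shp_support hx'
  rw [h3]
  rcases eq_zero_or_ne_of_coeff_pow h1 with rfl | h0
  · simpa using h x hx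
  · exact Λ.add_mem (h x hx) (natCast_mul_mem (ha h0) n)

theorem dvd_of_choose_ne [CharP k p] [Fact p.Prime] {i n : ℕ} (hi : p ∣ i)
    (h : (i.choose n : k) ≠ 0) : p ∣ n := by
  rcases n with _ | n
  · exact dvd_zero p
  rcases i with _ | i
  · simp at h
  have h1 : p ∣ (i + 1).choose (n + 1) * (n + 1) := by
    rw [← Nat.add_one_mul_choose_eq]; exact hi.mul_right _
  exact ((Nat.Prime.dvd_mul Fact.out).1 h1).resolve_left
    fun h2 => h ((CharP.cast_eq_zero_iff k p _).2 h2)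

theorem dvd_of_coeff_pow [CharP k p] [Fact p.Prime] {l : k[X]} {n j : ℕ} (hn : p ∣ n)
    (h : (l ^ n).coeff j ≠ 0) : p ∣ j := by
  obtain ⟨c, rfl⟩ := hn
  rw [mul_comm, pow_mul, ← map_frobenius_expand p, coeff_map,
    coeff_expand (Fact.out : p.Prime).pos] at h
  by_contra h1
  exact h (by rw [if_neg h1, map_zero])

theorem pw2_shp [Fact p.Prime] [CharP k p] {a : ℝ} {l : k[X]} (ha : l ≠ 0 → a ∈ Λ)
    (h : ∀ x ∈ Φ.support, PW2 fl p Λ x) : ∀ x ∈ (shp a l Φ).support, PW2 fl p Λ x := by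
  intro x' hx'
  obtain ⟨x, hx, n, j, h1, h2, h3, h4, h5⟩ := shp_support hx'
  obtain ⟨g1, g2, g3, g4⟩ := h x hx
  have hn := dvd_of_choose_ne g4 h2
  refine ⟨g1, ?_, h4 ▸ dvd_add g3 (dvd_of_coeff_pow hn h1),
    (Nat.dvd_add_left hn).1 (h5 ▸ g4)⟩
  rw [h3]
  rcases eq_zero_or_ne_of_coeff_pow h1 with rfl | h0
  · simpa using g2
  · exact pmul_add g2 (pmul_of_dvd (ha h0) hn)

theorem cln_shp_cln [Fact p.Prime] [CharP k p] {a : ℝ} {l : k[X]} (ha : l ≠ 0 → a ∈ Λ)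
    (Φ : Pol2 k) : cln fl p Λ (shp a l (cln fl p Λ Φ)) = cln fl p Λ (shp a l Φ) := by
  have e : Φ = cln fl p Λ Φ + (Φ - cln fl p Λ Φ) := by abel
  have h1 : ∀ x ∈ (Φ - cln fl p Λ Φ).support, PW2 fl p Λ x := by
    intro x hx
    by_contra h
    exact Finsupp.mem_support_iff.1 hx (by rw [Finsupp.sub_apply, cln_apply_of_not h, sub_self])
  have h2 : cln fl p Λ (shp a l (Φ - cln fl p Λ Φ)) = 0 := by
    rw [← Finsupp.support_eq_empty, Finset.eq_empty_iff_forall_notMem]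
    exact fun x hx => (mem_cln_support.1 hx).2 (pw2_shp ha h1 x (mem_cln_support.1 hx).1)
  conv_rhs => rw [e, shp_add, cln_add, h2, add_zero]

theorem scl_apply (ζ ξ : ℝ) (Φ : Pol2 k) (x : Pt) :
    scl ζ ξ Φ (x.1 + x.2.1 * ζ + x.2.2 * ξ, x.2) = Φ x := by
  refine Finsupp.mapDomain_apply (f := fun x : Pt => (x.1 + x.2.1 * ζ + x.2.2 * ξ, x.2)) ?_ Φ x
  rintro ⟨a, j⟩ ⟨a', j'⟩ h
  simp only [Prod.mk.injEq] at h
  obtain ⟨h1, rfl⟩ := h
  exact Prod.ext (by linarith) rfl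

theorem scl_apply' (ζ ξ : ℝ) (Φ : Pol2 k) (x : Pt) :
    scl ζ ξ Φ x = Φ (x.1 - x.2.1 * ζ - x.2.2 * ξ, x.2) := by
  rw [← scl_apply ζ ξ Φ]
  congr 1
  exact Prod.ext (by simp; ring) rfl

theorem mem_scl_support {ζ ξ : ℝ} {x' : Pt} : x' ∈ (scl ζ ξ Φ).support ↔
    ∃ x ∈ Φ.support, x' = (x.1 + x.2.1 * ζ + x.2.2 * ξ, x.2) := by
  constructor
  · intro h
    rw [Finsupp.mem_support_iff, scl_apply'] at h
    exact ⟨_, Finsupp.mem_support_iff.2 h, Prod.ext (by simp; ring) rfl⟩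
  · rintro ⟨x, hx, rfl⟩
    rwa [Finsupp.mem_support_iff, scl_apply, ← Finsupp.mem_support_iff]

theorem scl_single (ζ ξ : ℝ) (x : Pt) (c : k) : scl ζ ξ (Finsupp.single x c) =
    Finsupp.single (x.1 + x.2.1 * ζ + x.2.2 * ξ, x.2) c := Finsupp.mapDomain_single

theorem Supp.scl (h : Supp Λ Φ) {ζ ξ : ℝ} (h1 : ζ ∈ Λ) (h2 : ξ ∈ Λ) : Supp Λ (scl ζ ξ Φ) := by
  intro x' hx'
  obtain ⟨x, hx, rfl⟩ := mem_scl_support.1 hx'
  exact Λ.add_mem (Λ.add_mem (h x hx) (natCast_mul_mem h1 _)) (natCast_mul_mem h2 _)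

theorem swp_apply (Φ : Pol2 k) (x : Pt) : swp Φ x = Φ (x.1, x.2.2, x.2.1) := by
  refine Finsupp.mapDomain_apply (f := fun x : Pt => (x.1, x.2.2, x.2.1)) ?_ Φ (x.1, x.2.2, x.2.1)
  rintro ⟨a, j, i⟩ ⟨a', j', i'⟩ h
  simp only [Prod.mk.injEq] at h
  obtain ⟨rfl, rfl, rfl⟩ := h
  rfl

theorem mem_swp_support {x : Pt} : x ∈ (swp Φ).support ↔ (x.1, x.2.2, x.2.1) ∈ Φ.support := by
  rw [Finsupp.mem_support_iff, Finsupp.mem_support_iff, swp_apply]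

theorem swp_single (α : ℝ) (j i : ℕ) (c : k) :
    swp (Finsupp.single (α, j, i) c) = Finsupp.single (α, i, j) c := Finsupp.mapDomain_single

theorem swp_swp (Φ : Pol2 k) : swp (swp Φ) = Φ := by
  ext x; rw [swp_apply, swp_apply]

theorem Supp.swp (h : Supp Λ Φ) : Supp Λ (swp Φ) :=
  fun x hx => h (x.1, x.2.2, x.2.1) (mem_swp_support.1 hx)

variable {η : ℝ} {d n0 : ℕ} {σ : ℝ → ℤ} {κ : k}

theorem stp_apply (Φ : Pol2 k) (x : Pt) :
    stp η d σ n0 κ Φ x = (taylor κ (fib η d σ n0 Φ x.1 x.2.2)).coeff x.2.1 := by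
  classical
  rw [stp, Finsupp.finsetSum_apply, fib, map_sum, finsetSum_coeff, Finset.sum_filter]
  refine Finset.sum_congr rfl fun x0 _ => ?_
  rw [emb_apply]
  by_cases h : x.1 = x0.1 + x0.2.1 * η ∧ x.2.2 = x0.2.2
  · rw [if_pos h, if_pos ⟨h.1.symm, h.2.symm⟩]
  · rw [if_neg h, if_neg fun h' => h ⟨h'.1.symm, h'.2.symm⟩]

theorem fib_support {α : ℝ} {i e : ℕ} (h : (fib η d σ n0 Φ α i).coeff e ≠ 0) :
    ∃ x ∈ Φ.support, x.1 + x.2.1 * η = α ∧ x.2.2 = i ∧ e = (ex η d σ x + n0).toNat := by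
  classical
  rw [fib, finsetSum_coeff] at h
  obtain ⟨x, hx, h⟩ := Finset.exists_ne_zero_of_sum_ne_zero h
  simp only [Finset.mem_filter] at hx
  rw [coeff_monomial] at h
  split_ifs at h with h1
  · exact ⟨x, hx.1, hx.2.1, hx.2.2, h1.symm⟩
  · exact absurd rfl h

theorem fib_coeff (h : SD Λ Λ' η d σ) (hΦ : Supp Λ Φ)
    (h0 : ∀ x ∈ Φ.support, 0 ≤ ex η d σ x + n0) {x : Pt} (hx : x ∈ Φ.support) :
    (fib η d σ n0 Φ (x.1 + x.2.1 * η) x.2.2).coeff (ex η d σ x + n0).toNat = Φ x := by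
  classical
  rw [fib, finsetSum_coeff, Finset.sum_eq_single x]
  · simp
  · intro x0 hx0 hne
    simp only [Finset.mem_filter] at hx0
    rw [coeff_monomial, if_neg]
    intro h1
    have h2 := h0 x hx
    have h3 := h0 x0 hx0.1
    have h4 := h.ex_sub (hΦ x0 hx0.1) (hΦ x hx) hx0.2.1
    have h5 : ex η d σ x0 = ex η d σ x := by omega
    rw [h5, sub_self, mul_zero] at h4
    have h6 : x0.2.1 = x.2.1 := by omega
    have h7 := hx0.2.1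
    rw [h6] at h7
    exact hne (Prod.ext (by linarith) (Prod.ext h6 hx0.2.2))
  · intro h1
    exact absurd (Finset.mem_filter.2 ⟨hx, rfl, rfl⟩) h1

theorem stp_support {x' : Pt} (h : x' ∈ (stp η d σ n0 κ Φ).support) :
    ∃ x ∈ Φ.support, x'.1 = x.1 + x.2.1 * η ∧ x'.2.2 = x.2.2 ∧
      x'.2.1 ≤ (ex η d σ x + n0).toNat := by
  rw [Finsupp.mem_support_iff, stp, Finsupp.finsetSum_apply] at h
  obtain ⟨x, hx, h⟩ := Finset.exists_ne_zero_of_sum_ne_zero h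
  rw [emb_apply] at h
  split_ifs at h with h1
  · refine ⟨x, hx, h1.1, h1.2, (le_natDegree_of_ne_zero h).trans ?_⟩
    rw [natDegree_taylor]
    exact natDegree_monomial_le _
  · exact absurd rfl h

theorem Supp.stp (hΦ : Supp Λ Φ) (h : SD Λ Λ' η d σ) : Supp Λ' (stp η d σ n0 κ Φ) := by
  intro x' hx'
  obtain ⟨x, hx, h1, -⟩ := stp_support hx'
  rw [h1]; exact h.add_mul_mem (hΦ x hx) _

theorem exists_n0 [Fact p.Prime] (h : SD Λ Λ' η d σ) (Φ : Pol2 k) :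
    ∃ n0 : ℕ, p ∣ n0 ∧ (d = 1 → n0 = 0) ∧ ∀ x ∈ Φ.support, 0 ≤ ex η d σ x + n0 := by
  by_cases hd : d = 1
  · subst hd
    exact ⟨0, dvd_zero p, fun _ => rfl, fun x _ => by rw [h.ex_one]; positivity⟩
  · refine ⟨p * Φ.support.sup fun x => (ex η d σ x).natAbs, dvd_mul_right _ _,
      fun h1 => absurd h1 hd, fun x hx => ?_⟩
    have h1 : (ex η d σ x).natAbs ≤ Φ.support.sup fun x => (ex η d σ x).natAbs :=
      Finset.le_sup (f := fun x => (ex η d σ x).natAbs) hx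
    have h2 := Nat.le_mul_of_pos_left (Φ.support.sup fun x => (ex η d σ x).natAbs)
      (Fact.out : p.Prime).pos
    omega

end ops

end Pool.Agent.MP_19ffc6_ag.LU2

end MrgPart1

-- ======== part 2: formerly Pool.Agent.MP_19ffc6_ag.LU2.BasicP
section MrgPart2

/-! Basic API of PROJECT LU2, the polygon. -/

namespace Pool.Agent.MP_19ffc6_ag.LU2

open Polynomial Pool.Agent.MP_19ffc6_ag.LU

section polygon

variable {k : Type*} [Field k] {fl : Prop} {p : ℕ} {Λ Λ' : AddSubgroup ℝ} {Φ Φ' Φ'' : Pol2 k}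
  {P P' : Par}

theorem Par.gap_top (P : Par) : P.gap P.top = 0 := by simp [Par.gap, Par.top]

theorem Par.dfc_top (P : Par) : P.dfc P.top = 0 := by simp [Par.dfc, Par.gap, Par.top]

theorem Par.cod_top (P : Par) : P.cod P.top = 0 := by simp [Par.cod, Par.gap, Par.top]

theorem Par.dfc_eq (P : Par) (x : Pt) : P.dfc x = x.1 + x.2.2 * P.δ - P.lev := by
  simp only [Par.dfc, Par.gap, Par.lev]; ring

theorem Par.dfc_shift (P : Par) {x x' : Pt} {n : ℕ} {a : ℝ} (h1 : x'.1 = x.1 + n * a)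
    (h3 : x'.2.2 + n = x.2.2) : P.dfc x' = P.dfc x + n * (a - P.δ) := by
  simp only [Par.dfc, Par.gap, h1, ← h3]; push_cast; ring

theorem Par.cod_shift (P : Par) {x x' : Pt} {n j : ℕ} (h2 : x'.2.1 = x.2.1 + j)
    (h3 : x'.2.2 + n = x.2.2) : P.cod x' = P.cod x + n * P.b - j := by
  simp only [Par.cod, Par.gap, h2, ← h3]; push_cast; ring

theorem Par.eq_of_vtx (P : Par) {x x' : Pt} (h : x.2.2 = x'.2.2) (h1 : P.dfc x = P.dfc x')
    (h2 : P.cod x = P.cod x') : x = x' := by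
  simp only [Par.dfc, Par.cod, Par.gap, h] at h1 h2
  refine Prod.ext (by linarith) (Prod.ext ?_ h)
  exact_mod_cast (by linarith : (x.2.1 : ℝ) = x'.2.1)

theorem vtx_coeff_of_vtx (Φ : Pol2 k) {x : Pt} (h : x.2.2 ≤ P.s) (h1 : P.dfc x = 0)
    (h2 : P.cod x = 0) : (vtx Φ P).coeff x.2.2 = Φ x := by
  classical
  rw [vtx, finsetSum_coeff, Finset.sum_eq_single x]
  · simp
  · intro x0 hx0 hne
    simp only [Finset.mem_filter] at hx0
    rw [coeff_monomial, if_neg]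
    exact fun h3 => hne (P.eq_of_vtx h3 (hx0.2.2.1.trans h1.symm) (hx0.2.2.2.trans h2.symm))
  · intro h3
    simp only [Finset.mem_filter, h, h1, h2, and_true] at h3
    simp [Finsupp.notMem_support_iff.1 h3]

theorem vtx_coeff_ne {i : ℕ} (h : (vtx Φ P).coeff i ≠ 0) :
    ∃ x ∈ Φ.support, x.2.2 = i ∧ i ≤ P.s ∧ P.dfc x = 0 ∧ P.cod x = 0 := by
  classical
  rw [vtx, finsetSum_coeff] at h
  obtain ⟨x, hx, h⟩ := Finset.exists_ne_zero_of_sum_ne_zero h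
  simp only [Finset.mem_filter] at hx
  rw [coeff_monomial] at h
  split_ifs at h with h1
  · exact ⟨x, hx.1, h1, h1 ▸ hx.2.1, hx.2.2⟩
  · exact absurd rfl h

theorem vtx_natDegree_le (Φ : Pol2 k) (P : Par) : (vtx Φ P).natDegree ≤ P.s := by
  rw [natDegree_le_iff_coeff_eq_zero]
  intro i hi
  by_contra h
  obtain ⟨x, -, -, h1, -⟩ := vtx_coeff_ne h
  omega

theorem vtx_coeff_top (Φ : Pol2 k) (P : Par) : (vtx Φ P).coeff P.s = Φ P.top :=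
  vtx_coeff_of_vtx Φ (x := P.top) le_rfl P.dfc_top P.cod_top

theorem vtx_coeff_nat (Φ : Pol2 k) {m : ℕ} (hb : P.b = m) {i : ℕ} (hi : i ≤ P.s) :
    (vtx Φ P).coeff i = Φ (P.β + ((P.s : ℝ) - i) * P.δ, P.ε + (P.s - i) * m, i) :=
  vtx_coeff_of_vtx Φ (x := (P.β + ((P.s : ℝ) - i) * P.δ, P.ε + (P.s - i) * m, i)) hi
    (by simp [Par.dfc, Par.gap]) (by simp [Par.cod, Par.gap, hb, hi])

/-- Comparison of vertices through a map of points that keeps heights. -/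
theorem vtx_congr' (hs : P'.s = P.s) (e e' : Pt → Pt)
    (h : ∀ x, x.2.2 ≤ P.s → P.dfc x = 0 → P.cod x = 0 →
      (e x).2.2 = x.2.2 ∧ P'.dfc (e x) = 0 ∧ P'.cod (e x) = 0 ∧ Φ' (e x) = Φ x)
    (h' : ∀ x, x.2.2 ≤ P.s → P'.dfc x = 0 → P'.cod x = 0 →
      (e' x).2.2 = x.2.2 ∧ P.dfc (e' x) = 0 ∧ P.cod (e' x) = 0) : vtx Φ' P' = vtx Φ P := by
  ext i
  by_cases hex : ∃ x : Pt, x.2.2 = i ∧ i ≤ P.s ∧ P.dfc x = 0 ∧ P.cod x = 0
  · obtain ⟨x, rfl, h1, h2, h3⟩ := hex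
    obtain ⟨g1, g2, g3, g4⟩ := h x h1 h2 h3
    rw [vtx_coeff_of_vtx Φ h1 h2 h3, ← g1, vtx_coeff_of_vtx Φ' (by rw [g1, hs]; exact h1) g2 g3, g4]
  · have e1 : (vtx Φ P).coeff i = 0 := by
      by_contra h0
      obtain ⟨x, -, h1⟩ := vtx_coeff_ne h0
      exact hex ⟨x, h1⟩
    rw [e1]
    by_contra h0
    obtain ⟨x, -, rfl, h1, h2, h3⟩ := vtx_coeff_ne h0
    obtain ⟨g1, g2, g3⟩ := h' x (hs ▸ h1) h2 h3
    exact hex ⟨e' x, g1, hs ▸ h1, g2, g3⟩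

theorem vtx_congr (h : ∀ x : Pt, x.2.2 ≤ P.s → P.dfc x = 0 → P.cod x = 0 → Φ' x = Φ x) :
    vtx Φ' P = vtx Φ P :=
  vtx_congr' rfl id id (fun x h1 h2 h3 => ⟨rfl, h2, h3, h x h1 h2 h3⟩)
    fun _ _ h2 h3 => ⟨rfl, h2, h3⟩

theorem vtx_shp {m : ℕ} (hb : P.b = m) (c : k)
    (h : ∀ x ∈ Φ.support, P.s < x.2.2 → P.dfc x = 0 → P.cod x ≠ 0) :
    vtx (shp P.δ (monomial m c) Φ) P = taylor c (vtx Φ P) := by
  classical
  ext i
  by_cases hi : i ≤ P.s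
  swap
  · rw [coeff_eq_zero_of_natDegree_lt ((vtx_natDegree_le _ P).trans_lt (not_le.1 hi)),
      coeff_eq_zero_of_natDegree_lt]
    rw [natDegree_taylor]
    exact (vtx_natDegree_le _ P).trans_lt (not_le.1 hi)
  rw [vtx_coeff_nat _ hb hi, shp_mono_apply, vtx, map_sum, finsetSum_coeff, Finset.sum_filter]
  refine Finset.sum_congr rfl fun x hx => ?_
  obtain ⟨α, j, i0⟩ := x
  simp only
  have key : ∀ n : ℕ, i + n = i0 →
      ((P.β + ((P.s : ℝ) - i) * P.δ = α + n * P.δ ∧ P.ε + (P.s - i) * m = j + n * m) ↔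
        (P.dfc (α, j, i0) = 0 ∧ P.cod (α, j, i0) = 0)) := by
    rintro n rfl
    simp only [Par.dfc, Par.cod, Par.gap, hb]
    refine and_congr ⟨fun h1 => by push_cast; linarith, fun h1 => by push_cast at h1; linarith⟩
      ⟨fun h1 => ?_, fun h1 => ?_⟩
    · have h2 : ((P.ε + (P.s - i) * m : ℕ) : ℝ) = (j + n * m : ℕ) := by rw [h1]
      push_cast [hi] at h2 ⊢
      linarith
    · have h2 : ((P.ε + (P.s - i) * m : ℕ) : ℝ) = (j + n * m : ℕ) := by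
        push_cast [hi] at h1 ⊢
        linarith
      exact_mod_cast h2
  split_ifs with hv
  · rw [taylor_monomial, coeff_C_mul, coeff_X_add_C_pow]
    by_cases h1 : i ≤ i0
    · rw [Finset.sum_eq_single (i0 - i)]
      · have h2 := (key (i0 - i) (by omega)).2 hv.2
        rw [if_pos ⟨h2.1, h2.2, by omega⟩, Nat.choose_symm h1]; ring
      · intro n _ hn
        exact if_neg fun h2 => hn (by omega)
      · intro hn
        simp only [Finset.mem_range] at hn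
        omega
    · rw [Nat.choose_eq_zero_of_lt (not_le.1 h1), Finset.sum_eq_zero]
      · simp
      · exact fun n _ => if_neg fun h2 => h1 (by omega)
  · refine Finset.sum_eq_zero fun n _ => if_neg fun h2 => hv ?_
    have h3 := (key n h2.2.2).1 ⟨h2.1, h2.2.1⟩
    exact ⟨not_lt.1 fun h4 => h _ hx h4 h3.1 h3.2, h3⟩

theorem pw2_vtx_iff {m : ℕ} (hδ : P.δ ∈ Λ) (hb : P.b = m) {x : Pt} (h : x.2.2 ≤ P.s)
    (h1 : P.dfc x = 0) (h2 : P.cod x = 0) : PW2 fl p Λ x ↔ VCl fl p Λ P ∧ p ∣ x.2.2 := by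
  have e1 : P.lev = x.1 + x.2.2 * P.δ := by rw [P.dfc_eq] at h1; linarith
  have e2 : P.ε + P.s * m = x.2.1 + x.2.2 * m := by
    simp only [Par.cod, Par.gap, hb] at h2
    have : ((P.ε + P.s * m : ℕ) : ℝ) = (x.2.1 + x.2.2 * m : ℕ) := by push_cast; linarith
    exact_mod_cast this
  constructor
  · rintro ⟨g1, g2, g3, g4⟩
    exact ⟨⟨g1, hδ, e1 ▸ pmul_add g2 (pmul_of_dvd hδ g4), m, hb,
      e2 ▸ dvd_add g3 (g4.mul_right m)⟩, g4⟩
  · rintro ⟨⟨g1, -, g2, m', g3, g4⟩, g5⟩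
    obtain rfl : m' = m := by exact_mod_cast g3.symm.trans hb
    exact ⟨g1, (pmul_add_iff (pmul_of_dvd hδ g5)).1 (e1 ▸ g2),
      (Nat.dvd_add_left (g5.mul_right m')).1 (e2 ▸ g4), g5⟩

theorem pw2_of_vcl (hv : VCl fl p Λ P) {x : Pt} (hp : p ∣ x.2.2) (h : x.2.2 ≤ P.s)
    (h1 : P.dfc x = 0) (h2 : P.cod x = 0) : PW2 fl p Λ x := by
  obtain ⟨m, hm, -⟩ := hv.2.2.2
  exact (pw2_vtx_iff hv.2.1 hm h h1 h2).2 ⟨hv, hp⟩

open Classical in
theorem vtx_cln_coeff {m : ℕ} (hδ : P.δ ∈ Λ) (hb : P.b = m) (Φ : Pol2 k) (i : ℕ) :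
    (vtx (cln fl p Λ Φ) P).coeff i =
      if VCl fl p Λ P ∧ p ∣ i then 0 else (vtx Φ P).coeff i := by
  by_cases hi : i ≤ P.s
  · rw [vtx_coeff_nat _ hb hi, vtx_coeff_nat _ hb hi, cln_apply]
    have := pw2_vtx_iff (fl := fl) (p := p) hδ hb
      (x := (P.β + ((P.s : ℝ) - i) * P.δ, P.ε + (P.s - i) * m, i)) hi
      (by simp [Par.dfc, Par.gap]) (by simp [Par.cod, Par.gap, hb, hi])
    by_cases h : VCl fl p Λ P ∧ p ∣ i
    · rw [if_pos h, if_pos (this.2 h)]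
    · rw [if_neg h, if_neg fun h' => h (this.1 h')]
  · rw [coeff_eq_zero_of_natDegree_lt ((vtx_natDegree_le _ P).trans_lt (not_le.1 hi)),
      coeff_eq_zero_of_natDegree_lt ((vtx_natDegree_le _ P).trans_lt (not_le.1 hi)), ite_self]

theorem taylor_coeff_eq_zero [Fact p.Prime] [CharP k p] {R : k[X]}
    (hR : ∀ e, R.coeff e ≠ 0 → p ∣ e) (c : k) {i : ℕ} (hi : ¬ p ∣ i) :
    (taylor c R).coeff i = 0 := by
  rw [R.as_sum_support, map_sum, finsetSum_coeff]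
  refine Finset.sum_eq_zero fun e he => ?_
  rw [taylor_monomial, coeff_C_mul, coeff_X_add_C_pow]
  by_contra h
  exact hi (by
    have h1 : (e.choose i : k) ≠ 0 := right_ne_zero_of_mul (right_ne_zero_of_mul h)
    exact dvd_of_choose_ne (hR e (mem_support_iff.1 he)) h1)

theorem vtx_cln_shp [Fact p.Prime] [CharP k p] {m : ℕ} (hδ : P.δ ∈ Λ) (hb : P.b = m) (c c' : k)
    (h : ∀ x ∈ Φ.support, P.s < x.2.2 → P.dfc x = 0 → P.cod x ≠ 0) {i : ℕ}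
    (hi : ¬ (VCl fl p Λ P ∧ p ∣ i)) :
    (taylor c' (vtx (cln fl p Λ (shp P.δ (monomial m c) Φ)) P)).coeff i =
      (taylor (c' + c) (vtx Φ P)).coeff i := by
  rw [← taylor_taylor, ← vtx_shp hb c h]
  generalize shp P.δ (monomial m c) Φ = Ψ
  by_cases hv : VCl fl p Λ P
  · rw [← sub_eq_zero, ← coeff_sub, ← map_sub]
    refine taylor_coeff_eq_zero (p := p) (fun e he => ?_) c' fun h1 => hi ⟨hv, h1⟩
    by_contra h1
    exact he (by rw [coeff_sub, vtx_cln_coeff hδ hb, if_neg fun h2 => h1 h2.2, sub_self])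
  · congr 2
    ext e
    rw [vtx_cln_coeff hδ hb, if_neg fun h2 => hv h2.1]

theorem Uns.mono {g g' : ℕ} (h : Uns fl p Λ Φ P g) (hg : g ≤ g') : Uns fl p Λ Φ P g' := by
  intro c hc
  obtain ⟨i, h1, h2, h3⟩ := h c hc
  exact ⟨i, h1, by omega, h3⟩

theorem Uns.exists_vtx {g : ℕ} (h : Uns fl p Λ Φ P g) :
    ∃ x ∈ Φ.support, x.2.2 < P.s ∧ P.s ≤ x.2.2 + g ∧ P.dfc x = 0 ∧ P.cod x = 0 := by
  obtain ⟨i, h1, h2, h3, -⟩ := h 0 fun h0 => absurd rfl h0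
  rw [taylor_zero] at h3
  obtain ⟨x, hx, rfl, -, h4⟩ := vtx_coeff_ne h3
  exact ⟨x, hx, h1, h2, h4⟩

theorem Uns.congr {g : ℕ} (h : Uns fl p Λ Φ P g) (hv : vtx Φ' P' = vtx Φ P) (hs : P'.s = P.s)
    (hb : P'.b = P.b) (hε : P'.ε = P.ε)
    (hδ : ∀ m : ℕ, P.b = m → PMul p Λ (P'.δ - P.δ) ∧ PMul p Λ (P'.lev - P.lev)) :
    Uns fl p Λ Φ' P' g := by
  have h1 : ∀ m : ℕ, P'.b = m → P'.δ ∈ Λ → P.δ ∈ Λ := fun m hm h2 => by
    simpa using Λ.sub_mem h2 (pmul_mem (hδ m (hb ▸ hm)).1)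
  intro c hc
  obtain ⟨i, g1, g2, g3, g4⟩ := h c fun h0 => by
    obtain ⟨h2, m, hm⟩ := hc h0
    exact ⟨h1 m hm h2, m, hb ▸ hm⟩
  refine ⟨i, hs ▸ g1, hs ▸ g2, hv ▸ g3, fun ⟨⟨f1, f2, f3, m, f4, f5⟩, f6⟩ => g4 ⟨?_, f6⟩⟩
  exact ⟨f1, h1 m f4 f2, (pmul_iff_of_sub (hδ m (hb ▸ f4)).2).1 f3, m, hb ▸ f4, hε ▸ hs ▸ f5⟩

theorem Phi.mono {b0 : ℝ} {U U' : ℕ → Prop} (h : Phi p b0 P U)
    (hU : ∀ g < qq p P.s, U g → U' g) : Phi p b0 P U' := by
  obtain ⟨g, J, h1, h2, h3, h4⟩ := h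
  exact ⟨g, J, h1, h2, fun e hg => hU g hg (h3 e hg), h4⟩

namespace PS

theorem β_mem (h : PS fl p Λ Φ P) : P.β ∈ Λ := h.supp _ h.top

theorem top_ne (h : PS fl p Λ Φ P) : Φ P.top ≠ 0 := Finsupp.mem_support_iff.1 h.top

theorem dfc_nonneg (h : PS fl p Λ Φ P) {x : Pt} (hx : x ∈ Φ.support) : 0 ≤ P.dfc x := by
  rcases lt_or_ge x.2.2 P.s with h1 | h1
  · exact (h.low x hx h1).elim le_of_lt fun h2 => h2.1.ge
  · by_cases ht : x = P.top
    · rw [ht, P.dfc_top]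
    · have h2 := (h.junk x hx h1 ht).1
      have h3 : (P.s : ℝ) ≤ x.2.2 := by exact_mod_cast h1
      have h4 := mul_nonneg (sub_nonneg.2 h3) h.δ0
      simp only [Par.dfc, Par.gap]; linarith

theorem junk_cod (h : PS fl p Λ Φ P) {x : Pt} (hx : x ∈ Φ.support) (hs : P.s ≤ x.2.2)
    (ht : x ≠ P.top) (h0 : P.dfc x = 0) : P.cod x < 0 := by
  obtain ⟨h1, h2⟩ := h.junk x hx hs ht
  have h3 : (P.s : ℝ) ≤ x.2.2 := by exact_mod_cast hs
  have h4 := mul_nonneg (sub_nonneg.2 h3) h.δ0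
  simp only [Par.dfc, Par.gap, Par.cod] at h0 ⊢
  have h5 : (P.ε : ℝ) < x.2.1 := by exact_mod_cast h2.resolve_left (by linarith)
  have h6 : 0 ≤ ((x.2.2 : ℝ) - P.s) * P.b := by
    rcases h.pos with h7 | h7
    · have h8 : ((x.2.2 : ℝ) - P.s) * P.δ = 0 := by linarith
      rw [(mul_eq_zero.1 h8).resolve_right h7.ne', zero_mul]
    · exact mul_nonneg (sub_nonneg.2 h3) h7
  linarith

theorem cod_nonpos (h : PS fl p Λ Φ P) {x : Pt} (hx : x ∈ Φ.support) (h0 : P.dfc x = 0) :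
    P.cod x ≤ 0 := by
  rcases lt_or_ge x.2.2 P.s with h1 | h1
  · exact ((h.low x hx h1).resolve_left h0.not_gt).2
  · by_cases ht : x = P.top
    · rw [ht, P.cod_top]
    · exact (h.junk_cod hx h1 ht h0).le

theorem dfc_pos (h : PS fl p Λ Φ P) {x : Pt} (hx : x ∈ Φ.support) (h0 : 0 < P.cod x) :
    0 < P.dfc x :=
  (h.dfc_nonneg hx).lt_of_ne fun h1 => (h.cod_nonpos hx h1.symm).not_gt h0

theorem β_le (h : PS fl p Λ Φ P) {x : Pt} (hx : x ∈ Φ.support) : P.β ≤ x.1 := by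
  rcases lt_or_ge x.2.2 P.s with h1 | h1
  · have h2 := h.dfc_nonneg hx
    have h3 : (x.2.2 : ℝ) ≤ P.s := by exact_mod_cast h1.le
    have h4 := mul_nonneg (sub_nonneg.2 h3) h.δ0
    simp only [Par.dfc, Par.gap] at h2; linarith
  · by_cases ht : x = P.top
    · rw [ht]; exact le_rfl
    · exact (h.junk x hx h1 ht).1

theorem level_nonneg (h : PS fl p Λ Φ P) {x : Pt} (hx : x ∈ Φ.support) : 0 ≤ x.1 :=
  h.β0.trans (h.β_le hx)

theorem no_high (h : PS fl p Λ Φ P) :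
    ∀ x ∈ Φ.support, P.s < x.2.2 → P.dfc x = 0 → P.cod x ≠ 0 :=
  fun x hx h1 h2 => (h.junk_cod hx h1.le (by rintro rfl; exact lt_irrefl _ h1) h2).ne

theorem junk_cod_nonpos (h : PS fl p Λ Φ P) (he : Exact Φ P) (hb : 0 ≤ P.b) {x : Pt}
    (hx : x ∈ Φ.support) (hs : P.s ≤ x.2.2) : P.cod x ≤ 0 := by
  rcases Nat.le_one_iff_eq_zero_or_eq_one.1 h.eps with h0 | h0
  · have h3 : (P.s : ℝ) ≤ x.2.2 := by exact_mod_cast hs
    have h4 := mul_nonneg (sub_nonneg.2 h3) hb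
    have h5 : (0 : ℝ) ≤ x.2.1 := Nat.cast_nonneg _
    simp only [Par.cod, Par.gap, h0]; push_cast; linarith
  · rw [he h0 x hx hs, P.cod_top]

theorem junk_above (h : PS fl p Λ Φ P) (he : Exact Φ P) (hb : 0 ≤ P.b) {θ : ℝ} (hθ : 0 < θ)
    {x : Pt} (hx : x ∈ Φ.support) (hs : P.s ≤ x.2.2) (ht : x ≠ P.top) :
    θ * P.cod x < P.dfc x := by
  rcases (h.dfc_nonneg hx).lt_or_eq with h1 | h1
  · exact (mul_nonpos_of_nonneg_of_nonpos hθ.le (h.junk_cod_nonpos he hb hx hs)).trans_lt h1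
  · rw [← h1]; exact mul_neg_of_pos_of_neg hθ (h.junk_cod hx hs ht h1.symm)

theorem face_cod_nonneg (h : PS fl p Λ Φ P) {θ : ℝ} (hθ : 0 < θ) {x : Pt} (hx : x ∈ Φ.support)
    (hf : P.dfc x = θ * P.cod x) : 0 ≤ P.cod x :=
  nonneg_of_mul_nonneg_right (hf ▸ h.dfc_nonneg hx) hθ

theorem eps_zero (h : PS fl p Λ Φ P) (hp : ¬ p ∣ P.s) : P.ε = 0 :=
  (Nat.le_one_iff_eq_zero_or_eq_one.1 h.eps).resolve_right fun h1 => hp (h.typ h1).2.1

end PS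

theorem Dsc.refl (Φ : Pol2 k) (P : Par) (θ : ℝ) : Dsc Φ P Φ P θ 0 :=
  fun x hx => ⟨x, hx, le_rfl, by ring⟩

theorem Dsc.trans {θ φ : ℝ} (h : Dsc Φ P Φ' P θ 0) (h' : Dsc Φ' P Φ'' P' θ φ) :
    Dsc Φ P Φ'' P' θ φ := by
  intro x'' hx''
  obtain ⟨x', hx', h1, h2⟩ := h' x'' hx''
  obtain ⟨x, hx, h3, h4⟩ := h x' hx'
  exact ⟨x, hx, h3.trans h1, by linear_combination h2 + h4⟩

theorem Dsc.above {θ : ℝ} (h : Dsc Φ P Φ' P θ 0) (ha : Above Φ P θ) : Above Φ' P θ := by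
  intro x' hx'
  obtain ⟨x, hx, -, h4⟩ := h x' hx'
  have := ha x hx
  linarith

theorem rat_of_div {s g : ℕ} (hg : 0 < g) (hs : g ≤ s) (n : ℤ) :
    ∃ m : ℤ, (n : ℝ) / g * s.factorial = m := by
  obtain ⟨c, hc⟩ := Nat.dvd_factorial hg hs
  have : (g : ℝ) ≠ 0 := by exact_mod_cast hg.ne'
  exact ⟨n * c, by rw [hc]; push_cast; field_simp⟩

end polygon

end Pool.Agent.MP_19ffc6_ag.LU2

end MrgPart2

-- ======== part 3: formerly Pool.Agent.MP_19ffc6_ag.LU2.BasicS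
section MrgPart3

/-! Basic API of PROJECT LU2, stage side. -/

namespace Pool.Agent.MP_19ffc6_ag.LU2

open Polynomial IntermediateField Pool.Agent.MP_19ffc6_ag.LU

variable {k Ω : Type*} [Field k] [NontriviallyNormedField Ω] [Algebra k Ω]

namespace St

variable (s : St Ω) {T T' : Set Ω}

/-- The same stage with other coordinates. -/
def withYZ (y' z' : Ω) (hy : ‖y'‖ < 1) (hz : ‖z'‖ < 1) : St Ω :=
  { s with y := y', norm_y := hy, z := z', norm_z := hz }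

@[simp] theorem withYZ_Λ (y' z' : Ω) (hy hz) : (s.withYZ y' z' hy hz).Λ = s.Λ := rfl
@[simp] theorem withYZ_mon (y' z' : Ω) (hy hz) : (s.withYZ y' z' hy hz).mon = s.mon := rfl
@[simp] theorem withYZ_y (y' z' : Ω) (hy hz) : (s.withYZ y' z' hy hz).y = y' := rfl
@[simp] theorem withYZ_z (y' z' : Ω) (hy hz) : (s.withYZ y' z' hy hz).z = z' := rfl

theorem mon_mem_gens {α : ℝ} (h : α ∈ s.Λ) : s.mon α ∈ s.gens := Or.inl ⟨α, h, rfl⟩
theorem y_mem_gens : s.y ∈ s.gens := Or.inr (Or.inl rfl)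
theorem z_mem_gens : s.z ∈ s.gens := Or.inr (Or.inr rfl)
theorem gens_subset_iff {S : Set Ω} :
    s.gens ⊆ S ↔ (∀ α ∈ s.Λ, s.mon α ∈ S) ∧ s.y ∈ S ∧ s.z ∈ S := by
  constructor
  · exact fun h => ⟨fun α hα => h (s.mon_mem_gens hα), h s.y_mem_gens, h s.z_mem_gens⟩
  · rintro ⟨h1, h2, h3⟩ _ (⟨α, hα, rfl⟩ | rfl | rfl)
    exacts [h1 α hα, h2, h3]
theorem nu_y_pos (h : s.y ≠ 0) : 0 < nu s.y := (nu_pos_iff h).2 s.norm_y
theorem nu_z_pos (h : s.z ≠ 0) : 0 < nu s.z := (nu_pos_iff h).2 s.norm_z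

section
variable (k)
theorem mon_mem_M {α : ℝ} (h : α ∈ s.Λ) : s.mon α ∈ s.M k :=
  subset_adjoin _ _ (s.mon_mem_gens h)
theorem y_mem_M : s.y ∈ s.M k := subset_adjoin _ _ s.y_mem_gens
theorem z_mem_M : s.z ∈ s.M k := subset_adjoin _ _ s.z_mem_gens
theorem M_eq_sup : s.M k = s.toStage.M k ⊔ adjoin k {s.z} := by
  rw [M, Stage.M, ← adjoin_union, gens, Stage.gens, Set.union_assoc]; rfl
theorem M_fg : (s.M k).FG := by
  rw [M_eq_sup]
  exact fg_sup (s.toStage.M_fg k) (fg_adjoin_of_finite (Set.finite_singleton _))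
theorem mon_mem_R0 {α : ℝ} (h : α ∈ s.Λ) (h0 : 0 ≤ α) : s.mon α ∈ s.R0 k :=
  Algebra.subset_adjoin (Or.inl ⟨α, ⟨h, h0⟩, rfl⟩)
theorem y_mem_R0 : s.y ∈ s.R0 k := Algebra.subset_adjoin (Or.inr (Or.inl rfl))
theorem z_mem_R0 : s.z ∈ s.R0 k := Algebra.subset_adjoin (Or.inr (Or.inr rfl))
theorem stage_R0_le : s.toStage.R0 k ≤ s.R0 k :=
  s.toStage.R0_le_iff.2 ⟨fun _ h h0 => s.mon_mem_R0 k h h0, s.y_mem_R0 k⟩
theorem R0_le_M : s.R0 k ≤ (s.M k).toSubalgebra := by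
  refine Algebra.adjoin_le ?_
  rintro _ (⟨α, hα, rfl⟩ | rfl | rfl)
  exacts [s.mon_mem_M k hα.1, s.y_mem_M k, s.z_mem_M k]
theorem R0_le_H (T : Set Ω) : s.R0 k ≤ s.H k T := le_sInf fun _ h => h.2
theorem hcl_H (T : Set Ω) : HCl T (s.H k T) :=
  ⟨fun b hb h1 => Algebra.mem_sInf.2 fun B hB => hB.1.1 b (Algebra.mem_sInf.1 hb B hB) h1,
    fun Q η hη hQ h0 h1 h2 => Algebra.mem_sInf.2 fun B hB =>
      hB.1.2 Q η hη (fun i => Algebra.mem_sInf.1 (hQ i) B hB) h0 h1 h2⟩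
theorem mon_mem_H (T : Set Ω) {α : ℝ} (h : α ∈ s.Λ) (h0 : 0 ≤ α) : s.mon α ∈ s.H k T :=
  s.R0_le_H k T (s.mon_mem_R0 k h h0)
theorem y_mem_H (T : Set Ω) : s.y ∈ s.H k T := s.R0_le_H k T (s.y_mem_R0 k)
theorem z_mem_H (T : Set Ω) : s.z ∈ s.H k T := s.R0_le_H k T (s.z_mem_R0 k)
theorem H_empty : s.H k ∅ = loc (s.R0 k) :=
  le_antisymm (sInf_le ⟨⟨fun _ => inv_mem_loc, fun _ _ h => h.elim⟩, le_loc _⟩)
    (loc_le (s.R0_le_H k ∅) (s.hcl_H k ∅).1)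
theorem H_empty_le_M : s.H k ∅ ≤ (s.M k).toSubalgebra := by
  rw [H_empty]
  exact loc_le (s.R0_le_M k) fun _ hb _ => (s.M k).inv_mem hb
theorem ev_single (x : Pt) (c : k) : s.ev k (Finsupp.single x c) =
    algebraMap k Ω c * (s.mon x.1 * s.y ^ x.2.1 * s.z ^ x.2.2) := by
  simp [ev, Algebra.smul_def]
theorem ev_eq_sum (Φ : Pol2 k) : s.ev k Φ =
    ∑ x ∈ Φ.support, algebraMap k Ω (Φ x) * (s.mon x.1 * s.y ^ x.2.1 * s.z ^ x.2.2) := by
  simp [ev, Finsupp.linearCombination_apply, Finsupp.sum, Algebra.smul_def]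
end

theorem M_le_iff {E : IntermediateField k Ω} :
    s.M k ≤ E ↔ (∀ α ∈ s.Λ, s.mon α ∈ E) ∧ s.y ∈ E ∧ s.z ∈ E := by
  rw [M, adjoin_le_iff, gens_subset_iff]; rfl
theorem R0_le_iff {A : Subalgebra k Ω} :
    s.R0 k ≤ A ↔ (∀ α ∈ s.Λ, 0 ≤ α → s.mon α ∈ A) ∧ s.y ∈ A ∧ s.z ∈ A := by
  constructor
  · exact fun h => ⟨fun α hα h0 => h (s.mon_mem_R0 k hα h0), h (s.y_mem_R0 k), h (s.z_mem_R0 k)⟩
  · rintro ⟨h1, h2, h3⟩
    refine Algebra.adjoin_le ?_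
    rintro _ (⟨α, hα, rfl⟩ | rfl | rfl)
    exacts [h1 α hα.1 hα.2, h2, h3]
theorem H_le {B : Subalgebra k Ω} (h : HCl T B) (h0 : s.R0 k ≤ B) : s.H k T ≤ B :=
  sInf_le ⟨h, h0⟩
theorem H_le_H {s' : St Ω} (h : s.R0 k ≤ s'.H k T) : s.H k T ≤ s'.H k T :=
  s.H_le (s'.hcl_H k T) h
theorem H_congr {s' : St Ω} (h : s'.R0 k = s.R0 k) : s'.H k T = s.H k T := by
  rw [H, H, h]
theorem H_mono (h : T ⊆ T') : s.H k T ≤ s.H k T' :=
  s.H_le ⟨(s.hcl_H k T').1, fun Q η hη => (s.hcl_H k T').2 Q η (h hη)⟩ (s.R0_le_H k T')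
theorem H_le_K {K : IntermediateField k Ω} (hT : T ⊆ K) (hM : s.M k ≤ K) :
    s.H k T ≤ K.toSubalgebra :=
  s.H_le ⟨fun _ hb _ => K.inv_mem hb, fun _ _ hη _ _ _ _ => hT hη⟩
    fun _ ha => hM (s.R0_le_M k ha)
theorem inv_mem_H {b : Ω} (hb : b ∈ s.H k T) (h1 : ‖b‖ = 1) : b⁻¹ ∈ s.H k T :=
  (s.hcl_H k T).1 b hb h1
theorem zpow_mem_H {b : Ω} (hb : b ∈ s.H k T) (h1 : ‖b‖ = 1) (e : ℤ) : b ^ e ∈ s.H k T :=
  zpow_mem_of_inv_mem hb (s.inv_mem_H hb h1) e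
theorem root_mem_H {Q : Polynomial Ω} {η : Ω} (hη : η ∈ T) (hQ : ∀ i, Q.coeff i ∈ s.H k T)
    (h0 : Q.eval η = 0) (h1 : ‖η‖ ≤ 1) (h2 : ‖Q.derivative.eval η‖ = 1) : η ∈ s.H k T :=
  (s.hcl_H k T).2 Q η hη hQ h0 h1 h2
theorem aeval_y_mem {A : Subalgebra k Ω} (hy : s.y ∈ A) (g : k[X]) : aeval s.y g ∈ A := by
  rw [aeval_def, eval₂_eq_sum, Polynomial.sum]
  exact A.sum_mem fun j _ => A.mul_mem (A.algebraMap_mem _) (A.pow_mem hy _)
theorem ev_emb (α : ℝ) (i : ℕ) (g : k[X]) :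
    s.ev k (emb α i g) = s.mon α * aeval s.y g * s.z ^ i := by
  rw [emb, map_sum, aeval_def, eval₂_eq_sum, Polynomial.sum, Finset.mul_sum, Finset.sum_mul]
  refine Finset.sum_congr rfl fun j _ => ?_
  rw [ev_single]; ring
theorem ev_mem {A : Subalgebra k Ω} {Φ : Pol2 k} (h : ∀ x ∈ Φ.support, s.mon x.1 ∈ A)
    (hy : s.y ∈ A) (hz : s.z ∈ A) : s.ev k Φ ∈ A := by
  rw [ev_eq_sum]
  exact A.sum_mem fun x hx => A.mul_mem (A.algebraMap_mem _)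
    (A.mul_mem (A.mul_mem (h x hx) (A.pow_mem hy _)) (A.pow_mem hz _))
theorem ev_mem_M {Φ : Pol2 k} (h : Supp s.Λ Φ) : s.ev k Φ ∈ s.M k :=
  s.ev_mem (A := (s.M k).toSubalgebra) (fun x hx => s.mon_mem_M k (h x hx)) (s.y_mem_M k)
    (s.z_mem_M k)
theorem ev_mem_R0 {Φ : Pol2 k} (h : Supp s.Λ Φ) (h0 : ∀ x ∈ Φ.support, 0 ≤ x.1) :
    s.ev k Φ ∈ s.R0 k :=
  s.ev_mem (fun x hx => s.mon_mem_R0 k (h x hx) (h0 x hx)) (s.y_mem_R0 k) (s.z_mem_R0 k)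
theorem ev_eq_mon_mul {Φ : Pol2 k} (h : Supp s.Λ Φ) {N : ℝ} (hN : N ∈ s.Λ)
    (h0 : ∀ x ∈ Φ.support, N ≤ x.1) : ∃ a ∈ s.R0 k, s.ev k Φ = s.mon N * a := by
  refine ⟨∑ x ∈ Φ.support, algebraMap k Ω (Φ x) * (s.mon (x.1 - N) * s.y ^ x.2.1 * s.z ^ x.2.2),
    sum_mem fun x hx => mul_mem (Subalgebra.algebraMap_mem _ _) (mul_mem (mul_mem
      (s.mon_mem_R0 k (s.Λ.sub_mem (h x hx) hN) (sub_nonneg.2 (h0 x hx)))
      (pow_mem (s.y_mem_R0 k) _)) (pow_mem (s.z_mem_R0 k) _)), ?_⟩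
  rw [ev_eq_sum, Finset.mul_sum]
  refine Finset.sum_congr rfl fun x hx => ?_
  have e := s.mon_add N hN _ (s.Λ.sub_mem (h x hx) hN)
  rw [add_sub_cancel] at e
  rw [e]; ring

variable (k) in
/-- The span of a set of monomials. -/
def Sp (S : Set Pt) : Submodule k Ω :=
  Submodule.span k ((fun x : Pt => s.mon x.1 * s.y ^ x.2.1 * s.z ^ x.2.2) '' S)

theorem mem_Sp_iff {S : Set Pt} {a : Ω} :
    a ∈ s.Sp k S ↔ ∃ Φ : Pol2 k, (∀ x ∈ Φ.support, x ∈ S) ∧ s.ev k Φ = a := by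
  rw [Sp, Finsupp.mem_span_image_iff_linearCombination]
  exact ⟨fun ⟨Φ, h, e⟩ => ⟨Φ, fun x hx => (Finsupp.mem_supported k Φ).1 h hx, e⟩,
    fun ⟨Φ, h, e⟩ => ⟨Φ, (Finsupp.mem_supported k Φ).2 fun x hx => h x hx, e⟩⟩
theorem Sp_mono {S S' : Set Pt} (h : S ⊆ S') : s.Sp k S ≤ s.Sp k S' :=
  Submodule.span_mono (Set.image_mono h)
theorem mono_mem_Sp {S : Set Pt} {x : Pt} (h : x ∈ S) :
    s.mon x.1 * s.y ^ x.2.1 * s.z ^ x.2.2 ∈ s.Sp k S := Submodule.subset_span ⟨x, h, rfl⟩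
theorem mul_mem_Sp {S S' S'' : Set Pt} (h1 : ∀ x ∈ S, x.1 ∈ s.Λ) (h2 : ∀ x ∈ S', x.1 ∈ s.Λ)
    (h : ∀ x ∈ S, ∀ x' ∈ S', (x.1 + x'.1, x.2.1 + x'.2.1, x.2.2 + x'.2.2) ∈ S'') {a b : Ω}
    (ha : a ∈ s.Sp k S) (hb : b ∈ s.Sp k S') : a * b ∈ s.Sp k S'' := by
  have hm := Submodule.mul_mem_mul ha hb
  rw [Sp, Sp, Submodule.span_mul_span] at hm
  refine Submodule.span_le.2 ?_ hm
  rintro _ ⟨_, ⟨x, hx, rfl⟩, _, ⟨x', hx', rfl⟩, rfl⟩
  have e := s.mono_mem_Sp (k := k) (h x hx x' hx')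
  dsimp only at e ⊢
  rw [s.mon_add _ (h1 x hx) _ (h2 x' hx'), pow_add, pow_add] at e
  rw [show s.mon x.1 * s.y ^ x.2.1 * s.z ^ x.2.2 * (s.mon x'.1 * s.y ^ x'.2.1 * s.z ^ x'.2.2) =
    s.mon x.1 * s.mon x'.1 * (s.y ^ x.2.1 * s.y ^ x'.2.1) * (s.z ^ x.2.2 * s.z ^ x'.2.2) by ring]
  exact e
theorem mem_R0_iff_Sp {a : Ω} : a ∈ s.R0 k ↔ a ∈ s.Sp k {x | x.1 ∈ s.Λ ∧ 0 ≤ x.1} := by
  constructor
  · intro ha
    induction ha using Algebra.adjoin_induction with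
    | mem x hx =>
      rcases hx with ⟨α, hα, rfl⟩ | rfl | rfl
      · simpa using s.mono_mem_Sp (k := k) (S := {x | x.1 ∈ s.Λ ∧ 0 ≤ x.1}) (x := (α, 0, 0)) hα
      · simpa [s.mon_zero] using s.mono_mem_Sp (k := k) (S := {x | x.1 ∈ s.Λ ∧ 0 ≤ x.1})
          (x := (0, 1, 0)) ⟨s.Λ.zero_mem, le_rfl⟩
      · simpa [s.mon_zero] using s.mono_mem_Sp (k := k) (S := {x | x.1 ∈ s.Λ ∧ 0 ≤ x.1})
          (x := (0, 0, 1)) ⟨s.Λ.zero_mem, le_rfl⟩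
    | algebraMap c =>
      rw [Algebra.algebraMap_eq_smul_one]
      refine Submodule.smul_mem _ _ ?_
      simpa [s.mon_zero] using s.mono_mem_Sp (k := k) (S := {x | x.1 ∈ s.Λ ∧ 0 ≤ x.1})
          (x := (0, 0, 0)) ⟨s.Λ.zero_mem, le_rfl⟩
    | add x y _ _ hx hy => exact add_mem hx hy
    | mul x y _ _ hx hy =>
      exact s.mul_mem_Sp (S'' := {x | x.1 ∈ s.Λ ∧ 0 ≤ x.1}) (fun _ h => h.1) (fun _ h => h.1)
        (fun _ h _ h' => ⟨s.Λ.add_mem h.1 h'.1, add_nonneg h.2 h'.2⟩) hx hy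
  · intro ha
    obtain ⟨Φ, h, rfl⟩ := s.mem_Sp_iff.1 ha
    exact s.ev_mem_R0 (fun x hx => (h x hx).1) fun x hx => (h x hx).2
theorem mem_R0_iff {a : Ω} :
    a ∈ s.R0 k ↔ ∃ Φ : Pol2 k, Supp s.Λ Φ ∧ (∀ x ∈ Φ.support, 0 ≤ x.1) ∧ s.ev k Φ = a := by
  rw [mem_R0_iff_Sp, mem_Sp_iff]
  exact ⟨fun ⟨Φ, h, e⟩ => ⟨Φ, fun x hx => (h x hx).1, fun x hx => (h x hx).2, e⟩,
    fun ⟨Φ, h, h', e⟩ => ⟨Φ, fun x hx => ⟨h x hx, h' x hx⟩, e⟩⟩
theorem exists_ev_mon_mul {a : Ω} (ha : a ∈ s.R0 k) {N : ℝ} (hN : N ∈ s.Λ) :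
    ∃ Φ : Pol2 k, Supp s.Λ Φ ∧ (∀ x ∈ Φ.support, N ≤ x.1) ∧ s.ev k Φ = s.mon N * a := by
  have h1 : s.mon N ∈ s.Sp k {x | x.1 = N} := by
    simpa using s.mono_mem_Sp (k := k) (S := {x | x.1 = N}) (x := (N, 0, 0)) rfl
  have h2 := s.mul_mem_Sp (S'' := {x | x.1 ∈ s.Λ ∧ N ≤ x.1})
    (fun x (h : x.1 = N) => h ▸ hN) (fun _ h => h.1)
    (fun x (h : x.1 = N) x' h' => ⟨s.Λ.add_mem (h ▸ hN) h'.1, by
      have := h'.2
      change N ≤ x.1 + x'.1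
      linarith only [h, this]⟩) h1 (s.mem_R0_iff_Sp.1 ha)
  obtain ⟨Φ, h, e⟩ := s.mem_Sp_iff.1 h2
  exact ⟨Φ, fun x hx => (h x hx).1, fun x hx => (h x hx).2, e⟩
theorem mem_adjoin_gens {a : Ω} (ha : a ∈ Algebra.adjoin k s.gens) :
    ∃ l ∈ s.Λ, s.mon l * a ∈ s.R0 k := by
  have up : ∀ {a : Ω} {l l' : ℝ}, l ∈ s.Λ → l' ∈ s.Λ → l ≤ l' → s.mon l * a ∈ s.R0 k →
      s.mon l' * a ∈ s.R0 k := by
    intro a l l' hl hl' hle h
    have e := s.mon_add _ (s.Λ.sub_mem hl' hl) l hl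
    rw [sub_add_cancel] at e
    rw [e, mul_assoc]
    exact mul_mem (s.mon_mem_R0 k (s.Λ.sub_mem hl' hl) (sub_nonneg.2 hle)) h
  induction ha using Algebra.adjoin_induction with
  | mem x hx =>
    rcases hx with ⟨α, hα, rfl⟩ | rfl | rfl
    · refine ⟨-α, s.Λ.neg_mem hα, ?_⟩
      rw [← s.mon_add _ (s.Λ.neg_mem hα) _ hα, neg_add_cancel, s.mon_zero]
      exact one_mem _
    · exact ⟨0, s.Λ.zero_mem, by rw [s.mon_zero, one_mul]; exact s.y_mem_R0 k⟩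
    · exact ⟨0, s.Λ.zero_mem, by rw [s.mon_zero, one_mul]; exact s.z_mem_R0 k⟩
  | algebraMap c =>
    exact ⟨0, s.Λ.zero_mem, by rw [s.mon_zero, one_mul]; exact Subalgebra.algebraMap_mem _ _⟩
  | add x y _ _ hx hy =>
    obtain ⟨l, hl, h⟩ := hx
    obtain ⟨l', hl', h'⟩ := hy
    rcases le_total l l' with hle | hle
    · exact ⟨l', hl', by rw [mul_add]; exact add_mem (up hl hl' hle h) h'⟩
    · exact ⟨l, hl, by rw [mul_add]; exact add_mem h (up hl' hl hle h')⟩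
  | mul x y _ _ hx hy =>
    obtain ⟨l, hl, h⟩ := hx
    obtain ⟨l', hl', h'⟩ := hy
    refine ⟨l + l', s.Λ.add_mem hl hl', ?_⟩
    rw [s.mon_add _ hl _ hl', mul_mul_mul_comm]
    exact mul_mem h h'

theorem good_mon {α : ℝ} (h : α ∈ s.Λ) : s.Good k T (s.mon α) :=
  ⟨α, h, 1, one_mem _, norm_one, (mul_one _).symm⟩
theorem good_unit {w : Ω} (h : w ∈ s.H k T) (h1 : ‖w‖ = 1) : s.Good k T w :=
  ⟨0, s.Λ.zero_mem, w, h, h1, by rw [s.mon_zero, one_mul]⟩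

variable {s}

theorem Good.mul {a b : Ω} (ha : s.Good k T a) (hb : s.Good k T b) : s.Good k T (a * b) := by
  obtain ⟨α, hα, w, hw, h1, rfl⟩ := ha
  obtain ⟨β, hβ, w', hw', h1', rfl⟩ := hb
  exact ⟨α + β, s.Λ.add_mem hα hβ, w * w', mul_mem hw hw', by rw [norm_mul, h1, h1', one_mul],
    by rw [s.mon_add _ hα _ hβ]; ring⟩
theorem Good.inv {a : Ω} (ha : s.Good k T a) : s.Good k T a⁻¹ := by
  obtain ⟨α, hα, w, hw, h1, rfl⟩ := ha
  exact ⟨-α, s.Λ.neg_mem hα, w⁻¹, s.inv_mem_H hw h1, by rw [norm_inv, h1, inv_one],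
    by rw [s.mon_neg hα, mul_inv]⟩
theorem Good.div {a b : Ω} (ha : s.Good k T a) (hb : s.Good k T b) : s.Good k T (a / b) := by
  rw [div_eq_mul_inv]; exact ha.mul hb.inv
theorem Good.pow {a : Ω} (ha : s.Good k T a) (n : ℕ) : s.Good k T (a ^ n) := by
  induction n with
  | zero => rw [pow_zero]; exact s.good_unit (one_mem _) norm_one
  | succ n ih => rw [pow_succ]; exact ih.mul ha
theorem Good.zpow {a : Ω} (ha : s.Good k T a) (n : ℤ) : s.Good k T (a ^ n) := by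
  obtain ⟨m, rfl | rfl⟩ := n.eq_nat_or_neg
  · rw [zpow_natCast]; exact ha.pow m
  · rw [zpow_neg, zpow_natCast]; exact (ha.pow m).inv
theorem Good.ne_zero {a : Ω} (ha : s.Good k T a) : a ≠ 0 := by
  obtain ⟨α, hα, w, -, h1, rfl⟩ := ha
  exact mul_ne_zero (s.mon_ne_zero hα) (ne_zero_of_norm_eq_one h1)
theorem Good.eq_mon_nu {a : Ω} (ha : s.Good k T a) :
    nu a ∈ s.Λ ∧ ∃ w ∈ s.H k T, ‖w‖ = 1 ∧ a = s.mon (nu a) * w := by
  obtain ⟨α, hα, w, hw, h1, rfl⟩ := ha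
  have : nu (s.mon α * w) = α := nu_of_norm (by rw [norm_mul, h1, mul_one, s.norm_mon α hα])
  rw [this]
  exact ⟨hα, w, hw, h1, rfl⟩
theorem Good.mem_H {a : Ω} (ha : s.Good k T a) (h : ‖a‖ ≤ 1) : a ∈ s.H k T := by
  obtain ⟨hν, w, hw, -, e⟩ := ha.eq_mon_nu
  rw [e]
  exact mul_mem (s.mon_mem_H k T hν ((nu_nonneg_iff ha.ne_zero).2 h)) hw
theorem Good.mono {a : Ω} (ha : s.Good k T a) (h : T ⊆ T') : s.Good k T' a := by
  obtain ⟨α, hα, w, hw, h1, e⟩ := ha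
  exact ⟨α, hα, w, s.H_mono h hw, h1, e⟩

variable (s) [IsUltrametricDist Ω] [Ctx k Ω]

theorem norm_le_one_of_mem_R0 {a : Ω} (ha : a ∈ s.R0 k) : ‖a‖ ≤ 1 :=
  (s.R0_le_iff (A := intAlg k Ω)).2
    ⟨fun _ h h0 => s.norm_mon_le_one h h0, s.norm_y.le, s.norm_z.le⟩ ha
theorem norm_le_one_of_mem_H {a : Ω} (ha : a ∈ s.H k T) : ‖a‖ ≤ 1 :=
  s.H_le (B := intAlg k Ω) ⟨fun b _ h1 => mem_intAlg.2 (by rw [norm_inv, h1, inv_one]),
    fun _ _ _ _ _ h1 _ => h1⟩ (fun _ h => s.norm_le_one_of_mem_R0 h) ha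
theorem norm_mon_mul_le {N : ℝ} (hN : N ∈ s.Λ) {h : Ω} (hh : h ∈ s.H k T) :
    ‖s.mon N * h‖ ≤ Real.exp (-N) := by
  rw [norm_mul, s.norm_mon N hN]
  exact mul_le_of_le_one_right (Real.exp_pos _).le (s.norm_le_one_of_mem_H hh)
theorem norm_ev_le {Φ : Pol2 k} (h : Supp s.Λ Φ) {B : ℝ} (hB : ∀ x ∈ Φ.support, B ≤ x.1) :
    ‖s.ev k Φ‖ ≤ Real.exp (-B) := by
  rw [ev_eq_sum]
  refine norm_sum_le_of (Real.exp_pos _).le fun x hx => ?_
  rw [norm_mul, norm_mul, norm_mul, norm_pow, norm_pow, s.norm_mon _ (h x hx)]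
  calc _ ≤ 1 * (Real.exp (-x.1) * 1 * 1) := by
        gcongr
        · exact norm_alg_le _
        · exact pow_le_one₀ (norm_nonneg _) s.norm_y.le
        · exact pow_le_one₀ (norm_nonneg _) s.norm_z.le
    _ ≤ _ := by simpa using hB x hx
theorem norm_one_add {μ : ℝ} (hμ : μ ∈ s.Λ) (h0 : 0 < μ) {h : Ω} (hh : h ∈ s.H k T) :
    ‖1 + s.mon μ * h‖ = 1 := by
  have h1 : ‖s.mon μ * h‖ < ‖(1 : Ω)‖ := by
    rw [norm_one]
    exact (s.norm_mon_mul_le hμ hh).trans_lt (by simpa using h0)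
  rw [norm_add_eq_left h1, norm_one]
/-- The elements `1 + mon μ * h` form a group. -/
theorem one_add_zpow {μ : ℝ} (hμ : μ ∈ s.Λ) (h0 : 0 < μ) {h : Ω} (hh : h ∈ s.H k T) (e : ℤ) :
    ∃ h' ∈ s.H k T, (1 + s.mon μ * h) ^ e = 1 + s.mon μ * h' := by
  have hm := s.mon_mem_H k T hμ h0.le
  have hn : ∀ n : ℕ, ∃ h' ∈ s.H k T, (1 + s.mon μ * h) ^ n = 1 + s.mon μ * h' := by
    intro n
    induction n with
    | zero => exact ⟨0, zero_mem _, by simp⟩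
    | succ n ih =>
      obtain ⟨h', hh', e⟩ := ih
      exact ⟨h' + h + s.mon μ * h' * h, add_mem (add_mem hh' hh) (mul_mem (mul_mem hm hh') hh),
        by rw [pow_succ, e]; ring⟩
  obtain ⟨m, rfl | rfl⟩ := e.eq_nat_or_neg
  · rw [zpow_natCast]; exact hn m
  · obtain ⟨h', hh', e⟩ := hn m
    have h1 := s.norm_one_add hμ h0 hh'
    have h2 := ne_zero_of_norm_eq_one h1
    refine ⟨-h' * (1 + s.mon μ * h')⁻¹, mul_mem (neg_mem hh')
      (s.inv_mem_H (add_mem (one_mem _) (mul_mem hm hh')) h1), ?_⟩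
    rw [zpow_neg, zpow_natCast, e]
    linear_combination mul_inv_cancel₀ h2

end St

namespace Nx

variable {T T' : Set Ω} {s s' s'' : St Ω}

theorem refl (T : Set Ω) (s : St Ω) : Nx k T s s :=
  ⟨le_rfl, le_rfl, fun _ h => s.good_mon h, fun _ _ h => h⟩
theorem good (h : Nx k T s s') {b : Ω} (hb : s.Good k T b) : s'.Good k T b := by
  obtain ⟨α, hα, w, hw, h1, rfl⟩ := hb
  exact (h.mon α hα).mul (s'.good_unit (h.H_le hw) h1)
theorem trans (h : Nx k T s s') (h' : Nx k T s' s'') : Nx k T s s'' :=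
  ⟨h.H_le.trans h'.H_le, h.lat.trans h'.lat, fun α hα => h'.good (h.mon α hα),
    fun B hB h0 => h'.gen B hB (h.gen B (fun b hb hg => hB b hb (h'.good hg)) h0)⟩
theorem M_le (h : Nx k T s s') {K : IntermediateField k Ω} (hK : s.M k ≤ K) : s'.M k ≤ K :=
  adjoin_le_iff.2 (h.gen K.toSubalgebra (fun _ hb _ => K.inv_mem hb) (adjoin_le_iff.1 hK))
theorem M_eq (h : Nx k ∅ s s') : s'.M k = s.M k := by
  refine le_antisymm (h.M_le le_rfl) (s.M_le_iff.2 ⟨fun α hα => ?_,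
    s'.H_empty_le_M k (h.H_le (s.y_mem_H k ∅)), s'.H_empty_le_M k (h.H_le (s.z_mem_H k ∅))⟩)
  obtain ⟨β, hβ, w, hw, -, e⟩ := h.mon α hα
  rw [e]
  exact mul_mem (s'.mon_mem_M k hβ) (s'.H_empty_le_M k hw)
theorem mono (h : Nx k T s s') (hT : T ⊆ T') : Nx k T' s s' :=
  ⟨s.H_le_H fun _ ha => s'.H_mono hT (h.H_le (s.R0_le_H k T ha)), h.lat,
    fun α hα => (h.mon α hα).mono hT,
    fun B hB h0 => h.gen B (fun b hb hg => hB b hb (hg.mono hT)) h0⟩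
theorem mon_eq (h : Nx k T s s') {N : ℝ} (hN : N ∈ s.Λ) :
    ∃ w ∈ s'.H k T, ‖w‖ = 1 ∧ s.mon N = s'.mon N * w := by
  obtain ⟨-, w, hw, h1, e⟩ := (h.mon N hN).eq_mon_nu
  rw [s.nu_mon hN] at e
  exact ⟨w, hw, h1, e⟩
theorem rem (h : Nx k T s s') {N : ℝ} (hN : N ∈ s.Λ) {r : Ω}
    (hr : ∃ a ∈ s.H k T, r = s.mon N * a) : ∃ a ∈ s'.H k T, r = s'.mon N * a := by
  obtain ⟨a, ha, rfl⟩ := hr
  obtain ⟨w, hw, -, e⟩ := h.mon_eq hN
  exact ⟨w * a, mul_mem hw (h.H_le ha), by rw [e, mul_assoc]⟩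
/-- A change of the coordinates that keeps the monomials. -/
theorem of_mon_eq (h1 : s'.Λ = s.Λ) (h2 : s'.mon = s.mon) (hy : s.y ∈ s'.H k T)
    (hz : s.z ∈ s'.H k T) (hy' : s'.y ∈ Algebra.adjoin k s.gens)
    (hz' : s'.z ∈ Algebra.adjoin k s.gens) : Nx k T s s' := by
  refine ⟨s.H_le_H (s.R0_le_iff.2 ⟨fun α hα h0 => ?_, hy, hz⟩), h1.ge, fun α hα => ?_,
    fun B _ h0 => s'.gens_subset_iff.2 ⟨fun α hα => ?_, Algebra.adjoin_le h0 hy',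
      Algebra.adjoin_le h0 hz'⟩⟩
  · rw [← h2]; exact s'.mon_mem_H k T (h1 ▸ hα) h0
  · rw [← h2]; exact s'.good_mon (h1 ▸ hα)
  · rw [h2]; exact h0 (s.mon_mem_gens (h1 ▸ hα))

end Nx

namespace Apx

variable {T : Set Ω} {s s' : St Ω} {a b : Ω}

theorem of_mem (h : a ∈ s.R0 k) : Apx k T s a := by
  refine ⟨s.R0_le_H k T h, fun N _ => ⟨a, h, 0, zero_mem _, by simp⟩⟩
theorem add (ha : Apx k T s a) (hb : Apx k T s b) : Apx k T s (a + b) := by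
  refine ⟨add_mem ha.1 hb.1, fun N hN => ?_⟩
  obtain ⟨a0, h0, a1, h1, e⟩ := ha.2 N hN
  obtain ⟨b0, h0', b1, h1', e'⟩ := hb.2 N hN
  exact ⟨a0 + b0, add_mem h0 h0', a1 + b1, add_mem h1 h1', by rw [e, e']; ring⟩
theorem mul (ha : Apx k T s a) (hb : Apx k T s b) : Apx k T s (a * b) := by
  refine ⟨mul_mem ha.1 hb.1, fun N hN => ?_⟩
  obtain ⟨a0, h0, a1, h1, e⟩ := ha.2 N hN
  obtain ⟨b0, h0', b1, h1', e'⟩ := hb.2 N hN
  exact ⟨a0 * b0, mul_mem h0 h0', a1 * b + a0 * b1,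
    add_mem (mul_mem h1 hb.1) (mul_mem (s.R0_le_H k T h0) h1'), by
      linear_combination b * e + a0 * e'⟩
theorem neg (ha : Apx k T s a) : Apx k T s (-a) := by
  refine ⟨neg_mem ha.1, fun N hN => ?_⟩
  obtain ⟨a0, h0, a1, h1, e⟩ := ha.2 N hN
  exact ⟨-a0, neg_mem h0, -a1, neg_mem h1, by rw [e]; ring⟩
theorem mono (h1 : s'.Λ = s.Λ) (h2 : s'.mon = s.mon) (h : s.R0 k ≤ s'.R0 k)
    (ha : Apx k T s a) : Apx k T s' a := by
  have hH : s.H k T ≤ s'.H k T := s.H_le_H (h.trans (s'.R0_le_H k T))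
  refine ⟨hH ha.1, fun N hN => ?_⟩
  obtain ⟨a0, h0, a1, h1', e⟩ := ha.2 N (h1 ▸ hN)
  exact ⟨a0, h h0, a1, hH h1', by rw [h2]; exact e⟩
/-- Expansion of `mon N * a` up to the level `N'`. -/
theorem expand (ha : Apx k T s a) {N N' : ℝ} (hN : N ∈ s.Λ) (hN' : N' ∈ s.Λ) :
    ∃ Φ : Pol2 k, Supp s.Λ Φ ∧ (∀ x ∈ Φ.support, N ≤ x.1) ∧ ∃ h ∈ s.H k T,
      s.mon N * a = s.ev k Φ + s.mon N' * h := by
  obtain ⟨a0, h0, a1, h1, e⟩ := ha.2 (N' - N) (s.Λ.sub_mem hN' hN)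
  obtain ⟨Φ, hΦ, hl, e'⟩ := s.exists_ev_mon_mul h0 hN
  have e2 := s.mon_add N hN _ (s.Λ.sub_mem hN' hN)
  rw [add_sub_cancel] at e2
  exact ⟨Φ, hΦ, hl, a1, h1, by rw [e', e2, e]; ring⟩

end Apx

theorem DB.mono {D : Ω → Ω} {s : St Ω} {A A' : ℝ} (h : DB D s A) (hA : A ≤ A') : DB D s A' := by
  have h1 := Real.exp_le_exp.2 hA
  exact ⟨fun α hα => (h.1 α hα).trans (mul_le_mul_of_nonneg_right h1 (norm_nonneg _)),
    h.2.1.trans h1, h.2.2.trans h1⟩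

/-- The derivation of a monomial times an element with bounded derivation. -/
theorem DB.norm_mon_mul [IsUltrametricDist Ω] {D : Ω → Ω} {s : St Ω} {A : ℝ} (h : DB D s A)
    {K : IntermediateField k Ω} (hD : IsDer K D) (hK : s.M k ≤ K) {N : ℝ} (hN : N ∈ s.Λ) {a : Ω}
    (ha : a ∈ K) (h1 : ‖a‖ ≤ 1) (h2 : ‖D a‖ ≤ Real.exp A) :
    ‖D (s.mon N * a)‖ ≤ Real.exp (A - N) := by
  rw [hD.mul _ (hK (s.mon_mem_M k hN)) _ ha, sub_eq_add_neg, Real.exp_add]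
  have h3 := h.1 N hN
  rw [s.norm_mon N hN] at h3
  refine norm_add_le_of ?_ ?_
  · rw [norm_mul, s.norm_mon N hN, mul_comm]
    exact mul_le_mul_of_nonneg_right h2 (Real.exp_pos _).le
  · rw [norm_mul]
    exact (mul_le_of_le_one_left (norm_nonneg _) h1).trans h3

theorem exists_level_lt (s : St Ω) {a : Ω} (ha : a ≠ 0) (A t : ℝ) :
    ∃ N ∈ s.Λ, t < N ∧ Real.exp (A - N) < ‖a‖ := by
  obtain ⟨N, hN, h⟩ := s.exists_gt (max t (A + nu a))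
  refine ⟨N, hN, (le_max_left _ _).trans_lt h, ?_⟩
  rw [norm_eq_exp ha, Real.exp_lt_exp]
  linarith only [(le_max_right _ _).trans_lt h]

namespace Cx

variable (cx : Cx Ω k) {s : St Ω}

theorem T_sub : cx.T ⊆ cx.K := fun _ h => h.2
theorem mem_T {a : Ω} (hf : cx.fl) (ha : a ∈ cx.K) : a ∈ cx.T := ⟨hf, ha⟩
theorem T_eq_empty (h : ¬ cx.fl) : cx.T = ∅ := Set.eq_empty_of_forall_notMem fun _ h' => h h'.1
theorem M_le' (h : Nx k cx.T cx.s0 s) : s.M k ≤ cx.K := h.M_le cx.M_le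
theorem H_le (h : Nx k cx.T cx.s0 s) : s.H k cx.T ≤ cx.K.toSubalgebra :=
  s.H_le_K cx.T_sub (cx.M_le' h)
theorem y_ne (h : Nx k cx.T cx.s0 s) : s.y ≠ 0 := (cx.ne s h).1
theorem z_ne (h : Nx k cx.T cx.s0 s) : s.z ≠ 0 := (cx.ne s h).2

end Cx

namespace Rp

variable {p : ℕ} {cx : Cx Ω k} {s s' : St Ω} {Φ Φ' : Pol2 k} {r r' : Ω}

theorem nx (h : Rp p cx s Φ r) : Nx k cx.T cx.s0 s := h.1
theorem supp (h : Rp p cx s Φ r) : Supp s.Λ Φ := h.2.1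
theorem r_mem (h : Rp p cx s Φ r) : r ∈ cx.K := by
  obtain ⟨h1, h2, c, hc, -, b, hb, -, e⟩ := h
  have hc' : c ∈ cx.K := cx.H_le h1 hc
  rw [← sub_eq_iff_eq_add'.2 e]
  exact sub_mem (add_mem (mul_mem (pow_mem hc' _) cx.f_mem) (pow_mem hb _))
    (cx.M_le' h1 (s.ev_mem_M h2))
theorem transport (h : Rp p cx s Φ r) (hn : Nx k cx.T s s') (hs : Supp s'.Λ Φ')
    (he : s'.ev k Φ' + r' = s.ev k Φ + r) : Rp p cx s' Φ' r' := by
  obtain ⟨h1, -, c, hc, hc1, b, hb, hb0, e⟩ := h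
  exact ⟨h1.trans hn, hs, c, hn.H_le hc, hc1, b, hb, hb0, e.trans he.symm⟩
theorem congr (h : Rp p cx s Φ r) (hs : Supp s.Λ Φ') (he : s.ev k Φ' + r' = s.ev k Φ + r) :
    Rp p cx s Φ' r' := h.transport (Nx.refl _ _) hs he
theorem unit (h : Rp p cx s Φ r) (hn : Nx k cx.T s s') (hs : Supp s'.Λ Φ') {u : Ω}
    (hu : u ∈ s'.H k cx.T) (h1 : ‖u‖ = 1) {n0 : ℕ} (hp : p ∣ n0)
    (he : s'.ev k Φ' = u ^ n0 * s.ev k Φ) : Rp p cx s' Φ' (u ^ n0 * r) := by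
  obtain ⟨h0, -, c, hc, hc1, b, hb, hb0, e⟩ := h
  obtain ⟨m, rfl⟩ := hp
  have hu' : u ∈ cx.K := cx.H_le (h0.trans hn) hu
  refine ⟨h0.trans hn, hs, u ^ m * c, mul_mem (pow_mem hu _) (hn.H_le hc),
    by rw [norm_mul, norm_pow, h1, hc1, one_pow, one_mul], u ^ m * b, mul_mem (pow_mem hu' _) hb,
    fun hf => by rw [hb0 hf, mul_zero], ?_⟩
  rw [he, mul_pow, mul_pow, ← pow_mul, mul_comm m p]
  linear_combination u ^ (p * m) * e
theorem norm_D [CharP Ω p] (h : Rp p cx s Φ r) :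
    ‖cx.D (s.ev k Φ + r)‖ = ‖cx.D cx.f‖ := by
  obtain ⟨h1, -, c, hc, hc1, b, hb, -, e⟩ := h
  have hc' : c ∈ cx.K := cx.H_le h1 hc
  rw [← e, cx.der.add _ (mul_mem (pow_mem hc' _) cx.f_mem) _ (pow_mem hb _),
    cx.der.mul _ (pow_mem hc' _) _ cx.f_mem, cx.der.pow_char p hc', cx.der.pow_char p hb,
    mul_zero, add_zero, add_zero, norm_mul, norm_pow, hc1, one_pow, one_mul]

end Rp

theorem Lower.mono {p : ℕ} {cx : Cx Ω k} {μ μ' : ℕ} (h : Lower p cx μ) (hμ : μ ≤ μ') :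
    Lower p cx μ' := by
  obtain ⟨s, B, j, i, h1, h2⟩ := h
  exact ⟨s, B, j, i, h1, h2.trans_le hμ⟩

end Pool.Agent.MP_19ffc6_ag.LU2

end MrgPart3

-- ======== part 4: formerly Pool.Agent.MP_19ffc6_ag.LU2.Iso
section MrgPart4

/-! PROJECT LU2, module ISO: isolation of a bottom monomial, the first start and the a priori
bound. -/

namespace Pool.Agent.MP_19ffc6_ag.LU2

open Polynomial IntermediateField Pool.Agent.MP_19ffc6_ag.LU

namespace Iso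

/-- A point of least degree, and of greatest height among those, on a line. -/
theorem exists_least (S : Finset Pt) (Q : Pt → Prop) (h : ∃ x ∈ S, Q x) :
    ∃ x0 ∈ S, Q x0 ∧ ∀ x ∈ S, Q x → x0.2.1 + x0.2.2 < x.2.1 + x.2.2 ∨
      (x0.2.1 + x0.2.2 = x.2.1 + x.2.2 ∧ x.2.2 ≤ x0.2.2) := by
  classical
  obtain ⟨x, hx, hQ⟩ := h
  obtain ⟨x1, hx1, h1⟩ := (S.filter Q).exists_min_image (fun x => x.2.1 + x.2.2)
    ⟨x, Finset.mem_filter.2 ⟨hx, hQ⟩⟩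
  obtain ⟨x0, hx0, h0⟩ := ((S.filter Q).filter fun x => x.2.1 + x.2.2 = x1.2.1 + x1.2.2
    ).exists_max_image (fun x => x.2.2) ⟨x1, Finset.mem_filter.2 ⟨hx1, rfl⟩⟩
  obtain ⟨hx0', e0⟩ := Finset.mem_filter.1 hx0
  obtain ⟨hS, hQ0⟩ := Finset.mem_filter.1 hx0'
  refine ⟨x0, hS, hQ0, fun x hx hQ => ?_⟩
  have hm : x ∈ S.filter Q := Finset.mem_filter.2 ⟨hx, hQ⟩
  have h2 := h1 x hm
  rcases h2.lt_or_eq with h3 | h3
  · left; omega
  · right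
    exact ⟨by omega, h0 x (Finset.mem_filter.2 ⟨hm, h3.symm⟩)⟩

/-- The choice of the scaling exponents. -/
theorem exists_scale {p : ℕ} [Fact p.Prime] {Λ : AddSubgroup ℝ} (hd : Dense (Λ : Set ℝ))
    (S : Finset Pt) {δ B0 N e1 e2 : ℝ} (he1 : 0 < e1) (hδ : 0 ≤ δ) (he2 : δ < e2) (hN : B0 < N)
    (hS : ∀ x ∈ S, B0 ≤ x.1 + x.2.2 * δ) {x0 : Pt} (hx0 : x0 ∈ S) (h0 : x0.1 + x0.2.2 * δ = B0)
    (hm : ∀ x ∈ S, x.1 + x.2.2 * δ = B0 → x0.2.1 + x0.2.2 < x.2.1 + x.2.2 ∨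
      (x0.2.1 + x0.2.2 = x.2.1 + x.2.2 ∧ x.2.2 ≤ x0.2.2)) :
    ∃ ζ ξ : ℝ, PMul p Λ ζ ∧ PMul p Λ ξ ∧ 0 < ζ ∧ 0 < ξ ∧ ζ < e1 ∧ ξ < e2 ∧
      x0.1 + x0.2.1 * ζ + x0.2.2 * ξ < N ∧
      ∀ x ∈ S, x ≠ x0 → x0.1 + x0.2.1 * ζ + x0.2.2 * ξ < x.1 + x.2.1 * ζ + x.2.2 * ξ := by
  obtain ⟨D, hD⟩ : ∃ D : ℕ, ∀ x ∈ S, x.2.1 + x.2.2 ≤ D :=
    ⟨S.sup fun x => x.2.1 + x.2.2, fun x hx => Finset.le_sup (f := fun x : Pt => x.2.1 + x.2.2) hx⟩
  obtain ⟨e, he, heS⟩ := exists_pos_lower S (fun x => x.1 + x.2.2 * δ ≠ B0)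
    (fun x => x.1 + x.2.2 * δ - B0) fun x hx h => sub_pos.2 (lt_of_le_of_ne (hS x hx) h.symm)
  have hD1 : (0 : ℝ) < D + 1 := by positivity
  have hpos : 0 < min (min e1 (e2 - δ)) (min e (N - B0) / (D + 1)) :=
    lt_min (lt_min he1 (sub_pos.2 he2)) (div_pos (lt_min he (sub_pos.2 hN)) hD1)
  obtain ⟨ζ, hζ, hζ0, hζ1⟩ := exists_pmul_between (p := p) hd hpos
  have hζa : ζ < e1 := hζ1.trans_le ((min_le_left _ _).trans (min_le_left _ _))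
  have hζb : ζ < e2 - δ := hζ1.trans_le ((min_le_left _ _).trans (min_le_right _ _))
  have hζc : ζ * (D + 1) < min e (N - B0) :=
    (lt_div_iff₀ hD1).1 (hζ1.trans_le (min_le_right _ _))
  have hw0 : 0 < ζ / (D + 1) := div_pos hζ0 hD1
  obtain ⟨ξ, hξ, hξ0, hξ1⟩ := exists_pmul_between (p := p) hd
    (show δ + ζ - ζ / (D + 1) < δ + ζ by linarith)
  obtain ⟨w, hw⟩ : ∃ w, w = δ + ζ - ξ := ⟨_, rfl⟩
  have hwpos : 0 < w := by linarith
  have hwlt : w * (D + 1) < ζ := (lt_div_iff₀ hD1).1 (by linarith)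
  have hDw : (0 : ℝ) ≤ w * D := by positivity
  have hξe : ξ = δ + ζ - w := by linarith
  have key : ∀ x : Pt, x.1 + x.2.1 * ζ + x.2.2 * ξ =
      x.1 + x.2.2 * δ + ((x.2.1 + x.2.2 : ℕ) : ℝ) * ζ - x.2.2 * w := by
    intro x; rw [hξe]; push_cast; ring
  have hup : x0.1 + x0.2.1 * ζ + x0.2.2 * ξ ≤ B0 + ((x0.2.1 + x0.2.2 : ℕ) : ℝ) * ζ := by
    rw [key, h0]
    have : (0 : ℝ) ≤ x0.2.2 * w := by positivity
    linarith
  have hup' : x0.1 + x0.2.1 * ζ + x0.2.2 * ξ < B0 + min e (N - B0) := by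
    have h1 : ((x0.2.1 + x0.2.2 : ℕ) : ℝ) ≤ D := by exact_mod_cast hD x0 hx0
    have h2 := mul_le_mul_of_nonneg_right h1 hζ0.le
    nlinarith
  have hξpos : 0 < ξ := by nlinarith
  refine ⟨ζ, ξ, hζ, hξ, hζ0, hξpos, hζa, by linarith, ?_, fun x hx hne => ?_⟩
  · have := min_le_right e (N - B0)
    linarith
  by_cases hl : x.1 + x.2.2 * δ = B0
  · rcases hm x hx hl with h1 | ⟨h1, h2⟩
    · have h3 : ((x0.2.1 + x0.2.2 : ℕ) : ℝ) + 1 ≤ ((x.2.1 + x.2.2 : ℕ) : ℝ) := by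
        exact_mod_cast h1
      have h4 := mul_le_mul_of_nonneg_right h3 hζ0.le
      have h5 : (x.2.2 : ℝ) ≤ D := by
        have := hD x hx
        exact_mod_cast (by omega : x.2.2 ≤ D)
      have h6 := mul_le_mul_of_nonneg_right h5 hwpos.le
      rw [key x, hl]
      nlinarith
    · have h3 : x.2.2 < x0.2.2 := by
        refine lt_of_le_of_ne h2 fun h4 => hne ?_
        have h5 : x.2.1 = x0.2.1 := by omega
        have h6 : x.1 = x0.1 := by rw [h4] at hl; linarith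
        exact Prod.ext h6 (Prod.ext h5 h4)
      have h4 : (x.2.2 : ℝ) < x0.2.2 := by exact_mod_cast h3
      have h5 := mul_lt_mul_of_pos_right h4 hwpos
      rw [key x, key x0, hl, h0, h1]
      linarith
  · have h1 := heS x hx hl
    have h2 := min_le_left e (N - B0)
    have h3 : (0 : ℝ) ≤ x.2.1 * ζ := by positivity
    have h4 : (x.2.2 : ℝ) * δ ≤ x.2.2 * ξ :=
      mul_le_mul_of_nonneg_left (by nlinarith) (Nat.cast_nonneg _)
    linarith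

variable {k Ω : Type*} [Field k] [NontriviallyNormedField Ω] [IsUltrametricDist Ω] [Algebra k Ω]

/-- The derivation of a power. -/
theorem norm_D_pow {K : IntermediateField k Ω} {D : Ω → Ω} (hD : IsDer K D) {a : Ω} (ha : a ∈ K)
    {δ A : ℝ} (h1 : ‖a‖ ≤ Real.exp (-δ)) (h2 : ‖D a‖ ≤ Real.exp A) (n : ℕ) :
    ‖D (a ^ n)‖ ≤ Real.exp (A + δ - n * δ) := by
  rcases n with _ | n
  · rw [pow_zero, hD.one, norm_zero]; exact (Real.exp_pos _).le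
  rw [hD.pow ha, Nat.add_sub_cancel, norm_mul, norm_mul, norm_pow]
  have h3 : ‖((n + 1 : ℕ) : Ω)‖ ≤ 1 := IsUltrametricDist.norm_natCast_le_one Ω _
  have h4 : ‖a‖ ^ n ≤ Real.exp (-δ) ^ n := pow_le_pow_left₀ (norm_nonneg _) h1 n
  calc ‖((n + 1 : ℕ) : Ω)‖ * ‖a‖ ^ n * ‖D a‖ ≤ 1 * Real.exp (-δ) ^ n * Real.exp A := by gcongr
    _ = Real.exp (A + δ - (n + 1 : ℕ) * δ) := by
      rw [one_mul, ← Real.exp_nat_mul, ← Real.exp_add]
      congr 1; push_cast; ring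

/-- The derivation of a monomial. -/
theorem norm_D_mono {K : IntermediateField k Ω} {D : Ω → Ω} (hD : IsDer K D) {s : St Ω}
    (hK : s.M k ≤ K) {A A0 δ : ℝ} (hA : DB D s A) (hA0 : A ≤ A0 + δ)
    (hz : ‖D s.z‖ ≤ Real.exp A0) (hδ : ‖s.z‖ ≤ Real.exp (-δ)) {x : Pt} (hx : x.1 ∈ s.Λ) :
    ‖D (s.mon x.1 * s.y ^ x.2.1 * s.z ^ x.2.2)‖ ≤ Real.exp (A0 + δ - (x.1 + x.2.2 * δ)) := by
  have hy : s.y ∈ K := hK (s.y_mem_M k)
  have hz' : s.z ∈ K := hK (s.z_mem_M k)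
  have hy1 : ‖s.y ^ x.2.1‖ ≤ 1 := by
    rw [norm_pow]; exact pow_le_one₀ (norm_nonneg _) s.norm_y.le
  have h1 : ‖D (s.y ^ x.2.1)‖ ≤ Real.exp A := by
    simpa using norm_D_pow hD hy (δ := 0) (by simpa using s.norm_y.le) hA.2.1 x.2.1
  have h2 := hA.norm_mon_mul hD hK hx (pow_mem hy _) hy1 h1
  have h3 := norm_D_pow hD hz' hδ hz x.2.2
  have h4 : ‖s.mon x.1 * s.y ^ x.2.1‖ ≤ Real.exp (-x.1) := by
    rw [norm_mul, s.norm_mon _ hx]
    exact mul_le_of_le_one_right (Real.exp_pos _).le hy1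
  have h5 : ‖s.z ^ x.2.2‖ ≤ Real.exp (-(x.2.2 * δ)) := by
    rw [norm_pow, ← mul_neg, Real.exp_nat_mul]
    exact pow_le_pow_left₀ (norm_nonneg _) hδ _
  rw [hD.mul _ (mul_mem (hK (s.mon_mem_M k hx)) (pow_mem hy _)) _ (pow_mem hz' _)]
  refine norm_add_le_of ?_ ?_
  · rw [norm_mul]
    refine (mul_le_mul h4 h3 (norm_nonneg _) (Real.exp_pos _).le).trans (le_of_eq ?_)
    rw [← Real.exp_add]; congr 1; ring
  · rw [norm_mul]
    refine (mul_le_mul h5 h2 (norm_nonneg _) (Real.exp_pos _).le).trans ?_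
    rw [← Real.exp_add]
    exact Real.exp_le_exp.2 (by linarith)

end Iso

variable {k Ω : Type*} [Field k] [NontriviallyNormedField Ω] [IsUltrametricDist Ω] [Algebra k Ω]
  [IsAlgClosed k] [IsAlgClosed Ω] [Ctx k Ω] {p : ℕ} [Fact p.Prime] [CharP k p] [CharP Ω p]

omit [IsUltrametricDist Ω] [IsAlgClosed k] [IsAlgClosed Ω] [Ctx k Ω] [CharP k p] [CharP Ω p] in
/-- Isolation of a bottom monomial of least degree. -/
theorem iso (hr : RS k Ω p) : IsoStmt k Ω p := by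
  classical
  intro cx s Φ N δ B0 h hN hh hR hess hlev hδ hz hB hge hex
  obtain ⟨x0, hx0, h0, hm⟩ := Iso.exists_least Φ.support _ hex
  refine ⟨x0, hx0, h0, hm, ?_⟩
  obtain ⟨ζ, ξ, hζ, hξ, hζ0, hξ0, hζ1, hξ1, hlt, hleast⟩ := Iso.exists_scale (p := p) s.dense
    Φ.support (s.nu_y_pos (cx.y_ne hR.nx)) hδ hz hB hge hx0 h0 hm
  obtain ⟨s', hΛ, hmon, -, -, hnx, hev, -, hapx, -⟩ := hr.scale cx.T s ζ ξ (pmul_mem hζ)
    (pmul_mem hξ) hζ0.le hξ0.le (Or.inr hζ1) (Or.inr hξ1)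
  obtain ⟨B, hBdef⟩ : ∃ B, B = x0.1 + x0.2.1 * ζ + x0.2.2 * ξ := ⟨_, rfl⟩
  have hp : PMul p s.Λ (B - x0.1) := by
    have : B - x0.1 = x0.2.1 * ζ + x0.2.2 * ξ := by rw [hBdef]; ring
    rw [this]
    exact pmul_add (pmul_nat_mul hζ _) (pmul_nat_mul hξ _)
  have hBΛ : B ∈ s'.Λ := by
    rw [hΛ]
    simpa using s.Λ.add_mem (pmul_mem hp) (hR.supp x0 hx0)
  have hN' : N ∈ s'.Λ := hΛ ▸ hN
  have hsc : Supp s'.Λ (scl ζ ξ Φ) := hΛ ▸ hR.supp.scl (pmul_mem hζ) (pmul_mem hξ)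
  have hs1 : Supp s'.Λ (Finsupp.single (B, x0.2.1, x0.2.2) (Φ x0)) := Supp.single hBΛ _
  obtain ⟨Ψ, hΨ⟩ : ∃ Ψ, Ψ = scl ζ ξ Φ - Finsupp.single (B, x0.2.1, x0.2.2) (Φ x0) := ⟨_, rfl⟩
  have hsΨ : Supp s'.Λ Ψ := hΨ ▸ hsc.sub hs1
  have hΨlt : ∀ x ∈ Ψ.support, B < x.1 := by
    intro x' hx'
    have hne : x' ≠ (B, x0.2.1, x0.2.2) := by
      rintro rfl
      refine Finsupp.mem_support_iff.1 hx' ?_
      rw [hΨ, Finsupp.sub_apply, Finsupp.single_eq_same, hBdef]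
      exact sub_eq_zero.2 (scl_apply ζ ξ Φ x0)
    have hmem : x' ∈ (scl ζ ξ Φ).support := by
      rw [Finsupp.mem_support_iff] at hx' ⊢
      rwa [hΨ, Finsupp.sub_apply, Finsupp.single_eq_of_ne hne, sub_zero] at hx'
    obtain ⟨x, hx, rfl⟩ := mem_scl_support.1 hmem
    rw [hBdef]
    refine hleast x hx ?_
    rintro rfl
    exact hne (by rw [hBdef])
  obtain ⟨e, he, he0, heN, heΨ⟩ := exists_pos_lower_mem (Λ := s'.Λ) Ψ.support (fun _ => True)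
    (fun x => x.1 - B) (s'.Λ.sub_mem hN' hBΛ) (by rw [hBdef]; linarith)
    fun x hx _ => ⟨sub_pos.2 (hΨlt x hx), s'.Λ.sub_mem (hsΨ x hx) hBΛ⟩
  have hBe : B + e ∈ s'.Λ := s'.Λ.add_mem hBΛ he
  obtain ⟨a, ha, hae⟩ := s'.ev_eq_mon_mul hsΨ hBe fun x hx => by
    have := heΨ x hx trivial
    linarith
  have hd : N - (B + e) ∈ s'.Λ := s'.Λ.sub_mem hN' hBe
  refine ⟨s', B, ⟨?_, ?_, Φ x0, Finsupp.mem_support_iff.1 hx0, B + e, hBe, by linarith,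
    a + s'.mon (N - (B + e)) * h, ?_, ?_⟩, hΛ, hp⟩
  · have h1 := hlev x0 hx0
    rw [hBdef]; positivity
  · rw [hΛ, pw2_congr (x := x0) (x' := (B, x0.2.1, x0.2.2)) hp rfl]
    exact hess x0 hx0
  · exact (Apx.of_mem ha).add ((Apx.of_mem (s'.mon_mem_R0 k hd (by linarith))).mul
      (hapx hζ0 hξ0 h hh))
  · refine hR.transport hnx hs1 ?_
    have h1 : s'.mon (B + e) * s'.mon (N - (B + e)) = s.mon N := by
      rw [← s'.mon_add _ hBe _ hd, hmon]; congr 1; ring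
    rw [mul_add, ← hae, ← mul_assoc, h1, hΨ, map_sub, hev Φ hR.supp]
    ring

omit [IsAlgClosed k] [IsAlgClosed Ω] [CharP k p] in
/-- The first start. -/
theorem init2 (hs : HS k Ω) (hr : RS k Ω p) (hi : IsoStmt k Ω p) : Init2Stmt k Ω p := by
  classical
  intro cx hf
  have hn0 := Nx.refl (k := k) cx.T cx.s0
  obtain ⟨ζ, hζ, hζ0, hζ1⟩ := exists_mem_between cx.s0.dense
    (lt_min (cx.s0.nu_y_pos (cx.y_ne hn0)) (cx.s0.nu_z_pos (cx.z_ne hn0)))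
  obtain ⟨s, -, -, -, -, hnx, -, -, hapx, -⟩ := hr.scale cx.T cx.s0 ζ ζ hζ hζ hζ0.le hζ0.le
    (Or.inr (hζ1.trans_le (min_le_left _ _))) (Or.inr (hζ1.trans_le (min_le_right _ _)))
  obtain ⟨A, hA⟩ := hs.exists_db s cx.K cx.D (cx.M_le' hnx) cx.der
  obtain ⟨N, hN, -, hNA⟩ := exists_level_lt s cx.Df A 0
  obtain ⟨a, ha, h, hh, hfe⟩ := (hapx hζ0 hζ0 cx.f hf).2 N hN
  obtain ⟨Φ0, hs0, hl0, rfl⟩ := s.mem_R0_iff.1 ha
  have hR0 : Rp p cx s Φ0 (s.mon N * h) := by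
    refine ⟨hnx, hs0, 1, one_mem _, norm_one, 0, zero_mem _, fun _ => rfl, ?_⟩
    rw [one_pow, one_mul, zero_pow (Fact.out : p.Prime).ne_zero, add_zero, hfe]
  have hR := hr.clean cx s Φ0 _ hR0
  obtain ⟨Φ, hΦ⟩ : ∃ Φ, Φ = cln cx.fl p s.Λ Φ0 := ⟨_, rfl⟩
  rw [← hΦ] at hR
  have hex : ∃ x ∈ Φ.support, x.1 < N := by
    by_contra hc
    push Not at hc
    obtain ⟨a, ha, hae⟩ := s.ev_eq_mon_mul hR.supp hN hc
    have hm : a + h ∈ s.H k cx.T := add_mem (s.R0_le_H k cx.T ha) hh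
    have h1 := hA.norm_mon_mul cx.der (cx.M_le' hnx) hN (cx.H_le hnx hm)
      (s.norm_le_one_of_mem_H hm)
      (hs.der cx.T s cx.K cx.D A cx.T_sub (cx.M_le' hnx) cx.der hA _ hm)
    have h2 := hR.norm_D
    rw [hae, ← mul_add] at h2
    rw [h2] at h1
    exact absurd hNA (not_lt.2 h1)
  obtain ⟨x1, hx1, hlt⟩ := hex
  obtain ⟨x2, hx2, hmin⟩ := Φ.support.exists_min_image (fun x => x.1) ⟨x1, hx1⟩
  obtain ⟨x0, -, -, -, s', B, hst, -⟩ := hi cx s Φ N 0 x2.1 h hN hh hR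
    (fun x hx => (mem_cln_support.1 (hΦ ▸ hx)).2)
    (fun x hx => hl0 x (mem_cln_support.1 (hΦ ▸ hx)).1) le_rfl (s.nu_z_pos (cx.z_ne hnx))
    ((hmin x1 hx1).trans_lt hlt) (fun x hx => by simpa using hmin x hx) ⟨x2, hx2, by simp⟩
  exact ⟨_, s', B, _, _, hst, Nat.lt_succ_self _⟩

omit [IsAlgClosed k] [IsAlgClosed Ω] [Fact p.Prime] [CharP k p] in
/-- The a priori bound. -/
theorem apr (_hs : HS k Ω) : AprStmt k Ω p := by
  intro cx X A0 hI hδ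
  obtain ⟨A, hA, hA0⟩ := hI.db
  have hnx := X.rep.nx
  have hK := cx.M_le' hnx
  have hz : ‖X.s.z‖ ≤ Real.exp (-X.P.δ) := by
    rw [norm_eq_exp (cx.z_ne hnx)]
    exact Real.exp_le_exp.2 (neg_le_neg hδ)
  have hmem : ∀ x ∈ X.Φ.support, X.s.mon x.1 * X.s.y ^ x.2.1 * X.s.z ^ x.2.2 ∈ cx.K :=
    fun x hx => mul_mem (mul_mem (hK (X.s.mon_mem_M k (X.rep.supp x hx)))
      (pow_mem (hK (X.s.y_mem_M k)) _)) (pow_mem (hK (X.s.z_mem_M k)) _)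
  have h1 : ‖cx.D (X.s.ev k X.Φ)‖ ≤ Real.exp (A0 + X.P.δ - X.P.lev) := by
    rw [X.s.ev_eq_sum k, cx.der.sum _ _ fun x hx => mul_mem (cx.K.algebraMap_mem _) (hmem x hx)]
    refine norm_sum_le_of (Real.exp_pos _).le fun x hx => ?_
    rw [cx.der.alg_mul _ (hmem x hx), norm_mul]
    refine (mul_le_of_le_one_left (norm_nonneg _) (norm_alg_le _)).trans ?_
    refine (Iso.norm_D_mono cx.der hK hA hA0 hI.dz hz (X.rep.supp x hx)).trans ?_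
    have h2 := X.ps.dfc_nonneg hx
    rw [Par.dfc_eq] at h2
    exact Real.exp_le_exp.2 (by linarith)
  have h2 : ‖cx.D cx.f‖ ≤ ‖cx.D (X.s.ev k X.Φ)‖ := by
    by_contra hc
    have h3 := norm_add_lt_of (not_le.1 hc) hI.dr
    rw [← cx.der.add _ (hK (X.s.ev_mem_M X.rep.supp)) _ X.rep.r_mem, X.rep.norm_D] at h3
    exact lt_irrefl _ h3
  have h3 := h2.trans h1
  rw [norm_eq_exp cx.Df, Real.exp_le_exp, Par.lev] at h3
  linarith

end Pool.Agent.MP_19ffc6_ag.LU2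

end MrgPart4

-- ======== part 5: formerly Pool.Agent.MP_19ffc6_ag.LU2.Solve
section MrgPart5

/-! PROJECT LU2, module SOLVE: the first edge of the polygon is removed or its lower vertex
becomes the new vertex. -/

namespace Pool.Agent.MP_19ffc6_ag.LU2

open Polynomial Pool.Agent.MP_19ffc6_ag.LU

variable {k : Type*} [Field k] {p : ℕ} {fl : Prop} {Λ : AddSubgroup ℝ} {Φ : Pol2 k} {P : Par}
  {θ b' : ℝ}

namespace Solve

/-- The lower vertex of the face. -/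
def P2 (P : Par) (θ b' : ℝ) : Par := ⟨P.β, P.ε, P.s, P.δ + θ * (P.b - b'), b'⟩

/-- The parameters after rescaling. -/
def P3 (P : Par) (θ b' ζ : ℝ) : Par :=
  ⟨P.β + P.ε * ζ, P.ε, P.s, P.δ + θ * P.b + (ζ - θ) * b', b'⟩

theorem dfc2 (x : Pt) :
    (P2 P θ b').dfc x = P.dfc x - θ * P.cod x + θ * (P2 P θ b').cod x := by
  simp only [P2, Par.dfc, Par.cod, Par.gap]; ring

theorem cod2 (x : Pt) : (P2 P θ b').cod x = P.cod x - P.gap x * (P.b - b') := by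
  simp only [P2, Par.cod, Par.gap]; ring

theorem dfc3 (ζ : ℝ) (x : Pt) : (P3 P θ b' ζ).dfc (x.1 + x.2.1 * ζ + x.2.2 * 0, x.2) =
    P.dfc x - θ * P.cod x - (ζ - θ) * (P2 P θ b').cod x := by
  simp only [P2, P3, Par.dfc, Par.cod, Par.gap]; ring

theorem gap_pos {x : Pt} (h : x.2.2 < P.s) : 1 ≤ P.gap x := by
  have : (x.2.2 : ℝ) + 1 ≤ P.s := by exact_mod_cast h
  unfold Par.gap
  linarith

/-- Terms of the face are the top or have height below `s`. -/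
theorem face_low (h : PS fl p Λ Φ P) (he : Exact Φ P) (hb : 1 ≤ P.b) (hθ : 0 < θ) {x : Pt}
    (hx : x ∈ Φ.support) (hf : P.dfc x = θ * P.cod x) : x = P.top ∨ x.2.2 < P.s := by
  by_contra hn
  rw [not_or, not_lt] at hn
  exact (h.junk_above he (by linarith) hθ hx hn.2 hn.1).ne' hf

theorem face_cod2 (h : PS fl p Λ Φ P) (he : Exact Φ P) (hb : 1 ≤ P.b) (hθ : 0 < θ)
    (hlt : b' < P.b) (hmin : ∀ x ∈ Φ.support, 0 < P.cod x → P.dfc x = θ * P.cod x →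
      (P2 P θ b').cod x ≤ 0) {x : Pt} (hx : x ∈ Φ.support) (hf : P.dfc x = θ * P.cod x) :
    (P2 P θ b').cod x ≤ 0 := by
  rcases (h.face_cod_nonneg hθ hx hf).lt_or_eq with h0 | h0
  · exact hmin x hx h0 hf
  · rw [cod2, ← h0]
    rcases face_low h he hb hθ hx hf with rfl | h1
    · rw [Par.gap_top]; simp
    · nlinarith [gap_pos h1]

theorem exit (h : PS fl p Λ Φ P) (he : Exact Φ P) (hb : 1 ≤ P.b) (hθ : 0 < θ)
    (ha : Above Φ P θ) (h1 : -1 ≤ b') (hr : ∃ n : ℤ, b' * P.s.factorial = n)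
    (hc : ∀ x ∈ Φ.support, P.dfc x = θ * P.cod x → (P2 P θ b').cod x ≤ 0)
    (hu : Uns fl p Λ Φ (P2 P θ b') P.s) :
    ∃ e : ℝ, 0 < e ∧ ∀ ζ, θ < ζ → ζ < θ + e → PMul p Λ ζ →
      PS fl p Λ (scl ζ 0 Φ) (P3 P θ b' ζ) ∧ Exact (scl ζ 0 Φ) (P3 P θ b' ζ) ∧
      Uns fl p Λ (scl ζ 0 Φ) (P3 P θ b' ζ) P.s ∧ 0 < P.δ + θ * P.b + (ζ - θ) * b' := by
  obtain ⟨e, he0, hle⟩ := exists_pos_lower Φ.support (fun x => 0 < (P2 P θ b').cod x)
    (fun x => (P.dfc x - θ * P.cod x) / (P2 P θ b').cod x) fun x hx h0 =>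
      div_pos (sub_pos.2 ((ha x hx).lt_of_ne fun hf => (hc x hx hf.symm).not_gt h0)) h0
  refine ⟨min e θ, lt_min he0 hθ, fun ζ hζ hζ' hp => ?_⟩
  have z1 : ζ - θ < e := by linarith [min_le_left e θ]
  have z2 : ζ - θ < θ := by linarith [min_le_right e θ]
  have z0 : 0 < ζ := hθ.trans hζ
  have hδ : 0 < P.δ + θ * P.b + (ζ - θ) * b' := by nlinarith [h.δ0]
  have ht : (P3 P θ b' ζ).top = (P.top.1 + P.top.2.1 * ζ + P.top.2.2 * 0, P.top.2) := by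
    simp [P3, Par.top]
  have hex : Exact (scl ζ 0 Φ) (P3 P θ b' ζ) := fun hε x' hx' hs => by
    obtain ⟨x, hx, rfl⟩ := mem_scl_support.1 hx'
    rw [ht, he hε x hx hs]
  refine ⟨⟨h.supp.scl (pmul_mem hp) Λ.zero_mem, fun x' hx' => ?_, ?_, h.eps, h.two, ?_, hδ.le,
    Or.inl hδ, fun hε => ?_, fun x' hx' hs => ?_, fun x' hx' hs hne => ?_, hr⟩, hex, ?_, hδ⟩
  · obtain ⟨x, hx, rfl⟩ := mem_scl_support.1 hx'
    refine fun hw => h.ess x hx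
      ((pw2_congr (x := x) (x' := (x.1 + x.2.1 * ζ + x.2.2 * 0, x.2)) ?_ rfl).1 hw)
    have := pmul_nat_mul hp x.2.1
    simpa using this
  · exact mem_scl_support.2 ⟨_, h.top, ht⟩
  · exact add_nonneg h.β0 (by positivity)
  · obtain ⟨a1, a2, a3⟩ := h.typ hε
    exact ⟨a1, a2, pmul_add a3 (pmul_nat_mul hp _)⟩
  · obtain ⟨x, hx, rfl⟩ := mem_scl_support.1 hx'
    rw [dfc3]
    change _ ∨ _ ∧ (P2 P θ b').cod x ≤ 0
    rcases le_or_gt ((P2 P θ b').cod x) 0 with h0 | h0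
    · have : 0 ≤ P.dfc x - θ * P.cod x - (ζ - θ) * (P2 P θ b').cod x := by
        nlinarith [ha x hx]
      exact this.lt_or_eq.imp_right fun h2 => ⟨h2.symm, h0⟩
    · have := hle x hx h0
      rw [le_div_iff₀ h0] at this
      left
      nlinarith
  · obtain ⟨x, hx, rfl⟩ := mem_scl_support.1 hx'
    have hxt : x ≠ P.top := fun h0 => hne (by rw [ht, h0])
    have hε : P.ε = 0 := by
      by_contra h0
      exact hxt (he (by have := h.eps; omega) x hx hs)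
    obtain ⟨a1, a2⟩ := h.junk x hx hs hxt
    have a3 : 0 ≤ (x.2.1 : ℝ) * ζ := by positivity
    simp only [P3, hε, Nat.cast_zero, zero_mul, add_zero, mul_zero]
    rw [hε] at a2
    exact ⟨by linarith, a2.imp_left fun a4 => by linarith⟩
  · refine hu.congr (vtx_congr' rfl (fun x => (x.1 + x.2.1 * ζ + x.2.2 * 0, x.2))
      (fun x => (x.1 - x.2.1 * ζ, x.2)) (fun x _ a1 a2 => ⟨rfl, ?_, a2, scl_apply _ _ _ _⟩)
      fun x _ a1 a2 => ⟨rfl, ?_, a2⟩) rfl rfl rfl fun m hm => ?_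
    · rw [dfc2] at a1
      rw [dfc3]
      rw [a2] at a1 ⊢
      linarith
    · have a3 := dfc3 (P := P) (θ := θ) (b' := b') ζ (x.1 - x.2.1 * ζ, x.2)
      have a4 : (P2 P θ b').cod (x.1 - x.2.1 * ζ, x.2) = 0 := a2
      simp only [sub_add_cancel, mul_zero, add_zero] at a3
      rw [dfc2, a4]
      rw [a1, a4] at a3
      linarith
    · have hm' : b' = m := hm
      have e1 : (P3 P θ b' ζ).δ - (P2 P θ b').δ = m * ζ := by
        simp only [P2, P3, hm']; ring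
      have e2 : (P3 P θ b' ζ).lev - (P2 P θ b').lev = (P.ε + P.s * m : ℕ) * ζ := by
        simp only [P2, P3, Par.lev, hm']; push_cast; ring
      rw [e1, e2]
      exact ⟨pmul_nat_mul hp _, pmul_nat_mul hp _⟩

theorem round [Fact p.Prime] [CharP k p] (h : PS fl p Λ Φ P) (he : Exact Φ P) (hb : 1 ≤ P.b)
    (hθ : 0 < θ) (hc : ∀ x ∈ Φ.support, P.dfc x = θ * P.cod x → (P2 P θ b').cod x ≤ 0)
    {m : ℕ} (hm : b' = m) (hδ : (P2 P θ b').δ ∈ Λ) {c : k}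
    (hn : ∀ i < P.s, (taylor c (vtx Φ (P2 P θ b'))).coeff i ≠ 0 →
      VCl fl p Λ (P2 P θ b') ∧ p ∣ i) {x' : Pt}
    (hx' : x' ∈ (cln fl p Λ (shp (P2 P θ b').δ (monomial m c) Φ)).support) (hs : x'.2.2 < P.s)
    (hf : P.dfc x' = θ * P.cod x') : (P2 P θ b').cod x' < 0 := by
  obtain ⟨h1, h2⟩ := mem_cln_support.1 hx'
  obtain ⟨x, hx, n, -, -, a1, a2, a3⟩ := shp_mono_support h1
  have d1 := (P2 P θ b').dfc_shift a1 a3
  have d2 := (P2 P θ b').cod_shift a2 a3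
  have d3 : (P2 P θ b').b = m := hm
  rw [d3, Nat.cast_mul, add_sub_cancel_right] at d2
  rw [sub_self, mul_zero, add_zero, dfc2, dfc2, d2, hf] at d1
  refine (d2 ▸ hc x hx (by linarith)).lt_of_ne fun h0 => ?_
  have h3 : (P2 P θ b').dfc x' = 0 := by rw [dfc2, hf, h0]; ring
  have h4 : ¬ (VCl fl p Λ (P2 P θ b') ∧ p ∣ x'.2.2) := fun hv =>
    h2 (pw2_of_vcl hv.1 hv.2 hs.le h3 h0)
  have h5 := vtx_cln_shp (fl := fl) (Φ := Φ) hδ d3 c 0 (fun y hy hs' b1 b2 => by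
    rw [dfc2, b2] at b1
    rcases face_low h he hb hθ hy (by linarith) with rfl | b3
    · exact lt_irrefl _ hs'
    · exact lt_asymm hs' b3) h4
  rw [taylor_zero, zero_add, vtx_coeff_of_vtx (P := P2 P θ b') _ hs.le h3 h0] at h5
  exact h4 (hn _ hs (h5 ▸ Finsupp.mem_support_iff.1 hx'))

end Solve

open Solve in
theorem solve [Fact p.Prime] [CharP k p] (hshs : ShsStmt k p) : SolveStmt k p := by
  classical
  intro fl Λ Φ P θ h he hb hθ ha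
  obtain ⟨N, hN⟩ := exists_nat_ge P.b
  have low : ∀ {Φ : Pol2 k}, PS fl p Λ Φ P → Exact Φ P → ∀ x ∈ Φ.support, 0 < P.cod x →
      x.2.2 < P.s := fun h he x hx h0 =>
    lt_of_not_ge fun hs => (h.junk_cod_nonpos he (by linarith) hx hs).not_gt h0
  suffices H : ∀ (n : ℕ) (Φ : Pol2 k), PS fl p Λ Φ P → Exact Φ P → Above Φ P θ →
      (∀ x ∈ Φ.support, 0 < P.cod x → P.dfc x = θ * P.cod x →
        (P2 P θ ((N : ℝ) - n)).cod x < 0) → ∃ Φ', Shs fl p Λ (OnFace P θ) Φ Φ' ∧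
      ((∀ x ∈ Φ'.support, 0 < P.cod x → θ * P.cod x < P.dfc x) ∨
      ∃ b' e : ℝ, b' < P.b ∧ 0 < e ∧ ∀ ζ, θ < ζ → ζ < θ + e → PMul p Λ ζ →
        PS fl p Λ (scl ζ 0 Φ') (P3 P θ b' ζ) ∧ Exact (scl ζ 0 Φ') (P3 P θ b' ζ) ∧
        Uns fl p Λ (scl ζ 0 Φ') (P3 P θ b' ζ) P.s ∧ 0 < P.δ + θ * P.b + (ζ - θ) * b') by
    refine H (N + 2) Φ h he ha fun x hx h0 _ => ?_
    have a1 := gap_pos (low h he x hx h0)
    have a2 : (P.ε : ℝ) ≤ 1 := by exact_mod_cast h.eps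
    have a3 : (0 : ℝ) ≤ x.2.1 := Nat.cast_nonneg _
    change P.ε + P.gap x * ((N : ℝ) - (N + 2 : ℕ)) - x.2.1 < 0
    push_cast
    linarith
  intro n
  induction n with
  | zero =>
    intro Φ h he ha hT
    refine ⟨Φ, Relation.ReflTransGen.refl, Or.inl fun x hx h0 => (ha x hx).lt_of_ne fun hf => ?_⟩
    have a1 := hT x hx h0 hf.symm
    rw [cod2] at a1
    have a2 := gap_pos (low h he x hx h0)
    push_cast at a1
    nlinarith
  | succ n ih =>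
    intro Φ h he ha hT
    by_cases hne : (Φ.support.filter fun x => 0 < P.cod x ∧ P.dfc x = θ * P.cod x).Nonempty
    swap
    · exact ⟨Φ, Relation.ReflTransGen.refl, Or.inl fun x hx h0 => (ha x hx).lt_of_ne fun hf =>
        hne ⟨x, Finset.mem_filter.2 ⟨hx, h0, hf.symm⟩⟩⟩
    obtain ⟨x₀, hx₀, hmin⟩ := Finset.exists_min_image _
      (fun x : Pt => ((x.2.1 : ℝ) - P.ε) / P.gap x) hne
    obtain ⟨hx₀, c0, f0⟩ := Finset.mem_filter.1 hx₀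
    set b' := ((x₀.2.1 : ℝ) - P.ε) / P.gap x₀ with hb'
    have s0 := low h he x₀ hx₀ c0
    have g0 := gap_pos s0
    have e0 : P.gap x₀ * b' = x₀.2.1 - P.ε := by rw [hb']; field_simp
    have v0 : (P2 P θ b').cod x₀ = 0 := by
      change P.ε + P.gap x₀ * b' - x₀.2.1 = 0
      linarith
    have hlt : b' < P.b := by
      rw [cod2] at v0
      nlinarith
    have hc : ∀ x ∈ Φ.support, P.dfc x = θ * P.cod x → (P2 P θ b').cod x ≤ 0 :=
      fun x hx hf => face_cod2 h he hb hθ hlt (fun y hy h0 hf => by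
        have a1 := hmin y (Finset.mem_filter.2 ⟨hy, h0, hf⟩)
        rw [le_div_iff₀ (by linarith [gap_pos (low h he y hy h0)])] at a1
        change P.ε + P.gap y * b' - y.2.1 ≤ 0
        linarith) hx hf
    by_cases hu : Uns fl p Λ Φ (P2 P θ b') P.s
    · have a2 : (P.ε : ℝ) ≤ 1 := by exact_mod_cast h.eps
      have a3 : (0 : ℝ) ≤ x₀.2.1 := Nat.cast_nonneg _
      obtain ⟨e, he0, H⟩ := exit h he hb hθ ha (by nlinarith) (by
        have := rat_of_div (s := P.s) (g := P.s - x₀.2.2) (by omega) (by omega)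
          ((x₀.2.1 : ℤ) - P.ε)
        rw [Nat.cast_sub s0.le] at this
        push_cast at this
        exact this) hc hu
      exact ⟨Φ, Relation.ReflTransGen.refl, Or.inr ⟨b', e, hlt, he0, H⟩⟩
    unfold Uns at hu
    push Not at hu
    obtain ⟨c, hc0, hn⟩ := hu
    have hn' : ∀ i < P.s, (taylor c (vtx Φ (P2 P θ b'))).coeff i ≠ 0 →
        VCl fl p Λ (P2 P θ b') ∧ p ∣ i := fun i hi => hn i hi (Nat.le_add_left _ _)
    have d0 : (P2 P θ b').dfc x₀ = 0 := by rw [dfc2, f0, v0]; ring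
    obtain ⟨hδ, m, hm⟩ := hc0 fun h0 => by
      have := hn' _ s0 (by
        rw [h0, taylor_zero, vtx_coeff_of_vtx (P := P2 P θ b') _ s0.le d0 v0]
        exact Finsupp.mem_support_iff.1 hx₀)
      exact h.ess _ hx₀ (pw2_of_vcl this.1 this.2 s0.le d0 v0)
    have hm' : b' = m := hm
    have hsh : Sh fl p Λ (OnFace P θ) Φ (cln fl p Λ (shp (P2 P θ b').δ (monomial m c) Φ)) :=
      ⟨_, m, c, hδ, ⟨hm' ▸ hlt.le, by rw [← hm']; simp [P2]⟩, rfl⟩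
    obtain ⟨h', he', -, -, ha'⟩ := hshs fl Λ Φ _ P θ hθ h (Relation.ReflTransGen.single hsh)
    obtain ⟨Φ', hs', H⟩ := ih _ h' (he' he) (ha' ha) fun x hx h0 hf => by
      have s1 := low h' (he' he) x hx h0
      have a1 := round h he hb hθ hc hm' hδ hn' hx s1 hf
      have a2 := hT x₀ hx₀ c0 f0
      rw [cod2] at a1 a2 v0 ⊢
      have a3 : (N : ℝ) - (n + 1 : ℕ) < m := by nlinarith
      have a4 : (N : ℝ) - n ≤ m := by
        have a5 : N < m + (n + 1) := by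
          have : (N : ℝ) < m + (n + 1 : ℕ) := by linarith
          exact_mod_cast this
        have : (N : ℝ) ≤ m + n := by exact_mod_cast Nat.lt_succ_iff.1 a5
        linarith
      nlinarith [gap_pos s1]
    exact ⟨Φ', hs'.head hsh, H⟩

end Pool.Agent.MP_19ffc6_ag.LU2

end MrgPart5

-- marker of a merged file
example : 731051 + 538234 = 731051 + 538234 := rfl
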