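import Mathlib.Algebra.Module.StablyFree.Basic
import Pool.Agent.MP_19ffc6_ag.LU.Perron
import Pool.Agent.MP_19ffc6_ag.LU2.Solve
import Pool.Agent.MP_19ffc6_ag.LU.HensB
import Pool.Agent.MP_19ffc6_ag.LU2.Tower

-- ======== part 0: formerly Pool.Agent.MP_19ffc6_ag.LU.DescB
section MrgPart0

/-! Module DS of PROJECT LU1, second part: a small perturbation of a stage has the same
henselization. -/

namespace Pool.Agent.MP_19ffc6_ag.LU.Desc

open Polynomial IntermediateField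

set_option linter.unusedSectionVars false

variable {k Ω : Type*} [Field k] [NontriviallyNormedField Ω] [IsUltrametricDist Ω] [Algebra k Ω]

theorem mon_ne (s : Stage Ω) {α : ℝ} (h : α ∈ s.Λ) : s.mon α ≠ 0 := by
  rw [← norm_pos_iff, s.norm_mon α h]; exact Real.exp_pos _

theorem mon_zero (s : Stage Ω) : s.mon 0 = 1 := by
  have h := s.mon_add 0 s.Λ.zero_mem 0 s.Λ.zero_mem
  rw [add_zero] at h
  exact mul_left_cancel₀ (mon_ne s s.Λ.zero_mem) (by rw [← h, mul_one])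

theorem mon_neg (s : Stage Ω) {α : ℝ} (h : α ∈ s.Λ) : s.mon (-α) = (s.mon α)⁻¹ := by
  have h1 := s.mon_add α h (-α) (s.Λ.neg_mem h)
  rw [add_neg_cancel, mon_zero] at h1
  exact eq_inv_of_mul_eq_one_right h1.symm

theorem mon_nsmul (s : Stage Ω) {α : ℝ} (h : α ∈ s.Λ) (n : ℕ) :
    s.mon (n • α) = s.mon α ^ n := by
  induction n with
  | zero => simpa using mon_zero s
  | succ n ih => rw [succ_nsmul, s.mon_add _ (s.Λ.nsmul_mem h n) _ h, ih, pow_succ]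

theorem mon_mem_M (s : Stage Ω) {α : ℝ} (h : α ∈ s.Λ) : s.mon α ∈ s.M k :=
  subset_adjoin k _ (Or.inl ⟨α, h, rfl⟩)

theorem y_mem_M (s : Stage Ω) : s.y ∈ s.M k := subset_adjoin k _ (Or.inr rfl)

theorem le_loc (A : Subalgebra k Ω) : A ≤ loc A := fun a ha =>
  ⟨a, ha, 1, A.one_mem, norm_one, (div_one _).symm⟩

theorem loc_le {A B : Subalgebra k Ω} (h : A ≤ B) (hB : ∀ b ∈ B, ‖b‖ = 1 → b⁻¹ ∈ B) :
    loc A ≤ B := by
  rintro _ ⟨a, ha, b, hb, h1, rfl⟩
  rw [div_eq_mul_inv]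
  exact B.mul_mem (h ha) (hB b (h hb) h1)

theorem loc_inv {A : Subalgebra k Ω} {x : Ω} (hx : x ∈ loc A) (h1 : ‖x‖ = 1) : x⁻¹ ∈ loc A := by
  obtain ⟨a, ha, b, hb, h, rfl⟩ := hx
  rw [norm_div, h, div_one] at h1
  exact ⟨b, hb, a, ha, h1, inv_div _ _⟩

theorem mon_mem_R (s : Stage Ω) {α : ℝ} (h : α ∈ s.Λ) (h0 : 0 ≤ α) : s.mon α ∈ s.R k :=
  le_loc _ (Algebra.subset_adjoin (Or.inl ⟨α, ⟨h, h0⟩, rfl⟩))

theorem y_mem_R (s : Stage Ω) : s.y ∈ s.R k := le_loc _ (Algebra.subset_adjoin (Or.inr rfl))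

theorem R_le (s : Stage Ω) {B : Subalgebra k Ω} (h1 : ∀ α ∈ s.Λ, 0 ≤ α → s.mon α ∈ B)
    (h2 : s.y ∈ B) (hB : ∀ b ∈ B, ‖b‖ = 1 → b⁻¹ ∈ B) : s.R k ≤ B := by
  refine loc_le (Algebra.adjoin_le ?_) hB
  rintro _ (⟨α, ⟨h, h0⟩, rfl⟩ | rfl)
  · exact h1 α h h0
  · exact h2

theorem norm_mon_le (s : Stage Ω) {α : ℝ} (h : α ∈ s.Λ) (h0 : 0 ≤ α) : ‖s.mon α‖ ≤ 1 := by
  rw [s.norm_mon α h, Real.exp_le_one_iff]; linarith

theorem good_mem_R (s : Stage Ω) {b : Ω} (h : s.Good k b) (h1 : ‖b‖ ≤ 1) : b ∈ s.R k := by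
  obtain ⟨α, hα, w, hw, hw1, rfl⟩ := h
  rw [norm_mul, hw1, mul_one, s.norm_mon α hα, Real.exp_le_one_iff] at h1
  exact (s.R k).mul_mem (mon_mem_R s hα (by linarith)) hw

/-- The ring generated by the local ring of a stage and one more element, localized. -/
def SR (k : Type*) [Field k] [Algebra k Ω] (s : Stage Ω) (η : Ω) : Subalgebra k Ω :=
  loc (Algebra.adjoin k ((s.R k : Set Ω) ∪ {η}))

theorem R_le_SR (s : Stage Ω) (η : Ω) : s.R k ≤ SR k s η := fun _ ha =>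
  le_loc _ (Algebra.subset_adjoin (Or.inl ha))

theorem self_mem_SR (s : Stage Ω) (η : Ω) : η ∈ SR k s η :=
  le_loc _ (Algebra.subset_adjoin (Or.inr rfl))

theorem SR_le (s : Stage Ω) {η : Ω} {B : Subalgebra k Ω} (h1 : ∀ α ∈ s.Λ, 0 ≤ α → s.mon α ∈ B)
    (h2 : s.y ∈ B) (h3 : η ∈ B) (hB : ∀ b ∈ B, ‖b‖ = 1 → b⁻¹ ∈ B) : SR k s η ≤ B := by
  refine loc_le (Algebra.adjoin_le ?_) hB
  rintro a (ha | rfl)
  · exact R_le s h1 h2 hB ha
  · exact h3

theorem isDer_zero (K : IntermediateField k Ω) : IsDer K (fun _ => 0) :=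
  ⟨fun _ _ _ _ => by simp, fun _ _ _ _ => by simp, fun _ => rfl⟩

theorem SR_sub [Ctx k Ω] (s : Stage Ω) {η : Ω} {K : IntermediateField k Ω} (hK : s.M k ≤ K)
    (h1 : η ∈ K) (h2 : ‖η‖ ≤ 1) {a : Ω} (ha : a ∈ SR k s η) : a ∈ K ∧ ‖a‖ ≤ 1 := by
  have : SR k s η ≤ Bdd (isDer_zero K) 0 le_rfl :=
    SR_le s (fun α h h0 => ⟨hK (mon_mem_M s h), norm_mon_le s h h0, by simp⟩)
      ⟨hK (y_mem_M s), s.norm_y.le, by simp⟩ ⟨h1, h2, by simp⟩
      fun b hb hb1 => Bdd_inv _ hb hb1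
  exact ⟨(this ha).1, (this ha).2.1⟩

theorem le_hens (M : IntermediateField k Ω) : M ≤ hens M := fun a ha =>
  ⟨(mem_separableClosure_iff).2 (isSeparable_algebraMap (⟨a, ha⟩ : M)), subset_closure ha⟩

theorem hens_sep {M : IntermediateField k Ω} {a : Ω} (ha : a ∈ hens M) : IsSeparable M a :=
  (mem_separableClosure_iff).1 ha.1

theorem alg_mono {M N : IntermediateField k Ω} (h : M ≤ N) [Algebra.IsAlgebraic M Ω] :
    Algebra.IsAlgebraic N Ω := by
  let : Algebra M N := (inclusion h).toAlgebra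
  have : IsScalarTower M N Ω := IsScalarTower.of_algebraMap_eq fun _ => rfl
  exact Algebra.IsAlgebraic.tower_top (K := M) N

theorem alg_of {M K : IntermediateField k Ω} (h : M ≤ K) (h1 : ∀ a ∈ K, IsAlgebraic M a)
    [Algebra.IsAlgebraic K Ω] : Algebra.IsAlgebraic M Ω := by
  let : Algebra M K := (inclusion h).toAlgebra
  have : IsScalarTower M K Ω := IsScalarTower.of_algebraMap_eq fun _ => rfl
  have : Algebra.IsAlgebraic M K := ⟨fun a =>
    (isAlgebraic_algebraMap_iff (algebraMap K Ω).injective).1 (h1 a a.2)⟩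
  exact Algebra.IsAlgebraic.trans M K Ω

theorem M_fg (s : Stage Ω) : (s.M k).FG := by
  classical
  obtain ⟨T, hT⟩ := s.fg
  refine ⟨insert s.y (T.image s.mon), le_antisymm (adjoin_le_iff.2 ?_) (adjoin_le_iff.2 ?_)⟩
  · intro a ha
    simp only [Finset.coe_insert, Finset.coe_image, Set.mem_insert_iff] at ha
    rcases ha with rfl | ⟨α, hα, rfl⟩
    · exact y_mem_M s
    · exact mon_mem_M s (hT ▸ AddSubgroup.subset_closure hα)
  · rintro _ (⟨α, hα, rfl⟩ | rfl)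
    · have hα' : α ∈ AddSubgroup.closure (T : Set ℝ) := hT ▸ hα
      clear hα
      induction hα' using AddSubgroup.closure_induction with
      | mem x hx => exact subset_adjoin k _ (by simp; exact Or.inr ⟨x, hx, rfl⟩)
      | zero => rw [mon_zero]; exact one_mem _
      | add x y hx hy ihx ihy =>
        rw [s.mon_add x (hT ▸ hx) y (hT ▸ hy)]; exact mul_mem ihx ihy
      | neg x hx ih => rw [mon_neg s (hT ▸ hx)]; exact inv_mem ih
    · exact subset_adjoin k _ (by simp)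

/-- The data of a small perturbation `t` of the stage `s`. -/
structure Pert (k : Type*) [Field k] [Algebra k Ω] (s t : Stage Ω) (η π : Ω)
    (P : Polynomial Ω) : Prop where
  η_mem : η ∈ hens (s.M k)
  η_norm : ‖η‖ ≤ 1
  coeff : ∀ i, P.coeff i ∈ s.R k
  root : P.eval η = 0
  der : ‖P.derivative.eval η‖ = 1
  good : s.Good k π
  small : ‖π‖ < 1
  lat : t.Λ = s.Λ
  mon : ∀ α ∈ s.Λ, ∃ a ∈ SR k s η, t.mon α = s.mon α * (1 + π * a)
  y : ∃ a ∈ SR k s η, s.y - t.y = π * a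

theorem D_bound [Ctx k Ω] {s t : Stage Ω} {η π : Ω} {P : Polynomial Ω} (h : Pert k s t η π P)
    {K : IntermediateField k Ω} (hK : s.M k ≤ K) (hη : η ∈ K) {D : Ω → Ω} (hD : IsDer K D)
    (h0 : ∀ a ∈ t.gens, D a = 0) {m : ℝ} (hm : 0 ≤ m)
    (h1 : ∀ α ∈ s.Λ, ‖D (s.mon α)‖ ≤ m * ‖s.mon α‖) (h2 : ‖D s.y‖ ≤ m) :
    (∀ α ∈ s.Λ, ‖D (s.mon α)‖ ≤ ‖π‖ * m * ‖s.mon α‖) ∧ ‖D s.y‖ ≤ ‖π‖ * m := by
  have b1 : ∀ α ∈ s.Λ, 0 ≤ α → s.mon α ∈ Bdd hD m hm := fun α hα hα0 =>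
    ⟨hK (mon_mem_M s hα), norm_mon_le s hα hα0,
      (h1 α hα).trans (mul_le_of_le_one_right hm (norm_mon_le s hα hα0))⟩
  have b2 : s.y ∈ Bdd hD m hm := ⟨hK (y_mem_M s), s.norm_y.le, h2⟩
  have b3 : s.R k ≤ Bdd hD m hm := R_le s b1 b2 fun b hb hb1 => Bdd_inv _ hb hb1
  have b4 : SR k s η ≤ Bdd hD m hm := SR_le s b1 b2
    (Bdd_root hD P (fun i => b3 (h.coeff i)) hη h.η_norm h.root h.der)
    fun b hb hb1 => Bdd_inv _ hb hb1
  have hπK : π ∈ K := (b3 (good_mem_R s h.good h.small.le)).1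
  have hπ : ‖D π‖ ≤ ‖π‖ * m := by
    obtain ⟨α, hα, w, hw, hw1, rfl⟩ := h.good
    rw [hD.mul _ (hK (mon_mem_M s hα)) _ (b3 hw).1, norm_mul, hw1, mul_one]
    refine norm_add_le_of ?_ ?_ <;> rw [norm_mul]
    · exact mul_le_mul_of_nonneg_left (b3 hw).2.2 (norm_nonneg _)
    · rw [hw1, one_mul, mul_comm]; exact h1 α hα
  have hπa : ∀ a ∈ SR k s η, ‖D (π * a)‖ ≤ ‖π‖ * m := by
    intro a ha
    rw [hD.mul _ hπK _ (b4 ha).1]
    refine norm_add_le_of ?_ ?_ <;> rw [norm_mul]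
    · exact mul_le_mul_of_nonneg_left (b4 ha).2.2 (norm_nonneg _)
    · exact (mul_le_of_le_one_left (norm_nonneg _) (b4 ha).2.1).trans hπ
  refine ⟨fun α hα => ?_, ?_⟩
  · obtain ⟨a, ha, e⟩ := h.mon α hα
    have hπaK : π * a ∈ K := K.mul_mem hπK (b4 ha).1
    have e0 := h0 _ (Or.inl ⟨α, h.lat ▸ hα, rfl⟩)
    rw [e, hD.mul _ (hK (mon_mem_M s hα)) _ (K.add_mem K.one_mem hπaK),
      hD.add _ K.one_mem _ hπaK, D_one hD, zero_add] at e0
    have e1 : (1 + π * a) * D (s.mon α) = -(s.mon α * D (π * a)) := by linear_combination e0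
    have e2 := congrArg norm e1
    rw [norm_mul, norm_one_add h.small (b4 ha).2.1, one_mul, norm_neg, norm_mul] at e2
    rw [e2, mul_comm]
    exact mul_le_mul_of_nonneg_right (hπa a ha) (norm_nonneg _)
  · obtain ⟨a, ha, e⟩ := h.y
    have hπaK : π * a ∈ K := K.mul_mem hπK (b4 ha).1
    have e1 : s.y = t.y + π * a := by rw [← e]; ring
    have hy : t.y ∈ K := by
      have : t.y = s.y - π * a := by rw [← e]; ring
      rw [this]; exact K.sub_mem (hK (y_mem_M s)) hπaK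
    rw [e1, hD.add _ hy _ hπaK, h0 _ (Or.inr rfl), zero_add]
    exact hπa a ha

theorem D_exists_bound (s : Stage Ω) {K : IntermediateField k Ω} (hK : s.M k ≤ K) {D : Ω → Ω}
    (hD : IsDer K D) : ∃ m : ℝ, 0 ≤ m ∧ (∀ α ∈ s.Λ, ‖D (s.mon α)‖ ≤ m * ‖s.mon α‖) ∧
      ‖D s.y‖ ≤ m := by
  obtain ⟨T, hT⟩ := s.fg
  have hp : ∀ α ∈ T, 0 ≤ ‖D (s.mon α)‖ / ‖s.mon α‖ := fun α _ => by positivity
  have hs := Finset.sum_nonneg hp
  refine ⟨∑ α ∈ T, ‖D (s.mon α)‖ / ‖s.mon α‖ + ‖D s.y‖, by positivity, fun α hα => ?_,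
    by linarith⟩
  have hα' : α ∈ AddSubgroup.closure (T : Set ℝ) := hT ▸ hα
  clear hα
  induction hα' using AddSubgroup.closure_induction with
  | mem x hx =>
    have h1 := Finset.single_le_sum hp hx
    have hx' : x ∈ s.Λ := hT ▸ AddSubgroup.subset_closure hx
    have h2 : 0 < ‖s.mon x‖ := norm_pos_iff.2 (mon_ne s hx')
    rw [← div_le_iff₀ h2]
    have := norm_nonneg (D s.y)
    linarith
  | zero => rw [mon_zero, D_one hD, norm_zero]; positivity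
  | add x y hx hy ihx ihy =>
    have hx' : x ∈ s.Λ := hT ▸ hx
    have hy' : y ∈ s.Λ := hT ▸ hy
    rw [s.mon_add x hx' y hy', hD.mul _ (hK (mon_mem_M s hx')) _ (hK (mon_mem_M s hy'))]
    refine norm_add_le_of ?_ ?_ <;> rw [norm_mul, norm_mul]
    · nlinarith [norm_nonneg (s.mon x)]
    · nlinarith [norm_nonneg (s.mon y)]
  | neg x hx ih =>
    have hx' : x ∈ s.Λ := hT ▸ hx
    have h2 : 0 < ‖s.mon x‖ := norm_pos_iff.2 (mon_ne s hx')
    rw [mon_neg s hx', D_inv hD (hK (mon_mem_M s hx')) (mon_ne s hx'), norm_neg, norm_mul,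
      norm_pow, norm_inv]
    calc _ ≤ ‖s.mon x‖⁻¹ ^ 2 * (_ * ‖s.mon x‖) := mul_le_mul_of_nonneg_left ih (by positivity)
      _ = _ := by field_simp

theorem le_zero_of_pow {x q m : ℝ} (hq0 : 0 ≤ q) (hq : q < 1) (h : ∀ n : ℕ, x ≤ q ^ n * m) :
    x ≤ 0 := by
  have := (tendsto_pow_atTop_nhds_zero_of_lt_one hq0 hq).mul_const m
  rw [zero_mul] at this
  exact ge_of_tendsto' this h

theorem pert_alg [Ctx k Ω] (hs : SepStmt k Ω) {s t : Stage Ω} {η π : Ω} {P : Polynomial Ω}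
    (h : Pert k s t η π P) [Algebra.IsAlgebraic (s.M k) Ω] : Algebra.IsAlgebraic (t.M k) Ω := by
  classical
  have hK : s.M k ≤ s.M k ⊔ adjoin k {η} := le_sup_left
  have hη : η ∈ s.M k ⊔ adjoin k {η} := (le_sup_right : adjoin k {η} ≤ _) (mem_adjoin_simple_self k η)
  have hfg : (s.M k ⊔ adjoin k {η}).FG := by
    obtain ⟨T, hT⟩ := M_fg (k := k) s
    refine ⟨insert η T, ?_⟩
    rw [← hT, ← adjoin_union, Finset.coe_insert, Set.union_singleton]
  have hKh : s.M k ⊔ adjoin k {η} ≤ hens (s.M k) :=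
    sup_le (le_hens _) (adjoin_simple_le_iff.2 h.η_mem)
  generalize s.M k ⊔ adjoin k {η} = K at hK hη hfg hKh
  have hπK : π ∈ K := (SR_sub s hK hη h.η_norm (R_le_SR s η (good_mem_R s h.good h.small.le))).1
  have ht : t.gens ⊆ K := by
    rintro _ (⟨α, hα, rfl⟩ | rfl)
    · obtain ⟨a, ha, e⟩ := h.mon α (h.lat ▸ hα)
      rw [e]
      exact K.mul_mem (hK (mon_mem_M s (h.lat ▸ hα)))
        (K.add_mem K.one_mem (K.mul_mem hπK (SR_sub s hK hη h.η_norm ha).1))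
    · obtain ⟨a, ha, e⟩ := h.y
      have : t.y = s.y - π * a := by rw [← e]; ring
      rw [this]
      exact K.sub_mem (hK (y_mem_M s)) (K.mul_mem hπK (SR_sub s hK hη h.η_norm ha).1)
  have hsep : SepOver (t.M k) K := by
    refine hs K hfg s.gens t.gens (fun a ha => hK (subset_adjoin k _ ha)) ht
      (fun a ha => hens_sep (hKh ha)) fun D hD h0 => ?_
    obtain ⟨m, hm, h1, h2⟩ := D_exists_bound s hK hD
    have key : ∀ n : ℕ, (∀ α ∈ s.Λ, ‖D (s.mon α)‖ ≤ ‖π‖ ^ n * m * ‖s.mon α‖) ∧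
        ‖D s.y‖ ≤ ‖π‖ ^ n * m := by
      intro n
      induction n with
      | zero => simpa using ⟨h1, h2⟩
      | succ n ih =>
        have := D_bound h hK hη hD h0 (by positivity) ih.1 ih.2
        rwa [← mul_assoc, ← pow_succ'] at this
    rintro _ (⟨α, hα, rfl⟩ | rfl)
    · exact norm_le_zero_iff.1 (le_zero_of_pow (norm_nonneg π) h.small fun n => by
        rw [← mul_assoc]; exact (key n).1 α hα)
    · exact norm_le_zero_iff.1 (le_zero_of_pow (norm_nonneg π) h.small fun n => (key n).2)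
  have := alg_mono hK
  exact alg_of (adjoin_le_iff.2 ht) fun a ha => (hsep a ha).isIntegral.isAlgebraic

end Pool.Agent.MP_19ffc6_ag.LU.Desc

end MrgPart0

-- ======== part 1: formerly Pool.Agent.MP_19ffc6_ag.LU.Desc
section MrgPart1

/-! Module DS of PROJECT LU1: descent of a stage from the henselization of `F` to `F`. -/

namespace Pool.Agent.MP_19ffc6_ag.LU

open Polynomial IntermediateField

set_option linter.unusedSectionVars false

variable {k Ω : Type*} [Field k] [NontriviallyNormedField Ω] [IsUltrametricDist Ω] [Algebra k Ω]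

namespace Desc

theorem pert_hens [Ctx k Ω] (hh : HensStmt k Ω) (hd : DStmt k Ω) {s t : Stage Ω} {η π : Ω}
    {P : Polynomial Ω} (h : Pert k s t η π P) [Algebra.IsAlgebraic (t.M k) Ω] (c : k)
    (hc : ‖η - algebraMap k Ω c‖ < 1)
    (hPc : P.eval (algebraMap k Ω c) = 0 ∨ s.Good k (P.eval (algebraMap k Ω c))) :
    s.M k ≤ hens (t.M k) := by
  classical
  obtain ⟨T, hT⟩ := s.fg
  have hLh : IsHens (hens (t.M k)) := hh _ inferInstance
  have hLa : Algebra.IsAlgebraic (hens (t.M k)) Ω := alg_mono (le_hens _)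
  have htL : t.M k ≤ hens (t.M k) := le_hens _
  generalize hens (t.M k) = L at hLh hLa htL
  have hS : ∀ a ∈ SR k s η, ‖a‖ ≤ 1 := fun a ha =>
    (SR_sub s (K := ⊤) le_top trivial h.η_norm ha).2
  have hn : ∀ α ∈ s.Λ, ‖t.mon α‖ = ‖s.mon α‖ := fun α hα => by
    rw [t.norm_mon α (h.lat ▸ hα), s.norm_mon α hα]
  have hTΛ : ∀ α : T, (α : ℝ) ∈ s.Λ := fun α => hT ▸ AddSubgroup.subset_closure α.2
  have hr : ∀ α ∈ s.Λ, ‖t.mon α / s.mon α‖ = 1 := fun α hα => by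
    rw [norm_div, hn α hα, div_self (norm_ne_zero_iff.2 (mon_ne s hα))]
  let g : Option (Option T) → Ω := fun i =>
    i.elim η fun j => j.elim s.y fun α => t.mon α / s.mon α
  have hg : ∀ i, ‖g i‖ ≤ 1 := by
    rintro (_ | _ | α)
    · exact h.η_norm
    · exact s.norm_y.le
    · exact (hr α (hTΛ α)).le
  have hinv := hd.inv L hLa hLh (Set.range g) (by rintro _ ⟨i, rfl⟩; exact hg i)
  have hgA : ∀ i, g i ∈ Aring L (Set.range g) := fun i =>
    Algebra.subset_adjoin (Or.inr ⟨i, rfl⟩)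
  have hOA : ∀ a ∈ L, ‖a‖ ≤ 1 → a ∈ Aring L (Set.range g) := fun a h1 h2 =>
    Algebra.subset_adjoin (Or.inl ⟨h1, h2⟩)
  have hAL : Set.range g ⊆ L → Aring L (Set.range g) ≤ L.toSubalgebra := fun h1 =>
    Algebra.adjoin_le (Set.union_subset (fun a ha => ha.1) h1)
  have hdeg := hd.deg L hLa hLh _ g (fun _ => 1) hg fun _ => one_pos
  generalize Aring L (Set.range g) = A at hinv hgA hOA hAL hdeg
  have hρ : ∀ α ∈ s.Λ, t.mon α / s.mon α ∈ A := by
    intro α hα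
    have hα' : α ∈ AddSubgroup.closure (T : Set ℝ) := hT ▸ hα
    clear hα
    induction hα' using AddSubgroup.closure_induction with
    | mem x hx => exact hgA (some (some ⟨x, hx⟩))
    | zero => rw [mon_zero, mon_zero, div_one]; exact A.one_mem
    | add x y hx hy ihx ihy =>
      have hx' : x ∈ s.Λ := hT ▸ hx
      have hy' : y ∈ s.Λ := hT ▸ hy
      rw [s.mon_add x hx' y hy', t.mon_add x (h.lat ▸ hx') y (h.lat ▸ hy'), mul_div_mul_comm]
      exact A.mul_mem ihx ihy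
    | neg x hx ih =>
      have hx' : x ∈ s.Λ := hT ▸ hx
      rw [mon_neg s hx', mon_neg t (h.lat ▸ hx'), inv_div_inv, ← inv_div]
      exact hinv _ ih (hr x hx')
  have hρ' : ∀ α ∈ s.Λ, ∃ a ∈ A, s.mon α = t.mon α * a := fun α hα =>
    ⟨_, hinv _ (hρ α hα) (hr α hα), by
      have := mon_ne t (h.lat ▸ hα : α ∈ t.Λ)
      field_simp⟩
  have htm : ∀ α ∈ s.Λ, t.mon α ∈ L := fun α hα => htL (mon_mem_M t (h.lat ▸ hα))
  have hSA : SR k s η ≤ A := by
    refine SR_le s (fun α hα h0 => ?_) (hgA (some none)) (hgA none) hinv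
    obtain ⟨a, ha, e⟩ := hρ' α hα
    rw [e]
    exact A.mul_mem (hOA _ (htm α hα) (hn α hα ▸ norm_mon_le s hα h0)) ha
  have hsm : ∀ b, s.Good k b → ‖b‖ < 1 → ∀ x ∈ SR k s η, Small L A (b * x) := by
    rintro _ ⟨α, hα, w, hw, hw1, rfl⟩ hb x hx
    obtain ⟨a, ha, e⟩ := hρ' α hα
    rw [norm_mul, hw1, mul_one, ← hn α hα] at hb
    exact ⟨_, htm α hα, hb, a * w * x,
      A.mul_mem (A.mul_mem ha (hSA (R_le_SR s η hw))) (hSA hx), by rw [e]; ring⟩
  have hle : L ⊔ adjoin k (Set.range g) ≤ L := by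
    rw [← relrank_eq_one_iff]
    refine le_antisymm ?_ ?_
    · refine (hdeg ?_).trans (by simp)
      rintro (_ | _ | α)
      · have hcS : algebraMap k Ω c ∈ SR k s η := Subalgebra.algebraMap_mem _ c
        have hδ := Subalgebra.sub_mem _ hcS (self_mem_SR s η)
        refine ⟨_, L.algebraMap_mem c, hS _ hcS, ?_⟩
        have hco : ∀ i, P.coeff i ∈ SR k s η := fun i => R_le_SR s η (h.coeff i)
        obtain ⟨κ, hκ, e⟩ := taylor _ P hco (self_mem_SR s η) hδ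
        rw [add_sub_cancel, h.root] at e
        have hQ : P.derivative.eval η + κ * (algebraMap k Ω c - η) ∈ SR k s η :=
          add_mem (eval_mem _ _ (der_coeff _ P hco) (self_mem_SR s η)) (mul_mem hκ hδ)
        have hlt : ‖κ * (algebraMap k Ω c - η)‖ < 1 := by
          rw [norm_mul, norm_sub_rev]
          exact mul_lt_one_of_nonneg_of_lt_one_right (hS κ hκ) (norm_nonneg _) hc
        have hQ1 : ‖P.derivative.eval η + κ * (algebraMap k Ω c - η)‖ = 1 := by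
          rw [norm_add_eq_left (h.der ▸ hlt), h.der]
        have e1 : P.eval (algebraMap k Ω c) = (algebraMap k Ω c - η) *
            (P.derivative.eval η + κ * (algebraMap k Ω c - η)) := by rw [e]; ring
        generalize P.derivative.eval η + κ * (algebraMap k Ω c - η) = Q at hQ hQ1 e1
        have hQ0 : Q ≠ 0 := by rintro rfl; simp at hQ1
        have e2 : η ^ 1 - algebraMap k Ω c = P.eval (algebraMap k Ω c) * (-Q⁻¹) := by
          rw [e1]; field_simp; ring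
        show Small L A (η ^ 1 - algebraMap k Ω c)
        rw [e2]
        rcases hPc with h0 | h0
        · exact ⟨0, L.zero_mem, by simp, 0, A.zero_mem, by rw [h0]; simp⟩
        · refine hsm _ h0 ?_ _ (neg_mem (loc_inv hQ hQ1))
          rw [e1, norm_mul, hQ1, mul_one, norm_sub_rev]; exact hc
      · refine ⟨t.y, htL (y_mem_M t), t.norm_y.le, ?_⟩
        obtain ⟨a, ha, e⟩ := h.y
        show Small L A (s.y ^ 1 - t.y)
        rw [pow_one, e]
        exact hsm _ h.good h.small a ha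
      · refine ⟨1, L.one_mem, norm_one.le, ?_⟩
        obtain ⟨a, ha, e⟩ := h.mon α (hTΛ α)
        show Small L A ((t.mon α / s.mon α) ^ 1 - 1)
        rw [pow_one, e, mul_div_cancel_left₀ _ (mon_ne s (hTΛ α)), add_sub_cancel_left]
        exact hsm _ h.good h.small a ha
    · rw [relrank_eq_rank_of_le le_sup_left, Cardinal.one_le_iff_pos]
      exact rank_pos
  have hgL : Set.range g ⊆ L := fun a ha => hle ((le_sup_right : adjoin k _ ≤ _) (subset_adjoin k _ ha))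
  refine adjoin_le_iff.2 ?_
  rintro _ (⟨α, hα, rfl⟩ | rfl)
  · obtain ⟨a, ha, e⟩ := hρ' α hα
    rw [e]
    exact L.mul_mem (htm α hα) (hAL hgL ha)
  · exact hgL ⟨some none, rfl⟩

theorem exists_section (Λ : AddSubgroup ℝ) (hΛ : Λ.FG) (Q : ℝ → Ω → Prop) (h0 : Q 0 1)
    (hadd : ∀ α ∈ Λ, ∀ β ∈ Λ, ∀ a b, Q α a → Q β b → Q (α + β) (a * b))
    (hneg : ∀ α ∈ Λ, ∀ a, Q α a → Q (-α) a⁻¹) (hex : ∀ α ∈ Λ, ∃ a, a ≠ 0 ∧ Q α a) :
    ∃ m : ℝ → Ω, (∀ α ∈ Λ, Q α (m α)) ∧ ∀ α ∈ Λ, ∀ β ∈ Λ, m (α + β) = m α * m β := by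
  classical
  let G : AddSubgroup (Λ × Additive Ωˣ) :=
    { carrier := {x | Q x.1 (Additive.toMul x.2 : Ωˣ)}
      zero_mem' := by simpa using h0
      add_mem' := fun {x y} hx hy => by
        simpa using hadd _ x.1.2 _ y.1.2 _ _ hx hy
      neg_mem' := fun {x} hx => by simpa using hneg _ x.1.2 _ hx }
  let f : G →ₗ[ℤ] Λ := ((AddMonoidHom.fst _ _).comp G.subtype).toIntLinearMap
  have hf : Function.Surjective f := fun α => by
    obtain ⟨a, ha, h⟩ := hex α α.2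
    exact ⟨⟨(α, Additive.ofMul (Units.mk0 a ha)), h⟩, rfl⟩
  have : Module.Finite ℤ Λ :=
    Module.Finite.iff_addGroup_fg.2 ((AddGroup.fg_iff_addSubgroup_fg Λ).2 hΛ)
  obtain ⟨σ, hσ⟩ := Module.projective_lifting_property f LinearMap.id hf
  refine ⟨fun α => if h : α ∈ Λ then ((Additive.toMul (σ ⟨α, h⟩).1.2 : Ωˣ) : Ω) else 1,
    fun α hα => ?_, fun α hα β hβ => ?_⟩
  · have e : (σ ⟨α, hα⟩).1.1 = ⟨α, hα⟩ := LinearMap.congr_fun hσ ⟨α, hα⟩
    have := (σ ⟨α, hα⟩).2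
    simp only [dif_pos hα]
    change Q ((σ ⟨α, hα⟩).1.1 : ℝ) _ at this
    rwa [e] at this
  · simp only [dif_pos hα, dif_pos hβ, dif_pos (Λ.add_mem hα hβ)]
    have : (⟨α + β, Λ.add_mem hα hβ⟩ : Λ) = ⟨α, hα⟩ + ⟨β, hβ⟩ := rfl
    rw [this, map_add]
    simp

theorem exists_dom (s : Stage Ω) {a : Ω} (ha : a ∈ hens (s.M k)) (h1 : ‖a‖ < 1) :
    ∃ π ∈ s.M k, π ≠ 0 ∧ ‖π‖ < 1 ∧ ‖a‖ ≤ ‖π‖ := by
  rcases eq_or_ne a 0 with rfl | h0
  · obtain ⟨x, hx0, hx1⟩ := NormedField.exists_norm_lt_one Ω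
    obtain ⟨d, hd, h⟩ := s.full x (norm_pos_iff.1 hx0)
    refine ⟨_, mon_mem_M s h, mon_ne s h, ?_, by simp⟩
    rw [s.norm_mon _ h, Real.exp_lt_one_iff, neg_lt_zero]
    exact mul_pos (by exact_mod_cast hd) (neg_pos.2 (Real.log_neg hx0 hx1))
  · have hc : a ∈ closure (s.M k : Set Ω) := ha.2
    obtain ⟨b, hb, h⟩ := Metric.mem_closure_iff.1 hc ‖a‖ (norm_pos_iff.2 h0)
    rw [dist_comm, dist_eq_norm] at h
    have e : ‖b‖ = ‖a‖ := by simpa using norm_add_eq_left h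
    exact ⟨b, hb, norm_pos_iff.1 (e ▸ norm_pos_iff.2 h0), e ▸ h1, e.ge⟩

theorem denom (s : Stage Ω) {π b : Ω} (hπ : s.Good k π) (h1 : ‖π‖ < 1) (hb : s.Good k b) :
    ∃ K : ℕ, π ^ K * b⁻¹ ∈ s.R k := by
  obtain ⟨α, hα, w, hw, hw1, rfl⟩ := hπ
  obtain ⟨β, hβ, v, hv, hv1, rfl⟩ := hb
  rw [norm_mul, hw1, mul_one, s.norm_mon α hα, Real.exp_lt_one_iff, neg_lt_zero] at h1
  obtain ⟨K, hK⟩ := Archimedean.arch β h1
  refine ⟨K, ?_⟩
  have := mon_mem_R (k := k) s (s.Λ.add_mem (s.Λ.nsmul_mem hα K) (s.Λ.neg_mem hβ)) (by linarith)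
  rw [s.mon_add _ (s.Λ.nsmul_mem hα K) _ (s.Λ.neg_mem hβ), mon_nsmul s hα, mon_neg s hβ] at this
  convert (s.R k).mul_mem this ((s.R k).mul_mem (pow_mem hw K) (loc_inv hv hv1)) using 1
  ring

theorem coeff_of {Q : Polynomial Ω} {S : Subalgebra k Ω} (h : ∀ a ∈ Q.coeffs, a ∈ S) (i : ℕ) :
    Q.coeff i ∈ S := by
  rcases eq_or_ne (Q.coeff i) 0 with h0 | h0
  · rw [h0]; exact S.zero_mem
  · exact h _ (Polynomial.coeff_mem_coeffs h0)

theorem coeffs_of {Q : Polynomial Ω} {W : Ω → Prop} (h : ∀ i, W (Q.coeff i)) :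
    ∀ a ∈ Q.coeffs, W a := by
  intro a ha
  obtain ⟨n, -, rfl⟩ := Polynomial.mem_coeffs_iff.1 ha
  exact h n

theorem ne_of_coeffs {Q : Polynomial Ω} {a : Ω} (ha : a ∈ Q.coeffs) : a ≠ 0 := by
  obtain ⟨n, hn, rfl⟩ := Polynomial.mem_coeffs_iff.1 ha
  exact Polynomial.mem_support_iff.1 hn

theorem eq_mul_inv {z u v : Ω} (h : z * u = v) (hu : ‖u‖ = 1) : z = v * u⁻¹ := by
  have : u ≠ 0 := by rintro rfl; simp at hu
  rw [← h]; field_simp

/-- From adic approximability of the generators to a perturbed stage inside `F`. -/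
theorem exists_pert [Ctx k Ω] (s : Stage Ω) {η π : Ω} {F : IntermediateField k Ω}
    (hη : ‖η‖ ≤ 1) (hπ : s.Good k π) (h1 : ‖π‖ < 1) (hπS : π ∈ SR k s η)
    (hB : s.gens ⊆ Appr (SR k s η) π hπS F) :
    ∃ t : Stage Ω, t.M k ≤ F ∧ (s.y = 0 → t.y = 0) ∧ t.Λ = s.Λ ∧
      (∀ α ∈ s.Λ, ∃ a ∈ SR k s η, t.mon α = s.mon α * (1 + π * a)) ∧
      ∃ a ∈ SR k s η, s.y - t.y = π * a := by
  have hS : ∀ a ∈ SR k s η, ‖a‖ ≤ 1 := fun a ha => (SR_sub s (K := ⊤) le_top trivial hη ha).2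
  obtain ⟨m, hm, hadd⟩ := exists_section s.Λ s.fg
    (fun α f => f ∈ F ∧ ∃ a ∈ SR k s η, f = s.mon α * (1 + π * a))
    ⟨F.one_mem, 0, zero_mem _, by simp [mon_zero]⟩
    (by
      rintro α hα β hβ _ _ ⟨hf, a, ha, rfl⟩ ⟨hg, b, hb, rfl⟩
      exact ⟨F.mul_mem hf hg, a + b + π * a * b, add_mem (add_mem ha hb)
        (mul_mem (mul_mem hπS ha) hb), by rw [s.mon_add α hα β hβ]; ring⟩)
    (by
      rintro α hα _ ⟨hf, a, ha, rfl⟩
      have hn := norm_one_add h1 (hS a ha)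
      have hu : 1 + π * a ∈ SR k s η := add_mem (one_mem _) (mul_mem hπS ha)
      have h0 : 1 + π * a ≠ 0 := by intro h; rw [h] at hn; simp at hn
      refine ⟨F.inv_mem hf, -(a * (1 + π * a)⁻¹), neg_mem (mul_mem ha (loc_inv hu hn)), ?_⟩
      have := mon_ne s hα
      rw [mon_neg s hα]; field_simp; ring)
    (by
      intro α hα
      obtain ⟨K, hK⟩ := denom s hπ h1 (b := s.mon α) ⟨α, hα, 1, one_mem _, norm_one, by simp⟩
      obtain ⟨f, hf, a, ha, e⟩ := Appr_rel (hB (Or.inl ⟨α, hα, rfl⟩)) (mon_ne s hα)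
        ⟨K, R_le_SR s η hK⟩ 1
      rw [pow_one] at e
      refine ⟨f, ?_, hf, a, ha, e⟩
      rw [e, ← norm_pos_iff, norm_mul, norm_one_add h1 (hS a ha), mul_one, norm_pos_iff]
      exact mon_ne s hα)
  have hy : ∃ y ∈ F, (s.y = 0 → y = 0) ∧ ∃ a ∈ SR k s η, s.y - y = π * a := by
    rcases eq_or_ne s.y 0 with h0 | h0
    · exact ⟨0, F.zero_mem, fun _ => rfl, 0, zero_mem _, by simp [h0]⟩
    · obtain ⟨f, hf, a, ha, e⟩ := (hB (Or.inr rfl)).2 1
      exact ⟨f, hf, fun h => absurd h h0, a, ha, by simpa using e⟩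
  obtain ⟨y, hyF, hy0, a, ha, e⟩ := hy
  refine ⟨⟨s.Λ, s.fg, s.full, m, hadd, fun α hα => ?_, y, ?_⟩, adjoin_le_iff.2 ?_, hy0, rfl,
    fun α hα => (hm α hα).2, a, ha, e⟩
  · obtain ⟨-, b, hb, e'⟩ := hm α hα
    rw [e', norm_mul, norm_one_add h1 (hS b hb), mul_one, s.norm_mon α hα]
  · have : y = s.y + -(π * a) := by rw [← e]; ring
    rw [this]
    refine (IsUltrametricDist.norm_add_le_max _ _).trans_lt (max_lt s.norm_y ?_)
    rw [norm_neg, norm_mul]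
    exact mul_lt_one_of_nonneg_of_lt_one_left (norm_nonneg _) h1 (hS a ha)
  · rintro _ (⟨α, hα, rfl⟩ | rfl)
    · exact (hm α hα).1
    · exact hyF

end Desc

open Desc

variable [IsAlgClosed k] [IsAlgClosed Ω] [Ctx k Ω] {p : ℕ} [Fact p.Prime] [CharP k p] [CharP Ω p]

theorem desc (hb : HB k Ω p) (hh : HensStmt k Ω) (hle : LeStmt k Ω p) (hmon : MonStmt k Ω)
    (heta : EtaStmt k Ω) (hd : DStmt k Ω) (hs : SepStmt k Ω) : DescStmt k Ω := by
  classical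
  intro F s halg hMF hFM
  obtain ⟨T, hT⟩ := s.fg
  have hTΛ : ∀ α ∈ T, α ∈ s.Λ := fun α h => hT ▸ AddSubgroup.subset_closure h
  have habs : ∀ α ∈ s.Λ, |α| ∈ s.Λ := fun α h => abs_mem_iff.2 h
  have hZ1 : ∀ z ∈ insert s.y (T.image fun α => s.mon |α|), z ∈ s.M k ∧ ‖z‖ ≤ 1 := by
    intro z hz
    simp only [Finset.mem_insert, Finset.mem_image] at hz
    rcases hz with rfl | ⟨α, hα, rfl⟩
    · exact ⟨y_mem_M s, s.norm_y.le⟩
    · exact ⟨mon_mem_M s (habs α (hTΛ α hα)), norm_mon_le s (habs α (hTΛ α hα)) (abs_nonneg α)⟩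
  have hy1 : s.y ∈ insert s.y (T.image fun α => s.mon |α|) := Finset.mem_insert_self _ _
  have hm1 : ∀ α ∈ T, s.mon |α| ∈ insert s.y (T.image fun α => s.mon |α|) := fun α hα =>
    Finset.mem_insert_of_mem (Finset.mem_image_of_mem _ hα)
  generalize insert s.y (T.image fun α => s.mon |α|) = Z1 at hZ1 hy1 hm1
  obtain ⟨ξ, PF, hξ, nξ, -, cPF, rPF, dPF, -, hG⟩ :=
    heta F Z1 fun z hz => ⟨hMF (hZ1 z hz).1, (hZ1 z hz).2⟩
  choose! G N hG1 hG2 using hG
  have hξM : ξ ∈ hens (s.M k) :=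
    sup_le hFM (adjoin_le_iff.2 fun z hz => le_hens _ (hZ1 z hz).1) hξ
  have hdM : PF.derivative.eval ξ ∈ hens (s.M k) :=
    eval_mem (hens (s.M k)).toSubalgebra _ (der_coeff _ _ fun i => hFM (cPF i).1) hξM
  obtain ⟨c0, hc0⟩ := Ctx.res (k := k) ξ nξ.le
  obtain ⟨c1, hc1⟩ := Ctx.res (k := k) _ dPF.le
  have hc1' : c1 ≠ 0 := by
    rintro rfl
    rw [map_zero, sub_zero, dPF] at hc1
    exact lt_irrefl _ hc1
  have a0 := (hens (s.M k)).sub_mem hξM ((hens (s.M k)).algebraMap_mem c0)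
  have a1 := (hens (s.M k)).sub_mem hdM ((hens (s.M k)).algebraMap_mem c1)
  obtain ⟨π, hπM, hπ0, hπ1, b0, b1⟩ : ∃ π ∈ s.M k, π ≠ 0 ∧ ‖π‖ < 1 ∧
      ‖ξ - algebraMap k Ω c0‖ ≤ ‖π‖ ∧ ‖PF.derivative.eval ξ - algebraMap k Ω c1‖ ≤ ‖π‖ := by
    obtain ⟨π, h1, h2, h3, h4⟩ := exists_dom s a0 hc0
    obtain ⟨π', h1', h2', h3', h4'⟩ := exists_dom s a1 hc1
    rcases le_total ‖π‖ ‖π'‖ with h | h
    · exact ⟨π', h1', h2', h3', h4.trans h, h4'⟩
    · exact ⟨π, h1, h2, h3, h4, h4'.trans h⟩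
  have hπn : 0 < ‖π‖ := norm_pos_iff.2 hπ0
  obtain ⟨Z2, hZ2, z1, z2, z3, z4, z5⟩ : ∃ Z2 : Finset Ω,
      (∀ z ∈ Z2, z ∈ hens (s.M k) ∧ ‖z‖ ≤ 1) ∧ ξ ∈ Z2 ∧ (ξ - algebraMap k Ω c0) / π ∈ Z2 ∧
      (PF.derivative.eval ξ - algebraMap k Ω c1) / π ∈ Z2 ∧ PF.coeffs ⊆ Z2 ∧
      ∀ z ∈ Z1, (G z).coeffs ⊆ Z2 := by
    refine ⟨{ξ, (ξ - algebraMap k Ω c0) / π, (PF.derivative.eval ξ - algebraMap k Ω c1) / π} ∪
      (PF.coeffs ∪ Z1.biUnion fun z => (G z).coeffs), ?_, by simp, by simp, by simp,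
      fun a ha => by simp [ha], fun z hz a ha => ?_⟩
    · intro z hz
      simp only [Finset.mem_union, Finset.mem_insert, Finset.mem_singleton,
        Finset.mem_biUnion] at hz
      rcases hz with (rfl | rfl | rfl) | hz | ⟨z', hz', hz⟩
      · exact ⟨hξM, nξ.le⟩
      · exact ⟨div_mem a0 (le_hens _ hπM), by rwa [norm_div, div_le_one hπn]⟩
      · exact ⟨div_mem a1 (le_hens _ hπM), by rwa [norm_div, div_le_one hπn]⟩
      · exact coeffs_of (W := fun z => z ∈ hens (s.M k) ∧ ‖z‖ ≤ 1)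
          (fun i => ⟨hFM (cPF i).1, (cPF i).2⟩) z hz
      · exact coeffs_of (W := fun z => z ∈ hens (s.M k) ∧ ‖z‖ ≤ 1)
          (fun i => ⟨hFM (hG1 z' hz' i).1, (hG1 z' hz' i).2⟩) z hz
    · simp only [Finset.mem_union, Finset.mem_biUnion]
      exact Or.inr (Or.inr ⟨z, hz, ha⟩)
  obtain ⟨η, P, hη, nη, -, cP, rP, dP, -, hG'⟩ := heta (s.M k) Z2 hZ2
  choose! G' N' hG1' hG2' using hG'
  have hηM : η ∈ hens (s.M k) := sup_le (le_hens _) (adjoin_le_iff.2 fun z hz => (hZ2 z hz).1) hη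
  obtain ⟨c, hc⟩ := Ctx.res (k := k) η nη.le
  obtain ⟨s1, h1, hgood⟩ := hmon.mon s (({π, P.eval (algebraMap k Ω c)} ∪
      (P.coeffs ∪ Z2.biUnion fun z => (G' z).coeffs)).erase 0) (by
    intro b hb'
    simp only [Finset.mem_erase, Finset.mem_union, Finset.mem_insert, Finset.mem_singleton,
      Finset.mem_biUnion] at hb'
    refine ⟨?_, hb'.1⟩
    rcases hb'.2 with (rfl | rfl) | hz | ⟨z', hz', hz⟩
    · exact hπM
    · exact eval_mem (s.M k).toSubalgebra P (fun i => (cP i).1) ((s.M k).algebraMap_mem c)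
    · exact coeffs_of (W := fun z => z ∈ s.M k) (fun i => (cP i).1) b hz
    · exact coeffs_of (W := fun z => z ∈ s.M k) (fun i => (hG1' z' hz' i).1) b hz)
  simp only [Finset.mem_erase, Finset.mem_union, Finset.mem_insert, Finset.mem_singleton,
    Finset.mem_biUnion] at hgood
  have gπ : s1.Good k π := hgood π ⟨hπ0, Or.inl (Or.inl rfl)⟩
  have cP1 : ∀ i, P.coeff i ∈ s1.R k := coeff_of fun a ha => good_mem_R s1
    (hgood a ⟨ne_of_coeffs ha, Or.inr (Or.inl ha)⟩)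
    (coeffs_of (W := fun z => ‖z‖ ≤ 1) (fun i => (cP i).2) a ha)
  have cG1 : ∀ z ∈ Z2, ∀ i, (G' z).coeff i ∈ s1.R k := fun z hz => coeff_of fun a ha =>
    good_mem_R s1
    (hgood a ⟨ne_of_coeffs ha, Or.inr (Or.inr ⟨z, hz, ha⟩)⟩)
    (coeffs_of (W := fun z => ‖z‖ ≤ 1) (fun i => (hG1' z hz i).2) a ha)
  have hηS := self_mem_SR (k := k) s1 η
  have hπS : π ∈ SR k s1 η := R_le_SR s1 η (good_mem_R s1 gπ hπ1.le)
  have hS : ∀ a ∈ SR k s1 η, ‖a‖ ≤ 1 := fun a ha =>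
    (SR_sub s1 (K := ⊤) le_top trivial nη.le ha).2
  have hSi : ∀ a ∈ SR k s1 η, ‖a‖ = 1 → a⁻¹ ∈ SR k s1 η := fun a ha h => loc_inv ha h
  have hZS : ∀ z ∈ Z2, z ∈ SR k s1 η := by
    intro z hz
    have hu : ‖η ^ N' z * P.derivative.eval η‖ = 1 := by rw [norm_mul, norm_pow, nη, dP]; simp
    rw [eq_mul_inv (hG2' z hz) hu]
    exact mul_mem (eval_mem _ _ (fun i => R_le_SR s1 η (cG1 z hz i)) hηS) (hSi _ (mul_mem
      (pow_mem hηS _) (eval_mem _ _ (der_coeff _ _ fun i => R_le_SR s1 η (cP1 i)) hηS)) hu)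
  have cPS : ∀ i, PF.coeff i ∈ SR k s1 η := coeff_of fun a ha => hZS a (z4 ha)
  have hξB : ξ ∈ Appr (SR k s1 η) π hπS F :=
    Appr_newton PF cPS (fun i => (cPF i).1) (hZS _ z1) rPF c0 c1 hc1'
      ⟨_, hZS _ z2, by field_simp⟩ ⟨_, hZS _ z3, by field_simp⟩
  have hZB : ∀ z ∈ Z1, z ∈ Appr (SR k s1 η) π hπS F := by
    intro z hz
    have hu : ‖ξ ^ N z * PF.derivative.eval ξ‖ = 1 := by rw [norm_mul, norm_pow, nξ, dPF]; simp
    rw [eq_mul_inv (hG2 z hz) hu]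
    refine mul_mem (eval_mem _ _ (fun i => Appr_of_mem (hG1 z hz i).1
      (coeff_of (fun a ha => hZS a (z5 z hz ha)) i)) hξB) (Appr_inv hS hSi hπ1 (mul_mem
      (pow_mem hξB _) (eval_mem _ _ (der_coeff _ _ fun i => Appr_of_mem (cPF i).1 (cPS i)) hξB))
      ⟨0, ?_⟩)
    rw [pow_zero, one_mul]
    exact hSi _ (mul_mem (pow_mem (hZS _ z1) _) (eval_mem _ _ (der_coeff _ _ cPS) (hZS _ z1))) hu
  have hgi : ∀ b ∈ Appr (SR k s1 η) π hπS F, s1.Good k b → b⁻¹ ∈ Appr (SR k s1 η) π hπS F := by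
    intro b hb' hg
    obtain ⟨K, hK⟩ := denom s1 gπ hπ1 hg
    exact Appr_inv hS hSi hπ1 hb' ⟨K, R_le_SR s1 η hK⟩
  have hgen : s.gens ⊆ Appr (SR k s1 η) π hπS F := by
    rintro _ (⟨α, hα, rfl⟩ | rfl)
    · have hα' : α ∈ AddSubgroup.closure (T : Set ℝ) := hT ▸ hα
      clear hα
      induction hα' using AddSubgroup.closure_induction with
      | mem x hx =>
        have h2 := hZB _ (hm1 x hx)
        rcases abs_choice x with e | e
        · rwa [e] at h2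
        · have h3 := hgi _ h2 (hle.good_mon s s1 h1 _ (habs x (hTΛ x hx)))
          rwa [e, mon_neg s (hTΛ x hx), inv_inv] at h3
      | zero => rw [mon_zero]; exact one_mem _
      | add x y hx hy ihx ihy =>
        rw [s.mon_add x (hT ▸ hx) y (hT ▸ hy)]; exact mul_mem ihx ihy
      | neg x hx ih =>
        rw [mon_neg s (hT ▸ hx)]
        exact hgi _ ih (hle.good_mon s s1 h1 _ (hT ▸ hx))
    · exact hZB _ hy1
  obtain ⟨t, htF, hty, hlat, hm, hy⟩ :=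
    exists_pert s1 nη.le gπ hπ1 hπS (hle.gen s s1 h1 _ hgi hgen)
  have hM := hle.M_eq s s1 h1
  have hP : Pert k s1 t η π P := ⟨hM ▸ hηM, nη.le, cP1, rP, dP, gπ, hπ1, hlat, hm, hy⟩
  have halg1 : Algebra.IsAlgebraic (s1.M k) Ω := hM ▸ halg
  have halg2 := pert_alg hs hP
  have hfin := pert_hens hh hd hP c hc (by
    rcases eq_or_ne (P.eval (algebraMap k Ω c)) 0 with h0 | h0
    · exact Or.inl h0
    · exact Or.inr (hgood _ ⟨h0, Or.inl (Or.inr rfl)⟩))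
  refine ⟨t, htF, hFM.trans (hb.hens_le _ (alg_mono (le_hens _)) (hh _ halg2) _ (hM ▸ hfin)),
    halg2, fun h0 => hty ?_⟩
  rw [hle.y_zero s s1 h1 h0, h0]

end Pool.Agent.MP_19ffc6_ag.LU

end MrgPart1

-- ======== part 2: formerly Pool.Agent.MP_19ffc6_ag.LU.Trans
section MrgPart2

/-! Module TR of PROJECT LU1: rewriting a polynomial after one transition. -/

namespace Pool.Agent.MP_19ffc6_ag.LU

open Polynomial

namespace TransM

section Poly

variable {k : Type*} [Field k]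

/-- Order lemma: a nonzero polynomial with exponents in a window of length `D` vanishes to order
at most `D` at a nonzero point. -/
theorem order_lemma (f : Polynomial k) (hf : f ≠ 0) (E0 D : ℕ)
    (h : ∀ n, f.coeff n ≠ 0 → E0 ≤ n ∧ n ≤ E0 + D) (c : k) (hc : c ≠ 0) :
    ∃ i, i ≤ D ∧ (taylor c f).coeff i ≠ 0 := by
  by_contra hcon
  push Not at hcon
  have h1 : (X : Polynomial k) ^ (D + 1) ∣ taylor c f := by
    rw [X_pow_dvd_iff]
    intro i hi
    exact hcon i (by omega)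
  have h2 : (X - C c) ^ (D + 1) ∣ f := by
    obtain ⟨g, hg⟩ := h1
    have h3 := congrArg (taylor (-c)) hg
    rw [taylor_taylor, neg_add_cancel, taylor_zero, taylor_mul, taylor_pow, taylor_X, C_neg,
      ← sub_eq_add_neg] at h3
    exact ⟨_, h3⟩
  have h3 : (X : Polynomial k) ^ E0 ∣ f := by
    rw [X_pow_dvd_iff]
    intro i hi
    by_contra hne
    have := (h i hne).1
    omega
  obtain ⟨g, hg⟩ := h3
  have hg0 : g ≠ 0 := by
    rintro rfl
    exact hf (by simpa using hg)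
  have hcop : IsCoprime ((X - C c) ^ (D + 1) : Polynomial k) (X ^ E0) := by
    apply IsCoprime.pow
    have := isCoprime_X_sub_C_of_isUnit_sub (R := k) (a := c) (b := 0)
      (by simpa using hc.isUnit)
    simpa using this
  have h4 : (X - C c) ^ (D + 1) ∣ g := hcop.dvd_of_dvd_mul_left (hg ▸ h2)
  have h5 := natDegree_le_of_dvd h4 hg0
  rw [(monic_X_sub_C c).natDegree_pow, natDegree_X_sub_C] at h5
  have h6 : f.natDegree = E0 + g.natDegree := by
    rw [hg, natDegree_mul (pow_ne_zero _ X_ne_zero) hg0, natDegree_X_pow]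
  have h7 := (h f.natDegree (by simpa using hf)).2
  omega

theorem taylor_derivative' (c : k) (f : Polynomial k) :
    taylor c (derivative f) = derivative (taylor c f) := by
  simp [taylor_apply, derivative_comp]

/-- The order lemma for the derivative. -/
theorem order_lemma' (p : ℕ) [CharP k p] (f : Polynomial k) (E0 D : ℕ)
    (h0 : f.coeff E0 ≠ 0) (hp : ¬ p ∣ E0)
    (h : ∀ n, f.coeff n ≠ 0 → E0 ≤ n ∧ n ≤ E0 + D) (c : k) (hc : c ≠ 0) :
    ∃ i, i ≤ D ∧ (taylor c f).coeff (i + 1) ≠ 0 ∧ ¬ p ∣ i + 1 := by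
  obtain ⟨m, rfl⟩ : ∃ m, E0 = m + 1 := by
    cases E0 with
    | zero => exact absurd (dvd_zero p) hp
    | succ m => exact ⟨m, rfl⟩
  have hm : ((m : k) + 1) ≠ 0 := by
    intro h1
    apply hp
    rw [← CharP.cast_eq_zero_iff k p]
    push_cast
    exact h1
  have hf' : derivative f ≠ 0 := by
    intro h1
    have := congrArg (fun g => g.coeff m) h1
    simp only [coeff_derivative, coeff_zero] at this
    exact mul_ne_zero h0 hm this
  obtain ⟨i, hi, hne⟩ := order_lemma (derivative f) hf' m D (fun n hn => by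
    rw [coeff_derivative] at hn
    have := h (n + 1) (left_ne_zero_of_mul hn)
    omega) c hc
  rw [taylor_derivative', coeff_derivative] at hne
  refine ⟨i, hi, left_ne_zero_of_mul hne, fun hd => right_ne_zero_of_mul hne ?_⟩
  have := (CharP.cast_eq_zero_iff k p (i + 1)).2 hd
  push_cast at this
  exact this

/-- The polynomial `f` placed on the level `β`. -/
noncomputable def emb (β : ℝ) (f : Polynomial k) : Pol k :=
  ∑ i ∈ f.support, Finsupp.single (β, i) (f.coeff i)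

open Classical in
theorem emb_apply (β : ℝ) (f : Polynomial k) (β' : ℝ) (i : ℕ) :
    emb β f (β', i) = if β = β' then f.coeff i else 0 := by
  unfold emb
  rw [Finsupp.finsetSum_apply]
  split_ifs with hβ
  · subst hβ
    rw [Finset.sum_eq_single i]
    · simp
    · intro j _ hj
      rw [Finsupp.single_eq_of_ne]
      intro h
      exact hj (Prod.ext_iff.1 h).2.symm
    · intro hi
      rw [notMem_support_iff.1 hi]
      simp
  · refine Finset.sum_eq_zero fun j _ => ?_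
    rw [Finsupp.single_eq_of_ne]
    intro h
    exact hβ (Prod.ext_iff.1 h).1.symm

end Poly

variable {k Ω : Type*} [Field k] [NontriviallyNormedField Ω] [Algebra k Ω]

theorem ev_emb (s : Stage Ω) (β : ℝ) (f : Polynomial k) :
    s.ev k (emb β f) = s.mon β * aeval s.y f := by
  unfold emb Stage.ev
  rw [map_sum, aeval_def, eval₂_eq_sum, Polynomial.sum, Finset.mul_sum]
  refine Finset.sum_congr rfl fun i _ => ?_
  rw [Finsupp.linearCombination_single, Algebra.smul_def]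
  ring

theorem mon_ne (s : Stage Ω) {α : ℝ} (h : α ∈ s.Λ) : s.mon α ≠ 0 := by
  intro h0
  have := s.norm_mon α h
  rw [h0, norm_zero] at this
  exact (Real.exp_pos _).ne this

theorem mon_zero (s : Stage Ω) : s.mon 0 = 1 := by
  have h := s.mon_add 0 s.Λ.zero_mem 0 s.Λ.zero_mem
  rw [add_zero] at h
  exact (mul_eq_left₀ (mon_ne s s.Λ.zero_mem)).1 h.symm

theorem mon_zsmul (s : Stage Ω) {α : ℝ} (h : α ∈ s.Λ) (e : ℤ) :
    s.mon (e * α) = s.mon α ^ e := by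
  have hm : ∀ n : ℤ, (n : ℝ) * α ∈ s.Λ := fun n => by
    have := s.Λ.zsmul_mem h n
    rwa [zsmul_eq_mul] at this
  induction e using Int.induction_on with
  | zero => simp [mon_zero]
  | succ n ih =>
    have h1 : (((n : ℤ) + 1 : ℤ) : ℝ) * α = ((n : ℤ) : ℝ) * α + α := by push_cast; ring
    rw [h1, s.mon_add _ (hm n) _ h, ih, zpow_add_one₀ (mon_ne s h)]
  | pred n ih =>
    have h1 : ((-(n : ℤ) : ℤ) : ℝ) * α = ((-(n : ℤ) - 1 : ℤ) : ℝ) * α + α := by push_cast; ring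
    rw [h1, s.mon_add _ (hm _) _ h] at ih
    rw [zpow_sub_one₀ (mon_ne s h), ← ih, mul_inv_cancel_right₀ (mon_ne s h)]

variable {s s' : Stage Ω} {w : Ω} {d : ℕ} {σ : ℝ → ℤ}

theorem d_mem (h : IsExt s w d σ s') : (d : ℝ) * nu w ∈ s.Λ := by
  have := (h.dvd_iff d).2 dvd_rfl
  simpa using this

theorem add_mem' (h : IsExt s w d σ s') {α : ℝ} (hα : α ∈ s.Λ) (j : ℤ) :
    α + j * nu w ∈ s'.Λ := by
  rw [h.lat]
  refine AddSubgroup.add_mem _ (AddSubgroup.mem_sup_left hα) (AddSubgroup.mem_sup_right ?_)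
  exact ⟨j, by simp⟩

theorem u_ne (h : IsExt s w d σ s') : s.u w d ≠ 0 :=
  div_ne_zero (pow_ne_zero _ h.w_ne) (mon_ne s (d_mem h))

theorem exists_e (h : IsExt s w d σ s') {α : ℝ} (hα : α ∈ s.Λ) (j : ℤ) :
    ∃ e : ℤ, j = σ (α + j * nu w) + d * e ∧
      s.mon α * w ^ j = s'.mon (α + j * nu w) * s.u w d ^ e := by
  have hβ := add_mem' h hα j
  set β := α + j * nu w with hβd
  have h1 := h.σ_mem β hβ
  have h2 : ((j - σ β : ℤ) : ℝ) * nu w ∈ s.Λ := by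
    have := s.Λ.sub_mem h1 hα
    convert this using 1
    rw [hβd]; push_cast; ring
  obtain ⟨e, he⟩ := (h.dvd_iff _).1 h2
  refine ⟨e, by linarith, ?_⟩
  have h3 : β - σ β * nu w = α + e * (d * nu w) := by
    have : ((j - σ β : ℤ) : ℝ) = ((d * e : ℤ) : ℝ) := by rw [he]
    push_cast at this
    rw [hβd]
    linear_combination (nu w) * this
  have hm : (e : ℝ) * (d * nu w) ∈ s.Λ := by
    have := s.Λ.zsmul_mem (d_mem h) e
    rwa [zsmul_eq_mul] at this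
  rw [h.mon_eq β hβ, h3, s.mon_add _ hα _ hm, mon_zsmul s (d_mem h), Stage.u, div_zpow,
    ← zpow_natCast, ← zpow_mul]
  have h4 : j = σ β + d * e := by linarith
  have h5 : w ^ j = w ^ σ β * w ^ ((d : ℤ) * e) := by
    rw [← zpow_add₀ h.w_ne, ← h4]
  rw [h5]
  have h6 : s.mon (d * nu w) ^ e ≠ 0 := zpow_ne_zero _ (mon_ne s (d_mem h))
  field_simp

theorem σ_nsmul (h : IsExt s w d σ s') {β : ℝ} (hβ : β ∈ s'.Λ) (n : ℕ) :
    σ (n * β) = n * σ β := by
  have hm : ∀ n : ℕ, (n : ℝ) * β ∈ s'.Λ := fun n => by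
    have := s'.Λ.nsmul_mem hβ n
    rwa [nsmul_eq_mul] at this
  induction n with
  | zero =>
    have := h.σ_add 0 s'.Λ.zero_mem 0 s'.Λ.zero_mem
    rw [add_zero] at this
    simp only [Nat.cast_zero, zero_mul]
    linarith
  | succ n ih =>
    have h1 : ((n + 1 : ℕ) : ℝ) * β = n * β + β := by push_cast; ring
    rw [h1, h.σ_add _ (hm n) _ hβ, ih]
    push_cast; ring

theorem mem_R (s : Stage Ω) {a : Ω} (ha : a ∈ s.R0 k) : a ∈ s.R k :=
  ⟨a, ha, 1, (s.R0 k).one_mem, norm_one, (div_one _).symm⟩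

theorem y_mem_R0 (s : Stage Ω) : s.y ∈ s.R0 k :=
  Algebra.subset_adjoin (Or.inr rfl)

/-- The choice of the auxiliary exponent. -/
theorem exists_N [Ctx k Ω] {p : ℕ} [Fact p.Prime] [CharP Ω p] {c : k} (hc : c ≠ 0) {y' : Ω}
    (hy : ‖y'‖ < 1) {ε : ℝ} (hε : 0 < ε) (M : ℕ) :
    ∃ N : ℕ, M ≤ N ∧ p ∣ N ∧ ‖((y' + algebraMap k Ω c) / algebraMap k Ω c) ^ N - 1‖ < ε := by
  have hp : 1 < p := (Fact.out : p.Prime).one_lt
  obtain ⟨n0, hn0⟩ := exists_pow_lt_of_lt_one hε hy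
  refine ⟨p ^ (M + n0 + 1), ?_, dvd_pow_self p (by omega), ?_⟩
  · have := Nat.lt_pow_self (n := M + n0 + 1) hp
    omega
  · have hc' : algebraMap k Ω c ≠ 0 := (_root_.map_ne_zero _).2 hc
    rw [add_div, div_self hc', add_pow_char_pow, one_pow, add_sub_cancel_right, norm_pow, norm_div,
      Ctx.norm_alg c hc, div_one]
    refine lt_of_le_of_lt (pow_le_pow_of_le_one (norm_nonneg _) hy.le ?_) hn0
    have := Nat.lt_pow_self (n := M + n0 + 1) hp
    omega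

end TransM

open TransM in
theorem trans {k Ω : Type*} [Field k] [NontriviallyNormedField Ω] [Algebra k Ω] [Ctx k Ω]
    {p : ℕ} [Fact p.Prime] [CharP k p] [CharP Ω p] : TransStmt k Ω p := by
  classical
  intro s s' d σ c hst Φ hΦ ε hε
  have h : IsExt s s.y d σ s' := hst.toIsExt
  have hc := hst.c_ne
  have hc' : algebraMap k Ω c ≠ 0 := (_root_.map_ne_zero _).2 hc
  have hu : s.u s.y d = s'.y + algebraMap k Ω c := by rw [hst.y_eq]; ring
  have hex : ∀ x : ℝ × ℕ, ∃ e : ℤ, x ∈ Φ.support →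
      ((x.2 : ℤ) = σ (x.1 + x.2 * nu s.y) + d * e ∧
      s.mon x.1 * s.y ^ x.2 = s'.mon (x.1 + x.2 * nu s.y) * s.u s.y d ^ e) := by
    intro x
    by_cases hx : x ∈ Φ.support
    · obtain ⟨e, he⟩ := exists_e h (hΦ x hx) (x.2 : ℤ)
      exact ⟨e, fun _ => by simpa using he⟩
    · exact ⟨0, fun hx' => absurd hx' hx⟩
  choose e he using hex
  obtain ⟨N, hN0, hNp, hN1, hNε⟩ : ∃ N : ℕ, (∀ x ∈ Φ.support, 0 ≤ e x + N) ∧ p ∣ N ∧
      (d = 1 → N = 0) ∧ ‖(s.u s.y d / algebraMap k Ω c) ^ N - 1‖ < ε := by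
    by_cases hd : d = 1
    · refine ⟨0, fun x hx => ?_, dvd_zero p, fun _ => rfl, by simpa using hε⟩
      have h1 := (he x hx).1
      rw [hst.triv hd, hd] at h1
      push_cast at h1 ⊢
      omega
    · obtain ⟨N, h1, h2, h3⟩ := exists_N (p := p) hc s'.norm_y hε
        (Φ.support.sup fun x => (e x).natAbs)
      refine ⟨N, fun x hx => ?_, h2, fun h' => absurd h' hd, by rwa [hu]⟩
      have h4 : (e x).natAbs ≤ Φ.support.sup fun x => (e x).natAbs :=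
        Finset.le_sup (f := fun x => (e x).natAbs) hx
      omega
  obtain ⟨E, hE⟩ : ∃ E : ℝ × ℕ → ℕ, ∀ x ∈ Φ.support, (E x : ℤ) = e x + N :=
    ⟨fun x => (e x + N).toNat, fun x hx => Int.toNat_of_nonneg (hN0 x hx)⟩
  set a : ℝ × ℕ → k := fun x => Φ x * c⁻¹ ^ N with ha
  have ha0 : ∀ x ∈ Φ.support, a x ≠ 0 := fun x hx =>
    mul_ne_zero (Finsupp.mem_support_iff.1 hx) (pow_ne_zero _ (inv_ne_zero hc))
  set Φ' : Pol k := ∑ x ∈ Φ.support,
    emb (x.1 + x.2 * nu s.y) (taylor c (monomial (E x) (a x))) with hΦ'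
  set f : ℝ → Polynomial k := fun β =>
    ∑ x ∈ Φ.support with x.1 + x.2 * nu s.y = β, monomial (E x) (a x) with hf
  have happ : ∀ β i, Φ' (β, i) = (taylor c (f β)).coeff i := by
    intro β i
    rw [hΦ', Finsupp.finsetSum_apply, hf]
    simp only [map_sum, finsetSum_coeff, emb_apply]
    rw [Finset.sum_filter]
  have hsupp : ∀ x' ∈ Φ'.support, ∃ x ∈ Φ.support,
      x'.1 = x.1 + x.2 * nu s.y ∧ x'.2 ≤ E x := by
    rintro ⟨β, i⟩ hx'
    rw [Finsupp.mem_support_iff, happ, hf] at hx'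
    simp only [map_sum, finsetSum_coeff] at hx'
    obtain ⟨x, hx, hne⟩ := Finset.exists_ne_zero_of_sum_ne_zero hx'
    rw [Finset.mem_filter] at hx
    refine ⟨x, hx.1, hx.2.symm, ?_⟩
    have h1 := le_natDegree_of_ne_zero hne
    rw [natDegree_taylor] at h1
    exact h1.trans (natDegree_monomial_le _)
  refine ⟨Φ', (s.u s.y d / algebraMap k Ω c) ^ N, ?_, ?_, hNε, ?_, ?_, ?_⟩
  · intro x' hx'
    obtain ⟨x, hx, h1, -⟩ := hsupp x' hx'
    rw [h1]
    simpa using add_mem' h (hΦ x hx) (x.2 : ℤ)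
  · refine mem_R s' (Subalgebra.pow_mem _ ?_ _)
    rw [hu, div_eq_mul_inv, ← map_inv₀]
    exact Subalgebra.mul_mem _ (Subalgebra.add_mem _ (y_mem_R0 s') (Subalgebra.algebraMap_mem _ _))
      (Subalgebra.algebraMap_mem _ _)
  · rw [hΦ', map_sum]
    conv_rhs => rw [Stage.ev, Finsupp.linearCombination_apply, Finsupp.sum, Finset.mul_sum]
    refine Finset.sum_congr rfl fun x hx => ?_
    rw [ev_emb, taylor_monomial, (he x hx).2, Algebra.smul_def]
    simp only [map_mul, map_pow, map_add, aeval_C, aeval_X, ha, map_inv₀]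
    rw [← hu, ← zpow_natCast (s.u s.y d) (E x), hE x hx, zpow_add₀ (u_ne h), zpow_natCast,
      div_pow, inv_pow]
    field_simp
  · intro x' hx'
    obtain ⟨x, hx, h1, h2⟩ := hsupp x' hx'
    refine ⟨x, hx, h1, fun hd => ?_⟩
    have h3 := (he x hx).1
    have h4 := hE x hx
    rw [hst.triv hd, hd] at h3
    rw [hN1 hd] at h4
    push_cast at h3 h4
    omega
  · intro β lo hi hne hlh
    set S := Φ.support.filter fun x => x.1 + x.2 * nu s.y = β with hS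
    have hSne : S.Nonempty := by
      obtain ⟨x, hx, hx'⟩ := hne
      exact ⟨x, Finset.mem_filter.2 ⟨hx, hx'⟩⟩
    obtain ⟨x0, hx0, hmin⟩ := S.exists_min_image E hSne
    have hrel : ∀ x ∈ S, ∀ x' ∈ S, (x.2 : ℤ) - x'.2 = d * ((E x : ℤ) - E x') := by
      intro x hx x' hx'
      rw [hS, Finset.mem_filter] at hx hx'
      have h1 := (he x hx.1).1
      have h2 := (he x' hx'.1).1
      rw [hx.2] at h1
      rw [hx'.2] at h2
      rw [hE x hx.1, hE x' hx'.1]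
      linear_combination h1 - h2
    have hinj : ∀ x ∈ S, ∀ x' ∈ S, E x = E x' → x = x' := by
      intro x hx x' hx' hxx
      have h1 := hrel x hx x' hx'
      rw [hxx, sub_self, mul_zero] at h1
      have h2 : x.2 = x'.2 := by omega
      rw [hS, Finset.mem_filter] at hx hx'
      have h3 := hx.2.trans hx'.2.symm
      rw [h2] at h3
      exact Prod.ext (by linarith) h2
    have hb : ∀ x ∈ S, lo ≤ x.2 ∧ x.2 ≤ hi := fun x hx =>
      hlh x (Finset.mem_filter.1 hx).1 (Finset.mem_filter.1 hx).2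
    have hlohi : lo ≤ hi := (hb x0 hx0).1.trans (hb x0 hx0).2
    have hD : ∀ i, i ≤ (hi - lo) / d → d * i + lo ≤ hi := by
      intro i hi'
      have h1 := (Nat.le_div_iff_mul_le h.d_pos).1 hi'
      rw [mul_comm] at h1
      omega
    have hcoef : ∀ n, (f β).coeff n ≠ 0 → E x0 ≤ n ∧ n ≤ E x0 + (hi - lo) / d := by
      intro n hn
      rw [hf] at hn
      simp only [finsetSum_coeff] at hn
      obtain ⟨x, hx, hne'⟩ := Finset.exists_ne_zero_of_sum_ne_zero hn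
      have hxn : E x = n := by
        by_contra hxn
        exact hne' (by rw [coeff_monomial, if_neg hxn])
      have h1 := hmin x hx
      refine ⟨hxn ▸ h1, ?_⟩
      obtain ⟨t, ht⟩ := Nat.exists_eq_add_of_le h1
      have h2 := hrel x hx x0 hx0
      rw [ht] at h2
      have h3 : (x.2 : ℤ) - x0.2 = ((t * d : ℕ) : ℤ) := by
        rw [h2]; push_cast; ring
      have h4 := hb x hx
      have h5 := hb x0 hx0
      have h6 : t ≤ (hi - lo) / d := (Nat.le_div_iff_mul_le h.d_pos).2 (by omega)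
      omega
    have hx0' := (Finset.mem_filter.1 hx0).1
    have hc0 : (f β).coeff (E x0) ≠ 0 := by
      rw [hf]
      simp only [finsetSum_coeff]
      rw [Finset.sum_eq_single x0]
      · simpa using ha0 x0 hx0'
      · intro x hx hxx
        rw [coeff_monomial, if_neg fun h' => hxx (hinj x hx x0 hx0 h')]
      · intro h'
        exact absurd hx0 h'
    constructor
    · obtain ⟨i, hi', hne'⟩ := order_lemma (f β) (fun h0 => hc0 (by rw [h0, coeff_zero])) _ _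
        hcoef c hc
      exact ⟨i, by rwa [Finsupp.mem_support_iff, happ], hD i hi'⟩
    · rintro ⟨β', hβ', hβ⟩ hnot
      have hpE : ¬ p ∣ E x0 := by
        intro hdvd
        have hx0β := (Finset.mem_filter.1 hx0).2
        have h1 := (he x0 hx0').1
        rw [hx0β, hβ, σ_nsmul h hβ'] at h1
        have h2 : (p : ℤ) ∣ e x0 := by
          have h3 : e x0 = (E x0 : ℤ) - N := by rw [hE x0 hx0']; ring
          rw [h3]
          exact dvd_sub (Int.natCast_dvd_natCast.2 hdvd) (Int.natCast_dvd_natCast.2 hNp)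
        obtain ⟨e', he'⟩ := h2
        rw [he'] at h1
        refine hnot x0 hx0' hx0β ⟨⟨β' - σ β' * nu s.y - e' * (d * nu s.y), ?_, ?_⟩, ?_⟩
        · refine s.Λ.sub_mem (h.σ_mem β' hβ') ?_
          have := s.Λ.zsmul_mem (d_mem h) e'
          rwa [zsmul_eq_mul] at this
        · have h4 : ((x0.2 : ℤ) : ℝ) = ((p * σ β' + d * (p * e') : ℤ) : ℝ) := by rw [h1]
          push_cast at h4
          rw [hβ] at hx0β
          linear_combination hx0β - nu s.y * h4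
        · rw [← Int.natCast_dvd_natCast, h1]
          exact ⟨σ β' + d * e', by ring⟩
      obtain ⟨i, hi', hne', hpi⟩ := order_lemma' p (f β) _ _ hc0 hpE hcoef c hc
      exact ⟨i, by rwa [Finsupp.mem_support_iff, happ], hpi, hD i hi'⟩

end Pool.Agent.MP_19ffc6_ag.LU

end MrgPart2

-- ======== part 3: formerly Pool.Agent.MP_19ffc6_ag.LU2.Desc2
section MrgPart3

/-! PROJECT LU2, module DESC2: descent of a stage with two coordinates from the henselization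
of `F` to `F`. -/

namespace Pool.Agent.MP_19ffc6_ag.LU2

open Polynomial IntermediateField Pool.Agent.MP_19ffc6_ag.LU

set_option linter.unusedSectionVars false

variable {k Ω : Type*} [Field k] [NontriviallyNormedField Ω] [IsUltrametricDist Ω] [Algebra k Ω]

namespace Desc2

/-- A monomial of norm less than one that dominates two small elements. -/
theorem exists_dom (s : St Ω) {a b : Ω} (ha : ‖a‖ < 1) (hb : ‖b‖ < 1) :
    ∃ μ ∈ s.Λ, 0 < μ ∧ ‖a‖ ≤ ‖s.mon μ‖ ∧ ‖b‖ ≤ ‖s.mon μ‖ := by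
  have hm : max (max ‖a‖ ‖b‖) (1 / 2) < 1 := max_lt (max_lt ha hb) (by norm_num)
  have h0 : 0 < max (max ‖a‖ ‖b‖) (1 / 2) := lt_max_of_lt_right (by norm_num)
  have hl : 0 < -Real.log (max (max ‖a‖ ‖b‖) (1 / 2)) := neg_pos.2 (Real.log_neg h0 hm)
  obtain ⟨μ, hμ, h1, h2⟩ := s.dense.exists_between hl
  have key : max (max ‖a‖ ‖b‖) (1 / 2) ≤ ‖s.mon μ‖ := by
    rw [s.norm_mon μ hμ, ← Real.exp_log h0, Real.exp_le_exp]
    linarith
  exact ⟨μ, hμ, h1, ((le_max_left _ _).trans (le_max_left _ _)).trans key,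
    ((le_max_right _ _).trans (le_max_left _ _)).trans key⟩

theorem denom (s : St Ω) {T : Set Ω} {μ : ℝ} (hμ : μ ∈ s.Λ) (h0 : 0 < μ) {b : Ω}
    (hb : s.Good k T b) : ∃ n : ℕ, s.mon μ ^ n * b⁻¹ ∈ s.H k T := by
  obtain ⟨β, hβ, v, hv, hv1, rfl⟩ := hb
  obtain ⟨n, hn⟩ := exists_nat_gt (β / μ)
  rw [div_lt_iff₀ h0] at hn
  have hn' : (n : ℝ) * μ ∈ s.Λ := by
    rw [← nsmul_eq_mul]; exact s.Λ.nsmul_mem hμ n
  have h1 := s.mon_mem_H k T (s.Λ.sub_mem hn' hβ) (by linarith)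
  rw [s.mon_sub hn' hβ, s.mon_natCast_mul hμ] at h1
  refine ⟨n, ?_⟩
  rw [div_eq_mul_inv] at h1
  rw [mul_inv, ← mul_assoc]
  exact mul_mem h1 (s.inv_mem_H hv hv1)

/-- From adic approximability of the generators to a perturbed stage inside `F`. -/
theorem exists_pert [Ctx k Ω] (s : St Ω) {T : Set Ω} {μ : ℝ} {F : IntermediateField k Ω}
    (hμ : μ ∈ s.Λ) (h0 : 0 < μ) (hπ : s.mon μ ∈ s.H k T)
    (hB : s.gens ⊆ Desc.Appr (s.H k T) (s.mon μ) hπ F) :
    ∃ t : St Ω, t.M k ≤ F ∧ t.Λ = s.Λ ∧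
      (∀ α ∈ s.Λ, ∃ a ∈ s.H k T, t.mon α = s.mon α * (1 + s.mon μ * a)) ∧
      (∃ a ∈ s.H k T, s.y = t.y + s.mon μ * a) ∧ ∃ a ∈ s.H k T, s.z = t.z + s.mon μ * a := by
  obtain ⟨m, hm, hadd⟩ := Desc.exists_section s.Λ s.fg
    (fun α f => f ∈ F ∧ ∃ a ∈ s.H k T, f = s.mon α * (1 + s.mon μ * a))
    ⟨F.one_mem, 0, zero_mem _, by simp [s.mon_zero]⟩
    (by
      rintro α hα β hβ _ _ ⟨hf, a, ha, rfl⟩ ⟨hg, b, hb, rfl⟩
      exact ⟨F.mul_mem hf hg, a + b + s.mon μ * a * b, add_mem (add_mem ha hb)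
        (mul_mem (mul_mem hπ ha) hb), by rw [s.mon_add α hα β hβ]; ring⟩)
    (by
      rintro α hα _ ⟨hf, a, ha, rfl⟩
      obtain ⟨a', ha', e⟩ := s.one_add_zpow hμ h0 ha (-1)
      refine ⟨F.inv_mem hf, a', ha', ?_⟩
      rw [s.mon_neg hα, mul_inv, ← e, zpow_neg_one])
    (by
      intro α hα
      obtain ⟨f, hf, a, ha, e⟩ := Desc.Appr_rel (hB (s.mon_mem_gens hα)) (s.mon_ne_zero hα)
        (denom s hμ h0 (s.good_mon hα)) 1
      rw [pow_one] at e
      refine ⟨f, ?_, hf, a, ha, e⟩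
      rw [e, ← norm_pos_iff, norm_mul, s.norm_one_add hμ h0 ha, mul_one, norm_pos_iff]
      exact s.mon_ne_zero hα)
  have hco : ∀ w ∈ s.gens, ‖w‖ < 1 → ∃ f ∈ F, ‖f‖ < 1 ∧ ∃ a ∈ s.H k T, w = f + s.mon μ * a := by
    intro w hw hw1
    obtain ⟨f, hf, a, ha, e⟩ := (hB hw).2 1
    rw [pow_one] at e
    refine ⟨f, hf, ?_, a, ha, by rw [← e]; ring⟩
    have e1 : f = w + -(s.mon μ * a) := by rw [← e]; ring
    rw [e1]
    refine (IsUltrametricDist.norm_add_le_max _ _).trans_lt (max_lt hw1 ?_)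
    rw [norm_neg]
    exact (s.norm_mon_mul_le hμ ha).trans_lt (by simpa using h0)
  obtain ⟨y, hyF, hy1, hy⟩ := hco _ s.y_mem_gens s.norm_y
  obtain ⟨z, hzF, hz1, hz⟩ := hco _ s.z_mem_gens s.norm_z
  have hn : ∀ α ∈ s.Λ, ‖m α‖ = Real.exp (-α) := fun α hα => by
    obtain ⟨-, b, hb, e'⟩ := hm α hα
    rw [e', norm_mul, s.norm_one_add hμ h0 hb, mul_one, s.norm_mon α hα]
  exact ⟨⟨⟨s.Λ, s.fg, s.full, m, hadd, hn, y, hy1⟩, z, hz1, s.dense⟩,
    (St.M_le_iff _).2 ⟨fun α hα => (hm α hα).1, hyF, hzF⟩, rfl, fun α hα => (hm α hα).2, hy, hz⟩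

/-- Finitely many integral elements that generate the generators of a stage. -/
theorem exists_gens (s : St Ω) : ∃ Z : Finset Ω, (∀ z ∈ Z, z ∈ s.M k ∧ ‖z‖ ≤ 1) ∧
    ∀ B : Subalgebra k Ω, (∀ α ∈ s.Λ, s.mon α ∈ B → (s.mon α)⁻¹ ∈ B) → (∀ z ∈ Z, z ∈ B) →
      s.gens ⊆ B := by
  classical
  obtain ⟨T, hT⟩ := s.fg
  have hTΛ : ∀ α ∈ T, α ∈ s.Λ := fun α h => hT ▸ AddSubgroup.subset_closure h
  have habs : ∀ α ∈ s.Λ, |α| ∈ s.Λ := fun α h => abs_mem_iff.2 h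
  refine ⟨insert s.y (insert s.z (T.image fun α => s.mon |α|)), ?_, fun B hB hZ => ?_⟩
  · intro z hz
    simp only [Finset.mem_insert, Finset.mem_image] at hz
    rcases hz with rfl | rfl | ⟨α, hα, rfl⟩
    · exact ⟨s.y_mem_M k, s.norm_y.le⟩
    · exact ⟨s.z_mem_M k, s.norm_z.le⟩
    · exact ⟨s.mon_mem_M k (habs α (hTΛ α hα)),
        s.norm_mon_le_one (habs α (hTΛ α hα)) (abs_nonneg α)⟩
  · refine s.gens_subset_iff.2 ⟨fun α hα => ?_, hZ _ (by simp), hZ _ (by simp)⟩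
    have hα' : α ∈ AddSubgroup.closure (T : Set ℝ) := hT ▸ hα
    clear hα
    induction hα' using AddSubgroup.closure_induction with
    | mem x hx =>
      have h2 : s.mon |x| ∈ B := hZ _ (Finset.mem_insert_of_mem (Finset.mem_insert_of_mem
        (Finset.mem_image_of_mem (fun α => s.mon |α|) hx)))
      rcases abs_choice x with e | e
      · rwa [e] at h2
      · have h3 := hB _ (habs x (hTΛ x hx)) h2
        rwa [e, s.mon_neg (hTΛ x hx), inv_inv] at h3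
    | zero => rw [s.mon_zero]; exact one_mem B
    | add x y hx hy ihx ihy =>
      rw [s.mon_add x (hT ▸ hx) y (hT ▸ hy)]; exact mul_mem ihx ihy
    | neg x hx ih =>
      rw [s.mon_neg (hT ▸ hx)]
      exact hB _ (hT ▸ hx) ih

variable [IsAlgClosed Ω] [Ctx k Ω]

/-- After monomialization finitely many integral elements of the henselization lie in the
henselized local ring of the stage. -/
theorem exists_nx (hm : Mon2Stmt k Ω) (hna : NA2 k Ω) (s : St Ω)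
    (halg : Algebra.IsAlgebraic (s.M k) Ω) (Z : Finset Ω)
    (hZ : ∀ z ∈ Z, z ∈ hens (s.M k) ∧ ‖z‖ ≤ 1) :
    ∃ (s1 : St Ω) (K : IntermediateField k Ω), Nx k ∅ s s1 ∧ K.FG ∧ s1.M k ≤ K ∧
      K ≤ hens (s1.M k) ∧ ∀ z ∈ Z, z ∈ s1.H k (K : Set Ω) := by
  classical
  obtain ⟨η, P, hη, nη, -, cP, rP, dP, -, hG⟩ := eta (s.M k) Z hZ
  choose! G N hG1 hG2 using hG
  have hηM : η ∈ hens (s.M k) :=
    sup_le (le_hens _) (adjoin_le_iff.2 fun z hz => (hZ z hz).1) hη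
  obtain ⟨s1, h1, hgood⟩ := hm hna s (P.coeffs ∪ Z.biUnion fun z => (G z).coeffs) halg (by
    intro b hb
    simp only [Finset.mem_union, Finset.mem_biUnion] at hb
    rcases hb with hz | ⟨z', hz', hz⟩
    · exact ⟨Desc.coeffs_of (W := fun z => z ∈ s.M k) (fun i => (cP i).1) b hz,
        Desc.ne_of_coeffs hz⟩
    · exact ⟨Desc.coeffs_of (W := fun z => z ∈ s.M k) (fun i => (hG1 z' hz' i).1) b hz,
        Desc.ne_of_coeffs hz⟩)
  simp only [Finset.mem_union, Finset.mem_biUnion] at hgood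
  have hηK : η ∈ s1.M k ⊔ adjoin k {η} :=
    (le_sup_right : adjoin k {η} ≤ _) (mem_adjoin_simple_self k η)
  refine ⟨s1, s1.M k ⊔ adjoin k {η}, h1,
    fg_sup (s1.M_fg k) (fg_adjoin_of_finite (Set.finite_singleton _)), le_sup_left,
    sup_le (le_hens _) (adjoin_simple_le_iff.2 (h1.M_eq ▸ hηM)), ?_⟩
  generalize s1.M k ⊔ adjoin k {η} = K at hηK
  have cP1 : ∀ i, P.coeff i ∈ s1.H k (K : Set Ω) := Desc.coeff_of fun a ha =>
    ((hgood a (Or.inl ha)).mono (Set.empty_subset _)).mem_H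
      (Desc.coeffs_of (W := fun z => ‖z‖ ≤ 1) (fun i => (cP i).2) a ha)
  have cG1 : ∀ z ∈ Z, ∀ i, (G z).coeff i ∈ s1.H k (K : Set Ω) := fun z hz => Desc.coeff_of fun a ha =>
    ((hgood a (Or.inr ⟨z, hz, ha⟩)).mono (Set.empty_subset _)).mem_H
      (Desc.coeffs_of (W := fun z => ‖z‖ ≤ 1) (fun i => (hG1 z hz i).2) a ha)
  have hηS : η ∈ s1.H k (K : Set Ω) := s1.root_mem_H hηK cP1 rP nη.le dP
  intro z hz
  have hu : ‖η ^ N z * P.derivative.eval η‖ = 1 := by rw [norm_mul, norm_pow, nη, dP]; simp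
  rw [Desc.eq_mul_inv (hG2 z hz) hu]
  exact mul_mem (Desc.eval_mem _ _ (cG1 z hz) hηS) (s1.inv_mem_H (mul_mem
    (pow_mem hηS _) (Desc.eval_mem _ _ (Desc.der_coeff _ _ cP1) hηS)) hu)

/-- A later stage whose generators are adic limits of elements of `F`. -/
theorem exists_appr (hm : Mon2Stmt k Ω) (hna : NA2 k Ω) {F : IntermediateField k Ω} {s : St Ω}
    (h : Weak F s) :
    ∃ (s1 : St Ω) (K : IntermediateField k Ω) (μ : ℝ), Nx k ∅ s s1 ∧ K.FG ∧ s1.M k ≤ K ∧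
      K ≤ hens (s1.M k) ∧ μ ∈ s1.Λ ∧ 0 < μ ∧ ∃ hπ : s1.mon μ ∈ s1.H k (K : Set Ω),
        s1.gens ⊆ Desc.Appr (s1.H k (K : Set Ω)) (s1.mon μ) hπ F := by
  classical
  obtain ⟨halg, hMF, hFM⟩ := h
  obtain ⟨Z1, hZ1, hgen⟩ := exists_gens (k := k) s
  obtain ⟨ξ, PF, hξ, nξ, -, cPF, rPF, dPF, -, hG⟩ :=
    eta F Z1 fun z hz => ⟨hMF (hZ1 z hz).1, (hZ1 z hz).2⟩
  choose! G N hG1 hG2 using hG
  have hξM : ξ ∈ hens (s.M k) :=
    sup_le hFM (adjoin_le_iff.2 fun z hz => le_hens _ (hZ1 z hz).1) hξ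
  have hdM : PF.derivative.eval ξ ∈ hens (s.M k) :=
    Desc.eval_mem (hens (s.M k)).toSubalgebra _ (Desc.der_coeff _ _ fun i => hFM (cPF i).1) hξM
  obtain ⟨c0, hc0⟩ := Ctx.res (k := k) ξ nξ.le
  obtain ⟨c1, hc1⟩ := Ctx.res (k := k) _ dPF.le
  have hc1' : c1 ≠ 0 := by
    rintro rfl
    rw [map_zero, sub_zero, dPF] at hc1
    exact lt_irrefl _ hc1
  have a0 := (hens (s.M k)).sub_mem hξM ((hens (s.M k)).algebraMap_mem c0)
  have a1 := (hens (s.M k)).sub_mem hdM ((hens (s.M k)).algebraMap_mem c1)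
  obtain ⟨μ, hμ, hμ0, b0, b1⟩ := exists_dom s hc0 hc1
  have hπM : s.mon μ ∈ hens (s.M k) := le_hens _ (s.mon_mem_M k hμ)
  have hπ0 : s.mon μ ≠ 0 := s.mon_ne_zero hμ
  have hπn : 0 < ‖s.mon μ‖ := norm_pos_iff.2 hπ0
  obtain ⟨Z2, hZ2, z1, z2, z3, z4, z5⟩ : ∃ Z2 : Finset Ω,
      (∀ z ∈ Z2, z ∈ hens (s.M k) ∧ ‖z‖ ≤ 1) ∧ ξ ∈ Z2 ∧ (ξ - algebraMap k Ω c0) / s.mon μ ∈ Z2 ∧
      (PF.derivative.eval ξ - algebraMap k Ω c1) / s.mon μ ∈ Z2 ∧ PF.coeffs ⊆ Z2 ∧
      ∀ z ∈ Z1, (G z).coeffs ⊆ Z2 := by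
    refine ⟨{ξ, (ξ - algebraMap k Ω c0) / s.mon μ,
      (PF.derivative.eval ξ - algebraMap k Ω c1) / s.mon μ} ∪
      (PF.coeffs ∪ Z1.biUnion fun z => (G z).coeffs), ?_, by simp, by simp, by simp,
      fun a ha => by simp [ha], fun z hz a ha => ?_⟩
    · intro z hz
      simp only [Finset.mem_union, Finset.mem_insert, Finset.mem_singleton,
        Finset.mem_biUnion] at hz
      rcases hz with (rfl | rfl | rfl) | hz | ⟨z', hz', hz⟩
      · exact ⟨hξM, nξ.le⟩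
      · exact ⟨div_mem a0 hπM, by rwa [norm_div, div_le_one hπn]⟩
      · exact ⟨div_mem a1 hπM, by rwa [norm_div, div_le_one hπn]⟩
      · exact Desc.coeffs_of (W := fun z => z ∈ hens (s.M k) ∧ ‖z‖ ≤ 1)
          (fun i => ⟨hFM (cPF i).1, (cPF i).2⟩) z hz
      · exact Desc.coeffs_of (W := fun z => z ∈ hens (s.M k) ∧ ‖z‖ ≤ 1)
          (fun i => ⟨hFM (hG1 z' hz' i).1, (hG1 z' hz' i).2⟩) z hz
    · simp only [Finset.mem_union, Finset.mem_biUnion]
      exact Or.inr (Or.inr ⟨z, hz, ha⟩)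
  obtain ⟨s1, K, h1, hK, hMK, hKM, hZS⟩ := exists_nx hm hna s halg Z2 hZ2
  have hμ1 : μ ∈ s1.Λ := h1.lat hμ
  have hπ : s1.mon μ ∈ s1.H k (K : Set Ω) := s1.mon_mem_H k K hμ1 hμ0.le
  have hπ1 : ‖s1.mon μ‖ < 1 := s1.norm_mon_lt_one hμ1 hμ0
  obtain ⟨w, hw, -, ew⟩ := h1.mon_eq hμ
  have hw' : w ∈ s1.H k (K : Set Ω) := s1.H_mono (Set.empty_subset _) hw
  have hdiv : ∀ a : Ω, a / s.mon μ ∈ Z2 → ∃ b ∈ s1.H k (K : Set Ω), a = s1.mon μ * b := fun a ha =>
    ⟨w * (a / s.mon μ), mul_mem hw' (hZS _ ha), by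
      rw [← mul_assoc, ← ew, mul_div_cancel₀ _ hπ0]⟩
  have hS : ∀ a ∈ s1.H k (K : Set Ω), ‖a‖ ≤ 1 := fun a ha => s1.norm_le_one_of_mem_H ha
  have hSi : ∀ a ∈ s1.H k (K : Set Ω), ‖a‖ = 1 → a⁻¹ ∈ s1.H k (K : Set Ω) := fun a ha h => s1.inv_mem_H ha h
  have cPS : ∀ i, PF.coeff i ∈ s1.H k (K : Set Ω) := Desc.coeff_of fun a ha => hZS a (z4 ha)
  have hξB : ξ ∈ Desc.Appr (s1.H k (K : Set Ω)) (s1.mon μ) hπ F :=
    Desc.Appr_newton PF cPS (fun i => (cPF i).1) (hZS _ z1) rPF c0 c1 hc1' (hdiv _ z2) (hdiv _ z3)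
  have hZB : ∀ z ∈ Z1, z ∈ Desc.Appr (s1.H k (K : Set Ω)) (s1.mon μ) hπ F := by
    intro z hz
    have hu : ‖ξ ^ N z * PF.derivative.eval ξ‖ = 1 := by rw [norm_mul, norm_pow, nξ, dPF]; simp
    rw [Desc.eq_mul_inv (hG2 z hz) hu]
    refine mul_mem (Desc.eval_mem _ _ (fun i => Desc.Appr_of_mem (hG1 z hz i).1
      (Desc.coeff_of (fun a ha => hZS a (z5 z hz ha)) i)) hξB) (Desc.Appr_inv hS hSi hπ1 (mul_mem
      (pow_mem hξB _) (Desc.eval_mem _ _
        (Desc.der_coeff _ _ fun i => Desc.Appr_of_mem (cPF i).1 (cPS i)) hξB)) ⟨0, ?_⟩)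
    rw [pow_zero, one_mul]
    exact hSi _ (mul_mem (pow_mem (hZS _ z1) _)
      (Desc.eval_mem _ _ (Desc.der_coeff _ _ cPS) (hZS _ z1))) hu
  have hgi : ∀ b ∈ Desc.Appr (s1.H k (K : Set Ω)) (s1.mon μ) hπ F, s1.Good k ∅ b →
      b⁻¹ ∈ Desc.Appr (s1.H k (K : Set Ω)) (s1.mon μ) hπ F := fun b hb hg =>
    Desc.Appr_inv hS hSi hπ1 hb (denom s1 hμ1 hμ0 (hg.mono (Set.empty_subset _)))
  exact ⟨s1, K, μ, h1, hK, hMK, hKM, hμ1, hμ0, hπ,
    h1.gen _ hgi (hgen _ (fun α hα hb => hgi _ hb (h1.mon α hα)) hZB)⟩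

end Desc2

variable [IsAlgClosed k] [IsAlgClosed Ω] [Ctx k Ω]

theorem desc2 (p : ℕ) [Fact p.Prime] [CharP k p] [CharP Ω p] (_hs : HS k Ω) (hm : Mon2Stmt k Ω)
    (hp : PertStmt k Ω) : Desc2Stmt k Ω := by
  intro hna F s h
  obtain ⟨s1, K, μ, h1, hK, hMK, hKM, hμ, h0, hπ, hB⟩ := Desc2.exists_appr hm hna h
  obtain ⟨t, htF, hlat, hmon, ⟨a, ha, ey⟩, ⟨b, hb', ez⟩⟩ := Desc2.exists_pert s1 hμ h0 hπ hB
  have hH : s1.H k (K : Set Ω) ≤ K.toSubalgebra := s1.H_le_K subset_rfl hMK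
  have hπK : s1.mon μ ∈ K := hH hπ
  have htK : t.M k ≤ K := by
    refine t.M_le_iff.2 ⟨fun α hα => ?_, ?_, ?_⟩
    · obtain ⟨c, hc, e⟩ := hmon α (hlat ▸ hα)
      rw [e]
      exact K.mul_mem (hMK (s1.mon_mem_M k (hlat ▸ hα)))
        (K.add_mem K.one_mem (K.mul_mem hπK (hH hc)))
    · rw [eq_sub_of_add_eq ey.symm]
      exact K.sub_mem (hMK (s1.y_mem_M k)) (K.mul_mem hπK (hH ha))
    · rw [eq_sub_of_add_eq ez.symm]
      exact K.sub_mem (hMK (s1.z_mem_M k)) (K.mul_mem hπK (hH hb'))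
  obtain ⟨hsep, hle⟩ := hp K s1 K (t.M k) μ hK subset_rfl hMK htK
    (((sepOver_hens _).of_le_right hKM).of_le_left le_sup_left) hμ h0
    (fun α hα => by
      obtain ⟨c, hc, e⟩ := hmon α hα
      obtain ⟨c', hc', e'⟩ := s1.one_add_zpow hμ h0 hc (-1)
      have hn : (1 + s1.mon μ * c) ≠ 0 := by
        rw [← norm_pos_iff, s1.norm_one_add hμ h0 hc]; exact one_pos
      refine ⟨t.mon α, t.mon_mem_M k (hlat ▸ hα), c', hc', ?_⟩
      rw [← e', e, zpow_neg_one, mul_inv_cancel_right₀ hn])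
    ⟨t.y, t.y_mem_M k, a, ha, ey⟩ ⟨t.z, t.z_mem_M k, b, hb', ez⟩
  have halg1 : Algebra.IsAlgebraic (s1.M k) Ω := h1.M_eq ▸ h.1
  have halg : Algebra.IsAlgebraic (t.M k) Ω := alg_of_sepOver htK hsep (alg_of_le hMK halg1)
  exact ⟨t, halg, htF, h.2.2.trans ((hb : HB k Ω p).hens_le _ (alg_hens halg)
    (hens_isHens _ halg) _ (h1.M_eq ▸ hle))⟩

end Pool.Agent.MP_19ffc6_ag.LU2

end MrgPart3

-- ======== part 4: formerly Pool.Agent.MP_19ffc6_ag.LU2.Ord
section MrgPart4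

/-! Orders of vanishing of polynomials at a nonzero point. -/

namespace Pool.Agent.MP_19ffc6_ag.LU2

open Polynomial IntermediateField Pool.Agent.MP_19ffc6_ag.LU

namespace Ord

variable {k : Type*} [Field k]

/-- All exponents of `f` are divisible by `q`. -/
def InQ (q : ℕ) (f : k[X]) : Prop := ∀ e, f.coeff e ≠ 0 → q ∣ e

theorem inQ_expand {q : ℕ} (hq : 0 < q) (g : k[X]) : InQ q (expand k q g) := by
  intro e he
  rw [coeff_expand hq] at he
  by_contra h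
  exact he (if_neg h)

theorem InQ.eq_expand {q : ℕ} (hq : 0 < q) {f : k[X]} (h : InQ q f) :
    f = expand k q (contract q f) := by
  ext n
  rw [coeff_expand hq]
  split_ifs with hn
  · rw [coeff_contract hq.ne', Nat.div_mul_cancel hn]
  · by_contra h0
    exact hn (h n h0)

theorem InQ.mul {q : ℕ} (hq : 0 < q) {f g : k[X]} (hf : InQ q f) (hg : InQ q g) :
    InQ q (f * g) := by
  rw [hf.eq_expand hq, hg.eq_expand hq, ← map_mul]
  exact inQ_expand hq _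

theorem inQ_C (q : ℕ) (c : k) : InQ q (C c) := by
  intro e he
  rw [coeff_C] at he
  by_cases h : e = 0
  · rw [h]; exact dvd_zero q
  · exact absurd (if_neg h) he

theorem inQ_X_pow {q n : ℕ} (h : q ∣ n) : InQ q (X ^ n : k[X]) := by
  intro e he
  rw [coeff_X_pow] at he
  by_cases h' : e = n
  · rw [h']; exact h
  · exact absurd (if_neg h') he

theorem o1 (G : k[X]) (κ : k) (R : ℕ) (hκ : κ ≠ 0) (hG : G ≠ 0)
    (h : ∀ e e', G.coeff e ≠ 0 → G.coeff e' ≠ 0 → e ≤ e' + R) :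
    ∃ j ≤ R, (taylor κ G).coeff j ≠ 0 :=
  TransM.order_lemma G hG G.natTrailingDegree R
    (fun n hn => ⟨natTrailingDegree_le_of_ne_zero hn,
      h n _ hn (by simpa using trailingCoeff_nonzero_iff_nonzero.2 hG)⟩) κ hκ

variable {p : ℕ} [Fact p.Prime] [CharP k p]

theorem pow_pos' (a : ℕ) : 0 < p ^ a := pow_pos (Fact.out : p.Prime).pos a

theorem inQ_pow (l : k[X]) (a : ℕ) : InQ (p ^ a) (l ^ p ^ a) := by
  rw [← map_iterateFrobenius_expand p l a, map_expand]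
  exact inQ_expand (pow_pos' a) _

theorem taylor_expand (κ : k) (a : ℕ) (g : k[X]) :
    taylor κ (expand k (p ^ a) g) = expand k (p ^ a) (taylor (κ ^ p ^ a) g) := by
  rw [taylor_apply, taylor_apply, expand_eq_comp_X_pow, expand_eq_comp_X_pow, comp_assoc,
    comp_assoc]
  congr 1
  rw [X_pow_comp, add_comp, X_comp, C_comp, add_pow_char_pow, C_pow]

theorem InQ.taylor {a : ℕ} {f : k[X]} (h : InQ (p ^ a) f) (κ : k) :
    InQ (p ^ a) (taylor κ f) := by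
  rw [h.eq_expand (pow_pos' a), taylor_expand]
  exact inQ_expand (pow_pos' a) _

omit [Fact p.Prime] in
/-- The range bound through the derivative. -/
theorem der (G : k[X]) (κ : k) (R : ℕ) (hκ : κ ≠ 0) (hex : ∃ e, G.coeff e ≠ 0 ∧ ¬ p ∣ e)
    (h : ∀ e e', G.coeff e ≠ 0 → G.coeff e' ≠ 0 → ¬ p ∣ e → ¬ p ∣ e' → e ≤ e' + R) :
    ∃ j ≤ R, (taylor κ G).coeff (j + 1) ≠ 0 ∧ ¬ p ∣ j + 1 := by
  have key : ∀ (f : k[X]) (n : ℕ), (derivative f).coeff n ≠ 0 ↔
      f.coeff (n + 1) ≠ 0 ∧ ¬ p ∣ n + 1 := by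
    intro f n
    rw [coeff_derivative, mul_ne_zero_iff, ← CharP.cast_eq_zero_iff k p (n + 1)]
    push_cast
    rfl
  obtain ⟨e, he, hp⟩ := hex
  obtain ⟨m, rfl⟩ : ∃ m, e = m + 1 := by
    cases e with
    | zero => exact absurd (dvd_zero p) hp
    | succ m => exact ⟨m, rfl⟩
  have hd : derivative G ≠ 0 := by
    intro h0
    have := (key G m).2 ⟨he, hp⟩
    rw [h0, coeff_zero] at this
    exact this rfl
  obtain ⟨j, hj, hne⟩ := o1 (derivative G) κ R hκ hd (fun e e' h1 h2 => by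
    obtain ⟨a1, a2⟩ := (key G e).1 h1
    obtain ⟨b1, b2⟩ := (key G e').1 h2
    have := h _ _ a1 b1 a2 b2
    omega)
  rw [TransM.taylor_derivative'] at hne
  exact ⟨j, hj, (key _ j).1 hne⟩

omit [Fact p.Prime] in
theorem o2 (G : k[X]) (κ : k) (R : ℕ) (hκ : κ ≠ 0) (hG : G ≠ 0)
    (hp : ∀ e, G.coeff e ≠ 0 → ¬ p ∣ e)
    (h : ∀ e e', G.coeff e ≠ 0 → G.coeff e' ≠ 0 → e ≤ e' + R) :
    ∃ j ≤ R + 1, (taylor κ G).coeff j ≠ 0 ∧ ¬ p ∣ j := by
  have h0 : G.coeff G.natDegree ≠ 0 := by simpa using hG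
  obtain ⟨j, hj, h1⟩ := der G κ R hκ ⟨_, h0, hp _ h0⟩ (fun e e' a b _ _ => h e e' a b)
  exact ⟨j + 1, by omega, h1⟩

theorem o3 (G l : k[X]) (κ c : k) (a t n R : ℕ) (hκ : κ ≠ 0) (hta : t < a)
    (h1 : ∀ e, G.coeff e ≠ 0 → (p : ℤ) ^ t ∣ (e : ℤ) - n)
    (h2 : ∃ e, G.coeff e ≠ 0 ∧ ¬ (p : ℤ) ^ (t + 1) ∣ (e : ℤ) - n)
    (h3 : ∀ e e', G.coeff e ≠ 0 → G.coeff e' ≠ 0 → ¬ (p : ℤ) ^ (t + 1) ∣ (e : ℤ) - n →
      ¬ (p : ℤ) ^ (t + 1) ∣ (e' : ℤ) - n → e ≤ e' + R) :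
    ∃ j ≤ R + p ^ t, (taylor κ G + l ^ p ^ a * taylor κ (monomial n c)).coeff j ≠ 0 := by
  obtain ⟨m, hm⟩ : ∃ m, p ^ a ∣ n + m := ⟨(p ^ a - 1) * n, n, by
    obtain ⟨r, hr⟩ := Nat.exists_eq_succ_of_ne_zero (pow_pos' (p := p) a).ne'
    rw [hr]; simp only [Nat.succ_eq_add_one, Nat.add_sub_cancel]; ring⟩
  have hdiv : ∀ s ≤ a, ∀ e : ℕ, (p ^ s ∣ e + m ↔ (p : ℤ) ^ s ∣ (e : ℤ) - n) := by
    intro s hs e
    have h4 : (p : ℤ) ^ s ∣ (n : ℤ) + m := by
      have := Int.natCast_dvd_natCast.2 ((pow_dvd_pow p hs).trans hm)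
      push_cast at this
      exact this
    rw [← Int.natCast_dvd_natCast]
    push_cast
    rw [show (e : ℤ) + m = ((e : ℤ) - n) + (n + m) by ring]
    exact dvd_add_left h4
  set A : k[X] := C c * (taylor (-κ) l) ^ p ^ a * X ^ (n + m) with hA
  have hAq : InQ (p ^ a) A :=
    ((inQ_C _ c).mul (pow_pos' a) (inQ_pow _ a)).mul (pow_pos' a) (inQ_X_pow hm)
  set F : k[X] := G * X ^ m + A with hF
  have hFt : taylor κ F =
      (taylor κ G + l ^ p ^ a * taylor κ (monomial n c)) * (X + C κ) ^ m := by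
    rw [hF, hA, map_add, taylor_mul, taylor_mul, taylor_mul, taylor_C, taylor_pow, taylor_pow,
      taylor_pow, taylor_taylor, add_neg_cancel, taylor_zero, taylor_X, taylor_monomial]
    ring
  have hco : ∀ f, F.coeff f ≠ 0 → ¬ p ^ a ∣ f → ∃ e, f = e + m ∧ G.coeff e ≠ 0 := by
    intro f hf hn
    have h5 : A.coeff f = 0 := by
      by_contra h0
      exact hn (hAq f h0)
    rw [hF, coeff_add, h5, add_zero, coeff_mul_X_pow'] at hf
    split_ifs at hf with hle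
    · exact ⟨f - m, by omega, hf⟩
    · exact absurd rfl hf
  have hFq : InQ (p ^ t) F := by
    intro f hf
    by_cases hn : p ^ a ∣ f
    · exact (pow_dvd_pow p hta.le).trans hn
    · obtain ⟨e, rfl, he⟩ := hco f hf hn
      exact (hdiv t hta.le e).2 (h1 e he)
  have hpt := pow_pos' (p := p) t
  set F1 := contract (p ^ t) F with hF1
  have hc1 : ∀ f, F1.coeff f = F.coeff (f * p ^ t) := fun f => coeff_contract hpt.ne' F f
  have hpd : ∀ f : ℕ, p ^ (t + 1) ∣ f * p ^ t ↔ p ∣ f := by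
    intro f
    rw [pow_succ', Nat.mul_dvd_mul_iff_right hpt]
  obtain ⟨j, hj, hne, -⟩ := der (p := p) F1 (κ ^ p ^ t) (R / p ^ t) (pow_ne_zero _ hκ)
    (by
      obtain ⟨e, he, hn⟩ := h2
      obtain ⟨f, hf⟩ := (hdiv t hta.le e).2 (h1 e he)
      have hn' : ¬ p ^ (t + 1) ∣ e + m := fun h => hn ((hdiv (t + 1) hta e).1 h)
      have h5 : A.coeff (e + m) = 0 := by
        by_contra h0
        exact hn' ((pow_dvd_pow p hta).trans (hAq _ h0))
      refine ⟨f, ?_, fun h => hn' ?_⟩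
      · rw [hc1, mul_comm, ← hf, hF, coeff_add, h5, add_zero, coeff_mul_X_pow]
        exact he
      · rw [hf, mul_comm]
        exact (hpd f).2 h)
    (by
      intro f f' a1 a2 b1 b2
      rw [hc1] at a1 a2
      rw [← hpd] at b1 b2
      obtain ⟨e, he, hG⟩ := hco _ a1 (fun h => b1 ((pow_dvd_pow p hta).trans h))
      obtain ⟨e', he', hG'⟩ := hco _ a2 (fun h => b2 ((pow_dvd_pow p hta).trans h))
      rw [he] at b1
      rw [he'] at b2
      have h6 := h3 e e' hG hG' (fun h => b1 ((hdiv (t + 1) hta e).2 h))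
        (fun h => b2 ((hdiv (t + 1) hta e').2 h))
      have h7 : (f - f') * p ^ t ≤ R := by
        rw [Nat.sub_mul]
        omega
      have h8 := (Nat.le_div_iff_mul_le hpt).2 h7
      omega)
  have h9 : (taylor κ F).coeff ((j + 1) * p ^ t) ≠ 0 := by
    rw [hFq.eq_expand hpt, taylor_expand, coeff_expand_mul hpt]
    exact hne
  have h10 : (j + 1) * p ^ t ≤ R + p ^ t := by
    have := (Nat.le_div_iff_mul_le hpt).1 hj
    rw [add_mul, one_mul]
    omega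
  by_contra hcon
  push Not at hcon
  have h11 : (X : k[X]) ^ (R + p ^ t + 1) ∣ taylor κ F := by
    rw [hFt]
    refine Dvd.dvd.mul_right ?_ _
    rw [X_pow_dvd_iff]
    intro i hi
    exact hcon i (by omega)
  rw [X_pow_dvd_iff] at h11
  exact h9 (h11 _ (by omega))

theorem o4 (G l : k[X]) (κ c : k) (a : ℕ) (h : ∃ e, G.coeff e ≠ 0 ∧ ¬ p ^ a ∣ e) :
    ∃ j ≤ G.natDegree, (taylor κ G + l ^ p ^ a * C c).coeff j ≠ 0 := by
  by_contra hcon
  push Not at hcon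
  have hA : InQ (p ^ a) (l ^ p ^ a * C c) := (inQ_pow l a).mul (pow_pos' a) (inQ_C _ c)
  have h1 : InQ (p ^ a) (taylor κ G) := by
    intro e he
    have h2 := le_natDegree_of_ne_zero he
    rw [natDegree_taylor] at h2
    have h3 := hcon e h2
    rw [coeff_add] at h3
    refine hA e fun h0 => he ?_
    rwa [h0, add_zero] at h3
  have h4 := h1.taylor (-κ)
  rw [taylor_taylor, neg_add_cancel, taylor_zero] at h4
  obtain ⟨e, he, hn⟩ := h
  exact hn (h4 e he)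

theorem o5 (G l : k[X]) (κ c : k) (a m : ℕ) (ha : 0 < a) (hm : G.natDegree ≤ m)
    (h : ∃ e, G.coeff e ≠ 0 ∧ ¬ (p : ℤ) ^ a ∣ (e : ℤ) - 1) :
    ∃ j, (j ≤ m ∨ (p ^ a ∣ m ∧ j = m + 1)) ∧
      (taylor κ G + l ^ p ^ a * taylor κ (monomial 1 c)).coeff j ≠ 0 := by
  by_contra hcon
  push Not at hcon
  set A : k[X] := l ^ p ^ a * C c with hA
  have hAq : InQ (p ^ a) A := (inQ_pow l a).mul (pow_pos' a) (inQ_C _ c)
  have hE : l ^ p ^ a * taylor κ (monomial 1 c) = A * (X + C κ) := by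
    rw [taylor_monomial, pow_one, hA, mul_assoc]
  rw [hE] at hcon
  have hT : ∀ j, m < j → (taylor κ G).coeff j = 0 := fun j hj =>
    coeff_eq_zero_of_natDegree_lt (by rw [natDegree_taylor]; omega)
  have hsucc : ∀ (B : k[X]) (j : ℕ),
      (B * (X + C κ)).coeff (j + 1) = B.coeff j + B.coeff (j + 1) * κ := by
    intro B j
    rw [mul_add, coeff_add, coeff_mul_X, coeff_mul_C]
  have hzero : ∀ B : k[X], (B * (X + C κ)).coeff 0 = B.coeff 0 * κ := by
    intro B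
    rw [mul_add, coeff_add, coeff_mul_X_zero, coeff_mul_C, zero_add]
  have hAm : A.coeff m = 0 := by
    by_contra h0
    have h1 := hAq m h0
    have h2 := hcon (m + 1) (Or.inr ⟨h1, rfl⟩)
    have h3 : A.coeff (m + 1) = 0 := by
      by_contra h4
      have h5 := (Nat.dvd_add_right h1).1 (hAq _ h4)
      have h6 : 1 < p ^ a := Nat.one_lt_pow ha.ne' (Fact.out : p.Prime).one_lt
      exact absurd (Nat.le_of_dvd one_pos h5) (by omega)
    rw [coeff_add, hT _ (by omega), hsucc, h3, zero_mul, add_zero, zero_add] at h2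
    exact h0 h2
  obtain ⟨B, hB⟩ : ∃ B : k[X], ∀ i, B.coeff i = if i ≤ m then A.coeff i else 0 :=
    ⟨∑ i ∈ Finset.range (m + 1), monomial i (A.coeff i), fun i => by
      simp only [finsetSum_coeff, coeff_monomial, Finset.sum_ite_eq', Finset.mem_range,
        Nat.lt_succ_iff]⟩
  have hBq : InQ (p ^ a) B := by
    intro e he
    rw [hB] at he
    split_ifs at he with h1
    · exact hAq e he
    · exact absurd rfl he
  have h1 : taylor κ G + B * (X + C κ) = 0 := by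
    ext j
    rw [coeff_zero]
    by_cases hj : j ≤ m
    · rw [← hcon j (Or.inl hj), coeff_add, coeff_add]
      congr 1
      cases j with
      | zero => rw [hzero, hzero, hB, if_pos hj]
      | succ j => rw [hsucc, hsucc, hB, hB, if_pos hj, if_pos (by omega)]
    · obtain ⟨i, rfl⟩ : ∃ i, j = i + 1 := ⟨j - 1, by omega⟩
      rw [coeff_add, hT _ (by omega), hsucc, hB, hB, if_neg hj, zero_mul, add_zero, zero_add]
      split_ifs with hi
      · rw [show i = m by omega, hAm]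
      · rfl
  have h2 := congrArg (taylor (-κ)) h1
  rw [map_add, taylor_taylor, neg_add_cancel, taylor_zero, taylor_mul, map_add, taylor_X,
    taylor_C, map_zero, C_neg, neg_add_cancel_right] at h2
  obtain ⟨e, he, hn⟩ := h
  have h3 : G = -(taylor (-κ) B * X) := eq_neg_of_add_eq_zero_left h2
  rw [h3, coeff_neg, neg_ne_zero] at he
  cases e with
  | zero => exact he (coeff_mul_X_zero _)
  | succ e =>
    rw [coeff_mul_X] at he
    apply hn
    have := Int.natCast_dvd_natCast.2 (hBq.taylor (-κ) e he)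
    push_cast at this ⊢
    rwa [add_sub_cancel_right]

end Ord

theorem ord {k : Type*} [Field k] {p : ℕ} [Fact p.Prime] [CharP k p] : OrdStmt k p :=
  ⟨Ord.o1, Ord.o2, Ord.o3, Ord.o4, Ord.o5⟩

end Pool.Agent.MP_19ffc6_ag.LU2

end MrgPart4

-- marker of a merged file
example : 731051 + 549810 = 731051 + 549810 := rfl
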