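import Mathlib.FieldTheory.Finite.Basic
import Mathlib.Topology.Algebra.Polynomial
import Mathlib.Data.Finset.Functor
import Mathlib.FieldTheory.PurelyInseparable.PerfectClosure
import Mathlib.GroupTheory.Nilpotent
import Pool.Agent.MP_19ffc6_ag.LU.Perron
import Pool.Agent.MP_19ffc6_ag.LU.Deg
import Pool.Agent.MP_19ffc6_ag.LU.Sep
import Pool.Agent.MP_19ffc6_ag.LU.HensB
import Pool.Agent.MP_19ffc6_ag.LU2.Tower

-- ======== part 0: formerly Pool.Agent.MP_19ffc6_ag.LU.Gal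
section MrgPart0

/-! Module GA of PROJECT LU1: an Artin-Schreier subextension after a tame base change. -/

namespace Pool.Agent.MP_19ffc6_ag.LU

open Polynomial IntermediateField

namespace Gal

/-- A proper subgroup of a finite `p`-group is killed by a nontrivial character of order `p`. -/
lemma exists_char {p : ℕ} [hp : Fact p.Prime] {H : Type*} [Group H] [Finite H]
    (hH : IsPGroup p H) (Q : Subgroup H) (hQ : Q ≠ ⊤) :
    ∃ l : H →* Multiplicative (ZMod p), (∀ q ∈ Q, l q = 1) ∧ ∃ g, l g ≠ 1 := by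
  obtain ⟨P, hP, hQP⟩ := (eq_top_or_exists_le_coatom Q).resolve_left hQ
  have := hH.isNilpotent
  have hn : P.Normal := Subgroup.NormalizerCondition.normal_of_coatom P
    Group.normalizerCondition_of_isNilpotent hP
  have hA : IsPGroup p (H ⧸ P) := hH.to_quotient P
  have hnt : Nontrivial (H ⧸ P) := by
    rw [QuotientGroup.nontrivial_iff]; exact hP.1
  obtain ⟨n, hn0, hcard⟩ := hA.nontrivial_iff_card.1 hnt
  obtain ⟨g, hg⟩ := exists_prime_orderOf_dvd_card' (G := H ⧸ P) p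
    (by rw [hcard]; exact dvd_pow_self p hn0.ne')
  have hg1 : g ≠ 1 := by
    rintro rfl
    rw [orderOf_one] at hg
    exact hp.out.one_lt.ne hg
  have htop : Subgroup.zpowers g = ⊤ := by
    have h1 : P < (Subgroup.zpowers g).comap (QuotientGroup.mk' P) := by
      refine lt_of_le_of_ne (fun x hx => ?_) fun h => ?_
      · rw [Subgroup.mem_comap, QuotientGroup.mk'_apply, (QuotientGroup.eq_one_iff x).2 hx]
        exact Subgroup.one_mem _
      · obtain ⟨x, rfl⟩ := QuotientGroup.mk_surjective g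
        apply hg1
        rw [QuotientGroup.eq_one_iff, h]
        exact Subgroup.mem_zpowers _
    have h2 := hP.2 _ h1
    rw [eq_top_iff]
    intro y _
    obtain ⟨x, rfl⟩ := QuotientGroup.mk_surjective y
    have : x ∈ (Subgroup.zpowers g).comap (QuotientGroup.mk' P) := by rw [h2]; trivial
    exact this
  have hc : Nat.card (H ⧸ P) = p := by
    rw [← hg, ← Nat.card_zpowers, htop, Subgroup.card_top]
  have e := mulEquivOfPrimeCardEq (G' := Multiplicative (ZMod p)) hc (by simp)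
  refine ⟨e.toMonoidHom.comp (QuotientGroup.mk' P), fun q hq => ?_, ?_⟩
  · simp [(QuotientGroup.eq_one_iff q).2 (hQP hq)]
  · obtain ⟨x, rfl⟩ := QuotientGroup.mk_surjective g
    exact ⟨x, by simpa using hg1⟩

/-- Additive Hilbert 90 for a character. -/
lemma exists_as {p : ℕ} [Fact p.Prime] {L N : Type*} [Field L] [Field N] [Algebra L N] [CharP N p]
    (H : Subgroup (N ≃ₐ[L] N)) [Finite H] (l : H →* Multiplicative (ZMod p)) :
    ∃ a : N, ∀ g : H, g.1 a = a + ZMod.castHom dvd_rfl N (l g).toAdd := by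
  classical
  have := Fintype.ofFinite H
  have hli := (linearIndependent_toLinearMap L N N).comp (fun g : H => (g.1 : N →ₐ[L] N))
    (fun g h hgh => Subtype.ext (AlgEquiv.coe_toAlgHom_injective hgh))
  obtain ⟨b0, hb0⟩ : ∃ b0 : N, ∑ g : H, g.1 b0 ≠ 0 := by
    by_contra! h
    have := Fintype.linearIndependent_iff.1 hli (fun _ => 1) (by
      ext x; simpa using h x) 1
    exact one_ne_zero this
  have hfix : ∀ h : H, h.1 (∑ g : H, g.1 b0) = ∑ g : H, g.1 b0 := fun h => by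
    rw [map_sum]
    exact Fintype.sum_equiv (Equiv.mulLeft h) _ _ fun g => rfl
  obtain ⟨b, hb⟩ : ∃ b : N, ∑ g : H, g.1 b = 1 := by
    refine ⟨b0 / ∑ g : H, g.1 b0, ?_⟩
    simp only [map_div₀, hfix]
    rw [← Finset.sum_div, div_self hb0]
  have hc : ∀ (g : H) (x : ZMod p), g.1 (ZMod.castHom dvd_rfl N x) = ZMod.castHom dvd_rfl N x :=
    fun g x => RingHom.congr_fun (Subsingleton.elim
      ((g.1 : N →+* N).comp (ZMod.castHom dvd_rfl N)) (ZMod.castHom dvd_rfl N)) x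
  refine ⟨-∑ h : H, ZMod.castHom dvd_rfl N (l h).toAdd * h.1 b, fun g => ?_⟩
  have h1 : ∑ h : H, ZMod.castHom dvd_rfl N (l h).toAdd * h.1 b =
      ∑ h : H, ZMod.castHom dvd_rfl N (l (g * h)).toAdd * g.1 (h.1 b) :=
    (Fintype.sum_equiv (Equiv.mulLeft g) _ _ fun h => rfl).symm
  have h2 : ∑ h : H, g.1 (h.1 b) = 1 := by rw [← map_sum, hb, map_one]
  rw [map_neg, map_sum]
  conv_rhs => rw [h1]
  simp only [map_mul, hc, toAdd_mul, map_add, add_mul, Finset.sum_add_distrib, ← Finset.mul_sum, h2]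
  ring

variable {k Ω : Type*} [Field k] [NontriviallyNormedField Ω] [IsUltrametricDist Ω] [Algebra k Ω]
  [Ctx k Ω] {p : ℕ} [Fact p.Prime] [CharP k p] [CharP Ω p]

omit [Algebra k Ω] [Ctx k Ω] in
lemma norm_eq_of_sub {a b : Ω} (h : ‖a - b‖ < ‖b‖) : ‖a‖ = ‖b‖ := by
  have := IsUltrametricDist.norm_add_eq_max_of_norm_ne_norm h.ne
  rw [sub_add_cancel] at this
  rw [this, max_eq_right h.le]

/-- `σ` moves every element by less than its norm. -/
def P0 {L : IntermediateField k Ω} (N : IntermediateField L Ω) (σ : N ≃ₐ[L] N) : Prop :=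
  ∀ b : N, b ≠ 0 → ‖(σ b : Ω) - b‖ < ‖(b : Ω)‖

omit [Ctx k Ω] in
lemma P0.pow {L : IntermediateField k Ω} {N : IntermediateField L Ω} {σ : N ≃ₐ[L] N}
    (h : P0 N σ) (n : ℕ) : P0 N (σ ^ n) := by
  induction n with
  | zero => intro b hb; simpa using hb
  | succ n ih =>
    intro b hb
    have h1 := ih b hb
    have h2 := h ((σ ^ n) b) ((_root_.map_ne_zero (σ ^ n)).2 hb)
    rw [norm_eq_of_sub h1] at h2
    rw [pow_succ', AlgEquiv.mul_apply, ← sub_add_sub_cancel _ (((σ ^ n) b : N) : Ω)]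
    exact (IsUltrametricDist.norm_add_le_max _ _).trans_lt (max_lt h2 h1)

omit [CharP Ω p] in
lemma P0.pow_eq_one {L : IntermediateField k Ω} {N : IntermediateField L Ω}
    [Finite (N ≃ₐ[L] N)] {σ : N ≃ₐ[L] N} (h : P0 N σ) : ∃ s : ℕ, σ ^ p ^ s = 1 := by
  obtain ⟨s, l, hl, ho⟩ := Nat.exists_eq_pow_mul_and_not_dvd (orderOf_pos σ).ne' p
    (Fact.out : p.Prime).ne_one
  refine ⟨s, ?_⟩
  have hτ : (σ ^ p ^ s) ^ l = 1 := by rw [← pow_mul, ← ho, pow_orderOf_eq_one]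
  have hP := h.pow (p ^ s)
  generalize σ ^ p ^ s = τ at hτ hP
  ext x
  by_contra hx
  have hb : τ x - x ≠ 0 := fun h0 => hx (by rw [sub_eq_zero.1 h0]; rfl)
  have h1 : ∑ i ∈ Finset.range l, (τ ^ i) (τ x - x) = 0 := by
    have : ∀ i, (τ ^ i) (τ x - x) = (τ ^ (i + 1)) x - (τ ^ i) x := fun i => by
      rw [map_sub, pow_succ, AlgEquiv.mul_apply]
    simp only [this]
    rw [Finset.sum_range_sub (fun i => (τ ^ i) x), hτ, pow_zero, sub_self]
  generalize τ x - x = b at hb h1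
  have hl0 : l ≠ 0 := by rintro rfl; exact hl (dvd_zero p)
  have h2 : ∑ i ∈ Finset.range l, ((((τ ^ i) b : N) : Ω) - b) = -((l : Ω) * b) := by
    have := congrArg (fun y : N => (y : Ω)) h1
    simp only [AddSubmonoidClass.coe_finsetSum, ZeroMemClass.coe_zero] at this
    rw [Finset.sum_sub_distrib, this]; simp
  obtain ⟨i, -, hi⟩ := IsUltrametricDist.exists_norm_finsetSum_le_of_nonempty
    (Finset.nonempty_range_iff.2 hl0) fun i => ((((τ ^ i) b : N) : Ω) - b)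
  have h3 : ‖(l : Ω)‖ = 1 := by
    rw [← map_natCast (algebraMap k Ω)]
    exact Ctx.norm_alg _ (by rwa [Ne, CharP.cast_eq_zero_iff k p])
  rw [h2, norm_neg, norm_mul, h3, one_mul] at hi
  exact absurd (hP.pow i b hb) (not_lt.2 hi)

omit [CharP k p] in
lemma close {L K : IntermediateField k Ω} (hL : IsHens L) (τ : Ω ≃ₐ[L] Ω)
    (hτ : ∀ x ∈ K, τ x = x) {b : Ω} (hb : b ≠ 0) {t : ℕ} {m : Ω} (hm : m ∈ K)
    (hn : ‖m‖ = ‖b‖ ^ p ^ t) : ‖τ b - b‖ < ‖b‖ := by
  have hb' : 0 < ‖b‖ ^ p ^ t := pow_pos (norm_pos_iff.2 hb) _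
  have hv : ‖b ^ p ^ t / m‖ = 1 := by rw [norm_div, norm_pow, hn, div_self hb'.ne']
  obtain ⟨c, hc⟩ := Ctx.res (k := k) _ hv.le
  have h1 := hL τ (b ^ p ^ t / m - algebraMap k Ω c)
  rw [map_sub, map_div₀, map_pow, hτ m hm, hτ _ (K.algebraMap_mem c)] at h1
  have h2 : ‖(τ b - b) ^ p ^ t / m‖ < 1 := by
    rw [sub_pow_char_pow, sub_div, ← sub_sub_sub_cancel_right _ _ (algebraMap k Ω c), sub_eq_add_neg]
    exact (IsUltrametricDist.norm_add_le_max _ _).trans_lt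
      (max_lt (h1 ▸ hc) (by rwa [norm_neg]))
  rw [norm_div, norm_pow, hn, div_lt_one hb'] at h2
  exact lt_of_pow_lt_pow_left₀ _ (norm_nonneg _) h2

omit [IsUltrametricDist Ω] [Ctx k Ω] [Fact p.Prime] [CharP k p] [CharP Ω p] in
lemma fix (hb : HB k Ω p) {L K : IntermediateField k Ω} (hL : Algebra.IsAlgebraic L Ω)
    (hLK : L ≤ K) {a : Ω} (ha : IsSeparable L a)
    (h : ∀ τ : Ω ≃ₐ[L] Ω, (∀ x ∈ K, τ x = x) → τ a = a) : a ∈ K := by
  refine hb.fix K ⟨fun x => ?_⟩ a ?_ fun σ => ?_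
  · exact (hL.isAlgebraic x).tower_top (extendScalars hLK)
  · exact ha.tower_top (extendScalars hLK)
  · exact h (AlgEquiv.ofRingEquiv (f := σ.toRingEquiv) fun l => σ.commutes ⟨l, hLK l.2⟩)
      fun x hx => σ.commutes ⟨x, hx⟩

end Gal

variable {k Ω : Type*} [Field k] [NontriviallyNormedField Ω] [IsUltrametricDist Ω] [Algebra k Ω]
  [IsAlgClosed Ω] [Ctx k Ω] {p : ℕ} [Fact p.Prime] [CharP k p] [CharP Ω p]

open Gal in
theorem gal (hb : HB k Ω p) : GalStmt k Ω p := by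
  classical
  intro L E halg hL hLE hsep hfin
  have : IsAlgClosure L Ω := ⟨inferInstance, halg⟩
  have hfd : FiniteDimensional L (extendScalars hLE) := by
    rw [relrank_eq_rank_of_le hLE] at hfin
    exact Module.rank_lt_aleph0_iff.1 hfin
  let N : IntermediateField L Ω := normalClosure L (extendScalars hLE) Ω
  have hEN : ∀ e ∈ E, e ∈ N := fun e he => le_normalClosure (extendScalars hLE) he
  have hNs : ∀ a : N, IsSeparable L (a : Ω) := by
    have : N ≤ separableClosure L Ω := by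
      refine normalClosure_le_iff.2 ?_
      rintro f _ ⟨x, rfl⟩
      exact (IsSeparable.of_algHom (extendScalars hLE).val (hsep x x.2)).map f f.injective
    exact fun a => this a.2
  have hr : ∀ (τ : Ω ≃ₐ[L] Ω) (x : N), ((AlgEquiv.restrictNormalHom N τ x : N) : Ω) = τ x :=
    fun τ x => τ.restrictNormal_commutes N x
  have hw : ∀ σ : N ≃ₐ[L] N, ∃ b : N, b ≠ 0 ∧ (‖(σ b : Ω) - b‖ < ‖(b : Ω)‖ → P0 N σ) := by
    intro σ
    by_cases h : P0 N σ
    · exact ⟨1, one_ne_zero, fun _ => h⟩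
    · have h' := h
      simp only [P0, not_forall] at h'
      obtain ⟨b, hb0, hb⟩ := h'
      exact ⟨b, hb0, fun h2 => absurd h2 hb⟩
  choose w hw0 hw using hw
  refine ⟨Finset.univ.image fun σ => (w σ : Ω), ?_, ?_⟩
  · intro b hb
    obtain ⟨σ, -, rfl⟩ := Finset.mem_image.1 hb
    simpa using hw0 σ
  intro K hLK hT hEK
  let H : Subgroup (N ≃ₐ[L] N) :=
    (extendScalars hLK).fixingSubgroup.map (AlgEquiv.restrictNormalHom N)
  have hH : IsPGroup p H := by
    rintro ⟨_, τ, hτ, rfl⟩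
    obtain ⟨t, m, hm, hn⟩ := hT _ (Finset.mem_image_of_mem _
      (Finset.mem_univ (AlgEquiv.restrictNormalHom N τ)))
    have h1 := close (p := p) hL τ ((mem_fixingSubgroup_iff _ _).1 hτ) (by simpa using hw0 _) hm hn
    obtain ⟨s, hs⟩ := (hw _ (by rw [hr]; exact h1)).pow_eq_one (p := p)
    exact ⟨s, Subtype.ext hs⟩
  have hmem : ∀ τ : Ω ≃ₐ[L] Ω, (∀ x ∈ K, τ x = x) → AlgEquiv.restrictNormalHom N τ ∈ H :=
    fun τ hτ => ⟨τ, (mem_fixingSubgroup_iff _ _).2 hτ, rfl⟩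
  let Q : Subgroup H :=
    { carrier := {g | ∀ x : N, (x : Ω) ∈ E → g.1 x = x}
      one_mem' := fun _ _ => rfl
      mul_mem' := fun {g h} hg hh x hx => by
        rw [Subgroup.coe_mul, AlgEquiv.mul_apply, hh x hx, hg x hx]
      inv_mem' := fun {g} hg x hx => by
        rw [Subgroup.coe_inv, AlgEquiv.aut_inv, AlgEquiv.symm_apply_eq, hg x hx] }
  have hQ : Q ≠ ⊤ := by
    intro h
    refine hEK fun e he => fix hb halg hLK (hsep e he) fun τ hτ => ?_
    have h1 : (⟨_, hmem τ hτ⟩ : H) ∈ Q := by rw [h]; trivial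
    have h2 := congrArg Subtype.val (h1 ⟨e, hEN e he⟩ he)
    rwa [hr] at h2
  obtain ⟨l, hlQ, g, hg⟩ := exists_char hH Q hQ
  have : CharP N p := (algebraMap N Ω).charP_iff (algebraMap N Ω).injective p |>.2 inferInstance
  obtain ⟨a, ha⟩ := exists_as H l
  refine ⟨a, ?_, ?_, ?_⟩
  · refine fix hb halg (hLK.trans le_sup_left) (hNs a) fun τ hτ => ?_
    have h1 := hmem τ fun x hx => hτ x ((le_sup_left : K ≤ K ⊔ E) hx)
    have h2 := ha ⟨_, h1⟩
    rw [hlQ ⟨_, h1⟩ fun x hx => Subtype.ext (by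
      rw [hr]; exact hτ x ((le_sup_right : E ≤ K ⊔ E) hx))] at h2
    rw [← hr]
    simpa using congrArg Subtype.val h2
  · intro haK
    obtain ⟨_, τ, hτ, rfl⟩ := g
    have h2 := ha ⟨_, τ, hτ, rfl⟩
    have h3 : AlgEquiv.restrictNormalHom N τ a = a :=
      Subtype.ext (by rw [hr]; exact (mem_fixingSubgroup_iff _ _).1 hτ _ haK)
    rw [h3, left_eq_add, map_eq_zero] at h2
    exact hg (by rw [← ofAdd_toAdd (l _), h2]; rfl)
  · refine fix hb halg hLK (hNs (a ^ p - a)) fun τ hτ => ?_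
    have h2 := ha ⟨_, hmem τ hτ⟩
    have h3 : AlgEquiv.restrictNormalHom N τ (a ^ p - a) = a ^ p - a := by
      rw [map_sub, map_pow, h2, add_pow_char, ← map_pow, ZMod.pow_card]; ring
    have h4 := congrArg Subtype.val h3
    rw [hr] at h4
    exact h4

end Pool.Agent.MP_19ffc6_ag.LU

end MrgPart0

-- ======== part 1: formerly Pool.Agent.MP_19ffc6_ag.LU2.RelA
section MrgPart1

/-! Relative uniformization, part A: one variable over an algebraically closed subfield. -/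

namespace Pool.Agent.MP_19ffc6_ag.LU.Rel

open Polynomial IntermediateField

variable {k Ω : Type*} [Field k] [NontriviallyNormedField Ω] [Algebra k Ω]

/-- Polynomials with coefficients in `K`. -/
noncomputable def Co (K : IntermediateField k Ω) : Subring (Polynomial Ω) := liftsRing (algebraMap K Ω)

/-- `K` is algebraically closed and carries all norms. -/
structure AC (K : IntermediateField k Ω) : Prop where
  root : ∀ a : Ω, IsAlgebraic K a → a ∈ K
  val : ∀ a : Ω, ∃ c ∈ K, ‖c‖ = ‖a‖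

variable {K : IntermediateField k Ω}

theorem mem_co_iff {Q : Polynomial Ω} : Q ∈ Co K ↔ ∀ i, Q.coeff i ∈ K := by
  have : Q ∈ Co K ↔ Q ∈ lifts (algebraMap K Ω) := (lifts_iff_liftsRing _ _).symm
  rw [this, lifts_iff_coeff_lifts]
  exact forall_congr' fun i => ⟨fun ⟨x, hx⟩ => hx ▸ x.2, fun h => ⟨⟨_, h⟩, rfl⟩⟩

theorem co_exists {Q : Polynomial Ω} (h : Q ∈ Co K) :
    ∃ Q0 : Polynomial K, Q0.map (algebraMap K Ω) = Q := h

theorem map_mem_co (Q0 : Polynomial K) : Q0.map (algebraMap K Ω) ∈ Co K := ⟨Q0, rfl⟩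

theorem C_mem_co {a : Ω} (h : a ∈ K) : C a ∈ Co K :=
  ⟨C ⟨a, h⟩, by simp⟩

theorem X_mem_co : (X : Polynomial Ω) ∈ Co K := ⟨X, by simp⟩

theorem co_mono {K' : IntermediateField k Ω} (h : K ≤ K') {Q : Polynomial Ω} (hQ : Q ∈ Co K) :
    Q ∈ Co K' := mem_co_iff.2 fun i => h (mem_co_iff.1 hQ i)

theorem comp_mem_co {P Q : Polynomial Ω} (hP : P ∈ Co K) (hQ : Q ∈ Co K) : P.comp Q ∈ Co K := by
  obtain ⟨P0, rfl⟩ := co_exists hP
  obtain ⟨Q0, rfl⟩ := co_exists hQ
  rw [← map_comp]; exact map_mem_co _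

theorem taylor_mem_co {P : Polynomial Ω} (hP : P ∈ Co K) {c : Ω} (hc : c ∈ K) :
    taylor c P ∈ Co K := by
  rw [taylor_apply]; exact comp_mem_co hP (add_mem X_mem_co (C_mem_co hc))

theorem derivative_mem_co {P : Polynomial Ω} (hP : P ∈ Co K) : derivative P ∈ Co K := by
  obtain ⟨P0, rfl⟩ := co_exists hP
  rw [derivative_map]; exact map_mem_co _

theorem hasseDeriv_mem_co {P : Polynomial Ω} (hP : P ∈ Co K) (i : ℕ) : hasseDeriv i P ∈ Co K :=
  mem_co_iff.2 fun j => by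
    rw [hasseDeriv_coeff]; exact mul_mem (K.natCast_mem _) (mem_co_iff.1 hP _)

theorem eval_mem_of_co {P : Polynomial Ω} (hP : P ∈ Co K) {a : Ω} (ha : a ∈ K) :
    P.eval a ∈ K := by
  rw [eval_eq_sum_range]
  exact sum_mem fun i _ => mul_mem (mem_co_iff.1 hP i) (pow_mem ha i)

theorem isAlgebraic_of_co {P : Polynomial Ω} (hP : P ∈ Co K) (h0 : P ≠ 0) {a : Ω}
    (ha : P.eval a = 0) : IsAlgebraic K a := by
  obtain ⟨P0, rfl⟩ := co_exists hP
  exact ⟨P0, fun h => h0 (by simp [h]), by rwa [eval_map_algebraMap] at ha⟩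

/-- A simple root is separable. -/
theorem isSeparable_of_co {P : Polynomial Ω} (hP : P ∈ Co K) {a : Ω} (ha : P.eval a = 0)
    (hd : P.derivative.eval a ≠ 0) : IsSeparable K a := by
  have h0 : P ≠ 0 := by rintro rfl; simp at hd
  have hi : IsIntegral K a := (isAlgebraic_of_co hP h0 ha).isIntegral
  obtain ⟨P0, rfl⟩ := co_exists hP
  rw [eval_map_algebraMap] at ha
  obtain ⟨g, hg⟩ := minpoly.dvd K a ha
  refine (separable_iff_derivative_ne_zero (minpoly.irreducible hi)).2 fun h => hd ?_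
  rw [derivative_map, eval_map_algebraMap, hg, derivative_mul, h]
  simp

theorem aut_eval {σ : Ω ≃ₐ[K] Ω} {P : Polynomial Ω} (hP : P ∈ Co K) (a : Ω) :
    σ (P.eval a) = P.eval (σ a) := by
  obtain ⟨P0, rfl⟩ := co_exists hP
  rw [eval_map_algebraMap, eval_map_algebraMap, aeval_algHom_apply]

theorem mem_sup_adjoin_iff {y z : Ω} :
    z ∈ K ⊔ adjoin k {y} ↔ ∃ P ∈ Co K, ∃ Q ∈ Co K, z = P.eval y / Q.eval y := by
  rw [mem_sup_iff_mem_adjoin, mem_adjoin_simple_iff]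
  constructor
  · rintro ⟨r, s, rfl⟩
    exact ⟨_, map_mem_co r, _, map_mem_co s, by rw [eval_map_algebraMap, eval_map_algebraMap]⟩
  · rintro ⟨P, hP, Q, hQ, rfl⟩
    obtain ⟨P0, rfl⟩ := co_exists hP
    obtain ⟨Q0, rfl⟩ := co_exists hQ
    exact ⟨P0, Q0, by rw [eval_map_algebraMap, eval_map_algebraMap]⟩

theorem self_mem_sup (K : IntermediateField k Ω) (y : Ω) : y ∈ K ⊔ adjoin k {y} :=
  (le_sup_right : adjoin k {y} ≤ _) (mem_adjoin_simple_self k y)

theorem eval_mem_sup {P : Polynomial Ω} (hP : P ∈ Co K) (y : Ω) :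
    P.eval y ∈ K ⊔ adjoin k {y} :=
  eval_mem_of_co (co_mono le_sup_left hP) (self_mem_sup K y)

theorem sup_adjoin_le {L : IntermediateField k Ω} (h : K ≤ L) {y : Ω} (hy : y ∈ L) :
    K ⊔ adjoin k {y} ≤ L := sup_le h (adjoin_simple_le_iff.2 hy)

variable [IsAlgClosed Ω]

/-- Induction on the linear factors. -/
theorem AC.induction (hK : AC K) {M : Polynomial Ω → Prop} (h0 : ∀ a ∈ K, M (C a))
    (h1 : ∀ r ∈ K, ∀ Q ∈ Co K, M Q → M ((X - C r) * Q)) : ∀ Q ∈ Co K, M Q := by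
  intro Q hQ
  induction hn : Q.natDegree using Nat.strong_induction_on generalizing Q with
  | _ n ih =>
  by_cases hd : Q.natDegree = 0
  · rw [eq_C_of_natDegree_eq_zero hd]; exact h0 _ (mem_co_iff.1 hQ 0)
  have hQ0 : Q ≠ 0 := by rintro rfl; simp at hd
  obtain ⟨r, hr⟩ := IsAlgClosed.exists_root Q (fun h => hd (natDegree_eq_zero_iff_degree_le_zero.2 h.le))
  have hrK : r ∈ K := hK.root r (isAlgebraic_of_co hQ hQ0 hr)
  have he : (X - C r) * (Q /ₘ (X - C r)) = Q := mul_divByMonic_eq_iff_isRoot.2 hr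
  have hco : Q /ₘ (X - C r) ∈ Co K := by
    obtain ⟨Q0, rfl⟩ := co_exists hQ
    have : (X - C r : Polynomial Ω) = (X - C (⟨r, hrK⟩ : K)).map (algebraMap K Ω) := by simp
    rw [this, ← map_divByMonic _ (monic_X_sub_C _)]; exact map_mem_co _
  rw [← he]
  refine h1 r hrK _ hco (ih _ ?_ _ hco rfl)
  rw [← hn, natDegree_divByMonic _ (monic_X_sub_C r), natDegree_X_sub_C]; omega

theorem AC.mem_of_pow (hK : AC K) {a : Ω} {n : ℕ} (hn : 0 < n) (h : a ^ n ∈ K) : a ∈ K :=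
  hK.root a (IsAlgebraic.of_pow hn (isAlgebraic_algebraMap (⟨_, h⟩ : K)))

variable [IsUltrametricDist Ω]

section

variable [Ctx k Ω]

/-- Every element has a best possible first approximation. -/
theorem AC.approx (hK : AC K) {a : Ω} (ha : a ≠ 0) : ∃ c ∈ K, ‖a - c‖ < ‖a‖ := by
  obtain ⟨m, hm, hn⟩ := hK.val a
  have hpos : 0 < ‖a‖ := norm_pos_iff.2 ha
  have hm0 : m ≠ 0 := by rw [← norm_pos_iff, hn]; exact hpos
  obtain ⟨c, hc⟩ := Ctx.res (k := k) (a / m) (by rw [norm_div, hn, div_self hpos.ne'])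
  refine ⟨algebraMap k Ω c * m, mul_mem (K.algebraMap_mem c) hm, ?_⟩
  have : a - algebraMap k Ω c * m = (a / m - algebraMap k Ω c) * m := by field_simp
  rw [this, norm_mul, hn]; exact mul_lt_of_lt_one_left hpos hc

/-- The distance to `K` is not attained. -/
theorem AC.noatt (hK : AC K) {y : Ω} (hy : y ∉ K) {c : Ω} (hc : c ∈ K) :
    ∃ c' ∈ K, ‖y - c'‖ < ‖y - c‖ := by
  obtain ⟨m, hm, h⟩ := hK.approx (a := y - c) (sub_ne_zero.2 fun h => hy (h ▸ hc))
  exact ⟨c + m, add_mem hc hm, by rwa [← sub_sub]⟩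

/-- The norm of a polynomial is constant near `y`. -/
theorem AC.stab (hK : AC K) {y : Ω} (hy : y ∉ K) : ∀ Q ∈ Co K, ∃ c0 ∈ K, ∀ c : Ω,
    ‖y - c‖ ≤ ‖y - c0‖ → ‖Q.eval c‖ = ‖Q.eval y‖ := by
  refine hK.induction (fun a _ => ⟨0, zero_mem _, by simp⟩) ?_
  rintro r hr Q - ⟨c0, hc0, h⟩
  obtain ⟨c1, hc1, h1⟩ := hK.noatt hy hr
  have key : ∀ c : Ω, ‖y - c‖ ≤ ‖y - c0‖ → ‖y - c‖ ≤ ‖y - c1‖ →
      ‖((X - C r) * Q).eval c‖ = ‖((X - C r) * Q).eval y‖ := fun c g0 g1 => by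
    have : ‖c - r‖ = ‖y - r‖ :=
      norm_eq_of_norm_sub_lt (by rw [sub_sub_sub_cancel_right]; exact g1.trans_lt h1)
    simp [h c g0, this]
  rcases le_total ‖y - c0‖ ‖y - c1‖ with g | g
  · exact ⟨c0, hc0, fun c hc => key c hc (hc.trans g)⟩
  · exact ⟨c1, hc1, fun c hc => key c (hc.trans g) hc⟩

/-- Polynomials in `y` are dense in the henselization. -/
theorem AC.dense (hK : AC K) {y : Ω} (hy : y ∉ K) {z : Ω} (hz : z ∈ hens (K ⊔ adjoin k {y}))
    {ε : ℝ} (hε : 0 < ε) : ∃ Q ∈ Co K, ‖z - Q.eval y‖ < ε := by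
  let A : Subring Ω := ((Co K).map (evalRingHom y)).topologicalClosure
  have hA : ∀ Q ∈ Co K, Q.eval y ∈ A := fun Q hQ => subset_closure ⟨Q, hQ, rfl⟩
  have hinv : ∀ Q ∈ Co K, (Q.eval y)⁻¹ ∈ A := by
    refine hK.induction (fun a ha => by simpa using hA _ (C_mem_co (inv_mem ha))) ?_
    intro r hr Q _ h
    rw [eval_mul, mul_inv]
    refine mul_mem ?_ h
    obtain ⟨c, hc, hlt⟩ := hK.noatt hy hr
    have hn : ‖c - r‖ = ‖y - r‖ := norm_eq_of_norm_sub_lt (by rwa [sub_sub_sub_cancel_right])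
    have hpos : 0 < ‖c - r‖ := hn ▸ (norm_nonneg _).trans_lt hlt
    have h0 : c - r ≠ 0 := norm_pos_iff.1 hpos
    have hx : ‖(c - y) / (c - r)‖ < 1 := by
      rw [norm_div, div_lt_one hpos, hn, norm_sub_rev]; exact hlt
    have hxA : (c - y) / (c - r) ∈ A := by
      have := hA _ (mul_mem (sub_mem (C_mem_co hc) X_mem_co) (C_mem_co (inv_mem (sub_mem hc hr))))
      simpa [div_eq_mul_inv] using this
    have hlim := (hasSum_geometric_of_norm_lt_one hx).tendsto_sum_nat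
    have h1 : (1 - (c - y) / (c - r))⁻¹ ∈ A :=
      (Subring.isClosed_topologicalClosure _).mem_of_tendsto hlim
        (Filter.Eventually.of_forall fun n => sum_mem fun i _ => pow_mem hxA i)
    have h2 : (eval y (X - C r))⁻¹ = (1 - (c - y) / (c - r))⁻¹ * (c - r)⁻¹ := by
      rw [← mul_inv]; congr 1; simp only [eval_sub, eval_X, eval_C]; field_simp; ring
    rw [h2]
    exact mul_mem h1 (by simpa using hA _ (C_mem_co (inv_mem (sub_mem hc hr))))
  obtain ⟨b, hb, h1⟩ := (mem_hens_iff.1 hz).2 ε hε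
  obtain ⟨P, hP, Q, hQ, rfl⟩ := mem_sup_adjoin_iff.1 hb
  have h2 : P.eval y / Q.eval y ∈ A := by
    rw [div_eq_mul_inv]; exact mul_mem (hA P hP) (hinv Q hQ)
  obtain ⟨_, ⟨R, hR, rfl⟩, h3⟩ := Metric.mem_closure_iff.1 h2 ε hε
  refine ⟨R, hR, ?_⟩
  rw [dist_eq_norm] at h3
  have := norm_add_lt_of h1 h3
  rwa [sub_add_sub_cancel] at this

end

/-- Lipschitz bound on the limit disc. -/
theorem AC.lip (hK : AC K) {y t : Ω} {r : ℝ} (hr : ∀ c ∈ K, r ≤ ‖y - c‖) (ht : ‖t‖ ≤ r) :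
    ∀ Q ∈ Co K, ‖Q.eval (y + t)‖ ≤ ‖Q.eval y‖ ∧
      ‖Q.eval (y + t) - Q.eval y‖ * r ≤ ‖Q.eval y‖ * ‖t‖ := by
  have hr0 : 0 ≤ r := (norm_nonneg _).trans ht
  refine hK.induction (fun a _ => by simp [mul_nonneg]) ?_
  rintro a ha Q - ⟨h1, h2⟩
  simp only [eval_mul, eval_sub, eval_X, eval_C]
  constructor
  · rw [norm_mul, norm_mul]
    refine mul_le_mul ?_ h1 (norm_nonneg _) (norm_nonneg _)
    rw [add_sub_right_comm]; exact norm_add_le_of le_rfl (ht.trans (hr a ha))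
  · have : (y + t - a) * eval (y + t) Q - (y - a) * eval y Q =
        (y - a) * (eval (y + t) Q - eval y Q) + t * eval (y + t) Q := by ring
    rw [this]
    refine (mul_le_mul_of_nonneg_right (IsUltrametricDist.norm_add_le_max _ _) hr0).trans ?_
    rw [max_mul_of_nonneg _ _ hr0, norm_mul, norm_mul, norm_mul]
    refine max_le ?_ ?_
    · rw [mul_assoc, mul_assoc]; exact mul_le_mul_of_nonneg_left h2 (norm_nonneg _)
    · calc ‖t‖ * ‖eval (y + t) Q‖ * r ≤ ‖t‖ * ‖eval y Q‖ * ‖y - a‖ :=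
            mul_le_mul (mul_le_mul_of_nonneg_left h1 (norm_nonneg _)) (hr a ha) hr0 (by positivity)
        _ = _ := by ring

/-- Bound for the derivative. -/
theorem AC.der_le (hK : AC K) {y : Ω} {r : ℝ} (hr0 : 0 ≤ r) (hr : ∀ c ∈ K, r ≤ ‖y - c‖) :
    ∀ Q ∈ Co K, ‖Q.derivative.eval y‖ * r ≤ ‖Q.eval y‖ := by
  refine hK.induction (fun a _ => by simp) ?_
  rintro a ha Q - h
  simp only [derivative_mul, derivative_sub, derivative_X, derivative_C, sub_zero, one_mul,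
    eval_add, eval_mul, eval_sub, eval_X, eval_C]
  refine (mul_le_mul_of_nonneg_right (IsUltrametricDist.norm_add_le_max _ _) hr0).trans ?_
  rw [max_mul_of_nonneg _ _ hr0, norm_mul, norm_mul]
  refine max_le ?_ ?_
  · rw [mul_comm]; exact mul_le_mul_of_nonneg_right (hr a ha) (norm_nonneg _)
  · rw [mul_assoc]; exact mul_le_mul_of_nonneg_left h (norm_nonneg _)

omit [IsAlgClosed Ω] in
theorem norm_pow_sub_pow_le {a b : Ω} {ρ : ℝ} (ha : ‖a‖ ≤ ρ) (hb : ‖b‖ ≤ ρ) (n : ℕ) :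
    ‖a ^ (n + 1) - b ^ (n + 1)‖ ≤ ‖a - b‖ * ρ ^ n := by
  have h0 : 0 ≤ ρ := (norm_nonneg _).trans ha
  induction n with
  | zero => simp
  | succ n ih =>
    have : a ^ (n + 1 + 1) - b ^ (n + 1 + 1) =
        a * (a ^ (n + 1) - b ^ (n + 1)) + (a - b) * b ^ (n + 1) := by ring
    rw [this]
    refine norm_add_le_of ?_ ?_
    · rw [norm_mul]
      calc _ ≤ ρ * (‖a - b‖ * ρ ^ n) := mul_le_mul ha ih (norm_nonneg _) h0
        _ = _ := by ring
    · rw [norm_mul, norm_pow]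
      exact mul_le_mul_of_nonneg_left (pow_le_pow_left₀ (norm_nonneg _) hb _) (norm_nonneg _)

omit [IsAlgClosed Ω] in
theorem norm_natCast_le (n : ℕ) : ‖(n : Ω)‖ ≤ 1 := IsUltrametricDist.norm_natCast_le_one Ω n

omit [IsAlgClosed Ω] in
/-- Hensel's lemma for a dominant linear term. -/
theorem lin {p : ℕ} (hb : HB k Ω p) {H : IntermediateField k Ω} (halg : Algebra.IsAlgebraic H Ω)
    (hH : IsHens H) {P : Polynomial Ω} (hP : P ∈ Co H) {Y : Ω} (hY : P.eval Y ∈ H)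
    (h1 : P.coeff 1 ≠ 0) (hd : ∀ j, ‖P.coeff (j + 2)‖ * ‖Y‖ ^ (j + 1) < ‖P.coeff 1‖) :
    Y ∈ H := by
  have hpos : 0 < ‖P.coeff 1‖ := norm_pos_iff.2 h1
  have hsep : IsSeparable H Y := by
    refine isSeparable_of_co (sub_mem hP (C_mem_co hY)) (by simp) ?_
    rw [derivative_sub, derivative_C, sub_zero,
      eval_eq_sum_range' (n := P.natDegree + 1)
        ((natDegree_derivative_le P).trans_lt (by omega)), Finset.sum_range_succ', add_comm,
      ← norm_pos_iff, coeff_derivative]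
    simp only [Nat.cast_zero, zero_add, mul_one, pow_zero]
    rw [norm_add_eq_left]
    · exact hpos
    refine norm_sum_lt_of hpos fun j _ => lt_of_le_of_lt ?_ (hd j)
    rw [coeff_derivative, norm_mul, norm_mul, norm_pow]
    refine mul_le_mul_of_nonneg_right (mul_le_of_le_one_right (norm_nonneg _) ?_) (by positivity)
    exact_mod_cast norm_natCast_le (Ω := Ω) (j + 1 + 1)
  refine hb.fix H halg Y hsep fun σ => ?_
  by_contra hne
  have ht : 0 < ‖σ Y - Y‖ := norm_pos_iff.2 (sub_ne_zero.2 hne)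
  have he : P.eval (σ Y) - P.eval Y = 0 := by
    rw [← aut_eval hP, aut_apply_of_mem σ hY, sub_self]
  rw [eval_eq_sum_range' (n := P.natDegree + 1 + 1) (by omega),
    eval_eq_sum_range' (n := P.natDegree + 1 + 1) (by omega), ← Finset.sum_sub_distrib,
    Finset.sum_range_succ', Finset.sum_range_succ'] at he
  simp only [zero_add, pow_one, pow_zero, sub_self, add_zero, ← mul_sub] at he
  have h2 : ‖∑ j ∈ Finset.range P.natDegree,
      P.coeff (j + 1 + 1) * (σ Y ^ (j + 1 + 1) - Y ^ (j + 1 + 1))‖ <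
      ‖P.coeff 1 * (σ Y - Y)‖ := by
    rw [norm_mul]
    refine norm_sum_lt_of (by positivity) fun j _ => ?_
    rw [norm_mul]
    calc _ ≤ ‖P.coeff (j + 2)‖ * (‖σ Y - Y‖ * ‖Y‖ ^ (j + 1)) :=
          mul_le_mul_of_nonneg_left (norm_pow_sub_pow_le (hH σ Y).le le_rfl _) (norm_nonneg _)
      _ = ‖P.coeff (j + 2)‖ * ‖Y‖ ^ (j + 1) * ‖σ Y - Y‖ := by ring
      _ < _ := mul_lt_mul_of_pos_right (hd j) ht
  have h3 := norm_add_eq_left h2
  rw [add_comm, he, norm_zero, norm_mul] at h3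
  exact (mul_pos hpos ht).ne h3

end Pool.Agent.MP_19ffc6_ag.LU.Rel

end MrgPart1

-- ======== part 2: formerly Pool.Agent.MP_19ffc6_ag.LU2.RelB
section MrgPart2

/-! Relative uniformization, part B: henselian rationality over an algebraically closed base. -/

namespace Pool.Agent.MP_19ffc6_ag.LU.Rel

open Polynomial IntermediateField

variable {k Ω : Type*} [Field k] [NontriviallyNormedField Ω] [Algebra k Ω]
  {K : IntermediateField k Ω}

/-- The algebraic closure of an intermediate field. -/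
noncomputable def acl (M : IntermediateField k Ω) : IntermediateField k Ω :=
  (algebraicClosure M Ω).restrictScalars k

theorem mem_acl {M : IntermediateField k Ω} {a : Ω} : a ∈ acl M ↔ IsAlgebraic M a :=
  mem_algebraicClosure_iff (F := M)

theorem le_acl (M : IntermediateField k Ω) : M ≤ acl M := fun b hb =>
  mem_acl.2 (isAlgebraic_algebraMap (⟨b, hb⟩ : M))

theorem mem_acl_of_alg {M : IntermediateField k Ω} {a : Ω} (h : IsAlgebraic (acl M) a) :
    a ∈ acl M := by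
  have h1 : IsAlgebraic (algebraicClosure M Ω) a := h
  exact mem_acl.2 (h1.restrictScalars M)

theorem alg_of_forall {M N : IntermediateField k Ω} (hN : Algebra.IsAlgebraic N Ω)
    (h : ∀ a ∈ N, IsAlgebraic M a) : Algebra.IsAlgebraic M Ω := by
  have h1 : N ≤ acl M := fun a ha => mem_acl.2 (h a ha)
  exact ⟨fun a => mem_acl.1 (mem_acl_of_alg ((alg_of_le h1 hN).1 a))⟩

theorem alg_of_gen {M : IntermediateField k Ω} {y : Ω}
    (hN : Algebra.IsAlgebraic ↥(K ⊔ adjoin k {y}) Ω) (h : K ≤ M) (hy : IsAlgebraic M y) :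
    Algebra.IsAlgebraic M Ω := by
  refine alg_of_forall hN fun a ha => ?_
  exact mem_acl.1 (sup_adjoin_le (h.trans (le_acl M)) (mem_acl.2 hy) ha)

variable [IsAlgClosed Ω] (p : ℕ) [hp : Fact p.Prime] [CharP Ω p]

/-- Extraction of roots of order `p ^ i`. -/
noncomputable def rt (i : ℕ) : Ω →+* Ω := (iterateFrobeniusEquiv Ω p i).symm.toRingHom

variable {p}

theorem rt_pow (i : ℕ) (x : Ω) : rt p i x ^ p ^ i = x :=
  (iterateFrobeniusEquiv Ω p i).apply_symm_apply x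

omit [IsAlgClosed Ω] in
theorem pow_inj {i : ℕ} {x y : Ω} (h : x ^ p ^ i = y ^ p ^ i) : x = y :=
  iterateFrobenius_inj Ω p i h

theorem rt_zero (x : Ω) : rt p 0 x = x := by simpa using rt_pow (p := p) 0 x

theorem rt_succ (i : ℕ) (x : Ω) : rt p (i + 1) (x ^ p) = rt p i x :=
  pow_inj (p := p) (i := i + 1) (by rw [rt_pow, pow_succ, pow_mul, rt_pow])

theorem AC.rt_mem (hK : AC K) (i : ℕ) {x : Ω} (hx : x ∈ K) : rt p i x ∈ K :=
  hK.mem_of_pow (pow_pos hp.out.pos i) (by rwa [rt_pow])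

variable (p) in
/-- The cleaned coefficient. -/
noncomputable def lam (N j : ℕ) (G : Polynomial Ω) : Ω :=
  ∑ i ∈ Finset.range (N + 1), rt p i (G.coeff (j * p ^ i))

theorem lam_add (N j : ℕ) (G H : Polynomial Ω) :
    lam p N j (G + H) = lam p N j G + lam p N j H := by
  simp [lam, Finset.sum_add_distrib]

omit [IsAlgClosed Ω] in
theorem coeff_pow_char (B : Polynomial Ω) (n : ℕ) :
    (B ^ p).coeff n = if p ∣ n then B.coeff (n / p) ^ p else 0 := by
  rw [← map_frobenius_expand, coeff_map, coeff_expand hp.out.pos]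
  split_ifs <;> simp [frobenius_def, hp.out.ne_zero]

theorem lam_wp {N j : ℕ} {B : Polynomial Ω} (hB : B.natDegree < p ^ N) (hj : ¬ p ∣ j) :
    lam p N j (B ^ p - B) = 0 := by
  have hj0 : 0 < j := Nat.pos_of_ne_zero fun h => hj (h ▸ dvd_zero p)
  simp only [lam, coeff_sub, map_sub, Finset.sum_sub_distrib]
  rw [Finset.sum_range_succ', Finset.sum_range_succ, coeff_pow_char, pow_zero, mul_one, if_neg hj,
    coeff_eq_zero_of_natDegree_lt (hB.trans_le (Nat.le_mul_of_pos_left _ hj0)), map_zero, map_zero,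
    sub_eq_zero]
  congr 1
  refine Finset.sum_congr rfl fun i _ => ?_
  rw [coeff_pow_char, pow_succ, ← mul_assoc, if_pos (dvd_mul_left _ _),
    Nat.mul_div_cancel _ hp.out.pos, rt_succ]

theorem lam_clean {N j : ℕ} {H : Polynomial Ω} (hH : ∀ n, p ∣ n → n ≠ 0 → H.coeff n = 0)
    (hj : ¬ p ∣ j) : lam p N j H = H.coeff j := by
  have hj0 : j ≠ 0 := fun h => hj (h ▸ dvd_zero p)
  rw [lam, Finset.sum_range_succ', pow_zero, mul_one, rt_zero, Finset.sum_eq_zero, zero_add]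
  intro i _
  rw [hH _ (Dvd.dvd.mul_left (dvd_pow_self p i.succ_ne_zero) _)
    (mul_ne_zero hj0 (pow_ne_zero _ hp.out.ne_zero)), map_zero]

theorem lam_taylor_pow (N j : ℕ) (g : Polynomial Ω) (c : Ω) :
    lam p N j (taylor c g) ^ p ^ N =
      (∑ i ∈ Finset.range (N + 1), hasseDeriv (j * p ^ i) g ^ p ^ (N - i)).eval c := by
  rw [lam, sum_pow_char_pow, eval_finsetSum]
  refine Finset.sum_congr rfl fun i hi => ?_
  have : p ^ N = p ^ i * p ^ (N - i) := by
    rw [← pow_add, Nat.add_sub_cancel' (Nat.lt_succ_iff.1 (Finset.mem_range.1 hi))]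
  rw [this, pow_mul, rt_pow, taylor_coeff, eval_pow]

/-- Cleaning of a polynomial. -/
theorem AC.clean (hK : AC K) (n : ℕ) : ∀ G ∈ Co K, G.degree < (n : ℕ) + 1 → ∃ H ∈ Co K, ∃ B ∈ Co K,
    H.natDegree ≤ n ∧ B.natDegree ≤ n ∧ (∀ m, p ∣ m → m ≠ 0 → H.coeff m = 0) ∧
      G = H + (B ^ p - B) := by
  induction n with
  | zero =>
    intro G hG hd
    have h0 : G.natDegree = 0 := by
      rw [natDegree_eq_zero_iff_degree_le_zero]
      exact Nat.WithBot.lt_one_iff_le_zero.1 (by simpa using hd)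
    exact ⟨G, hG, 0, zero_mem _, h0.le, by simp, fun m _ hm =>
      coeff_eq_zero_of_natDegree_lt (by omega), by simp [hp.out.ne_zero]⟩
  | succ n ih =>
    intro G hG hd
    have ha := mem_co_iff.1 hG (n + 1)
    have hm : ∀ {a : Ω} (i : ℕ), a ∈ K → monomial i a ∈ Co K := fun {a} i h => by
      rw [← C_mul_X_pow_eq_monomial]; exact mul_mem (C_mem_co h) (pow_mem X_mem_co _)
    have hd' : (G - monomial (n + 1) (G.coeff (n + 1))).degree < (n : ℕ) + 1 := by
      have : ((n : ℕ) + 1 : WithBot ℕ) = (n + 1 : ℕ) := by simp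
      rw [this, degree_lt_iff_coeff_zero]
      intro m hm'
      rw [coeff_sub, coeff_monomial]
      split_ifs with h
      · rw [h, sub_self]
      · rw [sub_zero]
        refine coeff_eq_zero_of_degree_lt (hd.trans_le ?_)
        have : n + 1 + 1 ≤ m := by omega
        exact_mod_cast this
    by_cases h : p ∣ n + 1
    · obtain ⟨n', hn'⟩ := h
      have hlt : n' < n + 1 := by
        have := hp.out.two_le
        rcases Nat.eq_zero_or_pos n' with h | h <;> nlinarith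
      set b : Polynomial Ω := monomial n' (rt p 1 (G.coeff (n + 1))) with hbdef
      have hb : b ∈ Co K := hm _ (hK.rt_mem 1 ha)
      have hbp : b ^ p = monomial (n + 1) (G.coeff (n + 1)) := by
        have := rt_pow (p := p) 1 (G.coeff (n + 1))
        rw [pow_one] at this
        rw [hbdef, monomial_pow, this, hn', mul_comm]
      obtain ⟨H, hH, B, hB, h1, h2, h3, h4⟩ := ih (G - monomial (n + 1) (G.coeff (n + 1)) + b)
        (add_mem (sub_mem hG (hm _ ha)) hb) ((degree_add_le _ _).trans_lt (max_lt hd'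
          ((degree_monomial_le _ _).trans_lt (by exact_mod_cast hlt))))
      refine ⟨H, hH, B + b, add_mem hB hb, h1.trans n.le_succ, (natDegree_add_le _ _).trans
        (max_le (h2.trans n.le_succ) ((natDegree_monomial_le _).trans hlt.le)), h3, ?_⟩
      rw [add_pow_char, hbp]
      linear_combination h4
    · obtain ⟨H, hH, B, hB, h1, h2, h3, h4⟩ := ih _ (sub_mem hG (hm _ ha)) hd'
      refine ⟨H + monomial (n + 1) (G.coeff (n + 1)), add_mem hH (hm _ ha), B, hB,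
        (natDegree_add_le _ _).trans (max_le (h1.trans n.le_succ) (natDegree_monomial_le _)),
        h2.trans n.le_succ, fun m hm1 hm2 => ?_, by linear_combination h4⟩
      rw [coeff_add, h3 m hm1 hm2, coeff_monomial, if_neg (fun g : n + 1 = m => h (g ▸ hm1)), add_zero]

variable [IsUltrametricDist Ω]

omit [IsAlgClosed Ω] in
theorem taylor_coeff_le {H : Polynomial Ω} {t : Ω} {M : ℝ} (hM : 0 ≤ M)
    (h : ∀ j, ‖H.coeff (j + 1)‖ * ‖t‖ ^ (j + 1) ≤ M) (m : ℕ) :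
    ‖(taylor t H).coeff (m + 1)‖ * ‖t‖ ^ (m + 1) ≤ M := by
  rw [taylor_coeff, eval_eq_sum_range, ← norm_pow, ← norm_mul, Finset.sum_mul]
  refine norm_sum_le_of hM fun j _ => le_trans ?_ (h (j + m))
  rw [hasseDeriv_coeff, norm_mul, norm_mul, norm_mul, norm_pow, norm_pow, mul_assoc, mul_assoc,
    ← pow_add, ← add_assoc]
  exact mul_le_of_le_one_left (by positivity) (norm_natCast_le _)

variable [Ctx k Ω]

omit [IsAlgClosed Ω] [IsUltrametricDist Ω] in
include k in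
theorem norm_natCast_eq {n : ℕ} (hn : ¬ p ∣ n) : ‖(n : Ω)‖ = 1 := by
  have h : (n : Ω) ≠ 0 := fun h => hn ((CharP.cast_eq_zero_iff Ω p n).1 h)
  rw [← map_natCast (algebraMap k Ω)] at h ⊢
  exact Ctx.norm_alg _ fun g => h (by rw [g, map_zero])

include k in
/-- Moving the centre makes the linear coefficient as large as the dominant term. -/
theorem norm_lam_one {N j0 : ℕ} {H : Polynomial Ω} {t : Ω} {M : ℝ} (hM : 1 < M)
    (hj : ¬ p ∣ j0 + 1) (h0 : ‖H.coeff (j0 + 1)‖ * ‖t‖ ^ (j0 + 1) = M)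
    (h : ∀ j, j ≠ j0 → ‖H.coeff (j + 1)‖ * ‖t‖ ^ (j + 1) < M) :
    ‖lam p N 1 (taylor t H)‖ * ‖t‖ = M := by
  have hM0 : 0 < M := one_pos.trans hM
  have hle : ∀ j, ‖H.coeff (j + 1)‖ * ‖t‖ ^ (j + 1) ≤ M := fun j => by
    by_cases g : j = j0
    · rw [g, h0]
    · exact (h j g).le
  have h1 : ‖(taylor t H).coeff 1 * t‖ = M := by
    rw [taylor_coeff_one, eval_eq_sum_range' (n := H.natDegree + j0 + 1)
      ((natDegree_derivative_le H).trans_lt (by omega)), Finset.sum_mul,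
      ← Finset.add_sum_erase _ _ (Finset.mem_range.2 (show j0 < _ by omega))]
    have h2 : ‖H.derivative.coeff j0 * t ^ j0 * t‖ = M := by
      have := norm_natCast_eq (k := k) (Ω := Ω) hj
      rw [coeff_derivative, mul_assoc, ← pow_succ, norm_mul, norm_mul, norm_pow, ← Nat.cast_succ,
        this, mul_one, h0]
    rw [norm_add_eq_left, h2]
    rw [h2]
    refine norm_sum_lt_of hM0 fun j hj' => lt_of_le_of_lt ?_ (h j (Finset.ne_of_mem_erase hj'))
    rw [coeff_derivative, mul_assoc, ← pow_succ, norm_mul, norm_mul, norm_pow, ← Nat.cast_succ]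
    exact mul_le_mul_of_nonneg_right (mul_le_of_le_one_right (norm_nonneg _) (norm_natCast_le _))
      (by positivity)
  rw [← norm_mul, lam, Finset.sum_range_succ', pow_zero, mul_one, rt_zero, add_mul, add_comm,
    norm_add_eq_left, h1]
  rw [h1, Finset.sum_mul]
  refine norm_sum_lt_of hM0 fun i _ => lt_of_pow_lt_pow_left₀ (p ^ (i + 1)) hM0.le ?_
  have h3 : 1 < p ^ (i + 1) := Nat.one_lt_pow i.succ_ne_zero hp.out.one_lt
  obtain ⟨m, hm⟩ : ∃ m, p ^ (i + 1) = m + 1 := ⟨p ^ (i + 1) - 1, by omega⟩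
  rw [← norm_pow, mul_pow, rt_pow, one_mul, norm_mul, norm_pow, hm]
  refine (taylor_coeff_le hM0.le hle m).trans_lt ?_
  rw [← hm]; exact lt_self_pow₀ hM h3

omit hp [CharP Ω p] in
/-- A centre close to `y` whose distance avoids a finite set. -/
theorem AC.generic (hK : AC K) {y : Ω} (hy : y ∉ K) {c0 : Ω} (hc0 : c0 ∈ K) {S : Set ℝ}
    (hS : S.Finite) : ∃ c ∈ K, ‖y - c‖ ≤ ‖y - c0‖ ∧ ‖y - c‖ ∉ S := by
  by_contra hcon
  push Not at hcon
  let T : Set ℝ := {ρ | ∃ c ∈ K, ‖y - c‖ ≤ ‖y - c0‖ ∧ ‖y - c‖ = ρ}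
  have hT : T.Finite := hS.subset (by rintro _ ⟨c, hc, h, rfl⟩; exact hcon c hc h)
  obtain ⟨_, ⟨c, hc, h, rfl⟩, hmin⟩ := Set.exists_min_image T id hT ⟨_, c0, hc0, le_rfl, rfl⟩
  obtain ⟨c', hc', h'⟩ := hK.noatt hy hc
  exact (hmin _ ⟨c', hc', h'.le.trans h, rfl⟩).not_gt h'

/-- The Artin-Schreier step. -/
theorem AC.as_step (hb : HB k Ω p) (hh : HensStmt k Ω) (hK : AC K) {y : Ω} (hy : y ∉ K)
    (halg : Algebra.IsAlgebraic ↥(K ⊔ adjoin k {y}) Ω) {a : Ω}
    (ha : a ∉ hens (K ⊔ adjoin k {y})) (hψ : a ^ p - a ∈ hens (K ⊔ adjoin k {y})) :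
    ∃ δ ∈ hens (K ⊔ adjoin k {y}), y ∈ hens (K ⊔ adjoin k {a - δ}) ∧
      Algebra.IsAlgebraic ↥(K ⊔ adjoin k {a - δ}) Ω := by
  classical
  set L := hens (K ⊔ adjoin k {y}) with hL
  have hKL : K ≤ L := le_sup_left.trans (le_hens _)
  have hyL : y ∈ L := le_hens _ (self_mem_sup K y)
  have hart := hb.artin L (alg_hens halg) (hh _ halg)
  obtain ⟨g, hg, hg1⟩ := hK.dense hy hψ one_pos
  obtain ⟨δ0, hδ0, e0⟩ := hart _ (sub_mem hψ (eval_mem_of_co (co_mono hKL hg) hyL)) hg1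
  set n := g.natDegree with hn
  let A : ℕ → ℝ := fun j => if j = 0 then 1 else ‖lam p n j (taylor y g)‖
  obtain ⟨c0, hc0, hst⟩ : ∃ c0 ∈ K, ∀ c : Ω, ‖y - c‖ ≤ ‖y - c0‖ → ∀ j ∈ Finset.range (n + 1),
      ‖lam p n j (taylor c g)‖ = ‖lam p n j (taylor y g)‖ := by
    induction Finset.range (n + 1) using Finset.induction_on with
    | empty => exact ⟨0, zero_mem _, by simp⟩
    | insert j s _ ih =>
      obtain ⟨c0, hc0, h0⟩ := ih
      obtain ⟨c1, hc1, h1⟩ := hK.stab hy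
        (∑ i ∈ Finset.range (n + 1), hasseDeriv (j * p ^ i) g ^ p ^ (n - i))
        (sum_mem fun i _ => pow_mem (hasseDeriv_mem_co hg _) _)
      have key : ∀ c : Ω, ‖y - c‖ ≤ ‖y - c0‖ → ‖y - c‖ ≤ ‖y - c1‖ → ∀ i ∈ insert j s,
          ‖lam p n i (taylor c g)‖ = ‖lam p n i (taylor y g)‖ := fun c g0 g1 i hi => by
        rcases Finset.mem_insert.1 hi with rfl | hi
        · have := h1 c g1
          rw [← lam_taylor_pow, ← lam_taylor_pow, norm_pow, norm_pow] at this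
          exact (pow_left_inj₀ (norm_nonneg _) (norm_nonneg _)
            (pow_ne_zero _ hp.out.ne_zero)).1 this
        · exact h0 c g0 i hi
      rcases le_total ‖y - c0‖ ‖y - c1‖ with g | g
      · exact ⟨c0, hc0, fun c hc => key c hc (hc.trans g)⟩
      · exact ⟨c1, hc1, fun c hc => key c (hc.trans g) hc⟩
  have hfin : (⋃ i ∈ Finset.range (n + 1), ⋃ j ∈ Finset.range (n + 1),
      {ρ : ℝ | i ≠ j ∧ A i ≠ 0 ∧ A i * ρ ^ i = A j * ρ ^ j}).Finite := by
    refine (Finset.finite_toSet _).biUnion fun i _ => (Finset.finite_toSet _).biUnion fun j _ => ?_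
    by_cases h : i ≠ j ∧ A i ≠ 0
    · have h0 : (monomial i (A i) - monomial j (A j) : Polynomial ℝ) ≠ 0 := fun g => h.2 (by
        have := congrArg (coeff · i) g
        simpa [coeff_monomial, h.1.symm] using this)
      refine (finite_setOfPred_isRoot h0).subset fun ρ hρ => ?_
      simp [hρ.2.2]
    · exact Set.finite_empty.subset fun ρ hρ => h ⟨hρ.1, hρ.2.1⟩
  obtain ⟨c, hc, hcle, hgen⟩ := hK.generic hy hc0 hfin
  have hgen' : ∀ i ≤ n, ∀ j ≤ n, i ≠ j → A i ≠ 0 → A i * ‖y - c‖ ^ i ≠ A j * ‖y - c‖ ^ j :=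
    fun i hi j hj h1 h2 h3 => hgen (by
      simp only [Set.mem_iUnion]
      exact ⟨i, Finset.mem_range.2 (by omega), j, Finset.mem_range.2 (by omega), h1, h2, h3⟩)
  have hnp : n < p ^ n := Nat.lt_pow_self hp.out.one_lt
  obtain ⟨H, hH, B, hB, d1, d2, hcl, hdec⟩ := hK.clean (p := p) n _ (taylor_mem_co hg hc)
    (degree_le_natDegree.trans_lt (by rw [natDegree_taylor]; exact_mod_cast n.lt_succ_self))
  set Y := y - c with hY
  have hYL : Y ∈ L := sub_mem hyL (hKL hc)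
  have hρ : 0 < ‖Y‖ := norm_pos_iff.2 (sub_ne_zero.2 fun h => hy (h ▸ hc))
  have hcoef : ∀ j, H.coeff (j + 1) ≠ 0 →
      ¬ p ∣ j + 1 ∧ j + 1 ≤ n ∧ ‖H.coeff (j + 1)‖ = A (j + 1) := fun j h => by
    have h1 : ¬ p ∣ j + 1 := fun g => h (hcl _ g j.succ_ne_zero)
    have h2 : j + 1 ≤ n := (le_natDegree_of_ne_zero h).trans d1
    refine ⟨h1, h2, ?_⟩
    simp only [A, if_neg j.succ_ne_zero]
    rw [← hst c hcle _ (Finset.mem_range.2 (by omega)), hdec, lam_add,
      lam_wp (d2.trans_lt hnp) h1, add_zero, lam_clean hcl h1]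
  set δ := δ0 + B.eval Y with hδ
  have hδL : δ ∈ L := add_mem hδ0 (eval_mem_of_co (co_mono hKL hB) hYL)
  have heq : (a - δ) ^ p - (a - δ) = H.eval Y := by
    have h1 : g.eval y = H.eval Y + (B.eval Y ^ p - B.eval Y) := by
      rw [← taylor_eval_sub c g y, hdec]; simp [hY]
    rw [hδ, sub_pow_char, add_pow_char]
    linear_combination h1 - e0
  obtain ⟨j0, -, hmax⟩ := Finset.exists_max_image (Finset.range (n + 1))
    (fun j => ‖H.coeff (j + 1)‖ * ‖Y‖ ^ (j + 1)) ⟨0, by simp⟩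
  set M := ‖H.coeff (j0 + 1)‖ * ‖Y‖ ^ (j0 + 1) with hM
  have hle : ∀ j, ‖H.coeff (j + 1)‖ * ‖Y‖ ^ (j + 1) ≤ M := fun j => by
    by_cases h : H.coeff (j + 1) = 0
    · rw [h, norm_zero, zero_mul]; positivity
    · exact hmax j (Finset.mem_range.2 (by have := (hcoef j h).2.1; omega))
  have hM1 : 1 < M := by
    by_contra hcon
    have hlt : M < 1 := by
      refine lt_of_le_of_ne (not_lt.1 hcon) fun h => ?_
      have h0 : H.coeff (j0 + 1) ≠ 0 := fun g => by simp [hM, g] at h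
      obtain ⟨-, h2, h3⟩ := hcoef j0 h0
      exact hgen' 0 n.zero_le _ h2 (by omega) (by simp [A]) (by rw [← h3, ← hM, h]; simp [A])
    have h1 : ‖H.eval Y - H.coeff 0‖ < 1 := by
      rw [eval_eq_sum_range, Finset.sum_range_succ', pow_zero, mul_one, add_sub_cancel_right]
      exact norm_sum_lt_of one_pos fun j _ => by
        rw [norm_mul, norm_pow]; exact (hle j).trans_lt hlt
    have hH0 := mem_co_iff.1 hH 0
    obtain ⟨δ1, hδ1, e1⟩ := hart _ (sub_mem (eval_mem_of_co (co_mono hKL hH) hYL) (hKL hH0)) h1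
    have h2 : a - δ - δ1 ∈ K := by
      refine hK.root _ (isAlgebraic_of_co (P := X ^ p - (X + C (H.coeff 0)))
        (sub_mem (pow_mem X_mem_co _) (add_mem X_mem_co (C_mem_co hH0)))
        (monic_X_pow_sub ?_).ne_zero ?_)
      · rw [degree_X_add_C]; exact_mod_cast hp.out.one_lt
      · simp only [eval_sub, eval_pow, eval_X, eval_add, eval_C]
        rw [sub_pow_char]
        linear_combination heq - e1
    exact ha (by simpa using add_mem (add_mem (hKL h2) hδ1) hδL)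
  have h0 : H.coeff (j0 + 1) ≠ 0 := fun g => by simp [hM, g] at hM1; linarith
  obtain ⟨q1, q2, q3⟩ := hcoef j0 h0
  have hlt : ∀ j, j ≠ j0 → ‖H.coeff (j + 1)‖ * ‖Y‖ ^ (j + 1) < M := fun j hj => by
    by_cases h : H.coeff (j + 1) = 0
    · rw [h, norm_zero, zero_mul]; linarith
    · obtain ⟨-, h2, h3⟩ := hcoef j h
      refine lt_of_le_of_ne (hle j) ?_
      rw [hM, h3, q3]
      exact hgen' _ h2 _ q2 (by omega) (h3 ▸ norm_ne_zero_iff.2 h)
  have hj0 : j0 = 0 := by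
    by_contra hne
    obtain ⟨c', hc', hlt'⟩ := hK.noatt hy hc
    have ht : ‖c' - c‖ = ‖Y‖ :=
      norm_eq_of_norm_sub_lt (by rw [hY, sub_sub_sub_cancel_right]; exact hlt')
    have h1p : ¬ p ∣ 1 := hp.out.not_dvd_one
    have h1 := norm_lam_one (k := k) (N := n) (H := H) (t := c' - c) hM1 q1 (by rw [ht])
      (by rw [ht]; exact hlt)
    have h2 : lam p n 1 (taylor c' g) = lam p n 1 (taylor (c' - c) H) := by
      have : taylor c' g = taylor (c' - c) (taylor c g) := by rw [taylor_taylor, sub_add_cancel]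
      rw [this, hdec, map_add, map_sub, taylor_pow, lam_add,
        lam_wp (by rw [natDegree_taylor]; exact d2.trans_lt hnp) h1p, add_zero]
    have h3 : lam p n 1 (taylor c g) = H.coeff 1 := by
      rw [hdec, lam_add, lam_wp (d2.trans_lt hnp) h1p, add_zero, lam_clean hcl h1p]
    have hn1 : 1 ∈ Finset.range (n + 1) := Finset.mem_range.2 (by omega)
    rw [← h2, hst c' (hlt'.le.trans hcle) 1 hn1, ← hst c hcle 1 hn1, h3, ht] at h1
    have := hlt 0 (Ne.symm hne)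
    rw [zero_add, pow_one, h1] at this
    exact lt_irrefl _ this
  subst hj0
  have hKM : K ≤ K ⊔ adjoin k {a - δ} := le_sup_left
  have hHY : H.eval Y ∈ K ⊔ adjoin k {a - δ} :=
    heq ▸ sub_mem (pow_mem (self_mem_sup K _) _) (self_mem_sup K _)
  have halg' : Algebra.IsAlgebraic ↥(K ⊔ adjoin k {a - δ}) Ω := by
    refine alg_of_gen halg hKM ?_
    have h1 : IsAlgebraic ↥(K ⊔ adjoin k {a - δ}) Y :=
      isAlgebraic_of_co (sub_mem (co_mono hKM hH) (C_mem_co hHY)) (fun g => h0 (by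
        simpa [coeff_C] using congrArg (coeff · 1) g)) (by simp)
    simpa [hY] using h1.add (isAlgebraic_algebraMap (⟨c, hKM hc⟩ : ↥(K ⊔ adjoin k {a - δ})))
  refine ⟨δ, hδL, ?_, halg'⟩
  have h1 : Y ∈ hens (K ⊔ adjoin k {a - δ}) := by
    refine lin hb (alg_hens halg') (hh _ halg') (co_mono (hKM.trans (le_hens _)) hH)
      (le_hens _ hHY) h0 fun j => lt_of_mul_lt_mul_right ?_ hρ.le
    have := hlt (j + 1) j.succ_ne_zero
    rwa [hM, zero_add, pow_one, pow_succ, ← mul_assoc] at this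
  simpa [hY] using add_mem h1 (le_hens _ (hKM hc))

/-- Henselian rationality over an algebraically closed base. -/
theorem AC.rational (hb : HB k Ω p) (hh : HensStmt k Ω) (hg : GalStmt k Ω p) (hK : AC K)
    {E : IntermediateField k Ω} (hE : IsHens E) (hKE : K ≤ E) {w : Ω} (hw : w ∈ E) (hwK : w ∉ K)
    (halg : Algebra.IsAlgebraic ↥(K ⊔ adjoin k {w}) Ω) (hsep : SepOver (K ⊔ adjoin k {w}) E)
    (hfin : relrank (hens (K ⊔ adjoin k {w})) E < Cardinal.aleph0) :
    ∃ y ∈ E, y ∉ K ∧ Algebra.IsAlgebraic ↥(K ⊔ adjoin k {y}) Ω ∧ E ≤ hens (K ⊔ adjoin k {y}) := by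
  have haE : Algebra.IsAlgebraic E Ω := alg_of_le (sup_adjoin_le hKE hw) halg
  let S : Set Cardinal := {c | ∃ y ∈ E, y ∉ K ∧ Algebra.IsAlgebraic ↥(K ⊔ adjoin k {y}) Ω ∧
    SepOver (hens (K ⊔ adjoin k {y})) E ∧ c = relrank (hens (K ⊔ adjoin k {y})) E}
  have hS : relrank (hens (K ⊔ adjoin k {w})) E ∈ S :=
    ⟨w, hw, hwK, halg, hsep.of_le_left (le_hens _), rfl⟩
  obtain ⟨c, ⟨y, h1, h2, h3, h4, rfl⟩, hmin⟩ := wellFounded_lt.has_min S ⟨_, hS⟩
  refine ⟨y, h1, h2, h3, ?_⟩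
  by_contra hne
  set L := hens (K ⊔ adjoin k {y}) with hL
  have hf : relrank L E < Cardinal.aleph0 := (not_lt.1 (hmin _ hS)).trans_lt hfin
  have hLE : L ≤ E := hb.hens_le E haE hE _ (sup_adjoin_le hKE h1)
  have hKL : K ≤ L := le_sup_left.trans (le_hens _)
  obtain ⟨T, -, hT⟩ := hg L E (alg_hens h3) (hh _ h3) hLE h4 hf
  obtain ⟨a, a1, a2, a3⟩ := hT L le_rfl (fun b _ => by
    obtain ⟨m, hm, h⟩ := hK.val b
    exact ⟨0, m, hKL hm, by simpa using h⟩) hne
  rw [sup_eq_right.2 hLE] at a1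
  obtain ⟨δ, d1, d2, d3⟩ := hK.as_step hb hh h2 h3 a2 a3
  set L' := hens (K ⊔ adjoin k {a - δ}) with hL'
  have hmem : a - δ ∈ E := sub_mem a1 (hLE d1)
  have hnot : a - δ ∉ L := fun h => a2 (by simpa using add_mem h d1)
  have hLL : L ≤ L' := hb.hens_le L' (alg_hens d3) (hh _ d3) _
    (sup_adjoin_le (le_sup_left.trans (le_hens _)) d2)
  have hL'E : L' ≤ E := hb.hens_le E haE hE _ (sup_adjoin_le hKE hmem)
  refine hmin _ ⟨a - δ, hmem, fun h => hnot (hKL h), d3, h4.of_le_left hLL, rfl⟩ ?_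
  refine Main.relrank_drop (c := relrank L L') hLL le_rfl hL'E ?_ le_rfl hf
  rw [relrank_self]
  exact lt_of_le_of_ne (Cardinal.one_le_iff_pos.2 (Main.relrank_pos _ _)) fun h =>
    hnot (relrank_eq_one_iff.1 h.symm (le_hens _ (self_mem_sup K _)))

end Pool.Agent.MP_19ffc6_ag.LU.Rel

end MrgPart2

-- ======== part 3: formerly Pool.Agent.MP_19ffc6_ag.LU2.RelC
section MrgPart3

/-! Relative uniformization, part C: descent of the generator. -/

namespace Pool.Agent.MP_19ffc6_ag.LU.Rel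

open Polynomial IntermediateField Filter Topology

variable {k Ω : Type*} [Field k] [NontriviallyNormedField Ω] [Algebra k Ω]
  {K : IntermediateField k Ω}

theorem exists_co_of_sep {M : IntermediateField k Ω} {z : Ω} (hz : IsSeparable M z) :
    ∃ f ∈ Co M, f.eval z = 0 ∧ f.derivative.eval z ≠ 0 := by
  refine ⟨_, map_mem_co (minpoly M z), by rw [eval_map_algebraMap, minpoly.aeval], ?_⟩
  rw [derivative_map, eval_map_algebraMap]
  exact Separable.aeval_derivative_ne_zero hz (minpoly.aeval M z)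

/-- Transport of the henselization along an isometry. -/
theorem map_mem_hens {M N : IntermediateField k Ω} (σ : Ω →+* Ω) (hσ : ∀ a, ‖σ a‖ = ‖a‖)
    (h : ∀ a ∈ M, σ a ∈ N) {z : Ω} (hz : z ∈ hens M) : σ z ∈ hens N := by
  obtain ⟨h1, h2⟩ := mem_hens_iff.1 hz
  obtain ⟨f, hf, f1, f2⟩ := exists_co_of_sep h1
  refine mem_hens_iff.2 ⟨isSeparable_of_co (P := f.map σ) (mem_co_iff.2 fun i => ?_) ?_ ?_,
    fun ε hε => ?_⟩
  · rw [coeff_map]; exact h _ (mem_co_iff.1 hf i)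
  · rw [eval_map, eval₂_hom, f1, map_zero]
  · rw [derivative_map, eval_map, eval₂_hom]; exact (map_ne_zero σ).2 f2
  · obtain ⟨b, hb, g⟩ := h2 ε hε
    exact ⟨σ b, h b hb, by rwa [← map_sub, hσ]⟩

theorem sep_iff {S : Set Ω} {a : Ω} :
    IsSeparable ↥(K ⊔ adjoin k S) a ↔ IsSeparable ↥(adjoin K S) a := by
  rw [← restrictScalars_adjoin_eq_sup]; rfl

variable [IsAlgClosed Ω] [IsUltrametricDist Ω] [Ctx k Ω]

/-- An element close to the generator is separating. -/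
theorem AC.sep_near (hK : AC K) {y z : Ω} (hy : y ∉ K) {r : ℝ} (hr : ∀ c ∈ K, r ≤ ‖y - c‖)
    (hz : z ∈ hens (K ⊔ adjoin k {y})) (hzy : ‖z - y‖ < r) :
    IsSeparable ↥(K ⊔ adjoin k {z}) y := by
  classical
  have hr0 : 0 < r := (norm_nonneg _).trans_lt hzy
  let N : IntermediateField K Ω := adjoin K {y, z}
  have hyN : y ∈ N := subset_adjoin _ _ (by simp)
  have hzN : z ∈ N := subset_adjoin _ _ (by simp)
  have hKN : ∀ c ∈ K, c ∈ N := fun c hc => N.algebraMap_mem ⟨c, hc⟩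
  have hMN : ∀ a ∈ K ⊔ adjoin k {y}, a ∈ N := fun a ha =>
    adjoin_simple_le_iff.2 hyN (mem_sup_iff_mem_adjoin.1 ha)
  refine sep_iff.2 (sep_crit (k := K) N ⟨{y, z}, by simp [N]⟩ {y} {z} (by simpa) (by simpa)
    (sepOver_adjoin ?_) ?_ y hyN)
  · rintro a (rfl | rfl)
    · exact isSeparable_of_mem (mem_adjoin_simple_self _ _)
    · exact sep_iff.1 (mem_hens_iff.1 hz).1
  intro D hD h0 a ha
  rw [Set.mem_singleton_iff.1 ha]
  have hDz : D z = 0 := h0 z rfl
  have hpol : ∀ Q ∈ Co K, D (Q.eval y) = Q.derivative.eval y * D y := fun Q hQ => by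
    rw [hD.eval Q (fun i => hKN _ (mem_co_iff.1 hQ i)) hyN, Finset.sum_eq_zero, zero_add]
    intro i _
    have := hD.const ⟨_, mem_co_iff.1 hQ i⟩
    rw [IntermediateField.algebraMap_apply] at this
    rw [this, zero_mul]
  have hpol' : ∀ Q ∈ Co K, ‖D (Q.eval y)‖ * r ≤ ‖Q.eval y‖ * ‖D y‖ := fun Q hQ => by
    rw [hpol Q hQ, norm_mul, mul_right_comm]
    exact mul_le_mul_of_nonneg_right (hK.der_le hr0.le hr Q hQ) (norm_nonneg _)
  have hrat : ∀ e ∈ K ⊔ adjoin k {y}, ‖D e‖ * r ≤ ‖e‖ * ‖D y‖ := fun e he => by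
    obtain ⟨P, hP, Q, hQ, rfl⟩ := mem_sup_adjoin_iff.1 he
    have hPN := hMN _ (eval_mem_sup hP y)
    have hQN := hMN _ (eval_mem_sup hQ y)
    by_cases g : Q.eval y = 0
    · simp [g, hD.zero]
    have gpos : 0 < ‖Q.eval y‖ := norm_pos_iff.2 g
    rw [div_eq_mul_inv, hD.mul _ hPN _ (inv_mem hQN), hD.inv hQN]
    refine (mul_le_mul_of_nonneg_right (IsUltrametricDist.norm_add_le_max _ _) hr0.le).trans ?_
    rw [max_mul_of_nonneg _ _ hr0.le]
    simp only [norm_mul, norm_neg, norm_pow, norm_inv]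
    refine max_le ?_ ?_
    · calc _ = ‖P.eval y‖ * ‖Q.eval y‖⁻¹ ^ 2 * (‖D (Q.eval y)‖ * r) := by ring
        _ ≤ ‖P.eval y‖ * ‖Q.eval y‖⁻¹ ^ 2 * (‖Q.eval y‖ * ‖D y‖) :=
          mul_le_mul_of_nonneg_left (hpol' Q hQ) (by positivity)
        _ = _ := by field_simp
    · calc _ = ‖Q.eval y‖⁻¹ * (‖D (P.eval y)‖ * r) := by ring
        _ ≤ ‖Q.eval y‖⁻¹ * (‖P.eval y‖ * ‖D y‖) :=
          mul_le_mul_of_nonneg_left (hpol' P hP) (by positivity)
        _ = _ := by ring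
  obtain ⟨f, hf, f1, f2⟩ := exists_co_of_sep (mem_hens_iff.1 hz).1
  have hfN : ∀ i, f.coeff i ∈ N := fun i => hMN _ (mem_co_iff.1 hf i)
  let φ : Ω → Ω := fun x => ∑ i ∈ f.support, D (f.coeff i) * x ^ i
  have hφ : φ z = 0 := by
    have := hD.eval f hfN hzN
    rwa [f1, hD.zero, hDz, mul_zero, add_zero, eq_comm] at this
  have hcl : IsClosed {x : Ω | ‖f.derivative.eval x‖ * ‖D y‖ * r ≤
      ‖f.eval x‖ * ‖D y‖ + ‖φ x‖ * r} := isClosed_le (by fun_prop) (by fun_prop)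
  have hmem := hcl.closure_subset (Metric.mem_closure_iff.2 fun ε hε => by
    obtain ⟨Q, hQ, h1⟩ := hK.dense hy hz (lt_min hε hr0)
    refine ⟨Q.eval y, ?_, by rw [dist_eq_norm]; exact h1.trans_le (min_le_left _ _)⟩
    have h2 : ‖(Q - X).eval y‖ < r := by
      have := norm_sub_lt_of hzy (h1.trans_le (min_le_right _ _))
      rw [sub_sub_sub_cancel_left] at this
      simpa using this
    have h3 := (hK.der_le hr0.le hr _ (sub_mem hQ X_mem_co)).trans_lt h2
    rw [mul_lt_iff_lt_one_left hr0, derivative_sub, derivative_X, eval_sub, eval_one,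
      norm_sub_rev] at h3
    have h4 : ‖Q.derivative.eval y‖ = 1 := by
      simpa using norm_eq_of_norm_sub_lt (a := (1 : Ω)) (by simpa using h3)
    have h5 := hD.eval f hfN (hMN _ (eval_mem_sup hQ y))
    have h6 := hrat _ (eval_mem_of_co hf (eval_mem_sup hQ y))
    have h7 : ‖f.derivative.eval (Q.eval y)‖ * ‖D y‖ =
        ‖D (f.eval (Q.eval y)) - φ (Q.eval y)‖ := by
      rw [h5, add_sub_cancel_left, hpol Q hQ, norm_mul, norm_mul, h4, one_mul]
    rw [Set.mem_setOf_eq, h7]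
    refine (mul_le_mul_of_nonneg_right (norm_sub_le _ _) hr0.le).trans ?_
    rw [add_mul]; linarith)
  rw [Set.mem_setOf_eq, f1, hφ, norm_zero, zero_mul, zero_mul, add_zero] at hmem
  by_contra hne
  exact hmem.not_gt (mul_pos (mul_pos (norm_pos_iff.2 f2) (norm_pos_iff.2 hne)) hr0)

variable {p : ℕ}

/-- An element close to the generator is a generator. -/
theorem AC.gen (hb : HB k Ω p) (hh : HensStmt k Ω) (hK : AC K) {y z a c : Ω} (hy : y ∉ K)
    (halg : Algebra.IsAlgebraic ↥(K ⊔ adjoin k {y}) Ω) {r : ℝ} (hr : ∀ c ∈ K, r ≤ ‖y - c‖)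
    (hr' : ∀ s, r < s → ∃ c ∈ K, ‖y - c‖ < s) (hz : z ∈ hens (K ⊔ adjoin k {y})) (ha : a ∈ K)
    (hc : c ∈ K) (hzy : ‖z - a * y - c‖ < ‖a‖ * r) :
    y ∈ hens (K ⊔ adjoin k {z}) ∧ Algebra.IsAlgebraic ↥(K ⊔ adjoin k {z}) Ω := by
  have ha0 : a ≠ 0 := by rintro rfl; simp at hzy; exact hzy.not_ge (norm_nonneg _)
  have hKL : K ≤ hens (K ⊔ adjoin k {y}) := le_sup_left.trans (le_hens _)
  set x := (z - c) / a with hx
  have hxL : x ∈ hens (K ⊔ adjoin k {y}) := div_mem (sub_mem hz (hKL hc)) (hKL ha)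
  have hxy : ‖x - y‖ < r := by
    have : x - y = (z - a * y - c) / a := by rw [hx]; field_simp; ring
    rwa [this, norm_div, div_lt_iff₀' (norm_pos_iff.2 ha0)]
  have hr0 : 0 < r := (norm_nonneg _).trans_lt hxy
  have hKM : K ≤ K ⊔ adjoin k {z} := le_sup_left
  have hxM : x ∈ K ⊔ adjoin k {z} := div_mem (sub_mem (self_mem_sup K z) (hKM hc)) (hKM ha)
  have hsep : IsSeparable ↥(K ⊔ adjoin k {z}) y :=
    isSeparable_of_le (sup_adjoin_le hKM hxM) (hK.sep_near hy hr hxL hxy)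
  have halg' := alg_of_gen halg hKM hsep.isIntegral.isAlgebraic
  refine ⟨hb.fix _ (alg_hens halg') y (isSeparable_of_le (le_hens _) hsep) fun σ => ?_, halg'⟩
  have hiso := hh _ halg' σ
  have hKH := hKM.trans (le_hens (K ⊔ adjoin k {z}))
  by_contra hne
  have ht : 0 < ‖σ y - y‖ := norm_pos_iff.2 (sub_ne_zero.2 hne)
  have htr : ‖σ y - y‖ ≤ r := le_of_forall_gt fun s hs => by
    obtain ⟨d, hd, h⟩ := hr' s hs
    have := norm_sub_lt_of (a := σ (y - d)) (by rwa [hiso]) h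
    rwa [map_sub, aut_apply_of_mem σ (hKH hd), sub_sub_sub_cancel_right] at this
  obtain ⟨Q, hQ, h1⟩ := hK.dense hy hxL (lt_min ht hr0)
  have h2 : ‖(Q - X).eval y‖ < r := by
    have := norm_sub_lt_of hxy (h1.trans_le (min_le_right _ _))
    rw [sub_sub_sub_cancel_left] at this
    simpa using this
  have h3 := (hK.lip hr htr _ (sub_mem hQ X_mem_co)).2
  have h4 : (Q - X).eval (y + (σ y - y)) - (Q - X).eval y =
      -(σ y - y) + ((x - Q.eval y) - σ (x - Q.eval y)) := by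
    rw [add_sub_cancel, map_sub, aut_apply_of_mem σ (le_hens _ hxM), aut_eval (co_mono hKH hQ)]
    simp only [eval_sub, eval_X]; ring
  have h5 := h1.trans_le (min_le_left _ _)
  rw [h4, norm_add_eq_left (by rw [norm_neg]; exact norm_sub_lt_of h5 (by rwa [hiso])),
    norm_neg, mul_comm] at h3
  exact h3.not_gt (mul_lt_mul_of_pos_right h2 ht)

omit [Ctx k Ω] in
theorem near_zero {s : ℝ} {t : Ω} (ht : ‖t‖ ≤ s) (S : Polynomial Ω)
    (hS : ∀ a, S.eval a = 0 → s ≤ ‖a‖) : ‖S.eval t - S.eval 0‖ * s ≤ ‖S.eval 0‖ * ‖t‖ := by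
  have hs : 0 ≤ s := (norm_nonneg _).trans ht
  have hT : AC (⊤ : IntermediateField Ω Ω) := ⟨fun _ _ => mem_top, fun a => ⟨a, mem_top, rfl⟩⟩
  refine (hT.induction (M := fun S => (∀ a, S.eval a = 0 → s ≤ ‖a‖) → ‖S.eval t‖ ≤ ‖S.eval 0‖ ∧
    ‖S.eval t - S.eval 0‖ * s ≤ ‖S.eval 0‖ * ‖t‖) (fun a _ _ => by simp [mul_nonneg]) ?_ S
    (mem_co_iff.2 fun _ => mem_top) hS).2
  intro a _ Q _ ih h
  obtain ⟨h1, h2⟩ := ih fun b hb => h b (by simp [hb])
  have ha : s ≤ ‖a‖ := h a (by simp)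
  simp only [eval_mul, eval_sub, eval_X, eval_C, zero_sub]
  constructor
  · rw [norm_mul, norm_mul, norm_neg]
    exact mul_le_mul (norm_sub_le_of (ht.trans ha) le_rfl) h1 (norm_nonneg _) (norm_nonneg _)
  · have : (t - a) * eval t Q - -a * eval 0 Q = -a * (eval t Q - eval 0 Q) + t * eval t Q := by
      ring
    rw [this]
    refine (mul_le_mul_of_nonneg_right (IsUltrametricDist.norm_add_le_max _ _) hs).trans ?_
    rw [max_mul_of_nonneg _ _ hs, norm_mul, norm_mul, norm_mul, norm_neg]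
    refine max_le ?_ ?_
    · rw [mul_assoc, mul_assoc]; exact mul_le_mul_of_nonneg_left h2 (norm_nonneg _)
    · calc ‖t‖ * ‖eval t Q‖ * s ≤ ‖t‖ * ‖eval 0 Q‖ * ‖a‖ :=
            mul_le_mul (mul_le_mul_of_nonneg_left h1 (norm_nonneg _)) ha hs (by positivity)
        _ = _ := by ring

/-- Two generators with the same distance are proportional up to a smaller error. -/
theorem AC.key (hK : AC K) {y u : Ω} (hy : y ∉ K) (hu : u ∉ K) {r : ℝ} (hr0 : 0 < r)
    (hr : ∀ c ∈ K, r ≤ ‖y - c‖) (hr' : ∀ s, r < s → ∃ c ∈ K, ‖y - c‖ < s)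
    (hu' : ∀ s, r < s → ∃ c ∈ K, ‖u - c‖ < s) (h1 : u ∈ hens (K ⊔ adjoin k {y}))
    (h2 : y ∈ hens (K ⊔ adjoin k {u})) :
    ∃ a : k, ∃ c ∈ K, ‖u - algebraMap k Ω a * y - c‖ < r := by
  classical
  obtain ⟨Q, hQ, q1⟩ := hK.dense hu h2 hr0
  obtain ⟨ε, hε, hcont⟩ := Metric.continuousAt_iff.1 (Q.continuous.continuousAt (x := u)) r hr0
  obtain ⟨P, hP, p1⟩ := hK.dense hy h1 (lt_min hε hr0)
  have hR : Q.comp P - X ∈ Co K := sub_mem (comp_mem_co hQ hP) X_mem_co
  have hRy : ‖(Q.comp P - X).eval y‖ < r := by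
    have g := hcont (x := P.eval y) (by
      rw [dist_eq_norm, norm_sub_rev]; exact p1.trans_le (min_le_left _ _))
    rw [dist_eq_norm] at g
    have := norm_sub_lt_of g q1
    rw [sub_sub_sub_cancel_right] at this
    simpa using this
  have hd0 : P.derivative.eval y ≠ 0 := fun g => by
    have := (hK.der_le hr0.le hr _ hR).trans_lt hRy
    rw [derivative_sub, derivative_comp] at this
    simp [g] at this
  set S := divX (taylor y P) with hS
  have hS0 : S.eval 0 = P.derivative.eval y := by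
    rw [← coeff_zero_eq_eval_zero, hS, coeff_divX, zero_add, taylor_coeff_one]
  have hSt : ∀ t, P.eval (y + t) = P.eval y + S.eval t * t := fun t => by
    have := congrArg (eval t) (divX_mul_X_add (taylor y P))
    rw [taylor_eval, taylor_coeff_zero] at this
    rw [add_comm y, ← this]; simp [hS, add_comm]
  have hroot : ∀ t, S.eval t = 0 → r < ‖t‖ := fun t ht => by
    by_contra g
    have t0 : 0 < ‖t‖ := norm_pos_iff.2 (by rintro rfl; exact hd0 (hS0 ▸ ht))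
    have := (hK.lip hr (not_lt.1 g) _ hR).2
    simp only [eval_sub, eval_comp, eval_X] at this hRy
    rw [hSt, ht, zero_mul, add_zero, sub_sub_sub_cancel_left, sub_add_cancel_left, norm_neg,
      mul_comm] at this
    exact this.not_gt (mul_lt_mul_of_pos_right hRy t0)
  have hSne : S ≠ 0 := fun g => hd0 (by rw [← hS0, g, eval_zero])
  obtain ⟨a, ha, a1⟩ := hK.approx hd0
  have a2 : ‖a‖ = ‖P.derivative.eval y‖ := norm_eq_of_norm_sub_lt a1
  have a0 : 0 < ‖a‖ := a2 ▸ norm_pos_iff.2 hd0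
  obtain ⟨r2, g1, g2⟩ := ((eventually_all_finset S.roots.toFinset).2 fun t ht =>
    eventually_le_nhds (hroot t (isRoot_of_mem_roots (Multiset.mem_toFinset.1 ht)))).exists_gt
  have e1 : ∀ᶠ s in 𝓝 r, s * s < r * r2 :=
    ContinuousAt.eventually_lt (by fun_prop) (by fun_prop) (mul_lt_mul_of_pos_left g1 hr0)
  have e2 : ∀ᶠ s in 𝓝 r, ‖P.derivative.eval y - a‖ * s < ‖a‖ * r :=
    ContinuousAt.eventually_lt (by fun_prop) (by fun_prop)
      (mul_lt_mul_of_pos_right (a2 ▸ a1) hr0)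
  obtain ⟨s, s1, ⟨s2, s3⟩, s4⟩ := ((e1.and e2).and (eventually_le_nhds g1)).exists_gt
  obtain ⟨c, hc, c1⟩ := hr' s s1
  rw [norm_sub_rev] at c1
  have n1 := near_zero (c1.le.trans s4) S fun t ht =>
    g2 t (Multiset.mem_toFinset.2 ((mem_roots hSne).2 ht))
  rw [hS0, ← a2] at n1
  have n2 : ‖(S.eval (c - y) - a) * (c - y)‖ < ‖a‖ * r := by
    rw [← sub_add_sub_cancel _ (P.derivative.eval y), add_mul]
    refine norm_add_lt_of ?_ ?_ <;> rw [norm_mul]
    · refine lt_of_mul_lt_mul_right ?_ (hr0.trans g1).le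
      calc _ = ‖S.eval (c - y) - P.derivative.eval y‖ * r2 * ‖c - y‖ := by ring
        _ ≤ ‖a‖ * ‖c - y‖ * ‖c - y‖ := mul_le_mul_of_nonneg_right n1 (norm_nonneg _)
        _ ≤ ‖a‖ * (s * s) := by
          rw [mul_assoc]
          exact mul_le_mul_of_nonneg_left (mul_self_le_mul_self (norm_nonneg _) c1.le) a0.le
        _ < _ := by rw [mul_assoc]; exact mul_lt_mul_of_pos_left s2 a0
    · exact (mul_le_mul_of_nonneg_left c1.le (norm_nonneg _)).trans_lt s3
  set c1' := P.eval c - a * c with hc1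
  have hc1K : c1' ∈ K := sub_mem (eval_mem_of_co hP hc) (mul_mem ha hc)
  have n3 : u - a * y - c1' = (u - P.eval y) - (S.eval (c - y) - a) * (c - y) := by
    have := hSt (c - y)
    rw [add_sub_cancel] at this
    rw [hc1, this]; ring
  have p2 := p1.trans_le (min_le_right _ _)
  have a3 : ‖a‖ ≤ 1 := by
    by_contra g
    have g' : r < ‖a‖ * r := lt_mul_of_one_lt_left hr0 (not_le.1 g)
    obtain ⟨d, hd, d1⟩ := hu' _ g'
    have m1 := norm_sub_lt_of d1 (n3 ▸ norm_sub_lt_of (p2.trans g') n2)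
    have a0' : a ≠ 0 := norm_pos_iff.1 a0
    have m2 : u - d - (u - a * y - c1') = a * (y - (d - c1') / a) := by field_simp; ring
    rw [m2, norm_mul] at m1
    exact (hr _ (div_mem (sub_mem hd hc1K) ha)).not_gt (lt_of_mul_lt_mul_left m1 a0.le)
  have n4 : ‖u - a * y - c1'‖ < r :=
    n3 ▸ norm_sub_lt_of p2 (n2.trans_le (mul_le_of_le_one_left hr0.le a3))
  obtain ⟨b, b1⟩ := Ctx.res (k := k) a a3
  have e3 : ∀ᶠ s in 𝓝 r, ‖a - algebraMap k Ω b‖ * s < r :=
    ContinuousAt.eventually_lt (by fun_prop) (by fun_prop) (mul_lt_of_lt_one_left hr0 b1)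
  obtain ⟨s', t1, t2⟩ := e3.exists_gt
  obtain ⟨d, hd, d1⟩ := hr' s' t1
  refine ⟨b, c1' + (a - algebraMap k Ω b) * d,
    add_mem hc1K (mul_mem (sub_mem ha (K.algebraMap_mem b)) hd), ?_⟩
  have : u - algebraMap k Ω b * y - (c1' + (a - algebraMap k Ω b) * d) =
      (u - a * y - c1') + (a - algebraMap k Ω b) * (y - d) := by ring
  rw [this]
  refine norm_add_lt_of n4 ?_
  rw [norm_mul]
  exact (mul_le_mul_of_nonneg_left d1.le (norm_nonneg _)).trans_lt t2

variable [hp : Fact p.Prime] [CharP Ω p]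

/-- Descent of the generator by an almost unimodular trace. -/
theorem AC.descent (hb : HB k Ω p) (hh : HensStmt k Ω) (hK : AC K) {E : IntermediateField k Ω}
    (haE : Algebra.IsAlgebraic E Ω) (hE : IsHens E)
    (hσ : ∀ σ : Ω ≃ₐ[E] Ω, ∀ c ∈ K, σ c ∈ K) (hsep : ∀ c ∈ K, IsSeparable E c) {y b : Ω}
    (hy : y ∉ K) (halg : Algebra.IsAlgebraic ↥(K ⊔ adjoin k {y}) Ω)
    (hsup : hens (K ⊔ adjoin k {y}) = E ⊔ K) (hbK : b ∈ K) {W : Polynomial Ω} (hW : W ∈ Co E)
    (hyW : y = W.eval b) {r : ℝ} (hr0 : 0 < r) (hr : ∀ c ∈ K, r ≤ ‖y - c‖)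
    (hr' : ∀ s, r < s → ∃ c ∈ K, ‖y - c‖ < s) :
    ∃ z ∈ E, y ∈ hens (K ⊔ adjoin k {z}) ∧ Algebra.IsAlgebraic ↥(K ⊔ adjoin k {z}) Ω := by
  classical
  have hyL : y ∈ E ⊔ K := hsup ▸ le_hens _ (self_mem_sup K y)
  have hst : ∀ σ : Ω ≃ₐ[E] Ω, ∀ a ∈ E ⊔ K, σ a ∈ E ⊔ K := fun σ a ha =>
    (sup_le (fun c hc => show σ c ∈ E ⊔ K by
        rw [aut_apply_of_mem σ hc]; exact (le_sup_left : E ≤ _) hc)
      (fun c hc => (le_sup_right : K ≤ _) (hσ σ c hc)) :
      E ⊔ K ≤ (E ⊔ K).comap (σ.restrictScalars k).toAlgHom) ha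
  set f := (minpoly E b).map (algebraMap E Ω) with hf
  have hf0 : f ≠ 0 := map_ne_zero (minpoly.ne_zero (haE.1 b).isIntegral)
  set R := f.roots.toFinset with hR
  have hRm : ∀ β, β ∈ R ↔ f.eval β = 0 := fun β => by rw [Multiset.mem_toFinset, mem_roots hf0]; rfl
  have hbR : b ∈ R := (hRm b).2 (by rw [eval_map_algebraMap, minpoly.aeval])
  have hex : ∀ β ∈ R, (β ∈ K ∧ ‖β‖ = ‖b‖ ∧ W.eval β ∈ E ⊔ K) ∧ ∃ a : k, ∃ c ∈ K,
      ‖W.eval β - algebraMap k Ω a * y - c‖ < r ∧ (β = b → a = 1) := fun β hβ => by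
    obtain ⟨σ, rfl⟩ := HensB.conj E haE (Multiset.mem_toFinset.1 hβ)
    have e1 : W.eval (σ b) = σ y := by rw [hyW, aut_eval hW]
    refine ⟨⟨hσ σ b hbK, hE σ b, e1 ▸ hst σ y hyL⟩, ?_⟩
    by_cases g : σ b = b
    · exact ⟨1, 0, zero_mem _, by rw [g, ← hyW]; simpa, fun _ => rfl⟩
    obtain ⟨a, c, hc, h⟩ := hK.key (u := σ y) hy (fun g => hy (by simpa using hσ σ.symm _ g))
      hr0 hr hr' (fun s hs => by
        obtain ⟨c, hc, h⟩ := hr' s hs
        exact ⟨σ c, hσ σ c hc, by rwa [← map_sub, hE]⟩) (hsup ▸ hst σ y hyL) (by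
        have := map_mem_hens (M := K ⊔ adjoin k {y}) (N := K ⊔ adjoin k {σ y}) (σ : Ω →+* Ω)
          (hE σ) (fun a ha => (sup_adjoin_le (fun c hc => show σ c ∈ K ⊔ adjoin k {σ y} from
            (le_sup_left : K ≤ _) (hσ σ c hc))
            (self_mem_sup K (σ y)) : K ⊔ adjoin k {y} ≤
              (K ⊔ adjoin k {σ y}).comap (σ.restrictScalars k).toAlgHom) ha)
          (hsup ▸ hst σ.symm y hyL)
        simpa using this)
    exact ⟨a, c, hc, e1 ▸ h, fun h => absurd h g⟩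
  choose! hβ a c hc he ha using hex
  obtain ⟨s, s1, s2, s3⟩ := (((eventually_all_finset R).2 fun β h =>
    eventually_ge_nhds (he β h)).and (eventually_gt_nhds hr0)).exists_lt
  set ℓ : Polynomial Ω := ∏ β ∈ R.erase b, (X - C β) with hℓ
  have hℓb : 0 < ‖ℓ.eval b‖ := by
    rw [norm_pos_iff, hℓ, eval_prod]
    exact Finset.prod_ne_zero_iff.2 fun β h => by
      simpa [sub_eq_zero] using (Finset.ne_of_mem_erase h).symm
  set m := ∑ i ∈ Finset.range (ℓ.natDegree + 1), ‖ℓ.coeff i‖ * ‖b‖ ^ i + 1 with hm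
  have hm0 : 0 < m := by positivity
  have hsr : s / r < 1 := (div_lt_one hr0).2 s1
  obtain ⟨j, hj⟩ := exists_pow_lt_of_lt_one (div_pos hℓb hm0) hsr
  have hj' : (s / r) ^ p ^ j * m < ‖ℓ.eval b‖ := by
    rw [← lt_div_iff₀ hm0]
    exact (pow_le_pow_of_le_one (by positivity) hsr.le
      (Nat.lt_pow_self hp.out.one_lt).le).trans_lt hj
  obtain ⟨i, hi, hi'⟩ : ∃ i ∈ Finset.range (ℓ.natDegree + 1), ‖ℓ.eval b‖ ≤
      ‖ℓ.coeff i * ∑ β ∈ R, β ^ i * algebraMap k Ω (a β) ^ p ^ j‖ := by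
    by_contra g
    push Not at g
    refine (norm_sum_lt_of hℓb g).ne (congrArg norm ?_)
    simp only [Finset.mul_sum, ← mul_assoc]
    rw [Finset.sum_comm]
    simp only [← Finset.sum_mul, ← eval_eq_sum_range]
    rw [← Finset.add_sum_erase _ _ hbR, ha b hbR rfl, Finset.sum_eq_zero]
    · simp
    intro β h
    rw [hℓ, eval_prod, Finset.prod_eq_zero h (by simp), zero_mul]
  set α := ∑ β ∈ R, rt p j (β ^ i) * algebraMap k Ω (a β) with hα
  have hθK : ∀ β ∈ R, rt p j (β ^ i) ∈ K := fun β h => hK.rt_mem j (pow_mem (hβ β h).1 i)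
  have hθ : ∀ β ∈ R, ‖rt p j (β ^ i)‖ * s < ‖α‖ * r := fun β h => by
    refine lt_of_pow_lt_pow_left₀ (p ^ j) (by positivity) ?_
    rw [mul_pow, mul_pow, ← norm_pow, ← norm_pow, rt_pow, hα, sum_pow_char_pow, norm_pow,
      (hβ β h).2.1, ← div_lt_iff₀ (by positivity), mul_div_assoc, ← div_pow]
    simp only [mul_pow, rt_pow]
    rw [norm_mul] at hi'
    refine lt_of_mul_lt_mul_left (lt_of_lt_of_le (lt_of_le_of_lt ?_ hj') hi') (norm_nonneg _)
    rw [← mul_assoc, mul_comm]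
    refine mul_le_mul_of_nonneg_left ?_ (by positivity)
    have := Finset.single_le_sum (f := fun i => ‖ℓ.coeff i‖ * ‖b‖ ^ i) (fun _ _ => by positivity) hi
    rw [hm]; linarith
  set z := ∑ β ∈ R, rt p j (β ^ i) * W.eval β with hz
  have hzL : z ∈ E ⊔ K := sum_mem fun β h =>
    mul_mem ((le_sup_right : K ≤ _) (hθK β h)) (hβ β h).2.2
  refine ⟨z, hb.fix E haE z (SepOver.sup (sepOver_self E) hsep z hzL) fun τ => ?_, ?_⟩
  · have h1 : R.map τ.toEquiv.toEmbedding = R := by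
      refine Finset.eq_of_subset_of_card_le (fun x hx => ?_) (by simp)
      obtain ⟨β, h, rfl⟩ := Finset.mem_map.1 hx
      have := aut_eval (σ := τ) (map_mem_co (minpoly E b)) β
      rw [(hRm β).1 h, map_zero] at this
      exact (hRm _).2 this.symm
    conv_rhs => rw [hz, ← h1, Finset.sum_map]
    rw [hz, map_sum]
    refine Finset.sum_congr rfl fun β _ => ?_
    rw [map_mul, aut_eval hW]
    congr 1
    refine pow_inj (p := p) (i := j) ?_
    rw [← map_pow, rt_pow, rt_pow, map_pow]; rfl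
  refine hK.gen hb hh (a := α) (c := ∑ β ∈ R, rt p j (β ^ i) * c β) hy halg hr hr' (hsup ▸ hzL)
    (sum_mem fun β h => mul_mem (hθK β h) (K.algebraMap_mem _))
    (sum_mem fun β h => mul_mem (hθK β h) (hc β h)) ?_
  have h2 : z - α * y - ∑ β ∈ R, rt p j (β ^ i) * c β =
      ∑ β ∈ R, rt p j (β ^ i) * (W.eval β - algebraMap k Ω (a β) * y - c β) := by
    rw [hz, hα, Finset.sum_mul, ← Finset.sum_sub_distrib, ← Finset.sum_sub_distrib]
    exact Finset.sum_congr rfl fun β _ => by ring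
  rw [h2]
  refine norm_sum_lt_of ((by positivity : (0 : ℝ) ≤ _).trans_lt (hθ b hbR)) fun β h => ?_
  rw [norm_mul]
  exact (mul_le_mul_of_nonneg_left (s2 β h) (norm_nonneg _)).trans_lt (hθ β h)

end Pool.Agent.MP_19ffc6_ag.LU.Rel

end MrgPart3

-- ======== part 4: formerly Pool.Agent.MP_19ffc6_ag.LU2.Rel
section MrgPart4

/-! Relative uniformization after a purely inseparable extension of the base. -/

namespace Pool.Agent.MP_19ffc6_ag.LU.Rel

open Polynomial IntermediateField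

variable {k Ω : Type*} [Field k] [NontriviallyNormedField Ω] [Algebra k Ω]

theorem fin_mem {A X : IntermediateField k Ω} {a : Ω} (ha : a ∈ A ⊔ X) :
    ∃ S : Finset Ω, (S : Set Ω) ⊆ X ∧ a ∈ A ⊔ adjoin k (S : Set Ω) := by
  rw [← adjoin_self k X, mem_sup_iff_mem_adjoin] at ha
  obtain ⟨S, h1, h2⟩ := exists_finset_of_mem_adjoin ha
  exact ⟨S, h1, mem_sup_iff_mem_adjoin.2 h2⟩

theorem sup_adjoin_mono (A : IntermediateField k Ω) {S T : Set Ω} (h : S ⊆ T) :
    A ⊔ adjoin k S ≤ A ⊔ adjoin k T := sup_le_sup_left (adjoin.mono k S T h) A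

/-- A monotone finiteness property passes to finite sets. -/
theorem fin_set {ι : Type*} {X : Set Ω} {P : ι → Finset Ω → Prop}
    (hP : ∀ i S T, S ⊆ T → P i S → P i T) (t : Finset ι)
    (h : ∀ i ∈ t, ∃ S : Finset Ω, (S : Set Ω) ⊆ X ∧ P i S) :
    ∃ S : Finset Ω, (S : Set Ω) ⊆ X ∧ ∀ i ∈ t, P i S := by
  classical
  choose! S h1 h2 using h
  refine ⟨t.biUnion S, fun x hx => ?_, fun i hi => hP i _ _ (Finset.subset_biUnion_of_mem S hi)
    (h2 i hi)⟩
  obtain ⟨i, hi, hx⟩ := Finset.mem_biUnion.1 hx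
  exact h1 i hi hx

theorem fin_co {A X : IntermediateField k Ω} {P : Polynomial Ω} (hP : ∀ i, P.coeff i ∈ A ⊔ X) :
    ∃ S : Finset Ω, (S : Set Ω) ⊆ X ∧ P ∈ Co (A ⊔ adjoin k (S : Set Ω)) := by
  have hm : ∀ (i : ℕ) (S T : Finset Ω), S ⊆ T → P.coeff i ∈ A ⊔ adjoin k (S : Set Ω) →
      P.coeff i ∈ A ⊔ adjoin k (T : Set Ω) := by
    intro i S T h g
    have h' : A ⊔ adjoin k (S : Set Ω) ≤ A ⊔ adjoin k (T : Set Ω) :=
      sup_adjoin_mono A (Finset.coe_subset.2 h)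
    exact h' g
  obtain ⟨S, h1, h2⟩ := fin_set (X := X) hm P.support fun i _ => fin_mem (hP i)
  refine ⟨S, h1, mem_co_iff.2 fun i => ?_⟩
  by_cases h : i ∈ P.support
  · exact h2 i h
  · rw [notMem_support_iff.1 h]; exact zero_mem _

/-- Elements of a compositum with an algebraic extension of a perfect field. -/
theorem prim {P0 X K : IntermediateField k Ω} [PerfectField P0] (hX : P0 ≤ X) (hK : P0 ≤ K)
    (halg : ∀ c ∈ K, IsAlgebraic P0 c) {a : Ω} (ha : a ∈ X ⊔ K) :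
    ∃ b ∈ K, ∃ W ∈ Co X, a = W.eval b := by
  obtain ⟨S, h1, h2⟩ := fin_mem ha
  have : FiniteDimensional P0 (adjoin P0 (S : Set Ω)) :=
    finiteDimensional_adjoin fun x hx => (halg x (h1 hx)).isIntegral
  obtain ⟨α, hα⟩ := Field.exists_primitive_element P0 (adjoin P0 (S : Set Ω))
  have h3 := congrArg lift hα
  rw [lift_adjoin_simple, lift_top] at h3
  have hαK : (α : Ω) ∈ K :=
    (sup_le hK (adjoin_le_iff.2 h1) : P0 ⊔ adjoin k (S : Set Ω) ≤ K) (mem_sup_iff_mem_adjoin.2 α.2)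
  have h4 : a ∈ X ⊔ adjoin k {(α : Ω)} := by
    refine (sup_le le_sup_left (adjoin_le_iff.2 fun x hx => ?_) :
      X ⊔ adjoin k (S : Set Ω) ≤ X ⊔ adjoin k {(α : Ω)}) h2
    refine sup_le_sup_right hX _ (mem_sup_iff_mem_adjoin.2 ?_)
    rw [h3]; exact subset_adjoin _ _ hx
  rw [mem_sup_iff_mem_adjoin, ← mem_toSubalgebra,
    adjoin_simple_toSubalgebra_of_isAlgebraic (isAlgebraic_of_le hX (halg _ hαK)),
    Algebra.adjoin_singleton_eq_range_aeval] at h4
  obtain ⟨W, rfl⟩ := h4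
  exact ⟨α, hαK, _, map_mem_co W, by rw [eval_map_algebraMap]; rfl⟩

/-- A separating element over a perfect base. -/
theorem exists_sep {P0 F : IntermediateField k Ω} [PerfectField P0] (hF : F.FG) {w0 : Ω}
    (halg : Algebra.IsAlgebraic ↥(P0 ⊔ adjoin k {w0}) Ω) :
    ∃ w ∈ P0 ⊔ F, SepOver (P0 ⊔ adjoin k {w}) (P0 ⊔ F) := by
  classical
  obtain ⟨Φ, rfl⟩ := hF
  let N : IntermediateField P0 Ω := adjoin P0 (Φ : Set Ω)
  have : Algebra.EssFiniteType P0 N := essFiniteType_iff.2 (fg_adjoin_finset Φ)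
  obtain ⟨T, hT, hsep⟩ := exists_isTranscendenceBasis_and_isSeparable_of_perfectField P0 N
  have h1 : Algebra.trdeg P0 Ω ≤ 1 := by
    have : Algebra.IsAlgebraic (adjoin P0 {w0}) Ω := by
      rw [← restrictScalars_adjoin_eq_sup] at halg; exact halg
    have : Algebra.IsAlgebraic (Algebra.adjoin P0 {w0}) Ω := isAlgebraic_adjoin_iff_top.1 this
    simpa using Algebra.IsAlgebraic.trdeg_le_cardinalMk P0 ({w0} : Set Ω)
  have h2 : T.card ≤ 1 := by
    have := ((hT.1.map' (f := N.val) Subtype.val_injective).cardinalMk_le_trdeg).trans h1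
    rw [Cardinal.mk_fintype, Fintype.card_coe] at this
    exact_mod_cast this
  obtain ⟨w, hw⟩ := Finset.card_le_one_iff_subset_singleton.1 h2
  refine ⟨w, mem_sup_iff_mem_adjoin.2 w.2, fun a ha => sep_iff.2 ?_⟩
  refine isSeparable_of_le (adjoin.mono _ _ _ ?_)
    (Init.sepOver_of _ hsep a (mem_sup_iff_mem_adjoin.1 ha))
  rintro _ ⟨x, hx, rfl⟩
  rw [Finset.mem_singleton.1 (hw hx)]; rfl

variable [IsAlgClosed Ω]

/-- Linear disjointness from an algebraically closed subfield. -/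
theorem disjoint_alg {K E H : IntermediateField k Ω} (haE : Algebra.IsAlgebraic E Ω)
    (hσ : ∀ σ : Ω ≃ₐ[E] Ω, ∀ c ∈ K, σ c ∈ K) (h1 : E ⊓ K ≤ H) (h2 : H ≤ E) {e b : Ω} (he : e ∈ E)
    (hb : b ∈ K) {W : Polynomial Ω} (hW : W ∈ Co H) (h : e = W.eval b) : e ∈ H := by
  have hi := (haE.1 b).isIntegral
  set g := (minpoly E b).map (algebraMap E Ω) with hg
  have hm : g.Monic := (minpoly.monic hi).map _
  have hgK : g ∈ Co K := by
    rw [(IsAlgClosed.splits g).eq_prod_roots_of_monic hm]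
    refine multiset_prod_mem _ fun q hq => ?_
    obtain ⟨β, hβ, rfl⟩ := Multiset.mem_map.1 hq
    obtain ⟨σ, rfl⟩ := HensB.conj E haE hβ
    exact sub_mem X_mem_co (C_mem_co (hσ σ b hb))
  have hgH : g ∈ Co H := mem_co_iff.2 fun i =>
    h1 ⟨mem_co_iff.1 (map_mem_co _) i, mem_co_iff.1 hgK i⟩
  have hW' : W %ₘ g ∈ Co H := by
    obtain ⟨W0, rfl⟩ := co_exists hW
    obtain ⟨g0, h0⟩ := co_exists hgH
    rw [← h0, ← map_modByMonic _ (monic_map_iff.1 (h0 ▸ hm))]; exact map_mem_co _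
  have hgb : g.eval b = 0 := by rw [eval_map_algebraMap, minpoly.aeval]
  obtain ⟨V, hV⟩ := co_exists (sub_mem (co_mono h2 hW') (C_mem_co he))
  have hV0 : V = 0 := by
    by_contra g0
    have h3 := minpoly.degree_le_of_ne_zero E b g0 (by
      rw [← eval_map_algebraMap, hV, eval_sub, eval_C, h, modByMonic_eq_sub_mul_div]
      simp [hgb])
    rw [← degree_map _ (algebraMap E Ω), ← degree_map V (algebraMap E Ω), hV, ← hg] at h3
    refine h3.not_gt ((degree_sub_le _ _).trans_lt (max_lt (degree_modByMonic_lt _ hm)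
      (degree_C_le.trans_lt ?_)))
    rw [hg, degree_map]; exact minpoly.degree_pos hi
  rw [hV0, Polynomial.map_zero, eq_comm, sub_eq_zero] at hV
  simpa [hV] using mem_co_iff.1 hW' 0

variable [IsUltrametricDist Ω] [Ctx k Ω] {p : ℕ}

omit [IsAlgClosed Ω] in
/-- The henselization commutes with directed unions. -/
theorem fin_hens (hb : HB k Ω p) (hh : HensStmt k Ω) (heta : EtaStmt k Ω)
    {A X : IntermediateField k Ω} (hA : Algebra.IsAlgebraic A Ω) {z : Ω} (hz : z ∈ hens (A ⊔ X)) :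
    ∃ S : Finset Ω, (S : Set Ω) ⊆ X ∧ z ∈ hens (A ⊔ adjoin k (S : Set Ω)) := by
  classical
  wlog h1 : ‖z‖ ≤ 1 generalizing z
  · obtain ⟨S, g1, g2⟩ := this (inv_mem hz) (by
      rw [norm_inv]; exact inv_le_one_of_one_le₀ (not_le.1 h1).le)
    exact ⟨S, g1, by simpa using inv_mem g2⟩
  obtain ⟨η, P, -, e1, -, e2, e3, e4, -, e5⟩ := heta (A ⊔ X) {z} (by simpa using ⟨hz, h1⟩)
  obtain ⟨G, N, e6, e7⟩ := e5 z (by simp)
  obtain ⟨S1, s1, s2⟩ := fin_co fun i => (e2 i).1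
  obtain ⟨S2, s3, s4⟩ := fin_co fun i => (e6 i).1
  refine ⟨S1 ∪ S2, by rw [Finset.coe_union]; exact Set.union_subset s1 s3, ?_⟩
  set M := A ⊔ adjoin k ((S1 ∪ S2 : Finset Ω) : Set Ω) with hM
  have haM : Algebra.IsAlgebraic M Ω := alg_of_le le_sup_left hA
  have hP : P ∈ Co (hens M) := co_mono ((sup_adjoin_mono A (by simp)).trans (le_hens M)) s2
  have hG : G ∈ Co (hens M) := co_mono ((sup_adjoin_mono A (by simp)).trans (le_hens M)) s4
  obtain ⟨c, hc⟩ := Ctx.res (k := k) η e1.le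
  have hint : ∀ (a : Ω) (i : ℕ), ‖a‖ ≤ 1 → ‖(taylor a P).coeff i‖ ≤ 1 := fun a i ha => by
    rw [taylor_coeff, eval_eq_sum_range]
    refine norm_sum_le_of zero_le_one fun j _ => ?_
    rw [hasseDeriv_coeff, norm_mul, norm_mul, norm_pow]
    exact mul_le_one₀ (mul_le_one₀ (norm_natCast_le _) (norm_nonneg _) (e2 _).2) (by positivity)
      (pow_le_one₀ (norm_nonneg _) ha)
  have hsmall : ∀ j, ‖(taylor (algebraMap k Ω c) P).coeff (j + 2)‖ *
      ‖η - algebraMap k Ω c‖ ^ (j + 1) < 1 := fun j =>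
    mul_lt_one_of_nonneg_of_lt_one_right (hint _ _ (norm_alg_le c)) (by positivity)
      (pow_lt_one₀ (norm_nonneg _) hc j.succ_ne_zero)
  have hone : ‖(taylor (algebraMap k Ω c) P).coeff 1‖ = 1 := by
    set Q := taylor (algebraMap k Ω c) P with hQ
    have g1 : P.derivative.eval η = Q.derivative.eval (η - algebraMap k Ω c) := by
      rw [hQ, taylor_apply, derivative_comp]; simp
    rw [g1, eval_eq_sum_range' (n := Q.natDegree + 1)
      ((natDegree_derivative_le Q).trans_lt (by omega)), Finset.sum_range_succ', add_comm,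
      coeff_derivative] at e4
    simp only [Nat.cast_zero, zero_add, mul_one, pow_zero] at e4
    rw [← e4]
    refine norm_eq_of_norm_sub_lt ?_
    rw [add_sub_cancel_left, e4]
    refine norm_sum_lt_of one_pos fun j _ => lt_of_le_of_lt ?_ (hsmall j)
    rw [coeff_derivative, norm_mul, norm_mul, norm_pow]
    refine mul_le_mul_of_nonneg_right (mul_le_of_le_one_right (norm_nonneg _) ?_) (by positivity)
    exact_mod_cast norm_natCast_le (Ω := Ω) (j + 1 + 1)
  have hη : η ∈ hens M := by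
    have := lin hb (alg_hens haM) (hh M haM) (taylor_mem_co hP ((hens M).algebraMap_mem c))
      (Y := η - algebraMap k Ω c) (by rw [taylor_eval_sub, e3]; exact zero_mem _)
      (ne_zero_of_norm_eq_one hone) (by rw [hone]; exact hsmall)
    simpa using add_mem this ((hens M).algebraMap_mem c)
  rw [(eq_div_iff (mul_ne_zero (pow_ne_zero _ (ne_zero_of_norm_eq_one e1))
    (ne_zero_of_norm_eq_one e4))).2 e7]
  exact div_mem (eval_mem_of_co hG hη)
    (mul_mem (pow_mem hη _) (eval_mem_of_co (derivative_mem_co hP) hη))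

variable [hp : Fact p.Prime] [CharP Ω p]

/-- Henselian rationality over the implicit constants of the perfect hull of the base. -/
theorem rel_perf (hb : HB k Ω p) (hh : HensStmt k Ω) (hg : GalStmt k Ω p)
    {F P0 : IntermediateField k Ω} [PerfectField P0] (hF : F.FG) {w0 : Ω}
    (haF : Algebra.IsAlgebraic F Ω) (halg : Algebra.IsAlgebraic ↥(P0 ⊔ adjoin k {w0}) Ω)
    (hK : AC (acl P0)) (hne : ¬ F ≤ acl P0) :
    ∃ z ∈ hens (P0 ⊔ F), Algebra.IsAlgebraic ↥(P0 ⊔ adjoin k {z}) Ω ∧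
      hens (P0 ⊔ F) ≤ hens (hens (P0 ⊔ F) ⊓ acl P0 ⊔ adjoin k {z}) := by
  set K := acl P0 with hKdef
  set E := hens (P0 ⊔ F) with hEdef
  have ha1 : Algebra.IsAlgebraic ↥(P0 ⊔ F) Ω := alg_of_le le_sup_right haF
  have haE : Algebra.IsAlgebraic E Ω := alg_hens ha1
  have hE : IsHens E := hh _ ha1
  have hPE : P0 ≤ E := le_sup_left.trans (le_hens _)
  have hPK : P0 ≤ K := le_acl P0
  have hKalg : ∀ c ∈ K, IsAlgebraic P0 c := fun c hc => mem_acl.1 hc
  have hσ : ∀ σ : Ω ≃ₐ[E] Ω, ∀ c ∈ K, σ c ∈ K := fun σ c hc =>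
    mem_acl.2 ((hKalg c hc).algHom (resAut hPE σ).toAlgHom)
  have hsepK : ∀ c ∈ K, IsSeparable E c := fun c hc => isSeparable_of_le hPE
    (PerfectField.separable_of_irreducible (minpoly.irreducible (hKalg c hc).isIntegral))
  obtain ⟨w, hw, hsep⟩ := exists_sep hF halg
  have hwE : w ∈ E := le_hens _ hw
  have hle : P0 ⊔ adjoin k {w} ≤ K ⊔ adjoin k {w} := sup_le_sup_right hPK _
  have ha2 : Algebra.IsAlgebraic ↥(K ⊔ adjoin k {w}) Ω :=
    alg_of_le hle (alg_of_sepOver (sup_adjoin_le le_sup_left hw) hsep ha1)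
  have hwK : w ∉ K := fun h => hne fun a ha => hK.root a (isAlgebraic_of_le
    (sup_adjoin_le le_rfl h) (ha2.1 a))
  have hsep2 : SepOver (K ⊔ adjoin k {w}) (E ⊔ K) :=
    ((hsep.trans (sup_adjoin_le le_sup_left hw) (sepOver_hens _)).of_le_left hle).sup
      ((sepOver_self _).of_le_right le_sup_left)
  have haEK : Algebra.IsAlgebraic ↥(E ⊔ K) Ω := alg_of_le le_sup_left haE
  have hEK : IsHens (E ⊔ K) := hE.mono le_sup_left
  have hup : ∀ y ∈ E ⊔ K, hens (K ⊔ adjoin k {y}) ≤ E ⊔ K := fun y hy =>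
    hb.hens_le _ haEK hEK _ (sup_adjoin_le le_sup_right hy)
  have hwEK : w ∈ E ⊔ K := (le_sup_left : E ≤ _) hwE
  obtain ⟨y, y1, y2, y3, y4⟩ := hK.rational hb hh hg hEK le_sup_right hwEK hwK ha2 hsep2 (by
    refine (Main.relrank_le_of_le_right (hup w hwEK) ?_).trans_lt
      (Main.relrank_sup_lt_aleph0 (alg_hens ha2) hF)
    have g : K ≤ hens (K ⊔ adjoin k {w}) ⊔ F := (le_sup_left.trans (le_hens _)).trans le_sup_left
    exact sup_le (hb.hens_le _ (alg_of_le le_sup_right haF) ((hh _ ha2).mono le_sup_left) _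
      (sup_le (hPK.trans g) le_sup_right)) g)
  obtain ⟨z, z1, z2, z3⟩ : ∃ z ∈ E, y ∈ hens (K ⊔ adjoin k {z}) ∧
      Algebra.IsAlgebraic ↥(K ⊔ adjoin k {z}) Ω := by
    have hr' : ∀ s, Metric.infDist y (K : Set Ω) < s → ∃ c ∈ K, ‖y - c‖ < s := fun s hs => by
      simpa only [dist_eq_norm, SetLike.mem_coe] using
        (Metric.infDist_lt_iff ⟨0, K.zero_mem⟩).1 hs
    rcases (Metric.infDist_nonneg (x := y) (s := (K : Set Ω))).eq_or_lt with h0 | h0
    · refine ⟨w, hwE, mem_hens_iff.2 ⟨hsep2 y y1, fun ε hε => ?_⟩, ha2⟩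
      obtain ⟨c, hc, h⟩ := hr' ε (h0 ▸ hε)
      exact ⟨c, (le_sup_left : K ≤ _) hc, h⟩
    · obtain ⟨b, b1, W, b2, b3⟩ := prim hPE hPK hKalg y1
      exact hK.descent hb hh haE hE hσ hsepK y2 y3 (le_antisymm (hup y y1) y4) b1 b2 b3 h0
        (fun c hc => by simpa only [dist_eq_norm] using Metric.infDist_le_dist_of_mem hc) hr'
  have ha3 : Algebra.IsAlgebraic ↥(P0 ⊔ adjoin k {z}) Ω :=
    alg_of_forall z3 fun a ha => mem_acl.1 (sup_adjoin_le
      (fun c hc => mem_acl.2 (isAlgebraic_of_le le_sup_left (hKalg c hc)))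
      (le_acl _ (self_mem_sup P0 z)) ha)
  refine ⟨z, z1, ha3, fun e he => ?_⟩
  set H := hens (E ⊓ K ⊔ adjoin k {z}) with hH
  have hBH : E ⊓ K ≤ H := le_sup_left.trans (le_hens _)
  have ha4 : Algebra.IsAlgebraic ↥(E ⊓ K ⊔ adjoin k {z}) Ω :=
    alg_of_le (sup_le_sup_right (le_inf hPE hPK) _) ha3
  have h1 : e ∈ H ⊔ K := by
    have g1 : hens (K ⊔ adjoin k {z}) ≤ H ⊔ K := hb.hens_le _
      (alg_of_le le_sup_left (alg_hens ha4)) ((hh _ ha4).mono le_sup_left) _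
      (sup_adjoin_le le_sup_right ((le_sup_left : H ≤ _) (le_hens _ (self_mem_sup _ z))))
    exact g1 (hb.hens_le _ (alg_hens z3) (hh _ z3) _
      (sup_adjoin_le (le_sup_left.trans (le_hens _)) z2) (y4 ((le_sup_left : E ≤ _) he)))
  obtain ⟨b, b1, W, b2, b3⟩ := prim ((le_inf hPE hPK).trans hBH) hPK hKalg h1
  exact disjoint_alg haE hσ hBH (hb.hens_le E haE hE _ (sup_adjoin_le inf_le_left z1)) he b1 b2 b3

/-- Relative uniformization after a finite purely inseparable extension of the base. -/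
theorem rel (hb : HB k Ω p) (hh : HensStmt k Ω) (hg : GalStmt k Ω p) (heta : EtaStmt k Ω) :
    ∀ (F K1 : IntermediateField k Ω) (w0 : Ω), F.FG → K1.FG → K1 ≤ F →
      Algebra.IsAlgebraic F Ω → Algebra.IsAlgebraic ↥(K1 ⊔ adjoin k {w0}) Ω →
      (∀ a : Ω, a ≠ 0 → ∃ d : ℕ, 0 < d ∧ ∃ b ∈ K1, ‖b‖ = ‖a‖ ^ d) →
      ∃ (L1 F2 : IntermediateField k Ω) (y : Ω) (N : ℕ), L1.FG ∧ K1 ≤ L1 ∧
        (∀ a ∈ L1, IsAlgebraic K1 a) ∧ F2.FG ∧ F ≤ F2 ∧ (∀ a ∈ F2, a ^ p ^ N ∈ F) ∧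
        L1 ⊔ adjoin k {y} ≤ hens F2 ∧ F2 ≤ hens (L1 ⊔ adjoin k {y}) := by
  classical
  intro F K1 w0 hF hK1 hle haF halg hval
  by_cases hFK : F ≤ acl K1
  · exact ⟨F, F, 0, 0, hF, hle, fun a ha => mem_acl.1 (hFK ha), hF, le_rfl, by simp,
      sup_adjoin_le (le_hens F) (zero_mem _), le_sup_left.trans (le_hens _)⟩
  have : CharP K1 p := (algebraMap K1 Ω).charP (algebraMap K1 Ω).injective p
  let P0 : IntermediateField k Ω := (perfectClosure K1 Ω).restrictScalars k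
  have : PerfectField P0 := inferInstanceAs (PerfectField (perfectClosure K1 Ω))
  have hP0 : ∀ a ∈ P0, ∃ n : ℕ, a ^ p ^ n ∈ K1 := fun a ha => by
    obtain ⟨n, b, hb⟩ := (mem_perfectClosure_iff_pow_mem (F := K1) p).1 ha
    exact ⟨n, hb ▸ b.2⟩
  have hKP : K1 ≤ P0 := fun a ha => (perfectClosure K1 Ω).algebraMap_mem ⟨a, ha⟩
  have hPa : P0 ≤ acl K1 := fun a ha => by
    obtain ⟨n, h⟩ := hP0 a ha
    exact mem_acl.2 (IsAlgebraic.of_pow (pow_pos hp.out.pos n)
      (isAlgebraic_algebraMap (⟨_, h⟩ : K1)))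
  have hacl : acl P0 ≤ acl K1 := fun a ha => mem_acl_of_alg (isAlgebraic_of_le hPa (mem_acl.1 ha))
  have hK : AC (acl P0) := ⟨fun a => mem_acl_of_alg, fun a => by
    by_cases h0 : a = 0
    · exact ⟨0, zero_mem _, by rw [h0]⟩
    obtain ⟨d, hd, b, b1, b2⟩ := hval a h0
    obtain ⟨c, rfl⟩ := IsAlgClosed.exists_pow_nat_eq b hd
    refine ⟨c, mem_acl.2 (IsAlgebraic.of_pow hd (isAlgebraic_algebraMap (⟨_, hKP b1⟩ : P0))), ?_⟩
    rw [norm_pow] at b2
    exact (pow_left_inj₀ (norm_nonneg _) (norm_nonneg _) hd.ne').1 b2⟩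
  obtain ⟨z, z1, z2, z3⟩ := rel_perf hb hh hg hF haF (alg_of_le (sup_le_sup_right hKP _) halg) hK
    fun h => hFK (h.trans hacl)
  set B := hens (P0 ⊔ F) ⊓ acl P0 with hB
  have ha0 : Algebra.IsAlgebraic ↥(K1 ⊔ adjoin k {z}) Ω :=
    alg_of_forall z2 fun a ha => mem_acl.1 (sup_adjoin_le
      (fun c hc => mem_acl.2 (isAlgebraic_of_le le_sup_left (mem_acl.1 (hPa hc))))
      (le_acl _ (self_mem_sup K1 z)) ha)
  have hmono : ∀ (A : IntermediateField k Ω) (a : Ω) (S T : Finset Ω), S ⊆ T →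
      a ∈ hens (A ⊔ adjoin k (S : Set Ω)) → a ∈ hens (A ⊔ adjoin k (T : Set Ω)) :=
    fun A a S T h g => hens_mono (sup_adjoin_mono A (Finset.coe_subset.2 h)) g
  obtain ⟨Φ, hΦ⟩ := id hF
  obtain ⟨S1, s1, s2⟩ := fin_set (X := B) (hmono (K1 ⊔ adjoin k {z})) Φ fun a ha =>
    fin_hens hb hh heta ha0 (hens_mono (sup_le le_sup_right (le_sup_right.trans le_sup_left))
      (z3 (le_hens _ ((le_sup_right : F ≤ _) (hΦ ▸ subset_adjoin _ _ ha)))))
  obtain ⟨S2, s3, s4⟩ := fin_set (X := P0) (hmono F) (insert z S1) fun a ha =>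
    fin_hens hb hh heta haF (by
      rw [sup_comm]
      rcases Finset.mem_insert.1 ha with rfl | ha
      · exact z1
      · exact (s1 ha).1)
  obtain ⟨N, hN⟩ : ∃ N : ℕ, ∀ a ∈ S2, a ^ p ^ N ∈ K1 := by
    choose! n hn using hP0
    refine ⟨S2.sup n, fun a ha => ?_⟩
    obtain ⟨m, hm⟩ := Nat.exists_eq_add_of_le (Finset.le_sup (f := n) ha)
    rw [hm, pow_add, pow_mul]; exact pow_mem (hn a (s3 ha)) _
  set L1 := K1 ⊔ adjoin k ((S1 ∪ S2 : Finset Ω) : Set Ω) with hL1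
  set F2 := F ⊔ adjoin k (S2 : Set Ω) with hF2
  have hS : ((S1 ∪ S2 : Finset Ω) : Set Ω) ⊆ L1 := fun a ha =>
    (le_sup_right : adjoin k _ ≤ L1) (subset_adjoin _ _ ha)
  refine ⟨L1, F2, z, N, fg_sup hK1 (fg_adjoin_finset _), le_sup_left, fun a ha => mem_acl.1 ?_,
    fg_sup hF (fg_adjoin_finset _), le_sup_left, fun a ha => ?_, ?_, ?_⟩
  · refine (sup_le (le_acl K1) (adjoin_le_iff.2 fun b hb => ?_) : L1 ≤ acl K1) ha
    rcases Finset.mem_union.1 hb with h | h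
    · exact hacl (s1 h).2
    · exact hPa (s3 h)
  · let G : IntermediateField k Ω := (F.toSubfield.comap (iterateFrobenius Ω p N)).toIntermediateField
      fun c => pow_mem (F.algebraMap_mem c) _
    exact (sup_le (fun b hb => pow_mem hb _) (adjoin_le_iff.2 fun b hb => hle (hN b hb)) :
      F2 ≤ G) ha
  · refine sup_adjoin_le (sup_le ((hle.trans le_sup_left).trans (le_hens _))
      (adjoin_le_iff.2 fun b hb => ?_)) (s4 z (by simp))
    rcases Finset.mem_union.1 hb with h | h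
    · exact s4 b (Finset.mem_insert_of_mem h)
    · exact le_hens _ ((le_sup_right : adjoin k _ ≤ F2) (subset_adjoin _ _ h))
  · have g : L1 ≤ hens (L1 ⊔ adjoin k {z}) := le_sup_left.trans (le_hens _)
    refine sup_le ?_ (adjoin_le_iff.2 fun b hb => g (hS (by simp [Finset.mem_coe.1 hb])))
    rw [← hΦ]
    refine adjoin_le_iff.2 fun a ha => hens_mono (sup_le (sup_le_sup_right le_sup_left _)
      (adjoin_le_iff.2 fun b hb => ?_)) (s2 a ha)
    exact (le_sup_left : L1 ≤ _) (hS (by simp [Finset.mem_coe.1 hb]))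

end Pool.Agent.MP_19ffc6_ag.LU.Rel

namespace Pool.Agent.MP_19ffc6_ag.LU2

open Polynomial IntermediateField Pool.Agent.MP_19ffc6_ag.LU

variable {k Ω : Type*} [Field k] [NontriviallyNormedField Ω] [IsUltrametricDist Ω] [Algebra k Ω]
  [IsAlgClosed k] [IsAlgClosed Ω] [Ctx k Ω]

theorem rel {p : ℕ} [Fact p.Prime] [CharP k p] [CharP Ω p] : RelStmt k Ω p :=
  Rel.rel hb hens_isHens (gal hb) eta

omit [IsAlgClosed k] [IsAlgClosed Ω] [Ctx k Ω] [Algebra k Ω] in
theorem Rel.norm_eval_sub_le {Q : Polynomial Ω} (hQ : ∀ i, ‖Q.coeff i‖ ≤ 1) {a b : Ω}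
    (ha : ‖a‖ ≤ 1) (hb : ‖b‖ ≤ 1) : ‖Q.eval a - Q.eval b‖ ≤ ‖a - b‖ := by
  rw [eval_eq_sum_range, eval_eq_sum_range, ← Finset.sum_sub_distrib]
  refine IsUltrametricDist.norm_sum_le_of_forall_le_of_nonneg (norm_nonneg _) fun i _ => ?_
  rw [← mul_sub, norm_mul]
  refine (mul_le_of_le_one_left (norm_nonneg _) (hQ i)).trans ?_
  rw [← Commute.geom_sum₂_mul (Commute.all a b) i, norm_mul]
  refine mul_le_of_le_one_left (norm_nonneg _) ?_
  refine IsUltrametricDist.norm_sum_le_of_forall_le_of_nonneg zero_le_one fun j _ => ?_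
  rw [norm_mul, norm_pow, norm_pow]
  exact mul_le_one₀ (pow_le_one₀ (norm_nonneg _) ha) (by positivity)
    (pow_le_one₀ (norm_nonneg _) hb)

theorem hensel (p : ℕ) [Fact p.Prime] [CharP k p] [CharP Ω p] : HenselStmt k Ω := by
  intro L halg hL Q η hQ h0 hη h1
  obtain ⟨c0, hc⟩ := Ctx.res (k := k) η hη
  set c := algebraMap k Ω c0 with hc0
  have hcL : c ∈ L := L.algebraMap_mem c0
  have hc1 : ‖c‖ ≤ 1 := by
    by_cases h : c0 = 0
    · rw [hc0, h, map_zero, norm_zero]; exact zero_le_one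
    · exact (Ctx.norm_alg c0 h).le
  have hint : ∀ j i, ‖(hasseDeriv j Q).coeff i‖ ≤ 1 := fun j i => by
    rw [hasseDeriv_coeff, norm_mul]
    exact mul_le_one₀ (LU.Rel.norm_natCast_le _) (norm_nonneg _) (hQ _).2
  have hev : ∀ j, ‖(taylor c Q).coeff j‖ ≤ 1 := fun j => by
    rw [taylor_coeff, eval_eq_sum_range]
    refine IsUltrametricDist.norm_sum_le_of_forall_le_of_nonneg zero_le_one fun i _ => ?_
    rw [norm_mul, norm_pow]
    exact mul_le_one₀ (hint j i) (by positivity) (pow_le_one₀ (norm_nonneg _) hc1)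
  have hd : ‖(taylor c Q).coeff 1‖ = 1 := by
    have h2 := (Rel.norm_eval_sub_le (hint 1) hη hc1).trans_lt hc
    rw [hasseDeriv_one] at h2
    rw [taylor_coeff, hasseDeriv_one]
    have h3 : eval c (derivative Q) =
        eval η (derivative Q) + -(eval η (derivative Q) - eval c (derivative Q)) := by ring
    rw [h3, norm_add_eq_left (by rw [norm_neg, h1]; exact h2), h1]
  have hY : η - c ∈ L := by
    refine LU.Rel.lin (p := p) hb halg hL
      (LU.Rel.taylor_mem_co (LU.Rel.mem_co_iff.2 fun i => (hQ i).1) hcL) ?_ ?_ fun j => ?_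
    · rw [taylor_eval, sub_add_cancel, h0]; exact zero_mem _
    · rw [← norm_pos_iff, hd]; exact one_pos
    · rw [hd]
      exact mul_lt_one_of_nonneg_of_lt_one_right (hev _) (by positivity)
        (pow_lt_one₀ (norm_nonneg _) hc (Nat.succ_ne_zero j))
  simpa using add_mem hY hcL

end Pool.Agent.MP_19ffc6_ag.LU2

end MrgPart4

-- marker of a merged file
example : 731051 + 39803 = 731051 + 39803 := rfl
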