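import Pool.Agent.MP_19ffc6_ag.LU.HensB
import Pool.Agent.MP_19ffc6_ag.LU2.Solve

-- ======== part 0: formerly Pool.Agent.MP_19ffc6_ag.LU.Ext
section MrgPart0

/-! Lattice extensions and the properties of later stages. -/

namespace Pool.Agent.MP_19ffc6_ag.LU

open Polynomial IntermediateField

variable {k Ω : Type*} [Field k] [NontriviallyNormedField Ω] [IsUltrametricDist Ω] [Algebra k Ω]
  [IsAlgClosed k] [IsAlgClosed Ω] [Ctx k Ω] {p : ℕ} [Fact p.Prime] [CharP k p] [CharP Ω p]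

set_option linter.unusedSectionVars false

namespace Ext

lemma exists_d (s : Stage Ω) {w : Ω} (hw : w ≠ 0) :
    ∃ d : ℕ, 0 < d ∧ ∀ j : ℤ, (j : ℝ) * nu w ∈ s.Λ ↔ (d : ℤ) ∣ j := by
  classical
  have h := s.full w hw
  obtain ⟨h1, h2⟩ := Nat.find_spec h
  refine ⟨Nat.find h, h1, fun j => ⟨fun hj => ?_, ?_⟩⟩
  · have h0 : (0 : ℤ) < Nat.find h := by exact_mod_cast h1
    by_contra hd
    have hr0 := Int.emod_nonneg j h0.ne'
    have hr1 := Int.emod_lt_of_pos j h0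
    have hr2 : j % (Nat.find h : ℤ) ≠ 0 := fun e => hd (Int.dvd_of_emod_eq_zero e)
    obtain ⟨r, hr⟩ := Int.eq_ofNat_of_zero_le hr0
    refine Nat.find_min h (m := r) (by omega) ⟨by omega, ?_⟩
    have e : (r : ℝ) = j - (j / (Nat.find h : ℤ) : ℤ) * (Nat.find h : ℝ) := by
      have : (r : ℤ) = j - j / (Nat.find h : ℤ) * Nat.find h := by
        rw [← hr, Int.emod_def, mul_comm]
      exact_mod_cast this
    rw [e, sub_mul, mul_assoc]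
    exact s.Λ.sub_mem hj (intCast_mul_mem h2 _)
  · rintro ⟨e, rfl⟩
    push_cast
    rw [mul_comm _ (e : ℝ), mul_assoc]
    exact intCast_mul_mem h2 e

lemma lat_fg (s : Stage Ω) (γ : ℝ) : (s.Λ ⊔ AddSubgroup.zmultiples γ).FG := by
  classical
  obtain ⟨T, hT⟩ := s.fg
  refine ⟨insert γ T, ?_⟩
  rw [Finset.coe_insert, Set.insert_eq, AddSubgroup.closure_union, hT, sup_comm,
    AddSubgroup.zmultiples_eq_closure]

lemma mem_lat {Λ : AddSubgroup ℝ} {γ β : ℝ} (h : β ∈ Λ ⊔ AddSubgroup.zmultiples γ) :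
    ∃ j : ℤ, β - j * γ ∈ Λ := by
  obtain ⟨α, hα, _, ⟨j, rfl⟩, rfl⟩ := AddSubgroup.mem_sup.1 h
  exact ⟨j, by simpa using hα⟩

lemma mk_ext (s : Stage Ω) {w : Ω} (hw : w ≠ 0) {d : ℕ} (hd : 0 < d)
    (hdvd : ∀ j : ℤ, (j : ℝ) * nu w ∈ s.Λ ↔ (d : ℤ) ∣ j) (σ : ℝ → ℤ)
    (hadd : ∀ β ∈ s.Λ ⊔ AddSubgroup.zmultiples (nu w),
      ∀ β' ∈ s.Λ ⊔ AddSubgroup.zmultiples (nu w), σ (β + β') = σ β + σ β')
    (hmem : ∀ β ∈ s.Λ ⊔ AddSubgroup.zmultiples (nu w), β - σ β * nu w ∈ s.Λ) :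
    ∃ s' : Stage Ω, IsExt s w d σ s' ∧ s'.y = s.y := by
  refine ⟨⟨s.Λ ⊔ AddSubgroup.zmultiples (nu w), lat_fg s _, fun a ha => ?_,
    fun β => s.mon (β - σ β * nu w) * w ^ σ β, fun β hβ β' hβ' => ?_, fun β hβ => ?_,
    s.y, s.norm_y⟩, ⟨hw, hd, hdvd, rfl, hadd, hmem, fun _ _ => rfl⟩, rfl⟩
  · obtain ⟨n, hn, h⟩ := s.full a ha
    exact ⟨n, hn, AddSubgroup.mem_sup_left h⟩
  · have e : β + β' - ((σ β + σ β' : ℤ) : ℝ) * nu w =
        (β - σ β * nu w) + (β' - σ β' * nu w) := by push_cast; ring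
    rw [hadd β hβ β' hβ', e, s.mon_add _ (hmem β hβ) _ (hmem β' hβ'), zpow_add₀ hw]; ring
  · rw [norm_mul, s.norm_mon _ (hmem β hβ), norm_eq_exp (zpow_ne_zero _ hw), nu_zpow,
      ← Real.exp_add]
    congr 1; ring

lemma exists_coord {Λ : AddSubgroup ℝ} (hΛ : Λ.FG) {γ : ℝ} (hγ : γ ∈ Λ) (h : ¬ PMul p Λ γ) :
    ∃ f : ℝ → ℤ, (∀ β ∈ Λ, ∀ β' ∈ Λ, f (β + β') = f β + f β') ∧ ¬ (p : ℤ) ∣ f γ := by
  classical
  obtain ⟨r, b, -⟩ := exists_lattice_basis hΛ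
  have : ∃ i, ¬ (p : ℤ) ∣ b.repr ⟨γ, hγ⟩ i := by
    by_contra hc
    push Not at hc
    choose m hm using hc
    refine h ⟨(∑ i, m i • b i : Λ), Subtype.prop _, ?_⟩
    have e : (⟨γ, hγ⟩ : Λ) = (p : ℤ) • ∑ i, m i • b i := by
      rw [← b.sum_repr ⟨γ, hγ⟩, Finset.smul_sum]
      exact Finset.sum_congr rfl fun i _ => by rw [hm i, mul_smul]
    have := congrArg Subtype.val e
    simpa only [AddSubgroup.coe_zsmul, zsmul_eq_mul, Int.cast_natCast] using this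
  obtain ⟨i, hi⟩ := this
  refine ⟨fun β => if hβ : β ∈ Λ then b.repr ⟨β, hβ⟩ i else 0, fun β hβ β' hβ' => ?_, ?_⟩
  · simp only [dif_pos hβ, dif_pos hβ', dif_pos (Λ.add_mem hβ hβ')]
    rw [← Finsupp.add_apply, ← map_add]; rfl
  · simpa only [dif_pos hγ] using hi

end Ext

open Ext in
theorem ext : ExtStmt Ω p := by
  intro s w hw
  obtain ⟨d, hd, hdvd⟩ := exists_d s hw
  by_cases h1 : d = 1
  · have hγ : nu w ∈ s.Λ := by simpa using (hdvd 1).2 (by simp [h1])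
    obtain ⟨s', h, hy⟩ := mk_ext s hw hd hdvd (fun _ => 0) (by simp) fun β hβ => by
      obtain ⟨j, hj⟩ := mem_lat hβ
      simpa using s.Λ.add_mem hj (intCast_mul_mem hγ j)
    refine ⟨d, _, s', h, hy, fun _ _ => rfl, fun _ e he hp => ?_⟩
    have : e = 1 := by simpa [h1] using he.symm
    rw [this] at hp
    exact (Fact.out : p.Prime).one_lt.ne' (by exact_mod_cast Int.eq_one_of_dvd_one (by simp) hp)
  obtain ⟨σ, hadd, hmem⟩ := exists_addHom (lat_fg s (nu w))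
    (fun β (j : ℤ) => β - j * nu w ∈ s.Λ) (by simp)
    (fun α a β b _ _ h h' => by
      convert s.Λ.add_mem h h' using 1; push_cast; ring)
    (fun α a _ h => by convert s.Λ.neg_mem h using 1; push_cast; ring) fun α h => mem_lat h
  obtain ⟨s', h, hy⟩ := mk_ext s hw hd hdvd σ hadd hmem
  by_cases hg : ¬ PMul p s'.Λ (nu w) → ∀ e : ℤ, 1 = σ (nu w) + d * e → ¬ (p : ℤ) ∣ e
  · exact ⟨d, σ, s', h, hy, fun e => absurd e h1, hg⟩
  push Not at hg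
  obtain ⟨hP, e, he, hpe⟩ := hg
  obtain ⟨f, hf, hfγ⟩ := exists_coord s'.fg h.nu_mem hP
  rw [h.lat] at hf
  obtain ⟨s'', h', hy'⟩ := mk_ext s hw hd hdvd (fun β => σ β + d * f β)
    (fun β hβ β' hβ' => by simp only [hadd β hβ β' hβ', hf β hβ β' hβ']; ring)
    fun β hβ => by
      convert s.Λ.sub_mem (hmem β hβ) (intCast_mul_mem h.d_mul_mem (f β)) using 1
      push_cast; ring
  refine ⟨d, _, s'', h', hy', fun e => absurd e h1, fun _ e' he' hp' => hfγ ?_⟩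
  have hd0 : (d : ℤ) ≠ 0 := by exact_mod_cast hd.ne'
  have : f (nu w) = e - e' := mul_left_cancel₀ hd0 (by linear_combination he - he')
  rw [this]
  exact dvd_sub hpe hp'

namespace Ext

variable {s s' : Stage Ω} {d : ℕ} {σ : ℝ → ℤ} {c : k}

lemma u_mem (h : IsStep s d σ c s') : s.u s.y d ∈ s'.R k := by
  rw [← sub_add_cancel (s.u s.y d) (algebraMap k Ω c), ← h.y_eq]
  exact add_mem s'.y_mem_R (Subalgebra.algebraMap_mem _ c)

lemma good_u (h : IsStep s d σ c s') (e : ℤ) : s'.Good k (s.u s.y d ^ e) :=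
  Stage.good_unit (zpow_mem_of_inv_mem (u_mem h) (s'.inv_mem_R (u_mem h) h.toIsExt.norm_u) e)
    (by rw [norm_zpow, h.toIsExt.norm_u, one_zpow])

lemma good_mon1 (h : IsStep s d σ c s') {α : ℝ} (hα : α ∈ s.Λ) : s'.Good k (s.mon α) := by
  obtain ⟨e, he⟩ := h.toIsExt.exists_e_mon hα
  rw [he]
  exact (Stage.good_mon (h.toIsExt.le hα)).mul (good_u h e)

lemma good_y1 (h : IsStep s d σ c s') : s'.Good k s.y := by
  obtain ⟨e, -, he⟩ := h.toIsExt.exists_e_w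
  rw [he]
  exact (Stage.good_mon h.toIsExt.nu_mem).mul (good_u h e)

lemma R_le1 (h : IsStep s d σ c s') : s.R k ≤ s'.R k :=
  s.R_le (fun _ hα h0 => (good_mon1 h hα).mem_R (s.norm_mon_le_one hα h0))
    ((good_y1 h).mem_R s.norm_y.le) fun _ => s'.inv_mem_R

lemma good1 (h : IsStep s d σ c s') {b : Ω} (hb : s.Good k b) : s'.Good k b := by
  obtain ⟨α, hα, w, hw, h1, rfl⟩ := hb
  exact (good_mon1 h hα).mul (Stage.good_unit (R_le1 h hw) h1)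

lemma good_mem_M {b : Ω} (hb : s.Good k b) : b ∈ s.M k := by
  obtain ⟨α, hα, w, hw, -, rfl⟩ := hb
  exact mul_mem (s.mon_mem_M k hα) (s.R_le_M hw)

lemma M_eq1 (h : IsStep s d σ c s') : s'.M k = s.M k := by
  refine le_antisymm (s'.M_le_iff.2 ⟨fun β hβ => h.toIsExt.mon_mem
    (fun α hα => s.mon_mem_M k hα) (s.y_mem_M k) hβ, ?_⟩)
    (s.M_le_iff.2 ⟨fun α hα => good_mem_M (good_mon1 h hα), good_mem_M (good_y1 h)⟩)
  rw [h.y_eq]
  exact sub_mem (div_mem (pow_mem (s.y_mem_M k) _) (s.mon_mem_M k h.toIsExt.d_mul_mem))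
    ((s.M k).algebraMap_mem c)

lemma gen1 (h : IsStep s d σ c s') {B : Subalgebra k Ω} (hy : s.y⁻¹ ∈ B) (hB : s.gens ⊆ B) :
    s'.gens ⊆ B := by
  obtain ⟨h1, h2⟩ := s.gens_subset_iff.1 hB
  refine s'.gens_subset_iff.2 ⟨fun β hβ => ?_, ?_⟩
  · rw [h.mon_eq β hβ]
    exact B.mul_mem (h1 _ (h.σ_mem β hβ)) (zpow_mem_of_inv_mem h2 hy _)
  · rw [h.y_eq, Stage.u, div_eq_mul_inv, ← s.mon_neg h.toIsExt.d_mul_mem]
    exact B.sub_mem (B.mul_mem (B.pow_mem h2 _) (h1 _ (s.Λ.neg_mem h.toIsExt.d_mul_mem)))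
      (B.algebraMap_mem c)

lemma adapted1 (hb : HB k Ω p) (h : IsStep s d σ c s') {E : IntermediateField k Ω}
    (hE : Algebra.IsAlgebraic E Ω) (hh : IsHens E) (ha : Adapted p E s) : Adapted p E s' := by
  have hy : Rad p E s.y := Rad.of_mem ha.2 h.w_ne
  refine ⟨fun β hβ => ?_, ?_⟩
  · rw [h.mon_eq β hβ]
    exact (ha.1 _ (h.σ_mem β hβ)).mul (hy.zpow _)
  · rw [h.y_eq]
    exact sub_mem (hb.rad E hE hh _ ((hy.pow d).div (ha.1 _ h.toIsExt.d_mul_mem))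
      h.toIsExt.norm_u) (E.algebraMap_mem c)

lemma good_le (h : Le k s s') {b : Ω} (hb : s.Good k b) : s'.Good k b := by
  induction h with
  | refl => exact hb
  | tail _ h ih =>
    obtain ⟨d, σ, c, h⟩ := h
    exact good1 h ih

end Ext

open Ext in
theorem le_props (hb : HB k Ω p) : LeStmt k Ω p where
  step s hy := by
    obtain ⟨d, σ, s', h, -, h1, -⟩ := ext (p := p) s s.y hy
    obtain ⟨c, hc, hc1⟩ := exists_res_ne_zero k h.norm_u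
    exact ⟨s'.withY _ hc1, d, σ, c, h.withY _ hc1, hc, rfl, h1⟩
  M_eq s s' h := by
    induction h with
    | refl => rfl
    | tail _ h ih =>
      obtain ⟨d, σ, c, h⟩ := h
      exact (M_eq1 h).trans ih
  R_le s s' h := by
    induction h with
    | refl => exact le_rfl
    | tail _ h ih =>
      obtain ⟨d, σ, c, h⟩ := h
      exact ih.trans (R_le1 h)
  good_mon s s' h α hα := good_le h (Stage.good_mon hα)
  good s s' h b hb := good_le h hb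
  gen s s' h B hB := by
    induction h using Relation.ReflTransGen.head_induction_on with
    | refl => exact id
    | head h h' ih =>
      obtain ⟨d, σ, c, h⟩ := h
      exact fun hs => ih (gen1 h (hB _ (hs (Stage.y_mem_gens _)) (good_le h' (good_y1 h))) hs)
  adapted s s' h E hE hh ha := by
    induction h with
    | refl => exact ha
    | tail _ h ih =>
      obtain ⟨d, σ, c, h⟩ := h
      exact adapted1 hb h hE hh ih
  y_zero s s' h hy := by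
    rcases Relation.ReflTransGen.cases_head h with h | ⟨t, ⟨d, σ, c, h⟩, -⟩
    · exact h.symm
    · exact absurd hy h.w_ne

end Pool.Agent.MP_19ffc6_ag.LU

end MrgPart0

-- ======== part 1: formerly Pool.Agent.MP_19ffc6_ag.LU2.RS
section MrgPart1

/-! Changes of the stage that realize the operations on polynomials. -/

namespace Pool.Agent.MP_19ffc6_ag.LU2

open Polynomial IntermediateField Pool.Agent.MP_19ffc6_ag.LU

variable {k Ω : Type*} [Field k] [NontriviallyNormedField Ω] [IsUltrametricDist Ω] [Algebra k Ω]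
  [IsAlgClosed k] [IsAlgClosed Ω] [Ctx k Ω] {p : ℕ} [Fact p.Prime] [CharP k p] [CharP Ω p]

set_option linter.unusedSectionVars false

namespace RSp

lemma mon_mem_adj (s : St Ω) {α : ℝ} (h : α ∈ s.Λ) : s.mon α ∈ Algebra.adjoin k s.gens :=
  Algebra.subset_adjoin (s.mon_mem_gens h)

lemma y_mem_adj (s : St Ω) : s.y ∈ Algebra.adjoin k s.gens := Algebra.subset_adjoin s.y_mem_gens

lemma z_mem_adj (s : St Ω) : s.z ∈ Algebra.adjoin k s.gens := Algebra.subset_adjoin s.z_mem_gens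

lemma R0_le_adj (s : St Ω) : s.R0 k ≤ Algebra.adjoin k s.gens :=
  s.R0_le_iff.2 ⟨fun _ h _ => mon_mem_adj s h, y_mem_adj s, z_mem_adj s⟩

/-! ### Translation and shift -/

lemma transl (T : Set Ω) (s : St Ω) (w : Ω)
    (hw : w ∈ Algebra.adjoin k (s.mon '' {α | α ∈ s.Λ ∧ 0 ≤ α} ∪ {s.y})) (h1 : ‖s.z - w‖ < 1) :
    ∃ s' : St Ω, s'.toStage = s.toStage ∧ s'.z = s.z - w ∧ s'.R0 k = s.R0 k ∧
      s'.H k T = s.H k T ∧ Nx k T s s' := by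
  let s' : St Ω := ⟨s.toStage, s.z - w, h1, s.dense⟩
  have hw0 : w ∈ s.R0 k := s.stage_R0_le k hw
  have hw1 : w ∈ s'.R0 k := s'.stage_R0_le k hw
  have hz : s.z ∈ s'.R0 k := by
    have := add_mem (s'.z_mem_R0 k) hw1
    rwa [show s'.z + w = s.z from sub_add_cancel _ _] at this
  have hR : s'.R0 k = s.R0 k := le_antisymm
    (s'.R0_le_iff.2 ⟨fun _ h h0 => s.mon_mem_R0 k h h0, s.y_mem_R0 k,
      sub_mem (s.z_mem_R0 k) hw0⟩)
    (s.R0_le_iff.2 ⟨fun _ h h0 => s'.mon_mem_R0 k h h0, s'.y_mem_R0 k, hz⟩)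
  exact ⟨s', rfl, rfl, hR, s.H_congr hR, Nx.of_mon_eq rfl rfl (s'.y_mem_H k T)
    (s'.R0_le_H k T hz) (y_mem_adj s) (sub_mem (z_mem_adj s) (R0_le_adj s hw0))⟩

lemma shift (s s' : St Ω) (a : ℝ) (l : k[X]) (ha : a ∈ s.Λ) (h1 : s'.toStage = s.toStage)
    (h2 : s'.z = s.z - s.mon a * aeval s.y l) (Φ : Pol2 k) (hΦ : Supp s.Λ Φ) :
    s'.ev k (shp a l Φ) = s.ev k Φ := by
  have hm : s'.mon = s.mon := by rw [show s'.mon = s'.toStage.mon from rfl, h1]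
  have hy : s'.y = s.y := by rw [show s'.y = s'.toStage.y from rfl, h1]
  have hz : s.z = s.mon a * aeval s.y l + s'.z := by rw [h2]; ring
  rw [shp, map_sum, St.ev_eq_sum k s]
  refine Finset.sum_congr rfl fun x hx => ?_
  rw [map_sum, hz, add_pow, Finset.mul_sum, Finset.mul_sum]
  refine Finset.sum_congr rfl fun n _ => ?_
  rw [s'.ev_emb, hm, hy, s.mon_add _ (hΦ x hx) _ (natCast_mul_mem ha n), s.mon_natCast_mul ha,
    map_mul, map_pow, aeval_monomial, map_mul, map_natCast, mul_pow]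
  ring

/-! ### Scaling and exchange of the coordinates -/

lemma norm_div_lt (s : St Ω) {w : Ω} (hw : ‖w‖ < 1) {ζ : ℝ} (hζ : ζ ∈ s.Λ) (h0 : 0 ≤ ζ)
    (h : ζ = 0 ∨ ζ < nu w) : ‖w / s.mon ζ‖ < 1 := by
  rcases h with rfl | h
  · rwa [s.mon_zero, div_one]
  · have hw0 : w ≠ 0 := by
      rintro rfl
      simp only [nu, norm_zero, Real.log_zero, neg_zero] at h
      exact absurd h (not_lt.2 h0)
    have h1 := s.mon_ne_zero hζ
    rw [← nu_pos_iff (div_ne_zero hw0 h1), nu_div hw0 h1, s.nu_mon hζ]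
    linarith

lemma div_mem_adj (s : St Ω) {w : Ω} (hw : w ∈ Algebra.adjoin k s.gens) {ζ : ℝ} (hζ : ζ ∈ s.Λ) :
    w / s.mon ζ ∈ Algebra.adjoin k s.gens := by
  rw [div_eq_mul_inv, ← s.mon_neg hζ]
  exact mul_mem hw (mon_mem_adj s (s.Λ.neg_mem hζ))

lemma div_eq (s : St Ω) (w : Ω) {ζ π : ℝ} (hζ : ζ ∈ s.Λ) (hπ : π ∈ s.Λ) :
    w / s.mon π = s.mon (ζ - π) * (w / s.mon ζ) := by
  have h1 := s.mon_ne_zero hζ
  have h2 := s.mon_ne_zero hπ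
  rw [s.mon_sub hζ hπ]; field_simp

lemma db_div {s : St Ω} {K : IntermediateField k Ω} {D : Ω → Ω} {A : ℝ} (hK : s.M k ≤ K)
    (hD : IsDer K D) (h : DB D s A) {w : Ω} (hw : w ∈ K) (h1 : ‖w‖ ≤ 1)
    (h2 : ‖D w‖ ≤ Real.exp A) {ζ : ℝ} (hζ : ζ ∈ s.Λ) : ‖D (w / s.mon ζ)‖ ≤ Real.exp (A + ζ) := by
  have := h.norm_mon_mul hD hK (s.Λ.neg_mem hζ) hw h1 h2
  rwa [s.mon_neg hζ, sub_neg_eq_add, mul_comm, ← div_eq_mul_inv] at this

lemma scale (hs : HS k Ω) (T : Set Ω) (s : St Ω) (ζ ξ : ℝ) (hζ : ζ ∈ s.Λ) (hξ : ξ ∈ s.Λ)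
    (hζ0 : 0 ≤ ζ) (hξ0 : 0 ≤ ξ) (h1 : ζ = 0 ∨ ζ < nu s.y) (h2 : ξ = 0 ∨ ξ < nu s.z) :
    ∃ s' : St Ω, s'.Λ = s.Λ ∧ s'.mon = s.mon ∧ s'.y = s.y / s.mon ζ ∧ s'.z = s.z / s.mon ξ ∧
      Nx k T s s' ∧ (∀ Φ, Supp s.Λ Φ → s'.ev k (scl ζ ξ Φ) = s.ev k Φ) ∧
      (∀ h, Apx k T s h → Apx k T s' h) ∧ (0 < ζ → 0 < ξ → ∀ h ∈ s.H k T, Apx k T s' h) ∧
      ∀ (K : IntermediateField k Ω) (D : Ω → Ω) (A : ℝ), s.M k ≤ K → IsDer K D → DB D s A →
        DB D s' (A + max ζ ξ) := by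
  let s' : St Ω := s.withYZ (s.y / s.mon ζ) (s.z / s.mon ξ) (norm_div_lt s s.norm_y hζ hζ0 h1)
    (norm_div_lt s s.norm_z hξ hξ0 h2)
  have hy : ∀ π ∈ s.Λ, π ≤ ζ → s.y / s.mon π ∈ s'.R0 k := fun π hπ h => by
    rw [div_eq s s.y hζ hπ]
    exact mul_mem (s'.mon_mem_R0 k (s.Λ.sub_mem hζ hπ) (sub_nonneg.2 h)) (s'.y_mem_R0 k)
  have hz : ∀ π ∈ s.Λ, π ≤ ξ → s.z / s.mon π ∈ s'.R0 k := fun π hπ h => by
    rw [div_eq s s.z hξ hπ]
    exact mul_mem (s'.mon_mem_R0 k (s.Λ.sub_mem hξ hπ) (sub_nonneg.2 h)) (s'.z_mem_R0 k)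
  have hy0 : s.y ∈ s'.R0 k := by simpa [s.mon_zero] using hy 0 s.Λ.zero_mem hζ0
  have hz0 : s.z ∈ s'.R0 k := by simpa [s.mon_zero] using hz 0 s.Λ.zero_mem hξ0
  have hR : s.R0 k ≤ s'.R0 k := s.R0_le_iff.2 ⟨fun _ h h0 => s'.mon_mem_R0 k h h0, hy0, hz0⟩
  refine ⟨s', rfl, rfl, rfl, rfl, Nx.of_mon_eq rfl rfl (s'.R0_le_H k T hy0) (s'.R0_le_H k T hz0)
    (div_mem_adj s (y_mem_adj s) hζ) (div_mem_adj s (z_mem_adj s) hξ), fun Φ hΦ => ?_,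
    fun h => Apx.mono rfl rfl hR, fun h3 h4 => ?_, fun K D A hK hD h => ⟨fun α hα => ?_, ?_, ?_⟩⟩
  · rw [scl, St.ev, Finsupp.linearCombination_mapDomain, St.ev, Finsupp.linearCombination_apply,
      Finsupp.linearCombination_apply]
    refine Finsupp.sum_congr fun x hx => ?_
    have e1 := s.mon_ne_zero hζ
    have e2 := s.mon_ne_zero hξ
    have m1 := natCast_mul_mem hζ x.2.1
    have m2 := natCast_mul_mem hξ x.2.2
    change _ • (s.mon (x.1 + x.2.1 * ζ + x.2.2 * ξ) * (s.y / s.mon ζ) ^ x.2.1 *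
      (s.z / s.mon ξ) ^ x.2.2) = _
    rw [s.mon_add _ (s.Λ.add_mem (hΦ x hx) m1) _ m2, s.mon_add _ (hΦ x hx) _ m1,
      s.mon_natCast_mul hζ, s.mon_natCast_mul hξ, div_pow, div_pow]
    congr 1; field_simp
  · have hπ : min ζ ξ ∈ s.Λ := by
      rcases min_choice ζ ξ with h | h <;> rwa [h]
    exact hs.apx T s s' (min ζ ξ) hπ (lt_min h3 h4) rfl rfl hR (hy _ hπ (min_le_left _ _))
      (hz _ hπ (min_le_right _ _))
  · refine (h.1 α hα).trans (mul_le_mul_of_nonneg_right (Real.exp_le_exp.2 ?_) (norm_nonneg _))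
    linarith [le_max_left ζ ξ]
  · refine (db_div hK hD h (hK (s.y_mem_M k)) s.norm_y.le h.2.1 hζ).trans (Real.exp_le_exp.2 ?_)
    linarith [le_max_left ζ ξ]
  · refine (db_div hK hD h (hK (s.z_mem_M k)) s.norm_z.le h.2.2 hξ).trans (Real.exp_le_exp.2 ?_)
    linarith [le_max_right ζ ξ]

lemma swap (T : Set Ω) (s : St Ω) : ∃ s' : St Ω, s'.Λ = s.Λ ∧ s'.mon = s.mon ∧ s'.y = s.z ∧
    s'.z = s.y ∧ s'.R0 k = s.R0 k ∧ s'.H k T = s.H k T ∧ Nx k T s s' ∧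
      ∀ Φ, s'.ev k (swp Φ) = s.ev k Φ := by
  let s' : St Ω := s.withYZ s.z s.y s.norm_z s.norm_y
  have hR : s'.R0 k = s.R0 k := le_antisymm
    (s'.R0_le_iff.2 ⟨fun _ h h0 => s.mon_mem_R0 k h h0, s.z_mem_R0 k, s.y_mem_R0 k⟩)
    (s.R0_le_iff.2 ⟨fun _ h h0 => s'.mon_mem_R0 k h h0, s'.z_mem_R0 k, s'.y_mem_R0 k⟩)
  refine ⟨s', rfl, rfl, rfl, rfl, hR, s.H_congr hR, Nx.of_mon_eq rfl rfl (s'.z_mem_H k T)
    (s'.y_mem_H k T) (z_mem_adj s) (y_mem_adj s), fun Φ => ?_⟩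
  rw [swp, St.ev, Finsupp.linearCombination_mapDomain, St.ev]
  congr 2
  funext x
  change s.mon x.1 * s.z ^ x.2.2 * s.y ^ x.2.1 = _
  ring

/-! ### The transition -/

section step

variable {T : Set Ω} {s s' : St Ω} {d : ℕ} {σ : ℝ → ℤ} {κ : k}

lemma u_mem (h : IsStep s.toStage d σ κ s'.toStage) : s.u s.y d ∈ s'.H k T := by
  rw [← sub_add_cancel (s.u s.y d) (algebraMap k Ω κ), ← h.y_eq]
  exact add_mem (s'.y_mem_H k T) (Subalgebra.algebraMap_mem _ κ)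

lemma good_u (h : IsStep s.toStage d σ κ s'.toStage) (e : ℤ) : s'.Good k T (s.u s.y d ^ e) :=
  (s'.good_unit (u_mem h) h.toIsExt.norm_u).zpow e

lemma good_mon (h : IsStep s.toStage d σ κ s'.toStage) {α : ℝ} (hα : α ∈ s.Λ) :
    s'.Good k T (s.mon α) := by
  obtain ⟨e, he⟩ := h.toIsExt.exists_e_mon hα
  rw [he]
  exact (s'.good_mon (h.toIsExt.le hα)).mul (good_u h e)

lemma good_y (h : IsStep s.toStage d σ κ s'.toStage) : s'.Good k T s.y := by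
  obtain ⟨e, -, he⟩ := h.toIsExt.exists_e_w
  rw [he]
  exact (s'.good_mon h.toIsExt.nu_mem).mul (good_u h e)

lemma nx_step (h : IsStep s.toStage d σ κ s'.toStage) (hz : s'.z = s.z) : Nx k T s s' where
  H_le := s.H_le_H (s.R0_le_iff.2 ⟨fun _ hα h0 => (good_mon h hα).mem_H (s.norm_mon_le_one hα h0),
    (good_y h).mem_H s.norm_y.le, hz ▸ s'.z_mem_H k T⟩)
  lat := h.toIsExt.le
  mon _ hα := good_mon h hα
  gen B hB hs := by
    obtain ⟨h1, h2, h3⟩ := s.gens_subset_iff.1 hs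
    obtain ⟨h4, h5⟩ := s'.toStage.gens_subset_iff.1
      (Ext.gen1 h (hB _ h2 (good_y h)) (s.toStage.gens_subset_iff.2 ⟨h1, h2⟩))
    exact s'.gens_subset_iff.2 ⟨h4, h5, hz ▸ h3⟩

lemma sd_step (h : IsStep s.toStage d σ κ s'.toStage) : SD s.Λ s'.Λ (nu s.y) d σ :=
  ⟨s.nu_y_pos h.w_ne, h.d_pos, h.dvd_iff, h.lat, h.σ_add, h.σ_mem, h.triv⟩

lemma ev_step (h : IsStep s.toStage d σ κ s'.toStage) (hz : s'.z = s.z) (Φ : Pol2 k) (n0 : ℕ)
    (hΦ : Supp s.Λ Φ) (h0 : ∀ x ∈ Φ.support, 0 ≤ ex (nu s.y) d σ x + n0) :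
    s'.ev k (stp (nu s.y) d σ n0 κ Φ) = s.u s.y d ^ n0 * s.ev k Φ := by
  rw [stp, map_sum, St.ev_eq_sum k s, Finset.mul_sum]
  refine Finset.sum_congr rfl fun x hx => ?_
  obtain ⟨e, he, he'⟩ := h.toIsExt.exists_e (hΦ x hx) (x.2.1 : ℤ)
  rw [Int.cast_natCast] at he he'
  rw [zpow_natCast] at he'
  have hu : s'.y + algebraMap k Ω κ = s.u s.y d := by rw [h.y_eq, sub_add_cancel]
  have h1 := h0 x hx
  rw [(sd_step h).ex_unique he] at h1 ⊢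
  rw [s'.ev_emb, taylor_monomial, map_mul, map_pow, map_add, aeval_C, aeval_X, aeval_C, hu, hz,
    he', ← zpow_natCast _ (e + n0).toNat, Int.toNat_of_nonneg h1,
    zpow_add₀ h.toIsExt.u_ne_zero, zpow_natCast]
  ring

lemma norm_D_mon_zpow {K : IntermediateField k Ω} {D : Ω → Ω} {A : ℝ} (hK : s.M k ≤ K)
    (hD : IsDer K D) (h : DB D s A) (hy : s.y ≠ 0) {α : ℝ} (hα : α ∈ s.Λ) (e : ℤ) :
    ‖D (s.mon α * s.y ^ e)‖ ≤ Real.exp (A + nu s.y) * ‖s.mon α * s.y ^ e‖ := by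
  have h1 := hK (s.y_mem_M k)
  have h2 := s.nu_y_pos hy
  rw [hD.mul _ (hK (s.mon_mem_M k hα)) _ (zpow_mem h1 e), hD.zpow h1 hy]
  refine norm_add_le_of ?_ ?_
  · have h3 : ‖D s.y / s.y‖ ≤ Real.exp (A + nu s.y) := by
      rw [norm_div, norm_eq_exp hy, div_le_iff₀ (Real.exp_pos _), ← Real.exp_add]
      simpa using h.2.1
    have h4 : ‖(e : Ω)‖ ≤ 1 := IsUltrametricDist.norm_intCast_le_one Ω e
    calc ‖s.mon α * (e * s.y ^ e * (D s.y / s.y))‖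
        = ‖(e : Ω)‖ * ‖D s.y / s.y‖ * ‖s.mon α * s.y ^ e‖ := by
          simp only [norm_mul]; ring
      _ ≤ 1 * Real.exp (A + nu s.y) * ‖s.mon α * s.y ^ e‖ := by gcongr
      _ = _ := by rw [one_mul]
  · have h3 : Real.exp A ≤ Real.exp (A + nu s.y) := Real.exp_le_exp.2 (by linarith)
    calc ‖s.y ^ e * D (s.mon α)‖ = ‖s.y ^ e‖ * ‖D (s.mon α)‖ := norm_mul _ _
      _ ≤ ‖s.y ^ e‖ * (Real.exp A * ‖s.mon α‖) := by gcongr; exact h.1 α hα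
      _ ≤ ‖s.y ^ e‖ * (Real.exp (A + nu s.y) * ‖s.mon α‖) := by gcongr
      _ = _ := by rw [norm_mul]; ring

lemma db_step (h : IsStep s.toStage d σ κ s'.toStage) (hz : s'.z = s.z)
    {K : IntermediateField k Ω} {D : Ω → Ω} {A : ℝ} (hK : s.M k ≤ K) (hD : IsDer K D)
    (hA : DB D s A) : DB D s' (A + nu s.y) := by
  refine ⟨fun β hβ => ?_, ?_, ?_⟩
  · rw [h.mon_eq β hβ]
    exact norm_D_mon_zpow hK hD hA h.w_ne (h.σ_mem β hβ) _
  · have hm := s.Λ.neg_mem h.toIsExt.d_mul_mem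
    have e : s.u s.y d = s.mon (-(d * nu s.y)) * s.y ^ (d : ℤ) := by
      rw [Stage.u, s.mon_neg h.toIsExt.d_mul_mem, zpow_natCast, div_eq_inv_mul]
    have h1 := norm_D_mon_zpow hK hD hA h.w_ne hm (d : ℤ)
    have h2 : s.u s.y d ∈ K :=
      e ▸ mul_mem (hK (s.mon_mem_M k hm)) (zpow_mem (hK (s.y_mem_M k)) _)
    rw [← e, h.toIsExt.norm_u, mul_one] at h1
    rwa [h.y_eq, hD.sub h2 (K.algebraMap_mem κ), hD.const, sub_zero]
  · rw [hz]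
    exact hA.2.2.trans (Real.exp_le_exp.2 (by linarith [s.nu_y_pos h.w_ne]))

variable (k) in
lemma exists_step (p : ℕ) [Fact p.Prime] [CharP Ω p] (s : St Ω) (hy : s.y ≠ 0) :
    ∃ (d : ℕ) (σ : ℝ → ℤ) (κ : k) (s' : St Ω),
    IsStep s.toStage d σ κ s'.toStage ∧ s'.z = s.z := by
  obtain ⟨d, σ, s1, h, -, h1, -⟩ := LU.ext (p := p) s.toStage s.y hy
  obtain ⟨κ, hκ, hκ1⟩ := exists_res_ne_zero k h.norm_u
  exact ⟨d, σ, κ, ⟨s1.withY _ hκ1, s.z, s.norm_z, s.dense.mono h.le⟩,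
    ⟨h.withY _ hκ1, hκ, rfl, h1⟩, rfl⟩

end step

/-! ### Cleaning -/

lemma exists_root (s : St Ω) {K : IntermediateField k Ω} (hK : s.M k ≤ K) {fl : Prop}
    {Ψ : Pol2 k} (h : ∀ x ∈ Ψ.support, PW2 fl p s.Λ x) : ∃ b ∈ K, s.ev k Ψ = b ^ p := by
  rw [St.ev_eq_sum k s]
  refine Finset.sum_induction _ (fun a => ∃ b ∈ K, a = b ^ p) ?_
    ⟨0, zero_mem _, (zero_pow (Fact.out : p.Prime).ne_zero).symm⟩ fun x hx => ?_
  · rintro _ _ ⟨b, hb, rfl⟩ ⟨b', hb', rfl⟩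
    exact ⟨b + b', add_mem hb hb', (add_pow_char b b' p).symm⟩
  · obtain ⟨-, ⟨β, hβ, e1⟩, ⟨j, e2⟩, i, e3⟩ := h x hx
    obtain ⟨c, hc⟩ := IsAlgClosed.exists_pow_nat_eq (Ψ x) (Fact.out : p.Prime).pos
    refine ⟨algebraMap k Ω c * (s.mon β * s.y ^ j * s.z ^ i), mul_mem (K.algebraMap_mem c)
      (mul_mem (mul_mem (hK (s.mon_mem_M k hβ)) (pow_mem (hK (s.y_mem_M k)) j))
        (pow_mem (hK (s.z_mem_M k)) i)), ?_⟩
    rw [← hc, e1, e2, e3, s.mon_natCast_mul hβ, map_pow]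
    ring

lemma clean (cx : Cx Ω k) (s : St Ω) (Φ : Pol2 k) (r : Ω) (h : Rp p cx s Φ r) :
    Rp p cx s (cln cx.fl p s.Λ Φ) r := by
  by_cases hf : cx.fl
  · obtain ⟨hn, hΦ, c, hc, hc1, b, hb, -, e⟩ := h
    obtain ⟨b', hb', e'⟩ := exists_root (p := p) s (cx.M_le' hn) (fl := cx.fl)
      (Ψ := Φ - cln cx.fl p s.Λ Φ) fun x hx => by
        by_contra hp
        rw [Finsupp.mem_support_iff, Finsupp.sub_apply, cln_apply_of_not hp, sub_self] at hx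
        exact hx rfl
    refine ⟨hn, hΦ.cln, c, hc, hc1, b - b', sub_mem hb hb', fun h => absurd hf h, ?_⟩
    rw [map_sub] at e'
    rw [sub_pow_char]
    linear_combination e + e'
  · rwa [cln_eq_self fun x _ hx => hf hx.1]

end RSp

/-- Realization of the operations on polynomials by changes of the stage. -/
theorem rs (hs : HS k Ω) : RS k Ω p where
  transl := RSp.transl
  shift := RSp.shift
  scale := RSp.scale hs
  swap := RSp.swap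
  step T s hy := by
    obtain ⟨d, σ, κ, s', h, hz⟩ := RSp.exists_step k p s hy
    exact ⟨d, σ, κ, s', s.u s.y d, RSp.sd_step h, h.c_ne, hz, RSp.nx_step h hz, RSp.good_y h,
      RSp.u_mem h, h.toIsExt.norm_u, RSp.ev_step h hz,
      fun _ _ _ hK hD hA => RSp.db_step h hz hK hD hA⟩
  clean := RSp.clean

end Pool.Agent.MP_19ffc6_ag.LU2

end MrgPart1

-- ======== part 2: formerly Pool.Agent.MP_19ffc6_ag.LU2.Rho
section MrgPart2

/-! The transition at `z` of PROJECT LU2, when `z` is not smaller than the vertex. -/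

namespace Pool.Agent.MP_19ffc6_ag.LU2

open Polynomial IntermediateField Pool.Agent.MP_19ffc6_ag.LU

namespace Rho

section pure

variable {k : Type*} [Field k] {fl : Prop} {p : ℕ} {Λ Λ' : AddSubgroup ℝ} {Φ : Pol2 k} {P : Par}
  {ρ : ℝ}

/-- All levels after the transition are at least `β + s ρ`. -/
theorem level_ge (h : PS fl p Λ Φ P) (h0 : 0 < ρ) (hρ : ρ ≤ P.δ) {x : Pt} (hx : x ∈ Φ.support) :
    P.β + P.s * ρ ≤ x.1 + x.2.2 * ρ := by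
  rcases le_or_gt P.s x.2.2 with hs | hs
  · have h1 := h.β_le hx
    have h2 : (P.s : ℝ) ≤ x.2.2 := by exact_mod_cast hs
    nlinarith
  · have h1 := h.dfc_nonneg hx
    have h2 : (x.2.2 : ℝ) ≤ P.s := by exact_mod_cast hs.le
    simp only [Par.dfc, Par.gap] at h1
    nlinarith

/-- The terms of the lowest level over `y ^ ε`. -/
theorem level_eq (h : PS fl p Λ Φ P) (h0 : 0 < ρ) (hρ : ρ ≤ P.δ) {x : Pt} (hx : x ∈ Φ.support)
    (hl : x.1 + x.2.2 * ρ = P.β + P.s * ρ) (hj : x.2.1 = P.ε) :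
    x = P.top ∨ (x.2.2 < P.s ∧ ρ = P.δ ∧ P.b ≤ 0) := by
  rcases le_or_gt P.s x.2.2 with hs | hs
  · left
    by_contra ht
    obtain ⟨h1, h2⟩ := h.junk x hx hs ht
    have h3 : (P.s : ℝ) ≤ x.2.2 := by exact_mod_cast hs
    rcases h2 with h2 | h2
    · nlinarith
    · omega
  · right
    have h1 := h.dfc_nonneg hx
    have h2 : (x.2.2 : ℝ) < P.s := by exact_mod_cast hs
    have h3 : ρ = P.δ := by
      by_contra hne
      have h4 : ρ < P.δ := lt_of_le_of_ne hρ hne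
      simp only [Par.dfc, Par.gap] at h1
      nlinarith
    have h4 : P.dfc x = 0 := by
      simp only [Par.dfc, Par.gap]
      rw [← h3]; linarith
    have h5 := h.cod_nonpos hx h4
    simp only [Par.cod, Par.gap, hj] at h5
    refine ⟨hs, h3, ?_⟩
    by_contra hb
    have hb' : 0 < P.b := lt_of_not_ge hb
    nlinarith

variable {d n0 : ℕ} {σ : ℝ → ℤ} {κ : k}

/-- The data of the fiber over `y ^ ε` of the lowest level. -/
theorem fib_mem (h0 : ∀ x ∈ (swp Φ).support, 0 ≤ ex ρ d σ x + n0) {B : ℝ} {j e : ℕ}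
    (he : (fib ρ d σ n0 (swp Φ) B j).coeff e ≠ 0) :
    ∃ (α : ℝ) (i : ℕ), (α, j, i) ∈ Φ.support ∧ α + i * ρ = B ∧
      (e : ℤ) = ex ρ d σ (α, i, j) + n0 := by
  obtain ⟨x, hx, h1, h2, h3⟩ := fib_support he
  have h4 := h0 x hx
  obtain ⟨α, i, j'⟩ := x
  simp only at h1 h2 h3 h4
  subst h2
  refine ⟨α, i, mem_swp_support.1 hx, h1, ?_⟩
  rw [h3, Int.toNat_of_nonneg h4]

theorem fib_ne (h : PS fl p Λ Φ P) (hsd : SD Λ Λ' ρ d σ)
    (h0 : ∀ x ∈ (swp Φ).support, 0 ≤ ex ρ d σ x + n0) :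
    fib ρ d σ n0 (swp Φ) (P.β + P.s * ρ) P.ε ≠ 0 := by
  have hx : ((P.β, P.s, P.ε) : Pt) ∈ (swp Φ).support := mem_swp_support.2 h.top
  have h1 := fib_coeff (n0 := n0) hsd h.supp.swp h0 hx
  intro hz
  simp only at h1
  rw [hz, coeff_zero] at h1
  exact (Finsupp.mem_support_iff.1 hx) h1.symm

/-- The difference of two exponents of a fiber. -/
theorem fib_sub (h : PS fl p Λ Φ P) (hsd : SD Λ Λ' ρ d σ) {α α' : ℝ} {i i' j : ℕ} {e e' : ℕ}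
    (hx : (α, j, i) ∈ Φ.support) (hx' : (α', j, i') ∈ Φ.support)
    (hl : α + i * ρ = α' + i' * ρ) (he : (e : ℤ) = ex ρ d σ (α, i, j) + n0)
    (he' : (e' : ℤ) = ex ρ d σ (α', i', j) + n0) : (i : ℤ) - i' = d * ((e : ℤ) - e') := by
  have m1 : α ∈ Λ := h.supp _ hx
  have m2 : α' ∈ Λ := h.supp _ hx'
  have h1 := hsd.ex_sub (x := (α, i, j)) (x' := (α', i', j)) m1 m2 hl
  simp only at h1
  rw [h1, he, he']; ring

/-- In a cleaned class no exponent of the fiber is divisible by `p`. -/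
theorem fib_not_dvd (h : PS fl p Λ Φ P) (hsd : SD Λ Λ' ρ d σ) (hn : p ∣ n0)
    (h0 : ∀ x ∈ (swp Φ).support, 0 ≤ ex ρ d σ x + n0) {B : ℝ} (hfl : fl) (hB : PMul p Λ' B)
    {e : ℕ} (he : (fib ρ d σ n0 (swp Φ) B 0).coeff e ≠ 0) : ¬ p ∣ e := by
  obtain ⟨α, i, hx, hl, hex⟩ := fib_mem h0 he
  intro hp
  have h1 : (p : ℤ) ∣ ex ρ d σ (α, i, 0) := by
    have h2 : (p : ℤ) ∣ (e : ℤ) := Int.natCast_dvd_natCast.2 hp
    have h3 : (p : ℤ) ∣ (n0 : ℤ) := Int.natCast_dvd_natCast.2 hn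
    have h4 : ex ρ d σ (α, i, 0) = (e : ℤ) - n0 := by rw [hex]; ring
    rw [h4]; exact dvd_sub h2 h3
  have m1 : α ∈ Λ := h.supp _ hx
  have h5 := hsd.pw (p := p) (x := (α, i, 0)) m1 (by simpa [hl] using hB) h1
  exact h.ess _ hx ⟨hfl, h5.1, dvd_zero _, h5.2⟩

variable [Fact p.Prime]

/-- A surviving term over `y ^ ε`, from a bound `R` for the range of the exponents. -/
theorem survive (ho : OrdStmt k p) (h : PS fl p Λ Φ P) (hsd : SD Λ Λ' ρ d σ) (hκ : κ ≠ 0)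
    (hn : p ∣ n0) (h0 : ∀ x ∈ (swp Φ).support, 0 ≤ ex ρ d σ x + n0) {R : ℕ}
    (hR : ∀ e e', (fib ρ d σ n0 (swp Φ) (P.β + P.s * ρ) P.ε).coeff e ≠ 0 →
      (fib ρ d σ n0 (swp Φ) (P.β + P.s * ρ) P.ε).coeff e' ≠ 0 → e ≤ e' + R) :
    ∃ e, (taylor κ (fib ρ d σ n0 (swp Φ) (P.β + P.s * ρ) P.ε)).coeff e ≠ 0 ∧
      ¬ PW2 fl p Λ' (P.β + P.s * ρ, P.ε, e) ∧ P.ε + e ≤ R + 1 ∧
      (¬ (fl ∧ PMul p Λ' (P.β + P.s * ρ)) → e ≤ R) := by
  have hG := fib_ne h hsd h0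
  have hε := h.eps
  by_cases hχ : fl ∧ PMul p Λ' (P.β + P.s * ρ) ∧ P.ε = 0
  · obtain ⟨hfl, hB, hε0⟩ := hχ
    have hnd : ∀ e, (fib ρ d σ n0 (swp Φ) (P.β + P.s * ρ) P.ε).coeff e ≠ 0 → ¬ p ∣ e := by
      intro e he
      rw [hε0] at he
      exact fib_not_dvd h hsd hn h0 hfl hB he
    obtain ⟨e, he, hc, hp⟩ := ho.o2 _ κ R hκ hG hnd hR
    exact ⟨e, hc, fun hw => hp hw.2.2.2, by omega, fun hh => absurd ⟨hfl, hB⟩ hh⟩
  · obtain ⟨e, he, hc⟩ := ho.o1 _ κ R hκ hG hR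
    refine ⟨e, hc, fun hw => hχ ⟨hw.1, hw.2.1, ?_⟩, by omega, fun _ => he⟩
    have h1 : p ∣ P.ε := hw.2.2.1
    have h2 : 2 ≤ p := (Fact.out : p.Prime).two_le
    rcases Nat.eq_zero_or_pos P.ε with h3 | h3
    · exact h3
    · have := Nat.le_of_dvd h3 h1
      omega

omit [Fact p.Prime] in
/-- The top alone lies over `y ^ ε`. -/
theorem range_zero (h : PS fl p Λ Φ P) (hsd : SD Λ Λ' ρ d σ) (hρ : ρ ≤ P.δ)
    (h0 : ∀ x ∈ (swp Φ).support, 0 ≤ ex ρ d σ x + n0) (hc : ρ < P.δ ∨ 0 < P.b) (e e' : ℕ)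
    (he : (fib ρ d σ n0 (swp Φ) (P.β + P.s * ρ) P.ε).coeff e ≠ 0)
    (he' : (fib ρ d σ n0 (swp Φ) (P.β + P.s * ρ) P.ε).coeff e' ≠ 0) : e ≤ e' + 0 := by
  have key : ∀ e, (fib ρ d σ n0 (swp Φ) (P.β + P.s * ρ) P.ε).coeff e ≠ 0 →
      (e : ℤ) = ex ρ d σ (P.β, P.s, P.ε) + n0 := by
    intro e he
    obtain ⟨α, i, hx, hl, hex⟩ := fib_mem h0 he
    rcases level_eq h hsd.pos hρ hx hl rfl with ht | ⟨-, h1, h2⟩
    · simp only [Par.top, Prod.mk.injEq] at ht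
      rw [hex, ht.1, ht.2.2]
    · rcases hc with hc | hc
      · exact absurd h1 hc.ne
      · exact absurd h2 (not_le.2 hc)
  have h1 := key e he
  have h2 := key e' he'
  omega

omit [Fact p.Prime] in
/-- The heights of the fiber are at most `s`. -/
theorem fib_mem' (h : PS fl p Λ Φ P) (hsd : SD Λ Λ' ρ d σ) (hρ : ρ ≤ P.δ)
    (h0 : ∀ x ∈ (swp Φ).support, 0 ≤ ex ρ d σ x + n0) {e : ℕ}
    (he : (fib ρ d σ n0 (swp Φ) (P.β + P.s * ρ) P.ε).coeff e ≠ 0) :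
    ∃ (α : ℝ) (i : ℕ), (α, P.ε, i) ∈ Φ.support ∧ α + i * ρ = P.β + P.s * ρ ∧
      (e : ℤ) = ex ρ d σ (α, i, P.ε) + n0 ∧ i ≤ P.s := by
  obtain ⟨α, i, hx, hl, hex⟩ := fib_mem h0 he
  refine ⟨α, i, hx, hl, hex, ?_⟩
  rcases level_eq h hsd.pos hρ hx hl rfl with ht | ⟨h1, -⟩
  · simp only [Par.top, Prod.mk.injEq] at ht
    exact ht.2.2.le
  · exact h1.le

omit [Fact p.Prime] in
/-- The range bound for a proper lattice extension. -/
theorem range_half (h : PS fl p Λ Φ P) (hsd : SD Λ Λ' ρ d σ) (hρ : ρ ≤ P.δ) (hd : 2 ≤ d)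
    (h0 : ∀ x ∈ (swp Φ).support, 0 ≤ ex ρ d σ x + n0) (e e' : ℕ)
    (he : (fib ρ d σ n0 (swp Φ) (P.β + P.s * ρ) P.ε).coeff e ≠ 0)
    (he' : (fib ρ d σ n0 (swp Φ) (P.β + P.s * ρ) P.ε).coeff e' ≠ 0) : e ≤ e' + P.s / 2 := by
  obtain ⟨α, i, hx, hl, hex, hi⟩ := fib_mem' h hsd hρ h0 he
  obtain ⟨α', i', hx', hl', hex', -⟩ := fib_mem' h hsd hρ h0 he'
  have h1 := fib_sub h hsd hx hx' (hl.trans hl'.symm) hex hex'
  by_contra hlt
  have h2 : (P.s / 2 : ℕ) + 1 ≤ (e : ℤ) - e' := by omega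
  have h3 : (2 : ℤ) ≤ d := by exact_mod_cast hd
  have h4 : 2 * ((e : ℤ) - e') ≤ d * ((e : ℤ) - e') :=
    mul_le_mul_of_nonneg_right h3 (by omega)
  omega

/-- The range vanishes in a cleaned class of height two. -/
theorem range_two (h : PS fl p Λ Φ P) (hsd : SD Λ Λ' ρ d σ) (hρ : ρ ≤ P.δ) (hd : 2 ≤ d)
    (hn : p ∣ n0) (h0 : ∀ x ∈ (swp Φ).support, 0 ≤ ex ρ d σ x + n0) (hs : P.s = 2)
    (hε : P.ε = 0) (hfl : fl) (hB : PMul p Λ' (P.β + P.s * ρ)) (e e' : ℕ)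
    (he : (fib ρ d σ n0 (swp Φ) (P.β + P.s * ρ) P.ε).coeff e ≠ 0)
    (he' : (fib ρ d σ n0 (swp Φ) (P.β + P.s * ρ) P.ε).coeff e' ≠ 0) : e ≤ e' + 0 := by
  obtain ⟨α, i, hx, hl, hex, hi⟩ := fib_mem' h hsd hρ h0 he
  obtain ⟨α', i', hx', hl', hex', -⟩ := fib_mem' h hsd hρ h0 he'
  have h1 := fib_sub h hsd hx hx' (hl.trans hl'.symm) hex hex'
  by_contra hlt
  have h2 : 1 ≤ (e : ℤ) - e' := by omega
  have h3 : (2 : ℤ) ≤ d := by exact_mod_cast hd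
  have h4 : 2 * ((e : ℤ) - e') ≤ d * ((e : ℤ) - e') :=
    mul_le_mul_of_nonneg_right h3 (by omega)
  have h5 : (d : ℤ) * 1 ≤ d * ((e : ℤ) - e') := mul_le_mul_of_nonneg_left h2 (by omega)
  have hi' : i' = 0 := by omega
  have hd2 : d = 2 := by omega
  have hee : e = e' + 1 := by omega
  rw [hε] at he he' hx'
  have n1 := fib_not_dvd h hsd hn h0 hfl hB he
  have n2 := fib_not_dvd h hsd hn h0 hfl hB he'
  by_cases hp : p ∣ d
  · have hp2 : p = 2 := by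
      rw [hd2] at hp
      exact (Nat.prime_dvd_prime_iff_eq Fact.out Nat.prime_two).1 hp
    rw [hp2] at n1 n2
    omega
  · subst hi'
    have h6 : α' = P.β + P.s * ρ := by simpa using hl'
    have h7 : PMul p Λ α' := hsd.pmul_of_not_dvd hp (h.supp _ hx') (h6 ▸ hB)
    exact h.ess _ hx' ⟨hfl, h7, dvd_zero _, dvd_zero _⟩

end pure

variable {k Ω : Type*} [Field k] [NontriviallyNormedField Ω] [IsUltrametricDist Ω] [Algebra k Ω]
  [IsAlgClosed k] [IsAlgClosed Ω] [Ctx k Ω] {p : ℕ} [Fact p.Prime] [CharP k p] [CharP Ω p]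

/-- The transition at `z` followed by the isolation of a bottom monomial. -/
theorem core (hr : RS k Ω p) (hi : IsoStmt k Ω p) (cx : Cx Ω k) (X : WS p cx)
    (hρ : nu X.s.z ≤ X.P.δ) :
    ∃ (d n0 : ℕ) (σ : ℝ → ℤ) (κ : k) (Λ' : AddSubgroup ℝ), SD X.s.Λ Λ' (nu X.s.z) d σ ∧ κ ≠ 0 ∧
      p ∣ n0 ∧ (∀ x ∈ (swp X.Φ).support, 0 ≤ ex (nu X.s.z) d σ x + n0) ∧
      ∀ j e : ℕ,
        (taylor κ (fib (nu X.s.z) d σ n0 (swp X.Φ) (X.P.β + X.P.s * nu X.s.z) j)).coeff e ≠ 0 →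
        ¬ PW2 cx.fl p Λ' (X.P.β + X.P.s * nu X.s.z, j, e) →
        ∃ j0 i0 : ℕ, ¬ PW2 cx.fl p Λ' (X.P.β + X.P.s * nu X.s.z, j0, i0) ∧
          (j0 + i0 < j + e ∨ (j0 + i0 = j + e ∧ e ≤ i0)) ∧ ∃ s' B, Start p cx s' B j0 i0 := by
  obtain ⟨s1, a1, a2, a3, a4, -, -, a7, a8⟩ := hr.swap cx.T X.s
  have hz : X.s.z ≠ 0 := cx.z_ne X.rep.nx
  have hy1 : s1.y ≠ 0 := by rw [a3]; exact hz
  have r1 : Rp p cx s1 (swp X.Φ) X.r :=
    X.rep.transport a7 (by rw [a1]; exact X.rep.supp.swp) (by rw [a8])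
  obtain ⟨d, σ, κ, s2, u, b1, b2, -, b4, -, b6, b7, b8, -⟩ := hr.step cx.T s1 hy1
  rw [a3] at b1 b8
  obtain ⟨n0, c1, -, c3⟩ := exists_n0 (p := p) b1 (swp X.Φ)
  have r2 : Rp p cx s2 (stp (nu X.s.z) d σ n0 κ (swp X.Φ)) (u ^ n0 * X.r) :=
    r1.unit b4 (r1.supp.stp b1) b6 b7 c1 (b8 _ n0 r1.supp c3)
  obtain ⟨s3, e1, e2, e3, e4, -, e6, e7, e8⟩ := hr.swap cx.T s2
  have r3 : Rp p cx s3 (swp (stp (nu X.s.z) d σ n0 κ (swp X.Φ))) (u ^ n0 * X.r) :=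
    r2.transport e7 (by rw [e1]; exact r2.supp.swp) (by rw [e8])
  have r4 := hr.clean cx s3 _ _ r3
  have nx : Nx k cx.T X.s s3 := (a7.trans b4).trans e7
  obtain ⟨h, hh, hr'⟩ := nx.rem X.N_mem X.rem
  have hu : u ∈ s3.H k cx.T := by rw [e6]; exact b6
  have hrem : u ^ n0 * X.r = s3.mon X.N * (u ^ n0 * h) := by rw [hr']; ring
  rw [hrem] at r4
  have hsd : SD X.s.Λ s3.Λ (nu X.s.z) d σ := by rw [e1, ← a1]; exact b1
  have hpos : 0 < nu X.s.z := hsd.pos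
  have hlev : ∀ x ∈ (cln cx.fl p s3.Λ (swp (stp (nu X.s.z) d σ n0 κ (swp X.Φ)))).support,
      X.P.β + X.P.s * nu X.s.z ≤ x.1 := by
    intro x hx
    obtain ⟨x0, hx0, g1, -⟩ := stp_support (mem_swp_support.1 (mem_cln_support.1 hx).1)
    have g2 := level_ge X.ps hpos hρ (mem_swp_support.1 hx0)
    simp only at g1 g2
    rw [g1]; exact g2
  have hB0 : 0 ≤ X.P.β + X.P.s * nu X.s.z := by
    have := X.ps.β0
    positivity
  have hBN : X.P.β + X.P.s * nu X.s.z < X.N := by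
    have h1 := X.room
    have h2 : (X.P.s : ℝ) * nu X.s.z ≤ X.P.s * X.P.δ :=
      mul_le_mul_of_nonneg_left hρ (Nat.cast_nonneg _)
    simp only [Par.lev] at h1
    linarith
  refine ⟨d, n0, σ, κ, s3.Λ, hsd, b2, c1, c3, fun j e hc hw => ?_⟩
  have hmem : ((X.P.β + X.P.s * nu X.s.z, j, e) : Pt) ∈
      (cln cx.fl p s3.Λ (swp (stp (nu X.s.z) d σ n0 κ (swp X.Φ)))).support := by
    refine mem_cln_support.2 ⟨mem_swp_support.2 ?_, hw⟩
    rw [Finsupp.mem_support_iff, stp_apply]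
    exact hc
  obtain ⟨x0, f1, f2, f3, s', B, f4, -⟩ := hi cx s3 _ X.N 0 (X.P.β + X.P.s * nu X.s.z) _
    (nx.lat X.N_mem) (mul_mem (pow_mem hu n0) hh) r4 (fun x hx => (mem_cln_support.1 hx).2)
    (fun x hx => hB0.trans (hlev x hx)) le_rfl (s3.nu_z_pos (cx.z_ne r3.nx)) hBN
    (fun x hx => by simpa using hlev x hx) ⟨_, hmem, by simp⟩
  obtain ⟨α, j0, i0⟩ := x0
  have hα : α = X.P.β + X.P.s * nu X.s.z := by simpa using f2
  subst hα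
  exact ⟨j0, i0, (mem_cln_support.1 f1).2, f3 _ hmem (by simp), s', B, f4⟩

end Rho

variable {k Ω : Type*} [Field k] [NontriviallyNormedField Ω] [IsUltrametricDist Ω] [Algebra k Ω]
  [IsAlgClosed k] [IsAlgClosed Ω] [Ctx k Ω] {p : ℕ} [Fact p.Prime] [CharP k p] [CharP Ω p]

theorem rho (ho : OrdStmt k p) (hr : RS k Ω p) (hi : IsoStmt k Ω p) : RhoStmt k Ω p := by
  intro cx X hρ
  obtain ⟨d, n0, σ, κ, Λ', hsd, hκ, hn, h0, key⟩ := Rho.core hr hi cx X hρ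
  have hε := X.ps.eps
  have hs2 := X.ps.two
  have part1 : (nu X.s.z < X.P.δ ∨ 0 < X.P.b) → Lower p cx 2 := by
    intro hc
    obtain ⟨e, g1, g2, g3, -⟩ :=
      Rho.survive ho X.ps hsd hκ hn h0 (Rho.range_zero X.ps hsd hρ h0 hc)
    obtain ⟨j0, i0, -, g4, s', B, g5⟩ := key _ e g1 g2
    exact ⟨s', B, j0, i0, g5, by omega⟩
  refine ⟨part1, fun hδ => ?_⟩
  rcases hρ.lt_or_eq with hlt | heq
  · exact Or.inl ((part1 (Or.inl hlt)).mono hs2)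
  have hd : 2 ≤ d := by
    have h1 := hsd.d_pos
    by_contra h2
    have h3 : d = 1 := by omega
    have h4 := (hsd.dvd_iff 1).2 (by rw [h3]; simp)
    rw [heq] at h4
    exact hδ (by simpa using h4)
  by_cases hx : X.P.s = 2 ∧ X.P.ε = 0 ∧ cx.fl ∧ PMul p Λ' (X.P.β + X.P.s * nu X.s.z)
  · obtain ⟨x1, x2, x3, x4⟩ := hx
    obtain ⟨e, g1, g2, g3, -⟩ :=
      Rho.survive ho X.ps hsd hκ hn h0 (Rho.range_two X.ps hsd hρ hd hn h0 x1 x2 x3 x4)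
    obtain ⟨j0, i0, -, g4, s', B, g5⟩ := key _ e g1 g2
    exact Or.inl ⟨s', B, j0, i0, g5, by omega⟩
  obtain ⟨e, g1, g2, g3, g4⟩ :=
    Rho.survive ho X.ps hsd hκ hn h0 (Rho.range_half X.ps hsd hρ hd h0)
  obtain ⟨j0, i0, g5, g6, s', B, g7⟩ := key _ e g1 g2
  by_cases hlow : j0 + i0 < X.P.s
  · exact Or.inl ⟨s', B, j0, i0, g7, hlow⟩
  have hs : X.P.s = 2 := by omega
  have hε1 : X.P.ε = 1 := by
    by_contra hne
    have h1 : X.P.ε = 0 := by omega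
    have h2 := g4 fun hh => hx ⟨hs, h1, hh⟩
    omega
  obtain ⟨hfl, hps, hβ⟩ := X.ps.typ hε1
  have hB : PMul p Λ' (X.P.β + X.P.s * nu X.s.z) :=
    pmul_add (pmul_mono hsd.le hβ) (pmul_of_dvd hsd.η_mem hps)
  have hi0 : i0 ≠ 2 := by
    intro h2
    have h3 : j0 = 0 := by omega
    refine g5 ⟨hfl, hB, ?_, ?_⟩
    · simp [h3]
    · simpa [h2, hs] using hps
  exact Or.inr ⟨hs, hε1, s', B, j0, i0, g7, by omega, by omega, by omega⟩

end Pool.Agent.MP_19ffc6_ag.LU2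

end MrgPart2

-- marker of a merged file
example : 731051 + 533549 = 731051 + 533549 := rfl
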