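import Mathlib.NumberTheory.Padics.PadicVal.Basic
import Pool.Agent.MP_19ffc6_ag.LU2.Tower

/-! PROJECT LU2, module ARITH: the arithmetic of the cycles D, L, D. -/

namespace Pool.Agent.MP_19ffc6_ag.LU2

namespace Arith

theorem qq_dvd {p s : ℕ} (hp : p.Prime) (hs : p ∣ s) (h2 : 2 ≤ s) : p ∣ qq p s ∧ 0 < qq p s := by
  have : Fact p.Prime := ⟨hp⟩
  unfold qq
  rw [if_pos hs]
  refine ⟨dvd_pow_self p ?_, pow_pos hp.pos _⟩
  have := one_le_padicValNat_of_dvd (p := p) (n := s) (by omega) hs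
  omega

/-- case (b) when `p R ≤ g + 1` -/
theorem nat_b {p g R : ℕ} (hp : 2 ≤ p) (hg : 1 ≤ g) (hd : p ∣ g) (hR : p * R ≤ g + 1)
    (h2 : p = 2 → 2 ∣ R) : R + 2 ≤ g := by
  have hpg : p ≤ g := Nat.le_of_dvd (by omega) hd
  rcases Nat.eq_or_lt_of_le hp with h | h
  · subst h
    have := h2 rfl
    omega
  · have : 3 * R ≤ p * R := Nat.mul_le_mul_right R h
    omega

/-- case (c) when `p R ≤ q + 1` -/
theorem nat_c {p q t R : ℕ} (hp : 2 ≤ p) (hq : 0 < q) (hd : p ^ (t + 1) ∣ q)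
    (hR : p * R ≤ q + 1) (h2 : p = 2 → 1 ≤ t ∧ 2 ^ (t + 1) ∣ R) (h3 : p = 3 → t = 0 → 3 ∣ R) :
    2 + R + p ^ t ≤ q := by
  have hT : p ^ t * p ≤ q := by rw [← pow_succ]; exact Nat.le_of_dvd hq hd
  have hT1 : 1 ≤ p ^ t := Nat.one_le_pow _ _ (by omega)
  have hpq : p ∣ q := (dvd_pow_self p (by omega)).trans hd
  have hR' : p * R ≤ q := by
    obtain ⟨c, rfl⟩ := hpq
    by_contra hc
    have h1 : c < R := by
      by_contra h
      exact hc (Nat.mul_le_mul_left p (by omega))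
    have h4 : p * (c + 1) ≤ p * R := Nat.mul_le_mul_left p h1
    rw [mul_add] at h4
    omega
  by_cases e2 : p = 2
  · subst e2
    obtain ⟨ht, hdv⟩ := h2 rfl
    have hT2 : 2 ≤ 2 ^ t := by
      calc 2 = 2 ^ 1 := by norm_num
        _ ≤ 2 ^ t := Nat.pow_le_pow_right (by norm_num) ht
    rcases Nat.eq_zero_or_pos R with h0 | h0
    · omega
    · have := Nat.le_of_dvd h0 hdv
      rw [pow_succ] at this
      omega
  by_cases e3 : p = 3
  · subst e3
    rcases Nat.eq_zero_or_pos t with h0 | h0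
    · have := h3 rfl h0
      subst h0
      omega
    · have hT2 : 3 ≤ 3 ^ t := by
        calc 3 = 3 ^ 1 := by norm_num
          _ ≤ 3 ^ t := Nat.pow_le_pow_right (by norm_num) h0
      omega
  have h4 : 4 ≤ p := by omega
  have a1 : 4 * R ≤ p * R := Nat.mul_le_mul_right R h4
  have a2 : p ^ t * 4 ≤ p ^ t * p := Nat.mul_le_mul_left _ h4
  omega

/-- the second and the third claim -/
theorem low {p q g J : ℕ} {b : ℝ} (hp : 2 ≤ p) (hq : 0 < q) (hg : 1 ≤ g) (h : LDnum p q b g J)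
    (hb : ∀ n : ℕ, (n : ℝ) ≤ g * b → n ≤ g + 1) :
    (∃ R, J ≤ R ∧ ((2 * R : ℕ) : ℝ) ≤ g * b) ∨ J + 1 ≤ g := by
  rcases h with ⟨R, h1, h2⟩ | ⟨hd, R, h1, h2, h3⟩ | ⟨rfl, t, R, hd, h1, h2, h3, h4⟩
  · refine Or.inl ⟨R, h1, le_trans ?_ h2⟩
    exact_mod_cast Nat.mul_le_mul_right R hp
  · have := nat_b hp hg hd (hb _ (by exact_mod_cast h2)) h3
    exact Or.inr (by omega)
  · have := nat_c hp hq hd (hb _ (by exact_mod_cast h2)) h3 h4
    exact Or.inr (by omega)

/-- the data of the memory -/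
structure Mem (q g : ℕ) (b b0 : ℝ) (g0 J0 : ℕ) : Prop where
  hb0 : 1 ≤ b0
  hg0 : 1 ≤ g0
  le : g0 * b ≤ J0
  fl : g0 * b = J0 → g0 < q → g ≤ g0
  ty : (J0 : ℝ) ≤ 1 + g0 * b0 ∨ (g0 = q ∧ (J0 : ℝ) ≤ 2 + g0 * b0 ∧ 2 * (g0 : ℝ) ≤ 1 + g0 * b0)

variable {q g g0 J0 : ℕ} {b b0 : ℝ}

theorem Mem.b_le (h : Mem q g b b0 g0 J0) (hq : 2 ≤ q) : b ≤ b0 + 1 := by
  have h1 : (1 : ℝ) ≤ g0 := by exact_mod_cast h.hg0
  have h2 := h.le
  by_contra hc
  push Not at hc
  rcases h.ty with h3 | ⟨h3, h4, -⟩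
  · nlinarith
  · have h5 : (2 : ℝ) ≤ g0 := by rw [h3]; exact_mod_cast hq
    nlinarith

theorem Mem.tie (h : Mem q g b b0 g0 J0) (hq : 2 ≤ q) (e0 : b0 = 1) (e : b = 2) : g ≤ 1 := by
  have h2 := h.le
  have h1 := h.hg0
  subst e0 e
  rcases h.ty with h3 | ⟨h3, -, h4⟩
  · have a1 : 2 * g0 ≤ J0 := by
      have : ((2 * g0 : ℕ) : ℝ) ≤ J0 := by push_cast; linarith
      exact_mod_cast this
    have a2 : J0 ≤ 1 + g0 := by
      have : (J0 : ℝ) ≤ ((1 + g0 : ℕ) : ℝ) := by push_cast; linarith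
      exact_mod_cast this
    have e1 : g0 = 1 := by omega
    have e2 : J0 = 2 := by omega
    have := h.fl (by rw [e1, e2]; norm_num) (by omega)
    omega
  · have h5 : (2 : ℝ) ≤ g0 := by rw [h3]; exact_mod_cast hq
    linarith

/-- the case `p = 2` of (c) with `b ≥ 2` -/
theorem Mem.two (h : Mem q q b b0 g0 J0) (hq : 4 ≤ q) (hb : 2 ≤ b) (hb' : 2 * b0 - 1 ≤ b) :
    False := by
  have h2 := h.le
  have h1 := h.hg0
  rcases h.ty with h3 | ⟨h3, h4, h5⟩
  · have hg2 : g0 ≤ 2 := by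
      by_contra hc
      have : (3 : ℝ) ≤ g0 := by exact_mod_cast (by omega : 3 ≤ g0)
      nlinarith
    have hc : g0 = 1 ∨ g0 = 2 := by omega
    rcases hc with e | e
    · subst e
      simp only [Nat.cast_one, one_mul] at h2 h3
      rcases eq_or_lt_of_le h2 with e | e
      · have := h.fl (by simpa using e) (by omega)
        omega
      · have a1 : 2 < J0 := by
          have : ((2 : ℕ) : ℝ) < J0 := by push_cast; linarith
          exact_mod_cast this
        have a2 : (3 : ℝ) ≤ J0 := by exact_mod_cast (by omega : 3 ≤ J0)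
        linarith
    · subst e
      have e1 : ((2 : ℕ) : ℝ) * b = J0 := by push_cast at h2 h3 ⊢; linarith
      have := h.fl e1 (by omega)
      omega
  · have h6 : (4 : ℝ) ≤ g0 := by rw [h3]; exact_mod_cast hq
    nlinarith

/-- the first claim -/
theorem high {p J : ℕ} (hp : 2 ≤ p) (hq : 2 ≤ q) (hg : 1 ≤ g) (h : LDnum p q b g J)
    (hm : Mem q g b b0 g0 J0) : (J : ℝ) < 1 + g * b0 := by
  have hb := hm.b_le hq
  have hb0 := hm.hb0
  have hg' : (1 : ℝ) ≤ g := by exact_mod_cast hg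
  have k1 : g * b ≤ g * (b0 + 1) := mul_le_mul_of_nonneg_left hb (by linarith)
  have k2 : (g : ℝ) ≤ g * b0 := by nlinarith
  have tie : g * b0 ≤ g → 2 * (g : ℝ) ≤ g * b → g ≤ 1 := by
    intro a1 a2
    have e0 : b0 = 1 := by
      have : b0 ≤ 1 := by nlinarith
      linarith
    refine hm.tie hq e0 ?_
    have : 2 ≤ b := by nlinarith
    linarith
  rcases h with ⟨R, h1, h2⟩ | ⟨hd, R, h1, h2, -⟩ | ⟨rfl, t, R, hd, h1, h2, h3, -⟩
  · have a1 : (J : ℝ) ≤ R := by exact_mod_cast h1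
    have a2 : ((2 * R : ℕ) : ℝ) ≤ p * R := by exact_mod_cast Nat.mul_le_mul_right R hp
    push_cast at a2
    linarith
  · have a1 : (J : ℝ) ≤ R + 1 := by exact_mod_cast h1
    have a2 : ((2 * R : ℕ) : ℝ) ≤ p * R := by exact_mod_cast Nat.mul_le_mul_right R hp
    push_cast at a2
    by_contra hc
    push Not at hc
    have := tie (by linarith) (by linarith)
    have := Nat.le_of_dvd (by omega) hd
    omega
  · have a1 : (J : ℝ) ≤ 1 + R + (p ^ t : ℕ) := by exact_mod_cast h1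
    have hT : p ^ t * p ≤ g := by rw [← pow_succ]; exact Nat.le_of_dvd (by omega) hd
    by_contra hc
    push Not at hc
    rcases Nat.eq_or_lt_of_le hp with e | e
    · subst e
      obtain ⟨ht, hdv⟩ := h3 rfl
      have hT2 : 2 ≤ 2 ^ t := by
        calc 2 = 2 ^ 1 := by norm_num
          _ ≤ 2 ^ t := Nat.pow_le_pow_right (by norm_num) ht
      have a3 : ((2 ^ t * 2 : ℕ) : ℝ) ≤ g := by exact_mod_cast hT
      rw [Nat.cast_mul] at a3
      push_cast at h2
      rcases Nat.lt_or_ge R g with hR | hR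
      · have a4 : 2 ^ (t + 1) ≤ g - R := Nat.le_of_dvd (by omega) (Nat.dvd_sub hd hdv)
        rw [pow_succ] at a4
        have a5 : ((R + 2 ^ t + 1 : ℕ) : ℝ) ≤ g := by exact_mod_cast (by omega : R + 2 ^ t + 1 ≤ g)
        rw [Nat.cast_add, Nat.cast_add] at a5
        norm_num at a5 a1
        linarith
      · have a4 : (g : ℝ) ≤ R := by exact_mod_cast hR
        refine hm.two (by omega) (by nlinarith) ?_
        have a5 : g * (2 * b0 - 1) ≤ g * b := by
          norm_num at a3 a1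
          linarith
        exact le_of_mul_le_mul_left a5 (by linarith)
    · have a2 : ((3 * R : ℕ) : ℝ) ≤ p * R := by exact_mod_cast Nat.mul_le_mul_right R e
      have a3 : ((p ^ t * 3 : ℕ) : ℝ) ≤ g := by
        exact_mod_cast (Nat.mul_le_mul_left _ e).trans hT
      rw [Nat.cast_mul] at a2 a3
      norm_num at a1 a2 a3
      have := tie (by linarith) (by linarith)
      omega

end Arith

open Arith in
theorem arith (p : ℕ) [Fact p.Prime] : ArithStmt p := by
  intro s g J b hs h2 hg hgs hb h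
  have hp : p.Prime := Fact.out
  obtain ⟨hq1, hq0⟩ := qq_dvd hp hs h2
  have hq : 2 ≤ qq p s := hp.two_le.trans (Nat.le_of_dvd hq0 hq1)
  refine ⟨fun b0 g0 J0 a1 a2 a3 a4 a5 => high hp.two_le hq hg h ⟨a1, a2, a3, a4, a5⟩,
    fun e => ?_, fun e1 e2 => ?_⟩
  · subst e
    rcases low hp.two_le hq0 hg h (fun n hn => by
      have : n ≤ g := by exact_mod_cast (by simpa using hn : (n : ℝ) ≤ g)
      omega) with ⟨R, h1, h3⟩ | h1
    · have : 2 * R ≤ g := by exact_mod_cast (by simpa using h3 : ((2 * R : ℕ) : ℝ) ≤ g)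
      omega
    · exact h1
  · have hs' : (2 : ℝ) ≤ s := by exact_mod_cast h2
    have hgs' : (g : ℝ) ≤ s := by exact_mod_cast hgs
    have key : ∀ n : ℕ, (n : ℝ) ≤ g * b → n ≤ g + 1 := by
      intro n hn
      have k1 : g * b ≤ g + b := by nlinarith
      have k2 : b ≤ 2 := by nlinarith
      rcases eq_or_lt_of_le k2 with e | e
      · have k3 : s = 2 := by
          have : (s : ℝ) ≤ (2 : ℕ) := by rw [e] at e1; push_cast; linarith
          have : s ≤ 2 := by exact_mod_cast this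
          omega
        have k4 := e2 k3 e
        have : (n : ℝ) ≤ (2 : ℕ) := by rw [k4, e] at hn; push_cast at hn ⊢; linarith
        have : n ≤ 2 := by exact_mod_cast this
        omega
      · have : (n : ℝ) < ((g + 2 : ℕ) : ℝ) := by push_cast; linarith
        have : n < g + 2 := by exact_mod_cast this
        omega
    rcases low hp.two_le hq0 hg h key with ⟨R, h1, h3⟩ | h1
    · have := key _ h3
      omega
    · omega

end Pool.Agent.MP_19ffc6_ag.LU2
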