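import Mathlib.Order.Interval.Finset.Box
import Pool.Agent.MP_19ffc6_ag.LU2.Tower
import Pool.Agent.MP_19ffc6_ag.LU2.Solve

-- ======== part 0: formerly Pool.Agent.MP_19ffc6_ag.LU2.Eng
section MrgPart0

/-! PROJECT LU2, module ENG: the logic of the induction on the degree. -/

namespace Pool.Agent.MP_19ffc6_ag.LU2

open Polynomial IntermediateField Pool.Agent.MP_19ffc6_ag.LU

variable {k Ω : Type*} [Field k] [NontriviallyNormedField Ω] [Algebra k Ω] {p : ℕ}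

namespace Eng

theorem u_mono {cx : Cx Ω k} {X : WS p cx} {g g' : ℕ} (h : X.U g) (hg : g ≤ g') : X.U g' := by
  intro c hc
  obtain ⟨i, h1, h2, h3⟩ := h c hc
  exact ⟨i, h1, by omega, h3⟩

theorem one_lt_qq [hp : Fact p.Prime] {s : ℕ} (h : p ∣ s) (hs : s ≠ 0) : 1 < qq p s := by
  rw [qq, if_pos h]
  exact Nat.one_lt_pow (Nat.one_le_iff_ne_zero.1 (one_le_padicValNat_of_dvd hs h)) hp.out.one_lt

theorem qq_le' {s : ℕ} (h : p ∣ s) (hs : s ≠ 0) : qq p s ≤ s := by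
  rw [qq, if_pos h]
  exact Nat.le_of_dvd (Nat.pos_of_ne_zero hs) pow_padicValNat_dvd

theorem eps {cx : Cx Ω k} (X : WS p cx) : X.P.ε = 0 ∨ X.P.ε = 1 := by
  have := X.ps.eps
  omega

/-- The target of a move. -/
def Tg {cx : Cx Ω k} (A0 : ℝ) (Y : WS p cx) : Prop :=
  (Y.U Y.P.s ∧ 0 < Y.P.δ ∧ Y.P.b < 1) ∨ Y.Full A0

/-- The hypotheses of the induction step. -/
structure IH (p : ℕ) (cx : Cx Ω k) (s : ℕ) : Prop where
  st : StartStmt k Ω p
  mv : MoveStmt k Ω p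
  run : RunStmt k Ω p
  lb : LowbStmt k Ω p
  two : 2 ≤ s
  hL : Lower p cx s → Lower p cx 2
  hD : StartD p cx (s - 1) → Lower p cx 2

variable {cx : Cx Ω k} {s : ℕ}

/-- A run that keeps the type `e` and the property `Q`. -/
theorem IH.runs (H : IH p cx s) (e : ℕ) (Q : WS p cx → Prop)
    (hQ : ∀ A0 W (X Y : WS p cx), X.P.s = s → Y.P.s = s → X.P.ε = e → Q X → X.Tr W Y →
      Y.P.ε = X.P.ε → Y.Full A0 → Q Y)
    (hW : ∀ Y : WS p cx, Y.P.s = s → Y.P.ε = e → Y.U Y.P.s → 0 < Y.P.δ → Y.P.b < 1 →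
      Lower p cx 2)
    (hX : ∀ A0 W (X Y : WS p cx), X.Full A0 → X.P.s = s → Y.P.s = s → X.P.ε = e → Q X →
      X.Tr W Y → Y.P.ε ≠ e → Tg A0 Y → Lower p cx 2)
    (A0 : ℝ) (X : WS p cx) (h : X.Full A0) (hs : X.P.s = s) (he : X.P.ε = e) (hq : Q X) :
    Lower p cx 2 := by
  refine H.run cx A0 (A0 + nu (cx.D cx.f) + 2) (fun X => X.P.s = s ∧ X.P.ε = e ∧ Q X) _ ?_ X h
    ⟨hs, he, hq⟩
  rintro X h ⟨hs, he, hq⟩
  rcases H.mv cx X A0 h with a | a | ⟨Y, t, a⟩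
  · exact Or.inl a
  · exact Or.inl (H.hD (hs ▸ a))
  have hY : Y.P.s = s := t.s_eq.trans hs
  by_cases c : Y.P.ε = e
  · rcases a with ⟨a1, a2, a3⟩ | a
    · exact Or.inl (hW Y hY c a1 a2 a3)
    · exact Or.inr ⟨Y, a, ⟨hY, c, hQ A0 _ X Y hs hY he hq t (c.trans he.symm) a⟩, t.s_eq,
        c.trans he.symm, (t.same (c.trans he.symm)).imp_right fun b => ⟨b.1, b.2.1⟩⟩
  · exact Or.inl (hX A0 _ X Y h hs hY he hq t c a)

/-- The exit in type L or A. -/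
theorem IH.lw (H : IH p cx s) (Y : WS p cx) (hs : Y.P.s = s) (he : Y.P.ε = 0) (h1 : Y.U Y.P.s)
    (h2 : 0 < Y.P.δ) (h3 : Y.P.b < 1) : Lower p cx 2 := by
  rcases H.lb cx Y h3 h1 h2 with a | a | a
  · exact H.hL (hs ▸ a)
  · omega
  · omega

/-- A run in type L. -/
theorem IH.runL (H : IH p cx s) (Q : WS p cx → Prop)
    (hQ : ∀ A0 W (X Y : WS p cx), X.P.s = s → Y.P.s = s → Q X → X.Tr W Y →
      Y.P.ε = X.P.ε → Y.Full A0 → Q Y)
    (hX : ∀ A0 W (X Y : WS p cx), X.P.s = s → Y.P.s = s → X.P.ε = 0 → Q X →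
      X.Tr W Y → Y.P.ε = 1 → Tg A0 Y → Lower p cx 2)
    (A0 : ℝ) (X : WS p cx) (h : X.Full A0) (hs : X.P.s = s) (he : X.P.ε = 0) (hq : Q X) :
    Lower p cx 2 :=
  H.runs 0 Q (fun A0 W X Y a b _ => hQ A0 W X Y a b) H.lw
    (fun A0 W X Y _ a b c d e f => hX A0 W X Y a b c d e ((eps Y).resolve_left f)) A0 X h hs he hq

/-- Type A. -/
theorem IH.typeA (H : IH p cx s) (hp : ¬ p ∣ s) (A0 : ℝ) (X : WS p cx) (h : X.Full A0)
    (hs : X.P.s = s) (he : X.P.ε = 0) : Lower p cx 2 :=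
  H.runL (fun _ => True) (fun _ _ _ _ _ _ _ _ _ _ => trivial)
    (fun _ _ _ Y _ b _ _ _ e _ => absurd (b ▸ (Y.ps.typ e).2.1) hp) A0 X h hs he trivial

section dvd

variable [Fact p.Prime] (H : IH p cx s) (hp : p ∣ s)

include H hp

theorem IH.keep {W : ℝ} {X Y : WS p cx} (t : X.Tr W Y) (hs : X.P.s = s) (he : Y.P.ε = X.P.ε)
    (hb : X.P.b ≤ Y.P.b) : Y.P.b = X.P.b ∧ (X.U 1 → Y.U 1) := by
  rcases t.same he with a | a
  · exact absurd a (not_lt.2 hb)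
  · have := H.two
    exact ⟨a.1, a.2.2 (hs ▸ hp) 1 (hs ▸ one_lt_qq hp (by omega))⟩

theorem IH.gx (h : StartX p cx s) : Lower p cx 2 := by
  obtain ⟨Y, y1, y2, y3, y4, y5, y6⟩ := H.st.real cx s h
  obtain ⟨X, A0, x1, x2, x3⟩ := H.st.refresh cx Y y1 y2 y4.ge (y3 ▸ y5)
  refine H.runL (fun X => X.P.b = 1 ∧ (s = 2 → X.U 1)) ?_ ?_ A0 X x1 (x2 ▸ y3) (x2 ▸ y2)
    ⟨x2 ▸ y4, fun a => x3 1 (y6 hp a)⟩
  · intro A0 W X Y hX _ q t e f
    have := H.keep hp t hX e (q.1.trans_le f.one_le)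
    exact ⟨this.1.trans q.1, fun a => this.2 (q.2 a)⟩
  · intro A0 W X Y _ hY e q t e' g
    obtain ⟨b1, b2⟩ := t.ld2 e e' q.1
    rcases g with g | g
    · rcases H.lb cx Y b1 g.1 g.2.1 with a | ⟨-, -, a | a⟩ | a
      · exact H.hL (hY ▸ a)
      · exact absurd b2 a
      · exact absurd (t.ld4 e e' (q.2 (hY ▸ a.1)) b1) a.2
      · exact absurd b2 a.2.1
    · exact absurd b1 (not_lt.2 g.one_le)

theorem IH.s0 (A0 : ℝ) (X : WS p cx) (h : X.Full A0) (hs : X.P.s = s) (he : X.P.ε = 0)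
    (h1 : X.P.b * (s - 1) ≤ s) (h2 : s = 2 → X.P.b = 2 → X.U 1) : Lower p cx 2 := by
  have s2 : (2 : ℝ) ≤ s := by exact_mod_cast H.two
  refine H.runL (fun X => X.P.b * (s - 1) ≤ s ∧ (s = 2 → X.P.b = 2 → X.U 1)) ?_ ?_ A0 X h hs he
    ⟨h1, h2⟩
  · intro A0 W X Y hX _ q t e _
    have le : Y.P.b ≤ X.P.b := (t.same e).elim le_of_lt fun a => a.1.le
    refine ⟨(mul_le_mul_of_nonneg_right le (by linarith)).trans q.1, fun a b => ?_⟩
    have q1 := q.1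
    rw [a] at q1
    have := H.keep hp t hX e (by rw [b]; push_cast at q1; linarith)
    exact this.2 (q.2 a (this.1.symm.trans b))
  · intro A0 W X Y hX hY e q t e' g
    have b1 := t.ld3 e e' (hX ▸ q.1) (hX ▸ q.2)
    rw [hX] at b1
    have b2 : Y.P.b < 1 := by
      by_contra c
      nlinarith [mul_le_mul_of_nonneg_right (not_lt.1 c) (zero_le_two.trans s2)]
    rcases g with g | g
    · rcases H.lb cx Y b2 g.1 g.2.1 with a | a | a
      · exact H.hL (hY ▸ a)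
      · exact H.gx hp (hY ▸ a.2.1)
      · exact absurd (hY ▸ a.2.2.1) b1.ne
    · exact absurd b2 (not_lt.2 g.one_le)

theorem IH.dw (Y : WS p cx) (hs : Y.P.s = s) (h1 : Y.U Y.P.s) (h2 : 0 < Y.P.δ)
    (h3 : Y.P.b < 1) : Lower p cx 2 := by
  have s2 : (2 : ℝ) ≤ s := by exact_mod_cast H.two
  rcases H.lb cx Y h3 h1 h2 with a | a | ⟨-, -, -, Z, z1, z2, z3, z4, z5⟩
  · exact H.hL (hs ▸ a)
  · exact H.gx hp (hs ▸ a.2.1)
  · have z6 : Z.P.s = s := z3.trans hs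
    rw [z6] at z4 z5
    obtain ⟨X, A0, x1, x2, x3⟩ := H.st.refresh cx Z z1 z2 (by
      by_contra c
      nlinarith [mul_lt_mul_of_pos_right (not_le.1 c) (show (0 : ℝ) < s - 1 by linarith)])
      (u_mono z5 (by omega))
    exact H.s0 hp A0 X x1 (x2 ▸ z6) (x2 ▸ z2) (x2 ▸ z4.le) fun a _ =>
      x3 1 (u_mono z5 (by omega))

theorem IH.lp (b0 : ℝ) (hb : 1 ≤ b0)
    (ih : ∀ A0 (Y : WS p cx), Y.Full A0 → Y.P.s = s → Y.P.ε = 1 → Y.P.b < b0 → Lower p cx 2)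
    (A0 : ℝ) (X : WS p cx) (h : X.Full A0) (hs : X.P.s = s) (he : X.P.ε = 0)
    (hq : Phi p b0 X.P X.U) : Lower p cx 2 := by
  refine H.runL (fun X => Phi p b0 X.P X.U) ?_ ?_ A0 X h hs he hq
  · rintro A0 W X Y hX hY ⟨g, J, q1, q2, q3, q4⟩ t e _
    have g0 : (0 : ℝ) < g := by exact_mod_cast q1
    refine ⟨g, J, q1, ?_, fun a b => ?_, t.s_eq ▸ q4⟩
    · exact (mul_le_mul_of_nonneg_left ((t.same e).elim le_of_lt fun a => a.1.le) g0.le).trans q2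
    · rcases t.same e with c | c
      · exact absurd a ((mul_lt_mul_of_pos_left c g0).trans_le q2).ne
      · rw [t.s_eq] at b
        exact c.2.2 (hX ▸ hp) g b (q3 (c.1 ▸ a) b)
  · intro A0 W X Y _ hY e q t e' g
    rcases g with g | g
    · exact H.dw hp Y hY g.1 g.2.1 g.2.2
    · exact ih A0 Y g hY e' (t.ld1 e e' b0 hb q)

theorem IH.df (n : ℕ) : ∀ A0 (X : WS p cx), X.Full A0 → X.P.s = s → X.P.ε = 1 →
    X.P.b * s.factorial ≤ n → Lower p cx 2 := by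
  have f0 : (0 : ℝ) < s.factorial := by exact_mod_cast s.factorial_pos
  induction n using Nat.strong_induction_on with
  | _ n ih =>
    refine H.runs 1 (fun X => X.P.b * s.factorial ≤ n) ?_ (fun Y a _ => H.dw hp Y a) ?_
    · intro A0 W X Y _ _ _ q t e _
      exact (mul_le_mul_of_nonneg_right ((t.same e).elim le_of_lt fun a => a.1.le) f0.le).trans q
    · intro A0 W X Y h _ hY e q t e' g
      have e0 : Y.P.ε = 0 := (eps Y).resolve_right e'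
      rcases g with g | g
      · exact H.lw Y hY e0 g.1 g.2.1 g.2.2
      refine H.lp hp X.P.b h.one_le (fun A1 Z z1 z2 z3 z4 => ?_) A0 Y g hY e0 (t.dl e e0)
      obtain ⟨m, hm⟩ := Z.ps.rat
      rw [z2] at hm
      have m0 : (0 : ℝ) ≤ m := hm ▸ mul_nonneg (zero_le_one.trans z1.one_le) f0.le
      have m1 : (m : ℝ) < n := hm ▸ (mul_lt_mul_of_pos_right z4 f0).trans_le q
      lift m to ℕ using (by exact_mod_cast m0)
      exact ih m (by exact_mod_cast m1) A1 Z z1 z2 z3 (by rw [hm]; exact le_rfl)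

theorem IH.typeD (A0 : ℝ) (X : WS p cx) (h : X.Full A0) (hs : X.P.s = s) (he : X.P.ε = 1) :
    Lower p cx 2 := H.df hp _ A0 X h hs he (Nat.le_ceil _)

theorem IH.typeL (A0 : ℝ) (X : WS p cx) (h : X.Full A0) (hs : X.P.s = s) (he : X.P.ε = 0) :
    Lower p cx 2 := by
  have s2 := H.two
  refine H.lp hp X.P.b h.one_le (fun A Y a b c _ => H.typeD hp A Y a b c) A0 X h hs he
    ⟨s, ⌈s * X.P.b⌉₊, by omega, Nat.le_ceil _, fun _ a => ?_, Or.inl ?_⟩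
  · rw [hs] at a
    exact absurd a (not_lt.2 (qq_le' hp (by omega)))
  · rw [add_comm]
    exact (Nat.ceil_lt_add_one (mul_nonneg (Nat.cast_nonneg _) (zero_le_one.trans h.one_le))).le

end dvd

theorem IH.step [Fact p.Prime] (H : IH p cx s) :
    (Lower p cx (s + 1) → Lower p cx 2) ∧ (StartD p cx s → Lower p cx 2) := by
  have full : ∀ A0 (X : WS p cx), X.Full A0 → X.P.s = s → X.P.ε = 0 → Lower p cx 2 := by
    by_cases hp : p ∣ s
    exacts [H.typeL hp, H.typeA hp]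
  have pure : ∀ t B, Start p cx t B 0 s → Lower p cx 2 := fun t B h => by
    obtain ⟨X, A0, a, b, c⟩ := H.st.virt cx t B 0 s h zero_le_one H.two (by omega)
    exact full A0 X a c b
  constructor
  · rintro ⟨t, B, j, i, h, hl⟩
    by_cases c : j + i < s
    · exact H.hL ⟨t, B, j, i, h, c⟩
    rcases Nat.eq_zero_or_pos j with rfl | hj
    · exact pure t B ((show i = s by omega) ▸ h)
    rcases Nat.eq_zero_or_pos i with rfl | hi
    · obtain ⟨t', h'⟩ := H.st.swap cx t B j 0 h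
      exact pure t' B ((show j = s by omega) ▸ h')
    obtain ⟨Y, y1, y2, y3, y4, y5, -⟩ := H.st.real cx s ⟨t, B, j, i, h, by omega, hj, hi⟩
    obtain ⟨X, A0, x1, x2, -⟩ := H.st.refresh cx Y y1 y2 y4.ge (y3 ▸ y5)
    exact full A0 X x1 (x2 ▸ y3) (x2 ▸ y2)
  · rintro ⟨h1, h2, t, B, h3, h4⟩
    obtain ⟨X, A0, a, b, c⟩ := H.st.virt cx t B 1 s h3 le_rfl H.two fun _ => ⟨h1, h2, h4⟩
    exact H.typeD h2 A0 X a c b

end Eng

theorem engine2 [hp : Fact p.Prime] (hst : StartStmt k Ω p) (hmv : MoveStmt k Ω p)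
    (hrun : RunStmt k Ω p) (hlb : LowbStmt k Ω p) : EngineStmt k Ω p := by
  intro cx
  have key : ∀ s, (Lower p cx (s + 1) → Lower p cx 2) ∧ (StartD p cx s → Lower p cx 2) := by
    intro s
    induction s with
    | zero =>
      exact ⟨fun ⟨t, B, j, i, h, hl⟩ => ⟨t, B, j, i, h, by omega⟩,
        fun ⟨_, _, t, B, h, _⟩ => ⟨t, B, 1, 0, h, by omega⟩⟩
    | succ s ih =>
      rcases Nat.eq_zero_or_pos s with rfl | hs
      · exact ⟨id, fun h => absurd (Nat.dvd_one.1 h.2.1) hp.out.one_lt.ne'⟩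
      · exact Eng.IH.step ⟨hst, hmv, hrun, hlb, by omega, ih.1, ih.2⟩
  rintro μ ⟨t, B, j, i, h, -⟩
  exact (key (j + i)).1 ⟨t, B, j, i, h, Nat.lt_succ_self _⟩

end Pool.Agent.MP_19ffc6_ag.LU2

end MrgPart0

-- ======== part 1: formerly Pool.Agent.MP_19ffc6_ag.LU2.Face
section MrgPart1

/-! PROJECT LU2, module FACE: the face data of a prepared state. -/

namespace Pool.Agent.MP_19ffc6_ag.LU2

open Polynomial Pool.Agent.MP_19ffc6_ag.LU

namespace Face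

variable {k : Type*} [Field k] {p : ℕ} {fl : Prop} {Λ Λ' : AddSubgroup ℝ} {Φ : Pol2 k} {P : Par}
  {η : ℝ} {d n0 : ℕ} {σ : ℝ → ℤ}

/-- The new level of the face at height `i`. -/
noncomputable def lv (P : Par) (η : ℝ) (i : ℕ) : ℝ :=
  P.β + P.ε * η + ((P.s : ℝ) - i) * (P.δ + η * P.b)

/-- The old exponent of `y` of the term `u ^ e` at height `i`. -/
noncomputable def jj (P : Par) (η : ℝ) (d n0 : ℕ) (σ : ℝ → ℤ) (i e : ℕ) : ℕ :=
  (σ (lv P η i) + d * ((e : ℤ) - n0)).toNat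

theorem lv_iff (P : Par) (η : ℝ) (x : Pt) :
    x.1 + x.2.1 * η = lv P η x.2.2 ↔ P.dfc x = η * P.cod x := by
  rw [lv, Par.dfc, Par.cod, Par.gap]
  constructor <;> intro h <;> linear_combination h

theorem lv_top (P : Par) (η : ℝ) : lv P η P.s = P.top.1 + P.top.2.1 * η := by
  rw [lv, sub_self, zero_mul, add_zero]
  rfl

theorem lv_sub (P : Par) (η : ℝ) (i i' : ℕ) :
    lv P η i' = lv P η i + (((i : ℤ) - i' : ℤ) : ℝ) * (P.δ + η * P.b) := by
  rw [lv, lv]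
  push_cast
  ring

/-- The term of `Φ` behind a coefficient of the face. -/
theorem exists_term (hps : PS fl p Λ Φ P) (hsd : SD Λ Λ' η d σ)
    (h0 : ∀ x ∈ Φ.support, 0 ≤ ex η d σ x + n0) {i e : ℕ}
    (h : (fib η d σ n0 Φ (lv P η i) i).coeff e ≠ 0) :
    ∃ x ∈ Φ.support, x.2.2 = i ∧ x.1 + x.2.1 * η = lv P η i ∧ P.dfc x = η * P.cod x ∧
      (e : ℤ) = ex η d σ x + n0 ∧ (x.2.1 : ℤ) = σ (lv P η i) + d * ((e : ℤ) - n0) ∧
      jj P η d n0 σ i e = x.2.1 := by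
  obtain ⟨x, hx, h1, rfl, h3⟩ := fib_support h
  have h4 : (e : ℤ) = ex η d σ x + n0 := by rw [h3, Int.toNat_of_nonneg (h0 x hx)]
  have h5 : (x.2.1 : ℤ) = σ (lv P η x.2.2) + d * ((e : ℤ) - n0) := by
    rw [h4, add_sub_cancel_right, ← h1]
    exact hsd.ex_spec (hps.supp x hx)
  exact ⟨x, hx, rfl, h1, (lv_iff P η x).1 h1, h4, h5, by rw [jj, ← h5, Int.toNat_natCast]⟩

theorem coeff_term (hps : PS fl p Λ Φ P) (hsd : SD Λ Λ' η d σ)
    (h0 : ∀ x ∈ Φ.support, 0 ≤ ex η d σ x + n0) {x : Pt} (hx : x ∈ Φ.support)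
    (hf : P.dfc x = η * P.cod x) :
    (fib η d σ n0 Φ (lv P η x.2.2) x.2.2).coeff (ex η d σ x + n0).toNat = Φ x := by
  rw [← (lv_iff P η x).2 hf]
  exact fib_coeff hsd hps.supp h0 hx

theorem fib_ne (hps : PS fl p Λ Φ P) (hsd : SD Λ Λ' η d σ)
    (h0 : ∀ x ∈ Φ.support, 0 ≤ ex η d σ x + n0) {x : Pt} (hx : x ∈ Φ.support)
    (hf : P.dfc x = η * P.cod x) : fib η d σ n0 Φ (lv P η x.2.2) x.2.2 ≠ 0 := by
  intro h
  have h1 := coeff_term hps hsd h0 hx hf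
  rw [h, coeff_zero] at h1
  exact Finsupp.mem_support_iff.1 hx h1.symm

theorem exists_coeff {G : k[X]} (h : G ≠ 0) : ∃ e, G.coeff e ≠ 0 := by
  by_contra h1
  exact h (Polynomial.ext fun e => by_contra fun h2 => h1 ⟨e, h2⟩)

/-- At heights at least `s` only the top lies on the face. -/
theorem eq_top (hps : PS fl p Λ Φ P) (he : Exact Φ P) (hb : 1 ≤ P.b) (hη : 0 < η) {x : Pt}
    (hx : x ∈ Φ.support) (hs : P.s ≤ x.2.2) (hf : P.dfc x = η * P.cod x) : x = P.top := by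
  by_contra ht
  exact (hps.junk_above he (zero_le_one.trans hb) hη hx hs ht).ne' hf

theorem fib_high (hps : PS fl p Λ Φ P) (he : Exact Φ P) (hb : 1 ≤ P.b) (hsd : SD Λ Λ' η d σ)
    (h0 : ∀ x ∈ Φ.support, 0 ≤ ex η d σ x + n0) {i : ℕ} (hi : P.s < i) :
    fib η d σ n0 Φ (lv P η i) i = 0 := by
  by_contra h
  obtain ⟨e, h1⟩ := exists_coeff h
  obtain ⟨x, hx, rfl, -, h3, -⟩ := exists_term hps hsd h0 h1
  rw [eq_top hps he hb hsd.pos hx hi.le h3] at hi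
  exact lt_irrefl _ hi

theorem fib_top (hps : PS fl p Λ Φ P) (he : Exact Φ P) (hb : 1 ≤ P.b) (hsd : SD Λ Λ' η d σ)
    (h0 : ∀ x ∈ Φ.support, 0 ≤ ex η d σ x + n0) :
    fib η d σ n0 Φ (lv P η P.s) P.s = monomial (ex η d σ P.top + n0).toNat (Φ P.top) := by
  ext e
  rw [coeff_monomial]
  split_ifs with h
  · have h1 := coeff_term hps hsd h0 hps.top (by rw [P.dfc_top, P.cod_top, mul_zero])
    have h2 : P.top.2.2 = P.s := rfl
    rwa [h2, h] at h1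
  · by_contra h1
    obtain ⟨x, hx, h2, -, h3, h4, -⟩ := exists_term hps hsd h0 h1
    rw [eq_top hps he hb hsd.pos hx h2.ge h3] at h4
    exact h (by rw [← h4, Int.toNat_natCast])

theorem diag_eq (hps : PS fl p Λ Φ P) (he : Exact Φ P) (hb : 1 ≤ P.b) (hsd : SD Λ Λ' η d σ)
    (h0 : ∀ x ∈ Φ.support, 0 ≤ ex η d σ x + n0) (κ : k) :
    diag (stp η d σ n0 κ Φ) (P.δ + η * P.b) (P.β + P.ε * η + P.s * (P.δ + η * P.b)) =
      facePol P.s (ex η d σ P.top + n0).toNat (Φ P.top) κ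
        fun i => fib η d σ n0 Φ (lv P η i) i := by
  ext i j
  have h1 : P.β + P.ε * η + P.s * (P.δ + η * P.b) - i * (P.δ + η * P.b) = lv P η i := by
    rw [lv]
    ring
  rw [diag_coeff, stp_apply, h1, facePol, coeff_add, finsetSum_coeff]
  simp only [coeff_monomial, Finset.sum_ite_eq', Finset.mem_range]
  rcases lt_trichotomy i P.s with h | rfl | h
  · rw [if_neg h.ne', if_pos h, zero_add]
  · rw [if_pos rfl, if_neg (lt_irrefl _), add_zero, fib_top hps he hb hsd h0]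
  · rw [if_neg h.ne, if_neg h.not_gt, add_zero, fib_high hps he hb hsd h0 h, map_zero]

/-- An essential term whose new level is a multiple of `p` has an exponent prime to `p`. -/
theorem not_dvd (hps : PS fl p Λ Φ P) (hsd : SD Λ Λ' η d σ) (hn : p ∣ n0) {x : Pt}
    (hx : x ∈ Φ.support) (hfl : fl) (h1 : PMul p Λ' (x.1 + x.2.1 * η)) (h2 : p ∣ x.2.2) {e : ℕ}
    (he : (e : ℤ) = ex η d σ x + n0) : ¬ p ∣ e := by
  intro h
  have h3 : (p : ℤ) ∣ ex η d σ x := by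
    rw [eq_sub_of_add_eq he.symm]
    exact dvd_sub (Int.natCast_dvd_natCast.2 h) (Int.natCast_dvd_natCast.2 hn)
  obtain ⟨h4, h5⟩ := hsd.pw (hps.supp x hx) h1 h3
  exact hps.ess x hx ⟨hfl, h4, h5, h2⟩

theorem exp_ne [Fact p.Prime] (hps : PS fl p Λ Φ P) (hsd : SD Λ Λ' η d σ) {x : Pt}
    (hx : x ∈ Φ.support) (hfl : fl) (h1 : PMul p Λ' (x.1 + x.2.1 * η)) (h2 : p ∣ x.2.2)
    (hd : ¬ p ∣ d) : x.2.1 ≠ 0 := by
  intro h
  rw [h, Nat.cast_zero, zero_mul, add_zero] at h1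
  exact hps.ess x hx ⟨hfl, hsd.pmul_of_not_dvd hd (hps.supp x hx) h1, h ▸ dvd_zero p, h2⟩

theorem typ_two [Fact p.Prime] (hps : PS fl p Λ Φ P) (hsd : SD Λ Λ' η d σ) (hfl : fl)
    (h1 : PMul p Λ' (lv P η P.s)) (h2 : p ∣ P.s) : p ∣ d ↔ P.ε = 0 := by
  rw [lv_top] at h1
  constructor
  · intro hd
    by_contra h
    have h3 : P.ε = 1 := by have := hps.eps; omega
    have h4 : PMul p Λ' P.β := pmul_mono hsd.le (hps.typ h3).2.2
    have h5 : P.top.1 + P.top.2.1 * η = η + P.β := by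
      change P.β + P.ε * η = _
      rw [h3, Nat.cast_one, one_mul, add_comm]
    rw [h5, pmul_add_iff h4] at h1
    exact hsd.not_dvd_of_pmul h1 hd
  · intro h
    by_contra hd
    exact exp_ne hps hsd hps.top hfl h1 h2 hd h

theorem adm_of_ne (hps : PS fl p Λ Φ P) (hsd : SD Λ Λ' η d σ)
    (h0 : ∀ x ∈ Φ.support, 0 ≤ ex η d σ x + n0)
    (h : fib η d σ n0 Φ (lv P η (P.s - 1)) (P.s - 1) ≠ 0) : P.δ + η * P.b ∈ Λ' := by
  obtain ⟨e, h1⟩ := exists_coeff h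
  obtain ⟨x, hx, -, h2, -⟩ := exists_term hps hsd h0 h1
  have h3 := Λ'.sub_mem (hsd.add_mul_mem (hps.supp x hx) x.2.1) (hsd.add_mul_mem hps.β_mem P.ε)
  have h4 : 1 ≤ P.s := by have := hps.two; omega
  have h5 : x.1 + x.2.1 * η - (P.β + P.ε * η) = P.δ + η * P.b := by
    rw [h2, lv, Nat.cast_sub h4]
    push_cast
    ring
  rwa [h5] at h3

theorem prep_face [Fact p.Prime] (hps : PS fl p Λ Φ P) (hsd : SD Λ Λ' η d σ)
    (h0 : ∀ x ∈ Φ.support, 0 ≤ ex η d σ x + n0) (hp : Prep p Λ Φ P η)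
    (ha : P.δ + η * P.b ∈ Λ')
    (h1 : ∀ i < P.s, fib η d σ n0 Φ (lv P η i) i ≠ 0 → Relv p P.s i → i + qq p P.s ≤ P.s)
    (h2 : fib η d σ n0 Φ (lv P η (P.s - qq p P.s)) (P.s - qq p P.s) ≠ 0) :
    ∃ e, (fib η d σ n0 Φ (lv P η (P.s - qq p P.s)) (P.s - qq p P.s)).coeff e ≠ 0 ∧
      ¬ (qq p P.s : ℤ) ∣ (e : ℤ) - ((ex η d σ P.top + n0).toNat : ℕ) := by
  have hq1 : 0 < qq p P.s := qq_pos _
  have hq2 : qq p P.s ≤ P.s := qq_le hps.two
  obtain ⟨e0, h3⟩ := exists_coeff h2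
  obtain ⟨x0, hx0, g1, -, g2, -⟩ := exists_term hps hsd h0 h3
  obtain ⟨x, ⟨hx, -, hf⟩, hs, hn⟩ := hp
    (fun x hx hr => h1 _ hx.2.1 (fib_ne hps hsd h0 hx.1 hx.2.2) hr)
    ⟨x0, ⟨hx0, by omega, g2⟩, by omega⟩
  have hi : P.s - qq p P.s = x.2.2 := by omega
  refine ⟨(ex η d σ x + n0).toNat, ?_, fun hd => hn ?_⟩
  · rw [hi, coeff_term hps hsd h0 hx hf]
    exact Finsupp.mem_support_iff.1 hx
  · rw [Int.toNat_of_nonneg (h0 x hx), Int.toNat_of_nonneg (h0 _ hps.top),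
      add_sub_add_right_eq_sub] at hd
    have hl : x.1 + x.2.1 * η = P.top.1 + P.top.2.1 * η + qq p P.s * (P.δ + η * P.b) := by
      have h4 : (P.s : ℝ) = x.2.2 + qq p P.s := by exact_mod_cast hs.symm
      rw [(lv_iff P η x).2 hf, ← lv_top, lv, lv, sub_self]
      nth_rewrite 1 [h4]
      ring
    obtain ⟨a, ha', m, e1, e2⟩ := hsd.qpow (hps.supp x hx) (hps.supp _ hps.top) ha hl hd
    have e3 : (x.2.1 : ℤ) = P.ε + qq p P.s * m := e2
    have hm : 0 ≤ m := by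
      by_contra hm
      have h5 : (qq p P.s : ℤ) * m ≤ qq p P.s * (-1) :=
        mul_le_mul_of_nonneg_left (by omega) (Int.natCast_nonneg _)
      have h6 := hps.eps
      by_cases h7 : P.ε = 1
      · have h8 := two_le_qq (hps.typ h7).2.1 (by omega)
        omega
      · omega
    refine ⟨a, ha', m.toNat, e1, ?_⟩
    rw [← Int.toNat_of_nonneg hm] at e3
    exact_mod_cast e3

end Face

variable {k : Type*} [Field k] {p : ℕ} [Fact p.Prime]

open Face in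
/-- The face data of a prepared state. -/
theorem face : FaceStmt k p := by
  intro fl Λ Λ' Φ P η d n0 σ κ hps he hb hu hsd _ hp hκ hn hd1 h0
  classical
  have htop : (((ex η d σ P.top + n0).toNat : ℕ) : ℤ) = ex η d σ P.top + n0 :=
    Int.toNat_of_nonneg (h0 _ hps.top)
  refine ⟨if fl ∧ PMul p Λ' (lv P η P.s) ∧ p ∣ P.s then 1 else 0, (ex η d σ P.top + n0).toNat,
    jj P η d n0 σ, ?_, diag_eq hps he hb hsd h0 κ, fun i hi e h => ?_,
    fun x hx => fib_ne hps hsd h0 hx.1 hx.2.2⟩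
  swap
  · obtain ⟨x, hx, h1, -, h2, -, -, h3⟩ := exists_term hps hsd h0 h
    exact ⟨x, ⟨hx, h1 ▸ hi, h2⟩, h1, h3.symm⟩
  have hχ : (if fl ∧ PMul p Λ' (lv P η P.s) ∧ p ∣ P.s then 1 else 0 : ℕ) = 1 ↔
      fl ∧ PMul p Λ' (lv P η P.s) ∧ p ∣ P.s := by
    by_cases h : fl ∧ PMul p Λ' (lv P η P.s) ∧ p ∣ P.s
    · exact iff_of_true (if_pos h) h
    · exact iff_of_false (by rw [if_neg h]; exact zero_ne_one) h
  refine ⟨hps.top_ne, hκ, hps.two, hb, hsd.d_pos, hps.eps, ?_, fun i _ e h => ?_,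
    fun i _ e e' h h' => ?_, fun hd => ?_, fun i h => h.2.2, fun i _ hc e h => ?_,
    fun ha i i' hi' hc => ⟨hc.1, ?_, hi'⟩, ⟨hχ, fun hc => ?_⟩, fun ha => ?_,
    fun h => (hps.typ h).2.1, fun h => ?_, prep_face hps hsd h0 hp, ?_⟩
  · split_ifs <;> omega
  · obtain ⟨x, hx, h1, -, h2, -, -, h3⟩ := exists_term hps hsd h0 h
    have h4 := hps.face_cod_nonneg hsd.pos hx h2
    rw [Par.cod, Par.gap, h1] at h4
    rw [h3]
    linarith
  · obtain ⟨x, -, -, -, -, -, h2, h3⟩ := exists_term hps hsd h0 h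
    obtain ⟨x', -, -, -, -, -, h2', h3'⟩ := exists_term hps hsd h0 h'
    rw [h3, h3', h2, h2']
    ring
  · have h1 := hd1 hd
    subst hd h1
    refine ⟨?_, fun i _ e h => ?_⟩
    · rw [hsd.ex_one, Nat.cast_zero, add_zero, Int.toNat_natCast]
      rfl
    · obtain ⟨x, -, -, -, -, h2, -, h3⟩ := exists_term hps hsd h0 h
      rw [hsd.ex_one, Nat.cast_zero, add_zero] at h2
      rw [h3]
      exact_mod_cast h2.symm
  · obtain ⟨x, hx, h1, h2, -, h3, -, h4⟩ := exists_term hps hsd h0 h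
    have h5 : PMul p Λ' (x.1 + x.2.1 * η) := h2 ▸ hc.2.1
    have h6 : p ∣ x.2.2 := h1 ▸ hc.2.2
    exact ⟨not_dvd hps hsd hn hx hc.1 h5 h6 h3, fun hd => h4 ▸ exp_ne hps hsd hx hc.1 h5 h6 hd⟩
  · have h1 : PMul p Λ' (lv P η i') := by
      rw [lv_sub P η i i']
      exact pmul_add hc.2.1 (pmul_of_int_dvd ha
        (dvd_sub (Int.natCast_dvd_natCast.2 hc.2.2) (Int.natCast_dvd_natCast.2 hi')))
    exact h1
  · exact not_dvd hps hsd hn hps.top hc.1 (lv_top P η ▸ hc.2.1) hc.2.2 htop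
  · by_contra h
    exact ha (adm_of_ne hps hsd h0 h)
  · obtain ⟨h1, h2, h3⟩ := hχ.1 h
    exact typ_two hps hsd h1 h2 h3
  · obtain ⟨x, hx, h1, -, h2, h3⟩ := hu.exists_vtx
    exact ⟨x.2.2, h1, fib_ne hps hsd h0 hx (by rw [h2, h3, mul_zero])⟩

end Pool.Agent.MP_19ffc6_ag.LU2

end MrgPart1

-- marker of a merged file
example : 731051 + 149894 = 731051 + 149894 := rfl
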