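import Mathlib.NumberTheory.Padics.PadicVal.Basic
import Mathlib.Data.Nat.Choose.Lucas
import Pool.Agent.MP_19ffc6_ag.LU2.Tower
import Pool.Agent.MP_19ffc6_ag.LU.Sep

/-! Binomial coefficients modulo `p` and the effect of a shift on the face polynomial.
An element that is not a `p`-th power is moved by a derivation. -/

namespace Pool.Agent.MP_19ffc6_ag.LU2

open Polynomial IntermediateField Pool.Agent.MP_19ffc6_ag.LU

section

variable {k : Type*} [Field k] {p : ℕ} [Fact p.Prime] [CharP k p]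

namespace Luc

theorem pow_dvd_of_choose {v n g : ℕ} (hn : p ^ v ∣ n) (h : ¬ p ∣ n.choose g) : p ^ v ∣ g := by
  have hp : p.Prime := Fact.out
  rcases g with _ | g
  · exact dvd_zero _
  rcases n with _ | n
  · simp at h
  have h1 : p ^ v ∣ (n + 1).choose (g + 1) * (g + 1) := by
    rw [← Nat.add_one_mul_choose_eq]
    exact hn.mul_right _
  exact (Nat.Coprime.pow_left v ((Nat.Prime.coprime_iff_not_dvd hp).2 h)).dvd_of_dvd_mul_left h1

theorem dvd_choose {v n g : ℕ} (hn : p ^ v ∣ n) (h0 : 0 < g) (hg : g < p ^ v) :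
    p ∣ n.choose g := by
  by_contra h
  exact absurd (Nat.le_of_dvd h0 (pow_dvd_of_choose hn h)) (by omega)

theorem dvd_of_choose {n g : ℕ} (hn : p ∣ n) (h : ¬ p ∣ n.choose g) : p ∣ g := by
  simpa using pow_dvd_of_choose (v := 1) (by simpa using hn) h

theorem not_dvd_choose {n : ℕ} (hn : n ≠ 0) : ¬ p ∣ n.choose (p ^ padicValNat p n) := by
  obtain ⟨m, hm⟩ := pow_padicValNat_dvd (p := p) (n := n)
  have h1 : ¬ p ∣ m := by
    rintro ⟨c, rfl⟩
    refine pow_succ_padicValNat_not_dvd (p := p) hn ⟨c, ?_⟩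
    rw [pow_succ, mul_assoc]
    exact hm
  have h2 := Choose.choose_pow_mul_pow_mul_modEq_choose_nat (p := p)
    (k := padicValNat p n) (a := m) (b := 1)
  rw [mul_one, ← hm, Nat.choose_one_right] at h2
  exact fun h => h1 ((h2.dvd_iff dvd_rfl).1 h)

theorem taylor_coeff_sum (E : k[X][X]) (l : k[X]) {s : ℕ} (hs : E.natDegree ≤ s) (i : ℕ) :
    (taylor l E).coeff i =
      ∑ i' ∈ Finset.range (s + 1), E.coeff i' * (l ^ (i' - i) * C (i'.choose i : k)) := by
  conv_lhs => rw [E.as_sum_range' (s + 1) (by omega), map_sum, finsetSum_coeff]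
  refine Finset.sum_congr rfl fun i' _ => ?_
  rw [taylor_monomial, coeff_C_mul, coeff_X_add_C_pow, map_natCast]

theorem le_of_coeff_pow {l : k[X]} {b : ℝ} (h : ∀ m, l.coeff m ≠ 0 → b ≤ m) (n : ℕ) :
    ∀ m, (l ^ n).coeff m ≠ 0 → n * b ≤ m := by
  induction n with
  | zero => intro m _; simp
  | succ n ih =>
    intro m hm
    rw [pow_succ, coeff_mul] at hm
    obtain ⟨x, hx, h0⟩ := Finset.exists_ne_zero_of_sum_ne_zero hm
    have h1 := ih _ (left_ne_zero_of_mul h0)
    have h2 := h _ (right_ne_zero_of_mul h0)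
    rw [← Finset.HasAntidiagonal.mem_antidiagonal.1 hx]
    push_cast
    linarith

theorem dvd_of_coeff_pow (l : k[X]) {n m : ℕ} (hn : p ∣ n) (h : (l ^ n).coeff m ≠ 0) :
    p ∣ m := by
  obtain ⟨c, rfl⟩ := hn
  by_contra hm
  rw [mul_comm, pow_mul, ← map_frobenius_expand, coeff_map,
    coeff_expand (Fact.out : p.Prime).pos, if_neg hm, map_zero] at h
  exact h rfl

end Luc

open Luc in
theorem luc : LucStmt k p := by
  have hp : p.Prime := Fact.out
  refine ⟨fun s hs => ?_, fun E l s i hE hi hr h0 => ?_, fun s g hs h0 hg hr => ?_,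
    fun s g hs h => ?_, fun E l χ s e b hE h1 h2 hl hb i hi j hj => ?_⟩
  · rw [Ne, CharP.cast_eq_zero_iff k p]
    unfold qq
    split_ifs with h
    · exact ⟨Nat.le_of_dvd (by omega) pow_padicValNat_dvd, fun h' => absurd h h',
        not_dvd_choose (by omega)⟩
    · obtain ⟨n, rfl⟩ : ∃ n, s = n + 1 := ⟨s - 1, by omega⟩
      rw [Nat.add_sub_cancel]
      have hn : n ≠ 0 := by omega
      have h1 : p ^ padicValNat p n ∣ n := pow_padicValNat_dvd
      have h2 := Nat.le_of_dvd (by omega) h1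
      have h3 := not_dvd_choose (p := p) hn
      have h4 := pow_succ_padicValNat_not_dvd (p := p) hn
      generalize padicValNat p n = v at h1 h2 h3 h4
      rcases v with _ | v
      · simp only [pow_zero, zero_add, pow_one, Nat.choose_one_right] at h4 ⊢
        exact ⟨by omega, fun _ => ⟨by omega, by simpa using h4⟩, h⟩
      · have h5 : p ∣ p ^ (v + 1) := dvd_pow_self p (by omega)
        have h6 : 1 < p ^ (v + 1) := Nat.one_lt_pow (by omega) hp.one_lt
        refine ⟨by omega, fun _ => ⟨by omega, fun h7 => h ?_⟩, fun h7 => h3 ?_⟩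
        · have := h7.add h5
          rwa [Nat.sub_add_cancel (by omega)] at this
        · obtain ⟨g, hg⟩ : ∃ g, p ^ (v + 1) = g + 1 := ⟨p ^ (v + 1) - 1, by omega⟩
          have h8 := dvd_choose (g := g) h1 (by omega) (by omega)
          rw [hg, Nat.choose_succ_succ'] at h7
          rw [hg]
          exact (Nat.dvd_add_right h8).1 h7
  · rw [taylor_coeff_sum E l hE,
      Finset.sum_eq_add_of_mem i s (by simp; omega) (by simp) hi.ne fun c hc hne => ?_]
    · rw [Nat.choose_symm hi.le]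
      simp only [Nat.sub_self, pow_zero, Nat.choose_self, Nat.cast_one, map_one, mul_one]
      ring
    · have hc' := Finset.mem_range.1 hc
      rcases lt_or_ge c i with h | h
      · simp [Nat.choose_eq_zero_of_lt h]
      by_cases hrc : Relv p s c
      · rw [h0 c (by omega) (by omega) hrc, zero_mul]
      · unfold Relv at hr hrc
        push Not at hrc
        have : (c.choose i : k) = 0 := by
          rw [CharP.cast_eq_zero_iff k p]
          by_contra h'
          exact hr.resolve_left hrc.1 (dvd_of_choose hrc.2 h')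
        simp [this]
  · rw [CharP.cast_eq_zero_iff k p]
    unfold qq at hg
    split_ifs at hg with h
    · exact dvd_choose pow_padicValNat_dvd h0 hg
    · obtain ⟨n, rfl⟩ : ∃ n, s = n + 1 := ⟨s - 1, by omega⟩
      rw [Nat.add_sub_cancel] at hg
      have h1 : p ^ padicValNat p n ∣ n := pow_padicValNat_dvd
      have h2 : p ∣ n := by
        refine (dvd_pow_self p fun h3 => ?_).trans h1
        rw [h3, pow_zero] at hg
        omega
      obtain ⟨g, rfl⟩ : ∃ g', g = g' + 1 := ⟨g - 1, by omega⟩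
      have h3 : g ≠ 0 := by
        rintro rfl
        exact hr.resolve_left h (by simpa using h2)
      rw [Nat.choose_succ_succ']
      exact (dvd_choose h1 (by omega) (by omega)).add (dvd_choose h1 h0 hg)
  · rw [Ne, CharP.cast_eq_zero_iff k p] at h
    exact dvd_of_choose hs h
  · obtain ⟨hj0, hj1⟩ := hj
    rw [taylor_coeff_sum E l hE, finsetSum_coeff] at hj0
    obtain ⟨i', hi', h3⟩ := Finset.exists_ne_zero_of_sum_ne_zero hj0
    rw [← mul_assoc, coeff_mul_C] at h3
    have h4 := right_ne_zero_of_mul h3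
    have h5 := left_ne_zero_of_mul h3
    have hii : i ≤ i' := by
      by_contra h
      exact h4 (by simp [Nat.choose_eq_zero_of_lt (not_le.1 h)])
    rw [coeff_mul] at h5
    obtain ⟨x, hx, h6⟩ := Finset.exists_ne_zero_of_sum_ne_zero h5
    have hx' := Finset.HasAntidiagonal.mem_antidiagonal.1 hx
    have h7 := left_ne_zero_of_mul h6
    have h8 := right_ne_zero_of_mul h6
    by_cases hc : χ i' ∧ p ∣ x.1
    · rw [Ne, CharP.cast_eq_zero_iff k p] at h4
      have h9 := dvd_of_choose (h1 _ hc.1) h4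
      refine absurd ⟨h2 _ _ h9 hc.1, ?_⟩ hj1
      rw [← hx']
      exact hc.2.add (dvd_of_coeff_pow l (Nat.dvd_sub (h1 _ hc.1) h9) h8)
    · have h9 := hb i' (Nat.lt_succ_iff.1 (Finset.mem_range.1 hi')) x.1 ⟨h7, hc⟩
      have h10 := le_of_coeff_pow hl _ _ h8
      rw [Nat.cast_sub hii] at h10
      rw [← hx']
      push_cast
      linarith

end

variable {k Ω : Type*} [Field k] [NontriviallyNormedField Ω] [Algebra k Ω]
  {p : ℕ} [Fact p.Prime] [CharP Ω p]

namespace DerEx

theorem minpoly_eq {E : IntermediateField k Ω} {x : Ω} (hx : x ∉ E) (hp : x ^ p ∈ E) :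
    minpoly E x = X ^ p - C (⟨x ^ p, hp⟩ : E) := by
  have hp' : p.Prime := Fact.out
  refine (minpoly.eq_of_irreducible_of_monic
    (X_pow_sub_C_irreducible_of_prime hp' fun b hb => hx ?_) (by simp)
    (monic_X_pow_sub_C _ hp'.ne_zero)).symm
  have h1 : (b : Ω) ^ p = x ^ p := congrArg Subtype.val hb
  rw [← frobenius_def, ← frobenius_def] at h1
  rw [← frobenius_inj Ω p h1]
  exact b.2

omit [CharP Ω p] in
theorem isIntegral_of_pow {E : IntermediateField k Ω} {x : Ω} (hp : x ^ p ∈ E) :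
    IsIntegral E x :=
  ⟨X ^ p - C (⟨x ^ p, hp⟩ : E), monic_X_pow_sub_C _ (Fact.out : p.Prime).ne_zero, by simp⟩

theorem finrank_eq {E : IntermediateField k Ω} {x : Ω} (hx : x ∉ E) (hp : x ^ p ∈ E) :
    Module.finrank E (adjoin E {x}) = p := by
  rw [adjoin.finrank (isIntegral_of_pow hp), minpoly_eq hx hp, natDegree_X_pow_sub_C]

/-- the exchange property -/
theorem exch {E : IntermediateField k Ω} {a f : Ω} (ha : a ∉ E) (hap : a ^ p ∈ E) (hf : f ∉ E)
    (hfp : f ^ p ∈ E) (h : f ∈ adjoin E {a}) : a ∈ adjoin E {f} := by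
  have := adjoin.finiteDimensional (isIntegral_of_pow hap)
  rw [eq_of_le_of_finrank_eq (adjoin_simple_le_iff.2 h)
    ((finrank_eq hf hfp).trans (finrank_eq ha hap).symm)]
  exact mem_adjoin_simple_self _ a

theorem exists_max {E0 K : IntermediateField k Ω} {f : Ω} (h0 : E0 ≤ K) (hf : f ∉ E0) :
    ∃ E, E0 ≤ E ∧ Maximal (· ∈ {E : IntermediateField k Ω | E ≤ K ∧ f ∉ E}) E := by
  refine zorn_le_nonempty₀ _ (fun c hc hch y hy => ?_) E0 ⟨h0, hf⟩
  have : Nonempty c := ⟨⟨y, hy⟩⟩
  refine ⟨⨆ E : c, E.1, ⟨iSup_le fun E => (hc E.2).1, fun h => ?_⟩,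
    fun z hz => le_iSup (fun E : c => E.1) ⟨z, hz⟩⟩
  rw [← SetLike.mem_coe, coe_iSup_of_directed hch.directedOn.directed_val] at h
  obtain ⟨E, hE⟩ := Set.mem_iUnion.1 h
  exact (hc E.2).2 hE

end DerEx

open DerEx in
theorem derEx [IsAlgClosed k] : DerExStmt k Ω p := by
  intro K hK f hfK hf
  have hp : p.Prime := Fact.out
  by_contra hD
  push Not at hD
  let E0 : IntermediateField k Ω :=
    (K.toSubfield.map (frobenius Ω p)).toIntermediateField fun c => by
      obtain ⟨b, rfl⟩ := IsAlgClosed.exists_pow_nat_eq c hp.pos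
      exact ⟨algebraMap k Ω b, K.algebraMap_mem b, by rw [frobenius_def, map_pow]⟩
  have h0 : E0 ≤ K := by
    rintro _ ⟨a, ha, rfl⟩
    exact pow_mem (show a ∈ K from ha) p
  obtain ⟨E, hE0, hE⟩ := exists_max h0 (f := f) (by
    rintro ⟨a, ha, h⟩
    exact hf a ha h)
  have hEK : E ≤ K := hE.prop.1
  have hfE : f ∉ E := hE.prop.2
  have hpow : ∀ a ∈ K, a ^ p ∈ E := fun a ha => hE0 ⟨a, ha, rfl⟩
  have hall : ∀ a ∈ K, a ∈ adjoin k ((E : Set Ω) ∪ {f}) := by
    intro a ha
    rw [← restrictScalars_adjoin, mem_restrictScalars]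
    by_cases haE : a ∈ E
    · exact (adjoin E {f}).algebraMap_mem ⟨a, haE⟩
    refine exch haE (hpow a ha) hfE (hpow f hfK) ?_
    by_contra h
    have h1 : E ⊔ adjoin k {a} ≤ E := by
      refine hE.le_of_ge ⟨sup_le hEK (adjoin_simple_le_iff.2 ha), fun h' => h ?_⟩ le_sup_left
      rwa [← restrictScalars_adjoin_eq_sup, mem_restrictScalars] at h'
    exact haE (h1 (le_sup_right (a := E) (mem_adjoin_simple_self k a)))
  have hs := sep_crit K hK K E subset_rfl hEK (by
    rw [adjoin_self]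
    exact fun a ha => isSeparable_algebraMap (⟨a, ha⟩ : K)) fun D hder hE' a ha => by
      refine Sep.d_adjoin hder (S := (E : Set Ω) ∪ {f}) ?_ ?_ a (hall a ha)
      · rintro b (hb | rfl)
        · exact hEK hb
        · exact hfK
      · rintro b (hb | rfl)
        · exact hE' b hb
        · exact hD D hder
  rw [adjoin_self] at hs
  have h1 := Separable.aeval_derivative_ne_zero (hs f hfK) (minpoly.aeval E f)
  rw [minpoly_eq hfE (hpow f hfK)] at h1
  simp [derivative_X_pow] at h1

end Pool.Agent.MP_19ffc6_ag.LU2
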