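import Pool.Agent.MP_19ffc6_ag.LU2.Solve
import Pool.Agent.MP_19ffc6_ag.LU.Sep

-- ======== part 0: formerly Pool.Agent.MP_19ffc6_ag.LU2.Mon2
section MrgPart0

/-! PROJECT LU2, module LINMON: the terminal states of monomialization (`lin`) and
monomialization itself (`mon2`). -/

namespace Pool.Agent.MP_19ffc6_ag.LU2

open Polynomial IntermediateField Pool.Agent.MP_19ffc6_ag.LU

variable {k Ω : Type*} [Field k] [NontriviallyNormedField Ω] [IsUltrametricDist Ω] [Algebra k Ω]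
  [IsAlgClosed k] [IsAlgClosed Ω] [Ctx k Ω] {p : ℕ} [Fact p.Prime] [CharP k p] [CharP Ω p]

namespace Lin

variable (k) in
/-- The ring generated by the integral monomials and `y`. -/
abbrev R1 (s : St Ω) : Subalgebra k Ω :=
  Algebra.adjoin k (s.mon '' {α | α ∈ s.Λ ∧ 0 ≤ α} ∪ {s.y})

omit [IsUltrametricDist Ω] [IsAlgClosed k] [IsAlgClosed Ω] [Ctx k Ω] in
theorem R1_le (s : St Ω) : R1 k s ≤ s.R0 k := s.stage_R0_le k

omit [IsUltrametricDist Ω] [IsAlgClosed k] [IsAlgClosed Ω] [Ctx k Ω] in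
theorem mon_mem_R1 (s : St Ω) {α : ℝ} (h : α ∈ s.Λ) (h0 : 0 ≤ α) : s.mon α ∈ R1 k s :=
  Algebra.subset_adjoin (Or.inl ⟨α, ⟨h, h0⟩, rfl⟩)

omit [IsUltrametricDist Ω] [IsAlgClosed k] [IsAlgClosed Ω] [Ctx k Ω] in
/-- Division with remainder by `z - w`. -/
theorem divide (s : St Ω) {w : Ω} (hw : w ∈ R1 k s) {r : Ω} (hr : r ∈ s.R0 k) :
    ∃ r0 ∈ R1 k s, ∃ r1 ∈ s.R0 k, r = r0 + (s.z - w) * r1 := by
  have hzw : s.z - w ∈ s.R0 k := sub_mem (s.z_mem_R0 k) (R1_le s hw)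
  induction hr using Algebra.adjoin_induction with
  | mem x hx =>
    rcases hx with ⟨α, hα, rfl⟩ | rfl | rfl
    · exact ⟨_, mon_mem_R1 s hα.1 hα.2, 0, zero_mem _, by ring⟩
    · exact ⟨_, Algebra.subset_adjoin (Or.inr rfl), 0, zero_mem _, by ring⟩
    · exact ⟨w, hw, 1, one_mem _, by ring⟩
  | algebraMap c => exact ⟨_, Subalgebra.algebraMap_mem _ c, 0, zero_mem _, by ring⟩
  | add x y _ _ hx hy =>
    obtain ⟨a0, h0, a1, h1, e⟩ := hx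
    obtain ⟨b0, h0', b1, h1', e'⟩ := hy
    exact ⟨a0 + b0, add_mem h0 h0', a1 + b1, add_mem h1 h1', by rw [e, e']; ring⟩
  | mul x y _ hy' hx hy =>
    obtain ⟨a0, h0, a1, h1, e⟩ := hx
    obtain ⟨b0, h0', b1, h1', e'⟩ := hy
    refine ⟨a0 * b0, mul_mem h0 h0', a1 * y + a0 * b1,
      add_mem (mul_mem h1 hy') (mul_mem (R1_le s h0) h1'), ?_⟩
    linear_combination y * e + a0 * e'

omit [IsAlgClosed k] [IsAlgClosed Ω] in
/-- Newton iteration for the root of `z + mon μ * a`. -/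
theorem newton (s : St Ω) {μ : ℝ} (hμ : μ ∈ s.Λ) (h0 : 0 < μ) {a : Ω} (ha : a ∈ s.R0 k) (n : ℕ) :
    ∃ w ∈ R1 k s, ‖s.z - w‖ < 1 ∧ ∃ Q ∈ s.R0 k, ∃ r ∈ s.R0 k,
      s.z + s.mon μ * a = (s.z - w) * (1 + s.mon μ * Q) + s.mon μ ^ (n + 1) * r := by
  have hm := mon_mem_R1 (k := k) s hμ h0.le
  induction n with
  | zero => exact ⟨0, zero_mem _, by simpa using s.norm_z, 0, zero_mem _, a, ha, by ring⟩
  | succ n ih =>
    obtain ⟨w, hw, h1, Q, hQ, r, hr, e⟩ := ih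
    obtain ⟨r0, hr0, r1, hr1, e'⟩ := divide s hw hr
    have hQ1 : Q + s.mon μ ^ n * r1 ∈ s.R0 k :=
      add_mem hQ (mul_mem (pow_mem (R1_le s hm) n) hr1)
    refine ⟨w - s.mon μ ^ (n + 1) * r0, sub_mem hw (mul_mem (pow_mem hm _) hr0), ?_,
      Q + s.mon μ ^ n * r1, hQ1, -(r0 * (Q + s.mon μ ^ n * r1)),
      neg_mem (mul_mem (R1_le s hr0) hQ1), ?_⟩
    · rw [show s.z - (w - s.mon μ ^ (n + 1) * r0) = s.z - w + s.mon μ ^ (n + 1) * r0 by ring]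
      refine norm_add_lt_of h1 ?_
      rw [norm_mul, norm_pow]
      exact (mul_le_of_le_one_right (by positivity)
        (s.norm_le_one_of_mem_R0 (R1_le s hr0))).trans_lt
          (pow_lt_one₀ (norm_nonneg _) (s.norm_mon_lt_one hμ h0) n.succ_ne_zero)
    · rw [e, e']
      ring

omit [IsAlgClosed k] [IsAlgClosed Ω] [Fact p.Prime] [CharP k p] [CharP Ω p] in
/-- An element `z + mon μ * h` becomes a monomial times a unit. -/
theorem lin_z (hr : RS k Ω p) (T : Set Ω) (s : St Ω) {μ : ℝ} (hμ : μ ∈ s.Λ) (h0 : 0 < μ) {h : Ω}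
    (hh : Apx k T s h) (hg : s.z + s.mon μ * h ≠ 0) :
    ∃ s', Nx k T s s' ∧ s'.Good k T (s.z + s.mon μ * h) := by
  obtain ⟨n, hn⟩ := exists_pow_lt_of_lt_one (norm_pos_iff.2 hg) (s.norm_mon_lt_one hμ h0)
  obtain ⟨a, ha, h', hh', e1⟩ := hh.2 _ (natCast_mul_mem hμ n)
  rw [s.mon_natCast_mul hμ] at e1
  obtain ⟨w, hw, h1, Q, hQ, r, hr', e2⟩ := newton s hμ h0 ha n
  have hU : 1 + s.mon μ * Q ∈ s.H k T :=
    add_mem (one_mem _) (mul_mem (s.mon_mem_H k T hμ h0.le) (s.R0_le_H k T hQ))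
  have nU : ‖1 + s.mon μ * Q‖ = 1 := s.norm_one_add hμ h0 (s.R0_le_H k T hQ)
  have hR : r + h' ∈ s.H k T := add_mem (s.R0_le_H k T hr') hh'
  have e3 : s.z + s.mon μ * h =
      (s.z - w) * (1 + s.mon μ * Q) + s.mon μ ^ (n + 1) * (r + h') := by
    rw [e1]
    linear_combination e2
  have n1 : ‖s.mon μ ^ (n + 1)‖ < ‖s.z + s.mon μ * h‖ := by
    rw [norm_pow, pow_succ]
    exact (mul_le_of_le_one_right (by positivity) (s.norm_mon_le_one hμ h0.le)).trans_lt hn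
  have n2 : ‖s.mon μ ^ (n + 1) * (r + h')‖ < ‖s.z + s.mon μ * h‖ := by
    rw [norm_mul]
    exact (mul_le_of_le_one_right (norm_nonneg _) (s.norm_le_one_of_mem_H hR)).trans_lt n1
  have n3 : ‖s.z - w‖ = ‖s.z + s.mon μ * h‖ := by
    have e4 := norm_sub_eq_left n2
    rw [sub_eq_iff_eq_add.2 e3, norm_mul, nU, mul_one] at e4
    exact e4
  have hzw : s.z - w ≠ 0 := norm_pos_iff.1 (n3 ▸ norm_pos_iff.2 hg)
  obtain ⟨s1, -, z1, -, -, x1⟩ := hr.transl T s w hw h1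
  obtain ⟨s2, -, -, y2, -, -, -, x2, -⟩ := hr.swap T s1
  obtain ⟨d, σ, κ, s3, u, -, -, -, x3, g3, -⟩ := hr.step T s2 (by rwa [y2, z1])
  rw [y2, z1] at g3
  have x := (x1.trans x2).trans x3
  have g4 : s3.Good k T (s.mon μ ^ (n + 1) / (s.z - w)) := ((x.mon μ hμ).pow _).div g3
  have n4 : ‖s.mon μ ^ (n + 1) / (s.z - w)‖ < 1 := by
    rw [norm_div, n3]
    exact (div_lt_one (norm_pos_iff.2 hg)).2 n1
  have n5 : ‖s.mon μ ^ (n + 1) / (s.z - w) * (r + h')‖ < ‖1 + s.mon μ * Q‖ := by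
    rw [norm_mul, nU]
    exact (mul_le_of_le_one_right (norm_nonneg _) (s.norm_le_one_of_mem_H hR)).trans_lt n4
  refine ⟨s3, x, ?_⟩
  have e5 : s.z + s.mon μ * h =
      (s.z - w) * (1 + s.mon μ * Q + s.mon μ ^ (n + 1) / (s.z - w) * (r + h')) := by
    rw [e3, mul_add (s.z - w) (1 + s.mon μ * Q), ← mul_assoc, mul_div_cancel₀ _ hzw]
  rw [e5]
  exact g3.mul (s3.good_unit (add_mem (x.H_le hU) (mul_mem (g4.mem_H n4.le) (x.H_le hR)))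
    (by rw [norm_add_eq_left n5, nU]))

omit [IsAlgClosed k] [IsAlgClosed Ω] [Fact p.Prime] [CharP k p] [CharP Ω p] in
/-- An element `y ^ j * z ^ i + mon μ * h` of degree at most one becomes a monomial times a
unit. -/
theorem lin_deg (hr : RS k Ω p) (T : Set Ω) (s : St Ω) {μ : ℝ} (hμ : μ ∈ s.Λ) (h0 : 0 < μ)
    {h : Ω} (hh : Apx k T s h) {j i : ℕ} (hji : j + i < 2)
    (hg : s.y ^ j * s.z ^ i + s.mon μ * h ≠ 0) :
    ∃ s', Nx k T s s' ∧ s'.Good k T (s.y ^ j * s.z ^ i + s.mon μ * h) := by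
  have hc : (j = 0 ∧ i = 0) ∨ (j = 0 ∧ i = 1) ∨ (j = 1 ∧ i = 0) := by omega
  rcases hc with ⟨rfl, rfl⟩ | ⟨rfl, rfl⟩ | ⟨rfl, rfl⟩
  · rw [pow_zero, pow_zero, one_mul]
    exact ⟨s, Nx.refl T s, s.good_unit
      (add_mem (one_mem _) (mul_mem (s.mon_mem_H k T hμ h0.le) hh.1)) (s.norm_one_add hμ h0 hh.1)⟩
  · rw [pow_zero, pow_one, one_mul] at hg ⊢
    exact lin_z hr T s hμ h0 hh hg
  · rw [pow_zero, pow_one, mul_one] at hg ⊢
    obtain ⟨s1, e1, e2, -, e3, e4, -, x1, -⟩ := hr.swap T s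
    rw [← e3, ← e2] at hg ⊢
    obtain ⟨s', x, g⟩ := lin_z hr T s1 (e1 ▸ hμ) h0 (hh.mono e1 e2 e4.ge) hg
    exact ⟨s', x1.trans x, g⟩

end Lin

omit [IsAlgClosed k] [IsAlgClosed Ω] [CharP k p] [CharP Ω p] in
theorem lin (hr : RS k Ω p) : LinStmt k Ω p := by
  intro cx hf ⟨s, B, j, i, ⟨_, _, t, ht, N, hN, hBN, h, hh, hrp⟩, hji⟩
  obtain ⟨x0, hs, c, hc, hc1, b, -, hb, e⟩ := hrp
  have hB : B ∈ s.Λ := hs (B, j, i) (by simpa using ht)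
  have hμ : N - B ∈ s.Λ := s.Λ.sub_mem hN hB
  have ht' : algebraMap k Ω t ≠ 0 := by simpa using ht
  have hc0 : c ^ p ≠ 0 := pow_ne_zero _ (ne_zero_of_norm_eq_one hc1)
  have hf0 : cx.f ≠ 0 := fun h0 => cx.Df (by rw [h0]; exact cx.der.zero)
  have hh' : Apx k cx.T s (algebraMap k Ω t⁻¹ * h) :=
    (Apx.of_mem (Subalgebra.algebraMap_mem _ _)).mul hh
  have e1 : s.mon N = s.mon B * s.mon (N - B) := by
    rw [← s.mon_add _ hB _ hμ, add_sub_cancel]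
  have e2 : c ^ p * cx.f = algebraMap k Ω t * s.mon B *
      (s.y ^ j * s.z ^ i + s.mon (N - B) * (algebraMap k Ω t⁻¹ * h)) := by
    rw [hb hf, zero_pow (Fact.out : p.Prime).ne_zero, add_zero, s.ev_single k, e1] at e
    rw [e, map_inv₀]
    field_simp
  obtain ⟨s', x, g⟩ := Lin.lin_deg hr cx.T s hμ (sub_pos.2 hBN) hh' hji fun h0 =>
    mul_ne_zero hc0 hf0 (by rw [e2, h0, mul_zero])
  have ht1 : ‖algebraMap k Ω t‖ = 1 := Ctx.norm_alg t ht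
  have g1 : s'.Good k cx.T (c ^ p * cx.f) := by
    rw [e2]
    exact ((s'.good_unit (Subalgebra.algebraMap_mem (s'.H k cx.T) t) ht1).mul
      (x.mon B hB)).mul g
  have g2 := g1.div ((s'.good_unit (x.H_le hc) hc1).pow p)
  rw [mul_div_cancel_left₀ _ hc0] at g2
  rw [← cx.T_eq_empty hf]
  exact ⟨s', x0.trans x, g2⟩

namespace Mon2

omit [IsUltrametricDist Ω] [IsAlgClosed k] [IsAlgClosed Ω] [Ctx k Ω] in
/-- A derivation of the field of a stage that does not kill `y`. -/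
theorem exists_der (hna : NA2 k Ω) (s : St Ω) (ha : Algebra.IsAlgebraic (s.M k) Ω) :
    ∃ D : Ω → Ω, IsDer (s.M k) D ∧ D s.y ≠ 0 := by
  by_contra hne
  push Not at hne
  have h1 : SepOver (adjoin k (s.mon '' s.Λ ∪ {s.z})) (s.M k) := by
    refine sep_crit (s.M k) (s.M_fg k) s.gens _ (subset_adjoin _ _) ?_ (sepOver_self _) ?_
    · rintro _ (⟨α, hα, rfl⟩ | rfl)
      exacts [s.mon_mem_M k hα, s.z_mem_M k]
    · rintro D hD h0 _ (⟨α, hα, rfl⟩ | rfl | rfl)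
      exacts [h0 _ (Or.inl ⟨α, hα, rfl⟩), hne D hD, h0 _ (Or.inr rfl)]
  have h2 : IsAlgebraic (adjoin k (s.mon '' s.Λ ∪ {s.z})) s.y :=
    (h1 _ (s.y_mem_M k)).isIntegral.isAlgebraic
  rw [← adjoin_adjoin_left] at h2
  have h3 : IsAlgebraic (adjoin (adjoin k (s.mon '' s.Λ)) {s.z}) s.y := h2
  have h4 := (hna s ha).transcendental_adjoin (s := {1}) (i := 0) (by simp)
  rw [Set.image_singleton] at h4
  exact h4 (isAlgebraic_adjoin_iff.1 h3)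

omit [IsAlgClosed k] [IsAlgClosed Ω] [Ctx k Ω] [Fact p.Prime] [CharP k p] [CharP Ω p]
  [IsUltrametricDist Ω] in
/-- Monomialization of one element of the local ring. -/
theorem one_H (hs : HS k Ω) (hr : RS k Ω p) (hi2 : Init2Stmt k Ω p) (he : EngineStmt k Ω p)
    (hl : LinStmt k Ω p) (hna : NA2 k Ω) (s : St Ω) (ha : Algebra.IsAlgebraic (s.M k) Ω) {g : Ω}
    (hg : g ∈ s.H k ∅) (h0 : g ≠ 0) : ∃ s', Nx k ∅ s s' ∧ s'.Good k ∅ g := by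
  obtain ⟨D, hD, hy⟩ := exists_der hna s ha
  obtain ⟨d, σ, κ, s1, u, -, -, -, x1, g1, -⟩ := hr.step ∅ s ((hna s ha).ne_zero 0)
  have ha1 : Algebra.IsAlgebraic (s1.M k) Ω := (hs.nx_alg _ _ _ x1 ha).1
  have key : ∀ f ∈ s.H k ∅, D f ≠ 0 → ∃ s', Nx k ∅ s1 s' ∧ s'.Good k ∅ f := by
    intro f hf hDf
    let cx : Cx Ω k :=
      { fl := False, K := s.M k, f := f, D := D, s0 := s1, der := hD,
        f_mem := s.H_empty_le_M k hf, Df := hDf, M_le := x1.M_le le_rfl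
        ne := fun t hn =>
          ⟨(hna t (hs.nx_alg _ _ _ hn ha1).1).ne_zero 0,
            (hna t (hs.nx_alg _ _ _ hn ha1).1).ne_zero 1⟩ }
    obtain ⟨μ, hμ⟩ := hi2 cx (s1.H_mono (Set.empty_subset _) (x1.H_le hf))
    exact hl cx not_false (he cx μ hμ)
  by_cases hDg : D g = 0
  · obtain ⟨s', x, g2⟩ := key (g * s.y) (mul_mem hg (s.y_mem_H k ∅)) (by
      rw [hD.mul _ (s.H_empty_le_M k hg) _ (s.y_mem_M k), hDg, mul_zero, add_zero]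
      exact mul_ne_zero h0 hy)
    have g3 := g2.div (x.good g1)
    rw [mul_div_cancel_right₀ _ g1.ne_zero] at g3
    exact ⟨s', x1.trans x, g3⟩
  · obtain ⟨s', x, g2⟩ := key g hg hDg
    exact ⟨s', x1.trans x, g2⟩

omit [IsAlgClosed k] [IsAlgClosed Ω] [Ctx k Ω] [IsUltrametricDist Ω] in
/-- Monomialization of one element of the field of a stage. -/
theorem one_M (h : ∀ s : St Ω, Algebra.IsAlgebraic (s.M k) Ω → ∀ g ∈ s.H k ∅, g ≠ 0 →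
      ∃ s', Nx k ∅ s s' ∧ s'.Good k ∅ g)
    (s : St Ω) (ha : Algebra.IsAlgebraic (s.M k) Ω) {b : Ω} (hb : b ∈ s.M k) (h0 : b ≠ 0) :
    ∃ s', Nx k ∅ s s' ∧ s'.Good k ∅ b := by
  obtain ⟨a1, h1, a2, h2, rfl⟩ := mem_adjoin_iff_div.1 hb
  obtain ⟨l1, hl1, m1⟩ := s.mem_adjoin_gens h1
  obtain ⟨l2, hl2, m2⟩ := s.mem_adjoin_gens h2
  have n1 := s.mon_ne_zero hl1
  have n2 := s.mon_ne_zero hl2
  obtain ⟨s1, x1, g1⟩ := h s ha _ (s.R0_le_H k ∅ m1) (mul_ne_zero n1 (div_ne_zero_iff.1 h0).1)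
  obtain ⟨s2, x2, g2⟩ := h s1 (x1.M_eq ▸ ha) _ (x1.H_le (s.R0_le_H k ∅ m2))
    (mul_ne_zero n2 (div_ne_zero_iff.1 h0).2)
  have x := x1.trans x2
  have g3 := (x2.good g1).div (x.mon l1 hl1)
  have g4 := g2.div (x.mon l2 hl2)
  rw [mul_div_cancel_left₀ _ n1] at g3
  rw [mul_div_cancel_left₀ _ n2] at g4
  exact ⟨s2, x, g3.div g4⟩

end Mon2

omit [IsAlgClosed k] [IsAlgClosed Ω] [Ctx k Ω] [IsUltrametricDist Ω] in
theorem mon2 (p : ℕ) [Fact p.Prime] [CharP k p] [CharP Ω p] (hs : HS k Ω) (hr : RS k Ω p)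
    (hi2 : Init2Stmt k Ω p) (he : EngineStmt k Ω p) (hl : LinStmt k Ω p) : Mon2Stmt k Ω := by
  classical
  intro hna s Z ha hZ
  induction Z using Finset.induction_on with
  | empty => exact ⟨s, Nx.refl ∅ s, fun _ hb => absurd hb (Finset.notMem_empty _)⟩
  | insert b Z _ ih =>
    obtain ⟨s1, x1, g1⟩ := ih fun a h => hZ a (Finset.mem_insert_of_mem h)
    obtain ⟨hb, h0⟩ := hZ b (Finset.mem_insert_self b Z)
    obtain ⟨s2, x2, g2⟩ := Mon2.one_M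
      (fun t ht g hg hg0 => Mon2.one_H hs hr hi2 he hl hna t ht hg hg0) s1 (x1.M_eq ▸ ha)
      (x1.M_eq ▸ hb) h0
    refine ⟨s2, x1.trans x2, fun a h => ?_⟩
    rcases Finset.mem_insert.1 h with rfl | h
    exacts [g2, x2.good (g1 a h)]

end Pool.Agent.MP_19ffc6_ag.LU2

end MrgPart0

-- ======== part 1: formerly Pool.Agent.MP_19ffc6_ag.LU2.Move
section MrgPart1

/-! PROJECT LU2, module MOVE: one move of the engine. -/

namespace Pool.Agent.MP_19ffc6_ag.LU2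

open Polynomial Pool.Agent.MP_19ffc6_ag.LU

namespace MoveM

section pure

variable {k : Type*} [Field k] {fl : Prop} {p : ℕ} {Λ Λ' : AddSubgroup ℝ} {Φ Φ1 Φ' Φ'' : Pol2 k}
  {P P' P'' : Par} {W η : ℝ}

theorem tr_same (hs : P'.s = P.s) (hε : P'.ε = P.ε)
    (h : P'.b < P.b ∨ (P'.b = P.b ∧ Stat Λ W Φ P Λ' Φ' P' ∧
      (p ∣ P.s → ∀ g < qq p P.s, Uns fl p Λ Φ P g → Uns fl p Λ' Φ' P' g))) :
    Tr fl p Λ W Φ P Λ' Φ' P' :=
  ⟨hs, fun _ => h, fun _ _ => by omega, fun _ _ => by omega, fun _ _ => by omega,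
    fun _ _ => by omega, fun _ _ => by omega⟩

theorem tr_comp (hb : 0 < P.b) (hη : 0 < η) (hδ : P'.δ = P.δ + η * P.b)
    (hd : Dsc Φ P Φ1 P η 0) (ha : Above Φ P η)
    (ht : (∃ x ∈ Φ1.support, 0 < P.cod x ∧ P.dfc x = η * P.cod x) →
      ∃ x ∈ Φ.support, 0 < P.cod x ∧ P.dfc x = η * P.cod x)
    (hU : ∀ g, Uns fl p Λ Φ P g → Uns fl p Λ Φ1 P g) (h : Tr fl p Λ W Φ1 P Λ' Φ' P') :
    Tr fl p Λ W Φ P Λ' Φ' P' := by
  refine ⟨h.s_eq, fun hε => (h.same hε).imp_right ?_, h.dl,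
    fun h1 h2 b0 h3 h4 => h.ld1 h1 h2 b0 h3 (h4.mono fun g _ => hU g), h.ld2,
    fun h1 h2 h3 h4 => h.ld3 h1 h2 h3 fun h5 h6 => hU 1 (h4 h5 h6),
    fun h1 h2 h3 => h.ld4 h1 h2 (hU 1 h3)⟩
  rintro ⟨h1, ⟨h2, θ, φ, g1, g2, g3, g4, g5, g6, g7, g8, g9⟩, h3⟩
  obtain rfl : φ = η := by
    have : P.b * φ = P.b * η := by linarith
    exact mul_left_cancel₀ hb.ne' this
  obtain rfl : φ = θ := g9.resolve_right fun g => hη.ne' g.1
  exact ⟨h1, ⟨h2, φ, φ, g1, g2, g3, g4, g5, ha, ht g7, hd.trans g8, Or.inl rfl⟩,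
    fun hp g hg hu => h3 hp g hg (hU g hu)⟩

theorem tr_fix (h : Tr fl p Λ W Φ P Λ' Φ' P') (hs : P''.s = P'.s) (hε : P''.ε = P'.ε)
    (hε1 : P'.ε = 1) (hb : P''.b = P'.b) (h1 : 1 ≤ P'.b) (hn : ¬ (P'.ε = P.ε ∧ P'.b = P.b)) :
    Tr fl p Λ W Φ P Λ' Φ'' P'' := by
  refine ⟨hs.trans h.s_eq, fun h2 => Or.inl ?_, fun _ _ => by omega, fun h2 _ b0 h3 h4 => ?_,
    fun h2 _ h3 => absurd (h.ld2 h2 hε1 h3).1 h1.not_gt, fun h2 _ h3 h4 => ?_,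
    fun _ _ _ h3 => absurd (hb ▸ h3) h1.not_gt⟩
  · rw [hb]
    exact (h.same (hε ▸ h2)).resolve_right fun h3 => hn ⟨hε ▸ h2, h3.1⟩
  · rw [hb]; exact h.ld1 h2 hε1 b0 h3 h4
  · rw [hb]; exact h.ld3 h2 hε1 h3 h4

theorem lev_le {V β δ : ℝ} {ε s : ℕ} {b : ℝ} (hβ : β ≤ 2 * V + 2) (hδ : δ ≤ 2 * V + 2) :
    (⟨β, ε, s, δ, b⟩ : Par).lev ≤ (2 * V + 2) * (s + 1) := by
  have := mul_le_mul_of_nonneg_left hδ (Nat.cast_nonneg s : (0 : ℝ) ≤ s)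
  simp only [Par.lev]; linarith

theorem eps_mul_le (h : PS fl p Λ Φ P) {ζ : ℝ} (h0 : 0 ≤ ζ) : (P.ε : ℝ) * ζ ≤ ζ := by
  have : (P.ε : ℝ) ≤ 1 := by exact_mod_cast h.eps
  nlinarith

theorem junk_scl (h : PS fl p Λ Φ P) (he : Exact Φ P) {ζ : ℝ} (h0 : 0 < ζ) :
    ∀ x ∈ Φ.support, P.s ≤ x.2.2 → x ≠ P.top → P.β + P.ε * ζ < x.1 + x.2.1 * ζ := by
  intro x hx hs ht
  rcases Nat.le_one_iff_eq_zero_or_eq_one.1 h.eps with h1 | h1
  · obtain ⟨h2, h3⟩ := h.junk x hx hs ht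
    rw [h1] at h3 ⊢
    have h4 : (0 : ℝ) ≤ x.2.1 * ζ := by positivity
    rcases h3 with h3 | h3
    · simp only [Nat.cast_zero]; linarith
    · have h5 : (0 : ℝ) < x.2.1 * ζ := mul_pos (by exact_mod_cast h3) h0
      simp only [Nat.cast_zero]; linarith
  · exact absurd (he h1 x hx hs) ht

end pure

variable {k Ω : Type*} [Field k] [NontriviallyNormedField Ω] [Algebra k Ω] {p : ℕ} [Fact p.Prime]
  {cx : Cx Ω k} {X : WS p cx} {A0 : ℝ}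

omit [Fact p.Prime] in
theorem bounds (hap : AprStmt k Ω p) (hi : X.Inv A0) (hl : X.P.δ ≤ nu X.s.z) :
    X.P.β ≤ A0 + nu (cx.D cx.f) ∧ X.P.δ ≤ A0 + nu (cx.D cx.f) := by
  have h1 := hap cx X A0 hi hl
  have h2 : (2 : ℝ) ≤ X.P.s := by exact_mod_cast X.ps.two
  have h3 := X.ps.β0
  have h4 := X.ps.δ0
  constructor <;> nlinarith

/-- The conclusion of a move. -/
def Out (X : WS p cx) (A0 : ℝ) : Prop :=
  Lower p cx 2 ∨ StartD p cx (X.P.s - 1) ∨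
    ∃ Y : WS p cx, X.Tr (A0 + nu (cx.D cx.f) + 2) Y ∧
      ((Y.U Y.P.s ∧ 0 < Y.P.δ ∧ Y.P.b < 1) ∨ Y.Full A0)

/-- The slopes exceed the a priori bound. -/
theorem case1 (hsc : ScStmt k p) (hap : AprStmt k Ω p) (hrho : RhoStmt k Ω p)
    (hre : RealStmt k Ω p) (hX : X.Full A0) (h1 : A0 + nu (cx.D cx.f) + 1 < nu X.s.y * X.P.b)
    (h2 : ∀ x ∈ X.Φ.support, 0 < X.P.cod x →
      A0 + nu (cx.D cx.f) + 1 < X.P.dfc x / X.P.cod x * X.P.b) : Lower p cx 2 := by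
  obtain ⟨hβ, hδ⟩ := bounds hap hX.toInv hX.lt.le
  have hb := hX.one_le
  have hb0 : 0 < X.P.b := by linarith
  have hδ0 := X.ps.δ0
  set V := A0 + nu (cx.D cx.f) with hV
  obtain ⟨e, he, h3⟩ := exists_pos_lower X.Φ.support (fun x => 0 < X.P.cod x)
    (fun x => X.P.dfc x / X.P.cod x - (V + 1) / X.P.b)
    fun x hx h => sub_pos.2 ((div_lt_iff₀ hb0).2 (h2 x hx h))
  obtain ⟨ζ, z1, z2, z3⟩ := exists_pmul_between (p := p) X.s.dense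
    (a := (V + 1) / X.P.b) (b := min (nu X.s.y) (min ((V + 2) / X.P.b) ((V + 1) / X.P.b + e)))
    (lt_min ((div_lt_iff₀ hb0).2 h1) (lt_min (div_lt_div_of_pos_right (by linarith) hb0)
      (by linarith)))
  simp only [lt_min_iff] at z3
  obtain ⟨z3, z4, z5⟩ := z3
  rw [div_lt_iff₀ hb0] at z2
  rw [lt_div_iff₀ hb0] at z4
  have z0 : 0 < ζ := (pos_iff_pos_of_mul_pos (by linarith : 0 < ζ * X.P.b)).2 hb0
  have z6 : ζ ≤ ζ * X.P.b := le_mul_of_one_le_right z0.le hb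
  obtain ⟨hps, -⟩ := (hsc cx.fl X.s.Λ X.Φ X.P X.ps hb0.le).1 ζ z0 z1
    (fun x hx h => (lt_div_iff₀ h).1 (by linarith [h3 x hx h])) (junk_scl X.ps hX.exact z0)
  obtain ⟨Y, -, y2, -, y4, y5⟩ := hre.scl cx X A0 ζ _ hX.toInv (pmul_mem z1) z0 z3 hps rfl
    (lev_le (by linarith [eps_mul_le X.ps z0.le]) (by linarith))
  have y6 : Y.P.δ = X.P.δ + ζ * X.P.b := by rw [y2]
  rcases le_or_gt Y.P.δ (nu Y.s.z) with h | h
  · have := (bounds hap (y5 (by simp only; linarith)) h).2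
    linarith
  · exact (hrho cx Y h.le).1 (Or.inl h)

/-- The first edge of the polygon is reached before the value of `y`. -/
theorem case2 (hshs : ShsStmt k p) (hso : SolveStmt k p) (hap : AprStmt k Ω p)
    (hrho : RhoStmt k Ω p) (hre : RealStmt k Ω p) (hX : X.Full A0) {θ : ℝ} (h0 : 0 < θ)
    (h1 : θ < nu X.s.y) (h2 : θ * X.P.b ≤ A0 + nu (cx.D cx.f) + 1) (ha : Above X.Φ X.P θ)
    (ht : ∃ x ∈ X.Φ.support, 0 < X.P.cod x ∧ X.P.dfc x = θ * X.P.cod x) : Out X A0 := by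
  obtain ⟨hβ, hδ⟩ := bounds hap hX.toInv hX.lt.le
  have hb := hX.one_le
  have hb0 : 0 < X.P.b := by linarith
  set V := A0 + nu (cx.D cx.f) with hV
  obtain ⟨Φ1, hsh, halt⟩ := hso cx.fl X.s.Λ X.Φ X.P θ X.ps hX.exact hb h0 ha
  obtain ⟨-, f2, f3, f4, -⟩ := hshs cx.fl X.s.Λ X.Φ Φ1 X.P θ h0 X.ps hsh
  obtain ⟨X1, rfl, x2, x3, x4, x5, x6⟩ := hre.shs cx X A0 θ Φ1 hX.toInv h0 hb0 hX.lt hsh
  rcases halt with h | ⟨b', e, g1, g2, g3⟩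
  · refine Or.inr (Or.inr ⟨X1, ?_, Or.inr ⟨x5, x2 ▸ f2 hX.exact, x2 ▸ hb, x6, ?_⟩⟩)
    · unfold WS.Tr
      rw [x2, x3]
      exact tr_same rfl rfl (Or.inr ⟨rfl, ⟨rfl, θ, 0, h0, by linarith, zero_mem _, by simp,
        by simp, ha, ht, f4, Or.inr ⟨rfl, h⟩⟩, fun _ g _ => f3 g⟩)
    · unfold WS.U
      rw [x2, x3, x4]
      exact hX.uns.imp_left (f3 _)
  · obtain ⟨ζ, z1, z2, z3⟩ := exists_pmul_between (p := p) X.s.dense
      (a := θ) (b := min (nu X.s.y) (min ((V + 2) / X.P.b) (θ + e)))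
      (lt_min h1 (lt_min ((lt_div_iff₀ hb0).2 (by linarith)) (by linarith)))
    simp only [lt_min_iff] at z3
    obtain ⟨z3, z4, z5⟩ := z3
    rw [lt_div_iff₀ hb0] at z4
    have z0 : 0 < ζ := h0.trans z2
    have z6 : ζ ≤ ζ * X.P.b := le_mul_of_one_le_right z0.le hb
    have z7 : (ζ - θ) * b' ≤ (ζ - θ) * X.P.b := mul_le_mul_of_nonneg_left g1.le (by linarith)
    obtain ⟨q1, q2, q3, q4⟩ := g3 ζ z2 z5 z1
    obtain ⟨Y, y1, y2, y3, y4, y5⟩ := hre.scl cx X1 A0 ζ _ x5 (x3 ▸ pmul_mem z1) z0 (x4 ▸ z3)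
      (x3 ▸ q1) (by rw [x2])
      (by rw [x2]; exact lev_le (by linarith [eps_mul_le X.ps z0.le]) (by linarith))
    have hU : Y.U Y.P.s := by unfold WS.U; rw [y1, y2, y3, x3]; exact q3
    have htr : X.Tr (V + 2) Y := tr_same (by rw [y2]) (by rw [y2]) (Or.inl (by rw [y2]; exact g1))
    rcases lt_or_ge b' 1 with h | h
    · exact Or.inr (Or.inr ⟨Y, htr, Or.inl ⟨hU, by rw [y2]; exact q4, by rw [y2]; exact h⟩⟩)
    rcases le_or_gt (nu Y.s.z) Y.P.δ with h' | h'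
    · exact Or.inl ((hrho cx Y h').1 (Or.inr (by rw [y2]; exact one_pos.trans_le h)))
    have z8 : (ζ - θ) * 1 ≤ (ζ - θ) * b' := mul_le_mul_of_nonneg_left h (by linarith)
    have z9 : θ ≤ θ * X.P.b := le_mul_of_one_le_right h0.le hb
    exact Or.inr (Or.inr ⟨Y, htr, Or.inr ⟨y5 (by rw [x2]; simp only; linarith),
      by rw [y1, y2]; exact q2, by rw [y2]; exact h, h', Or.inl hU⟩⟩)

/-- A state of type D is brought to normal form. -/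
theorem fix (hsc : ScStmt k p) (hn : NfdStmt k Ω p) (hre : RealStmt k Ω p) {Y : WS p cx}
    (hi : Y.Inv A0) (hε : Y.P.ε = 1) (hb : 1 ≤ Y.P.b) (hlt : Y.P.δ < nu Y.s.z) (hU : Y.U Y.P.s)
    (hβ : Y.P.β ≤ 2 * (A0 + nu (cx.D cx.f)) + 1) (hδ : Y.P.δ ≤ 2 * (A0 + nu (cx.D cx.f)) + 1) :
    ∃ Z : WS p cx, Z.Full A0 ∧ Z.s.Λ = Y.s.Λ ∧ Z.P.s = Y.P.s ∧ Z.P.ε = Y.P.ε ∧ Z.P.b = Y.P.b := by
  have hb0 : 0 < Y.P.b := by linarith
  obtain ⟨h1, e, he, h2⟩ := hsc cx.fl Y.s.Λ Y.Φ Y.P Y.ps hb0.le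
  have hy := Y.s.nu_y_pos (cx.y_ne Y.rep.1)
  obtain ⟨ζ, z1, z0, z3⟩ := exists_pmul_between (p := p) Y.s.dense (a := 0)
    (b := min (min (nu Y.s.y) e) (min (1 / Y.P.b) ((nu Y.s.z - Y.P.δ) / Y.P.b)))
    (lt_min (lt_min hy he) (lt_min (by positivity) (div_pos (sub_pos.2 hlt) hb0)))
  simp only [lt_min_iff] at z3
  obtain ⟨⟨z3, z4⟩, z5, z6⟩ := z3
  rw [lt_div_iff₀ hb0] at z5 z6
  have z7 : ζ ≤ ζ * Y.P.b := le_mul_of_one_le_right z0.le hb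
  obtain ⟨q1, q2, q3⟩ := h1 ζ z0 z1 (h2 ζ z0 z4).1 (h2 ζ z0 z4).2
  obtain ⟨Y2, y1, y2, y3, y4, y5⟩ := hre.scl cx Y A0 ζ _ hi (pmul_mem z1) z0 z3 q1 rfl
    (lev_le (by linarith [eps_mul_le Y.ps z0.le]) (by linarith))
  have hi2 := y5 (by simp only; linarith)
  obtain ⟨A, hA, hA'⟩ := hi2.db
  obtain ⟨Z, w1, w2, w3, w4, w5, w6, w7, w8, -⟩ := hn cx Y2 A (by rw [y2]; exact hε)
    (by rw [y1, y2]; exact q3 (by linarith [Y.ps.δ0])) hA hi2.dr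
  refine ⟨Z, ⟨⟨⟨A, w5, w1 ▸ hA'⟩, w4 ▸ hi2.dz, w6, by rw [w1, w2]; exact hi2.big⟩, w7,
    by rw [w1, y2]; exact hb, by rw [w1, w4, y2, y4]; simp only; linarith, Or.inl ?_⟩,
    w3.trans y3, by rw [w1, y2], by rw [w1, y2], by rw [w1, y2]⟩
  have hU2 : Uns cx.fl p Y2.s.Λ Y2.Φ Y2.P Y2.P.s := by rw [y1, y2, y3]; exact q2 _ hU
  unfold WS.U
  rw [w3]
  rw [w1] at w8 ⊢
  exact hU2.congr w8 rfl rfl rfl fun _ _ => by simpa using pmul_zero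

/-- The full transition. -/
theorem case3 (hshs : ShsStmt k p) (hsc : ScStmt k p) (hpr : PrepStmt k p) (hst : StepStmt k p)
    (hap : AprStmt k Ω p) (hrho : RhoStmt k Ω p) (hex : ExcStmt k Ω p) (hn : NfdStmt k Ω p)
    (hre : RealStmt k Ω p) (hX : X.Full A0)
    (h2 : nu X.s.y * X.P.b ≤ A0 + nu (cx.D cx.f) + 1) (ha : Above X.Φ X.P (nu X.s.y)) :
    Out X A0 := by
  obtain ⟨hβ, hδ⟩ := bounds hap hX.toInv hX.lt.le
  have hb := hX.one_le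
  have hb0 : 0 < X.P.b := by linarith
  have h0 := X.s.nu_y_pos (cx.y_ne X.rep.1)
  have hU : X.U X.P.s := hX.uns.resolve_right (by linarith)
  set V := A0 + nu (cx.D cx.f) with hV
  obtain ⟨Φ1, hsh, hprep, ht⟩ := hpr cx.fl X.s.Λ X.Φ X.P _ X.ps hX.exact hb h0 ha
  obtain ⟨f1, f2, f3, f4, f5⟩ := hshs cx.fl X.s.Λ X.Φ Φ1 X.P _ h0 X.ps hsh
  obtain ⟨X1, rfl, x2, x3, x4, x5, -⟩ := hre.shs cx X A0 _ Φ1 hX.toInv h0 hb0 hX.lt hsh
  obtain ⟨d, n0, σ, κ, Λ', s1, s2, s3, s4, s5, s6⟩ := hre.step cx X1 A0 x5 (x2 ▸ hb)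
  rw [x4] at s5
  rw [x3, x4] at s1
  rw [x2, x4] at s6
  obtain ⟨l, P', Φ', t1, t2, t3, t4, rfl, t6, t7⟩ := hst cx.fl X.s.Λ Λ' X1.Φ X.P _ (V + 2) d n0 σ κ
    f1 (f2 hX.exact) hb (f3 _ hU) s1 (f5 ha) hprep s2 s3 s4 s5 (by linarith)
  have z6 : nu X.s.y ≤ nu X.s.y * X.P.b := le_mul_of_one_le_right h0.le hb
  have b1 : P'.β ≤ 2 * V + 1 := by rw [t2]; linarith [eps_mul_le X.ps h0.le]
  have b2 : P'.δ ≤ 2 * V + 1 := by rw [t4]; linarith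
  have b3 : 0 < P'.δ := by rw [t4]; linarith [X.ps.δ0]
  obtain ⟨Y, y1, rfl, rfl, y4⟩ := s6 l P' t1 t3 t4 t6
    (by rw [← t3]; exact lev_le (by linarith) (by linarith))
  rw [← y1] at t7
  rcases t7 with h | ⟨u1, u2, u3⟩
  · rcases le_or_gt (nu Y.s.z) Y.P.δ with h' | h'
    · exact Or.inl ((hrho cx Y h').1 (Or.inr (by rw [h.2.2.2.1]; exact one_pos)))
    · exact Or.inr (Or.inl (t3 ▸ hex cx Y h h'))
  have htr : X.Tr (V + 2) Y := tr_comp hb0 h0 t4 f4 ha ht f3 u2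
  rcases lt_or_ge Y.P.b 1 with h | h
  · exact Or.inr (Or.inr ⟨Y, htr, Or.inl ⟨u1, b3, h⟩⟩)
  rcases le_or_gt (nu Y.s.z) Y.P.δ with h' | h'
  · exact Or.inl ((hrho cx Y h').1 (Or.inr (one_pos.trans_le h)))
  by_cases he : Exact Y.Φ Y.P
  · exact Or.inr (Or.inr ⟨Y, htr, Or.inr ⟨y4, he, h, h', Or.inl u1⟩⟩)
  have hε : Y.P.ε = 1 := by
    by_contra h3
    exact he fun h4 => absurd h4 h3
  obtain ⟨Z, w1, w2, w3, w4, w5⟩ := fix hsc hn hre y4 hε h h' u1 b1 b2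
  refine Or.inr (Or.inr ⟨Z, ?_, Or.inr w1⟩)
  unfold WS.Tr
  rw [w2]
  exact tr_fix htr w3 w4 hε w5 h fun h3 => he (u3 h3.1 h3.2)

end MoveM

open MoveM

variable {k Ω : Type*} [Field k] [NontriviallyNormedField Ω] [Algebra k Ω] {p : ℕ} [Fact p.Prime]

theorem move (hshs : ShsStmt k p) (hsc : ScStmt k p) (hso : SolveStmt k p) (hpr : PrepStmt k p)
    (hst : StepStmt k p) (hap : AprStmt k Ω p) (hrho : RhoStmt k Ω p) (hex : ExcStmt k Ω p)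
    (hn : NfdStmt k Ω p) (hre : RealStmt k Ω p) : MoveStmt k Ω p := by
  classical
  intro cx X A0 hX
  have hb0 : 0 < X.P.b := one_pos.trans_le hX.one_le
  have h0 := X.s.nu_y_pos (cx.y_ne X.rep.1)
  by_cases h3 : nu X.s.y * X.P.b ≤ A0 + nu (cx.D cx.f) + 1 ∧ Above X.Φ X.P (nu X.s.y)
  · exact case3 hshs hsc hpr hst hap hrho hex hn hre hX h3.1 h3.2
  by_cases h2 : ∃ x ∈ X.Φ.support, 0 < X.P.cod x ∧ X.P.dfc x / X.P.cod x < nu X.s.y ∧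
      X.P.dfc x / X.P.cod x * X.P.b ≤ A0 + nu (cx.D cx.f) + 1
  · obtain ⟨x, hx, g1, g2, g3⟩ := h2
    obtain ⟨x0, hx0, hmin⟩ := Finset.exists_min_image (X.Φ.support.filter fun x => 0 < X.P.cod x)
      (fun x => X.P.dfc x / X.P.cod x) ⟨x, Finset.mem_filter.2 ⟨hx, g1⟩⟩
    obtain ⟨hx0, g0⟩ := Finset.mem_filter.1 hx0
    have g4 := hmin x (Finset.mem_filter.2 ⟨hx, g1⟩)
    have g5 : 0 < X.P.dfc x0 / X.P.cod x0 := div_pos (X.ps.dfc_pos hx0 g0) g0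
    refine case2 hshs hso hap hrho hre hX g5 (g4.trans_lt g2)
      ((mul_le_mul_of_nonneg_right g4 hb0.le).trans g3) (fun x' hx' => ?_)
      ⟨x0, hx0, g0, (div_mul_cancel₀ _ g0.ne').symm⟩
    rcases lt_or_ge 0 (X.P.cod x') with h | h
    · exact (le_div_iff₀ h).1 (hmin x' (Finset.mem_filter.2 ⟨hx', h⟩))
    · exact (mul_nonpos_of_nonneg_of_nonpos g5.le h).trans (X.ps.dfc_nonneg hx')
  · push Not at h2
    have h1 : A0 + nu (cx.D cx.f) + 1 < nu X.s.y * X.P.b := by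
      by_contra h
      refine h3 ⟨not_lt.1 h, fun x hx => not_lt.1 fun h4 => h ?_⟩
      have h5 : 0 < X.P.cod x :=
        (pos_iff_pos_of_mul_pos ((X.ps.dfc_nonneg hx).trans_lt h4)).1 h0
      have h6 := (div_lt_iff₀ h5).2 h4
      exact (h2 x hx h5 h6).trans (mul_lt_mul_of_pos_right h6 hb0)
    refine Or.inl (case1 hsc hap hrho hre hX h1 fun x hx h4 => ?_)
    rcases lt_or_ge (X.P.dfc x / X.P.cod x) (nu X.s.y) with h | h
    · exact h2 x hx h4 h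
    · exact h1.trans_le (mul_le_mul_of_nonneg_right h hb0.le)

end Pool.Agent.MP_19ffc6_ag.LU2

end MrgPart1

-- marker of a merged file
example : 731051 + 816184 = 731051 + 816184 := rfl
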