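import Mathlib.Data.Finsupp.Pointwise
import Pool.Agent.MP_19ffc6_ag.LU2.Solve

-- ======== part 0: formerly Pool.Agent.MP_19ffc6_ag.LU2.Nfd
section MrgPart0

/-! PROJECT LU2, module NFD: the normal form in type D. -/

namespace Pool.Agent.MP_19ffc6_ag.LU2

open Polynomial IntermediateField Pool.Agent.MP_19ffc6_ag.LU

variable {k Ω : Type*} [Field k] [NontriviallyNormedField Ω] [IsUltrametricDist Ω] [Algebra k Ω]

namespace NfdM

theorem root_near [Ctx k Ω] (s : St Ω) {T : Set Ω} {η : Ω} (hη : η ∈ T) (h1 : ‖η‖ ≤ 1) 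
    (G : Polynomial Ω) (hG : ∀ i, G.coeff i ∈ s.H k T ∧ ‖G.coeff i‖ < 1) (e : η + G.eval η ∈ s.H k T) :
    η ∈ s.H k T := by
  refine s.root_mem_H (Q := X + G - C (η + G.eval η)) hη (fun i => ?_) (by simp) h1 ?_
  · rw [coeff_sub, coeff_add, coeff_X, coeff_C]
    refine sub_mem (add_mem ?_ (hG i).1) ?_ <;> split_ifs
    exacts [one_mem _, zero_mem _, e, zero_mem _]
  · have h2 : ‖G.derivative.eval η‖ < ‖(1 : Ω)‖ := by
      rw [norm_one, eval_eq_sum_range]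
      refine norm_sum_lt_of one_pos fun i _ => ?_
      rw [coeff_derivative, norm_mul, norm_mul, norm_pow]
      have h3 : ‖((i : Ω) + 1)‖ ≤ 1 := by
        exact_mod_cast IsUltrametricDist.norm_natCast_le_one Ω (i + 1)
      calc _ ≤ ‖G.coeff (i + 1)‖ * 1 * 1 := by
            gcongr
            exact pow_le_one₀ (norm_nonneg _) h1
        _ < 1 := by simpa using (hG (i + 1)).2
    simp only [derivative_sub, derivative_add, derivative_X, derivative_C, sub_zero, eval_add,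
      eval_one]
    rw [norm_add_eq_left h2, norm_one]

omit [IsUltrametricDist Ω] in
theorem expand {s s' : St Ω} {μ : ℝ} (hμ : μ ∈ s.Λ) (h0 : 0 ≤ μ) (h1 : s'.Λ = s.Λ)
    (h2 : s'.mon = s.mon) (hz : s'.z = s.z) {a : Ω} (ha : a ∈ s.R0 k)
    (hy : s'.y = s.y + s.mon μ * a) (n : ℕ) : ∀ g ∈ s.R0 k,
      ∃ g' ∈ s'.R0 k, ∃ h ∈ s.R0 k, g = g' + s.mon (n * μ) * h := by
  have hm := s.mon_mem_R0 k hμ h0
  have hle : s'.R0 k ≤ s.R0 k := s'.R0_le_iff.2 ⟨fun α hα h => h2 ▸ s.mon_mem_R0 k (h1 ▸ hα) h,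
    hy ▸ add_mem (s.y_mem_R0 k) (mul_mem hm ha), hz ▸ s.z_mem_R0 k⟩
  have one : ∀ g ∈ s.R0 k, ∃ g' ∈ s'.R0 k, ∃ h ∈ s.R0 k, g = g' + s.mon μ * h := by
    intro g hg
    induction hg using Algebra.adjoin_induction with
    | mem x hx =>
      rcases hx with ⟨α, hα, rfl⟩ | rfl | rfl
      · exact ⟨_, h2 ▸ s'.mon_mem_R0 k (h1 ▸ hα.1) hα.2, 0, zero_mem _, by simp⟩
      · exact ⟨_, s'.y_mem_R0 k, -a, neg_mem ha, by rw [hy]; ring⟩
      · exact ⟨_, s'.z_mem_R0 k, 0, zero_mem _, by simp [hz]⟩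
    | algebraMap c => exact ⟨_, Subalgebra.algebraMap_mem _ c, 0, zero_mem _, by simp⟩
    | add x y _ _ hx hy =>
      obtain ⟨g1, a1, b1, c1, rfl⟩ := hx
      obtain ⟨g2, a2, b2, c2, rfl⟩ := hy
      exact ⟨_, add_mem a1 a2, _, add_mem c1 c2, by ring⟩
    | mul x y _ _ hx hy =>
      obtain ⟨g1, a1, b1, c1, rfl⟩ := hx
      obtain ⟨g2, a2, b2, c2, rfl⟩ := hy
      exact ⟨_, mul_mem a1 a2, g1 * b2 + b1 * g2 + s.mon μ * b1 * b2,
        add_mem (add_mem (mul_mem (hle a1) c2) (mul_mem c1 (hle a2))) (mul_mem (mul_mem hm c1) c2),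
        by ring⟩
  induction n with
  | zero => exact fun g hg => ⟨0, zero_mem _, g, hg, by simp [s.mon_zero]⟩
  | succ n ih =>
    intro g hg
    obtain ⟨g1, a1, b1, c1, rfl⟩ := ih g hg
    obtain ⟨g2, a2, b2, c2, rfl⟩ := one b1 c1
    have hn : (n : ℝ) * μ ∈ s.Λ := by simpa using s.Λ.nsmul_mem hμ n
    refine ⟨g1 + s.mon (n * μ) * g2, add_mem a1 (mul_mem (h2 ▸ s'.mon_mem_R0 k (h1 ▸ hn)
      (mul_nonneg n.cast_nonneg h0)) a2), b2, c2, ?_⟩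
    rw [Nat.cast_succ, add_mul, one_mul, s.mon_add _ hn _ hμ]
    ring

omit [IsUltrametricDist Ω] in
/-- The low terms in the new coordinate. -/
theorem low_terms {s s' : St Ω} {μ : ℝ} (hμ : μ ∈ s.Λ) (h0 : 0 < μ) (h1 : s'.Λ = s.Λ)
    (h2 : s'.mon = s.mon) (hz : s'.z = s.z) {a : Ω} (ha : a ∈ s.R0 k)
    (hy : s'.y = s.y + s.mon μ * a) {N : ℝ} (hN : N ∈ s.Λ) {L : Pol2 k} (hL : Supp s.Λ L)
    (hL0 : ∀ x ∈ L.support, 0 ≤ x.1) :
    ∃ E : Pol2 k, Supp s.Λ E ∧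
      (∀ x ∈ E.support, ∃ x0 ∈ L.support, x0.1 + μ ≤ x.1 ∧ x0.2.2 ≤ x.2.2) ∧
      ∃ h ∈ s.R0 k, s.ev k L = s'.ev k (L + E) + s.mon N * h := by
  obtain ⟨n, hn⟩ := exists_nat_ge (N / μ)
  have hn' : N ≤ n * μ := by rwa [div_le_iff₀ h0] at hn
  have hnm : (n : ℝ) * μ ∈ s.Λ := by simpa using s.Λ.nsmul_mem hμ n
  have hm := s.mon_mem_R0 k hμ h0.le
  have hy' : s'.y ∈ s.R0 k := hy ▸ add_mem (s.y_mem_R0 k) (mul_mem hm ha)
  have hp : ∀ j : ℕ, ∃ g ∈ s.R0 k, s.y ^ j = s'.y ^ j + s.mon μ * g := by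
    intro j
    induction j with
    | zero => exact ⟨0, zero_mem _, by simp⟩
    | succ j ih =>
      obtain ⟨g, hg, e⟩ := ih
      refine ⟨g * s.y - s'.y ^ j * a, sub_mem (mul_mem hg (s.y_mem_R0 k))
        (mul_mem (pow_mem hy' _) ha), ?_⟩
      rw [pow_succ, pow_succ, e]
      linear_combination (-s'.y ^ j) * hy
  set S : Set Pt := {x | x.1 ∈ s.Λ ∧ ∃ x0 ∈ L.support, x0.1 + μ ≤ x.1 ∧ x0.2.2 ≤ x.2.2}
  have key : ∀ x ∈ L.support, ∃ e ∈ s'.Sp k S, ∃ h ∈ s.R0 k,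
      s.mon x.1 * s.y ^ x.2.1 * s.z ^ x.2.2 =
        s'.mon x.1 * s'.y ^ x.2.1 * s'.z ^ x.2.2 + e + s.mon N * h := by
    intro x hx
    obtain ⟨g, hg, e⟩ := hp x.2.1
    obtain ⟨g', hg', h, hh, rfl⟩ := expand hμ h0.le h1 h2 hz ha hy n g hg
    have hx1 := hL x hx
    have hxm := s.Λ.add_mem hx1 hμ
    refine ⟨s'.mon (x.1 + μ) * s'.y ^ 0 * s'.z ^ x.2.2 * g', ?_,
      s.mon (x.1 + μ + n * μ - N) * s.z ^ x.2.2 * h, mul_mem (mul_mem (s.mon_mem_R0 k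
        (s.Λ.sub_mem (s.Λ.add_mem hxm hnm) hN) (by linarith [hL0 x hx]))
        (pow_mem (s.z_mem_R0 k) _)) hh, ?_⟩
    · refine s'.mul_mem_Sp (S := {(x.1 + μ, 0, x.2.2)}) ?_ (fun x hx => hx.1) ?_
        (s'.mono_mem_Sp (x := (x.1 + μ, 0, x.2.2)) rfl) (s'.mem_R0_iff_Sp.1 hg')
      · rintro _ rfl; exact h1 ▸ hxm
      · rintro _ rfl x' hx'
        exact ⟨s.Λ.add_mem hxm (h1 ▸ hx'.1), x, hx, le_add_of_nonneg_right hx'.2,
          Nat.le_add_right _ _⟩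
    · rw [e, h2, hz, s.mon_sub (s.Λ.add_mem hxm hnm) hN, s.mon_add _ hxm _ hnm,
        s.mon_add _ hx1 _ hμ]
      have := s.mon_ne_zero hN
      field_simp
      ring
  choose! e he h hh hk using key
  have hE : ∑ x ∈ L.support, algebraMap k Ω (L x) * e x ∈ s'.Sp k S :=
    sum_mem fun x hx => by rw [← Algebra.smul_def]; exact Submodule.smul_mem _ _ (he x hx)
  obtain ⟨E, hE1, hE2⟩ := s'.mem_Sp_iff.1 hE
  refine ⟨E, fun x hx => (hE1 x hx).1, fun x hx => (hE1 x hx).2,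
    ∑ x ∈ L.support, algebraMap k Ω (L x) * h x,
    sum_mem fun x hx => mul_mem (Subalgebra.algebraMap_mem _ _) (hh x hx), ?_⟩
  rw [map_add, hE2, s.ev_eq_sum k, s'.ev_eq_sum k, Finset.mul_sum, ← Finset.sum_add_distrib,
    ← Finset.sum_add_distrib]
  refine Finset.sum_congr rfl fun x hx => ?_
  rw [hk x hx]; ring

variable [Ctx k Ω] {p : ℕ} {cx : Cx Ω k}

/-- The properties that all rounds keep. -/
def Keep (X Y : WS p cx) (A μ0 μ : ℝ) : Prop :=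
  Y.P = X.P ∧ Y.N = X.N ∧ Y.s.Λ = X.s.Λ ∧ Y.s.z = X.s.z ∧ DB cx.D Y.s A ∧
    ‖cx.D Y.r‖ < ‖cx.D cx.f‖ ∧ vtx Y.Φ Y.P = vtx X.Φ X.P ∧
    (∀ x ∈ Y.Φ.support, x ≠ Y.P.top → Y.P.β + μ0 ≤ x.1) ∧
    ∀ x ∈ Y.Φ.support, Y.P.s ≤ x.2.2 → x ≠ Y.P.top → Y.P.β + μ ≤ x.1

theorem rem_add (hs : HS k Ω) (X : WS p cx) {s' : St Ω} (hn : Nx k cx.T X.s s') {A N1 : ℝ}
    (hdb : DB cx.D s' A) (hN1 : N1 ∈ s'.Λ) (hN : X.N ≤ N1)
    (hexp : Real.exp (A - N1) < ‖cx.D cx.f‖) (hdr : ‖cx.D X.r‖ < ‖cx.D cx.f‖) {h : Ω}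
    (hh : h ∈ s'.H k cx.T) :
    (∃ h' ∈ s'.H k cx.T, X.r + s'.mon N1 * h = s'.mon X.N * h') ∧
      ‖cx.D (X.r + s'.mon N1 * h)‖ < ‖cx.D cx.f‖ := by
  have hn0 := X.rep.nx.trans hn
  have hM := cx.M_le' hn0
  have hNm := hn.lat X.N_mem
  constructor
  · obtain ⟨a, ha, e⟩ := hn.rem X.N_mem X.rem
    refine ⟨a + s'.mon (N1 - X.N) * h, add_mem ha (mul_mem (s'.mon_mem_H k _
      (s'.Λ.sub_mem hN1 hNm) (sub_nonneg.2 hN)) hh), ?_⟩
    rw [e, s'.mon_sub hN1 hNm]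
    have := s'.mon_ne_zero hNm
    field_simp
  · have hK : h ∈ cx.K := cx.H_le hn0 hh
    rw [cx.der.add _ X.rep.r_mem _ (mul_mem (hM (s'.mon_mem_M k hN1)) hK)]
    exact norm_add_lt_of hdr ((hdb.norm_mon_mul cx.der hM hN1 hK (s'.norm_le_one_of_mem_H hh)
      (hs.der cx.T s' cx.K cx.D A cx.T_sub hM cx.der hdb h hh)).trans_lt hexp)

open Classical in
theorem round [Fact p.Prime] (hs : HS k Ω) (hr : RS k Ω p) (X : WS p cx) {A μ0 μ N1 : ℝ}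
    (hε : X.P.ε = 1) (hμ0 : 0 < μ0) (hμ : μ ∈ X.s.Λ) (hμp : 0 < μ) (hN1 : N1 ∈ X.s.Λ)
    (hN : X.N ≤ N1) (hexp : Real.exp (A - N1) < ‖cx.D cx.f‖) (hk : Keep X X A μ0 μ) :
    ∃ Y : WS p cx, Keep X Y A μ0 (μ0 + μ) := by
  obtain ⟨-, -, -, -, hdb, hdr, -, hall, hj⟩ := hk
  obtain ⟨s, Φ, P, r, N, rep, hNm, rem, ps, room⟩ := X
  dsimp only at *
  set t := Φ P.top with ht
  have ht0 : t ≠ 0 := Finsupp.mem_support_iff.1 ps.top
  have hβ : P.β ∈ s.Λ := ps.supp _ ps.top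
  set J := Φ.filter fun x => P.s ≤ x.2.2 ∧ x ≠ P.top with hJ
  set L := Φ.filter fun x => x.2.2 < P.s with hL
  have hJs : ∀ x ∈ J.support, x ∈ Φ.support ∧ P.s ≤ x.2.2 ∧ x ≠ P.top := fun x hx => by
    simpa [hJ, Finsupp.support_filter] using hx
  have hLs : ∀ x ∈ L.support, x ∈ Φ.support ∧ x.2.2 < P.s := fun x hx => by
    simpa [hL, Finsupp.support_filter] using hx
  have hlt : ∀ x : Pt, x.2.2 < P.s → x ≠ P.top := fun x h e => by simp [e, Par.top] at h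
  have hΦ : Φ = Finsupp.single P.top t + J + L := by
    ext x
    simp only [Finsupp.add_apply, hJ, hL, Finsupp.filter_apply, Finsupp.single_apply]
    by_cases e : P.top = x
    · subst e; simp [Par.top, ht]
    · by_cases h : x.2.2 < P.s
      · simp [e, h, h.not_ge]
      · simp [e, h, not_lt.1 h, Ne.symm e]
  set c : Pt → Ω := fun x =>
    algebraMap k Ω (J x / t) * (s.mon (x.1 - P.β - μ) * s.z ^ (x.2.2 - P.s))
  have hcl : ∀ x ∈ J.support, x.1 - P.β - μ ∈ s.Λ ∧ 0 ≤ x.1 - P.β - μ := fun x hx =>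
    ⟨s.Λ.sub_mem (s.Λ.sub_mem (ps.supp x (hJs x hx).1) hβ) hμ, by
      linarith [hj x (hJs x hx).1 (hJs x hx).2.1 (hJs x hx).2.2]⟩
  have hc : ∀ s' : St Ω, s'.Λ = s.Λ → s'.mon = s.mon → s'.z = s.z → ∀ x ∈ J.support,
      c x ∈ s'.R0 k := fun s' h1 h2 h3 x hx =>
    mul_mem (Subalgebra.algebraMap_mem _ _) (mul_mem (h2 ▸ s'.mon_mem_R0 k (h1 ▸ (hcl x hx).1)
      (hcl x hx).2) (pow_mem (h3 ▸ s'.z_mem_R0 k) _))
  set a := ∑ x ∈ J.support, c x * s.y ^ x.2.1 with ha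
  have haR : a ∈ s.R0 k :=
    sum_mem fun x hx => mul_mem (hc s rfl rfl rfl x hx) (pow_mem (s.y_mem_R0 k) _)
  have hsm : ∀ {b : Ω}, b ∈ s.R0 k → ‖s.mon μ * b‖ < 1 := fun hb => by
    rw [norm_mul]
    exact (mul_le_of_le_one_right (norm_nonneg _) (s.norm_le_one_of_mem_R0 hb)).trans_lt
      (s.norm_mon_lt_one hμ hμp)
  set s' := s.withYZ (s.y + s.mon μ * a) s.z (norm_add_lt_of s.norm_y (hsm haR)) s.norm_z
  have hy' : s'.y = s.y + s.mon μ * a := rfl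
  have hyR : s'.y ∈ s.R0 k :=
    add_mem (s.y_mem_R0 k) (mul_mem (s.mon_mem_R0 k hμ hμp.le) haR)
  have hM := cx.M_le' rep.nx
  have hyH : s.y ∈ s'.H k cx.T := by
    refine root_near s' (cx.mem_T (ps.typ hε).1 (hM (s.y_mem_M k))) s.norm_y.le
      (∑ x ∈ J.support, monomial x.2.1 (s.mon μ * c x)) (fun i => ?_) ?_
    · rw [finsetSum_coeff]
      refine ⟨sum_mem fun x hx => ?_, norm_sum_lt_of one_pos fun x hx => ?_⟩ <;>
        rw [coeff_monomial] <;> split_ifs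
      exacts [s'.R0_le_H k _ (mul_mem (s'.mon_mem_R0 k hμ hμp.le) (hc s' rfl rfl rfl x hx)),
        zero_mem _, hsm (hc s rfl rfl rfl x hx), by simp]
    · have h5 := s'.y_mem_H k cx.T
      simpa only [hy', ha, eval_finsetSum, eval_monomial, Finset.mul_sum, mul_assoc] using h5
  have hadj : s.R0 k ≤ Algebra.adjoin k s.gens := s.R0_le_iff.2
    ⟨fun α h _ => Algebra.subset_adjoin (s.mon_mem_gens h), Algebra.subset_adjoin s.y_mem_gens,
      Algebra.subset_adjoin s.z_mem_gens⟩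
  have hn : Nx k cx.T s s' := Nx.of_mon_eq rfl rfl hyH (s'.z_mem_H k _) (hadj hyR)
    (hadj (s.z_mem_R0 k))
  have hdb' : DB cx.D s' A :=
    ⟨hdb.1, hs.der cx.T s cx.K cx.D A cx.T_sub hM cx.der hdb _ (s.R0_le_H k _ hyR), hdb.2.2⟩
  obtain ⟨E, hE0, hE, h, hh, eL⟩ := low_terms (s' := s') hμ hμp rfl rfl rfl haR hy' hN1
    (L := L) (fun x hx => ps.supp x (hLs x hx).1) fun x hx => by
      linarith [hall x (hLs x hx).1 (hlt x (hLs x hx).2), ps.β0]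
  have hE1 : ∀ x ∈ E.support, P.β + (μ0 + μ) ≤ x.1 ∧ 0 < P.dfc x := by
    intro x hx
    obtain ⟨x0, h0, h1, h2⟩ := hE x hx
    have h3 := ps.dfc_nonneg (hLs x0 h0).1
    have h4 : (x0.2.2 : ℝ) * P.δ ≤ x.2.2 * P.δ :=
      mul_le_mul_of_nonneg_right (by exact_mod_cast h2) ps.δ0
    rw [P.dfc_eq] at h3 ⊢
    exact ⟨by linarith [hall x0 (hLs x0 h0).1 (hlt x0 (hLs x0 h0).2)], by linarith⟩
  have eT : s.ev k (Finsupp.single P.top t) + s.ev k J = s'.ev k (Finsupp.single P.top t) := by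
    rw [s.ev_single k, s'.ev_single k, s.ev_eq_sum k]
    have : ∑ x ∈ J.support, algebraMap k Ω (J x) * (s.mon x.1 * s.y ^ x.2.1 * s.z ^ x.2.2) =
        algebraMap k Ω t * (s.mon P.β * (s.mon μ * a) * s.z ^ P.s) := by
      simp only [ha, Finset.mul_sum, Finset.sum_mul]
      refine Finset.sum_congr rfl fun x hx => ?_
      have h1 := ps.supp x (hJs x hx).1
      have h2 := s.mon_ne_zero hβ
      have h3 := s.mon_ne_zero hμ
      have h4 : algebraMap k Ω t ≠ 0 := (_root_.map_ne_zero _).2 ht0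
      obtain ⟨m, hm⟩ := Nat.exists_eq_add_of_le (hJs x hx).2.1
      simp only [c]
      rw [s.mon_sub (s.Λ.sub_mem h1 hβ) hμ, s.mon_sub h1 hβ, map_div₀, hm, Nat.add_sub_cancel_left,
        pow_add]
      field_simp
    rw [this]
    simp only [Par.top, hε, pow_one, hy']
    change _ = _ * (s.mon P.β * _ * s.z ^ P.s)
    ring
  set Φ1 := Finsupp.single P.top t + (L + E) with hΦ1
  have hv : ∀ x : Pt, x ∉ E.support → (x.2.2 < P.s ∨ x = P.top) → Φ1 x = Φ x := by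
    intro x hx h
    rw [Finsupp.notMem_support_iff] at hx
    rcases h with h | rfl
    · simp [hΦ1, hx, hL, h, (hlt x h).symm]
    · have h5 : L P.top = 0 := Finsupp.filter_apply_neg _ _ (lt_irrefl P.s)
      simp [hΦ1, hx, h5, ht]
  have hsup : ∀ x ∈ Φ1.support, x = P.top ∨ (x ∈ Φ.support ∧ x.2.2 < P.s) ∨ x ∈ E.support := by
    intro x hx
    rcases Finset.mem_union.1 (Finsupp.support_add hx) with h | h
    · exact Or.inl (Finset.mem_singleton.1 (Finsupp.support_single_subset h))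
    · exact Or.inr ((Finset.mem_union.1 (Finsupp.support_add h)).imp_left (hLs x))
  have hS1 : Supp s.Λ Φ1 := fun x hx => by
    rcases hsup x hx with rfl | h | h
    exacts [hβ, ps.supp x h.1, hE0 x h]
  have hhH : h ∈ s'.H k cx.T := hn.H_le (s.R0_le_H k _ hh)
  have rep1 : Rp p cx s' Φ1 (r + s'.mon N1 * h) := by
    refine rep.transport hn hS1 ?_
    conv_rhs => rw [hΦ]
    rw [hΦ1, map_add, map_add (s.ev k), map_add (s.ev k), eT, eL]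
    change _ + (r + s.mon N1 * h) = _
    ring
  have hvc : ∀ x : Pt, x.2.2 ≤ P.s → P.dfc x = 0 → P.cod x = 0 →
      cln cx.fl p s.Λ Φ1 x = Φ x := by
    intro x h1 h2 h3
    have h4 : Φ1 x = Φ x := hv x (fun h => (hE1 x h).2.ne' h2) (h1.lt_or_eq.imp_right fun h =>
      P.eq_of_vtx h (h2.trans P.dfc_top.symm) (h3.trans P.cod_top.symm))
    rw [cln_apply, h4]
    split_ifs with h5
    · by_contra h6
      exact ps.ess x (Finsupp.mem_support_iff.2 (Ne.symm h6)) h5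
    · rfl
  have hall' : ∀ x ∈ (cln cx.fl p s.Λ Φ1).support, x ≠ P.top → P.β + μ0 ≤ x.1 ∧
      (P.s ≤ x.2.2 → P.β + (μ0 + μ) ≤ x.1) := by
    intro x hx h
    rcases hsup x (mem_cln_support.1 hx).1 with h1 | h1 | h1
    · exact absurd h1 h
    · exact ⟨hall x h1.1 h, fun h2 => absurd h1.2 h2.not_gt⟩
    · exact ⟨by linarith [(hE1 x h1).1], fun _ => (hE1 x h1).1⟩
  have ps' : PS cx.fl p s'.Λ (cln cx.fl p s.Λ Φ1) P := by
    refine ⟨hS1.cln, fun x hx => (mem_cln_support.1 hx).2, ?_, ps.eps, ps.two, ps.β0, ps.δ0,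
      ps.pos, ps.typ, fun x hx h => ?_, fun x hx h1 h2 => ?_, ps.rat⟩
    · rw [Finsupp.mem_support_iff, hvc _ le_rfl P.dfc_top P.cod_top]; exact ht0
    · rcases hsup x (mem_cln_support.1 hx).1 with h1 | h1 | h1
      exacts [absurd h1 (hlt x h), ps.low x h1.1 h, Or.inl (hE1 x h1).2]
    · have := (hall' x hx h2).1
      exact ⟨by linarith, Or.inl (by linarith)⟩
  obtain ⟨hr1, hr2⟩ := rem_add hs ⟨s, Φ, P, r, N, rep, hNm, rem, ps, room⟩ hn hdb' hN1 hN hexp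
    hdr hhH
  exact ⟨⟨s', _, P, _, N, hr.clean cx s' Φ1 _ rep1, hNm, hr1, ps', room⟩, rfl, rfl, rfl, rfl, hdb',
    hr2, vtx_congr hvc, fun x hx h => (hall' x hx h).1, fun x hx h1 h => (hall' x hx h).2 h1⟩

open Classical in
theorem cut (hs : HS k Ω) (X : WS p cx) {A μ0 μ N1 : ℝ} (hN1 : N1 ∈ X.s.Λ) (hN : X.N ≤ N1)
    (hμ : N1 ≤ X.P.β + μ) (hexp : Real.exp (A - N1) < ‖cx.D cx.f‖) (hk : Keep X X A μ0 μ) :
    ∃ Y : WS p cx, Keep X Y A μ0 μ ∧ Exact Y.Φ Y.P := by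
  obtain ⟨-, -, -, -, hdb, hdr, -, hall, hj⟩ := hk
  set Q : Pt → Prop := fun x => X.P.s ≤ x.2.2 ∧ x ≠ X.P.top
  set J := X.Φ.filter Q with hJ
  set L := X.Φ.filter fun x => ¬ Q x with hL
  have hJs : ∀ x ∈ J.support, x ∈ X.Φ.support ∧ Q x := fun x hx => by
    simpa [hJ, Finsupp.support_filter] using hx
  have hLs : ∀ x, x ∈ L.support ↔ x ∈ X.Φ.support ∧ ¬ Q x := fun x => by
    rw [hL, Finsupp.support_filter, Finset.mem_filter]
  obtain ⟨a, ha, e⟩ := X.s.ev_eq_mon_mul (Φ := J) (fun x hx => X.ps.supp x (hJs x hx).1) hN1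
    fun x hx => hμ.trans (hj x (hJs x hx).1 (hJs x hx).2.1 (hJs x hx).2.2)
  obtain ⟨hr1, hr2⟩ := rem_add hs X (Nx.refl _ _) hdb hN1 hN hexp hdr (X.s.R0_le_H k _ ha)
  have hS : Supp X.s.Λ L := fun x hx => X.ps.supp x ((hLs x).1 hx).1
  have rep : Rp p cx X.s L (X.r + X.s.mon N1 * a) := by
    refine X.rep.congr hS ?_
    conv_rhs => rw [← Finsupp.filter_add_filter_not X.Φ Q]
    rw [map_add, ← hJ, ← hL, e]; ring
  have ps := X.ps
  have ps' : PS cx.fl p X.s.Λ L X.P :=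
    ⟨hS, fun x hx => ps.ess x ((hLs x).1 hx).1, (hLs _).2 ⟨ps.top, fun h => h.2 rfl⟩, ps.eps,
      ps.two, ps.β0, ps.δ0, ps.pos, ps.typ, fun x hx => ps.low x ((hLs x).1 hx).1,
      fun x hx => ps.junk x ((hLs x).1 hx).1, ps.rat⟩
  refine ⟨⟨X.s, L, X.P, _, X.N, rep, X.N_mem, hr1, ps', X.room⟩, ⟨rfl, rfl, rfl, rfl, hdb, hr2,
    vtx_congr fun x h1 h2 h3 => ?_, fun x hx => hall x ((hLs x).1 hx).1,
    fun x hx => hj x ((hLs x).1 hx).1⟩, fun _ x hx h => ?_⟩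
  · refine Finsupp.filter_apply_pos _ _ fun h => h.2 (X.P.eq_of_vtx (le_antisymm h1 h.1)
      (h2.trans X.P.dfc_top.symm) (h3.trans X.P.cod_top.symm))
  · by_contra h'
    exact ((hLs x).1 hx).2 ⟨h, h'⟩

omit [IsUltrametricDist Ω] [Ctx k Ω] in
theorem Keep.self {X Y : WS p cx} {A μ0 μ : ℝ} (h : Keep X Y A μ0 μ) : Keep Y Y A μ0 μ :=
  ⟨rfl, rfl, rfl, rfl, h.2.2.2.2.1, h.2.2.2.2.2.1, rfl, h.2.2.2.2.2.2.2⟩

omit [IsUltrametricDist Ω] [Ctx k Ω] in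
theorem Keep.trans {X Y Z : WS p cx} {A μ0 μ μ' : ℝ} (h : Keep X Y A μ0 μ)
    (h' : Keep Y Z A μ0 μ') : Keep X Z A μ0 μ' :=
  ⟨h'.1.trans h.1, h'.2.1.trans h.2.1, h'.2.2.1.trans h.2.2.1, h'.2.2.2.1.trans h.2.2.2.1,
    h'.2.2.2.2.1, h'.2.2.2.2.2.1, h'.2.2.2.2.2.2.1.trans h.2.2.2.2.2.2.1, h'.2.2.2.2.2.2.2⟩

end NfdM

open NfdM in
theorem nfd [Ctx k Ω] {p : ℕ} [Fact p.Prime] (hs : HS k Ω) (hr : RS k Ω p) : NfdStmt k Ω p := by
  intro cx X A hε hβ hdb hdr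
  obtain ⟨μ0, hm, h0, hall⟩ : ∃ μ0 ∈ X.s.Λ, 0 < μ0 ∧
      ∀ x ∈ X.Φ.support, x ≠ X.P.top → X.P.β + μ0 ≤ x.1 := by
    classical
    rcases (X.Φ.support.erase X.P.top).eq_empty_or_nonempty with h | h
    · obtain ⟨μ0, h1, h2⟩ := X.s.exists_gt 0
      exact ⟨μ0, h1, h2, fun x hx hx' => absurd (Finset.mem_erase.2 ⟨hx', hx⟩) (by simp [h])⟩
    · obtain ⟨x0, h1, h2⟩ := Finset.exists_min_image _ (fun x : Pt => x.1) h
      rw [Finset.mem_erase] at h1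
      exact ⟨x0.1 - X.P.β, X.s.Λ.sub_mem (X.ps.supp _ h1.2) (X.ps.supp _ X.ps.top),
        sub_pos.2 (hβ _ h1.2 h1.1), fun x hx hx' => by
          linarith [h2 x (Finset.mem_erase.2 ⟨hx', hx⟩)]⟩
  obtain ⟨N1, hN1, hN, hexp⟩ := exists_level_lt X.s cx.Df A X.N
  have key : ∀ n : ℕ, ∃ Y : WS p cx, Keep X Y A μ0 ((n + 1) * μ0) := by
    intro n
    induction n with
    | zero => exact ⟨X, rfl, rfl, rfl, rfl, hdb, hdr, rfl, hall, fun x hx _ h => by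
        simpa using hall x hx h⟩
    | succ n ih =>
      obtain ⟨Y, hY⟩ := ih
      have hmem : ((n : ℝ) + 1) * μ0 ∈ Y.s.Λ := by
        rw [hY.2.2.1]; simpa using X.s.Λ.nsmul_mem hm (n + 1)
      obtain ⟨Z, hZ⟩ := round hs hr Y (hY.1 ▸ hε) h0 hmem (by positivity) (hY.2.2.1 ▸ hN1)
        (hY.2.1 ▸ hN.le) hexp hY.self
      refine ⟨Z, hY.trans ?_⟩
      rwa [show μ0 + ((n : ℝ) + 1) * μ0 = ((n + 1 : ℕ) + 1) * μ0 by push_cast; ring] at hZ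
  obtain ⟨n, hn⟩ := exists_nat_ge (N1 / μ0)
  obtain ⟨Y, hY⟩ := key n
  rw [div_le_iff₀ h0] at hn
  obtain ⟨Z, hZ, he⟩ := cut hs Y (hY.2.2.1 ▸ hN1) (hY.2.1 ▸ hN.le)
    (by nlinarith [Y.ps.β0]) hexp hY.self
  obtain ⟨h1, h2, h3, h4, h5, h6, h7, h8, -⟩ := hY.trans hZ
  exact ⟨Z, h1, h2, h3, h4, h5, h6, he, h7, fun x hx h => by linarith [h8 x hx h]⟩

end Pool.Agent.MP_19ffc6_ag.LU2

end MrgPart0

-- ======== part 1: formerly Pool.Agent.MP_19ffc6_ag.LU2.Sh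
section MrgPart1

/-! PROJECT LU2, module SH: monomial shifts inside the polygon and rescaling of `y`. -/

namespace Pool.Agent.MP_19ffc6_ag.LU2

open Polynomial Pool.Agent.MP_19ffc6_ag.LU

variable {k : Type*} [Field k] {p : ℕ}

namespace ShM

variable {fl : Prop} {Λ : AddSubgroup ℝ} {Φ : Pol2 k} {P : Par} {a : ℝ} {m : ℕ} {c : k}

/-- The parent of a term after a shift. -/
theorem parent {x' : Pt} (h : x' ∈ (cln fl p Λ (shp a (monomial m c) Φ)).support) (P : Par) :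
    ∃ x ∈ Φ.support, ∃ n : ℕ, x'.1 = x.1 + n * a ∧ x'.2.1 = x.2.1 + n * m ∧ x'.2.2 + n = x.2.2 ∧
      P.dfc x' = P.dfc x + n * (a - P.δ) ∧ P.cod x' = P.cod x + n * (P.b - m) := by
  obtain ⟨x, hx, n, -, -, h1, h2, h3⟩ := shp_mono_support (mem_cln_support.1 h).1
  refine ⟨x, hx, n, h1, h2, h3, P.dfc_shift h1 h3, ?_⟩
  rw [P.cod_shift h2 h3]
  push_cast
  ring

theorem eq_of_zero {x x' : Pt} (h1 : x'.1 = x.1 + (0 : ℕ) * a) (h2 : x'.2.1 = x.2.1 + 0 * m)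
    (h3 : x'.2.2 + 0 = x.2.2) : x' = x := by
  refine Prod.ext ?_ (Prod.ext ?_ ?_)
  · simpa using h1
  · simpa using h2
  · simpa using h3

/-- A coefficient that is not changed by the shift is not changed by the cleaning either. -/
theorem cln_eq (h : PS fl p Λ Φ P) {Ψ : Pol2 k} {x : Pt} (he : Ψ x = Φ x) :
    cln fl p Λ Ψ x = Φ x := by
  by_cases hp : PW2 fl p Λ x
  · have h0 : Φ x = 0 := by
      by_contra h0
      exact h.ess x (Finsupp.mem_support_iff.2 h0) hp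
    rw [cln_apply, if_pos hp, h0]
  · rw [cln_apply_of_not hp, he]

theorem delta_le (ha : P.δ < a ∨ (P.δ = a ∧ P.b ≤ m)) : P.δ ≤ a := ha.elim le_of_lt fun h => h.1.le

theorem top_eq (h : PS fl p Λ Φ P) (ha : P.δ ≤ a) :
    cln fl p Λ (shp a (monomial m c) Φ) P.top = Φ P.top := by
  refine cln_eq h (shp_mono_apply_self fun x0 hx0 n hn _ h1 h2 h3 => ?_)
  have e1 : P.β = x0.1 + n * a := h1
  have e2 : P.ε = x0.2.1 + n * m := h2
  have e3 : P.s + n = x0.2.2 := h3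
  have hne : x0 ≠ P.top := by
    rintro rfl
    have : P.s + n = P.s := e3
    omega
  have ha0 : 0 ≤ (n : ℝ) * a := mul_nonneg (Nat.cast_nonneg n) (h.δ0.trans ha)
  rcases (h.junk x0 hx0 (by omega) hne).2 with h4 | h4
  · linarith
  · omega

theorem ps (h : PS fl p Λ Φ P) (hΛ : a ∈ Λ) (ha : P.δ < a ∨ (P.δ = a ∧ P.b ≤ m)) :
    PS fl p Λ (cln fl p Λ (shp a (monomial m c) Φ)) P where
  supp := (h.supp.shp fun _ => hΛ).cln
  ess := fun _ hx => (mem_cln_support.1 hx).2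
  top := by
    rw [Finsupp.mem_support_iff, top_eq h (delta_le ha)]
    exact h.top_ne
  eps := h.eps
  two := h.two
  β0 := h.β0
  δ0 := h.δ0
  pos := h.pos
  typ := h.typ
  low := by
    intro x' hx' _
    obtain ⟨x, hx, n, -, -, -, e1, e2⟩ := parent hx' P
    have hn : (0 : ℝ) ≤ n := Nat.cast_nonneg n
    have h1 := h.dfc_nonneg hx
    have h2 : 0 ≤ (n : ℝ) * (a - P.δ) := mul_nonneg hn (sub_nonneg.2 (delta_le ha))
    rcases (add_nonneg h1 h2).eq_or_lt with h3 | h3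
    · right
      have h4 : P.dfc x = 0 := by linarith
      have h5 : (n : ℝ) * (a - P.δ) = 0 := by linarith
      have h6 := h.cod_nonpos hx h4
      refine ⟨by linarith, ?_⟩
      rcases ha with ha | ha
      · have h7 : (n : ℝ) = 0 := (mul_eq_zero.1 h5).resolve_right (sub_pos.2 ha).ne'
        rw [e2, h7]; linarith
      · have h7 : (n : ℝ) * (P.b - m) ≤ 0 := mul_nonpos_of_nonneg_of_nonpos hn (sub_nonpos.2 ha.2)
        linarith
    · left; linarith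
  junk := by
    intro x' hx' hs hne
    obtain ⟨x, hx, n, e1, e2, e3, -, -⟩ := parent hx' P
    have hne' : x ≠ P.top := by
      rintro rfl
      have e4 : x'.2.2 + n = P.s := e3
      obtain rfl : n = 0 := by omega
      exact hne (eq_of_zero e1 e2 e3)
    have ha0 : 0 ≤ (n : ℝ) * a := mul_nonneg (Nat.cast_nonneg n) (h.δ0.trans (delta_le ha))
    obtain ⟨h1, h2⟩ := h.junk x hx (by omega) hne'
    refine ⟨by linarith, h2.imp (fun h3 => by linarith) fun h3 => by omega⟩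
  rat := h.rat

theorem exact (he : Exact Φ P) : Exact (cln fl p Λ (shp a (monomial m c) Φ)) P := by
  intro hε x' hx' hs
  obtain ⟨x, hx, n, e1, e2, e3, -, -⟩ := parent hx' P
  obtain rfl := he hε x hx (by omega)
  have e4 : x'.2.2 + n = P.s := e3
  obtain rfl : n = 0 := by omega
  exact eq_of_zero e1 e2 e3

/-- A shift that is not the vertex shift keeps the vertex terms. -/
theorem vtx_eq (h : PS fl p Λ Φ P) (ha : P.δ < a ∨ (P.δ = a ∧ P.b < m)) {x : Pt}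
    (h1 : P.dfc x = 0) (h2 : P.cod x = 0) : cln fl p Λ (shp a (monomial m c) Φ) x = Φ x := by
  refine cln_eq h (shp_mono_apply_self fun x0 hx0 n hn _ e1 e2 e3 => ?_)
  have hn' : (0 : ℝ) < n := Nat.cast_pos.2 hn
  have e4 := P.dfc_shift e1 e3
  have e5 := P.cod_shift e2 e3
  have h3 := h.dfc_nonneg hx0
  rcases ha with ha | ha
  · have := mul_pos hn' (sub_pos.2 ha)
    linarith
  · have h4 : P.dfc x0 = 0 := by
      rw [h1, ha.1, sub_self, mul_zero, add_zero] at e4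
      exact e4.symm
    have h5 := h.cod_nonpos hx0 h4
    have h6 := mul_pos hn' (sub_pos.2 ha.2)
    push_cast at e5
    nlinarith

theorem split (ha : P.δ < a ∨ (P.δ = a ∧ P.b ≤ m)) :
    (P.δ < a ∨ (P.δ = a ∧ P.b < m)) ∨ (P.δ = a ∧ P.b = m) := by
  rcases ha with ha | ⟨h1, h2⟩
  · exact Or.inl (Or.inl ha)
  · exact h2.lt_or_eq.imp (fun h3 => Or.inr ⟨h1, h3⟩) fun h3 => ⟨h1, h3⟩

theorem uns [Fact p.Prime] [CharP k p] (h : PS fl p Λ Φ P) (hΛ : a ∈ Λ)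
    (ha : P.δ < a ∨ (P.δ = a ∧ P.b ≤ m)) {g : ℕ} (hU : Uns fl p Λ Φ P g) :
    Uns fl p Λ (cln fl p Λ (shp a (monomial m c) Φ)) P g := by
  rcases split ha with ha | ⟨rfl, hb⟩
  · intro c' hc'
    rw [vtx_congr fun x _ h1 h2 => vtx_eq h ha h1 h2]
    exact hU c' hc'
  · intro c' _
    obtain ⟨i, h1, h2, h3, h4⟩ := hU (c' + c) fun _ => ⟨hΛ, m, hb⟩
    refine ⟨i, h1, h2, ?_, h4⟩
    rw [vtx_cln_shp hΛ hb c c' h.no_high h4]
    exact h3

theorem nox [CharP k p] (h : PS fl p Λ Φ P) (ha : P.δ < a ∨ (P.δ = a ∧ P.b ≤ m)) (hε : P.ε = 1)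
    (hb0 : P.b ≤ 0) (hX : NoX Φ P) : NoX (cln fl p Λ (shp a (monomial m c) Φ)) P := by
  intro x hx hs h1 h2 hsum
  refine hX x ?_ hs h1 h2 hsum
  rw [Finsupp.mem_support_iff] at hx ⊢
  rcases split ha with ha | ⟨rfl, hb⟩
  · rwa [vtx_eq h ha h1 h2] at hx
  · have hm : m = 0 := by
      have : (m : ℝ) ≤ 0 := hb ▸ hb0
      exact_mod_cast le_antisymm this (Nat.cast_nonneg m)
    have hb' : P.b = 0 := by rw [hb, hm, Nat.cast_zero]
    have hj : x.2.1 = 1 := by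
      have h3 : (P.ε : ℝ) + P.gap x * P.b - x.2.1 = 0 := h2
      rw [hb', hε, mul_zero, add_zero, sub_eq_zero] at h3
      exact_mod_cast h3.symm
    rwa [cln_eq h (shp_mono_apply_self fun x0 hx0 n hn hch e1 e2 e3 => ?_)] at hx
    have e4 := P.dfc_shift e1 e3
    have e5 := P.cod_shift e2 e3
    rw [h1, sub_self, mul_zero, add_zero] at e4
    rw [h2, hb', hm, mul_zero, add_zero, Nat.mul_zero, Nat.cast_zero, sub_zero] at e5
    by_cases hn1 : n = 1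
    · subst hn1
      have e6 : x0.2.2 = P.s := by omega
      rw [e6, Nat.choose_one_right] at hch
      exact hch ((CharP.cast_eq_zero_iff k p _).2 (h.typ hε).2.1)
    · exact h.no_high x0 hx0 (by omega) e4.symm e5.symm

theorem dsc {θ : ℝ} (hf : OnFace P θ a m) :
    Dsc Φ P (cln fl p Λ (shp a (monomial m c) Φ)) P θ 0 := by
  intro x' hx'
  obtain ⟨x, hx, n, -, -, -, e1, e2⟩ := parent hx' P
  have h1 : 0 ≤ (n : ℝ) * (P.b - m) := mul_nonneg (Nat.cast_nonneg n) (sub_nonneg.2 hf.1)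
  refine ⟨x, hx, by linarith, ?_⟩
  rw [e1, e2, hf.2]; ring

theorem of_face {θ : ℝ} (hθ : 0 < θ) (hf : OnFace P θ a m) : P.δ < a ∨ (P.δ = a ∧ P.b ≤ m) := by
  obtain ⟨h1, h2⟩ := hf
  rcases h1.lt_or_eq with h3 | h3
  · left
    have := mul_pos hθ (sub_pos.2 h3)
    linarith
  · right
    rw [← h3, sub_self, mul_zero, sub_eq_zero] at h2
    exact ⟨h2.symm, h3.ge⟩

/-! ### rescaling -/

/-- The parameters after the rescaling. -/
def sP (P : Par) (ζ : ℝ) : Par := ⟨P.β + P.ε * ζ, P.ε, P.s, P.δ + ζ * P.b, P.b⟩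

/-- The point after the rescaling. -/
def sx (ζ : ℝ) (x : Pt) : Pt := (x.1 + x.2.1 * ζ + x.2.2 * 0, x.2)

theorem sx_fst (ζ : ℝ) (x : Pt) : (sx ζ x).1 = x.1 + x.2.1 * ζ := by simp [sx]

theorem cod_sx (P : Par) (ζ : ℝ) (x : Pt) : (sP P ζ).cod (sx ζ x) = P.cod x := rfl

theorem dfc_sx (P : Par) (ζ : ℝ) (x : Pt) : (sP P ζ).dfc (sx ζ x) = P.dfc x - ζ * P.cod x := by
  simp only [Par.dfc, Par.cod, Par.gap, sP, sx]
  ring

theorem sx_top (P : Par) (ζ : ℝ) : sx ζ P.top = (sP P ζ).top := by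
  simp [sx, sP, Par.top]

theorem mem_sx {ζ : ℝ} {x' : Pt} :
    x' ∈ (scl ζ 0 Φ).support ↔ ∃ x ∈ Φ.support, x' = sx ζ x := mem_scl_support

theorem sx_neg (ζ : ℝ) (x : Pt) : sx ζ (sx (-ζ) x) = x := by
  refine Prod.ext ?_ rfl
  simp [sx]

variable {ζ : ℝ}

theorem dfc_sx_nonneg (h : PS fl p Λ Φ P) (hζ : 0 < ζ)
    (h1 : ∀ x ∈ Φ.support, 0 < P.cod x → ζ * P.cod x < P.dfc x) {x : Pt} (hx : x ∈ Φ.support) :
    0 < (sP P ζ).dfc (sx ζ x) ∨ ((sP P ζ).dfc (sx ζ x) = 0 ∧ (sP P ζ).cod (sx ζ x) ≤ 0) := by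
  rw [dfc_sx, cod_sx]
  rcases lt_or_ge 0 (P.cod x) with h2 | h2
  · left
    exact sub_pos.2 (h1 x hx h2)
  · have h3 := h.dfc_nonneg hx
    have h4 : ζ * P.cod x ≤ 0 := mul_nonpos_of_nonneg_of_nonpos hζ.le h2
    have h5 : 0 ≤ P.dfc x - ζ * P.cod x := by linarith
    exact h5.lt_or_eq.imp id fun h6 => ⟨h6.symm, h2⟩

theorem ps_sc (h : PS fl p Λ Φ P) (hb : 0 ≤ P.b) (hζ : 0 < ζ) (hm : PMul p Λ ζ)
    (h1 : ∀ x ∈ Φ.support, 0 < P.cod x → ζ * P.cod x < P.dfc x)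
    (h2 : ∀ x ∈ Φ.support, P.s ≤ x.2.2 → x ≠ P.top → P.β + P.ε * ζ < x.1 + x.2.1 * ζ) :
    PS fl p Λ (scl ζ 0 Φ) (sP P ζ) where
  supp := h.supp.scl (pmul_mem hm) Λ.zero_mem
  ess := by
    intro x' hx'
    obtain ⟨x, hx, rfl⟩ := mem_sx.1 hx'
    have h3 : PMul p Λ ((sx ζ x).1 - x.1) := by
      rw [sx_fst, add_sub_cancel_left]
      exact pmul_nat_mul hm _
    exact fun h4 => h.ess x hx ((pw2_congr h3 rfl).1 h4)
  top := mem_sx.2 ⟨P.top, h.top, (sx_top P ζ).symm⟩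
  eps := h.eps
  two := h.two
  β0 := add_nonneg h.β0 (mul_nonneg (Nat.cast_nonneg _) hζ.le)
  δ0 := add_nonneg h.δ0 (mul_nonneg hζ.le hb)
  pos := Or.inr hb
  typ := fun hε => ⟨(h.typ hε).1, (h.typ hε).2.1, pmul_add (h.typ hε).2.2 (pmul_nat_mul hm _)⟩
  low := by
    intro x' hx' _
    obtain ⟨x, hx, rfl⟩ := mem_sx.1 hx'
    exact dfc_sx_nonneg h hζ h1 hx
  junk := by
    intro x' hx' hs hne
    obtain ⟨x, hx, rfl⟩ := mem_sx.1 hx'
    have h3 := h2 x hx hs fun h4 => hne (by rw [h4, sx_top])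
    rw [← sx_fst] at h3
    exact ⟨h3.le, Or.inl h3⟩
  rat := h.rat

theorem vtx_sc (Φ : Pol2 k) (P : Par) (ζ : ℝ) : vtx (scl ζ 0 Φ) (sP P ζ) = vtx Φ P := by
  refine vtx_congr' rfl (sx ζ) (sx (-ζ)) (fun x _ h1 h2 => ⟨rfl, ?_, ?_, scl_apply ζ 0 Φ x⟩)
    fun x _ h1 h2 => ?_
  · rw [dfc_sx, h1, h2, mul_zero, sub_zero]
  · rw [cod_sx, h2]
  · rw [← sx_neg ζ x, cod_sx] at h2
    rw [← sx_neg ζ x, dfc_sx, h2, mul_zero, sub_zero] at h1
    exact ⟨rfl, h1, h2⟩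

theorem uns_sc (hm : PMul p Λ ζ) {g : ℕ} (hU : Uns fl p Λ Φ P g) :
    Uns fl p Λ (scl ζ 0 Φ) (sP P ζ) g := by
  refine hU.congr (vtx_sc Φ P ζ) rfl rfl rfl fun n hn => ⟨?_, ?_⟩
  · have : (sP P ζ).δ - P.δ = n * ζ := by
      simp only [sP, hn]; ring
    rw [this]
    exact pmul_nat_mul hm n
  · have : (sP P ζ).lev - P.lev = ((P.ε + P.s * n : ℕ) : ℝ) * ζ := by
      simp only [sP, Par.lev, hn]; push_cast; ring
    rw [this]
    exact pmul_nat_mul hm _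

theorem lev_sc (h : PS fl p Λ Φ P) (hζ : 0 < ζ)
    (h1 : ∀ x ∈ Φ.support, 0 < P.cod x → ζ * P.cod x < P.dfc x)
    (h2 : ∀ x ∈ Φ.support, P.s ≤ x.2.2 → x ≠ P.top → P.β + P.ε * ζ < x.1 + x.2.1 * ζ)
    (hδ : 0 < P.δ + ζ * P.b) {x' : Pt} (hx' : x' ∈ (scl ζ 0 Φ).support)
    (hne : x' ≠ (sP P ζ).top) : P.β + P.ε * ζ < x'.1 := by
  obtain ⟨x, hx, rfl⟩ := mem_sx.1 hx'
  rcases lt_or_ge x.2.2 P.s with hs | hs
  · have h3 : 0 ≤ (sP P ζ).dfc (sx ζ x) :=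
      (dfc_sx_nonneg h hζ h1 hx).elim le_of_lt fun h4 => h4.1.ge
    have h4 : (sP P ζ).dfc (sx ζ x) =
        (sx ζ x).1 - (P.β + P.ε * ζ) - ((P.s : ℝ) - x.2.2) * (P.δ + ζ * P.b) := rfl
    have h5 : (0 : ℝ) < (P.s : ℝ) - x.2.2 := sub_pos.2 (Nat.cast_lt.2 hs)
    have h6 := mul_pos h5 hδ
    linarith
  · rw [sx_fst]
    exact h2 x hx hs fun h4 => hne (by rw [h4, sx_top])

theorem small (h : PS fl p Λ Φ P) : ∃ e, 0 < e ∧ ∀ ζ, 0 < ζ → ζ < e →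
    (∀ x ∈ Φ.support, 0 < P.cod x → ζ * P.cod x < P.dfc x) ∧
    ∀ x ∈ Φ.support, P.s ≤ x.2.2 → x ≠ P.top → P.β + P.ε * ζ < x.1 + x.2.1 * ζ := by
  obtain ⟨e₁, he₁, h₁⟩ := exists_pos_lower Φ.support (fun x => 0 < P.cod x)
    (fun x => P.dfc x / P.cod x) fun x hx h0 => div_pos (h.dfc_pos hx h0) h0
  obtain ⟨e₂, he₂, h₂⟩ := exists_pos_lower Φ.support (fun x => P.β < x.1)
    (fun x => x.1 - P.β) fun x _ h0 => sub_pos.2 h0
  refine ⟨min e₁ e₂, lt_min he₁ he₂, fun ζ hζ hlt => ⟨fun x hx h0 => ?_, fun x hx hs hne => ?_⟩⟩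
  · exact (lt_div_iff₀ h0).1 ((hlt.trans_le (min_le_left _ _)).trans_le (h₁ x hx h0))
  · obtain ⟨h3, h4⟩ := h.junk x hx hs hne
    rcases h4 with h4 | h4
    · have h5 : ζ < x.1 - P.β := (hlt.trans_le (min_le_right _ _)).trans_le (h₂ x hx h4)
      have h6 : (P.ε : ℝ) ≤ 1 := by exact_mod_cast h.eps
      have h7 : 0 ≤ (x.2.1 : ℝ) * ζ := mul_nonneg (Nat.cast_nonneg _) hζ.le
      have h8 : (P.ε : ℝ) * ζ ≤ 1 * ζ := mul_le_mul_of_nonneg_right h6 hζ.le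
      linarith
    · have h5 : (P.ε : ℝ) * ζ < x.2.1 * ζ := mul_lt_mul_of_pos_right (Nat.cast_lt.2 h4) hζ
      linarith

end ShM

theorem sh [Fact p.Prime] [CharP k p] : ShStmt k p := fun _ _ _ _ _ _ _ h hΛ ha =>
  ⟨ShM.ps h hΛ ha, ShM.exact, fun _ hU => ShM.uns h hΛ ha hU, ShM.nox h ha,
    fun _ hf => ShM.dsc hf⟩

theorem shs [Fact p.Prime] [CharP k p] : ShsStmt k p := by
  intro fl Λ Φ Φ' P θ hθ h hs
  have key : PS fl p Λ Φ' P ∧ (Exact Φ P → Exact Φ' P) ∧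
      (∀ g, Uns fl p Λ Φ P g → Uns fl p Λ Φ' P g) ∧ Dsc Φ P Φ' P θ 0 := by
    induction hs with
    | refl => exact ⟨h, id, fun _ => id, Dsc.refl Φ P θ⟩
    | tail _ h2 ih =>
      obtain ⟨a, m, c, hΛ, hf, rfl⟩ := h2
      obtain ⟨i1, i2, i3, i4⟩ := ih
      have ha := ShM.of_face hθ hf
      exact ⟨ShM.ps i1 hΛ ha, fun he => ShM.exact (i2 he),
        fun g hU => ShM.uns i1 hΛ ha (i3 g hU), i4.trans (ShM.dsc hf)⟩
  exact ⟨key.1, key.2.1, key.2.2.1, key.2.2.2, key.2.2.2.above⟩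

theorem sc : ScStmt k p := fun _ _ _ _ h hb =>
  ⟨fun _ hζ hm h1 h2 => ⟨ShM.ps_sc h hb hζ hm h1 h2, fun _ hU => ShM.uns_sc hm hU,
    fun hδ _ hx hne => ShM.lev_sc h hζ h1 h2 hδ hx hne⟩, ShM.small h⟩

end Pool.Agent.MP_19ffc6_ag.LU2

end MrgPart1

-- ======== part 2: formerly Pool.Agent.MP_19ffc6_ag.LU2.Start
section MrgPart2

/-! PROJECT LU2, module START: from unique bottom monomials to states of the engine. -/

namespace Pool.Agent.MP_19ffc6_ag.LU2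

open Polynomial IntermediateField Pool.Agent.MP_19ffc6_ag.LU

namespace StartM

/-! ### Polygon side -/

section poly

variable {k : Type*} [Field k] {fl : Prop} {p : ℕ} {Λ : AddSubgroup ℝ} {Φ Ψ : Pol2 k} {P : Par}

theorem dfc_pos_of_le (hδ : 0 ≤ P.δ) {N : ℝ} (hN : P.lev < N) {x : Pt} (hx : N ≤ x.1) :
    0 < P.dfc x := by
  rw [P.dfc_eq]
  have := mul_nonneg (Nat.cast_nonneg (α := ℝ) x.2.2) hδ
  linarith

theorem β_le_lev (hδ : 0 ≤ P.δ) : P.β ≤ P.lev := by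
  have := mul_nonneg (Nat.cast_nonneg (α := ℝ) P.s) hδ
  unfold Par.lev
  linarith

/-- Terms beyond the level of the vertical edge do not change the polygon state. -/
theorem ps_add {N : ℝ} (h : PS fl p Λ Φ P) (hΨ : Supp Λ Ψ) (hN : P.lev < N)
    (hl : ∀ x ∈ Ψ.support, N ≤ x.1) :
    PS fl p Λ (cln fl p Λ (Φ + Ψ)) P ∧ vtx (cln fl p Λ (Φ + Ψ)) P = vtx Φ P ∧
      ∀ x ∈ (cln fl p Λ (Φ + Ψ)).support, x ∈ Φ.support ∨ N ≤ x.1 := by
  classical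
  have hmem : ∀ x ∈ (cln fl p Λ (Φ + Ψ)).support, x ∈ Φ.support ∨ N ≤ x.1 := by
    intro x hx
    rcases Finset.mem_union.1 (Finsupp.support_add (mem_cln_support.1 hx).1) with h1 | h1
    · exact Or.inl h1
    · exact Or.inr (hl x h1)
  have hval : ∀ x, P.dfc x = 0 → cln fl p Λ (Φ + Ψ) x = Φ x := by
    intro x hx
    have h0 : Ψ x = 0 := by
      by_contra h1
      exact (dfc_pos_of_le h.δ0 hN (hl x (Finsupp.mem_support_iff.2 h1))).ne' hx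
    rw [cln_apply]
    split_ifs with hp
    · by_contra h1
      exact h.ess x (Finsupp.mem_support_iff.2 (Ne.symm h1)) hp
    · rw [Finsupp.add_apply, h0, add_zero]
  refine ⟨⟨(h.supp.add hΨ).cln, fun x hx => (mem_cln_support.1 hx).2, ?_, h.eps, h.two, h.β0,
    h.δ0, h.pos, h.typ, fun x hx hs => ?_, fun x hx hs ht => ?_, h.rat⟩,
    vtx_congr fun x _ hx _ => hval x hx, hmem⟩
  · rw [Finsupp.mem_support_iff, hval _ P.dfc_top]
    exact h.top_ne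
  · rcases hmem x hx with h1 | h1
    · exact h.low x h1 hs
    · exact Or.inl (dfc_pos_of_le h.δ0 hN h1)
  · rcases hmem x hx with h1 | h1
    · exact h.junk x h1 hs ht
    · have h2 : P.β < x.1 := (β_le_lev h.δ0).trans_lt (hN.trans_le h1)
      exact ⟨h2.le, Or.inl h2⟩

/-- A single monomial is a polygon state. -/
theorem ps_single {B : ℝ} {ε μ : ℕ} {t : k} (ht : t ≠ 0) (hB : B ∈ Λ) (h0 : 0 ≤ B)
    (hw : ¬ PW2 fl p Λ (B, ε, μ)) (hε : ε ≤ 1) (hμ : 2 ≤ μ)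
    (hty : ε = 1 → fl ∧ p ∣ μ ∧ PMul p Λ B) :
    PS fl p Λ (Finsupp.single (B, ε, μ) t) ⟨B, ε, μ, 0, 1⟩ := by
  have hsup : ∀ x ∈ (Finsupp.single ((B, ε, μ) : Pt) t).support, x = (B, ε, μ) := fun x hx =>
    Finset.mem_singleton.1 (Finsupp.support_single_subset hx)
  refine ⟨Supp.single hB t, fun x hx => by rw [hsup x hx]; exact hw, ?_, hε, hμ, h0, le_rfl,
    Or.inr zero_le_one, hty, fun x hx hs => ?_, fun x hx _ hne => absurd (hsup x hx) hne,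
    ⟨μ.factorial, by simp⟩⟩
  · rw [Finsupp.mem_support_iff]
    simpa [Par.top] using ht
  · rw [hsup x hx] at hs
    exact absurd hs (lt_irrefl _)

/-- If the top is the only term of least level, the slope of the vertex is arbitrary. -/
theorem ps_slope (h : PS fl p Λ Φ P) (hδ : P.δ = 0)
    (hl : ∀ x ∈ Φ.support, x ≠ P.top → P.β < x.1) (m : ℕ) :
    PS fl p Λ Φ ⟨P.β, P.ε, P.s, P.δ, m⟩ := by
  refine ⟨h.supp, h.ess, h.top, h.eps, h.two, h.β0, h.δ0, Or.inr (Nat.cast_nonneg m), h.typ,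
    fun x hx hs => Or.inl ?_, h.junk, ⟨m * P.s.factorial, by simp⟩⟩
  have hne : x ≠ P.top := by
    rintro rfl
    exact lt_irrefl _ hs
  have := hl x hx hne
  simp only [Par.dfc, hδ, mul_zero]
  linarith

/-- The expansion of `t * mon B * z ^ j * (z + y) ^ i`. -/
noncomputable def bin (B : ℝ) (j i : ℕ) (t : k) : Pol2 k :=
  ∑ n ∈ Finset.range (i + 1), Finsupp.single (B, i - n, j + n) (t * (i.choose n : k))

theorem swp_shp_single (B : ℝ) (j i : ℕ) (t : k) :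
    swp (shp 0 X (Finsupp.single (B, j, i) t)) = bin B j i t := by
  rw [shp_single, swp, Finsupp.mapDomain_finsetSum, bin]
  refine Finset.sum_congr rfl fun n _ => ?_
  rw [monomial_mul_X_pow, emb_monomial, Finsupp.mapDomain_single]
  simp

theorem bin_support {B : ℝ} {j i : ℕ} {t : k} {x : Pt} (hx : x ∈ (bin B j i t).support) :
    x.1 = B ∧ x.2.1 + x.2.2 = j + i := by
  classical
  obtain ⟨n, hn, h⟩ := Finset.mem_biUnion.1 (Finsupp.support_finsetSum hx)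
  have h1 := Finset.mem_singleton.1 (Finsupp.support_single_subset h)
  have h2 := Finset.mem_range.1 hn
  subst h1
  exact ⟨rfl, by simp only; omega⟩

theorem bin_apply (B : ℝ) (j i : ℕ) (t : k) {e : ℕ} (he : e ≤ j + i) :
    bin B j i t (B, j + i - e, e) = (C t * (X ^ j * (X + 1) ^ i)).coeff e := by
  classical
  rw [bin, Finsupp.finsetSum_apply, coeff_C_mul, coeff_X_pow_mul']
  split_ifs with hj
  · rw [Finset.sum_eq_single (e - j), coeff_X_add_one_pow]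
    · have h1 : i - (e - j) = j + i - e := by omega
      have h2 : j + (e - j) = e := by omega
      rw [h1, h2, Finsupp.single_eq_same]
    · intro n _ hne
      refine Finsupp.single_eq_of_ne fun h => hne ?_
      have := congrArg (fun x : Pt => x.2.2) h
      simp only at this
      omega
    · intro h
      exact absurd (Finset.mem_range.2 (by omega)) h
  · rw [mul_zero]
    refine Finset.sum_eq_zero fun n _ => Finsupp.single_eq_of_ne fun h => hj ?_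
    have := congrArg (fun x : Pt => x.2.2) h
    simp only at this
    omega

theorem natDegree_bin (j i : ℕ) (t : k) :
    (C t * (X ^ j * (X + 1) ^ i) : k[X]).natDegree ≤ j + i := by
  compute_degree

theorem vtx_bin (B : ℝ) (j i : ℕ) (t : k) :
    vtx (bin B j i t) ⟨B, 0, j + i, 0, 1⟩ = C t * (X ^ j * (X + 1) ^ i) := by
  ext e
  by_cases he : e ≤ j + i
  · rw [vtx_coeff_nat (m := 1) _ (by simp) he, ← bin_apply B j i t he]
    simp
  · rw [coeff_eq_zero_of_natDegree_lt ((vtx_natDegree_le _ _).trans_lt (not_le.1 he)),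
      coeff_eq_zero_of_natDegree_lt ((natDegree_bin j i t).trans_lt (not_le.1 he))]

theorem ps_bin {B : ℝ} {j i : ℕ} {t : k} (ht : t ≠ 0) (hB : B ∈ Λ) (h0 : 0 ≤ B) (hj : 0 < j)
    (hi : 0 < i) (hw : ¬ (fl ∧ PMul p Λ B ∧ p ∣ j + i)) :
    PS fl p Λ (bin B j i t) ⟨B, 0, j + i, 0, 1⟩ := by
  refine ⟨fun x hx => by rw [(bin_support hx).1]; exact hB, fun x hx hp => hw ⟨hp.1, ?_, ?_⟩, ?_,
    zero_le_one, by simp only; omega, h0, le_rfl, Or.inr zero_le_one,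
    fun h => absurd h zero_ne_one, fun x hx _ => Or.inr ⟨?_, ?_⟩, fun x hx hs hne => ?_,
    ⟨(j + i).factorial, by simp⟩⟩
  · rw [← (bin_support hx).1]
    exact hp.2.1
  · rw [← (bin_support hx).2]
    exact dvd_add hp.2.2.1 hp.2.2.2
  · have h1 := bin_apply B j i t le_rfl
    rw [Nat.sub_self, coeff_C_mul, coeff_X_pow_mul', if_pos (Nat.le_add_right j i),
      Nat.add_sub_cancel_left, coeff_X_add_one_pow, Nat.choose_self, Nat.cast_one, mul_one] at h1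
    exact Finsupp.mem_support_iff.2 (ne_of_eq_of_ne h1 ht)
  · simp [Par.dfc, (bin_support hx).1]
  · have h1 : (x.2.1 : ℝ) + x.2.2 = j + i := by exact_mod_cast (bin_support hx).2
    simp only [Par.cod, Par.gap]
    push_cast
    linarith
  · exfalso
    obtain ⟨h1, h2⟩ := bin_support hx
    simp only at hs
    refine hne (Prod.ext h1 (Prod.ext ?_ ?_))
    · simp only [Par.top]
      omega
    · simp only [Par.top]
      omega

theorem not_vcl {B : ℝ} {μ : ℕ} (hw : ¬ (fl ∧ PMul p Λ B ∧ p ∣ μ)) :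
    ¬ VCl fl p Λ ⟨B, 0, μ, 0, 1⟩ := by
  rintro ⟨h1, -, h2, m, h3, h4⟩
  have h3' : (1 : ℝ) = m := h3
  have h5 : m = 1 := by exact_mod_cast h3'.symm
  refine hw ⟨h1, by simpa [Par.lev] using h2, by simpa [h5] using h4⟩

theorem taylor_bin (j i : ℕ) (t c : k) :
    taylor c (C t * (X ^ j * (X + 1) ^ i)) = C t * ((X + C c) ^ j * (X + C c + 1) ^ i) := by
  simp [taylor_apply]

/-- A polynomial with two different roots is not a pure power after a shift. -/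
theorem exists_low_coeff {j i : ℕ} {t : k} (ht : t ≠ 0) (hj : 0 < j) (hi : 0 < i) (c : k) :
    ∃ e < j + i, (taylor c (C t * (X ^ j * (X + 1) ^ i))).coeff e ≠ 0 := by
  by_contra hcon
  push Not at hcon
  set G := taylor c (C t * (X ^ j * (X + 1) ^ i)) with hG
  have hdeg : G.natDegree ≤ j + i := by
    rw [hG, natDegree_taylor]
    exact natDegree_bin j i t
  have hm : G = monomial (j + i) (G.coeff (j + i)) := by
    ext e
    rw [coeff_monomial]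
    split_ifs with he
    · rw [he]
    · rcases lt_or_gt_of_ne he with h | h
      · exact coeff_eq_zero_of_natDegree_lt (hdeg.trans_lt h)
      · exact hcon e h
  have hne : G ≠ 0 := by
    rw [hG, taylor_bin]
    refine mul_ne_zero (C_ne_zero.2 ht) (mul_ne_zero (pow_ne_zero _ (X_add_C_ne_zero c))
      (pow_ne_zero _ ?_))
    rw [add_assoc, ← C_1, ← C_add]
    exact X_add_C_ne_zero _
  have hc : G.coeff (j + i) ≠ 0 := fun h => hne (by rw [hm, h, monomial_zero_right])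
  have hroot : ∀ a : k, G.eval a = 0 → a = 0 := by
    intro a ha
    rw [hm, eval_monomial] at ha
    exact pow_eq_zero_iff (by omega) |>.1 ((mul_eq_zero.1 ha).resolve_left hc)
  have h1 : -c = 0 := hroot _ (by rw [hG, taylor_bin]; simp [hj.ne'])
  have h2 : -(c + 1) = 0 := hroot _ (by rw [hG, taylor_bin]; simp [hi.ne'])
  rw [neg_add, h1, zero_add, neg_eq_zero] at h2
  exact one_ne_zero h2

theorem uns_bin {B : ℝ} {j i : ℕ} {t : k} (ht : t ≠ 0) (hj : 0 < j) (hi : 0 < i)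
    (hw : ¬ (fl ∧ PMul p Λ B ∧ p ∣ j + i)) :
    Uns fl p Λ (bin B j i t) ⟨B, 0, j + i, 0, 1⟩ (j + i) := by
  intro c _
  obtain ⟨e, he, hc⟩ := exists_low_coeff ht hj hi c
  exact ⟨e, he, Nat.le_add_left _ _, by rw [vtx_bin]; exact hc, fun h => not_vcl hw h.1⟩

theorem uns_bin_two [Fact p.Prime] [CharP k p] {B : ℝ} {t : k} (ht : t ≠ 0) (hp : p ∣ 2)
    (hw : ¬ (fl ∧ PMul p Λ B ∧ p ∣ 1 + 1)) :
    Uns fl p Λ (bin B 1 1 t) ⟨B, 0, 1 + 1, 0, 1⟩ 1 := by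
  intro c _
  refine ⟨1, by simp, le_rfl, ?_, fun h => not_vcl hw h.1⟩
  have h2 : (2 : k) = 0 := by exact_mod_cast (CharP.cast_eq_zero_iff k p 2).2 hp
  have h3 : (C t * ((X + C c) ^ 1 * (X + C c + 1) ^ 1) : k[X]) =
      C t * X ^ 2 + C (t * (2 * c + 1)) * X + C (t * (c * (c + 1))) := by
    simp only [map_mul, map_add, map_one, map_ofNat]
    ring
  rw [vtx_bin, taylor_bin, h3]
  simpa [h2, coeff_X_pow, coeff_one] using ht

end poly

/-! ### Stage side -/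

variable {k Ω : Type*} [Field k] [NontriviallyNormedField Ω] [IsUltrametricDist Ω] [Algebra k Ω]
  [Ctx k Ω] {p : ℕ} [Fact p.Prime] {cx : Cx Ω k}

omit [IsUltrametricDist Ω] [Ctx k Ω] [Fact p.Prime] in
theorem swap (hr : RS k Ω p) {s : St Ω} {B : ℝ} {j i : ℕ} (h : Start p cx s B j i) :
    ∃ s', Start p cx s' B i j := by
  obtain ⟨h0, hw, t, ht, N, hN, hBN, a, ha, hrp⟩ := h
  obtain ⟨s', e1, e2, -, -, e3, -, hn, hev⟩ := hr.swap cx.T s
  refine ⟨s', h0, ?_, t, ht, N, e1 ▸ hN, hBN, a, ha.mono e1 e2 e3.ge, ?_⟩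
  · rw [e1, pw2_swap]
    exact hw
  · rw [← swp_single]
    exact hrp.transport hn (e1 ▸ hrp.supp.swp) (by rw [hev, e2])

omit [Fact p.Prime] in
/-- The remainder is expanded so far that the bounds for the derivation hold. -/
theorem fresh (hs : HS k Ω) (hr : RS k Ω p) (Y : WS p cx) {a : Ω} (ha : Apx k cx.T Y.s a)
    (he : Y.r = Y.s.mon Y.N * a) :
    ∃ (X : WS p cx) (A : ℝ), X.s = Y.s ∧ X.P = Y.P ∧ vtx X.Φ X.P = vtx Y.Φ Y.P ∧
      DB cx.D X.s A ∧ ‖cx.D X.r‖ < ‖cx.D cx.f‖ ∧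
      (2 * (A + nu (cx.D cx.f)) + 2) * (X.P.s + 1) < X.N ∧
      ∀ x ∈ X.Φ.support, x ∈ Y.Φ.support ∨ Y.N ≤ x.1 := by
  have hM := cx.M_le' Y.rep.nx
  obtain ⟨A, hA⟩ := hs.exists_db Y.s cx.K cx.D hM cx.der
  obtain ⟨N', hN', h1, h2⟩ := exists_level_lt Y.s cx.Df A
    (max ((2 * (A + nu (cx.D cx.f)) + 2) * (Y.P.s + 1)) Y.P.lev)
  obtain ⟨Ψ, hΨ, hl, a', ha', hx⟩ := ha.expand Y.N_mem hN'
  obtain ⟨q1, q2, q3⟩ := ps_add Y.ps hΨ Y.room hl
  have hrp : Rp p cx Y.s (Y.Φ + Ψ) (Y.s.mon N' * a') :=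
    Y.rep.congr (Y.rep.supp.add hΨ) (by rw [map_add, he, hx, add_assoc])
  refine ⟨⟨Y.s, _, Y.P, _, N', hr.clean cx Y.s _ _ hrp, hN', ⟨a', ha', rfl⟩, q1,
    (le_max_right _ _).trans_lt h1⟩, A, rfl, rfl, q2, hA, ?_, (le_max_left _ _).trans_lt h1, q3⟩
  exact (hA.norm_mon_mul cx.der hM hN' (cx.H_le Y.rep.nx ha') (Y.s.norm_le_one_of_mem_H ha')
    (hs.der cx.T Y.s cx.K cx.D A cx.T_sub hM cx.der hA a' ha')).trans_lt h2

omit [Fact p.Prime] in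
theorem refresh (hs : HS k Ω) (hr : RS k Ω p) (Y : WS p cx) (hp : Y.Pre) (hε : Y.P.ε = 0)
    (hb : 1 ≤ Y.P.b) (hu : Y.U Y.P.s) :
    ∃ (X : WS p cx) (A0 : ℝ), X.Full A0 ∧ X.P = Y.P ∧ ∀ g, Y.U g → X.U g := by
  obtain ⟨hlt, a, ha, he⟩ := hp
  obtain ⟨X, A, e1, e2, e3, h1, h2, h3, -⟩ := fresh hs hr Y ha he
  have hU : ∀ g, Y.U g → X.U g := by
    intro g hg
    unfold WS.U Uns at hg ⊢
    rw [e3, e1, e2]
    exact hg
  refine ⟨X, A, ⟨⟨⟨A, h1, le_add_of_nonneg_right X.ps.δ0⟩, h1.2.2, h2, h3⟩, fun h => ?_,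
    e2 ▸ hb, by rw [e1, e2]; exact hlt, Or.inl ?_⟩, e2, hU⟩
  · rw [e2, hε] at h
    exact absurd h zero_ne_one
  · rw [e2]
    exact hU _ hu

omit [IsUltrametricDist Ω] [Ctx k Ω] [Fact p.Prime] in
/-- A state whose top is the only term of least level gets a large virtual slope. -/
theorem steep (X : WS p cx) {A : ℝ} (hδ : X.P.δ = 0) (h1 : DB cx.D X.s A)
    (h2 : ‖cx.D X.r‖ < ‖cx.D cx.f‖)
    (h3 : (2 * (A + nu (cx.D cx.f)) + 2) * (X.P.s + 1) < X.N) (hex : Exact X.Φ X.P)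
    (hl : ∀ x ∈ X.Φ.support, x ≠ X.P.top → X.P.β < x.1) :
    ∃ Y : WS p cx, Y.Full A ∧ Y.P.ε = X.P.ε ∧ Y.P.s = X.P.s := by
  have hy : 0 < nu X.s.y := X.s.nu_y_pos (cx.y_ne X.rep.nx)
  have hz : 0 < nu X.s.z := X.s.nu_z_pos (cx.z_ne X.rep.nx)
  obtain ⟨m, hm⟩ := exists_nat_gt ((A + nu (cx.D cx.f) + 1) / nu X.s.y)
  rw [div_lt_iff₀ hy] at hm
  refine ⟨⟨X.s, X.Φ, ⟨X.P.β, X.P.ε, X.P.s, X.P.δ, (m + 1 : ℕ)⟩, X.r, X.N, X.rep, X.N_mem, X.rem,
    ps_slope X.ps hδ hl _, X.room⟩,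
    ⟨⟨⟨A, h1, le_add_of_nonneg_right X.ps.δ0⟩, h1.2.2, h2, h3⟩, hex, ?_, ?_, Or.inr ?_⟩, rfl, rfl⟩
  · simp
  · simpa [hδ] using hz
  · simp only
    push_cast
    linarith

omit [Fact p.Prime] in
theorem virt (hs : HS k Ω) (hr : RS k Ω p) (hn : NfdStmt k Ω p) {s : St Ω} {B : ℝ} {ε μ : ℕ}
    (h : Start p cx s B ε μ) (hε : ε ≤ 1) (hμ : 2 ≤ μ)
    (hty : ε = 1 → cx.fl ∧ p ∣ μ ∧ PMul p s.Λ B) :
    ∃ (X : WS p cx) (A0 : ℝ), X.Full A0 ∧ X.P.ε = ε ∧ X.P.s = μ := by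
  obtain ⟨h0, hw, t, ht, N, hN, hBN, a, ha, hrp⟩ := h
  have hB : B ∈ s.Λ := hrp.supp (B, ε, μ) (by simpa using ht)
  let Y : WS p cx := ⟨s, _, ⟨B, ε, μ, 0, 1⟩, _, N, hrp, hN, ⟨a, ha.1, rfl⟩,
    ps_single ht hB h0 hw hε hμ hty, by simpa [Par.lev] using hBN⟩
  obtain ⟨X, A, -, e2, -, h1, h2, h3, h4⟩ := fresh hs hr Y ha rfl
  have e3 : X.P = ⟨B, ε, μ, 0, 1⟩ := e2
  have hl : ∀ x ∈ X.Φ.support, x ≠ X.P.top → X.P.β < x.1 := by
    intro x hx hne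
    rw [e3] at hne ⊢
    rcases h4 x hx with h5 | h5
    · exact absurd (Finset.mem_singleton.1 (Finsupp.support_single_subset h5)) hne
    · exact hBN.trans_le h5
  by_cases h1ε : X.P.ε = 1
  · obtain ⟨Z, z1, z2, -, -, z3, z4, z5, -, z6⟩ := hn cx X A h1ε hl h1 h2
    obtain ⟨W, w1, w2, w3⟩ := steep Z (by rw [z1, e3]) z3 z4 (by rw [z1, z2]; exact h3) z5 z6
    exact ⟨W, A, w1, by rw [w2, z1, e3], by rw [w3, z1, e3]⟩
  · obtain ⟨W, w1, w2, w3⟩ := steep X (by rw [e3]) h1 h2 h3 (fun h => absurd h h1ε) hl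
    exact ⟨W, A, w1, by rw [w2, e3], by rw [w3, e3]⟩

omit [IsUltrametricDist Ω] [Ctx k Ω] in
/-- After a small rescaling of `y` no monomial of the same level and degree is a `p`-th power. -/
theorem unclean (hr : RS k Ω p) {s : St Ω} {B : ℝ} {j i : ℕ} (h : Start p cx s B j i) :
    ∃ s' B', Start p cx s' B' j i ∧ ¬ (cx.fl ∧ PMul p s'.Λ B' ∧ p ∣ j + i) := by
  by_cases hc : cx.fl ∧ PMul p s.Λ B ∧ p ∣ j + i
  swap
  · exact ⟨s, B, h, hc⟩
  obtain ⟨h0, hw, t, ht, N, hN, hBN, a, ha, hrp⟩ := h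
  have hj : ¬ p ∣ j := fun h => hw ⟨hc.1, hc.2.1, h, (Nat.dvd_add_right h).1 hc.2.2⟩
  have hy : 0 < nu s.y := s.nu_y_pos (cx.y_ne hrp.nx)
  have hj1 : (0 : ℝ) < j + 1 := by positivity
  obtain ⟨ζ, hζ, hnp, z0, z1⟩ := exists_not_pmul_between (p := p) s.fg s.dense
    (lt_min hy (div_pos (sub_pos.2 hBN) hj1))
  have z2 : ζ * (j + 1) < N - B := (lt_div_iff₀ hj1).1 (z1.trans_le (min_le_right _ _))
  obtain ⟨s', e1, e2, -, -, hn, hev, hap, -⟩ := hr.scale cx.T s ζ 0 hζ (zero_mem _) z0.le le_rfl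
    (Or.inr (z1.trans_le (min_le_left _ _))) (Or.inl rfl)
  have hB' : ¬ PMul p s'.Λ (B + j * ζ) := by
    rw [e1, add_comm, pmul_add_iff hc.2.1]
    exact fun h => hnp (pmul_of_nat_mul hj hζ h)
  have hsc : scl ζ 0 (Finsupp.single (B, j, i) t) = Finsupp.single (B + j * ζ, j, i) t := by
    rw [scl_single]
    simp
  refine ⟨s', B + j * ζ, ⟨by positivity, fun h => hB' h.2.1, t, ht, N, e1 ▸ hN, by linarith, a,
    hap a ha, ?_⟩, fun h => hB' h.2.1⟩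
  rw [← hsc]
  exact hrp.transport hn (e1 ▸ hrp.supp.scl hζ (zero_mem _)) (by rw [hev _ hrp.supp, e2])

omit [Ctx k Ω] in
theorem real [CharP k p] (hr : RS k Ω p) {μ : ℕ} (h : StartX p cx μ) :
    ∃ Y : WS p cx, Y.Pre ∧ Y.P.ε = 0 ∧ Y.P.s = μ ∧ Y.P.b = 1 ∧ Y.U μ ∧
      (p ∣ μ → μ = 2 → Y.U 1) := by
  obtain ⟨s0, B0, j, i, hst, rfl, hj, hi⟩ := h
  obtain ⟨s, B, ⟨h0, -, t, ht, N, hN, hBN, a, ha, hrp⟩, hw⟩ := unclean hr hst
  have hB : B ∈ s.Λ := hrp.supp (B, j, i) (by simpa using ht)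
  obtain ⟨s1, e1, e2, e3, -, hn1⟩ := hr.transl cx.T s s.y (Algebra.subset_adjoin (Or.inr rfl))
    (norm_sub_lt_of s.norm_z s.norm_y)
  have l1 : s1.Λ = s.Λ := by rw [e1]
  have m1 : s1.mon = s.mon := by rw [e1]
  have hev1 := hr.shift s s1 0 X (zero_mem _) e1 (by rw [e2, s.mon_zero, aeval_X, one_mul]) _
    hrp.supp
  have hrp1 : Rp p cx s1 (shp 0 X (Finsupp.single (B, j, i) t)) (s.mon N * a) :=
    hrp.transport hn1 (l1 ▸ hrp.supp.shp fun _ => zero_mem _) (by rw [hev1])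
  obtain ⟨s2, l2, m2, -, -, e4, -, hn2, hev2⟩ := hr.swap cx.T s1
  have hrp2 : Rp p cx s2 (bin B j i t) (s2.mon N * a) := by
    rw [← swp_shp_single]
    exact hrp1.transport hn2 (l2 ▸ hrp1.supp.swp) (by rw [hev2, m2, m1])
  have ha2 : Apx k cx.T s2 a := (ha.mono l1 m1 e3.ge).mono l2 m2 e4.ge
  have l3 : s2.Λ = s.Λ := l2.trans l1
  rw [← l3] at hw hB hN
  refine ⟨⟨s2, bin B j i t, ⟨B, 0, j + i, 0, 1⟩, _, N, hrp2, hN, ⟨a, ha2.1, rfl⟩,
    ps_bin ht hB h0 hj hi hw, by simpa [Par.lev] using hBN⟩,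
    ⟨s2.nu_z_pos (cx.z_ne hrp2.nx), a, ha2, rfl⟩, rfl, rfl, rfl, uns_bin ht hj hi hw,
    fun hp h2 => ?_⟩
  obtain rfl : j = 1 := by omega
  obtain rfl : i = 1 := by omega
  exact uns_bin_two ht hp hw

end StartM

variable {k Ω : Type*} [Field k] [NontriviallyNormedField Ω] [IsUltrametricDist Ω] [Algebra k Ω]
  [IsAlgClosed k] [IsAlgClosed Ω] [Ctx k Ω] {p : ℕ} [Fact p.Prime] [CharP k p] [CharP Ω p]

omit [IsAlgClosed k] [IsAlgClosed Ω] [CharP Ω p] in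
theorem start (hs : HS k Ω) (hr : RS k Ω p) (hn : NfdStmt k Ω p) : StartStmt k Ω p where
  swap _ _ _ _ _ h := StartM.swap hr h
  virt _ _ _ _ _ h h1 h2 h3 := StartM.virt hs hr hn h h1 h2 h3
  real _ _ h := StartM.real hr h
  refresh _ Y h1 h2 h3 h4 := StartM.refresh hs hr Y h1 h2 h3 h4

end Pool.Agent.MP_19ffc6_ag.LU2

end MrgPart2

-- ======== part 3: formerly Pool.Agent.MP_19ffc6_ag.LU2.X0
section MrgPart3

/-! PROJECT LU2: the exit from type D through a pure power of `y`, and the exceptional exit. -/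

namespace Pool.Agent.MP_19ffc6_ag.LU2

open Polynomial IntermediateField Pool.Agent.MP_19ffc6_ag.LU

namespace X0

section pure

variable {k : Type*} [Field k] {fl : Prop} {p : ℕ} {Λ : AddSubgroup ℝ} {Φ : Pol2 k} {P : Par}

/-- The image of a point under scaling and exchange of the variables. -/
noncomputable def tr (ζ ξ : ℝ) (x : Pt) : Pt := (x.1 + x.2.1 * ζ + x.2.2 * ξ, x.2.2, x.2.1)

theorem tr_apply (ζ ξ : ℝ) (Φ : Pol2 k) (x : Pt) : swp (scl ζ ξ Φ) (tr ζ ξ x) = Φ x := by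
  rw [swp_apply]
  exact scl_apply ζ ξ Φ x

theorem mem_tr {ζ ξ : ℝ} {x' : Pt} :
    x' ∈ (swp (scl ζ ξ Φ)).support ↔ ∃ x ∈ Φ.support, x' = tr ζ ξ x := by
  rw [mem_swp_support, mem_scl_support]
  refine exists_congr fun x => and_congr_right fun _ => ?_
  obtain ⟨a, j, i⟩ := x'
  obtain ⟨a', j', i'⟩ := x
  simp only [tr, Prod.mk.injEq]
  exact ⟨fun h => ⟨h.1, h.2.2, h.2.1⟩, fun h => ⟨h.1, h.2.2, h.2.1⟩⟩

/-- The new parameters. -/
noncomputable def par (P : Par) (ζ τ : ℝ) : Par :=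
  ⟨P.lev + P.s * ζ, 0, P.s, τ * (P.s / (P.s - 1)) - ζ, P.s / (P.s - 1)⟩

theorem cod_tr (ζ τ ξ : ℝ) (x : Pt) :
    (par P ζ τ).cod (tr ζ ξ x) = ((P.s : ℝ) - x.2.1) * (P.s / (P.s - 1)) - x.2.2 := by
  simp only [Par.cod, Par.gap, par, tr, Nat.cast_zero, zero_add]

theorem dfc_tr (ζ τ : ℝ) (x : Pt) : (par P ζ τ).dfc (tr ζ (P.δ + τ) x) =
    P.dfc x - τ * (par P ζ τ).cod (tr ζ (P.δ + τ) x) := by
  rw [cod_tr]
  simp only [Par.dfc, Par.gap, par, tr, Par.lev]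
  ring

theorem b_facts (h : 2 ≤ P.s) : (P.s / (P.s - 1) : ℝ) * (P.s - 1) = P.s ∧
    1 ≤ (P.s / (P.s - 1) : ℝ) ∧ (P.s / (P.s - 1) : ℝ) ≤ 2 := by
  have h2 : (2 : ℝ) ≤ P.s := by exact_mod_cast h
  have h1 : (0 : ℝ) < P.s - 1 := by linarith
  refine ⟨div_mul_cancel₀ _ h1.ne', ?_, ?_⟩
  · rw [le_div_iff₀ h1]; linarith
  · rw [div_le_iff₀ h1]; linarith

/-- A term on the vertical edge lies on the right side of the new vertex. -/
theorem line_cod (hP : PS fl p Λ Φ P) (hδ : 0 < P.δ)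
    (hl : ∀ x ∈ Φ.support, P.dfc x = 0 →
      P.s ≤ x.2.1 + x.2.2 ∧ (x.2.1 + x.2.2 = P.s → x.2.2 = 0)) (ζ τ ξ : ℝ) {x : Pt}
    (hx : x ∈ Φ.support) (h0 : P.dfc x = 0) (hj : x.2.1 < P.s) :
    (par P ζ τ).cod (tr ζ ξ x) ≤ 0 ∧ ((par P ζ τ).cod (tr ζ ξ x) = 0 → x.2.1 = 1) := by
  obtain ⟨hb, -, -⟩ := b_facts hP.two
  have h2 : (2 : ℝ) ≤ P.s := by exact_mod_cast hP.two
  have h3 := hl x hx h0
  have h4 : P.s + 1 ≤ x.2.1 + x.2.2 := by omega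
  have h5 : 1 ≤ x.2.1 := by
    by_contra hc
    have h6 : P.s < x.2.2 := by omega
    have h7 := (hP.junk x hx h6.le fun h => by rw [h] at h6; exact lt_irrefl _ h6).1
    have h8 : (P.s : ℝ) < x.2.2 := by exact_mod_cast h6
    simp only [Par.dfc, Par.gap] at h0
    nlinarith
  have h4' : (P.s : ℝ) + 1 ≤ x.2.1 + x.2.2 := by exact_mod_cast h4
  have h5' : (1 : ℝ) ≤ x.2.1 := by exact_mod_cast h5
  have e : (par P ζ τ).cod (tr ζ ξ x) * (P.s - 1) =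
      (1 - x.2.1) - (x.2.1 + x.2.2 - (P.s + 1)) * (P.s - 1) := by
    rw [cod_tr, sub_mul, mul_assoc, hb]
    ring
  have h9 : 0 ≤ ((x.2.1 : ℝ) + x.2.2 - (P.s + 1)) * (P.s - 1) :=
    mul_nonneg (by linarith) (by linarith)
  refine ⟨by nlinarith, fun h => ?_⟩
  rw [h, zero_mul] at e
  have : (x.2.1 : ℝ) = 1 := by linarith
  exact_mod_cast this

theorem ps_par (hP : PS fl p Λ Φ P) (hδ : 0 < P.δ)
    (hl : ∀ x ∈ Φ.support, P.dfc x = 0 →
      P.s ≤ x.2.1 + x.2.2 ∧ (x.2.1 + x.2.2 = P.s → x.2.2 = 0))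
    (hx : ∃ x ∈ Φ.support, P.dfc x = 0 ∧ x.2.1 = P.s ∧ x.2.2 = 0) {ζ τ : ℝ} (hζ : PMul p Λ ζ)
    (hξ : PMul p Λ (P.δ + τ)) (h0 : 0 < ζ) (h1 : ζ < τ)
    (h2 : ∀ x ∈ Φ.support, 0 < P.dfc x → τ * (2 * P.s) < P.dfc x) :
    PS fl p Λ (swp (scl ζ (P.δ + τ) Φ)) (par P ζ τ) := by
  obtain ⟨hb, hb1, hb2⟩ := b_facts hP.two
  have hs : (2 : ℝ) ≤ P.s := by exact_mod_cast hP.two
  have hlev : 0 ≤ P.lev := add_nonneg hP.β0 (mul_nonneg (by linarith) hδ.le)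
  have htop : ∀ x : Pt, P.dfc x = 0 → x.2.1 = P.s → x.2.2 = 0 →
      tr ζ (P.δ + τ) x = (par P ζ τ).top := fun x a1 a2 a3 => by
    rw [Par.dfc_eq, a3] at a1
    simp only [tr, par, Par.top, a2, a3, Nat.cast_zero, zero_mul, add_zero] at a1 ⊢
    rw [sub_eq_zero.1 a1]
  refine ⟨(hP.supp.scl (pmul_mem hζ) (pmul_mem hξ)).swp, fun x' hx' => ?_, ?_, zero_le_one,
    hP.two, ?_, ?_, Or.inr (by show 0 ≤ (P.s / (P.s - 1) : ℝ); linarith),
    fun h => absurd h zero_ne_one, fun x' hx' hi => ?_, fun x' hx' hi ht => ?_, ?_⟩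
  · obtain ⟨x, hx, rfl⟩ := mem_tr.1 hx'
    rw [tr, pw2_swap, pw2_congr (x := x)
      (x' := (x.1 + x.2.1 * ζ + x.2.2 * (P.δ + τ), x.2.1, x.2.2)) _ rfl]
    · exact hP.ess x hx
    · have e : x.1 + x.2.1 * ζ + x.2.2 * (P.δ + τ) - x.1 = x.2.1 * ζ + x.2.2 * (P.δ + τ) := by ring
      rw [e]
      exact pmul_add (pmul_nat_mul hζ _) (pmul_nat_mul hξ _)
  · obtain ⟨x, hx, a1, a2, a3⟩ := hx
    exact mem_tr.2 ⟨x, hx, (htop x a1 a2 a3).symm⟩
  · show 0 ≤ P.lev + P.s * ζ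
    positivity
  · show 0 ≤ τ * (P.s / (P.s - 1)) - ζ
    nlinarith
  · obtain ⟨x, hx, rfl⟩ := mem_tr.1 hx'
    rw [dfc_tr]
    rcases (hP.dfc_nonneg hx).eq_or_lt with h | h
    · have h3 := (line_cod hP hδ hl ζ τ (P.δ + τ) hx h.symm hi).1
      rw [← h]
      rcases h3.eq_or_lt with h4 | h4
      · exact Or.inr ⟨by rw [h4]; ring, h3⟩
      · exact Or.inl (by nlinarith)
    · have h3 := h2 x hx h
      have h4 : (par P ζ τ).cod (tr ζ (P.δ + τ) x) ≤ 2 * P.s := by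
        rw [cod_tr]
        have a1 : (0 : ℝ) ≤ x.2.1 := Nat.cast_nonneg _
        have a2 : (0 : ℝ) ≤ x.2.2 := Nat.cast_nonneg _
        nlinarith
      exact Or.inl (by nlinarith)
  · obtain ⟨x, hx, rfl⟩ := mem_tr.1 hx'
    have a0 := hP.dfc_nonneg hx
    have a1 : (P.s : ℝ) ≤ x.2.1 := by exact_mod_cast hi
    have a2 : (0 : ℝ) ≤ x.2.2 := Nat.cast_nonneg _
    have e : (tr ζ (P.δ + τ) x).1 - (par P ζ τ).β = P.dfc x + x.2.2 * τ + (x.2.1 - P.s) * ζ := by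
      rw [Par.dfc_eq]
      simp only [tr, par]
      ring
    have a3 : 0 ≤ (x.2.2 : ℝ) * τ := mul_nonneg a2 (by linarith)
    have a4 : 0 ≤ ((x.2.1 : ℝ) - P.s) * ζ := mul_nonneg (by linarith) h0.le
    refine ⟨by linarith, ?_⟩
    by_contra hc
    rw [not_or, not_lt, not_lt] at hc
    have a5 : x.2.2 = 0 := Nat.le_zero.1 hc.2
    have a6 : (x.2.1 : ℝ) = P.s := by
      have : ((x.2.1 : ℝ) - P.s) * ζ = 0 := by linarith [hc.1]
      exact sub_eq_zero.1 ((mul_eq_zero.1 this).resolve_right h0.ne')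
    exact ht (htop x (by linarith [hc.1]) (by exact_mod_cast a6) a5)
  · have h3 := hP.two
    obtain ⟨m, hm⟩ := rat_of_div (s := P.s) (g := P.s - 1) (by omega) (by omega) P.s
    refine ⟨m, ?_⟩
    rw [← hm, Nat.cast_sub (by omega), Nat.cast_one, Int.cast_natCast]
    rfl

theorem uns_par [Fact p.Prime] [CharP k p] (hP : PS fl p Λ Φ P) (hε : P.ε = 1) (hδ : 0 < P.δ)
    (hl : ∀ x ∈ Φ.support, P.dfc x = 0 →
      P.s ≤ x.2.1 + x.2.2 ∧ (x.2.1 + x.2.2 = P.s → x.2.2 = 0)) (ζ τ : ℝ) :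
    Uns fl p Λ (swp (scl ζ (P.δ + τ) Φ)) (par P ζ τ) (P.s - 1) := by
  obtain ⟨hb, -, -⟩ := b_facts hP.two
  have h2 := hP.two
  set V := vtx (swp (scl ζ (P.δ + τ) Φ)) (par P ζ τ) with hV
  have hc : (par P ζ τ).cod (tr ζ (P.δ + τ) P.top) = 0 := by
    rw [cod_tr]
    simp only [Par.top, hε, Nat.cast_one]
    linarith
  have h1 : V.coeff 1 = Φ P.top := by
    have := vtx_coeff_of_vtx (P := par P ζ τ) (swp (scl ζ (P.δ + τ) Φ))
      (x := tr ζ (P.δ + τ) P.top) (by show P.ε ≤ P.s; omega)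
      (by rw [dfc_tr, hc, Par.dfc_top]; ring) hc
    rwa [tr_apply, show (tr ζ (P.δ + τ) P.top).2.2 = 1 from hε] at this
  have hd : derivative V = C (Φ P.top) := by
    ext i
    rw [coeff_derivative, coeff_C]
    split_ifs with hi
    · rw [hi, zero_add, h1, Nat.cast_zero, zero_add, mul_one]
    · by_cases h3 : V.coeff (i + 1) = 0
      · rw [h3, zero_mul]
      obtain ⟨x', hx', a1, a2, a3, a4⟩ := vtx_coeff_ne h3
      obtain ⟨x, hx, rfl⟩ := mem_tr.1 hx'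
      rw [dfc_tr, a4, mul_zero, sub_zero] at a3
      have a5 : x.2.1 = i + 1 := a1
      have a6 : i + 1 ≤ P.s := a2
      have a7 : i + 1 = P.s := by
        by_contra h
        have := (line_cod hP hδ hl ζ τ (P.δ + τ) hx a3 (by omega)).2 a4
        omega
      have a8 : ((i + 1 : ℕ) : k) = 0 := by
        rw [a7]; exact (CharP.cast_eq_zero_iff k p _).2 (hP.typ hε).2.1
      rw [← Nat.cast_succ, a8, mul_zero]
  intro c _
  refine ⟨1, h2, by show P.s ≤ 1 + (P.s - 1); omega, ?_, fun h => ?_⟩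
  · rw [taylor_coeff_one, hd, eval_C]
    exact hP.top_ne
  · exact (Fact.out : p.Prime).one_lt.ne' (Nat.dvd_one.1 h.2)

/-- The terms of the lowest level after the scaling of `z` by the vertex. -/
theorem exc_low (hP : PS fl p Λ Φ P) (hE : Exc fl p Λ Φ P) {x' : Pt}
    (hx' : x' ∈ (swp (scl 0 P.δ Φ)).support) : P.lev ≤ x'.1 ∧ (x'.1 = P.lev →
      P.s ≤ x'.2.1 + x'.2.2 ∧ (x'.2.1 + x'.2.2 = P.s → x'.2.2 ≤ 1)) := by
  obtain ⟨-, hε, -, hb, -, -, -, hv⟩ := hE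
  obtain ⟨x, hx, rfl⟩ := mem_tr.1 hx'
  have e : (tr 0 P.δ x).1 = P.lev + P.dfc x := by
    rw [Par.dfc_eq]
    simp only [tr]
    ring
  have h0 := hP.dfc_nonneg hx
  refine ⟨by linarith, fun h => ?_⟩
  have h1 : P.dfc x = 0 := by linarith
  have h2 := hP.cod_nonpos hx h1
  have e2 : P.cod x = P.s - (x.2.2 + x.2.1 : ℕ) := by
    simp only [Par.cod, Par.gap, hε, hb]
    push_cast
    ring
  refine ⟨by rw [e2, sub_nonpos] at h2; exact_mod_cast h2, fun h3 => ?_⟩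
  have h4 : x.2.2 + x.2.1 = P.s := h3
  show x.2.1 ≤ 1
  by_cases h5 : x.2.2 < P.s
  · have := hv x hx h5 h1 (by rw [e2, h4, sub_self])
    omega
  · omega

theorem exc_pol (hP : PS fl p Λ Φ P) (hE : Exc fl p Λ Φ P) : ∃ c : k,
    (P.lev, 1, P.s - 1) ∈ (swp (shp 0 (monomial 1 c) (swp (scl 0 P.δ Φ)))).support ∧
    ∀ x ∈ (swp (shp 0 (monomial 1 c) (swp (scl 0 P.δ Φ)))).support, P.lev ≤ x.1 ∧
      (x.1 = P.lev → x.2.1 + x.2.2 ≤ P.s → x = (P.lev, 1, P.s - 1)) := by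
  have hlow := fun x' => exc_low hP hE (x' := x')
  obtain ⟨-, hε, -, hb, -, -, ⟨x1, hx1, a1, a2, a3⟩, -⟩ := hE
  have h2 := hP.two
  set Ψ := swp (scl 0 P.δ Φ) with hΨ
  have e1 : tr 0 P.δ x1 = (P.lev, P.s - 1, 1) := by
    rw [Par.dfc_eq, sub_eq_zero] at a2
    have a4 : (P.s : ℝ) = x1.2.2 + 1 := by exact_mod_cast a1.symm
    simp only [Par.cod, Par.gap, hε, hb, a4] at a3
    have a5 : (x1.2.1 : ℝ) = 1 := by push_cast at a3; linarith
    have a6 : x1.2.1 = 1 := by exact_mod_cast a5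
    simp only [tr, mul_zero, add_zero, a2, a6, ← a1, Nat.add_sub_cancel]
  have hc : Ψ (P.lev, P.s - 1, 1) ≠ 0 := by
    rw [← e1, tr_apply]; exact Finsupp.mem_support_iff.1 hx1
  refine ⟨-(Ψ (P.lev, P.s, 0) / Ψ (P.lev, P.s - 1, 1)), ?_, fun x hx => ?_⟩
  · rw [mem_swp_support, Finsupp.mem_support_iff, shp_mono_apply_self]
    · exact hc
    · intro x0 hx0 n hn _ b1 b2 b3
      have := (hlow x0 hx0).2 (by simpa using b1.symm)
      simp only at b2 b3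
      omega
  · rw [mem_swp_support] at hx
    obtain ⟨x0, hx0, n, -, -, b1, b2, b3⟩ := shp_mono_support hx
    simp only [mul_zero, add_zero, mul_one] at b1 b2 b3
    refine ⟨b1 ▸ (hlow x0 hx0).1, fun c1 c2 => ?_⟩
    have c3 := (hlow x0 hx0).2 (b1 ▸ c1)
    have c4 : x.2.1 = 1 := by
      by_contra c4
      have c5 : (x.1, x.2.2, x.2.1) = (P.lev, P.s, 0) := by
        rw [c1, show x.2.2 = P.s by omega, show x.2.1 = 0 by omega]
      rw [c5, Finsupp.mem_support_iff, shp_mono_apply_one (x1 := (P.lev, P.s - 1, 1)) one_pos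
        (by simp) (by simp only; omega) rfl] at hx
      · refine hx ?_
        simp only [Nat.choose_self, Nat.cast_one, one_mul, pow_one]
        rw [neg_mul, div_mul_cancel₀ _ hc, add_neg_cancel]
      · intro x2 hx2 n hn _ d1 d2 d3
        have := (hlow x2 hx2).2 (by simpa using d1.symm)
        simp only at d2 d3
        omega
    obtain ⟨a, j, i⟩ := x
    simp only at c1 c2 c4 b2 b3 ⊢
    rw [c1, c4, show i = P.s - 1 by omega]

end pure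

end X0

variable {k Ω : Type*} [Field k] [NontriviallyNormedField Ω] [IsUltrametricDist Ω] [Algebra k Ω]
  [IsAlgClosed k] [IsAlgClosed Ω] [Ctx k Ω] {p : ℕ} [Fact p.Prime] [CharP k p] [CharP Ω p]

open X0 in
theorem x0 (hr : RS k Ω p) : X0Stmt k Ω p := by
  intro cx X hε hδ hz hl hx
  have hP := X.ps
  obtain ⟨hb, hb1, hb2⟩ := b_facts hP.two
  have hs : (2 : ℝ) ≤ X.P.s := by exact_mod_cast hP.two
  have hy0 := cx.y_ne X.rep.nx
  have hy := X.s.nu_y_pos hy0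
  obtain ⟨e, he0, he⟩ := exists_pos_lower X.Φ.support (fun x => 0 < X.P.dfc x) X.P.dfc
    fun _ _ h => h
  have hroom := X.room
  obtain ⟨m, hm0, hm1, hm2, hm3, hm4⟩ : ∃ m : ℝ, 0 < m ∧ m ≤ nu X.s.z - X.P.δ ∧
      m * 2 ≤ nu X.s.y ∧ m * (2 * X.P.s) ≤ e ∧ m * (2 * X.P.s) ≤ X.N - X.P.lev := by
    have h2 : (0 : ℝ) < 2 * X.P.s := by linarith
    refine ⟨min (min (nu X.s.z - X.P.δ) (nu X.s.y / 2))
      (min (e / (2 * X.P.s)) ((X.N - X.P.lev) / (2 * X.P.s))),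
      lt_min (lt_min (by linarith) (by linarith))
        (lt_min (div_pos he0 h2) (div_pos (by linarith) h2)),
      (min_le_left _ _).trans (min_le_left _ _), ?_, ?_, ?_⟩
    · exact (le_div_iff₀ two_pos).1 ((min_le_left _ _).trans (min_le_right _ _))
    · exact (le_div_iff₀ h2).1 ((min_le_right _ _).trans (min_le_left _ _))
    · exact (le_div_iff₀ h2).1 ((min_le_right _ _).trans (min_le_right _ _))
  obtain ⟨ξ, hξ, hξ1, hξ2⟩ := exists_pmul_between (p := p) X.s.dense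
    (show X.P.δ < X.P.δ + m by linarith)
  obtain ⟨τ, rfl⟩ : ∃ τ, ξ = X.P.δ + τ := ⟨ξ - X.P.δ, by ring⟩
  obtain ⟨ζ, hζ, hζ1, hζ2⟩ := exists_pmul_between (p := p) X.s.dense (show 0 < τ by linarith)
  have hτ : τ < m := by linarith
  obtain ⟨s1, e1, e2, e3, -, hn1, hev1, -, hap1, -⟩ := hr.scale cx.T X.s ζ (X.P.δ + τ)
    (pmul_mem hζ) (pmul_mem hξ) hζ1.le (by linarith) (Or.inr (by linarith))
    (Or.inr (by linarith))
  obtain ⟨s2, f1, f2, -, f4, f5, -, hn2, hev2⟩ := hr.swap cx.T s1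
  have hΛ : s2.Λ = X.s.Λ := f1.trans e1
  have hps := ps_par hP hδ hl hx hζ hξ hζ1 hζ2 fun x hx h => by
    have := he x hx h
    nlinarith
  obtain ⟨h, hh, hrem⟩ := X.rem
  have hap : Apx k cx.T s2 h := (hap1 hζ1 (by linarith) h hh).mono f1 f2 f5.ge
  have hr2 : X.r = s2.mon X.N * h := by rw [f2, e2, hrem]
  refine ⟨⟨s2, swp (scl ζ (X.P.δ + τ) X.Φ), par X.P ζ τ, X.r, X.N,
    X.rep.transport (hn1.trans hn2) (hΛ ▸ hps.supp) (by rw [hev2, hev1 _ hP.supp]),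
    hΛ ▸ X.N_mem, ⟨h, hap.1, hr2⟩, hΛ ▸ hps, ?_⟩, ⟨?_, h, hap, hr2⟩, rfl, rfl, hb, ?_⟩
  · show X.P.lev + X.P.s * ζ + X.P.s * (τ * (X.P.s / (X.P.s - 1)) - ζ) < X.N
    have : τ * (X.P.s / (X.P.s - 1)) ≤ τ * 2 := mul_le_mul_of_nonneg_left hb2 (by linarith)
    nlinarith
  · show τ * (X.P.s / (X.P.s - 1)) - ζ < nu s2.z
    rw [f4, e3, nu_div hy0 (X.s.mon_ne_zero (pmul_mem hζ)), X.s.nu_mon (pmul_mem hζ)]
    have : τ * (X.P.s / (X.P.s - 1)) ≤ τ * 2 := mul_le_mul_of_nonneg_left hb2 (by linarith)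
    linarith
  · show Uns cx.fl p s2.Λ (swp (scl ζ (X.P.δ + τ) X.Φ)) (par X.P ζ τ) (X.P.s - 1)
    rw [hΛ]
    exact uns_par hP hε hδ hl ζ τ

open X0 in
theorem exc (hr : RS k Ω p) (hi : IsoStmt k Ω p) : ExcStmt k Ω p := by
  intro cx X hE hz
  have hP := X.ps
  obtain ⟨c, hc1, hc2⟩ := exc_pol hP hE
  obtain ⟨hfl, -, hp, -, hδ, hlev, -, -⟩ := hE
  obtain ⟨s1, e1, -, -, -, hn1, hev1, -⟩ := hr.scale cx.T X.s 0 X.P.δ X.s.Λ.zero_mem hδ le_rfl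
    hP.δ0 (Or.inl rfl) (Or.inr hz)
  obtain ⟨s2, f1, -, -, -, -, -, hn2, hev2⟩ := hr.swap cx.T s1
  have hw : s2.mon 0 * aeval s2.y (monomial 1 c) = algebraMap k Ω c * s2.y := by
    rw [s2.mon_zero, one_mul, aeval_monomial, pow_one]
  obtain ⟨s3, g1, g2, -, -, hn3⟩ := hr.transl cx.T s2 (s2.mon 0 * aeval s2.y (monomial 1 c))
    (by
      rw [hw]
      exact Subalgebra.mul_mem _ (Subalgebra.algebraMap_mem _ c)
        (Algebra.subset_adjoin (Or.inr rfl)))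
    (by
      rw [hw, sub_eq_add_neg]
      refine (IsUltrametricDist.norm_add_le_max _ _).trans_lt (max_lt s2.norm_z ?_)
      rw [norm_neg, norm_mul]
      exact (mul_le_of_le_one_left (norm_nonneg _) (norm_alg_le c)).trans_lt s2.norm_y)
  obtain ⟨s4, i1, -, -, -, -, -, hn4, hev4⟩ := hr.swap cx.T s3
  have h2 : s2.Λ = X.s.Λ := f1.trans e1
  have h3 : s3.Λ = X.s.Λ := (congrArg Stage.Λ g1).trans h2
  have h4 : s4.Λ = X.s.Λ := i1.trans h3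
  have hsup : Supp X.s.Λ (swp (scl 0 X.P.δ X.Φ)) := (hP.supp.scl X.s.Λ.zero_mem hδ).swp
  have hn := ((hn1.trans hn2).trans hn3).trans hn4
  have hrep := X.rep.transport (r' := X.r) hn
    (h4 ▸ (hsup.shp (a := 0) (l := monomial 1 c) fun _ => X.s.Λ.zero_mem).swp) (by
      rw [hev4, hr.shift s2 s3 0 _ s2.Λ.zero_mem g1 g2 _ (h2 ▸ hsup), hev2, hev1 _ hP.supp])
  obtain ⟨h, hh, hrem⟩ := hn.rem X.N_mem X.rem
  have hcl := hr.clean cx s4 _ _ hrep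
  rw [hrem] at hcl
  have hl0 : 0 ≤ X.P.lev := add_nonneg hP.β0 (mul_nonneg (Nat.cast_nonneg _) hP.δ0)
  have hm := mem_cln_support (fl := cx.fl) (p := p) (Λ := s4.Λ).2 ⟨hc1, fun h =>
    (Fact.out : p.Prime).one_lt.ne' (Nat.dvd_one.1 h.2.2.1)⟩
  obtain ⟨x0, hx0, a1, a2, s', B, hst, hΛ, hB⟩ := hi cx s4 _ X.N 0 X.P.lev h (h4 ▸ X.N_mem) hh hcl
    (fun x hx => (mem_cln_support.1 hx).2)
    (fun x hx => hl0.trans (hc2 x (mem_cln_support.1 hx).1).1) le_rfl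
    (s4.nu_z_pos (cx.z_ne hrep.nx)) X.room
    (fun x hx => by rw [mul_zero, add_zero]; exact (hc2 x (mem_cln_support.1 hx).1).1)
    ⟨_, hm, by rw [mul_zero, add_zero]⟩
  have h5 := hP.two
  have a3 := a2 _ hm (by rw [mul_zero, add_zero])
  rw [mul_zero, add_zero] at a1
  have a4 := (hc2 x0 (mem_cln_support.1 hx0).1).2 a1 (by simp only at a3; omega)
  rw [a4] at hst hB
  refine ⟨hfl, hp, s', B, hst, ?_⟩
  have a5 := pmul_add hB (h4 ▸ hlev)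
  rw [hΛ]
  simpa using a5

end Pool.Agent.MP_19ffc6_ag.LU2

end MrgPart3

-- marker of a merged file
example : 731051 + 253351 = 731051 + 253351 := rfl
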