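import Mathlib.Topology.GDelta.MetrizableSpace
import Pool.Agent.MP_19ffc6_ag.LU2.Tower
import Pool.Agent.MP_19ffc6_ag.LU.Deg
import Pool.Agent.MP_19ffc6_ag.LU.Smooth
import Pool.Agent.MP_19ffc6_ag.LU.Perron
import Pool.Agent.MP_19ffc6_ag.LU2.Solve
import Pool.Agent.MP_19ffc6_ag.LU.All
import Pool.Agent.MP_19ffc6_ag.LU.Sep
import Pool.Agent.MP_19ffc6_ag.LU.HensB
import Pool.Agent.MP_19ffc6_ag.LU2.Rho
import Pool.Agent.MP_19ffc6_ag.LU2.Arith
import Pool.Agent.MP_19ffc6_ag.LU2.Step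
import Pool.Agent.MP_19ffc6_ag.LU2.Ord
import Pool.Agent.MP_19ffc6_ag.LU2.Face
import Pool.Agent.MP_19ffc6_ag.LU2.Luc
import Pool.Agent.MP_19ffc6_ag.LU2.Move
import Pool.Agent.MP_19ffc6_ag.LU2.X0
import Pool.Agent.MP_19ffc6_ag.LU2.Rel

-- ======== part 0: formerly Pool.Agent.MP_19ffc6_ag.LU2.Conv
section MrgPart0

/-! PROJECT LU2, module CONV: an infinite stationary run is impossible. -/

namespace Pool.Agent.MP_19ffc6_ag.LU2

open Pool.Agent.MP_19ffc6_ag.LU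

theorem conv : ConvStmt := by
  intro Λ hΛ S G Dm W hS hG hW hG0 h0 hle htouch hchild
  have hbdd : BddAbove (Set.range G) := ⟨W, by rintro _ ⟨n, rfl⟩; exact hW n⟩
  set L : ℝ := ⨆ n, G n with hL
  have hGL : ∀ n, G n ≤ L := fun n => le_ciSup hbdd n
  have hDm : (1 : ℤ) ≤ Dm := by
    obtain ⟨x, hx, h1, -⟩ := htouch 0
    have := (hS 0 x hx).2
    omega
  have hDm' : (0 : ℝ) < Dm := by exact_mod_cast (by omega : (0 : ℤ) < Dm)
  have hstep : ∀ n, 0 < G (n + 1) - G n := fun n => sub_pos.2 (hG (Nat.lt_succ_self n))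
  -- the lower bound `w`
  obtain ⟨w, hw0, hw⟩ : ∃ w : ℝ, 0 < w ∧ ∀ x ∈ S 0, 0 < x.1 - x.2 * G 0 → w ≤ x.1 - x.2 * G 0 := by
    have hf := ((S 0).filter fun x => 0 < x.1 - x.2 * G 0).finite_toSet
    obtain ⟨w, hw0, hw⟩ := hf.isCompact.exists_forall_le'
      (f := fun x : ℝ × ℤ => x.1 - x.2 * G 0) (hf.continuousOn _) (a := 0)
      (fun x hx => (Finset.mem_filter.1 hx).2)
    exact ⟨w, hw0, fun x hx h => hw x (Finset.mem_filter.2 ⟨hx, h⟩)⟩
  have hA : ∀ n, ∀ x ∈ S n, x.2 ≤ 0 → (x.1 = 0 ∧ x.2 = 0) ∨ w ≤ x.1 - x.2 * G n := by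
    intro n
    induction n with
    | zero =>
      intro x hx hD
      have hD' : (x.2 : ℝ) ≤ 0 := by exact_mod_cast hD
      have h1 := h0 x hx
      have h2 : x.2 * G 0 ≤ 0 := mul_nonpos_of_nonpos_of_nonneg hD' hG0.le
      rcases (show 0 ≤ x.1 - x.2 * G 0 by linarith).lt_or_eq with h | h
      · exact Or.inr (hw x hx h)
      · left
        have h3 : (x.2 : ℝ) * G 0 = 0 := by linarith
        have h4 : (x.2 : ℝ) = 0 := (mul_eq_zero.1 h3).resolve_right hG0.ne'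
        exact ⟨by linarith, by exact_mod_cast h4⟩
    | succ n ih =>
      intro x' hx' hD
      obtain ⟨x, hx, h1, h2⟩ := hchild n x' hx'
      rcases ih x hx (h1.trans hD) with ⟨h3, h4⟩ | h3
      · have h5 : x'.2 = 0 := by omega
        exact Or.inl ⟨by rw [h2, h3, h4, h5]; simp, h5⟩
      · right
        have hD' : (x'.2 : ℝ) ≤ 0 := by exact_mod_cast hD
        have := mul_nonpos_of_nonpos_of_nonneg hD' (hstep n).le
        rw [h2]
        nlinarith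
  obtain ⟨n1, hn1⟩ : ∃ n1, Dm * (L - G n1) < w := by
    have h1 : L - w / Dm < L := by
      have := div_pos hw0 hDm'
      linarith
    obtain ⟨n1, h2⟩ := exists_lt_of_lt_ciSup h1
    refine ⟨n1, ?_⟩
    have h3 : L - G n1 < w / Dm := by linarith
    rw [lt_div_iff₀ hDm'] at h3
    linarith
  obtain ⟨r, ψ, hψ⟩ := Chain.exists_gauge Λ hΛ
  set M : ℝ := ∑ x ∈ S n1, ‖ψ x.1‖ with hM
  have hM0 : 0 ≤ M := Finset.sum_nonneg fun _ _ => norm_nonneg _
  have hz : ∀ (k : ℤ) (t : ℝ), 0 ≤ k → ‖ψ (k * t)‖ = k * ‖ψ t‖ := by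
    intro k t hk
    rw [← zsmul_eq_mul, map_zsmul, ← Int.cast_smul_eq_zsmul ℝ, norm_smul, Real.norm_eq_abs,
      abs_of_nonneg (by exact_mod_cast hk)]
  let Inv : ℕ → Prop := fun n => ∀ x ∈ S n,
    Dm * (L - G n) < x.1 - x.2 * G n ∨ (0 ≤ x.2 ∧ ‖ψ x.1‖ ≤ M * x.2)
  have hb : ∀ n, Inv n → ‖ψ (G n)‖ ≤ M := by
    intro n hn
    obtain ⟨x, hx, h1, h2⟩ := htouch n
    have h3 : (0 : ℝ) < x.2 := by exact_mod_cast h1
    rcases hn x hx with h | ⟨-, h⟩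
    · have := mul_nonneg hDm'.le (sub_nonneg.2 (hGL n))
      linarith
    · rw [h2, hz _ _ h1.le, mul_comm M] at h
      exact le_of_mul_le_mul_left h h3
  have hInv : ∀ m, Inv (n1 + m) := by
    intro m
    induction m with
    | zero =>
      intro x hx
      rcases le_or_gt x.2 0 with hD | hD
      · rcases hA n1 x hx hD with ⟨h1, h2⟩ | h1
        · exact Or.inr ⟨h2.ge, by simp [h1, h2]⟩
        · exact Or.inl (hn1.trans_le h1)
      · refine Or.inr ⟨hD.le, ?_⟩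
        have h1 : ‖ψ x.1‖ ≤ M := Finset.single_le_sum (f := fun x : ℝ × ℤ => ‖ψ x.1‖)
          (fun _ _ => norm_nonneg _) hx
        have h2 : (1 : ℝ) ≤ x.2 := by exact_mod_cast hD
        nlinarith
    | succ m ih =>
      intro x' hx'
      obtain ⟨x, hx, h1, h2⟩ := hchild (n1 + m) x' hx'
      have h3 : (x'.2 : ℝ) ≤ Dm := by exact_mod_cast (hS _ x' hx').2
      rcases ih x hx with h | ⟨h4, h5⟩
      · left
        have := mul_le_mul_of_nonneg_right h3 (hstep (n1 + m)).le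
        rw [h2, ← add_assoc]
        nlinarith
      · refine Or.inr ⟨h4.trans h1, ?_⟩
        have h6 := hz (x'.2 - x.2) (G (n1 + m)) (sub_nonneg.2 h1)
        have h7 : (0 : ℝ) ≤ ((x'.2 - x.2 : ℤ) : ℝ) := by exact_mod_cast sub_nonneg.2 h1
        have h8 := mul_le_mul_of_nonneg_left (hb _ ih) h7
        push_cast at h6 h8
        rw [h2, map_add]
        refine (norm_add_le _ _).trans ?_
        rw [h6]
        nlinarith
  set N : ℕ := Dm.toNat.factorial with hN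
  have hN0 : (0 : ℝ) < N := by exact_mod_cast Nat.factorial_pos _
  refine (hψ (N * M)).not_infinite (Set.infinite_of_injective_forall_mem
    (f := fun m => (N : ℝ) * G (n1 + m)) (fun a b hab => ?_) fun m => ⟨?_, ?_⟩)
  · have := hG.injective (mul_left_cancel₀ hN0.ne' hab)
    omega
  · obtain ⟨x, hx, h1, h2⟩ := htouch (n1 + m)
    obtain ⟨h3, h4⟩ := hS _ x hx
    obtain ⟨c, hc⟩ : x.2.toNat ∣ N := Nat.dvd_factorial (by omega) (by omega)
    have h5 : ((x.2.toNat : ℕ) : ℝ) = x.2 := by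
      have : ((x.2.toNat : ℕ) : ℤ) = x.2 := by omega
      exact_mod_cast this
    have h6 : (N : ℝ) * G (n1 + m) = c • x.1 := by
      rw [hc, h2, nsmul_eq_mul]
      push_cast
      rw [h5]
      ring
    show (N : ℝ) * G (n1 + m) ∈ Λ
    rw [h6]
    exact Λ.nsmul_mem h3 c
  · have h1 := hz N (G (n1 + m)) (Int.natCast_nonneg N)
    push_cast at h1
    show ‖ψ ((N : ℝ) * G (n1 + m))‖ ≤ N * M
    rw [h1]
    exact mul_le_mul_of_nonneg_left (hb _ (hInv m)) hN0.le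

end Pool.Agent.MP_19ffc6_ag.LU2

end MrgPart0

-- ======== part 1: formerly Pool.Agent.MP_19ffc6_ag.LU2.Final2
section MrgPart1

/-! PROJECT LU2, module FINAL2: the smooth model of a field inside the henselization of a stage
with two coordinates. -/

namespace Pool.Agent.MP_19ffc6_ag.LU2

open Polynomial IntermediateField Pool.Agent.MP_19ffc6_ag.LU

namespace Final2

variable {k Ω : Type*} [Field k] [NontriviallyNormedField Ω] [Algebra k Ω]

theorem le_loc (A : Subalgebra k Ω) : A ≤ loc A := fun a ha =>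
  ⟨a, ha, 1, A.one_mem, norm_one, (div_one _).symm⟩

theorem H_le_loc (s : St Ω) : s.H k ∅ ≤ loc (s.R0 k) := by
  refine sInf_le ⟨⟨?_, fun _ _ h => absurd h (Set.notMem_empty _)⟩, le_loc _⟩
  rintro _ ⟨a, ha, c, hc, h1, rfl⟩ h
  rw [norm_div, h1, div_one] at h
  exact ⟨c, hc, a, ha, h, inv_div _ _⟩

theorem R0_le_H (T : Set Ω) (s : St Ω) : s.R0 k ≤ s.H k T := le_sInf fun _ h => h.2

theorem R0_le_M (s : St Ω) : s.R0 k ≤ (s.M k).toSubalgebra := by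
  refine Algebra.adjoin_le (Set.union_subset ?_ fun a ha => subset_adjoin k _ (Or.inr ha))
  rintro _ ⟨α, hα, rfl⟩
  exact subset_adjoin k _ (Or.inl ⟨α, hα.1, rfl⟩)

theorem H_le_M (s : St Ω) : s.H k ∅ ≤ (s.M k).toSubalgebra := by
  intro b hb
  obtain ⟨a, ha, c, hc, -, rfl⟩ := H_le_loc s hb
  exact (s.M k).div_mem (R0_le_M s ha) (R0_le_M s hc)

theorem M_eq {s s' : St Ω} (h : Nx k ∅ s s') : s'.M k = s.M k := by
  refine le_antisymm (adjoin_le_iff.2 (h.gen (s.M k).toSubalgebra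
    (fun b hb _ => (s.M k).inv_mem hb) (subset_adjoin k _))) (adjoin_le_iff.2 ?_)
  rintro a (⟨α, hα, rfl⟩ | ha)
  · obtain ⟨β, hβ, w, hw, -, he⟩ := h.mon α hα
    rw [he]
    exact (s'.M k).mul_mem (subset_adjoin k _ (Or.inl ⟨β, hβ, rfl⟩)) (H_le_M s' hw)
  · exact H_le_M s' (h.H_le (R0_le_H ∅ s (Algebra.subset_adjoin (Or.inr ha))))

theorem good_mem (s : St Ω) {b : Ω} (h : s.Good k ∅ b) (hb : ‖b‖ ≤ 1) : b ∈ loc (s.R0 k) := by
  obtain ⟨α, hα, w, hw, h1, rfl⟩ := h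
  rw [norm_mul, h1, mul_one, s.norm_mon α hα, Real.exp_le_one_iff] at hb
  exact mul_mem (le_loc _ (Algebra.subset_adjoin (Or.inl ⟨α, ⟨hα, by linarith⟩, rfl⟩)))
    (H_le_loc s hw)

/-- the ring generated by finitely many monomials and the two coordinates -/
def RT (k : Type*) [Field k] [Algebra k Ω] (s : St Ω) (T : Finset ℝ) : Subalgebra k Ω :=
  Algebra.adjoin k (s.mon '' T ∪ {s.y, s.z})

theorem RT_mono (s : St Ω) {T T' : Finset ℝ} (h : T ⊆ T') : RT k s T ≤ RT k s T' :=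
  Algebra.adjoin_mono (Set.union_subset_union_left _ (Set.image_mono h))

theorem exists_T (s : St Ω) {r : Ω} (hr : r ∈ s.R0 k) :
    ∃ T : Finset ℝ, (∀ t ∈ T, t ∈ s.Λ ∧ 0 ≤ t) ∧ r ∈ RT k s T := by
  classical
  induction hr using Algebra.adjoin_induction with
  | mem x hx =>
    rcases hx with ⟨α, hα, rfl⟩ | hx
    · exact ⟨{α}, by simpa using hα, Algebra.subset_adjoin (Or.inl ⟨α, by simp, rfl⟩)⟩
    · exact ⟨∅, by simp, Algebra.subset_adjoin (Or.inr hx)⟩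
  | algebraMap c => exact ⟨∅, by simp, Subalgebra.algebraMap_mem _ c⟩
  | add x y _ _ h1 h2 =>
    obtain ⟨T, a1, a2⟩ := h1
    obtain ⟨T', b1, b2⟩ := h2
    exact ⟨T ∪ T', fun t ht => (Finset.mem_union.1 ht).elim (a1 t) (b1 t),
      add_mem (RT_mono s Finset.subset_union_left a2) (RT_mono s Finset.subset_union_right b2)⟩
  | mul x y _ _ h1 h2 =>
    obtain ⟨T, a1, a2⟩ := h1
    obtain ⟨T', b1, b2⟩ := h2
    exact ⟨T ∪ T', fun t ht => (Finset.mem_union.1 ht).elim (a1 t) (b1 t),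
      mul_mem (RT_mono s Finset.subset_union_left a2) (RT_mono s Finset.subset_union_right b2)⟩

theorem exists_T_coeffs (s : St Ω) (C : Finset Ω) (hC : ∀ b ∈ C, b ∈ loc (s.R0 k)) :
    ∃ T : Finset ℝ, (∀ t ∈ T, t ∈ s.Λ ∧ 0 ≤ t) ∧ ∀ b ∈ C,
      ∃ a ∈ RT k s T, ∃ c ∈ RT k s T, ‖c‖ = 1 ∧ b = a / c := by
  classical
  induction C using Finset.induction_on with
  | empty => exact ⟨∅, by simp, by simp⟩
  | insert b C _ ih =>
    obtain ⟨T, h1, h2⟩ := ih fun x hx => hC x (Finset.mem_insert_of_mem hx)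
    obtain ⟨a, ha, c, hc, h3, h4⟩ := hC b (Finset.mem_insert_self _ _)
    obtain ⟨Ta, a1, a2⟩ := exists_T s ha
    obtain ⟨Tc, c1, c2⟩ := exists_T s hc
    refine ⟨T ∪ (Ta ∪ Tc), fun t ht => (Finset.mem_union.1 ht).elim (h1 t)
      fun ht => (Finset.mem_union.1 ht).elim (a1 t) (c1 t), fun x hx => ?_⟩
    rcases Finset.mem_insert.1 hx with rfl | hx
    · exact ⟨a, RT_mono s (Finset.subset_union_left.trans Finset.subset_union_right) a2, c,
        RT_mono s (Finset.subset_union_right.trans Finset.subset_union_right) c2, h3, h4⟩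
    · obtain ⟨a', ha', c', hc', h5⟩ := h2 x hx
      exact ⟨a', RT_mono s Finset.subset_union_left ha', c',
        RT_mono s Finset.subset_union_left hc', h5⟩

/-- integral generators of a finitely generated field -/
theorem exists_gens {F : IntermediateField k Ω} (hF : F.FG) (Z : Finset Ω)
    (hZ : ∀ z ∈ Z, z ∈ F ∧ ‖z‖ ≤ 1) :
    ∃ Z' : Finset Ω, Z ⊆ Z' ∧ (∀ z ∈ Z', z ∈ F ∧ ‖z‖ ≤ 1) ∧ F ≤ adjoin k (Z' : Set Ω) := by
  classical
  obtain ⟨S, hS⟩ := hF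
  have hSF : ∀ f ∈ S, f ∈ F := fun f hf => hS ▸ subset_adjoin _ _ hf
  refine ⟨Z ∪ S.image fun f => if ‖f‖ ≤ 1 then f else f⁻¹, Finset.subset_union_left,
    fun z hz => ?_, ?_⟩
  · rcases Finset.mem_union.1 hz with h | h
    · exact hZ z h
    · obtain ⟨f, hf, rfl⟩ := Finset.mem_image.1 h
      split_ifs with h1
      · exact ⟨hSF f hf, h1⟩
      · refine ⟨F.inv_mem (hSF f hf), ?_⟩
        rw [norm_inv]
        exact inv_le_one_of_one_le₀ (not_le.1 h1).le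
  · rw [← hS]
    refine adjoin_le_iff.2 fun f hf => ?_
    have h1 := subset_adjoin k
      ((Z ∪ S.image fun f => if ‖f‖ ≤ 1 then f else f⁻¹ : Finset Ω) : Set Ω)
      (Finset.mem_union_right Z (Finset.mem_image_of_mem (fun f => if ‖f‖ ≤ 1 then f else f⁻¹) hf))
    split_ifs at h1
    · exact h1
    · simpa using inv_mem h1

end Final2

open Final2

variable {k Ω : Type*} [Field k] [NontriviallyNormedField Ω] [IsUltrametricDist Ω] [Algebra k Ω]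
  [IsAlgClosed Ω] [Ctx k Ω]

theorem final2 (hm : Mon2Stmt k Ω) : Final2Stmt k Ω := by
  classical
  rintro hna F s Z hFG ⟨halg, hMF, hFh⟩ hZ
  obtain ⟨Z', hZZ, hZ'F, hFZ⟩ := exists_gens hFG Z hZ
  obtain ⟨η, P, hηm, hη, hP, hPc, h0, h1, hmin, hG⟩ :=
    eta (s.M k) Z' fun z hz => ⟨hFh (hZ'F z hz).1, (hZ'F z hz).2⟩
  choose! G N hGc hG using hG
  have hηF : η ∈ F := sup_le hMF (adjoin_le_iff.2 fun z hz => (hZ'F z hz).1) hηm
  set C := P.coeffs ∪ Z'.biUnion fun z => (G z).coeffs with hC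
  have hCm : ∀ b ∈ C, (b ∈ s.M k ∧ b ≠ 0) ∧ ‖b‖ ≤ 1 := by
    intro b hb
    rcases Finset.mem_union.1 hb with h | h
    · obtain ⟨n, hn, rfl⟩ := mem_coeffs_iff.1 h
      exact ⟨⟨(hPc n).1, mem_support_iff.1 hn⟩, (hPc n).2⟩
    · obtain ⟨z, hz, h⟩ := Finset.mem_biUnion.1 h
      obtain ⟨n, hn, rfl⟩ := mem_coeffs_iff.1 h
      exact ⟨⟨(hGc z hz n).1, mem_support_iff.1 hn⟩, (hGc z hz n).2⟩
  obtain ⟨s', hle', hgood⟩ := hm hna s C halg fun b hb => (hCm b hb).1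
  obtain ⟨T, hT, hTC⟩ := exists_T_coeffs (k := k) s' C
    fun b hb => good_mem s' (hgood b hb) (hCm b hb).2
  obtain ⟨r, b, hb0, hbi, hbc, hbT⟩ := perron s'.Λ s'.fg T hT
  have hbm : ∀ i, b i ∈ s'.Λ := fun i => hbc ▸ AddSubgroup.subset_closure ⟨i, rfl⟩
  have hM := M_eq hle'
  have hxi : AlgebraicIndependent k fun i => s'.mon (b i) := by
    refine ind (Fin r) _ (fun i => Final.mon_ne s'.toStage (hbm i)) ?_
    have : (fun i => nu (s'.mon (b i))) = b := by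
      funext i
      rw [nu, s'.norm_mon _ (hbm i), Real.log_exp, neg_neg]
    rwa [this]
  have hx1 : ∀ i, ‖s'.mon (b i)‖ ≤ 1 := fun i => by
    rw [s'.norm_mon _ (hbm i), Real.exp_le_one_iff]
    linarith [hb0 i]
  have hx : AlgebraicIndependent k (Sum.elim ![s'.y, s'.z] fun i => s'.mon (b i)) := by
    refine hxi.sumElim_of_tower ?_ (hna s' (hM ▸ halg))
    rintro _ ⟨i, rfl⟩
    exact ⟨⟨_, subset_adjoin k _ ⟨b i, hbm i, rfl⟩⟩, rfl⟩
  set x : Fin 2 ⊕ Fin r → Ω := Sum.elim ![s'.y, s'.z] fun i => s'.mon (b i) with hxd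
  have h2 : ∀ i, ‖x i‖ ≤ 1 := by
    rintro (i | i)
    · fin_cases i
      · exact s'.norm_y.le
      · exact s'.norm_z.le
    · exact hx1 i
  have h3 : ∀ i, x i ∈ s'.M k := by
    rintro (i | i)
    · fin_cases i
      · exact subset_adjoin _ _ (Or.inr (Or.inl rfl))
      · exact subset_adjoin _ _ (Or.inr (Or.inr rfl))
    · exact subset_adjoin _ _ (Or.inl ⟨b i, hbm i, rfl⟩)
  have hle1 : RT k s' T ≤ Algebra.adjoin k (Set.range x) := by
    refine Algebra.adjoin_le (Set.union_subset ?_ ?_)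
    · rintro _ ⟨t, ht, rfl⟩
      obtain ⟨m, rfl⟩ := hbT t ht
      exact Final.mon_sum_mem s'.toStage b hbm m (Algebra.adjoin k (Set.range x))
        (fun i => Algebra.subset_adjoin (Set.mem_range_self (f := x) (Sum.inr i))) _
    · rintro _ (rfl | rfl)
      · exact Algebra.subset_adjoin ⟨Sum.inl 0, rfl⟩
      · exact Algebra.subset_adjoin ⟨Sum.inl 1, rfl⟩
  refine Final.finish smooth_model F Z Z' hZZ hFZ x hx h2 (fun i => hMF (hM ▸ h3 i))
    η P G N hηF hη hP h0 h1 (fun Q hQ => hmin Q fun i => ?_) hG C Finset.subset_union_left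
    (fun z hz => (Finset.subset_biUnion_of_mem (fun z => (G z).coeffs) hz).trans
      Finset.subset_union_right) fun c hc => ?_
  · rw [← hM]
    exact adjoin_le_iff.2 (Set.range_subset_iff.2 h3) (hQ i)
  · obtain ⟨a, ha, c', hc', h6⟩ := hTC c hc
    exact ⟨a, hle1 ha, c', hle1 hc', h6⟩

end Pool.Agent.MP_19ffc6_ag.LU2

end MrgPart1

-- ======== part 2: formerly Pool.Agent.MP_19ffc6_ag.LU2.HS2
section MrgPart2

/-! Module HS2 of PROJECT LU2: adic approximation in the henselized local ring. -/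

namespace Pool.Agent.MP_19ffc6_ag.LU2

open Polynomial IntermediateField Pool.Agent.MP_19ffc6_ag.LU

variable {k Ω : Type*} [Field k] [NontriviallyNormedField Ω] [Algebra k Ω]

namespace HS2

/-- The approximable elements. -/
def ApA (k : Type*) [Field k] [Algebra k Ω] (T : Set Ω) (s : St Ω) : Subalgebra k Ω where
  carrier := {h | Apx k T s h}
  mul_mem' := Apx.mul
  add_mem' := Apx.add
  algebraMap_mem' c := Apx.of_mem ((s.R0 k).algebraMap_mem c)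

/-- The elements that are constant modulo `t`. -/
def Ct (S : Subalgebra k Ω) (t : Ω) (ht : t ∈ S) : Subalgebra k Ω where
  carrier := {h | ∃ c : k, ∃ h' ∈ S, h = algebraMap k Ω c + t * h'}
  mul_mem' := by
    rintro _ _ ⟨c, a, ha, rfl⟩ ⟨d, b, hb, rfl⟩
    refine ⟨c * d, algebraMap k Ω c * b + a * algebraMap k Ω d + t * a * b,
      S.add_mem (S.add_mem (S.mul_mem (S.algebraMap_mem c) hb)
        (S.mul_mem ha (S.algebraMap_mem d))) (S.mul_mem (S.mul_mem ht ha) hb), ?_⟩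
    rw [map_mul]; ring
  add_mem' := by
    rintro _ _ ⟨c, a, ha, rfl⟩ ⟨d, b, hb, rfl⟩
    exact ⟨c + d, a + b, S.add_mem ha hb, by rw [map_add]; ring⟩
  algebraMap_mem' c := ⟨c, 0, S.zero_mem, by simp⟩

variable {T : Set Ω} {s : St Ω}

/-- Constant modulo `mon μ`. -/
def Cm (k : Type*) [Field k] [Algebra k Ω] (T : Set Ω) (s : St Ω) (μ : ℝ) (h : Ω) : Prop :=
  ∃ c : k, ∃ h' ∈ s.H k T, h = algebraMap k Ω c + s.mon μ * h'

theorem Cm.mono {μ μ' : ℝ} (hμ : μ ∈ s.Λ) (hμ' : μ' ∈ s.Λ) (hl : μ' ≤ μ) {h : Ω}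
    (hh : Cm k T s μ h) : Cm k T s μ' h := by
  obtain ⟨c, h', h1, rfl⟩ := hh
  refine ⟨c, s.mon (μ - μ') * h', (s.H k T).mul_mem
    (s.mon_mem_H k T (s.Λ.sub_mem hμ hμ') (by linarith)) h1, ?_⟩
  rw [← mul_assoc, ← s.mon_add _ hμ' _ (s.Λ.sub_mem hμ hμ'), add_sub_cancel]

theorem common {μ μ' : ℝ} (hμ : μ ∈ s.Λ) (h0 : 0 < μ) (hμ' : μ' ∈ s.Λ) (h0' : 0 < μ') {a b : Ω}
    (ha : Cm k T s μ a) (hb : Cm k T s μ' b) :
    ∃ ν ∈ s.Λ, 0 < ν ∧ Cm k T s ν a ∧ Cm k T s ν b := by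
  rcases le_total μ μ' with h | h
  · exact ⟨μ, hμ, h0, ha, hb.mono hμ' hμ h⟩
  · exact ⟨μ', hμ', h0', ha.mono hμ hμ' h, hb⟩

/-- Approximable elements that are constant modulo a monomial of positive level. -/
def Bb (k : Type*) [Field k] [Algebra k Ω] (T : Set Ω) (s : St Ω) : Subalgebra k Ω where
  carrier := {h | Apx k T s h ∧ ∃ μ ∈ s.Λ, 0 < μ ∧ Cm k T s μ h}
  mul_mem' := by
    rintro a b ⟨ha, μ, h1, h2, h3⟩ ⟨hb, μ', h4, h5, h6⟩
    obtain ⟨ν, h7, h8, h9, h10⟩ := common h1 h2 h4 h5 h3 h6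
    exact ⟨ha.mul hb, ν, h7, h8, (Ct (s.H k T) _ (s.mon_mem_H k T h7 h8.le)).mul_mem h9 h10⟩
  add_mem' := by
    rintro a b ⟨ha, μ, h1, h2, h3⟩ ⟨hb, μ', h4, h5, h6⟩
    obtain ⟨ν, h7, h8, h9, h10⟩ := common h1 h2 h4 h5 h3 h6
    exact ⟨ha.add hb, ν, h7, h8, (Ct (s.H k T) _ (s.mon_mem_H k T h7 h8.le)).add_mem h9 h10⟩
  algebraMap_mem' c := by
    obtain ⟨μ, h1, h2⟩ := s.exists_pos
    exact ⟨Apx.of_mem ((s.R0 k).algebraMap_mem c), μ, h1, h2, c, 0, zero_mem _, by simp⟩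

theorem common_coeff {Q : Polynomial Ω} (hQ : ∀ i, Q.coeff i ∈ Bb k T s) :
    ∃ μ ∈ s.Λ, 0 < μ ∧ ∀ i, Cm k T s μ (Q.coeff i) := by
  have key : ∀ n : ℕ, ∃ μ ∈ s.Λ, 0 < μ ∧ ∀ i < n, Cm k T s μ (Q.coeff i) := by
    intro n
    induction n with
    | zero =>
      obtain ⟨μ, h1, h2⟩ := s.exists_pos
      exact ⟨μ, h1, h2, fun i hi => absurd hi (Nat.not_lt_zero i)⟩
    | succ n ih =>
      obtain ⟨μ, h1, h2, h3⟩ := ih
      obtain ⟨-, μ', h4, h5, h6⟩ := hQ n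
      have hm : min μ μ' ∈ s.Λ := by rcases min_choice μ μ' with h | h <;> rwa [h]
      refine ⟨min μ μ', hm, lt_min h2 h5, fun i hi => ?_⟩
      rcases Nat.lt_succ_iff_lt_or_eq.1 hi with h | rfl
      · exact (h3 i h).mono h1 hm (min_le_left _ _)
      · exact h6.mono h4 hm (min_le_right _ _)
  obtain ⟨μ, h1, h2, h3⟩ := key (Q.natDegree + 1)
  refine ⟨μ, h1, h2, fun i => ?_⟩
  by_cases hi : i < Q.natDegree + 1
  · exact h3 i hi
  · rw [coeff_eq_zero_of_natDegree_lt (by omega)]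
    exact ⟨0, 0, zero_mem _, by simp⟩

theorem apx_of_pow {μ : ℝ} (hμ : μ ∈ s.Λ) (h0 : 0 < μ) {h : Ω} (hh : h ∈ s.H k T)
    (ha : ∀ n : ℕ, ∃ a ∈ s.R0 k, ∃ h' ∈ s.H k T, h = a + s.mon μ ^ (n + 1) * h') :
    Apx k T s h := by
  refine ⟨hh, fun N hN => ?_⟩
  obtain ⟨n, hn⟩ := exists_nat_gt (N / μ)
  rw [div_lt_iff₀ h0] at hn
  obtain ⟨a, h1, h', h2, rfl⟩ := ha n
  have h3 := natCast_mul_mem hμ (n + 1)
  have h4 := s.Λ.sub_mem h3 hN
  refine ⟨a, h1, s.mon ((n + 1 : ℕ) * μ - N) * h',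
    (s.H k T).mul_mem (s.mon_mem_H k T h4 (by push_cast; linarith)) h2, ?_⟩
  rw [← mul_assoc, ← s.mon_add _ hN _ h4, add_sub_cancel, s.mon_natCast_mul hμ]

variable [IsUltrametricDist Ω] [Ctx k Ω]

/-- Simple roots are approximated by the Newton iteration. -/
theorem newton {Q : Polynomial Ω} {η : Ω} (hη : η ∈ s.H k T) (hQ : ∀ i, Q.coeff i ∈ Bb k T s)
    (h0 : Q.eval η = 0) (h1 : ‖Q.derivative.eval η‖ = 1) : η ∈ Bb k T s := by
  obtain ⟨μ, hμ, hμ0, hc⟩ := common_coeff hQ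
  have ht := s.mon_mem_H k T hμ hμ0.le
  have hQS : ∀ i, Q.coeff i ∈ s.H k T := fun i => (hQ i).1.1
  have hsm : ∀ a ∈ s.H k T, ‖s.mon μ * a‖ < 1 := fun a ha => by
    rw [norm_mul]
    exact mul_lt_one_of_nonneg_of_lt_one_left (norm_nonneg _) (s.norm_mon_lt_one hμ hμ0)
      (s.norm_le_one_of_mem_H ha)
  obtain ⟨c, hcη⟩ := Ctx.res (k := k) η (s.norm_le_one_of_mem_H hη)
  have hδ : algebraMap k Ω c - η ∈ s.H k T := sub_mem (algebraMap_mem _ c) hη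
  have hδ1 : ‖algebraMap k Ω c - η‖ < 1 := by rwa [norm_sub_rev]
  obtain ⟨κ, hκ, e1⟩ := Desc.taylor (s.H k T) Q hQS hη hδ
  rw [add_sub_cancel, h0, zero_add] at e1
  have hD := Desc.eval_mem (s.H k T) _ (Desc.der_coeff (s.H k T) Q hQS) hη
  have hU : Q.derivative.eval η + κ * (algebraMap k Ω c - η) ∈ s.H k T :=
    add_mem hD (mul_mem hκ hδ)
  have hU1 : ‖Q.derivative.eval η + κ * (algebraMap k Ω c - η)‖ = 1 := by
    rw [norm_add_eq_left, h1]
    rw [h1, norm_mul, mul_comm]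
    exact mul_lt_one_of_nonneg_of_lt_one_left (norm_nonneg _) hδ1 (s.norm_le_one_of_mem_H hκ)
  have e2 : Q.eval (algebraMap k Ω c) =
      (algebraMap k Ω c - η) * (Q.derivative.eval η + κ * (algebraMap k Ω c - η)) := by
    rw [e1]; ring
  obtain ⟨q, w, hw, e3⟩ := Desc.eval_mem (Ct (s.H k T) _ ht) Q hc (algebraMap_mem _ c)
  have hq : q = 0 := by
    refine eq_zero_of_norm_alg_lt (Ω := Ω) ?_
    rw [← sub_eq_iff_eq_add] at e3
    rw [← e3]
    refine norm_sub_lt_of ?_ (hsm w hw)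
    rw [e2, norm_mul, hU1, mul_one]; exact hδ1
  have hηc : η = algebraMap k Ω c +
      s.mon μ * -(w * (Q.derivative.eval η + κ * (algebraMap k Ω c - η))⁻¹) := by
    rw [hq, map_zero, zero_add, e2] at e3
    rw [mul_neg, ← mul_assoc, ← e3, mul_assoc, mul_inv_cancel₀ (ne_zero_of_norm_eq_one hU1)]
    ring
  have hw' := neg_mem (mul_mem hw (s.inv_mem_H hU hU1))
  have hηC : η ∈ Ct (s.H k T) _ ht := ⟨c, _, hw', hηc⟩
  obtain ⟨u, v, hv, e4⟩ := Desc.eval_mem (Ct (s.H k T) _ ht) _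
    (Desc.der_coeff (Ct (s.H k T) _ ht) Q hc) hηC
  have hu : algebraMap k Ω u ≠ 0 := by
    intro h
    rw [e4, h, zero_add] at h1
    exact (hsm v hv).ne h1
  refine ⟨apx_of_pow hμ hμ0 hη fun n => ?_, μ, hμ, hμ0, hηC⟩
  induction n with
  | zero => exact ⟨_, algebraMap_mem _ c, _, hw', by rw [zero_add, pow_one]; exact hηc⟩
  | succ n ih =>
    obtain ⟨a, ha, b, hb, e5⟩ := ih
    have hδ' : -(s.mon μ ^ (n + 1) * b) ∈ s.H k T := neg_mem (mul_mem (pow_mem ht _) hb)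
    obtain ⟨κ', hκ', e6⟩ := Desc.taylor (s.H k T) Q hQS hη hδ'
    have e7 : η + -(s.mon μ ^ (n + 1) * b) = a := by rw [e5]; ring
    rw [e7, h0, zero_add, e4] at e6
    obtain ⟨r, hr, b', hb', e8⟩ := (Desc.eval_mem (ApA k T s) Q (fun i => (hQ i).1)
      (Apx.of_mem ha)).2 _ (natCast_mul_mem hμ (n + 1 + 1))
    rw [s.mon_natCast_mul hμ] at e8
    refine ⟨a - algebraMap k Ω u⁻¹ * r, sub_mem ha (mul_mem (algebraMap_mem _ _) hr),
      algebraMap k Ω u⁻¹ * (κ' * s.mon μ ^ n * b ^ 2 - v * b - b'),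
      mul_mem (algebraMap_mem _ _) (sub_mem (sub_mem (mul_mem (mul_mem hκ' (pow_mem ht _))
        (pow_mem hb _)) (mul_mem hv hb)) hb'), ?_⟩
    have e9 : r = (algebraMap k Ω u + s.mon μ * v) * -(s.mon μ ^ (n + 1) * b) +
        κ' * (-(s.mon μ ^ (n + 1) * b)) ^ 2 - s.mon μ ^ (n + 1 + 1) * b' := by
      rw [← e6, e8]; ring
    rw [e5, e9, map_inv₀]
    field_simp
    ring

theorem hcl_Bb : HCl T (Bb k T s) := by
  refine ⟨fun b hb h1 => ?_, fun Q η hη hQ h0 h1 h2 =>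
    newton (s.root_mem_H hη (fun i => (hQ i).1.1) h0 h1 h2) hQ h0 h2⟩
  refine newton (Q := C b * X - 1) (s.inv_mem_H hb.1.1 h1) (fun i => ?_) ?_ ?_
  · rw [coeff_sub, coeff_C_mul, coeff_X, coeff_one]
    refine sub_mem (mul_mem hb ?_) ?_ <;> split_ifs
    exacts [one_mem _, zero_mem _, one_mem _, zero_mem _]
  · simp [mul_inv_cancel₀ (ne_zero_of_norm_eq_one h1)]
  · simpa using h1

end HS2

open HS2

theorem hs_apx [IsUltrametricDist Ω] [Ctx k Ω] (T : Set Ω) (s s' : St Ω) (π : ℝ) (hπ : π ∈ s'.Λ)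
    (h0 : 0 < π) (h1 : s'.Λ = s.Λ) (h2 : s'.mon = s.mon) (h3 : s.R0 k ≤ s'.R0 k)
    (hy : s.y / s.mon π ∈ s'.R0 k) (hz : s.z / s.mon π ∈ s'.R0 k) :
    ∀ h ∈ s.H k T, Apx k T s' h := by
  have key : ∀ w, w ∈ s.R0 k → w / s.mon π ∈ s'.R0 k → w ∈ Bb k T s' := fun w hw hw' =>
    ⟨Apx.of_mem (h3 hw), π, hπ, h0, 0, _, s'.R0_le_H k T hw', by
      rw [map_zero, zero_add, h2, mul_div_cancel₀ _ (s.mon_ne_zero (h1 ▸ hπ))]⟩
  have hle : s.R0 k ≤ Bb k T s' := by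
    refine s.R0_le_iff.2 ⟨fun α hα hα0 => ?_, key _ (s.y_mem_R0 k) hy, key _ (s.z_mem_R0 k) hz⟩
    rcases hα0.eq_or_lt with rfl | hα1
    · rw [s.mon_zero]; exact one_mem _
    · exact ⟨Apx.of_mem (h3 (s.mon_mem_R0 k hα hα0)), α, h1 ▸ hα, hα1, 0, 1, one_mem _, by
        rw [map_zero, zero_add, mul_one, h2]⟩
  exact fun h hh => (s.H_le hcl_Bb hle hh).1

end Pool.Agent.MP_19ffc6_ag.LU2

end MrgPart2

-- ======== part 3: formerly Pool.Agent.MP_19ffc6_ag.LU2.HS1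
section MrgPart3

/-! PROJECT LU2, module HS1: analytic facts on the local ring of a stage. -/

namespace Pool.Agent.MP_19ffc6_ag.LU2

open Polynomial IntermediateField Pool.Agent.MP_19ffc6_ag.LU

variable {k Ω : Type*} [Field k] [NontriviallyNormedField Ω] [Algebra k Ω]

namespace HS1

theorem exists_lift (L : IntermediateField k Ω) (Q : Polynomial Ω) (hQ : ∀ i, Q.coeff i ∈ L) :
    ∃ Q0 : Polynomial L, Q0.map (algebraMap L Ω) = Q :=
  (Polynomial.mem_lifts Q).1 ((Polynomial.lifts_iff_coeff_lifts Q).2 fun i => ⟨⟨_, hQ i⟩, rfl⟩)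

/-- A simple root is separable. -/
theorem sep_of_simple (L : IntermediateField k Ω) {Q : Polynomial Ω} {η : Ω}
    (hQ : ∀ i, Q.coeff i ∈ L) (h0 : Q.eval η = 0) (h1 : Q.derivative.eval η ≠ 0) :
    IsSeparable L η := by
  obtain ⟨Q0, rfl⟩ := exists_lift L Q hQ
  rw [Polynomial.derivative_map, Polynomial.eval_map_algebraMap] at h1
  rw [Polynomial.eval_map_algebraMap] at h0
  have hne : Q0 ≠ 0 := by
    rintro rfl
    simp at h1
  have hint : IsIntegral L η := IsAlgebraic.isIntegral ⟨Q0, hne, h0⟩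
  obtain ⟨R, hR⟩ := minpoly.dvd L η h0
  refine (Polynomial.separable_iff_derivative_ne_zero (minpoly.irreducible hint)).2 fun hd => h1 ?_
  rw [hR, Polynomial.derivative_mul, hd]
  simp

variable [IsUltrametricDist Ω]

theorem taylor_int (k : Type*) [Field k] [Algebra k Ω] [Ctx k Ω]
    {Q : Polynomial Ω} (hQ : ∀ i, ‖Q.coeff i‖ ≤ 1) {x δ : Ω} (hx : ‖x‖ ≤ 1)
    (hδ : ‖δ‖ ≤ 1) :
    ∃ κ : Ω, ‖κ‖ ≤ 1 ∧ Q.eval (x + δ) = Q.eval x + Q.derivative.eval x * δ + κ * δ ^ 2 :=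
  Desc.taylor (intAlg k Ω) Q hQ hx hδ

/-- The derivative keeps the norm one in the open unit disc around a point. -/
theorem norm_der (k : Type*) [Field k] [Algebra k Ω] [Ctx k Ω]
    {Q : Polynomial Ω} (hQ : ∀ i, ‖Q.coeff i‖ ≤ 1) {x η : Ω} (hη : ‖η‖ ≤ 1)
    (h1 : ‖Q.derivative.eval η‖ = 1) (hx : ‖η - x‖ < 1) : ‖Q.derivative.eval x‖ = 1 := by
  have hδ : ‖x - η‖ < 1 := by rwa [norm_sub_rev]
  have hd := Desc.der_coeff (intAlg k Ω) Q hQ
  obtain ⟨κ, hκ, e⟩ := taylor_int k hd hη hδ.le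
  have h2 : ‖Q.derivative.derivative.eval η‖ ≤ 1 :=
    Desc.eval_mem (intAlg k Ω) _ (Desc.der_coeff (intAlg k Ω) _ hd) hη
  rw [add_sub_cancel, add_assoc] at e
  rw [e, norm_add_eq_left, h1]
  rw [h1]
  refine norm_add_lt_of ?_ ?_
  · rw [norm_mul]
    exact mul_lt_one_of_nonneg_of_lt_one_right h2 (norm_nonneg _) hδ
  · rw [norm_mul, norm_pow]
    exact mul_lt_one_of_nonneg_of_lt_one_right hκ (by positivity)
      (pow_lt_one₀ (norm_nonneg _) hδ two_ne_zero)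

variable [Ctx k Ω]

/-- Newton iteration inside a local ring of integral elements. -/
theorem newton {B : Subalgebra k Ω} (hB : ∀ b ∈ B, ‖b‖ ≤ 1) (hi : ∀ b ∈ B, ‖b‖ = 1 → b⁻¹ ∈ B)
    {Q : Polynomial Ω} (hQ : ∀ i, Q.coeff i ∈ B) {η : Ω} (h0 : Q.eval η = 0) (hη : ‖η‖ ≤ 1)
    (h1 : ‖Q.derivative.eval η‖ = 1) {ε : ℝ} (hε : 0 < ε) : ∃ x ∈ B, ‖η - x‖ < ε := by
  obtain ⟨c, hc⟩ := Ctx.res (k := k) η hη
  set ρ := ‖η - algebraMap k Ω c‖ with hρ
  have hρ0 : 0 ≤ ρ := norm_nonneg _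
  have hQ1 : ∀ i, ‖Q.coeff i‖ ≤ 1 := fun i => hB _ (hQ i)
  have key : ∀ n : ℕ, ∃ x ∈ B, ‖η - x‖ ≤ ρ ^ (n + 1) := by
    intro n
    induction n with
    | zero => exact ⟨_, B.algebraMap_mem c, by simp [hρ]⟩
    | succ n ih =>
      obtain ⟨x, hx, hd⟩ := ih
      have hρ1 : ρ ^ (n + 1) ≤ ρ := pow_le_of_le_one hρ0 hc.le (Nat.succ_ne_zero n)
      have hlt : ‖η - x‖ < 1 := (hd.trans hρ1).trans_lt hc
      have hu := norm_der k hQ1 hη h1 hlt
      have hu0 := ne_zero_of_norm_eq_one hu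
      obtain ⟨κ, hκ, e⟩ := taylor_int k hQ1 (hB x hx) hlt.le
      rw [add_sub_cancel, h0] at e
      refine ⟨x - Q.eval x * (Q.derivative.eval x)⁻¹, B.sub_mem hx (B.mul_mem
        (Desc.eval_mem B Q hQ hx) (hi _ (Desc.eval_mem B _ (Desc.der_coeff B Q hQ) hx) hu)), ?_⟩
      have e2 : η - (x - Q.eval x * (Q.derivative.eval x)⁻¹) =
          -(κ * (η - x) ^ 2 * (Q.derivative.eval x)⁻¹) := by
        field_simp
        linear_combination -e
      rw [e2, norm_neg, norm_mul, norm_mul, norm_inv, hu, inv_one, mul_one, norm_pow]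
      calc ‖κ‖ * ‖η - x‖ ^ 2 ≤ ‖η - x‖ ^ 2 := mul_le_of_le_one_left (by positivity) hκ
        _ = ‖η - x‖ * ‖η - x‖ := sq _
        _ ≤ ρ ^ (n + 1) * ρ := mul_le_mul hd (hd.trans hρ1) (norm_nonneg _) (by positivity)
        _ = ρ ^ (n + 1 + 1) := (pow_succ _ _).symm
  obtain ⟨n, hn⟩ := exists_pow_lt_of_lt_one hε hc
  obtain ⟨x, hx, hd⟩ := key n
  refine ⟨x, hx, lt_of_le_of_lt (hd.trans ?_) hn⟩
  exact pow_le_pow_of_le_one hρ0 hc.le (Nat.le_succ n)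

/-- Integral elements that are `e`-close to `W`. -/
def Near (W : IntermediateField k Ω) (e : ℝ) (h0 : 0 < e) (h1 : e ≤ 1) : Subalgebra k Ω where
  carrier := {h | ‖h‖ ≤ 1 ∧ ∃ w ∈ W, ‖h - w‖ < e}
  mul_mem' := by
    rintro a b ⟨ha, v, hv, hav⟩ ⟨hb, w, hw, hbw⟩
    refine ⟨by rw [norm_mul]; exact mul_le_one₀ ha (norm_nonneg _) hb, v * w, W.mul_mem hv hw, ?_⟩
    have hw1 : ‖w‖ ≤ 1 := by
      have := norm_sub_le_of hb (hbw.le.trans h1)
      rwa [sub_sub_cancel] at this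
    have e1 : a * b - v * w = a * (b - w) + w * (a - v) := by ring
    rw [e1]
    refine norm_add_lt_of ?_ ?_ <;> rw [norm_mul]
    · exact (mul_le_of_le_one_left (norm_nonneg _) ha).trans_lt hbw
    · exact (mul_le_of_le_one_left (norm_nonneg _) hw1).trans_lt hav
  add_mem' := by
    rintro a b ⟨ha, v, hv, hav⟩ ⟨hb, w, hw, hbw⟩
    refine ⟨norm_add_le_of ha hb, v + w, W.add_mem hv hw, ?_⟩
    rw [add_sub_add_comm]
    exact norm_add_lt_of hav hbw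
  algebraMap_mem' c := ⟨norm_alg_le c, _, W.algebraMap_mem c, by simpa using h0⟩

theorem hcl_near (T : Set Ω) (W : IntermediateField k Ω) (e : ℝ) (h0 : 0 < e) (h1 : e ≤ 1) :
    HCl T (Near W e h0 h1) := by
  have hi : ∀ b ∈ Near W e h0 h1, ‖b‖ = 1 → b⁻¹ ∈ Near W e h0 h1 := by
    rintro b ⟨-, w, hw, hbw⟩ hb
    have hw1 : ‖w‖ = 1 := by
      rw [← hb]
      exact norm_eq_of_norm_sub_lt (by rw [hb]; exact hbw.trans_le h1)
    refine ⟨by rw [norm_inv, hb, inv_one], w⁻¹, W.inv_mem hw, ?_⟩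
    have b0 := ne_zero_of_norm_eq_one hb
    have w0 := ne_zero_of_norm_eq_one hw1
    have e1 : b⁻¹ - w⁻¹ = -((b - w) * b⁻¹ * w⁻¹) := by field_simp; ring
    rw [e1, norm_neg, norm_mul, norm_mul, norm_inv, norm_inv, hb, hw1]
    simpa using hbw
  refine ⟨hi, fun Q η _ hQ hQ0 hη hd => ⟨hη, ?_⟩⟩
  obtain ⟨x, ⟨-, w, hw, hxw⟩, hx⟩ :=
    newton (B := Near W e h0 h1) (fun b hb => hb.1) hi hQ hQ0 hη hd h0
  refine ⟨w, hw, ?_⟩
  have := norm_add_lt_of hx hxw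
  rwa [sub_add_sub_cancel] at this

theorem hcl_hens (T : Set Ω) (M : IntermediateField k Ω) :
    HCl T ((hens M).toSubalgebra ⊓ intAlg k Ω) := by
  have hi : ∀ b ∈ (hens M).toSubalgebra ⊓ intAlg k Ω, ‖b‖ = 1 →
      b⁻¹ ∈ (hens M).toSubalgebra ⊓ intAlg k Ω := fun b hb h1 =>
    ⟨(hens M).inv_mem hb.1, by rw [SetLike.mem_coe, mem_intAlg, norm_inv, h1, inv_one]⟩
  refine ⟨hi, fun Q η _ hQ hQ0 hη hd => ⟨mem_hens_iff.2 ⟨?_, fun ε hε => ?_⟩, hη⟩⟩
  · exact isSeparable_trans (le_hens M) (sepOver_hens M)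
      (sep_of_simple (hens M) (fun i => (hQ i).1) hQ0 (ne_zero_of_norm_eq_one hd))
  · obtain ⟨x, hx, h1⟩ := newton (B := (hens M).toSubalgebra ⊓ intAlg k Ω) (fun b hb => hb.2)
      hi hQ hQ0 hη hd hε
    obtain ⟨b, hb, h2⟩ := (mem_hens_iff.1 hx.1).2 ε hε
    refine ⟨b, hb, ?_⟩
    have := norm_add_lt_of h1 h2
    rwa [sub_add_sub_cancel] at this

/-- The local ring of a stage lies in the henselization of its field. -/
theorem H_le_hens (T : Set Ω) (s : St Ω) : s.H k T ≤ (hens (s.M k)).toSubalgebra :=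
  (s.H_le (hcl_hens T (s.M k)) fun _ ha =>
    ⟨le_hens _ (s.R0_le_M k ha), s.norm_le_one_of_mem_R0 ha⟩).trans inf_le_left

end HS1

variable [IsUltrametricDist Ω] [Ctx k Ω]

theorem hs_der' (T : Set Ω) (s : St Ω) (K : IntermediateField k Ω) (D : Ω → Ω) (m : ℝ)
    (hT : T ⊆ K) (hK : s.M k ≤ K) (hD : IsDer K D) (hm : 0 ≤ m)
    (h1 : ∀ α ∈ s.Λ, ‖D (s.mon α)‖ ≤ m * ‖s.mon α‖) (h2 : ‖D s.y‖ ≤ m) (h3 : ‖D s.z‖ ≤ m) :
    ∀ h ∈ s.H k T, ‖D h‖ ≤ m := by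
  have hc : HCl T (Desc.Bdd hD m hm) := ⟨fun _ hb e => Desc.Bdd_inv hD hb e,
    fun Q η hη hQ e1 e2 e3 => Desc.Bdd_root hD Q hQ (hT hη) e2 e1 e3⟩
  refine fun h hh => (s.H_le hc (s.R0_le_iff.2 ⟨fun α hα h0 => ?_,
    ⟨hK (s.y_mem_M k), s.norm_y.le, h2⟩, ⟨hK (s.z_mem_M k), s.norm_z.le, h3⟩⟩) hh).2.2
  have hn := s.norm_mon_le_one hα h0
  exact ⟨hK (s.mon_mem_M k hα), hn, (h1 α hα).trans (mul_le_of_le_one_right hm hn)⟩

theorem hs_der (T : Set Ω) (s : St Ω) (K : IntermediateField k Ω) (D : Ω → Ω) (A : ℝ)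
    (hT : T ⊆ K) (hK : s.M k ≤ K) (hD : IsDer K D) (h : DB D s A) :
    ∀ h ∈ s.H k T, ‖D h‖ ≤ Real.exp A :=
  hs_der' T s K D _ hT hK hD (Real.exp_pos A).le h.1 h.2.1 h.2.2

omit [Ctx k Ω] in
theorem hs_exists_db (s : St Ω) (K : IntermediateField k Ω) (D : Ω → Ω) (hK : s.M k ≤ K)
    (hD : IsDer K D) : ∃ A, DB D s A := by
  obtain ⟨S, hS⟩ := s.fg
  set m : ℝ := ∑ α ∈ S, ‖D (s.mon α)‖ / ‖s.mon α‖ with hm
  have hm0 : 0 ≤ m := Finset.sum_nonneg fun _ _ => by positivity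
  have key : ∀ α ∈ s.Λ, ‖D (s.mon α)‖ ≤ m * ‖s.mon α‖ := by
    intro α hα
    rw [← hS] at hα
    have hc : ∀ {β : ℝ}, β ∈ AddSubgroup.closure (S : Set ℝ) → β ∈ s.Λ := fun h => hS ▸ h
    induction hα using AddSubgroup.closure_induction with
    | mem x hx =>
      have h0 : 0 < ‖s.mon x‖ := norm_pos_iff.2 (s.mon_ne_zero (hc (AddSubgroup.subset_closure hx)))
      rw [← div_le_iff₀ h0]
      exact Finset.single_le_sum (f := fun α => ‖D (s.mon α)‖ / ‖s.mon α‖)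
        (fun _ _ => by positivity) hx
    | zero => rw [s.mon_zero, hD.one]; simpa using hm0
    | add x y hx hy ix iy =>
      rw [s.mon_add _ (hc hx) _ (hc hy), hD.mul _ (hK (s.mon_mem_M k (hc hx))) _
        (hK (s.mon_mem_M k (hc hy))), norm_mul]
      refine norm_add_le_of ?_ ?_ <;> rw [norm_mul]
      · exact (mul_le_mul_of_nonneg_left iy (norm_nonneg _)).trans_eq (by ring)
      · exact (mul_le_mul_of_nonneg_left ix (norm_nonneg _)).trans_eq (by ring)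
    | neg x hx ix =>
      have h0 : ‖s.mon x‖ ≠ 0 := norm_ne_zero_iff.2 (s.mon_ne_zero (hc hx))
      rw [s.mon_neg (hc hx), hD.inv (hK (s.mon_mem_M k (hc hx))), norm_neg, norm_mul, norm_pow,
        norm_inv]
      exact (mul_le_mul_of_nonneg_left ix (by positivity)).trans_eq (by field_simp)
  have he := Real.add_one_le_exp (m + ‖D s.y‖ + ‖D s.z‖)
  have p1 := norm_nonneg (D s.y)
  have p2 := norm_nonneg (D s.z)
  exact ⟨m + ‖D s.y‖ + ‖D s.z‖, fun α hα => (key α hα).trans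
    (mul_le_mul_of_nonneg_right (by linarith) (norm_nonneg _)), by linarith, by linarith⟩

theorem hs_near (T : Set Ω) (s : St Ω) (W : IntermediateField k Ω) (e : ℝ) (he : e ≤ 1)
    (h1 : ∀ α ∈ s.Λ, 0 ≤ α → ∃ w ∈ W, ‖s.mon α - w‖ < e) (h2 : ∃ w ∈ W, ‖s.y - w‖ < e)
    (h3 : ∃ w ∈ W, ‖s.z - w‖ < e) : ∀ h ∈ s.H k T, ∃ w ∈ W, ‖h - w‖ < e := by
  have h0 : 0 < e := by
    obtain ⟨w, -, hw⟩ := h2
    exact (norm_nonneg _).trans_lt hw
  exact fun h hh => (s.H_le (HS1.hcl_near T W e h0 he) (s.R0_le_iff.2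
    ⟨fun α hα a0 => ⟨s.norm_mon_le_one hα a0, h1 α hα a0⟩, ⟨s.norm_y.le, h2⟩,
      ⟨s.norm_z.le, h3⟩⟩) hh).2

theorem hs_nx_alg (T : Set Ω) (s s' : St Ω) (h : Nx k T s s')
    (ha : Algebra.IsAlgebraic (s.M k) Ω) :
    Algebra.IsAlgebraic (s'.M k) Ω ∧ s.M k ≤ hens (s'.M k) ∧
      s'.H k T ≤ (hens (s'.M k)).toSubalgebra := by
  have h3 := HS1.H_le_hens (k := k) T s'
  have h2 : s.M k ≤ hens (s'.M k) := by
    refine s.M_le_iff.2 ⟨fun α hα => ?_, h3 (h.H_le (s.y_mem_H k T)), h3 (h.H_le (s.z_mem_H k T))⟩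
    obtain ⟨β, hβ, w, hw, -, e⟩ := h.mon α hα
    rw [e]
    exact mul_mem (le_hens _ (s'.mon_mem_M k hβ)) (h3 hw)
  exact ⟨alg_of_sepOver (le_hens _) (sepOver_hens _) (alg_of_le h2 ha), h2, h3⟩

theorem hs0 : HS k Ω := ⟨hs_der, hs_der', hs_exists_db, hs_near, hs_apx, hs_nx_alg⟩

theorem hs (_p : ℕ) : HS k Ω := hs0

end Pool.Agent.MP_19ffc6_ag.LU2

end MrgPart3

-- ======== part 4: formerly Pool.Agent.MP_19ffc6_ag.LU2.Low
section MrgPart4

/-! PROJECT LU2, module LOW: the main loop of LU1 inside the algebraic closure of a subfield. -/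

namespace Pool.Agent.MP_19ffc6_ag.LU2

open Polynomial IntermediateField Pool.Agent.MP_19ffc6_ag.LU

namespace Low

/-- The main loop of LU1: a stage with the same henselization as `F`. -/
theorem weak1 {k Ω : Type*} [Field k] [NontriviallyNormedField Ω] [IsUltrametricDist Ω]
    [Algebra k Ω] [IsAlgClosed k] [IsAlgClosed Ω] [Ctx k Ω] (p : ℕ) [Fact p.Prime] [CharP k p]
    [CharP Ω p] (F : IntermediateField k Ω) (hF : F.FG) (halg : Algebra.IsAlgebraic F Ω) (r : ℕ)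
    (x : Fin r → Ω) (hx : ∀ i, x i ∈ F ∧ x i ≠ 0) (hind : LinearIndependent ℤ fun i => nu (x i))
    (htr : Algebra.trdeg k F ≤ r + 1) : ∃ s : Stage Ω, s.M k ≤ hens F ∧ F ≤ hens (s.M k) := by
  have hb' : HB k Ω p := hb
  have hh : HensStmt k Ω := hens_isHens
  have hle : LeStmt k Ω p := le_props hb'
  have hen : LU.EngineStmt k Ω p := engine (chain p) clean hle trans
  have hmon : MonStmt k Ω := mon_props p hle hen
  have hl : LineStmt k Ω p := lines hb' hh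
  have hd : DStmt k Ω := lemD hb'
  have hs : SepStmt k Ω := sep_crit
  obtain ⟨s0, h1, h2, -⟩ := init p hs F hF halg r x hx hind htr
  have haE : Algebra.IsAlgebraic (hens F) Ω := alg_hens halg
  have hE : IsHens (hens F) := hh F halg
  have ha0 : Algebra.IsAlgebraic (s0.M k) Ω := alg_of_sepOver h1 h2 halg
  have hfin0 : relrank (hens (s0.M k)) (hens F) < Cardinal.aleph0 := by
    refine (Main.relrank_le_of_le_right (hens_mono h1) ?_).trans_lt
      (Main.relrank_sup_lt_aleph0 (alg_hens ha0) hF)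
    exact hb'.hens_le _ (alg_of_le le_sup_right halg) ((hh _ ha0).mono le_sup_left) _ le_sup_right
  let S : Set Cardinal := {c | ∃ s : Stage Ω, s.M k ≤ hens F ∧ SepOver (s.M k) (hens F) ∧
    c = relrank (hens (s.M k)) (hens F)}
  have hS0 : relrank (hens (s0.M k)) (hens F) ∈ S :=
    ⟨s0, h1.trans (le_hens F), h2.trans h1 (sepOver_hens F), rfl⟩
  obtain ⟨c, ⟨s, g1, g2, rfl⟩, hmin⟩ := wellFounded_lt.has_min S ⟨_, hS0⟩
  have hfin : relrank (hens (s.M k)) (hens F) < Cardinal.aleph0 :=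
    (not_lt.1 (hmin _ hS0)).trans_lt hfin0
  refine ⟨s, g1, (le_hens F).trans ?_⟩
  by_contra hne
  obtain ⟨s', f1, f2, -, f4⟩ := step_of hb' hh hle (gal hb')
    (wild hb' hh hle hen hmon hl (deg_bound hb')) (termA hb' hh ext hd hs) (termB hb' hh hd hs)
    (down hb' hh hl) haE hE s g1 g2 hfin hne
  exact hmin _ ⟨s', f1, f2, rfl⟩ f4

section push

variable {k Ω Ω' : Type*} [Field k] [NontriviallyNormedField Ω] [NontriviallyNormedField Ω']
  [Algebra k Ω] [Algebra k Ω'] (ι : Ω' →ₐ[k] Ω) (hι : ∀ a, ‖ι a‖ = ‖a‖)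

include hι

theorem nu_map (a : Ω') : nu (ι a) = nu a := by rw [nu, nu, hι]

theorem map_hens (M : IntermediateField k Ω') : (hens M).map ι ≤ hens (M.map ι) := by
  rintro _ ⟨a, ha, rfl⟩
  obtain ⟨h1, h2⟩ := mem_hens_iff.1 ha
  refine mem_hens_iff.2 ⟨?_, fun ε hε => ?_⟩
  · let e : M →+* M.map ι := (M.equivMap ι : M ≃ₐ[k] M.map ι)
    refine Separable.of_dvd (Separable.map (f := e) h1) (minpoly.dvd _ _ ?_)
    have h3 := congrArg (ι : Ω' →+* Ω) (minpoly.aeval M a)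
    rw [map_zero, aeval_def, hom_eval₂] at h3
    rw [aeval_def, eval₂_map]
    exact h3
  · obtain ⟨b, hb, h⟩ := h2 ε hε
    refine ⟨ι b, ⟨b, hb, rfl⟩, ?_⟩
    change ‖ι a - ι b‖ < ε
    rwa [← map_sub, hι]

theorem push (hf : ∀ a : Ω, a ≠ 0 → ∃ d : ℕ, 0 < d ∧ ∃ b, b ≠ 0 ∧ nu (ι b) = d * nu a)
    (s : Stage Ω') : ∃ t : Stage Ω, t.M k = (s.M k).map ι := by
  refine ⟨⟨s.Λ, s.fg, fun a ha => ?_, fun α => ι (s.mon α),
    fun α hα β hβ => by rw [s.mon_add α hα β hβ, map_mul],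
    fun α hα => by rw [hι, s.norm_mon α hα], ι s.y, by rw [hι]; exact s.norm_y⟩, ?_⟩
  · obtain ⟨d, hd, b, hb, h⟩ := hf a ha
    obtain ⟨d', hd', h'⟩ := s.full b hb
    refine ⟨d' * d, Nat.mul_pos hd' hd, ?_⟩
    rw [Nat.cast_mul, mul_assoc, ← h, nu_map ι hι]
    exact h'
  · simp only [Stage.M, Stage.gens, adjoin_map, Set.image_union, Set.image_image,
      Set.image_singleton]

end push

end Low

theorem low {k Ω : Type*} [Field k] [NontriviallyNormedField Ω] [IsUltrametricDist Ω]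
    [Algebra k Ω] [IsAlgClosed k] [IsAlgClosed Ω] [Ctx k Ω] (p : ℕ) [Fact p.Prime] [CharP k p]
    [CharP Ω p] : LowStmt k Ω := by
  intro L hL r x hx hind htr hfull
  classical
  let W : IntermediateField k Ω := (algebraicClosure L Ω).restrictScalars k
  have hW : ∀ a, a ∈ W ↔ IsAlgebraic L a := fun a => mem_algebraicClosure_iff
  have hLW : L ≤ W := fun a ha => (hW a).2 (isAlgebraic_algebraMap (⟨a, ha⟩ : L))
  let _ : NontriviallyNormedField W :=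
    { SubfieldClass.toNormedField W with
      non_trivial := by
        obtain ⟨a, ha⟩ := NontriviallyNormedField.non_trivial (α := Ω)
        have ha0 : a ≠ 0 := norm_pos_iff.1 (zero_lt_one.trans ha)
        obtain ⟨d, hd, b, hb, hb0, h⟩ := hfull a ha0
        refine ⟨⟨b, hLW hb⟩, ?_⟩
        change 1 < ‖b‖
        rw [← nu_pow] at h
        rw [norm_eq_of_nu_eq hb0 (pow_ne_zero _ ha0) h, norm_pow]
        exact one_lt_pow₀ ha hd.ne' }
  have : IsUltrametricDist W := ⟨fun a b c => dist_triangle_max (a : Ω) b c⟩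
  have : IsAlgClosed W := (algebraicClosure.isAlgClosure L Ω).isAlgClosed
  have : Ctx k W := ⟨fun c hc => Ctx.norm_alg (Ω := Ω) c hc, fun a ha => Ctx.res (a : Ω) ha⟩
  have : CharP W p := charP_of_injective_algebraMap (algebraMap k W).injective p
  have hι : ∀ a : W, ‖W.val a‖ = ‖a‖ := fun _ => rfl
  let F : IntermediateField k W := L.comap W.val
  have hFL : F.map W.val = L := by
    refine le_antisymm (map_le_iff_le_comap.2 le_rfl) fun a ha => ⟨⟨a, hLW ha⟩, ha, rfl⟩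
  let e : F ≃ₐ[k] L := (F.equivMap W.val).trans (equivOfEq hFL)
  have hF : F.FG := by
    obtain ⟨S, hS⟩ := hL
    refine ⟨S.preimage W.val W.val.injective.injOn, map_injective W.val ?_⟩
    rw [hFL, adjoin_map, Finset.coe_preimage, Set.image_preimage_eq_of_subset, hS]
    exact fun a ha => ⟨⟨a, hLW (hS ▸ subset_adjoin k _ ha)⟩, rfl⟩
  have halg : Algebra.IsAlgebraic F W := ⟨fun a =>
    IsAlgebraic.of_ringHom_of_comp_eq (e : F →+* L) (W.val : W →+* Ω) ((hW a).1 a.2)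
      e.surjective W.val.injective (RingHom.ext fun _ => rfl)⟩
  obtain ⟨s, h1, h2⟩ := Low.weak1 p F hF halg r (fun i => ⟨x i, hLW (hx i).1⟩)
    (fun i => ⟨(hx i).1, fun h => (hx i).2 (congrArg Subtype.val h)⟩) hind
    (by rw [e.trdeg_eq]; exact htr)
  obtain ⟨t, ht⟩ := Low.push W.val hι (fun a ha => by
    obtain ⟨d, hd, b, hb, hb0, h⟩ := hfull a ha
    exact ⟨d, hd, ⟨b, hLW hb⟩, fun h => hb0 (congrArg Subtype.val h), h⟩) s
  refine ⟨t, ?_, ?_⟩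
  · rw [ht, ← hFL]
    exact (map_mono _ h1).trans (Low.map_hens W.val hι F)
  · rw [ht, ← hFL]
    exact (map_mono _ h2).trans (Low.map_hens W.val hι _)

end Pool.Agent.MP_19ffc6_ag.LU2

end MrgPart4

-- ======== part 5: formerly Pool.Agent.MP_19ffc6_ag.LU2.Lowb
section MrgPart5

/-! Module LOWB of PROJECT LU2: the exits when `b < 1`. -/

namespace Pool.Agent.MP_19ffc6_ag.LU2

open Polynomial IntermediateField Pool.Agent.MP_19ffc6_ag.LU

variable {k Ω : Type*} [Field k] [NontriviallyNormedField Ω] [IsUltrametricDist Ω] [Algebra k Ω]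
  [IsAlgClosed k] [IsAlgClosed Ω] [Ctx k Ω] {p : ℕ} [Fact p.Prime] [CharP k p] [CharP Ω p]

namespace Lowb

/-- The exits when `z` is smaller than the vertex. -/
theorem main (hi : IsoStmt k Ω p) (hx : X0Stmt k Ω p) (cx : Cx Ω k) (X : WS p cx)
    (hb : X.P.b < 1) (hU : X.U X.P.s) (hδ : 0 < X.P.δ) (hz : X.P.δ < nu X.s.z) :
    Lower p cx X.P.s ∨ (X.P.ε = 1 ∧ ¬ NoX X.Φ X.P ∧ (StartX p cx X.P.s ∨
      (X.P.b * X.P.s = X.P.s - 1 ∧
      ∃ Y : WS p cx, Y.Pre ∧ Y.P.ε = 0 ∧ Y.P.s = X.P.s ∧ Y.P.b * (Y.P.s - 1) = Y.P.s ∧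
        Y.U (Y.P.s - 1)))) := by
  obtain ⟨h, hh, hr⟩ := X.rem
  have hps := X.ps
  have hline : ∀ x : Pt, x.1 + x.2.2 * X.P.δ = X.P.lev ↔ X.P.dfc x = 0 := fun x => by
    rw [Par.dfc_eq]
    constructor <;> intro h <;> linarith
  obtain ⟨x0, hx0, hl0, hmin, s', B, hst, -, -⟩ := hi cx X.s X.Φ X.N X.P.δ X.P.lev h X.N_mem hh
    (hr ▸ X.rep) hps.ess (fun x hx => hps.level_nonneg hx) hδ.le hz X.room
    (fun x hx => by
      have := hps.dfc_nonneg hx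
      rw [Par.dfc_eq] at this
      linarith)
    ⟨X.P.top, hps.top, (hline _).2 X.P.dfc_top⟩
  by_cases hlow : x0.2.1 + x0.2.2 < X.P.s
  · exact Or.inl ⟨s', B, _, _, hst, hlow⟩
  right
  obtain ⟨x, hxs, hxi, -, hd, hc⟩ := Uns.exists_vtx hU
  have hxi' : (x.2.2 : ℝ) < X.P.s := by exact_mod_cast hxi
  have hdeg : x.2.1 + x.2.2 < X.P.ε + X.P.s := by
    have h1 : (x.2.1 : ℝ) + x.2.2 < X.P.ε + X.P.s := by
      simp only [Par.cod, Par.gap] at hc
      nlinarith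
    exact_mod_cast h1
  have hε := hps.eps
  have hm := hmin x hxs ((hline x).2 hd)
  have hε1 : X.P.ε = 1 := by omega
  have hxs' : x.2.1 + x.2.2 = X.P.s := by omega
  have h0s : x0.2.1 + x0.2.2 = X.P.s := by omega
  refine ⟨hε1, fun hn => hn x hxs hxi hd hc hxs', ?_⟩
  have hj : 0 < x0.2.1 := by
    rcases Nat.eq_zero_or_pos x0.2.1 with h0 | h0
    · exfalso
      have hi0 : x0.2.2 = X.P.s := by omega
      have hne : x0 ≠ X.P.top := by
        intro he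
        rw [he] at h0
        simp only [Par.top] at h0
        omega
      have hlev : x0.1 = X.P.β := by
        rw [hi0, Par.lev] at hl0
        linarith
      rcases (hps.junk x0 hx0 hi0.ge hne).2 with h1 | h1
      · exact absurd hlev h1.ne'
      · omega
    · exact h0
  rcases Nat.eq_zero_or_pos x0.2.2 with hi0 | hi0
  · right
    have hx2 : x.2.2 = 0 := by omega
    have hx1 : x.2.1 = X.P.s := by omega
    refine ⟨?_, hx cx X hε1 hδ hz (fun y hy hdy => ?_) ⟨x0, hx0, (hline _).1 hl0, by omega, hi0⟩⟩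
    · simp only [Par.cod, Par.gap, hx2, hx1, hε1] at hc
      push_cast at hc
      linarith
    · have := hmin y hy ((hline y).2 hdy)
      omega
  · exact Or.inl ⟨s', B, _, _, hst, h0s, hj, hi0⟩

/-- A constant shift makes `z` smaller than the vertex. -/
theorem shift (hsh : ShStmt k p) (hr : RS k Ω p) (cx : Cx Ω k) (X : WS p cx) (hb : X.P.b ≤ 0)
    (hδ : 0 < X.P.δ) (hΛ : X.P.δ ∈ X.s.Λ) (hz : nu X.s.z = X.P.δ) :
    ∃ Y : WS p cx, Y.P = X.P ∧ X.P.δ < nu Y.s.z ∧ (∀ g, X.U g → Y.U g) ∧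
      (X.P.ε = 1 → NoX X.Φ X.P → NoX Y.Φ X.P) := by
  have hz0 : X.s.z ≠ 0 := cx.z_ne X.rep.nx
  have hm0 : X.s.mon X.P.δ ≠ 0 := X.s.mon_ne_zero hΛ
  have hn : ‖X.s.z / X.s.mon X.P.δ‖ ≤ 1 := by
    rw [← nu_nonneg_iff (div_ne_zero hz0 hm0), nu_div hz0 hm0, X.s.nu_mon hΛ, hz, sub_self]
  obtain ⟨c, hc⟩ := Ctx.res (k := k) _ hn
  have hlt : ‖X.s.z - X.s.mon X.P.δ * algebraMap k Ω c‖ < ‖X.s.mon X.P.δ‖ := by
    have he : X.s.z - X.s.mon X.P.δ * algebraMap k Ω c =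
        X.s.mon X.P.δ * (X.s.z / X.s.mon X.P.δ - algebraMap k Ω c) := by
      field_simp
    rw [he, norm_mul]
    exact mul_lt_of_lt_one_right (norm_pos_iff.2 hm0) hc
  have hw : X.s.mon X.P.δ * algebraMap k Ω c ∈
      Algebra.adjoin k (X.s.mon '' {α | α ∈ X.s.Λ ∧ 0 ≤ α} ∪ {X.s.y}) :=
    mul_mem (Algebra.subset_adjoin (Or.inl ⟨_, ⟨hΛ, hδ.le⟩, rfl⟩)) (Subalgebra.algebraMap_mem _ c)
  obtain ⟨s', hst, hz', -, hH, hnx⟩ := hr.transl cx.T X.s _ hw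
    (hlt.trans (X.s.norm_mon_lt_one hΛ hδ))
  have hΛ' : s'.Λ = X.s.Λ := congrArg Stage.Λ hst
  have hmon : s'.mon = X.s.mon := congrArg Stage.mon hst
  have hev := hr.shift X.s s' X.P.δ (monomial 0 c) hΛ hst (by rw [hz']; simp) X.Φ X.rep.supp
  have hrep : Rp p cx s' (shp X.P.δ (monomial 0 c) X.Φ) X.r :=
    X.rep.transport hnx (hΛ' ▸ X.rep.supp.shp fun _ => hΛ) (by rw [hev])
  obtain ⟨h1, -, h3, h4, -⟩ := hsh cx.fl X.s.Λ X.Φ X.P X.P.δ 0 c X.ps hΛ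
    (Or.inr ⟨rfl, by simpa using hb⟩)
  have hcl := hr.clean cx s' _ _ hrep
  rw [hΛ'] at hcl
  refine ⟨⟨s', cln cx.fl p X.s.Λ (shp X.P.δ (monomial 0 c) X.Φ), X.P, X.r, X.N, hcl,
    hΛ' ▸ X.N_mem, by rw [hH, hmon]; exact X.rem, by rw [hΛ']; exact h1, X.room⟩, rfl, ?_,
    fun g hg => ?_, fun hε => h4 hε hb⟩
  · have hz0' : s'.z ≠ 0 := cx.z_ne hrep.nx
    show X.P.δ < nu s'.z
    rw [← hz', norm_eq_exp hz0', X.s.norm_mon _ hΛ, Real.exp_lt_exp] at hlt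
    linarith
  · show Uns cx.fl p s'.Λ (cln cx.fl p X.s.Λ (shp X.P.δ (monomial 0 c) X.Φ)) X.P g
    rw [hΛ']
    exact h3 g hg

end Lowb

theorem lowb (hsh : ShStmt k p) (hr : RS k Ω p) (hi : IsoStmt k Ω p) (hrho : RhoStmt k Ω p)
    (hx : X0Stmt k Ω p) : LowbStmt k Ω p := by
  intro cx X hb hU hδ
  have h2 := X.ps.two
  rcases lt_or_ge X.P.δ (nu X.s.z) with hz | hz
  · rcases Lowb.main hi hx cx X hb hU hδ hz with h | ⟨hε, hn, h | ⟨h1, h3⟩⟩
    · exact Or.inl h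
    · exact Or.inr (Or.inl ⟨hε, h, Or.inl hn⟩)
    · exact Or.inr (Or.inr ⟨hε, hn, h1, h3⟩)
  obtain ⟨r1, r2⟩ := hrho cx X hz
  by_cases hc : nu X.s.z < X.P.δ ∨ 0 < X.P.b
  · exact Or.inl ((r1 hc).mono h2)
  push Not at hc
  by_cases hΛ : X.P.δ ∈ X.s.Λ
  · obtain ⟨Y, hP, hY, hYU, hno⟩ := Lowb.shift hsh hr cx X hc.2 hδ hΛ (le_antisymm hz hc.1)
    have := Lowb.main hi hx cx Y (hP ▸ hb) (hP ▸ hYU _ hU) (hP ▸ hδ) (hP ▸ hY)
    rw [hP] at this
    rcases this with h | ⟨hε, hn, h | ⟨h1, h3⟩⟩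
    · exact Or.inl h
    · exact Or.inr (Or.inl ⟨hε, h, Or.inl fun h' => hn (hno hε h')⟩)
    · exact Or.inr (Or.inr ⟨hε, fun h' => hn (hno hε h'), h1, h3⟩)
  · rcases r2 hΛ with h | ⟨hs, hε, h⟩
    · exact Or.inl h
    · exact Or.inr (Or.inl ⟨hε, hs ▸ h, Or.inr ⟨hs, hΛ⟩⟩)

end Pool.Agent.MP_19ffc6_ag.LU2

end MrgPart5

-- ======== part 6: formerly Pool.Agent.MP_19ffc6_ag.LU2.PI
section MrgPart6

/-! PROJECT LU2, module PI: ascent along a purely inseparable extension of degree `p`. -/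

namespace Pool.Agent.MP_19ffc6_ag.LU2

open Polynomial IntermediateField Pool.Agent.MP_19ffc6_ag.LU

variable {k Ω : Type*} [Field k] [NontriviallyNormedField Ω] [IsUltrametricDist Ω] [Algebra k Ω]
  [IsAlgClosed k] [IsAlgClosed Ω] [Ctx k Ω] {p : ℕ} [Fact p.Prime] [CharP k p] [CharP Ω p]

namespace PI

omit [IsUltrametricDist Ω] [IsAlgClosed k] [IsAlgClosed Ω] [Ctx k Ω] in
theorem eval_mem (A : Subalgebra k Ω) (P : Polynomial Ω) (hP : ∀ i, P.coeff i ∈ A) {η : Ω}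
    (hη : η ∈ A) : P.eval η ∈ A := by
  rw [eval_eq_sum_range]
  exact A.sum_mem fun i _ => A.mul_mem (hP i) (A.pow_mem hη i)

omit [IsAlgClosed k] [Ctx k Ω] in
/-- An integral element of `K` lies in the henselized local ring of a later stage. -/
theorem exists_mem_H (hm : Mon2Stmt k Ω) (hna : NA2 k Ω) {K : IntermediateField k Ω} {s : St Ω}
    (hK : Strong K s) {T : Set Ω} (hT : ∀ a ∈ K, a ∈ T) {f : Ω} (hf : f ∈ K) (h1 : ‖f‖ ≤ 1) :
    ∃ s' : St Ω, Strong K s' ∧ f ∈ s'.H k T := by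
  classical
  obtain ⟨η, P, hη, n1, -, hP, e0, n2, -, hG⟩ := eta (s.M k) {f} fun z hz => by
    rw [Finset.mem_singleton.1 hz]
    exact ⟨hK.2.2 hf, h1⟩
  obtain ⟨G, N, hG, e1⟩ := hG f (Finset.mem_singleton_self f)
  have hηK : η ∈ K := by
    refine (sup_le hK.2.1 (adjoin_le_iff.2 ?_) : _ ≤ K) hη
    simpa using hf
  obtain ⟨s', hn, hg⟩ := hm hna s (P.coeffs ∪ G.coeffs) hK.1 fun b hb => by
    rcases Finset.mem_union.1 hb with h | h
    · obtain ⟨i, hi, rfl⟩ := mem_coeffs_iff.1 h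
      exact ⟨(hP i).1, mem_support_iff.1 hi⟩
    · obtain ⟨i, hi, rfl⟩ := mem_coeffs_iff.1 h
      exact ⟨(hG i).1, mem_support_iff.1 hi⟩
  have hc : ∀ Q : Polynomial Ω, Q.coeffs ⊆ P.coeffs ∪ G.coeffs → (∀ i, ‖Q.coeff i‖ ≤ 1) →
      ∀ i, Q.coeff i ∈ s'.H k T := fun Q hQ hQ1 i => by
    by_cases h0 : Q.coeff i = 0
    · rw [h0]
      exact Subalgebra.zero_mem _
    · exact ((hg _ (hQ (coeff_mem_coeffs h0))).mono (Set.empty_subset T)).mem_H (hQ1 i)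
  have cP := hc P Finset.subset_union_left fun i => (hP i).2
  have cG := hc G Finset.subset_union_right fun i => (hG i).2
  have hηH : η ∈ s'.H k T := s'.root_mem_H (hT η hηK) cP e0 n1.le n2
  have hd : η ^ N * P.derivative.eval η ∈ s'.H k T := by
    refine Subalgebra.mul_mem _ (Subalgebra.pow_mem _ hηH N) (eval_mem _ _ (fun i => ?_) hηH)
    rw [coeff_derivative]
    exact Subalgebra.mul_mem _ (cP _)
      (Subalgebra.add_mem _ (natCast_mem _ i) (Subalgebra.one_mem _))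
  have n3 : ‖η ^ N * P.derivative.eval η‖ = 1 := by rw [norm_mul, norm_pow, n1, n2]; simp
  refine ⟨s', ?_, ?_⟩
  · rw [Strong, hn.M_eq]
    exact hK
  · rw [(eq_mul_inv_iff_mul_eq₀ (norm_ne_zero_iff.1 (by rw [n3]; exact one_ne_zero))).2 e1]
    exact Subalgebra.mul_mem _ (eval_mem _ _ cG hηH) (s'.inv_mem_H hd n3)

end PI

theorem pi2 (hs : HS k Ω) (hd : DerExStmt k Ω p) (hm : Mon2Stmt k Ω) (hi2 : Init2Stmt k Ω p)
    (he : EngineStmt k Ω p) (ht : TermStmt k Ω p) : PIStmt k Ω p := by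
  intro hna K s hfg hK w hw
  by_cases hp : ∃ a ∈ K, a ^ p = w ^ p
  · obtain ⟨a, ha, e⟩ := hp
    have e1 : a = w := by
      rw [← sub_eq_zero, ← sub_pow_char] at e
      exact sub_eq_zero.1 (pow_eq_zero_iff (Fact.out : p.Prime).ne_zero |>.1 e)
    refine ⟨s, ?_⟩
    rw [sup_eq_left.2 (adjoin_simple_le_iff.2 (e1 ▸ ha))]
    exact hK
  obtain ⟨l, hl, hlt⟩ := s.exists_gt ‖w‖
  have hmK : s.mon l ∈ K := hK.2.1 (s.mon_mem_M k hl)
  have hm0 : s.mon l ≠ 0 := s.mon_ne_zero hl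
  have hf : (w * s.mon l) ^ p ∈ K := by
    rw [mul_pow]
    exact K.mul_mem hw (pow_mem hmK p)
  have n1 : ‖(w * s.mon l) ^ p‖ ≤ 1 := by
    rw [norm_pow, norm_mul, s.norm_mon l hl, Real.exp_neg]
    refine pow_le_one₀ (by positivity) (mul_inv_le_one_of_le₀ ?_ (Real.exp_pos l).le)
    linarith [Real.add_one_le_exp l]
  obtain ⟨D, hD, hDf⟩ := hd K hfg _ hf fun a ha e => hp ⟨a / s.mon l, K.div_mem ha hmK, by
    rw [div_pow, e, mul_pow, mul_div_cancel_right₀ _ (pow_ne_zero p hm0)]⟩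
  obtain ⟨s', hK', hH⟩ := PI.exists_mem_H hm hna hK (T := {a | True ∧ a ∈ K})
    (fun a ha => ⟨trivial, ha⟩) hf n1
  let cx : Cx Ω k :=
    { fl := True, K := K, f := (w * s.mon l) ^ p, D := D, s0 := s', der := hD, f_mem := hf,
      Df := hDf, M_le := hK'.2.1
      ne := fun t hn =>
        ⟨(hna t (hs.nx_alg _ _ _ hn hK'.1).1).ne_zero 0,
          (hna t (hs.nx_alg _ _ _ hn hK'.1).1).ne_zero 1⟩ }
  obtain ⟨μ, hμ⟩ := hi2 cx hH
  obtain ⟨t, h⟩ := ht cx trivial hfg hK' (he cx μ hμ) (w * s.mon l) rfl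
  refine ⟨t, ?_⟩
  have e : K ⊔ adjoin k {w} = K ⊔ adjoin k {w * s.mon l} := by
    refine le_antisymm (sup_le le_sup_left (adjoin_simple_le_iff.2 ?_))
      (sup_le le_sup_left (adjoin_simple_le_iff.2 ?_))
    · have := div_mem (le_sup_right (a := K) (mem_adjoin_simple_self k (w * s.mon l)))
        (le_sup_left (b := adjoin k {w * s.mon l}) hmK)
      rwa [mul_div_cancel_right₀ _ hm0] at this
    · exact mul_mem (le_sup_right (a := K) (mem_adjoin_simple_self k w))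
        (le_sup_left (b := adjoin k {w}) hmK)
  rw [e]
  exact h

end Pool.Agent.MP_19ffc6_ag.LU2

end MrgPart6

-- ======== part 7: formerly Pool.Agent.MP_19ffc6_ag.LU2.Pert
section MrgPart7

/-! PROJECT LU2, module PERT: a field that approximates the generators of a stage adically has
the stage in its henselization. -/

namespace Pool.Agent.MP_19ffc6_ag.LU2

open Polynomial IntermediateField Pool.Agent.MP_19ffc6_ag.LU

variable {k Ω : Type*} [Field k] [NontriviallyNormedField Ω] [IsUltrametricDist Ω] [Algebra k Ω]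
  [Ctx k Ω]

namespace Pert

/-- the hypotheses of the perturbation lemma -/
structure Hy (T : Set Ω) (s : St Ω) (K W : IntermediateField k Ω) (μ : ℝ) : Prop where
  hT : T ⊆ K
  hM : s.M k ≤ K
  hW : W ≤ K
  mem : μ ∈ s.Λ
  pos : 0 < μ
  mon : ∀ α ∈ s.Λ, ∃ m ∈ W, ∃ h ∈ s.H k T, s.mon α = m * (1 + s.mon μ * h)
  y : ∃ m ∈ W, ∃ h ∈ s.H k T, s.y = m + s.mon μ * h
  z : ∃ m ∈ W, ∃ h ∈ s.H k T, s.z = m + s.mon μ * h

variable {T : Set Ω} {s : St Ω} {K W : IntermediateField k Ω} {μ : ℝ}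

theorem Hy.mon' (H : Hy T s K W μ) {α : ℝ} (hα : α ∈ s.Λ) :
    ∃ m ∈ W, ∃ h ∈ s.H k T, s.mon α = m * (1 + s.mon μ * h) ∧ ‖m‖ = ‖s.mon α‖ := by
  obtain ⟨m, hm, h, hh, e⟩ := H.mon α hα
  exact ⟨m, hm, h, hh, e, by rw [e, norm_mul, s.norm_one_add H.mem H.pos hh, mul_one]⟩

omit [IsUltrametricDist Ω] [Ctx k Ω] in
theorem Hy.one_add (H : Hy T s K W μ) {h : Ω} (hh : h ∈ s.H k T) :
    1 + s.mon μ * h ∈ s.H k T :=
  add_mem (one_mem _) (mul_mem (s.mon_mem_H k T H.mem H.pos.le) hh)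

omit [IsUltrametricDist Ω] [Ctx k Ω] in
theorem Hy.small (H : Hy T s K W μ) {c ε : ℝ} (hε : 0 < ε) :
    ∃ n : ℕ, Real.exp (-μ) ^ n * c < ε := by
  have h1 : Real.exp (-μ) < 1 := by simpa using H.pos
  have h2 := (tendsto_pow_atTop_nhds_zero_of_lt_one (Real.exp_pos _).le h1).mul_const c
  rw [zero_mul] at h2
  exact (h2.eventually (gt_mem_nhds hε)).exists

/-- the derivation is bounded by `m` on the generators -/
def Bd (D : Ω → Ω) (s : St Ω) (m : ℝ) : Prop :=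
  0 ≤ m ∧ (∀ α ∈ s.Λ, ‖D (s.mon α)‖ ≤ m * ‖s.mon α‖) ∧ ‖D s.y‖ ≤ m ∧ ‖D s.z‖ ≤ m

theorem Hy.bd_step (H : Hy T s K W μ) (hs : HS k Ω) {D : Ω → Ω} (hD : IsDer K D)
    (h0 : ∀ a ∈ W, D a = 0) {m : ℝ} (hb : Bd D s m) : Bd D s (Real.exp (-μ) * m) := by
  have hK := s.H_le_K H.hT H.hM
  have mK : s.mon μ ∈ K := H.hM (s.mon_mem_M k H.mem)
  have key : ∀ h ∈ s.H k T, ‖D (s.mon μ * h)‖ ≤ Real.exp (-μ) * m := by
    intro h hh
    rw [hD.mul _ mK _ (hK hh)]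
    refine norm_add_le_of ?_ ?_
    · rw [norm_mul, s.norm_mon μ H.mem]
      exact mul_le_mul_of_nonneg_left
        (hs.der' T s K D m H.hT H.hM hD hb.1 hb.2.1 hb.2.2.1 hb.2.2.2 h hh) (Real.exp_pos _).le
    · rw [norm_mul, mul_comm (Real.exp _), ← s.norm_mon μ H.mem]
      exact (mul_le_of_le_one_left (norm_nonneg _) (s.norm_le_one_of_mem_H hh)).trans
        (hb.2.1 μ H.mem)
  have key' : ∀ a, (∃ w ∈ W, ∃ h ∈ s.H k T, a = w + s.mon μ * h) →
      ‖D a‖ ≤ Real.exp (-μ) * m := by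
    rintro _ ⟨w, hw, h, hh, rfl⟩
    rw [hD.add _ (H.hW hw) _ (mul_mem mK (hK hh)), h0 w hw, zero_add]
    exact key h hh
  refine ⟨mul_nonneg (Real.exp_pos _).le hb.1, fun α hα => ?_, key' _ H.y, key' _ H.z⟩
  obtain ⟨w, hw, h, hh, e, e'⟩ := H.mon' hα
  rw [← e', e, hD.mul _ (H.hW hw) _ (hK (H.one_add hh)), h0 w hw, mul_zero, add_zero, norm_mul,
    mul_comm]
  exact mul_le_mul_of_nonneg_right (key' _ ⟨1, one_mem _, h, hh, rfl⟩) (norm_nonneg _)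

theorem Hy.der_zero (H : Hy T s K W μ) (hs : HS k Ω) {D : Ω → Ω} (hD : IsDer K D)
    (h0 : ∀ a ∈ W, D a = 0) : ∀ a ∈ s.M k ⊔ W, D a = 0 := by
  obtain ⟨A, hA⟩ := hs.exists_db s K D H.hM hD
  have all : ∀ n : ℕ, Bd D s (Real.exp (-μ) ^ n * Real.exp A) := by
    intro n
    induction n with
    | zero => rw [pow_zero, one_mul]; exact ⟨(Real.exp_pos _).le, hA⟩
    | succ n ih => rw [pow_succ', mul_assoc]; exact H.bd_step hs hD h0 ih
  have lim : ∀ (a : Ω) (c : ℝ), (∀ n : ℕ, ‖D a‖ ≤ Real.exp (-μ) ^ n * c) → D a = 0 := by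
    intro a c h
    by_contra hne
    obtain ⟨n, hn⟩ := H.small (c := c) (norm_pos_iff.2 hne)
    exact absurd (h n) (not_le.2 hn)
  have hle : s.M k ⊔ W ≤ hD.ker := by
    refine sup_le (s.M_le_iff.2 ⟨fun α hα => ⟨H.hM (s.mon_mem_M k hα), ?_⟩,
      ⟨H.hM (s.y_mem_M k), lim _ _ fun n => (all n).2.2.1⟩,
      ⟨H.hM (s.z_mem_M k), lim _ _ fun n => (all n).2.2.2⟩⟩) fun a ha => ⟨H.hW ha, h0 a ha⟩
    exact lim _ (Real.exp A * ‖s.mon α‖) fun n => by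
      rw [← mul_assoc]; exact (all n).2.1 α hα
  exact fun a ha => (hle ha).2

theorem Hy.near_step (H : Hy T s K W μ) (hs : HS k Ω) {e : ℝ} (he : e ≤ 1)
    (hb : ∀ h ∈ s.H k T, ∃ w ∈ W, ‖h - w‖ < e) :
    ∀ h ∈ s.H k T, ∃ w ∈ W, ‖h - w‖ < Real.exp (-μ) * e := by
  have h1 : Real.exp (-μ) < 1 := by simpa using H.pos
  have key : ∀ h ∈ s.H k T, ∃ w ∈ W, ‖s.mon μ * h - w‖ < Real.exp (-μ) * e := by
    intro h hh
    obtain ⟨m, hm, h', hh', e1, e2⟩ := H.mon' H.mem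
    obtain ⟨w, hw, e3⟩ := hb _ (mul_mem (H.one_add hh') hh)
    refine ⟨m * w, mul_mem hm hw, ?_⟩
    have e4 : s.mon μ * h - m * w = m * ((1 + s.mon μ * h') * h - w) := by
      linear_combination h * e1
    rw [e4, norm_mul, e2, s.norm_mon μ H.mem]
    exact mul_lt_mul_of_pos_left e3 (Real.exp_pos _)
  have key' : ∀ a, (∃ w ∈ W, ∃ h ∈ s.H k T, a = w + s.mon μ * h) →
      ∃ w ∈ W, ‖a - w‖ < Real.exp (-μ) * e := by
    rintro _ ⟨w, hw, h, hh, rfl⟩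
    obtain ⟨w', hw', e1⟩ := key h hh
    exact ⟨w + w', add_mem hw hw', by rwa [add_sub_add_left_eq_sub]⟩
  refine hs.near T s W _ ?_ (fun α hα h0 => ?_) (key' _ H.y) (key' _ H.z)
  · nlinarith [Real.exp_pos (-μ)]
  · obtain ⟨m, hm, h, hh, e1, e2⟩ := H.mon' hα
    obtain ⟨w, hw, e3⟩ := key' _ ⟨1, one_mem _, h, hh, rfl⟩
    refine ⟨m * w, mul_mem hm hw, lt_of_le_of_lt ?_ e3⟩
    rw [e1, ← mul_sub, norm_mul, e2]
    exact mul_le_of_le_one_left (norm_nonneg _) (s.norm_mon_le_one hα h0)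

theorem Hy.near (H : Hy T s K W μ) (hs : HS k Ω) {h : Ω} (hh : h ∈ s.H k T) {ε : ℝ} (hε : 0 < ε) :
    ∃ w ∈ W, ‖h - w‖ < ε := by
  have h1 : Real.exp (-μ) ≤ 1 := by simpa using H.pos.le
  have all : ∀ n : ℕ, ∀ h ∈ s.H k T, ∃ w ∈ W, ‖h - w‖ < Real.exp (-μ) ^ n := by
    intro n
    induction n with
    | zero =>
      intro h hh
      obtain ⟨c, hc⟩ := Ctx.res (k := k) h (s.norm_le_one_of_mem_H hh)
      exact ⟨_, W.algebraMap_mem c, by rwa [pow_zero]⟩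
    | succ n ih =>
      rw [pow_succ']
      exact H.near_step hs (pow_le_one₀ (Real.exp_pos _).le h1) ih
  obtain ⟨n, hn⟩ := H.small (c := 1) hε
  obtain ⟨w, hw, e⟩ := all n h hh
  exact ⟨w, hw, e.trans (by rwa [mul_one] at hn)⟩

end Pert

open Pert in
theorem pert (p : ℕ) [Fact p.Prime] [CharP k p] [CharP Ω p] (hs : HS k Ω) : PertStmt k Ω := by
  intro T s K W μ hK hT hM hW hsep hμ h0 h1 h2 h3
  have H : Hy T s K W μ := ⟨hT, hM, hW, hμ, h0, h1, h2, h3⟩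
  have sep : SepOver W K := by
    have := sep_crit K hK (s.M k ⊔ W : IntermediateField k Ω) W (sup_le hM hW) hW
      (by rwa [adjoin_self]) fun D hD hz => H.der_zero hs hD hz
    rwa [adjoin_self] at this
  have hH : ∀ h ∈ s.H k T, h ∈ hens W := fun h hh =>
    mem_hens_iff.2 ⟨sep h (s.H_le_K hT hM hh), fun ε hε => H.near hs hh hε⟩
  refine ⟨sep, s.M_le_iff.2 ⟨fun α hα => ?_, hH _ (s.y_mem_H k T), hH _ (s.z_mem_H k T)⟩⟩
  obtain ⟨m, hm, h, hh, e⟩ := h1 α hα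
  rw [e]
  exact mul_mem (le_hens W hm) (hH _ (H.one_add hh))

end Pool.Agent.MP_19ffc6_ag.LU2

end MrgPart7

-- ======== part 8: formerly Pool.Agent.MP_19ffc6_ag.LU2.Prep
section MrgPart8

/-! PROJECT LU2: preparation of a face by finitely many monomial shifts. -/

namespace Pool.Agent.MP_19ffc6_ag.LU2

open Polynomial IntermediateField Pool.Agent.MP_19ffc6_ag.LU

variable {k : Type*} [Field k] [IsAlgClosed k] {p : ℕ} [Fact p.Prime] [CharP k p]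

namespace Prep

open Classical in
/-- The face terms of height `s - q`. -/
noncomputable def FF (p : ℕ) (Φ : Pol2 k) (P : Par) (θ : ℝ) : Finset Pt :=
  Φ.support.filter fun x => x.2.2 + qq p P.s = P.s ∧ P.dfc x = θ * P.cod x

omit [IsAlgClosed k] [Fact p.Prime] [CharP k p] in
theorem mem_FF {Φ : Pol2 k} {P : Par} {θ : ℝ} {x : Pt} :
    x ∈ FF p Φ P θ ↔ x ∈ Φ.support ∧ x.2.2 + qq p P.s = P.s ∧ P.dfc x = θ * P.cod x := by
  unfold FF
  rw [Finset.mem_filter]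

/-- A face shift keeps the distance from the face. -/
theorem line_shift {P : Par} {θ a : ℝ} {m n : ℕ} (ho : OnFace P θ a m) {x x' : Pt}
    (h1 : x'.1 = x.1 + n * a) (h2 : x'.2.1 = x.2.1 + n * m) (h3 : x'.2.2 + n = x.2.2) :
    P.dfc x' - θ * P.cod x' = P.dfc x - θ * P.cod x ∧
      P.cod x' = P.cod x + n * (P.b - m) := by
  have e1 := P.dfc_shift h1 h3
  have e2 := P.cod_shift h2 h3
  rw [ho.2] at e1
  push_cast at e2
  constructor
  · rw [e1, e2]; ring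
  · rw [e2]; ring

/-- Defect and codegree of a power of the shift times the top. -/
theorem pow_pt {P : Par} {x : Pt} {q m : ℕ} {a : ℝ} (h0 : x.2.2 + q = P.s)
    (h1 : x.1 = P.β + q * a) (h2 : x.2.1 = P.ε + q * m) :
    P.dfc x = q * (a - P.δ) ∧ P.cod x = q * (P.b - m) := by
  have hg : P.gap x = q := by
    unfold Par.gap
    rw [← h0]; push_cast; ring
  constructor
  · unfold Par.dfc
    rw [hg, h1]; ring
  · unfold Par.cod
    rw [hg, h2]; push_cast; ring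

omit [IsAlgClosed k] in
/-- Only the top contributes to a face point of height `s - q`. -/
theorem only_top (hl : LucStmt k p) {fl : Prop} {Λ : AddSubgroup ℝ} {Φ : Pol2 k} {P : Par}
    {θ a : ℝ} {m : ℕ} (hps : PS fl p Λ Φ P) (he : Exact Φ P) (hb : 1 ≤ P.b) (hθ : 0 < θ)
    (hH : ∀ x, Face Φ P θ x → Relv p P.s x.2.2 → x.2.2 + qq p P.s ≤ P.s)
    (ho : OnFace P θ a m) {x x0 : Pt} {n : ℕ} (hx : x.2.2 + qq p P.s = P.s)
    (hf : P.dfc x = θ * P.cod x) (hx0 : x0 ∈ Φ.support) (hn : 0 < n)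
    (hc : (x0.2.2.choose n : k) ≠ 0) (h1 : x.1 = x0.1 + n * a) (h2 : x.2.1 = x0.2.1 + n * m)
    (h3 : x.2.2 + n = x0.2.2) : x0 = P.top ∧ n = qq p P.s := by
  have hline := (line_shift ho h1 h2 h3).1
  have hf0 : P.dfc x0 = θ * P.cod x0 := by linarith
  by_cases hs : P.s ≤ x0.2.2
  · have ht : x0 = P.top := by
      by_contra ht
      have := hps.junk_above he (by linarith) hθ hx0 hs ht
      linarith
    refine ⟨ht, ?_⟩
    have : x0.2.2 = P.s := by rw [ht]; rfl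
    omega
  · exfalso
    have hnr : ¬ Relv p P.s x0.2.2 := by
      intro hr
      have := hH x0 ⟨hx0, by omega, hf0⟩ hr
      omega
    unfold Relv at hnr
    have hps' : ¬ p ∣ P.s := fun h => hnr (Or.inl h)
    have hp0 : p ∣ x0.2.2 := by
      by_contra h
      exact hnr (Or.inr h)
    have hpn : p ∣ n := hl.choose' _ _ hp0 hc
    have hq := ((hl.q_le P.s hps.two).2.1 hps').2
    have e : P.s - qq p P.s = x.2.2 := by omega
    rw [e] at hq
    apply hq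
    rw [← h3] at hp0
    exact (Nat.dvd_add_left hpn).1 hp0

/-- One round: a face term of height `s - q` is removed. -/
theorem round (hl : LucStmt k p) {fl : Prop} {Λ : AddSubgroup ℝ} {Φ : Pol2 k} {P : Par}
    {θ : ℝ} (hps : PS fl p Λ Φ P) (he : Exact Φ P) (hb : 1 ≤ P.b) (hθ : 0 < θ)
    (hnp : ¬ Prep p Λ Φ P θ) :
    ∃ Φ1, Sh fl p Λ (OnFace P θ) Φ Φ1 ∧ (FF p Φ1 P θ).card < (FF p Φ P θ).card ∧
      ((∃ x ∈ Φ1.support, 0 < P.cod x ∧ P.dfc x = θ * P.cod x) →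
        ∃ x ∈ Φ.support, 0 < P.cod x ∧ P.dfc x = θ * P.cod x) := by
  classical
  have hH : ∀ x, Face Φ P θ x → Relv p P.s x.2.2 → x.2.2 + qq p P.s ≤ P.s := by
    by_contra h
    exact hnp fun h' => absurd h' h
  have hex : ∃ x, Face Φ P θ x ∧ x.2.2 + qq p P.s = P.s := by
    by_contra h
    exact hnp fun _ h' => absurd h' h
  obtain ⟨x1, hf1, hh1⟩ := hex
  have hpw : ∃ a ∈ Λ, ∃ m : ℕ, x1.1 = P.β + qq p P.s * a ∧ x1.2.1 = P.ε + qq p P.s * m := by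
    by_contra h
    exact hnp fun _ _ => ⟨x1, hf1, hh1, h⟩
  obtain ⟨a, ha, m, e1, e2⟩ := hpw
  have hq : 0 < qq p P.s := qq_pos P.s
  have hqR : (0 : ℝ) < qq p P.s := by exact_mod_cast hq
  obtain ⟨hd, hcod⟩ := pow_pt hh1 e1 e2
  have hc0 := hps.face_cod_nonneg hθ hf1.1 hf1.2.2
  have ho : OnFace P θ a m := by
    constructor
    · rw [hcod] at hc0
      have := nonneg_of_mul_nonneg_right hc0 hqR
      nlinarith [this]
    · have h := hf1.2.2
      rw [hd, hcod] at h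
      apply mul_left_cancel₀ hqR.ne'
      rw [h]; ring
  have hch := (hl.q_le P.s hps.two).2.2
  have ht := hps.top_ne
  obtain ⟨c, hc⟩ := IsAlgClosed.exists_pow_nat_eq
    (-Φ x1 / ((P.s.choose (qq p P.s) : k) * Φ P.top)) hq
  have hkill : shp a (monomial m c) Φ x1 = 0 := by
    rw [shp_mono_apply_one (x1 := P.top) (n1 := qq p P.s) hq e1 e2 hh1]
    · have : (P.top).2.2 = P.s := rfl
      rw [this, hc]
      field_simp
      ring
    · intro x0 hx0 n hn hcn h1 h2 h3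
      exact (only_top hl hps he hb hθ hH ho hh1 hf1.2.2 hx0 hn hcn h1 h2 h3).2
  refine ⟨cln fl p Λ (shp a (monomial m c) Φ), ⟨a, m, c, ha, ho, rfl⟩, ?_, ?_⟩
  · apply Finset.card_lt_card
    rw [Finset.ssubset_iff_of_subset]
    · refine ⟨x1, mem_FF.2 ⟨hf1.1, hh1, hf1.2.2⟩, fun h => ?_⟩
      have := (mem_cln_support.1 (mem_FF.1 h).1).1
      exact (Finsupp.mem_support_iff.1 this) hkill
    · intro x hx
      obtain ⟨hx1, hx2, hx3⟩ := mem_FF.1 hx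
      refine mem_FF.2 ⟨?_, hx2, hx3⟩
      have hx4 := (mem_cln_support.1 hx1).1
      by_cases hxx : x = x1
      · rw [hxx]; exact hf1.1
      · have hself : shp a (monomial m c) Φ x = Φ x := by
          apply shp_mono_apply_self
          intro x0 hx0 n hn hcn h1 h2 h3
          obtain ⟨r1, r2⟩ := only_top hl hps he hb hθ hH ho hx2 hx3 hx0 hn hcn h1 h2 h3
          apply hxx
          rw [r1, r2] at h1 h2
          have g1 : x.1 = x1.1 := by rw [h1, e1]; rfl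
          have g2 : x.2.1 = x1.2.1 := by rw [h2, e2]; rfl
          have g3 : x.2.2 = x1.2.2 := by omega
          exact Prod.ext g1 (Prod.ext g2 g3)
        rw [Finsupp.mem_support_iff, ← hself]
        exact Finsupp.mem_support_iff.1 hx4
  · rintro ⟨x, hx, hx1, hx2⟩
    rcases hc0.lt_or_eq with h | h
    · exact ⟨x1, hf1.1, h, hf1.2.2⟩
    · obtain ⟨x0, hx0, n, -, -, h1, h2, h3⟩ := shp_mono_support (mem_cln_support.1 hx).1
      obtain ⟨r1, r2⟩ := line_shift ho h1 h2 h3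
      have hbm : P.b - m = 0 := by
        rw [hcod] at h
        exact (mul_eq_zero.1 h.symm).resolve_left hqR.ne'
      rw [hbm, mul_zero, add_zero] at r2
      refine ⟨x0, hx0, r2 ▸ hx1, by linarith⟩

end Prep

theorem prep (hl : LucStmt k p) (hshs : ShsStmt k p) : PrepStmt k p := by
  intro fl Λ Φ P θ hps he hb hθ _
  have key : ∀ (n : ℕ) (Φ : Pol2 k), (Prep.FF p Φ P θ).card = n → PS fl p Λ Φ P → Exact Φ P →
      ∃ Φ', Shs fl p Λ (OnFace P θ) Φ Φ' ∧ Prep p Λ Φ' P θ ∧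
        ((∃ x ∈ Φ'.support, 0 < P.cod x ∧ P.dfc x = θ * P.cod x) →
          ∃ x ∈ Φ.support, 0 < P.cod x ∧ P.dfc x = θ * P.cod x) := by
    intro n
    induction n using Nat.strong_induction_on with
    | _ n ih =>
      intro Φ hn hps he
      by_cases hp : Prep p Λ Φ P θ
      · exact ⟨Φ, Relation.ReflTransGen.refl, hp, id⟩
      · obtain ⟨Φ1, hsh, hlt, hlast⟩ := Prep.round hl hps he hb hθ hp
        obtain ⟨hps1, he1, -⟩ := hshs fl Λ Φ Φ1 P θ hθ hps (Relation.ReflTransGen.single hsh)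
        obtain ⟨Φ', h1, h2, h3⟩ := ih _ (hn ▸ hlt) Φ1 rfl hps1 (he1 he)
        exact ⟨Φ', Relation.ReflTransGen.head hsh h1, h2, fun h => hlast (h3 h)⟩
  exact key _ Φ rfl hps he

end Pool.Agent.MP_19ffc6_ag.LU2

end MrgPart8

-- ======== part 9: formerly Pool.Agent.MP_19ffc6_ag.LU2.Real
section MrgPart9

/-! PROJECT LU2, module REAL: the operations on polygons are realized by changes of the stage. -/

namespace Pool.Agent.MP_19ffc6_ag.LU2

open Polynomial IntermediateField Pool.Agent.MP_19ffc6_ag.LU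

variable {k Ω : Type*} [Field k] [NontriviallyNormedField Ω] [IsUltrametricDist Ω] [Algebra k Ω]
  [IsAlgClosed k] [IsAlgClosed Ω] [Ctx k Ω] {p : ℕ} [Fact p.Prime] [CharP k p] [CharP Ω p]

namespace RealM

omit [IsAlgClosed Ω] in
theorem nsub (a b : Ω) : ‖a - b‖ ≤ max ‖a‖ ‖b‖ := by
  simpa [sub_eq_add_neg] using IsUltrametricDist.norm_add_le_max a (-b)

omit [IsAlgClosed k] [IsAlgClosed Ω] [Ctx k Ω] [Fact p.Prime] [CharP k p] [CharP Ω p] in
/-- translation of `z` by `mon a * l y` -/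
theorem move [Ctx k Ω] (hs : HS k Ω) (hr : RS k Ω p) {cx : Cx Ω k} {s : St Ω} {Φ : Pol2 k} {r : Ω}
    (h : Rp p cx s Φ r) {a A A0 : ℝ} {l : k[X]} (ha : l ≠ 0 → a ∈ s.Λ) (h0 : 0 ≤ a)
    (hA : A ≤ A0 + a) (hdb : DB cx.D s A) (hz : ‖cx.D s.z‖ ≤ Real.exp A0)
    (hn : l ≠ 0 → ‖s.z - s.mon a * aeval s.y l‖ < 1) :
    ∃ s' : St Ω, s'.toStage = s.toStage ∧ s'.z = s.z - s.mon a * aeval s.y l ∧ Nx k cx.T s s' ∧
      Rp p cx s' (cln cx.fl p s'.Λ (shp a l Φ)) r ∧ DB cx.D s' A ∧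
      ‖cx.D s'.z‖ ≤ Real.exp A0 := by
  by_cases hl : l = 0
  · subst hl
    refine ⟨s, rfl, by rw [map_zero, mul_zero, sub_zero], Nx.refl _ _, ?_, hdb, hz⟩
    rw [shp_zero]
    exact hr.clean cx s Φ r h
  have ha' := ha hl
  obtain ⟨s', e1, e2, -, -, nx⟩ := hr.transl cx.T s (s.mon a * aeval s.y l)
    (mul_mem (Algebra.subset_adjoin (Or.inl ⟨a, ⟨ha', h0⟩, rfl⟩))
      (s.aeval_y_mem (Algebra.subset_adjoin (Or.inr rfl)) l)) (hn hl)
  have eΛ : s'.Λ = s.Λ := congrArg Stage.Λ e1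
  have em : s'.mon = s.mon := congrArg Stage.mon e1
  have ey : s'.y = s.y := congrArg Stage.y e1
  have hM := cx.M_le' h.nx
  have hH : aeval s.y l ∈ s.H k cx.T := s.aeval_y_mem (s.y_mem_H k cx.T) l
  have hK : aeval s.y l ∈ cx.K := cx.H_le h.nx hH
  have d1 : ‖cx.D (s.mon a * aeval s.y l)‖ ≤ Real.exp (A - a) :=
    hdb.norm_mon_mul cx.der hM ha' hK (s.norm_le_one_of_mem_H hH)
      (hs.der cx.T s cx.K cx.D A cx.T_sub hM cx.der hdb _ hH)
  have d2 : ‖cx.D s'.z‖ ≤ max ‖cx.D s.z‖ ‖cx.D (s.mon a * aeval s.y l)‖ := by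
    rw [e2, cx.der.sub (hM (s.z_mem_M k)) (mul_mem (hM (s.mon_mem_M k ha')) hK)]
    exact nsub _ _
  refine ⟨s', e1, e2, nx, hr.clean cx s' _ r (h.transport nx (eΛ ▸ h.supp.shp ha) ?_),
    ⟨fun α hα => ?_, ey ▸ hdb.2.1, d2.trans (max_le hdb.2.2 (d1.trans ?_))⟩,
    d2.trans (max_le hz (d1.trans ?_))⟩
  · rw [hr.shift s s' a l ha' e1 e2 Φ h.supp]
  · rw [em]
    exact hdb.1 α (eΛ ▸ hα)
  · exact Real.exp_le_exp.2 (by linarith)
  · exact Real.exp_le_exp.2 (by linarith)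

omit [IsAlgClosed k] [IsAlgClosed Ω] [Fact p.Prime] [CharP k p] [CharP Ω p] in
theorem one (hs : HS k Ω) (hr : RS k Ω p) (hsh : ShStmt k p) {cx : Cx Ω k} (X : WS p cx)
    {A0 θ : ℝ} {Φ' : Pol2 k} (hI : X.Inv A0) (hθ : 0 < θ) (hb : 0 < X.P.b)
    (hlt : X.P.δ < nu X.s.z) (h : Sh cx.fl p X.s.Λ (OnFace X.P θ) X.Φ Φ') :
    ∃ Y : WS p cx, Y.Φ = Φ' ∧ Y.P = X.P ∧ Y.s.Λ = X.s.Λ ∧ Y.s.y = X.s.y ∧ Y.Inv A0 ∧
      Y.P.δ < nu Y.s.z := by
  obtain ⟨a, m, c, ha, ⟨hm, hf⟩, rfl⟩ := h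
  obtain ⟨A, hdb, hA⟩ := hI.db
  have δ0 := X.ps.δ0
  have hc : X.P.δ < a ∨ (X.P.δ = a ∧ X.P.b ≤ m) := by
    rcases hm.lt_or_eq with k1 | k1
    · exact Or.inl (sub_pos.1 (hf ▸ mul_pos hθ (sub_pos.2 k1)))
    · refine Or.inr ⟨?_, k1.ge⟩
      rw [k1, sub_self, mul_zero] at hf
      exact (sub_eq_zero.1 hf).symm
  have hδa : X.P.δ ≤ a := hc.elim le_of_lt fun k1 => k1.1.le
  have n1 : ‖X.s.z‖ < Real.exp (-X.P.δ) := by
    rw [norm_eq_exp (cx.z_ne X.rep.nx)]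
    exact Real.exp_lt_exp.2 (neg_lt_neg hlt)
  have n2 : ‖X.s.mon a * aeval X.s.y (monomial m c)‖ < Real.exp (-X.P.δ) := by
    rcases hc with k1 | ⟨k1, k2⟩
    · exact (X.s.norm_mon_mul_le ha (X.s.aeval_y_mem (X.s.y_mem_H k cx.T) _)).trans_lt
        (Real.exp_lt_exp.2 (neg_lt_neg k1))
    · have m0 : m ≠ 0 := by
        rintro rfl
        exact absurd (hb.trans_le k2) (by simp)
      have c1 : ‖algebraMap k Ω c‖ ≤ 1 :=
        X.s.norm_le_one_of_mem_H (T := cx.T) (Subalgebra.algebraMap_mem _ c)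
      rw [norm_mul, X.s.norm_mon a ha, aeval_monomial, norm_mul, norm_pow, k1]
      exact mul_lt_of_lt_one_right (Real.exp_pos _) (mul_lt_one_of_nonneg_of_lt_one_right c1
        (by positivity) (pow_lt_one₀ (norm_nonneg _) X.s.norm_y m0))
  have n3 := (nsub _ _).trans_lt (max_lt n1 n2)
  obtain ⟨s', e1, e2, nx, rp, db, dz⟩ := move hs hr X.rep (l := monomial m c) (fun _ => ha)
    (δ0.trans hδa) (hA.trans (by linarith)) hdb hI.dz
    fun _ => n3.trans_le (Real.exp_le_one_iff.2 (neg_nonpos.2 δ0))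
  have eΛ : s'.Λ = X.s.Λ := congrArg Stage.Λ e1
  refine ⟨⟨s', _, X.P, X.r, X.N, rp, nx.lat X.N_mem, nx.rem X.N_mem X.rem, ?_, X.room⟩, ?_, rfl,
    eΛ, congrArg Stage.y e1, ⟨⟨A, db, hA⟩, dz, hI.dr, hI.big⟩, ?_⟩
  · rw [eΛ]
    exact (hsh cx.fl _ _ _ a m c X.ps ha hc).1
  · change cln cx.fl p s'.Λ _ = _
    rw [eΛ]
  · rw [← e2, norm_eq_exp (cx.z_ne rp.nx)] at n3
    exact neg_lt_neg_iff.1 (Real.exp_lt_exp.1 n3)

omit [IsUltrametricDist Ω] [IsAlgClosed Ω] in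
theorem exists_n0 {Λ Λ' : AddSubgroup ℝ} {η : ℝ} {d : ℕ} {σ : ℝ → ℤ} (h : SD Λ Λ' η d σ)
    (S : Finset Pt) : ∃ n0 : ℕ, p ∣ n0 ∧ (d = 1 → n0 = 0) ∧ ∀ x ∈ S, 0 ≤ ex η d σ x + n0 := by
  by_cases hd : d = 1
  · subst hd
    refine ⟨0, dvd_zero p, fun _ => rfl, fun x _ => ?_⟩
    rw [h.ex_one]
    positivity
  refine ⟨p * S.sup fun x => (ex η d σ x).natAbs, dvd_mul_right _ _, fun e => absurd e hd,
    fun x hx => ?_⟩
  have a := Finset.le_sup (f := fun x => (ex η d σ x).natAbs) hx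
  have b := a.trans (Nat.le_mul_of_pos_left _ (Fact.out : p.Prime).pos)
  omega

end RealM

omit [IsAlgClosed k] [IsAlgClosed Ω] [CharP k p] in
theorem real2 (hs : HS k Ω) (hr : RS k Ω p) (hsh : ShStmt k p) : RealStmt k Ω p := by
  refine ⟨fun cx X A0 θ Φ' hI hθ hb hlt h => ?_, fun cx X A0 ζ P' hI hζ h0 hy ps es lv => ?_,
    fun cx X A0 hI hb => ?_⟩
  · induction h with
    | refl => exact ⟨X, rfl, rfl, rfl, rfl, hI, hlt⟩
    | tail _ h ih =>
      obtain ⟨Y, rfl, e2, e3, e4, hY, hl⟩ := ih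
      rw [← e2, ← e3] at h
      obtain ⟨Z, f1, f2, f3, f4, hZ⟩ := RealM.one hs hr hsh Y hY hθ (e2 ▸ hb) hl h
      exact ⟨Z, f1, f2.trans e2, f3.trans e3, f4.trans e4, hZ⟩
  · obtain ⟨s', eΛ, -, -, ez, nx, ev, -, -, db⟩ := hr.scale cx.T X.s ζ 0 hζ X.s.Λ.zero_mem h0.le
      le_rfl (Or.inr hy) (Or.inl rfl)
    rw [X.s.mon_zero, div_one] at ez
    rw [← eΛ] at ps
    refine ⟨⟨s', _, P', X.r, X.N, X.rep.transport nx ps.supp (by rw [ev _ X.rep.supp]),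
      nx.lat X.N_mem, nx.rem X.N_mem X.rem, ps, lv.trans_lt hI.big⟩, rfl, rfl, eΛ, ez, fun hδ => ?_⟩
    obtain ⟨A, hdb, hA⟩ := hI.db
    refine ⟨⟨_, db cx.K cx.D A (cx.M_le' X.rep.nx) cx.der hdb, ?_⟩, ?_, hI.dr, ?_⟩
    · change A + max ζ 0 ≤ A0 + P'.δ
      rw [max_eq_left h0.le]
      linarith
    · change ‖cx.D s'.z‖ ≤ _
      rw [ez]
      exact hI.dz
    · change _ * ((P'.s : ℝ) + 1) < X.N
      rw [es]
      exact hI.big
  · have y0 := cx.y_ne X.rep.nx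
    obtain ⟨d, σ, κ, s', u, sd, κ0, ez, nx, -, uH, u1, ev, db⟩ := hr.step cx.T X.s y0
    obtain ⟨n0, hp, h1, hn⟩ := RealM.exists_n0 (p := p) sd X.Φ.support
    refine ⟨d, n0, σ, κ, s'.Λ, sd, κ0, hp, h1, hn, fun l P' hl es eδ ps lv => ?_⟩
    have rp := X.rep.unit nx (X.rep.supp.stp sd) uH u1 hp (ev _ n0 X.rep.supp hn)
    obtain ⟨A, hdb, hA⟩ := hI.db
    have yp := X.s.nu_y_pos y0
    have k1 : nu X.s.y ≤ nu X.s.y * X.P.b := le_mul_of_one_le_right yp.le hb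
    have k2 : 0 < P'.δ := by linarith [X.ps.δ0]
    have k3 : A + nu X.s.y ≤ A0 + P'.δ := by linarith
    obtain ⟨s'', e1, -, nx', rp', db', dz'⟩ := RealM.move hs hr rp hl k2.le k3
      (db cx.K cx.D A (cx.M_le' X.rep.nx) cx.der hdb) (ez ▸ hI.dz) fun l0 =>
        (RealM.nsub _ _).trans_lt (max_lt s'.norm_z
          ((s'.norm_mon_mul_le (hl l0) (s'.aeval_y_mem (s'.y_mem_H k cx.T) l)).trans_lt
            (Real.exp_lt_one_iff.2 (neg_neg_of_pos k2))))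
    have eΛ : s''.Λ = s'.Λ := congrArg Stage.Λ e1
    have uK : u ∈ cx.K := cx.H_le rp.nx uH
    have rem : ∃ a ∈ s'.H k cx.T, u ^ n0 * X.r = s'.mon X.N * a := by
      obtain ⟨a, aH, e⟩ := nx.rem X.N_mem X.rem
      exact ⟨u ^ n0 * a, mul_mem (pow_mem uH _) aH, by rw [e, mul_left_comm]⟩
    have dr : ‖cx.D (u ^ n0 * X.r)‖ = ‖cx.D X.r‖ := by
      rw [cx.der.mul _ (pow_mem uK _) _ X.rep.r_mem, cx.der.pow uK,
        (CharP.cast_eq_zero_iff Ω p n0).2 hp, zero_mul, zero_mul, mul_zero, add_zero, norm_mul,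
        norm_pow, u1, one_pow, one_mul]
    rw [← eΛ] at ps ⊢
    refine ⟨⟨s'', _, P', _, X.N, rp', nx'.lat (nx.lat X.N_mem), nx'.rem (nx.lat X.N_mem) rem, ps,
      lv.trans_lt hI.big⟩, rfl, rfl, rfl, ⟨_, db', k3⟩, dz', dr.trans_lt hI.dr, ?_⟩
    change _ * ((P'.s : ℝ) + 1) < X.N
    rw [es]
    exact hI.big

end Pool.Agent.MP_19ffc6_ag.LU2

end MrgPart9

-- ======== part 10: formerly Pool.Agent.MP_19ffc6_ag.LU2.Run
section MrgPart10

/-! PROJECT LU2, module RUN: termination of the moves that keep the type. -/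

namespace Pool.Agent.MP_19ffc6_ag.LU2

open Polynomial IntermediateField Pool.Agent.MP_19ffc6_ag.LU

namespace Run

variable {k : Type*} [Field k] {fl : Prop} {p : ℕ}

theorem dfc_nonneg {Λ : AddSubgroup ℝ} {Φ : Pol2 k} {P : Par} (h : PS fl p Λ Φ P) {x : Pt}
    (hx : x ∈ Φ.support) : 0 ≤ P.dfc x := by
  rcases lt_or_ge x.2.2 P.s with a | a
  · exact (h.low x hx a).elim le_of_lt fun c => c.1.ge
  by_cases e : x = P.top
  · subst e
    simp [Par.dfc, Par.gap, Par.top]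
  have b1 := (h.junk x hx a e).1
  have b2 : P.gap x ≤ 0 := sub_nonpos.2 (by exact_mod_cast a)
  have b3 := mul_nonpos_of_nonpos_of_nonneg b2 h.δ0
  simp only [Par.dfc]
  linarith

/-- There is no infinite sequence of stationary moves with bounded vertex. -/
theorem pure (hc : ConvStmt) {Λ : AddSubgroup ℝ} (hΛ : Λ.FG) (Φ : ℕ → Pol2 k) (P : ℕ → Par)
    (V W : ℝ) (hps : ∀ n, PS fl p Λ (Φ n) (P n)) (hs : ∀ n, (P n).s = (P 0).s)
    (he : ∀ n, (P n).ε = (P 0).ε) (hb : ∀ n, (P n).b = (P 0).b) (h1 : 1 ≤ (P 0).b)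
    (hV : ∀ n, (P n).δ ≤ V)
    (hst : ∀ n, Stat Λ W (Φ n) (P n) Λ (Φ (n + 1)) (P (n + 1))) : False := by
  classical
  choose θ φ t0 tW pm eβ eδ ab tch ds alt using fun n => (hst n).2
  obtain ⟨nb, hnb⟩ := (hps 0).rat
  set F : ℝ := ((P 0).s.factorial : ℝ) with hF
  have F0 : 0 < F := by rw [hF]; exact_mod_cast Nat.factorial_pos _
  let o : ℕ → ℝ := fun n => ∑ i ∈ Finset.range n, φ i
  have os : ∀ n, o (n + 1) = o n + φ n := fun n => Finset.sum_range_succ _ _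
  have o0 : o 0 = 0 := Finset.sum_range_zero _
  have om : ∀ n, o n ∈ Λ := fun n => Λ.sum_mem fun i _ => pm i
  have on : ∀ n, 0 ≤ o n := fun n => Finset.sum_nonneg fun i _ =>
    (alt i).elim (fun a => a ▸ (t0 i).le) fun a => a.1.ge
  have dn : ∀ n, (P n).δ = (P 0).δ + (P 0).b * o n := fun n => by
    induction n with
    | zero => simp [o0]
    | succ n ih => rw [eδ, ih, hb n, os]; ring
  have bn : ∀ n, (P n).β = (P 0).β + (P 0).ε * o n := fun n => by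
    induction n with
    | zero => simp [o0]
    | succ n ih => rw [eβ, ih, he n, os]; ring
  have cn : ∀ n x, (P n).cod x = (P 0).cod x := fun n x => by
    simp only [Par.cod, Par.gap, hs n, he n, hb n]
  let Dz : Pt → ℤ := fun x => (P 0).ε * (P 0).s.factorial + (((P 0).s : ℤ) - x.2.2) * nb -
    x.2.1 * (P 0).s.factorial
  have hD : ∀ x, (Dz x : ℝ) = (P 0).cod x * F := fun x => by
    simp only [Dz, Par.cod, Par.gap]
    push_cast
    rw [← hnb, ← hF]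
    ring
  have nb0 : 0 ≤ nb := by
    have : (0 : ℝ) ≤ nb := by rw [← hnb]; positivity
    exact_mod_cast this
  let rel : ℕ → Pt → ℝ := fun n x => (P n).dfc x + (P 0).cod x * o n
  let G : ℕ → ℝ := fun n => (o n + θ n) / F
  have DG : ∀ n x, (Dz x : ℝ) * G n = (P 0).cod x * (o n + θ n) := fun n x => by
    rw [hD]
    simp only [G]
    field_simp
  refine hc (Λ ⊔ AddSubgroup.zmultiples (P 0).δ) (hΛ.sup ?_)
    (fun n => (Φ n).support.image fun x => (rel n x, Dz x)) G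
    ((P 0).ε * (P 0).s.factorial + (P 0).s * nb) ((V + W) / F) (fun n u hu => ?_)
    (strictMono_nat_of_lt_succ fun n => ?_) (fun n => ?_) ?_ (fun u hu => ?_) (fun n u hu => ?_)
    (fun n => ?_) fun n u hu => ?_
  · exact ⟨{(P 0).δ}, by rw [Finset.coe_singleton, AddSubgroup.zmultiples_eq_closure]⟩
  · obtain ⟨x, hx, rfl⟩ := Finset.mem_image.1 hu
    refine ⟨?_, ?_⟩
    · have e : rel n x = (x.1 - (P 0).top.1 - x.2.1 • o n) +
          (((x.2.2 : ℤ) - (P 0).s : ℤ)) • (P 0).δ := by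
        simp only [rel, Par.dfc, Par.cod, Par.gap, Par.top, dn n, bn n, hs n, nsmul_eq_mul,
          zsmul_eq_mul]
        push_cast
        ring
      change rel n x ∈ _
      rw [e]
      exact AddSubgroup.add_mem_sup (Λ.sub_mem (Λ.sub_mem ((hps n).supp x hx)
        ((hps 0).supp _ (hps 0).top)) (Λ.nsmul_mem (om n) _))
        (AddSubgroup.zsmul_mem_zmultiples _ _)
    · have a1 : (0 : ℤ) ≤ x.2.2 * nb := by positivity
      have a2 : (0 : ℤ) ≤ x.2.1 * (P 0).s.factorial := by positivity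
      simp only [Dz]
      linarith
  · refine div_lt_div_of_pos_right ?_ F0
    rw [os]
    rcases alt n with a | ⟨a, c⟩
    · linarith [t0 (n + 1)]
    · obtain ⟨x, hx, d, e⟩ := tch (n + 1)
      have := c x hx d
      rw [e] at this
      linarith [lt_of_mul_lt_mul_right this d.le]
  · refine div_le_div_of_nonneg_right ?_ F0.le
    have a1 := hV n
    have a2 := tW n
    have a3 := (hps 0).δ0
    rw [dn] at a1
    rw [hb] at a2
    nlinarith [on n, t0 n]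
  · exact div_pos (by rw [o0, zero_add]; exact t0 0) F0
  · obtain ⟨x, hx, rfl⟩ := Finset.mem_image.1 hu
    simp only [rel, o0, mul_zero, add_zero]
    exact dfc_nonneg (hps 0) hx
  · obtain ⟨x, hx, rfl⟩ := Finset.mem_image.1 hu
    have := ab n x hx
    rw [cn] at this
    simp only [DG, rel]
    linarith
  · obtain ⟨x, hx, d, e⟩ := tch n
    rw [cn] at d e
    refine ⟨_, Finset.mem_image_of_mem _ hx, ?_, ?_⟩
    · have : (0 : ℝ) < Dz x := by rw [hD]; positivity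
      exact_mod_cast this
    · simp only [DG, rel, e]
      ring
  · obtain ⟨x', hx', rfl⟩ := Finset.mem_image.1 hu
    obtain ⟨x, hx, d, e⟩ := ds n x' hx'
    rw [cn n, cn (n + 1)] at d e
    refine ⟨_, Finset.mem_image_of_mem _ hx, ?_, ?_⟩
    · have : (Dz x : ℝ) ≤ Dz x' := by
        rw [hD, hD]; exact mul_le_mul_of_nonneg_right d F0.le
      exact_mod_cast this
    · simp only [sub_mul, DG, rel, os]
      linarith

end Run

variable {k Ω : Type*} [Field k] [NontriviallyNormedField Ω] [Algebra k Ω] {p : ℕ}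

theorem run (hc : ConvStmt) (hap : AprStmt k Ω p) : RunStmt k Ω p := by
  classical
  intro cx A0 W Q Goal hstep X0 hX0 hQ0
  by_contra hG
  have hnat : ∀ X : WS p cx, X.Full A0 → ∃ n : ℕ, X.P.b * X.P.s.factorial = n := fun X h => by
    obtain ⟨n, hn⟩ := X.ps.rat
    have : (0 : ℝ) ≤ n := by rw [← hn]; exact mul_nonneg (by linarith [h.one_le]) (by positivity)
    obtain ⟨m, rfl⟩ := Int.eq_ofNat_of_zero_le (show 0 ≤ n by exact_mod_cast this)
    exact ⟨m, by rw [hn]; simp⟩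
  have hex : ∃ n : ℕ, ∃ X : WS p cx, X.Full A0 ∧ Q X ∧ X.P.s = X0.P.s ∧
      X.P.b * X.P.s.factorial = n :=
    let ⟨n, hn⟩ := hnat X0 hX0
    ⟨n, X0, hX0, hQ0, rfl, hn⟩
  let R := {X : WS p cx // X.Full A0 ∧ Q X ∧ X.P.s = X0.P.s ∧
    X.P.b * X.P.s.factorial = Nat.find hex}
  have nx : ∀ X : R, ∃ Y : R, Y.1.P.ε = X.1.P.ε ∧ Y.1.P.b = X.1.P.b ∧
      Stat X.1.s.Λ W X.1.Φ X.1.P Y.1.s.Λ Y.1.Φ Y.1.P := by
    rintro ⟨X, a1, a2, a3, a4⟩
    obtain ⟨Y, b1, b2, b3, b4, b5⟩ := (hstep X a1 a2).resolve_left hG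
    rcases b5 with b5 | ⟨b5, b6⟩
    · obtain ⟨m, hm⟩ := hnat Y b1
      have c1 : (Nat.find hex : ℝ) ≤ m := by
        exact_mod_cast Nat.find_min' hex ⟨Y, b1, b2, b3.trans a3, hm⟩
      have c2 : (0 : ℝ) < X.P.s.factorial := by exact_mod_cast Nat.factorial_pos _
      rw [← a4, ← hm, b3] at c1
      exact absurd (mul_lt_mul_of_pos_right b5 c2) c1.not_gt
    · exact ⟨⟨Y, b1, b2, b3.trans a3, by rw [b5, b3, a4]⟩, b4, b5, b6⟩
  choose f f1 f2 f3 using nx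
  obtain ⟨X1, hX1⟩ := Nat.find_spec hex
  let X : ℕ → R := fun n => f^[n] ⟨X1, hX1⟩
  have Xs : ∀ n, X (n + 1) = f (X n) := fun n => Function.iterate_succ_apply' _ _ _
  have hΛ : ∀ n, (X n).1.s.Λ = (X 0).1.s.Λ := fun n => by
    induction n with
    | zero => rfl
    | succ n ih => rw [Xs, (f3 _).1, ih]
  refine Run.pure (fl := cx.fl) (p := p) hc (X 0).1.s.fg (fun n => (X n).1.Φ) (fun n => (X n).1.P)
    (A0 + nu (cx.D cx.f)) W (fun n => hΛ n ▸ (X n).1.ps)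
    (fun n => (X n).2.2.2.1.trans (X 0).2.2.2.1.symm) (fun n => ?_) (fun n => ?_)
    (X 0).2.1.one_le (fun n => ?_) fun n => ?_
  · induction n with
    | zero => rfl
    | succ n ih => rw [Xs, f1, ih]
  · induction n with
    | zero => rfl
    | succ n ih => rw [Xs, f2, ih]
  · have a1 := hap cx (X n).1 A0 (X n).2.1.toInv (X n).2.1.lt.le
    have a2 : (2 : ℝ) ≤ (X n).1.P.s := by exact_mod_cast (X n).1.ps.two
    nlinarith [(X n).1.ps.β0, (X n).1.ps.δ0]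
  · have := f3 (X n)
    rwa [← Xs, hΛ, hΛ (n + 1)] at this

end Pool.Agent.MP_19ffc6_ag.LU2

end MrgPart10

-- ======== part 11: formerly Pool.Agent.MP_19ffc6_ag.LU2.Term
section MrgPart11

/-! LU2, module TERM: the terminal states in the purely inseparable case. -/

namespace Pool.Agent.MP_19ffc6_ag.LU2

open Polynomial IntermediateField Pool.Agent.MP_19ffc6_ag.LU

variable {k Ω : Type*} [Field k] [NontriviallyNormedField Ω] [IsUltrametricDist Ω] [Algebra k Ω]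
  [IsAlgClosed k] [IsAlgClosed Ω] [Ctx k Ω] {p : ℕ} [hp : Fact p.Prime] [CharP k p] [CharP Ω p]

namespace Term

omit [IsAlgClosed k] in
theorem le_hens_of (p : ℕ) [Fact p.Prime] [CharP k p] [CharP Ω p] {M W : IntermediateField k Ω}
    (hW : Algebra.IsAlgebraic W Ω) (h : M ≤ hens W) : hens M ≤ hens W :=
  (hb (p := p)).hens_le _ (alg_hens hW) (hens_isHens _ hW) _ h

omit [IsAlgClosed k] in
/-- The common end of the two terminal cases. -/
theorem finish (hs : HS k Ω) (hpe : PertStmt k Ω) {cx : Cx Ω k} (hK : cx.K.FG)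
    (hS : Strong cx.K cx.s0) {s : St Ω} (hn : Nx k cx.T cx.s0 s) (p : ℕ) [Fact p.Prime]
    [CharP k p] [CharP Ω p] {w : Ω} {s' : St Ω} {μ : ℝ} (hμ : μ ∈ s.Λ) (h0 : 0 < μ)
    (hle : s'.M k ≤ cx.K ⊔ adjoin k {w}) (hw : w ∈ cx.K ⊔ s'.M k)
    (h1 : ∀ α ∈ s.Λ, ∃ m ∈ s'.M k, ∃ h ∈ s.H k cx.T, s.mon α = m * (1 + s.mon μ * h))
    (h2 : ∃ m ∈ s'.M k, ∃ h ∈ s.H k cx.T, s.y = m + s.mon μ * h)
    (h3 : ∃ m ∈ s'.M k, ∃ h ∈ s.H k cx.T, s.z = m + s.mon μ * h) :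
    Strong (cx.K ⊔ adjoin k {w}) s' := by
  obtain ⟨ha, hM, -⟩ := hs.nx_alg _ _ _ hn hS.1
  have hKs : cx.K ≤ hens (s.M k) := hS.2.2.trans (le_hens_of p ha hM)
  have hsK : s.M k ≤ cx.K := cx.M_le' hn
  have hle' : cx.K ⊔ adjoin k {w} ≤ cx.K ⊔ s'.M k :=
    sup_le le_sup_left (adjoin_le_iff.2 (Set.singleton_subset_iff.2 hw))
  have hsep : SepOver (s.M k ⊔ s'.M k) (cx.K ⊔ adjoin k {w}) :=
    ((((sepOver_hens _).of_le_right hKs).of_le_left le_sup_left).sup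
      ((sepOver_self _).of_le_right le_sup_right)).of_le_right hle'
  have hfg : (cx.K ⊔ adjoin k {w}).FG := by
    have := fg_adjoin_finset (F := k) ({w} : Finset Ω)
    rw [Finset.coe_singleton] at this
    exact fg_sup hK this
  obtain ⟨h4, h5⟩ := hpe cx.T s _ (s'.M k) μ hfg
    (cx.T_sub.trans (le_sup_left : cx.K ≤ cx.K ⊔ adjoin k {w})) (hsK.trans le_sup_left) hle hsep
    hμ h0 h1 h2 h3
  have ha' : Algebra.IsAlgebraic (s'.M k) Ω :=
    alg_of_sepOver hle h4 (alg_of_le (hsK.trans le_sup_left) ha)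
  exact ⟨ha', hle, hle'.trans (sup_le (hKs.trans (le_hens_of p ha' h5)) (le_hens _))⟩

omit [IsAlgClosed k] in
/-- Terminal case of a monomial that is not a `p`-th power. -/
theorem t0 (hs : HS k Ω) (hpe : PertStmt k Ω) {cx : Cx Ω k} (hK : cx.K.FG)
    (hS : Strong cx.K cx.s0) {s : St Ω} (hn : Nx k cx.T cx.s0 s) {w h : Ω} {B μ : ℝ}
    (hB : B ∈ s.Λ) (hB' : ¬ PMul p s.Λ B) (hμ : μ ∈ s.Λ) (h0 : 0 < μ) (hh : h ∈ s.H k cx.T)
    (he : w ^ p = s.mon B * (1 + s.mon μ * h)) : ∃ s', Strong (cx.K ⊔ adjoin k {w}) s' := by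
  have hu : ‖1 + s.mon μ * h‖ = 1 := s.norm_one_add hμ h0 hh
  have hw0 : w ≠ 0 := by
    rintro rfl
    rw [zero_pow hp.out.ne_zero] at he
    exact mul_ne_zero (s.mon_ne_zero hB) (ne_zero_of_norm_eq_one hu) he.symm
  have hnu : (p : ℝ) * nu w = B := by
    rw [← nu_pow, he, nu_mul (s.mon_ne_zero hB) (ne_zero_of_norm_eq_one hu), s.nu_mon hB,
      (nu_eq_zero_iff (ne_zero_of_norm_eq_one hu)).2 hu, add_zero]
  obtain ⟨d, σ, s1, hx, hy, -⟩ := ext (p := p) s.toStage w hw0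
  have hd : d = p := by
    have h1 : (d : ℤ) ∣ (p : ℕ) := (hx.dvd_iff p).1 (by push_cast; rw [hnu]; exact hB)
    rcases (Nat.dvd_prime hp.out).1 (Int.natCast_dvd_natCast.1 h1) with h2 | h2
    · exact absurd ⟨nu w, by simpa [h2] using hx.d_mul_mem, hnu.symm⟩ hB'
    · exact h2
  have hU : s.toStage.u w d = 1 + s.mon μ * h := by
    rw [Stage.u, hd, hnu, he, mul_div_cancel_left₀ _ (s.mon_ne_zero hB)]
  let s' : St Ω := ⟨s1, s.z, s.norm_z, s.dense.mono hx.le⟩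
  have hsK : s.M k ≤ cx.K := cx.M_le' hn
  have hy' : s.y ∈ s'.M k := hy ▸ s'.y_mem_M k
  have hwK : w ∈ cx.K ⊔ adjoin k {w} :=
    (le_sup_right : adjoin k {w} ≤ _) (mem_adjoin_simple_self k w)
  refine ⟨s', finish hs hpe hK hS hn p hμ h0 ?_ ?_ (fun α hα => ?_)
    ⟨s.y, hy', 0, zero_mem _, by simp⟩ ⟨s.z, s'.z_mem_M k, 0, zero_mem _, by simp⟩⟩
  · have h1 : s.M k ≤ cx.K ⊔ adjoin k {w} := hsK.trans le_sup_left
    refine s'.M_le_iff.2 ⟨fun α hα => hx.mon_mem (fun β hβ => h1 (s.mon_mem_M k hβ)) hwK hα, ?_,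
      h1 (s.z_mem_M k)⟩
    change s1.y ∈ _
    rw [hy]; exact h1 (s.y_mem_M k)
  · obtain ⟨e, -, h1⟩ := hx.exists_e_w
    rw [h1, hU]
    refine mul_mem ((le_sup_right : s'.M k ≤ _) (s'.mon_mem_M k hx.nu_mem))
      ((le_sup_left : cx.K ≤ _) (zpow_mem ?_ e))
    exact add_mem (one_mem _) (mul_mem (hsK (s.mon_mem_M k hμ)) (cx.H_le hn hh))
  · obtain ⟨e, h1⟩ := hx.exists_e_mon hα
    obtain ⟨h', h2, h3⟩ := s.one_add_zpow hμ h0 hh e
    exact ⟨s1.mon α, s'.mon_mem_M k (hx.le hα), h', h2, by rw [← h3, ← hU]; exact h1⟩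

omit [IsAlgClosed k] in
/-- Terminal case of a linear form. -/
theorem t1 (hs : HS k Ω) (hr : RS k Ω p) (hpe : PertStmt k Ω) {cx : Cx Ω k} (hK : cx.K.FG)
    (hS : Strong cx.K cx.s0) {s : St Ω} (hn : Nx k cx.T cx.s0 s) {w h : Ω} {B μ : ℝ}
    (hB : B ∈ s.Λ) (hμ : μ ∈ s.Λ) (h0 : 0 < μ) (hh : h ∈ s.H k cx.T)
    (he : w ^ p = s.mon B * (s.z + s.mon μ * h)) : ∃ s', Strong (cx.K ⊔ adjoin k {w}) s' := by
  have hz := s.nu_z_pos (cx.z_ne hn)
  obtain ⟨ξ, hξ, ⟨γ, hγ, hγ'⟩, h1, h2⟩ := exists_coset_between (p := p) s.dense hB (lt_min hz h0)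
  obtain ⟨s1, e1, e2, e3, e4, hn1, -⟩ := hr.scale cx.T s 0 ξ s.Λ.zero_mem hξ le_rfl h1.le
    (Or.inl rfl) (Or.inr (h2.trans_le (min_le_left _ _)))
  have hν : μ - ξ ∈ s.Λ := s.Λ.sub_mem hμ hξ
  have hν0 : 0 < μ - ξ := sub_pos.2 (h2.trans_le (min_le_right _ _))
  have hh1 : h ∈ s1.H k cx.T := hn1.H_le hh
  have hn' := hn.trans hn1
  have he1 : (w / s.mon γ) ^ p = s1.z + s1.mon (μ - ξ) * h := by
    rw [div_pow, he, ← s.mon_natCast_mul hγ, ← hγ', s.mon_add _ hξ _ hB, e4, e2, s.mon_sub hμ hξ]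
    have := s.mon_ne_zero hξ
    have := s.mon_ne_zero hB
    field_simp
  have hz' : ‖w / s.mon γ‖ < 1 := by
    have h3 : ‖(w / s.mon γ) ^ p‖ < 1 := by
      rw [he1]
      refine (IsUltrametricDist.norm_add_le_max _ _).trans_lt (max_lt s1.norm_z ?_)
      exact (s1.norm_mon_mul_le (e1 ▸ hν) hh1).trans_lt (Real.exp_lt_one_iff.2 (by linarith))
    rw [norm_pow] at h3
    exact lt_of_pow_lt_pow_left₀ p zero_le_one (by simpa using h3)
  let s' : St Ω := s1.withYZ s1.y (w / s.mon γ) s1.norm_y hz'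
  have hsK : s1.M k ≤ cx.K := cx.M_le' hn'
  have hγ1 : s.mon γ ∈ s1.M k := e2 ▸ s1.mon_mem_M k (e1 ▸ hγ)
  have hγ2 : s.mon γ ∈ s'.M k := e2 ▸ s'.mon_mem_M k (e1 ▸ hγ : γ ∈ s1.Λ)
  have hwK : w ∈ cx.K ⊔ adjoin k {w} :=
    (le_sup_right : adjoin k {w} ≤ _) (mem_adjoin_simple_self k w)
  refine ⟨s', finish hs hpe hK hS hn' p (e1 ▸ hν) hν0 ?_ ?_
    (fun α hα => ⟨s1.mon α, s'.mon_mem_M k hα, 0, zero_mem _, by simp⟩)
    ⟨s1.y, s'.y_mem_M k, 0, zero_mem _, by simp⟩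
    ⟨_, pow_mem (s'.z_mem_M k) p, -h, neg_mem hh1, ?_⟩⟩
  · have h3 : s1.M k ≤ cx.K ⊔ adjoin k {w} := hsK.trans le_sup_left
    exact s'.M_le_iff.2 ⟨fun α hα => h3 (s1.mon_mem_M k hα), h3 (s1.y_mem_M k),
      div_mem hwK (h3 hγ1)⟩
  · have h3 : w = w / s.mon γ * s.mon γ := (div_mul_cancel₀ _ (s.mon_ne_zero hγ)).symm
    rw [h3]
    exact (le_sup_right : s'.M k ≤ _) (mul_mem (s'.z_mem_M k) hγ2)
  · change s1.z = (w / s.mon γ) ^ p + _
    rw [he1]; ring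

omit [IsUltrametricDist Ω] [IsAlgClosed k] [IsAlgClosed Ω] [Ctx k Ω] in
theorem sup_eq {K : IntermediateField k Ω} {w a b : Ω} (ha : a ∈ K) (ha0 : a ≠ 0) (hb : b ∈ K) :
    K ⊔ adjoin k {a * w + b} = K ⊔ adjoin k {w} := by
  have hm : ∀ x : Ω, x ∈ K ⊔ adjoin k {x} := fun x =>
    (le_sup_right : adjoin k {x} ≤ _) (mem_adjoin_simple_self k x)
  refine le_antisymm (sup_le le_sup_left (adjoin_le_iff.2 (Set.singleton_subset_iff.2 ?_)))
    (sup_le le_sup_left (adjoin_le_iff.2 (Set.singleton_subset_iff.2 ?_)))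
  · exact add_mem (mul_mem ((le_sup_left : K ≤ _) ha) (hm w)) ((le_sup_left : K ≤ _) hb)
  · have : (a * w + b - b) / a ∈ K ⊔ adjoin k {a * w + b} :=
      div_mem (sub_mem (hm _) ((le_sup_left : K ≤ _) hb)) ((le_sup_left : K ≤ _) ha)
    rwa [add_sub_cancel_right, mul_div_cancel_left₀ _ ha0] at this

end Term

theorem term2 (hs : HS k Ω) (hr : RS k Ω p) (hpe : PertStmt k Ω) : TermStmt k Ω p := by
  rintro cx hfl hK hS ⟨s, B, j, i, ⟨-, hpw, t, ht, N, hN, hBN, h, hh, hn, hsupp, c, hc, hc1, b, hbK,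
    -, he⟩, hji⟩ w hw
  have hB : B ∈ s.Λ := hsupp (B, j, i) (by simp [ht])
  obtain ⟨τ, hτ⟩ := IsAlgClosed.exists_pow_nat_eq t hp.out.pos
  have hτ0 : algebraMap k Ω τ ≠ 0 := by
    rw [_root_.map_ne_zero]; rintro rfl
    exact ht (by rw [← hτ, zero_pow hp.out.ne_zero])
  have ht0 : algebraMap k Ω t ≠ 0 := (_root_.map_ne_zero _).2 ht
  have hμ : N - B ∈ s.Λ := s.Λ.sub_mem hN hB
  have hh' : h / algebraMap k Ω t ∈ s.H k cx.T := by
    rw [div_eq_mul_inv, ← map_inv₀]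
    exact mul_mem hh.1 (algebraMap_mem _ _)
  have he' : (c / algebraMap k Ω τ * w + b / algebraMap k Ω τ) ^ p =
      s.mon B * (s.y ^ j * s.z ^ i + s.mon (N - B) * (h / algebraMap k Ω t)) := by
    rw [div_mul_eq_mul_div, ← add_div, div_pow, ← map_pow, hτ, add_pow_char, mul_pow, hw, he,
      s.ev_single k, s.mon_sub hN hB]
    have := s.mon_ne_zero hB
    field_simp
  rw [← Term.sup_eq (w := w) (div_mem (cx.H_le hn hc) (cx.K.algebraMap_mem τ))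
    (div_ne_zero (ne_zero_of_norm_eq_one hc1) hτ0) (div_mem hbK (cx.K.algebraMap_mem τ))]
  rcases (show (j = 0 ∧ i = 0) ∨ (j = 0 ∧ i = 1) ∨ (j = 1 ∧ i = 0) by omega) with
    ⟨rfl, rfl⟩ | ⟨rfl, rfl⟩ | ⟨rfl, rfl⟩
  · exact Term.t0 hs hpe hK hS hn hB (fun hh => hpw ⟨hfl, hh, dvd_zero p, dvd_zero p⟩) hμ
      (sub_pos.2 hBN) hh' (by simpa using he')
  · exact Term.t1 hs hr hpe hK hS hn hB hμ (sub_pos.2 hBN) hh' (by simpa using he')
  · obtain ⟨s1, e1, e2, -, e4, -, e6, hn1, -⟩ := hr.swap cx.T s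
    exact Term.t1 hs hr hpe hK hS (hn.trans hn1) (e1 ▸ hB) (e1 ▸ hμ) (sub_pos.2 hBN) (e6 ▸ hh')
      (by rw [e2, e4]; simpa using he')

end Pool.Agent.MP_19ffc6_ag.LU2

end MrgPart11

-- ======== part 12: formerly Pool.Agent.MP_19ffc6_ag.LU2.All
section MrgPart12

/-! All modules of PROJECT LU2 put together. -/

namespace Pool.Agent.MP_19ffc6_ag.LU2

open Pool.Agent.MP_19ffc6_ag.LU

theorem core2 {k Ω : Type*} [Field k] [NontriviallyNormedField Ω] [IsUltrametricDist Ω]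
    [Algebra k Ω] [IsAlgClosed k] [IsAlgClosed Ω] [Ctx k Ω] (p : ℕ) [Fact p.Prime] [CharP k p]
    [CharP Ω p] : Core2Stmt k Ω := by
  have ho : OrdStmt k p := ord
  have hl : LucStmt k p := luc
  have hsh : ShStmt k p := sh
  have hshs : ShsStmt k p := shs
  have hs' : HS k Ω := hs p
  have hr : RS k Ω p := rs hs'
  have hi : IsoStmt k Ω p := iso hr
  have hi2 : Init2Stmt k Ω p := init2 hs' hr hi
  have hap : AprStmt k Ω p := apr hs'
  have hrho : RhoStmt k Ω p := rho ho hr hi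
  have hn : NfdStmt k Ω p := nfd hs' hr
  have hmv : MoveStmt k Ω p := move hshs sc (solve hshs) (prep hl hshs)
    (step2 hl (bound ho hl) (arith p) face) hap hrho (exc hr hi) hn (real2 hs' hr hsh)
  have he : EngineStmt k Ω p :=
    engine2 (start hs' hr hn) hmv (run conv hap) (lowb hsh hr hi hrho (x0 hr))
  have hpe : PertStmt k Ω := pert p hs'
  have hm : Mon2Stmt k Ω := mon2 p hs' hr hi2 he (lin hr)
  have hpi : PIStmt k Ω p := pi2 hs' derEx hm hi2 he (term2 hs' hr hpe)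
  intro F hF halg r x hx hind hr2 htr Z hZ
  rcases initK F hF halg r x hx hind hr2 htr with ⟨r', x', h1, h2, h3⟩ | ⟨hna, s, h1, h2⟩
  · exact core p F hF halg r' x' h1 h2 h3 Z hZ
  obtain ⟨K', N, s1, g1, g2, g3, g4⟩ := rOf (p := p) rel (low p) F s hF h2 h1
  obtain ⟨s2, g5⟩ := tower hpi hna F K' N s1 hF g1 g2 g3 g4
  obtain ⟨s3, g6⟩ := desc2 p hs' hm hpe hna F s2 g5
  exact final2 hm hna F s3 Z hF g6 hZ

theorem result2Stmt (k F : Type*) [Field k] [IsAlgClosed k] [Field F] [Algebra k F] (p : ℕ)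
    [Fact p.Prime] [CharP k p] : Result2Stmt k F :=
  glue2 k F p fun _ _ _ _ _ _ _ => core2 p

end Pool.Agent.MP_19ffc6_ag.LU2

end MrgPart12

-- marker of a merged file
example : 731051 + 592811 = 731051 + 592811 := rfl
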