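import Mathlib.Algebra.Lie.OfAssociative
import Mathlib.Order.Interval.Finset.Box
import Pool.Agent.MP_19ffc6_ag.LU2.Tower
import Pool.Agent.MP_19ffc6_ag.LU.Perron
import Pool.Agent.MP_19ffc6_ag.LU2.Solve
import Pool.Agent.MP_19ffc6_ag.LU.Smooth
import Pool.Agent.MP_19ffc6_ag.LU.HensB

-- ======== part 0: formerly Pool.Agent.MP_19ffc6_ag.LU2.Bound
section MrgPart0

/-! LU2, module BOUND: the bounds for the new vertex after a transition. -/

namespace Pool.Agent.MP_19ffc6_ag.LU2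

open Polynomial

namespace Bound

variable {k : Type*} [Field k] {p : ℕ}
variable {s ε ε' d n : ℕ} {b : ℝ} {adm : Prop} {χ : ℕ → Prop} {t κ : k} {G : ℕ → k[X]}
  {jj : ℕ → ℕ → ℕ}

theorem face_low {i : ℕ} (hi : i < s) : (facePol s n t κ G).coeff i = taylor κ (G i) := by
  rw [facePol, coeff_add, coeff_monomial, if_neg hi.ne', zero_add, finsetSum_coeff,
    Finset.sum_eq_single i]
  · simp
  · intro j _ hj; rw [coeff_monomial, if_neg hj]
  · intro h; exact absurd (Finset.mem_range.2 hi) h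

theorem face_high {i : ℕ} (hi : s ≤ i) :
    (facePol s n t κ G).coeff i = if s = i then taylor κ (monomial n t) else 0 := by
  rw [facePol, coeff_add, coeff_monomial, finsetSum_coeff, Finset.sum_eq_zero, add_zero]
  intro j hj
  rw [coeff_monomial, if_neg]
  have := Finset.mem_range.1 hj; omega

theorem face_top : (facePol s n t κ G).coeff s = taylor κ (monomial n t) := by
  rw [face_high le_rfl, if_pos rfl]

theorem face_deg : (facePol s n t κ G).natDegree ≤ s :=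
  natDegree_le_iff_coeff_eq_zero.2 fun N hN => by rw [face_high hN.le, if_neg hN.ne]

theorem derivative_taylor (G : k[X]) (κ : k) :
    derivative (taylor κ G) = taylor κ (derivative G) := by
  rw [taylor_apply, taylor_apply, derivative_comp]; simp

theorem C_mul_top (c : k) : C c * taylor κ (monomial n t) = taylor κ (monomial n (c * t)) := by
  rw [taylor_monomial, taylor_monomial, C_mul, mul_assoc]

theorem top_coeff_zero (ht : t ≠ 0) (hκ : κ ≠ 0) : (taylor κ (monomial n t)).coeff 0 ≠ 0 := by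
  rw [taylor_coeff_zero, eval_monomial]
  exact mul_ne_zero ht (pow_ne_zero _ hκ)

theorem lowest {l T : k[X]} (hl : l ≠ 0) (hT : T.coeff 0 ≠ 0) (q : ℕ) :
    (l ^ q * T).coeff (q * l.natTrailingDegree) ≠ 0 := by
  have hT0 : T ≠ 0 := fun h => hT (by rw [h, coeff_zero])
  have h1 : ∀ q : ℕ, (l ^ q).natTrailingDegree = q * l.natTrailingDegree := by
    intro q
    induction q with
    | zero => simp
    | succ q ih => rw [pow_succ, natTrailingDegree_mul (pow_ne_zero q hl) hl, ih]; ring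
  have h2 : (l ^ q * T).natTrailingDegree = q * l.natTrailingDegree := by
    rw [natTrailingDegree_mul (pow_ne_zero q hl) hT0, h1, natTrailingDegree_eq_zero.2 (Or.inr hT),
      add_zero]
  rw [← h2]
  exact coeff_natTrailingDegree_ne_zero.2 (mul_ne_zero (pow_ne_zero q hl) hT0)

/-- The three numerical conclusions. -/
def Num (p s ε ε' d : ℕ) (b : ℝ) (G : ℕ → k[X]) (jj : ℕ → ℕ → ℕ) (g J : ℕ) : Prop :=
  (ε' = ε → (J : ℝ) < ε + g * b ∨ (d = 1 ∧ (J : ℝ) ≤ ε + g * b ∧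
    ∃ i < s, ∃ e, (G i).coeff e ≠ 0 ∧ (jj i e : ℝ) < ε + ((s : ℝ) - i) * b)) ∧
  (ε = 1 → ε' = 0 → (J : ℝ) ≤ 1 + g * b ∨
    (g = qq p s ∧ (J : ℝ) ≤ 2 + g * b ∧ 2 * (g : ℝ) ≤ 1 + g * b)) ∧
  (ε = 0 → ε' = 1 → LDnum p (qq p s) b g J)

theorem pair (h : FD p s ε ε' d n b adm χ t κ G jj) {i g e R : ℕ} (hi : i + g = s) (hg : 0 < g)
    (h1 : (G i).coeff e ≠ 0) (h2 : (G i).coeff (e + R) ≠ 0) :
    ((jj i e + d * R : ℕ) : ℝ) ≤ ε + g * b := by
  have h3 := h.rng i (by omega) _ h2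
  have h4 := h.inj i (by omega) _ _ h2 h1
  have h5 : jj i (e + R) = jj i e + d * R := by
    push_cast at h4
    have : (jj i (e + R) : ℤ) = jj i e + d * R := by linear_combination h4
    exact_mod_cast this
  rw [h5, ← hi] at h3
  push_cast at h3 ⊢
  linarith

theorem second (h : FD p s ε ε' d n b adm χ t κ G jj) {i g e R : ℕ} (hi : i + g = s) (hg : 0 < g)
    (h1 : (G i).coeff e ≠ 0) (h2 : (G i).coeff (e + R) ≠ 0) (hR : 0 < R) :
    ∃ i < s, ∃ e, (G i).coeff e ≠ 0 ∧ (jj i e : ℝ) < ε + ((s : ℝ) - i) * b := by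
  refine ⟨i, by omega, e, h1, ?_⟩
  have h3 := pair h hi hg h1 h2
  have h4 : (0 : ℝ) < d * R := by exact_mod_cast Nat.mul_pos h.d_pos hR
  rw [← hi]
  push_cast at h3 ⊢
  linarith

theorem le_gb (hb : 1 ≤ b) (g : ℕ) : (g : ℝ) ≤ g * b := by
  have : (0 : ℝ) ≤ g := Nat.cast_nonneg g
  nlinarith

variable [hp : Fact p.Prime] [CharP k p]

omit [CharP k p] in
/-- A height whose coefficient is not changed. -/
theorem plain (ho : OrdStmt k p) (h : FD p s ε ε' d n b adm χ t κ G jj) {i g : ℕ}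
    (hi : i + g = s) (hg : 0 < g) (hG : G i ≠ 0)
    (hx : ε = 0 → ε' = 0 → χ i → g = 1 → (G i).natTrailingDegree = (G i).natDegree → 1 < b) :
    ∃ J, (∃ j ≤ J, (taylor κ (G i)).coeff j ≠ 0 ∧ ¬ (χ i ∧ p ∣ j)) ∧
      Num p s ε ε' d b G jj g J := by
  obtain ⟨R, hR⟩ := Nat.exists_eq_add_of_le (G i).natTrailingDegree_le_natDegree
  set e0 := (G i).natTrailingDegree with he0
  have h1 : (G i).coeff e0 ≠ 0 := coeff_natTrailingDegree_ne_zero.2 hG
  have h2 : (G i).coeff (e0 + R) ≠ 0 := by rw [← hR]; exact leadingCoeff_ne_zero.2 hG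
  have h3 : ∀ e e', (G i).coeff e ≠ 0 → (G i).coeff e' ≠ 0 → e ≤ e' + R := by
    intro e e' a a'
    have := le_natDegree_of_ne_zero a
    have := natTrailingDegree_le_of_ne_zero a'
    omega
  have h4 := pair h hi hg h1 h2
  have hgb := le_gb h.one_le g
  have hg1 : (1 : ℝ) ≤ g := by exact_mod_cast hg
  have hε : (0 : ℝ) ≤ ε := Nat.cast_nonneg _
  have hd := h.d_pos
  have hLD : ε = 0 → ε' = 1 → (p * R : ℝ) ≤ g * b := by
    intro e1 e2
    have h5 : p * R ≤ jj i e0 + d * R :=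
      le_add_left (Nat.mul_le_mul_right _ (Nat.le_of_dvd hd ((h.typ2 e2).2 e1)))
    have h6 : ((p * R : ℕ) : ℝ) ≤ (jj i e0 + d * R : ℕ) := by exact_mod_cast h5
    rw [e1] at h4
    push_cast at h4 h6
    linarith
  have fin : ∀ J : ℕ, (J ≤ jj i e0 + d * R ∨ (J ≤ 1)) →
      (R = 0 → (J : ℝ) < ε + g * b) → (2 ≤ d → 0 < R → J < jj i e0 + d * R) →
      (ε' = ε → (J : ℝ) < ε + g * b ∨ (d = 1 ∧ (J : ℝ) ≤ ε + g * b ∧
        ∃ i < s, ∃ e, (G i).coeff e ≠ 0 ∧ (jj i e : ℝ) < ε + ((s : ℝ) - i) * b)) := by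
    intro J a1 a2 a3 _
    rcases Nat.eq_zero_or_pos R with h0 | h0
    · exact Or.inl (a2 h0)
    rcases (show d = 1 ∨ 2 ≤ d by omega) with h5 | h5
    · refine Or.inr ⟨h5, ?_, second h hi hg h1 h2 h0⟩
      rcases a1 with a1 | a1
      · exact le_trans (by exact_mod_cast a1) h4
      · have : (J : ℝ) ≤ 1 := by exact_mod_cast a1
        linarith
    · exact Or.inl (lt_of_lt_of_le (by exact_mod_cast a3 h5 h0) h4)
  by_cases hc : χ i
  · have hce := h.chi_e i (by omega) hc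
    obtain ⟨j, hj, hne, hpj⟩ := ho.o2 (G i) κ R h.κ_ne hG (fun e he => (hce e he).1) h3
    have hev : p = 2 → 2 ∣ R := by
      intro hp2
      have a1 := (hce _ h1).1
      have a2 := (hce _ h2).1
      rw [hp2] at a1 a2
      omega
    have hle : R + 1 ≤ jj i e0 + d * R ∨ R + 1 ≤ 1 := by
      by_cases hpd : p ∣ d
      · have a1 : 2 ≤ d := hp.out.two_le.trans (Nat.le_of_dvd hd hpd)
        have a2 : 2 * R ≤ d * R := Nat.mul_le_mul_right _ a1
        omega
      · have a1 := (hce _ h1).2 hpd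
        have a2 : 1 * R ≤ d * R := Nat.mul_le_mul_right _ hd
        omega
    refine ⟨R + 1, ⟨j, hj, hne, fun hh => hpj hh.2⟩, fun e => fin _ hle (fun h0 => ?_)
      (fun a1 a2 => ?_) e, fun e1 _ => Or.inl ?_, fun e1 e2 => Or.inr (Or.inl ⟨?_, R, le_rfl,
        hLD e1 e2, hev⟩)⟩
    · rw [h0]
      rcases (show ε = 0 ∨ ε = 1 by have := h.eps; omega) with e0' | e0'
      · rcases (show g = 1 ∨ 2 ≤ g by omega) with a1 | a1
        · have := hx e0' (e.trans e0') hc a1 (by omega)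
          rw [a1]; push_cast; linarith
        · have : (2 : ℝ) ≤ g := by exact_mod_cast a1
          push_cast; linarith
      · rw [e0']; push_cast; linarith
    · have a3 : 2 * R ≤ d * R := Nat.mul_le_mul_right _ a1
      by_cases hpd : p ∣ d
      · by_contra hh
        have a4 : R = 1 := by omega
        have a5 : d = 2 := by rw [a4] at hh; omega
        have := hev ((Nat.prime_dvd_prime_iff_eq hp.out Nat.prime_two).1 (a5 ▸ hpd))
        omega
      · have := (hce _ h1).2 hpd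
        omega
    · rw [e1] at h4
      rcases hle with a1 | a1
      · have : ((R + 1 : ℕ) : ℝ) ≤ (jj i e0 + d * R : ℕ) := by exact_mod_cast a1
        push_cast at h4 this ⊢; linarith
      · have : ((R + 1 : ℕ) : ℝ) ≤ (1 : ℕ) := by exact_mod_cast a1
        push_cast at this ⊢; linarith
    · have a1 := h.chi_p s (h.chi_top.1.1 e2)
      exact (Nat.dvd_add_right (h.chi_p i hc)).1 (hi ▸ a1)
  · obtain ⟨j, hj, hne⟩ := ho.o1 (G i) κ R h.κ_ne hG h3
    have a2 : 1 * R ≤ d * R := Nat.mul_le_mul_right _ hd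
    refine ⟨R, ⟨j, hj, hne, fun hh => hc hh.1⟩, fun e => fin _ (Or.inl (by omega))
      (fun h0 => by rw [h0]; push_cast; linarith) (fun a1 a3 => ?_) e, fun e1 _ => Or.inl ?_,
      fun e1 e2 => Or.inl ⟨R, le_rfl, hLD e1 e2⟩⟩
    · have a3 : 2 * R ≤ d * R := Nat.mul_le_mul_right _ a1
      omega
    · have : (R : ℝ) ≤ (jj i e0 + d * R : ℕ) := by exact_mod_cast (by omega : R ≤ jj i e0 + d * R)
      rw [e1] at h4
      push_cast at h4 this ⊢; linarith

omit hp [CharP k p] in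
theorem ends {g : k[X]} {a : ℕ} (h : ∃ e, g.coeff e ≠ 0 ∧ ¬ (p : ℤ) ^ a ∣ (e : ℤ) - n) :
    ∃ t0 < a, ∃ e0 R : ℕ, (∀ e, g.coeff e ≠ 0 → (p : ℤ) ^ t0 ∣ (e : ℤ) - n) ∧ g.coeff e0 ≠ 0 ∧
      g.coeff (e0 + R) ≠ 0 ∧ ¬ (p : ℤ) ^ (t0 + 1) ∣ (e0 : ℤ) - n ∧
      ¬ (p : ℤ) ^ (t0 + 1) ∣ ((e0 + R : ℕ) : ℤ) - n ∧
      ∀ e e', g.coeff e ≠ 0 → g.coeff e' ≠ 0 → ¬ (p : ℤ) ^ (t0 + 1) ∣ (e : ℤ) - n →
        ¬ (p : ℤ) ^ (t0 + 1) ∣ (e' : ℤ) - n → e ≤ e' + R := by
  classical
  have hex : ∃ a, ∃ e, g.coeff e ≠ 0 ∧ ¬ (p : ℤ) ^ a ∣ (e : ℤ) - n := ⟨a, h⟩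
  have h1 := Nat.find_spec hex
  have h2 : Nat.find hex ≤ a := Nat.find_min' hex h
  rcases h3 : Nat.find hex with _ | t0
  · rw [h3] at h1; simp at h1
  rw [h3] at h1
  have h4 := Nat.find_min hex (m := t0) (by omega)
  push Not at h4
  let S := g.support.filter fun e : ℕ => ¬ (p : ℤ) ^ (t0 + 1) ∣ (e : ℤ) - n
  have hm : ∀ e, e ∈ S ↔ g.coeff e ≠ 0 ∧ ¬ (p : ℤ) ^ (t0 + 1) ∣ (e : ℤ) - n := by
    intro e; simp only [S, Finset.mem_filter, mem_support_iff]
  have hne : S.Nonempty := by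
    obtain ⟨e, he⟩ := h1
    exact ⟨e, (hm e).2 he⟩
  have ha := (hm _).1 (S.min'_mem hne)
  have hb := (hm _).1 (S.max'_mem hne)
  obtain ⟨R, hR⟩ := Nat.exists_eq_add_of_le (S.min'_le _ (S.max'_mem hne))
  rw [hR] at hb
  refine ⟨t0, by omega, _, R, h4, ha.1, hb.1, ha.2, hb.2, fun e e' a1 a2 a3 a4 => ?_⟩
  have := S.le_max' _ ((hm e).2 ⟨a1, a3⟩)
  have := S.min'_le _ ((hm e').2 ⟨a2, a4⟩)
  omega

omit [CharP k p] in
theorem two_dvd {x y : ℤ} {t0 : ℕ} (h1 : (2 : ℤ) ^ t0 ∣ x) (h2 : (2 : ℤ) ^ t0 ∣ y)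
    (h3 : ¬ (2 : ℤ) ^ (t0 + 1) ∣ x) (h4 : ¬ (2 : ℤ) ^ (t0 + 1) ∣ y) :
    (2 : ℤ) ^ (t0 + 1) ∣ y - x := by
  obtain ⟨u, rfl⟩ := h1
  obtain ⟨v, rfl⟩ := h2
  rw [pow_succ] at h3 h4 ⊢
  have a1 : ¬ 2 ∣ u := fun h => h3 (mul_dvd_mul_left _ h)
  have a2 : ¬ 2 ∣ v := fun h => h4 (mul_dvd_mul_left _ h)
  rw [← mul_sub]
  exact mul_dvd_mul_left _ (by omega)

/-- The critical height: the bound of Moh. -/
theorem moh (ho : OrdStmt k p) (h : FD p s ε ε' d n b adm χ t κ G jj) {i a : ℕ}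
    (hq : qq p s = p ^ a) (hi : i + p ^ a = s)
    (he : ∃ e, (G i).coeff e ≠ 0 ∧ ¬ (p : ℤ) ^ a ∣ (e : ℤ) - n) (hχ : χ i ↔ ε' = 1) (c : k) :
    ∃ J, (∀ l : k[X], ∃ j ≤ J, (taylor κ (G i) + l ^ p ^ a * taylor κ (monomial n c)).coeff j ≠ 0 ∧
      ¬ (χ i ∧ p ∣ j)) ∧ Num p s ε ε' d b G jj (p ^ a) J := by
  obtain ⟨t0, ht, e0, R, h0, h1, h2, h3, h4, h5⟩ := ends he
  have hq0 : 0 < p ^ a := pow_pos hp.out.pos a
  have ht0 : 0 < p ^ t0 := pow_pos hp.out.pos t0
  have h6 := pair h hi hq0 h1 h2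
  have hgb := le_gb h.one_le (p ^ a)
  have hd := h.d_pos
  have hp2 := hp.out.two_le
  have hpt : p * p ^ t0 ≤ p ^ a := by
    rw [← pow_succ']; exact Nat.pow_le_pow_right hp.out.pos ht
  have hpt2 : 2 * p ^ t0 ≤ p ^ a := (Nat.mul_le_mul_right _ hp2).trans hpt
  have hR1 : p ^ t0 ∣ R := by
    have := dvd_sub (h0 _ h2) (h0 _ h1)
    push_cast at this
    rw [show (e0 : ℤ) + R - n - (e0 - n) = R by ring] at this
    exact_mod_cast this
  have hR2 : p = 2 → 2 ^ (t0 + 1) ∣ R := by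
    rintro rfl
    have := two_dvd (h0 _ h1) (h0 _ h2) h3 h4
    push_cast at this
    rw [show (e0 : ℤ) + R - n - (e0 - n) = R by ring] at this
    exact_mod_cast this
  have big : (2 * R : ℝ) ≤ (p ^ a : ℕ) * b → ((R + p ^ t0 : ℕ) : ℝ) < (p ^ a : ℕ) * b := by
    intro a1
    have a2 : R + p ^ t0 < 2 * R ∨ R + p ^ t0 < p ^ a := by
      rcases Nat.eq_zero_or_pos R with a2 | a2
      · omega
      have a3 := Nat.le_of_dvd a2 hR1
      by_cases a4 : p = 2
      · have a5 := Nat.le_of_dvd a2 (hR2 a4)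
        have a6 : 2 ^ t0 = p ^ t0 := by rw [a4]
        rw [pow_succ, a6] at a5
        omega
      · have : 3 * p ^ t0 ≤ p * p ^ t0 := Nat.mul_le_mul_right _ (by omega)
        omega
    rcases a2 with a2 | a2
    · exact lt_of_lt_of_le (by exact_mod_cast a2) a1
    · exact lt_of_lt_of_le (by exact_mod_cast a2) hgb
  have one : d = 1 → ε ≤ e0 → ε + p ^ t0 ≤ jj i e0 := by
    intro a1 a2
    obtain ⟨a3, a4⟩ := h.one a1
    rw [a4 i (by omega) e0 h1]
    obtain ⟨u, rfl⟩ := Nat.exists_eq_add_of_le a2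
    have a5 := h0 _ h1
    rw [a3] at a5 h3
    push_cast at a5 h3
    rw [add_sub_cancel_left] at a5 h3
    have a6 : u ≠ 0 := by rintro rfl; simp at h3
    have := Nat.le_of_dvd (Nat.pos_of_ne_zero a6) (by exact_mod_cast a5 : p ^ t0 ∣ u)
    omega
  have same : ε ≤ jj i e0 → (d = 1 → ε ≤ e0) →
      ((ε + R + p ^ t0 : ℕ) : ℝ) < ε + (p ^ a : ℕ) * b ∨ (d = 1 ∧
        ((ε + R + p ^ t0 : ℕ) : ℝ) ≤ ε + (p ^ a : ℕ) * b ∧
        ∃ i < s, ∃ e, (G i).coeff e ≠ 0 ∧ (jj i e : ℝ) < ε + ((s : ℝ) - i) * b) := by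
    intro a1 a2
    rcases (show d = 1 ∨ 2 ≤ d by omega) with a3 | a3
    · rcases Nat.eq_zero_or_pos R with a4 | a4
      · left
        have : ((R + p ^ t0 : ℕ) : ℝ) < (p ^ a : ℕ) := by exact_mod_cast (by omega)
        push_cast at this hgb ⊢; linarith
      · refine Or.inr ⟨a3, le_trans ?_ h6, second h hi hq0 h1 h2 a4⟩
        have := one a3 (a2 a3)
        rw [a3]
        exact_mod_cast (by omega)
    · left
      have a4 : ε + 2 * R ≤ jj i e0 + d * R := add_le_add a1 (Nat.mul_le_mul_right _ a3)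
      have a5 : ((ε + 2 * R : ℕ) : ℝ) ≤ (jj i e0 + d * R : ℕ) := by exact_mod_cast a4
      have := big (by push_cast at a5 h6 ⊢; linarith)
      push_cast at this ⊢; linarith
  rcases (show ε' = 0 ∨ ε' = 1 by have := h.eps'; omega) with e2 | e2
  · have hc : ¬ χ i := fun hh => by have := hχ.1 hh; omega
    by_cases e1 : ε = 1 ∧ d = 1
    · obtain ⟨a3, a4⟩ := h.one e1.2
      have hX : (0 : ℝ) ≤ 1 + (p ^ a : ℕ) * b := by
        have : (0 : ℝ) ≤ (p ^ a : ℕ) := Nat.cast_nonneg _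
        linarith
      have hm : (G i).natDegree ≤ ⌊1 + ((p ^ a : ℕ) : ℝ) * b⌋₊ := by
        have a5 : (G i).coeff (G i).natDegree ≠ 0 :=
          leadingCoeff_ne_zero.2 fun hh => h1 (by rw [hh, coeff_zero])
        have a6 := h.rng i (by omega) _ a5
        rw [a4 i (by omega) _ a5, e1.1, ← hi] at a6
        refine Nat.le_floor ?_
        push_cast at a6 ⊢; linarith
      have hm1 : 1 + p ^ a ≤ ⌊1 + ((p ^ a : ℕ) : ℝ) * b⌋₊ := Nat.le_floor (by push_cast at hgb ⊢; linarith)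
      have hm2 := Nat.floor_le hX
      generalize ⌊1 + ((p ^ a : ℕ) : ℝ) * b⌋₊ = m at hm hm1 hm2
      rw [a3, e1.1] at he ⊢
      refine ⟨if p ^ a ∣ m then m + 1 else m, fun l => ?_, fun e => by omega, fun _ _ => ?_,
        fun e => by omega⟩
      · obtain ⟨j, hj, hne⟩ := ho.o5 (G i) l κ c a m (by omega) hm (by simpa using he)
        refine ⟨j, ?_, hne, fun hh => hc hh.1⟩
        split_ifs with a5
        · omega
        · exact hj.resolve_right fun hh => a5 hh.1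
      · split_ifs with a5
        · refine Or.inr ⟨hq.symm, by push_cast at hm2 ⊢; linarith, le_trans ?_ hm2⟩
          obtain ⟨u, rfl⟩ := a5
          have a6 : 2 ≤ u := by
            by_contra hh
            have : p ^ a * u ≤ p ^ a * 1 := Nat.mul_le_mul_left _ (by omega)
            omega
          have : 2 * p ^ a ≤ p ^ a * u := by rw [mul_comm]; exact Nat.mul_le_mul_left _ a6
          exact_mod_cast this
        · exact Or.inl hm2
    · refine ⟨R + p ^ t0, fun l => ?_, fun e => ?_, fun e _ => Or.inl ?_, fun _ e => by omega⟩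
      · obtain ⟨j, hj, hne⟩ := ho.o3 (G i) l κ c a t0 n R h.κ_ne ht h0 ⟨e0, h1, h3⟩ h5
        exact ⟨j, hj, hne, fun hh => hc hh.1⟩
      · have a1 : ε = 0 := by omega
        have := same (by omega) (by omega)
        rwa [show ε + R + p ^ t0 = R + p ^ t0 by omega] at this
      · have a1 : 2 * R ≤ jj i e0 + d * R := le_add_left (Nat.mul_le_mul_right _ (by omega))
        have a2 : ((2 * R : ℕ) : ℝ) ≤ (jj i e0 + d * R : ℕ) := by exact_mod_cast a1
        have a3 : ((2 * p ^ t0 : ℕ) : ℝ) ≤ (p ^ a : ℕ) := by exact_mod_cast hpt2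
        rw [e] at h6
        push_cast at a2 a3 h6 hgb ⊢
        linarith
  · have hce := h.chi_e i (by omega) (hχ.2 e2)
    have hn : ¬ p ∣ n := h.chi_top.2 (h.chi_top.1.1 e2)
    have hn0 : 0 < n := Nat.pos_of_ne_zero fun hh => hn (hh ▸ dvd_zero p)
    have hco : ∀ e, (derivative (G i)).coeff e ≠ 0 ↔ (G i).coeff (e + 1) ≠ 0 := by
      intro e
      rw [coeff_derivative, mul_ne_zero_iff]
      refine ⟨fun hh => hh.1, fun hh => ⟨hh, fun h7 => (hce _ hh).1 ?_⟩⟩
      rw [← CharP.cast_eq_zero_iff k p]; exact_mod_cast h7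
    have hsub : ∀ e : ℕ, (e : ℤ) - (n - 1 : ℕ) = ((e + 1 : ℕ) : ℤ) - n := by
      intro e; omega
    have he0 : 0 < e0 := Nat.pos_of_ne_zero fun hh => (hce _ h1).1 (hh ▸ dvd_zero p)
    refine ⟨1 + R + p ^ t0, fun l => ?_, fun e => ?_, fun _ e => by omega,
      fun e1 _ => Or.inr (Or.inr ⟨hq.symm, t0, R, hq ▸ pow_dvd_pow p ht, le_rfl, ?_,
        fun a1 => ⟨?_, hR2 a1⟩, fun a1 a2 => ?_⟩)⟩
    · obtain ⟨j, hj, hne⟩ := ho.o3 (derivative (G i)) l κ (c * n) a t0 (n - 1) R h.κ_ne ht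
        (fun e he => by rw [hsub]; exact h0 _ ((hco e).1 he))
        ⟨e0 - 1, (hco _).2 (by rwa [Nat.sub_add_cancel he0]),
          by rwa [hsub, Nat.sub_add_cancel he0]⟩
        (fun e e' a1 a2 a3 a4 => by
          rw [hsub] at a3 a4
          have := h5 _ _ ((hco e).1 a1) ((hco e').1 a2) a3 a4
          omega)
      have h7 : derivative (taylor κ (G i) + l ^ p ^ a * taylor κ (monomial n c)) =
          taylor κ (derivative (G i)) + l ^ p ^ a * taylor κ (monomial (n - 1) (c * n)) := by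
        rw [derivative_add, derivative_mul, derivative_pow, derivative_taylor, derivative_taylor,
          derivative_monomial, (CharP.cast_eq_zero_iff k p _).2 (dvd_pow_self p (by omega))]
        simp
      rw [← h7, coeff_derivative, mul_ne_zero_iff] at hne
      refine ⟨j + 1, by omega, hne.1, fun hh => hne.2 ?_⟩
      exact_mod_cast (CharP.cast_eq_zero_iff k p _).2 hh.2
    · have e1 : ε = 1 := by omega
      have a1 : ¬ p ∣ d := fun hh => by have := (h.typ2 e2).1 hh; omega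
      have := same (by have := (hce _ h1).2 a1; omega) (by omega)
      rwa [show ε + R + p ^ t0 = 1 + R + p ^ t0 by omega] at this
    · have a1 : p * R ≤ jj i e0 + d * R :=
        le_add_left (Nat.mul_le_mul_right _ (Nat.le_of_dvd hd ((h.typ2 e2).2 e1)))
      have a2 : ((p * R : ℕ) : ℝ) ≤ (jj i e0 + d * R : ℕ) := by exact_mod_cast a1
      rw [e1] at h6
      push_cast at a2 h6 ⊢
      linarith
    · by_contra hh
      have a2 : t0 = 0 := by omega
      have a3 := (hce _ h1).1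
      subst a1 a2
      norm_num at h3
      omega
    · have a3 := (hce _ h1).1
      have a4 := (hce _ h2).1
      subst a1 a2
      norm_num at h3 h4
      omega

omit hp [CharP k p] in
theorem exists_gap {Q : ℕ → Prop} (h : ∃ i < s, Q i) :
    ∃ i g, i + g = s ∧ 0 < g ∧ Q i ∧ ∀ i', i < i' → i' < s → ¬ Q i' := by
  classical
  obtain ⟨i0, h0, h1⟩ := h
  let P : ℕ → Prop := fun i => i < s ∧ Q i
  have hP : P (Nat.findGreatest P s) := Nat.findGreatest_spec (P := P) h0.le ⟨h0, h1⟩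
  refine ⟨_, s - Nat.findGreatest P s, by have := hP.1; omega, by have := hP.1; omega, hP.2,
    fun j hij hj hc => Nat.findGreatest_is_greatest hij hj.le ⟨hj, hc⟩⟩

omit hp [CharP k p] in
/-- The coefficient below a run of vanishing relevant heights. -/
theorem coeff_run (hl : LucStmt k p) (l : k[X]) {i g : ℕ} (hi : i + g = s) (hg : 0 < g)
    (hr : Relv p s i) (hz : ∀ i', i < i' → i' < s → Relv p s i' → G i' = 0) :
    (taylor l (facePol s n t κ G)).coeff i =
      taylor κ (G i) + l ^ g * taylor κ (monomial n ((s.choose g : k) * t)) := by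
  rw [hl.coeff _ l s i face_deg (by omega) hr fun i' a1 a2 a3 => by
    rw [face_low a2, hz i' a1 a2 a3, map_zero], face_low (by omega), face_top, C_mul_top,
    show s - i = g by omega]

/-- If the critical coefficient vanishes, the shift can be undone. -/
theorem undo (hl : LucStmt k p) (h : FD p s ε ε' d n b adm χ t κ G jj) {i a : ℕ}
    (hq : qq p s = p ^ a) (ha : ε' = 1 → 0 < a) (hi : i + p ^ a = s) (hr : Relv p s i)
    (hz : ∀ i', i ≤ i' → i' < s → Relv p s i' → G i' = 0) (hχ : χ i → ε' = 1) (l : k[X])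
    (b' : ℝ) (hadm : l ≠ 0 → adm)
    (hb : ∀ i < s, ∀ j, Ess p χ (taylor l (facePol s n t κ G)) i j → ε' + ((s : ℝ) - i) * b' ≤ j) :
    ∀ i < s, ∀ j, Ess p χ (facePol s n t κ G) i j → ε' + ((s : ℝ) - i) * b' ≤ j := by
  by_cases hl0 : l = 0
  · rwa [hl0, taylor_zero] at hb
  have hq0 : 0 < p ^ a := pow_pos hp.out.pos a
  have hc : (s.choose (p ^ a) : k) * t ≠ 0 := mul_ne_zero (hq ▸ (hl.q_le s h.two).2.2) h.t_ne
  have hco := coeff_run (n := n) (t := t) (κ := κ) hl l hi hq0 hr fun i' a1 => hz i' a1.le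
  rw [hz i le_rfl (by omega) hr, map_zero, zero_add] at hco
  have h1 : Ess p χ (taylor l (facePol s n t κ G)) i (p ^ a * l.natTrailingDegree + ε') := by
    rcases (show ε' = 0 ∨ ε' = 1 by have := h.eps'; omega) with e2 | e2
    · refine ⟨?_, fun hh => by have := hχ hh.1; omega⟩
      rw [hco, e2, add_zero]
      exact lowest hl0 (top_coeff_zero hc h.κ_ne) _
    · have hn : (n : k) ≠ 0 := fun hh =>
        h.chi_top.2 (h.chi_top.1.1 e2) ((CharP.cast_eq_zero_iff k p n).1 hh)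
      have h2 := lowest hl0 (top_coeff_zero (n := n - 1) (mul_ne_zero hc hn) h.κ_ne) (p ^ a)
      have h3 : derivative (l ^ p ^ a * taylor κ (monomial n ((s.choose (p ^ a) : k) * t))) =
          l ^ p ^ a * taylor κ (monomial (n - 1) ((s.choose (p ^ a) : k) * t * n)) := by
        rw [derivative_mul, derivative_pow, derivative_taylor, derivative_monomial,
          (CharP.cast_eq_zero_iff k p _).2 (dvd_pow_self p (ha e2).ne')]
        simp
      rw [← h3, coeff_derivative, mul_ne_zero_iff] at h2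
      refine ⟨by rw [hco, e2]; exact h2.1, fun hh => h2.2 ?_⟩
      rw [e2] at hh
      exact_mod_cast (CharP.cast_eq_zero_iff k p _).2 hh.2
  have h2 : b' ≤ l.natTrailingDegree := by
    have h3 := hb i (by omega) _ h1
    have h4 : (0 : ℝ) < (p ^ a : ℕ) := by exact_mod_cast hq0
    rw [← hi] at h3
    push_cast at h3 h4
    by_contra hh
    nlinarith [not_le.1 hh]
  have h3 := hl.back (taylor l (facePol s n t κ G)) (-l) χ s ε' b'
    (by rw [natDegree_taylor]; exact face_deg) h.chi_p (h.chi_adm (hadm hl0))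
    (fun m hm => h2.trans (by
      exact_mod_cast natTrailingDegree_le_of_ne_zero (p := l) (by simpa using hm)))
    (fun i hi j hj => by
      rcases hi.eq_or_lt with rfl | hi
      · have a1 : ε' ≤ j := by
          by_contra hh
          have a2 : ε' = 1 := by have := h.eps'; omega
          exact hj.2 ⟨h.chi_top.1.1 a2, by rw [show j = 0 by omega]; exact dvd_zero p⟩
        simpa using a1
      · exact hb i hi j hj)
  rw [taylor_taylor, neg_add_cancel, taylor_zero] at h3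
  exact fun i hi => h3 i hi.le

omit hp [CharP k p] in
theorem use {E : k[X][X]} {i g j J : ℕ} {b' : ℝ} (hi : i + g = s) (hg : 0 < g) (hj : j ≤ J)
    (he : Ess p χ E i j) (hb : ∀ i < s, ∀ j, Ess p χ E i j → ε' + ((s : ℝ) - i) * b' ≤ j) :
    ε' + g * b' ≤ J := by
  have h1 := hb i (by omega) j he
  have h2 : (j : ℝ) ≤ J := by exact_mod_cast hj
  rw [← hi] at h1
  push_cast at h1
  linarith

/-- The conclusion when the degree is prime to `p`. -/
def Red (p s ε ε' d n : ℕ) (b : ℝ) (adm : Prop) (χ : ℕ → Prop) (t κ : k) (G : ℕ → k[X])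
    (jj : ℕ → ℕ → ℕ) : Prop :=
  ∃ g J : ℕ, 0 < g ∧ g ≤ s ∧ Num p s ε ε' d b G jj g J ∧ ∀ (l : k[X]) (b' : ℝ), (l ≠ 0 → adm) →
    (∀ i < s, ∀ j, Ess p χ (taylor l (facePol s n t κ G)) i j → ε' + ((s : ℝ) - i) * b' ≤ j) →
    ε' + g * b' ≤ J

end Bound

open LU2.Bound in
theorem bound {k : Type*} [Field k] {p : ℕ} [hp : Fact p.Prime] [CharP k p] (ho : OrdStmt k p)
    (hl : LucStmt k p) : BoundStmt k p := by
  intro s ε ε' d n b adm χ t κ G jj h
  obtain ⟨hq1, hq2, -⟩ := hl.q_le s h.two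
  have hs2 := h.two
  by_cases hps : p ∣ s
  · right
    obtain ⟨a, ha, hq⟩ : ∃ a, 0 < a ∧ qq p s = p ^ a :=
      ⟨_, one_le_padicValNat_of_dvd (by omega) hps, if_pos hps⟩
    have hq0 : 0 < p ^ a := pow_pos hp.out.pos a
    have hqs : p ∣ s - p ^ a := Nat.dvd_sub hps (dvd_pow_self p ha.ne')
    have hr : ∀ i, Relv p s i := fun i => Or.inl hps
    obtain ⟨i, g, hi, hg, hG, hmax⟩ := exists_gap h.ne
    push Not at hmax
    have hM : ∀ i' < s, G i' ≠ 0 → i' + g ≤ s := fun i' a1 a2 => by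
      by_contra hh
      exact a2 (hmax i' (by omega) a1)
    have hX : ε' = 1 → ∀ l : k[X], (l ≠ 0 → adm) → ∀ i < s, s < i + g → ∀ j,
        Ess p χ (taylor l (facePol s n t κ G)) i j → i + j ≠ s := by
      intro e2 l hadm i' a1 a2 j hj hs
      have hco := coeff_run (n := n) (t := t) (κ := κ) hl l hs (by omega) (hr i')
        fun i'' a3 a4 _ => hmax i'' (by omega) a4
      rw [hmax i' (by omega) a1, map_zero, zero_add] at hco
      have a3 : l ^ j * taylor κ (monomial n ((s.choose j : k) * t)) ≠ 0 := fun hh =>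
        hj.1 (by rw [hco, hh, coeff_zero])
      have a4 : l ≠ 0 := fun hh => a3 (by rw [hh, zero_pow (by omega), zero_mul])
      have a5 : p ∣ j := hl.choose' s j hps fun hh => a3 (by rw [hh]; simp)
      exact hj.2 ⟨h.chi_adm (hadm a4) s i' ((Nat.dvd_add_left a5).1 (hs ▸ hps))
        (h.chi_top.1.1 e2), a5⟩
    have hχ : adm → ∀ i', χ i' → ε' = 1 := fun a1 i' a2 =>
      h.chi_top.1.2 (h.chi_adm a1 i' s hps a2)
    by_cases h2 : adm ∧ g = p ^ a
    · obtain ⟨hadm, rfl⟩ := h2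
      have hi' : s - qq p s = i := by omega
      have he := h.prep hadm (fun i' a1 a2 _ => hq ▸ hM i' a1 a2) (hi' ▸ hG)
      rw [hi', hq] at he
      obtain ⟨J, h3, h4, h5, h6⟩ := moh ho h hq hi (by simpa using he)
        ⟨hχ hadm i, fun e => h.chi_adm hadm s i (by rwa [show i = s - p ^ a by omega])
          (h.chi_top.1.1 e)⟩ ((s.choose (p ^ a) : k) * t)
      refine ⟨p ^ a, J, hg, by omega, fun l b' _ hb => ?_, fun _ hh => by omega, fun _ => hM, hX,
        h4, h5, h6⟩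
      obtain ⟨j, a1, a2, a3⟩ := h3 l
      refine use hi hg a1 ⟨?_, a3⟩ hb
      rwa [coeff_run hl l hi hg (hr i) fun i' a1 a2 _ => hmax i' a1 a2]
    obtain ⟨J, ⟨j, h3, h4, h5⟩, h6, h7, h8⟩ := plain ho h hi hg hG fun _ e2 a1 a2 _ => by
      have a3 : ¬ adm := fun hh => by have := hχ hh i a1; omega
      exact absurd (by rw [show i = s - 1 by omega]; exact h.nadm a3) hG
    have hU : g < qq p s → ∀ l : k[X], Ess p χ (taylor l (facePol s n t κ G)) i j := by
      intro a1 l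
      refine ⟨?_, h5⟩
      rw [coeff_run hl l hi hg (hr i) fun i' a1 a2 _ => hmax i' a1 a2,
        hl.choose s g hs2 hg a1 (hr _)]
      simpa using h4
    refine ⟨g, J, hg, by omega, fun l b' hadm hb => ?_,
      fun _ a1 l _ => ⟨j, h3, by rw [show s - g = i by omega]; exact hU a1 l⟩, fun _ => hM, hX,
      h6, h7, h8⟩
    rcases lt_or_ge g (qq p s) with a1 | a1
    · exact use hi hg h3 (hU a1 l) hb
    have hE : Ess p χ (facePol s n t κ G) i j := ⟨by rwa [face_low (by omega)], h5⟩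
    by_cases hl0 : l = 0
    · rw [hl0, taylor_zero] at hb
      exact use hi hg h3 hE hb
    have a2 : g ≠ p ^ a := fun hh => h2 ⟨hadm hl0, hh⟩
    exact use hi hg h3 hE (undo hl h hq (fun _ => ha) (i := s - p ^ a) (by omega) (hr _)
      (fun i' a3 a4 _ => hmax i' (by omega) a4) (hχ (hadm hl0) _) l b' hadm hb)
  have e1 : ε = 0 := by
    have : ε ≠ 1 := fun e => hps (h.typ1 e)
    have := h.eps; omega
  have e2 : ε' ≠ 1 := fun e => hps (h.chi_p s (h.chi_top.1.1 e))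
  obtain ⟨hq3, hq4⟩ := hq2 hps
  obtain ⟨a, hq⟩ : ∃ a, qq p s = p ^ a := ⟨_, if_neg hps⟩
  have hq0 : 0 < p ^ a := pow_pos hp.out.pos a
  suffices H : (¬ p ∣ s ∧ b = 1 ∧ adm ∧ χ (s - 1) ∧ (∀ i, i + 1 < s → G i = 0) ∧
      ∃ c e, c ≠ 0 ∧ G (s - 1) = monomial e c) ∨ Red p s ε ε' d n b adm χ t κ G jj by
    rcases H with H | ⟨g, J, a1, a2, a3, a4⟩
    · exact Or.inl H
    · exact Or.inr ⟨g, J, a1, a2, a4, fun hh => absurd hh hps, fun hh => absurd hh hps,
        fun hh => absurd hh e2, a3.1, a3.2.1, a3.2.2⟩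
  have last : (∀ (l : k[X]) (b' : ℝ), (l ≠ 0 → adm) →
      (∀ i < s, ∀ j, Ess p χ (taylor l (facePol s n t κ G)) i j → ε' + ((s : ℝ) - i) * b' ≤ j) →
      ∀ i < s, ∀ j, Ess p χ (facePol s n t κ G) i j → ε' + ((s : ℝ) - i) * b' ≤ j) →
      ∀ i g, i + g = s → 0 < g → G i ≠ 0 →
      (χ i → g = 1 → (G i).natTrailingDegree = (G i).natDegree → 1 < b) →
      Red p s ε ε' d n b adm χ t κ G jj := by
    intro hb i g hi hg hG hx
    obtain ⟨J, ⟨j, h3, h4, h5⟩, h6⟩ := plain ho h hi hg hG fun _ _ => hx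
    exact ⟨g, J, hg, by omega, h6, fun l b' a1 a2 =>
      use hi hg h3 ⟨by rwa [face_low (by omega)], h5⟩ (hb l b' a1 a2)⟩
  by_cases hadm : adm
  swap
  · obtain ⟨i, hi, hG⟩ := h.ne
    refine Or.inr (last (fun l b' a1 a2 => ?_) i (s - i) (by omega) (by omega) hG
      fun _ a1 _ => ?_)
    · rwa [not_not.1 fun hh => hadm (a1 hh), taylor_zero] at a2
    · exact absurd (by rw [show i = s - 1 by omega]; exact h.nadm hadm) hG
  by_cases hex : ∃ i < s, s ≤ i + p ^ a ∧ G i ≠ 0 ∧ ¬ p ∣ i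
  · obtain ⟨i, g, hi, hg, ⟨h1, hG, hpi⟩, hmax⟩ := exists_gap hex
    have hz : ∀ i', i < i' → i' < s → Relv p s i' → G i' = 0 := fun i' a1 a2 a3 => by
      by_contra hh
      exact hmax i' a1 a2 ⟨by omega, hh, a3.resolve_left hps⟩
    have hc : ¬ χ i := fun hh => hpi (h.chi_p i hh)
    rcases (show g < p ^ a ∨ g = p ^ a by omega) with h2 | rfl
    · obtain ⟨J, ⟨j, h3, h4, h5⟩, h6⟩ := plain ho h hi hg hG fun _ _ hh => absurd hh hc
      refine Or.inr ⟨g, J, hg, by omega, h6, fun l b' _ hb => use hi hg h3 ⟨?_, h5⟩ hb⟩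
      rw [coeff_run hl l hi hg (Or.inr hpi) hz, hl.choose s g hs2 hg (hq ▸ h2)
        (Or.inr (by rwa [show s - g = i by omega]))]
      simpa using h4
    · have hi' : s - qq p s = i := by omega
      have he := h.prep hadm (fun i' a1 a2 a3 => by
        by_contra hh
        exact a2 (hz i' (by omega) a1 a3)) (hi' ▸ hG)
      rw [hi', hq] at he
      obtain ⟨J, h3, h4⟩ := moh ho h hq hi (by simpa using he)
        ⟨fun hh => absurd hh hc, fun hh => absurd hh e2⟩ ((s.choose (p ^ a) : k) * t)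
      refine Or.inr ⟨_, J, hg, by omega, h4, fun l b' _ hb => ?_⟩
      obtain ⟨j, a1, a2, a3⟩ := h3 l
      refine use hi hg a1 ⟨?_, a3⟩ hb
      rwa [coeff_run hl l hi hg (Or.inr hpi) hz]
  have hund := undo hl h hq (fun hh => absurd hh e2) (i := s - p ^ a) (by omega)
    (Or.inr (hq ▸ hq4)) (fun i' a1 a2 a3 => by
      by_contra hh
      exact hex ⟨i', a2, by omega, hh, a3.resolve_left hps⟩)
    (fun hh => absurd (h.chi_p _ hh) (hq ▸ hq4))
  by_cases h2 : ∃ i, i + 1 < s ∧ G i ≠ 0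
  · obtain ⟨i, hi, hG⟩ := h2
    exact Or.inr (last hund i (s - i) (by omega) (by omega) hG fun _ a1 _ => by omega)
  push Not at h2
  have hG : G (s - 1) ≠ 0 := by
    obtain ⟨i, hi, hG⟩ := h.ne
    by_cases a1 : i + 1 < s
    · exact absurd (h2 i a1) hG
    · rwa [show s - 1 = i by omega]
  by_cases h3 : b = 1 ∧ χ (s - 1) ∧ (G (s - 1)).natTrailingDegree = (G (s - 1)).natDegree
  · refine Or.inl ⟨hps, h3.1, hadm, h3.2.1, h2, (G (s - 1)).leadingCoeff, (G (s - 1)).natDegree,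
      leadingCoeff_ne_zero.2 hG, ?_⟩
    ext e
    rw [coeff_monomial]
    split_ifs with a1
    · rw [← a1]; rfl
    · by_contra hh
      have := le_natDegree_of_ne_zero hh
      have := natTrailingDegree_le_of_ne_zero hh
      omega
  · exact Or.inr (last hund (s - 1) 1 (by omega) one_pos hG fun a1 _ a2 =>
      lt_of_le_of_ne h.one_le fun hh => h3 ⟨hh.symm, a1, a2⟩)

end Pool.Agent.MP_19ffc6_ag.LU2

end MrgPart0

-- ======== part 1: formerly Pool.Agent.MP_19ffc6_ag.LU2.InitK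
section MrgPart1

/-! Module INITK of PROJECT LU2: the first stage in rational rank `n - 2`. -/

namespace Pool.Agent.MP_19ffc6_ag.LU2

open Polynomial IntermediateField Pool.Agent.MP_19ffc6_ag.LU Pool.Agent.MP_19ffc6_ag.LU.Init

namespace InitK

section alg

variable {k Ω : Type*} [Field k] [Field Ω] [Algebra k Ω]

/-- Algebraicity passes to a larger subfield, whatever the base fields. -/
theorem alg_mono {K K' : Type*} [Field K] [Field K'] [Algebra K Ω] [Algebra K' Ω]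
    (A : IntermediateField K Ω) (B : IntermediateField K' Ω) (h : ∀ z ∈ A, z ∈ B)
    (hA : Algebra.IsAlgebraic A Ω) : Algebra.IsAlgebraic B Ω := by
  refine ⟨fun a => ?_⟩
  have hmem : ∀ z : A, A.val.toRingHom z ∈ B := fun z => h z z.2
  let φ : A →+* B := A.val.toRingHom.codRestrict _ hmem
  have h1 : IsIntegral A a := (hA.isAlgebraic a).isIntegral
  have h2 : IsIntegral B a := by
    refine ⟨(minpoly A a).map φ, (minpoly.monic h1).map φ, ?_⟩
    rw [eval₂_map]
    exact minpoly.aeval A a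
  exact h2.isAlgebraic

theorem mem_adjoin_adjoin (S T : Set Ω) (z : Ω) :
    z ∈ adjoin (adjoin k S) T ↔ z ∈ adjoin k (S ∪ T) := by
  rw [← adjoin_adjoin_left]
  rfl

/-- Adjoining `m` elements lowers the transcendence degree by at most `m`. -/
theorem trdeg_le_add {m : ℕ} (f : Fin m → Ω) :
    Algebra.trdeg k Ω ≤ m + Algebra.trdeg (adjoin k (Set.range f)) Ω := by
  obtain ⟨t, ht⟩ := exists_isTranscendenceBasis (adjoin k (Set.range f)) Ω
  have h1 : Algebra.IsAlgebraic (adjoin (adjoin k (Set.range f)) t) Ω := by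
    have h := ht.isAlgebraic
    rw [Subtype.range_coe] at h
    exact isAlgebraic_adjoin_iff_top.2 h
  have h2 : Algebra.IsAlgebraic (adjoin k (Set.range f ∪ t)) Ω :=
    alg_mono _ _ (fun z hz => (mem_adjoin_adjoin _ _ z).1 hz) h1
  have : Algebra.IsAlgebraic (Algebra.adjoin k (Set.range f ∪ t)) Ω :=
    isAlgebraic_adjoin_iff_top.1 h2
  refine (Algebra.IsAlgebraic.trdeg_le_cardinalMk k (Set.range f ∪ t)).trans ?_
  refine (Cardinal.mk_union_le _ _).trans (add_le_add ?_ ht.cardinalMk_eq_trdeg.le)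
  have h3 := Cardinal.mk_range_le_lift (f := f)
  simpa only [Cardinal.lift_uzero, Cardinal.mk_fin, Cardinal.lift_natCast] using h3

/-- Independent elements are completed by two elements of `F`. -/
theorem exists_two {F : IntermediateField k Ω} (hF : Algebra.IsAlgebraic F Ω) {r : ℕ}
    (x : Fin r → Ω) (hx : AlgebraicIndependent k x)
    (htr : Algebra.trdeg k F ≤ r + 2) :
    ∃ a ∈ F, ∃ b ∈ F, Algebra.IsAlgebraic (adjoin k (Set.range x ∪ {a, b})) Ω := by
  set N : IntermediateField k Ω := adjoin k (Set.range x) with hN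
  have hΩ : Algebra.trdeg k Ω ≤ r + 2 := by
    rw [← trdeg_add_eq k F (A := Ω), trdeg_eq_zero (R := F) (A := Ω), add_zero]
    exact htr
  have hr : (r : Cardinal) ≤ Algebra.trdeg k N := by
    have h2 : AlgebraicIndependent k fun i => (⟨x i, subset_adjoin _ _ ⟨i, rfl⟩⟩ : N) :=
      AlgebraicIndependent.of_comp N.val hx
    simpa using h2.lift_cardinalMk_le_trdeg
  have h2 : Algebra.trdeg N Ω ≤ 2 := by
    have h3 : (r : Cardinal) + Algebra.trdeg N Ω ≤ r + 2 := by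
      refine le_trans ?_ hΩ
      rw [← trdeg_add_eq k N (A := Ω)]
      exact add_le_add_left hr _
    rw [add_comm, add_comm (r : Cardinal)] at h3
    exact (Cardinal.add_le_add_iff_of_lt_aleph0 Cardinal.natCast_lt_aleph0).1 h3
  have h4 : Algebra.IsAlgebraic (Algebra.adjoin N (F : Set Ω)) Ω :=
    isAlgebraic_adjoin_iff_top.1 (alg_mono F _ (fun z hz => subset_adjoin _ _ hz) hF)
  obtain ⟨t, htF, ht⟩ := exists_isTranscendenceBasis_subset (R := N) (F : Set Ω)
  have h5 : Cardinal.mk t ≤ 2 := ht.cardinalMk_eq_trdeg.trans_le h2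
  obtain ⟨a, ha, b, hb, hab⟩ : ∃ a ∈ F, ∃ b ∈ F, t ⊆ {a, b} := by
    by_cases h0 : ∃ a, a ∈ t
    · obtain ⟨a, ha⟩ := h0
      by_cases h1 : ∃ b ∈ t, b ≠ a
      · obtain ⟨b, hb, hba⟩ := h1
        refine ⟨a, htF ha, b, htF hb, fun c hc => ?_⟩
        by_contra hcon
        simp only [Set.mem_insert_iff, Set.mem_singleton_iff, not_or] at hcon
        have h6 : ({c, a, b} : Set Ω) ⊆ t := by
          rintro _ (rfl | rfl | rfl) <;> assumption
        have h7 := (Cardinal.mk_le_mk_of_subset h6).trans h5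
        rw [Cardinal.mk_insert (by simp [hcon]), Cardinal.mk_insert (by simpa using hba.symm),
          Cardinal.mk_singleton] at h7
        have h8 : (1 + 1 + 1 : ℕ) ≤ 2 := by exact_mod_cast h7
        omega
      · push Not at h1
        exact ⟨a, htF ha, a, htF ha, fun c hc => Or.inl (h1 c hc)⟩
    · exact ⟨0, F.zero_mem, 0, F.zero_mem, fun c hc => (h0 ⟨c, hc⟩).elim⟩
  refine ⟨a, ha, b, hb, ?_⟩
  have h9 : Algebra.IsAlgebraic (adjoin N t) Ω := by
    have h := ht.isAlgebraic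
    rw [Subtype.range_coe] at h
    exact isAlgebraic_adjoin_iff_top.2 h
  refine alg_mono _ _ (fun z hz => ?_) h9
  exact adjoin.mono _ _ _ (Set.union_subset_union_right _ hab) ((mem_adjoin_adjoin _ _ z).1 hz)

end alg

variable {k Ω : Type*} [Field k] [NontriviallyNormedField Ω] [IsUltrametricDist Ω] [Algebra k Ω]
  [Ctx k Ω]

omit [IsUltrametricDist Ω] in
/-- Every element is a rational function of a small element. -/
theorem exists_small' {F : IntermediateField k Ω} {a : Ω} (ha : a ∈ F) :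
    ∃ y ∈ F, ‖y‖ < 1 ∧ ∀ M : IntermediateField k Ω, y ∈ M → a ∈ M := by
  have key : ∀ b ∈ F, ‖b‖ ≤ 1 → ∃ y ∈ F, ‖y‖ < 1 ∧
      ∀ M : IntermediateField k Ω, y ∈ M → b ∈ M := by
    intro b hb h
    obtain ⟨c, hc⟩ := Ctx.res (k := k) b h
    refine ⟨_, F.sub_mem hb (F.algebraMap_mem c), hc, fun M hM => ?_⟩
    have := M.add_mem hM (M.algebraMap_mem c)
    rwa [sub_add_cancel] at this
  by_cases h : ‖a‖ ≤ 1
  · exact key a ha h
  · obtain ⟨y, hy, hy1, hy2⟩ := key a⁻¹ (F.inv_mem ha)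
      (by rw [norm_inv]; exact inv_le_one_of_one_le₀ (not_le.1 h).le)
    refine ⟨y, hy, hy1, fun M hM => ?_⟩
    have := M.inv_mem (hy2 M hM)
    rwa [inv_inv] at this

omit [IsUltrametricDist Ω] [Ctx k Ω] in
/-- The lattice of a stage is dense as soon as two values are independent. -/
theorem dense_of_two (s : Stage Ω) {r : ℕ} (x : Fin r → Ω) (hx : ∀ i, x i ≠ 0)
    (hli : LinearIndependent ℤ fun i => nu (x i)) (hr : 2 ≤ r) : Dense (s.Λ : Set ℝ) := by
  refine (AddSubgroup.dense_or_cyclic s.Λ).resolve_right ?_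
  rintro ⟨a, ha⟩
  let i0 : Fin r := ⟨0, by omega⟩
  let i1 : Fin r := ⟨1, by omega⟩
  have hne : i0 ≠ i1 := by simp [i0, i1]
  obtain ⟨d0, hd0, h0⟩ := s.full _ (hx i0)
  obtain ⟨d1, hd1, h1⟩ := s.full _ (hx i1)
  rw [ha, AddSubgroup.mem_closure_singleton] at h0 h1
  obtain ⟨m0, hm0⟩ := h0
  obtain ⟨m1, hm1⟩ := h1
  have hpair : LinearIndependent ℤ ![nu (x i0), nu (x i1)] := by
    have h := hli.comp ![i0, i1] (by
      intro u v huv
      fin_cases u <;> fin_cases v <;> simp_all [hne.symm])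
    have he : ((fun i => nu (x i)) ∘ ![i0, i1]) = ![nu (x i0), nu (x i1)] := by
      funext u
      fin_cases u <;> rfl
    rwa [he] at h
  rw [LinearIndependent.pair_iff] at hpair
  simp only [zsmul_eq_mul] at hm0 hm1 hpair
  have h2 := (hpair (m1 * d0) (-(m0 * d1)) (by
    push_cast
    linear_combination (m0 : ℝ) * hm1 - (m1 : ℝ) * hm0)).2
  have h3 : m0 = 0 := by
    have h4 : m0 * (d1 : ℤ) = 0 := neg_eq_zero.1 h2
    exact (mul_eq_zero.1 h4).resolve_right (by exact_mod_cast hd1.ne')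
  have h5 := (hpair d0 0 (by
    rw [h3] at hm0
    push_cast at hm0 ⊢
    linear_combination -hm0)).1
  omega

omit [Ctx k Ω] in
/-- The monomials of a stage generate a field with at most `r` generators. -/
theorem mon_gen {F : IntermediateField k Ω} (hF : Algebra.IsAlgebraic F Ω) {r : ℕ}
    (hmax : ∀ m, Fam F m → m ≤ r) (s : Stage Ω) :
    ∃ m ≤ r, ∃ f : Fin m → Ω, adjoin k (s.mon '' s.Λ) = adjoin k (Set.range f) := by
  have : Module.Finite ℤ s.Λ :=
    Module.Finite.iff_addGroup_fg.2 ((AddGroup.fg_iff_addSubgroup_fg _).2 s.fg)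
  let b := Module.finBasis ℤ s.Λ
  have hne : ∀ α ∈ s.Λ, s.mon α ≠ 0 := fun α hα h => by
    have := s.norm_mon α hα
    rw [h, norm_zero] at this
    exact (Real.exp_pos _).ne this
  have hnu : ∀ α ∈ s.Λ, nu (s.mon α) = α := fun α hα => by
    simp [nu, s.norm_mon α hα]
  have hb : LinearIndependent ℤ fun i => (b i : ℝ) :=
    b.linearIndependent.map' s.Λ.subtype.toIntLinearMap
      (LinearMap.ker_eq_bot.2 Subtype.val_injective)
  have hm : Module.finrank ℤ s.Λ ≤ r := by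
    choose d hd e he he0 hde using fun i => exists_mul_nu hF (hne _ (b i).2)
    refine hmax _ ⟨e, fun i => ⟨he i, he0 i⟩, ?_⟩
    rw [Fintype.linearIndependent_iff] at hb ⊢
    intro g hg i
    have h1 := hb (fun i => g i * d i) (by
      rw [← hg]
      refine Finset.sum_congr rfl fun i _ => ?_
      rw [← hde i, hnu _ (b i).2]
      simp [mul_assoc]) i
    exact (mul_eq_zero.1 h1).resolve_right (by exact_mod_cast (hd i).ne')
  refine ⟨_, hm, fun i => s.mon (b i), ?_⟩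
  let N : IntermediateField k Ω := adjoin k (Set.range fun i => s.mon (b i))
  have h0 : s.mon 0 = 1 := by
    have := s.mon_add 0 s.Λ.zero_mem 0 s.Λ.zero_mem
    rw [add_zero] at this
    exact (mul_eq_left₀ (hne 0 s.Λ.zero_mem)).1 this.symm
  have hN : ∀ α ∈ s.Λ, s.mon α ∈ N := by
    intro α hα
    have h1 : α ∈ AddSubgroup.closure (Set.range fun i => (b i : ℝ)) := by
      have h2 := congrArg Subtype.val (b.sum_repr ⟨α, hα⟩)
      simp only [AddSubgroup.val_finsetSum, AddSubgroup.coe_zsmul] at h2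
      rw [← h2]
      exact sum_mem fun i _ => zsmul_mem (AddSubgroup.subset_closure (Set.mem_range_self i)) _
    suffices h : α ∈ s.Λ ∧ s.mon α ∈ N from h.2
    clear hα
    induction h1 using AddSubgroup.closure_induction with
    | mem x hx =>
      obtain ⟨i, rfl⟩ := hx
      exact ⟨(b i).2, subset_adjoin _ _ ⟨i, rfl⟩⟩
    | zero => exact ⟨s.Λ.zero_mem, h0 ▸ N.one_mem⟩
    | add x y _ _ hx hy =>
      exact ⟨s.Λ.add_mem hx.1 hy.1, s.mon_add x hx.1 y hy.1 ▸ N.mul_mem hx.2 hy.2⟩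
    | neg x _ hx =>
      refine ⟨s.Λ.neg_mem hx.1, ?_⟩
      have h2 := s.mon_add x hx.1 (-x) (s.Λ.neg_mem hx.1)
      rw [add_neg_cancel, h0] at h2
      rw [eq_inv_of_mul_eq_one_right h2.symm]
      exact N.inv_mem hx.2
  refine le_antisymm (adjoin_le_iff.2 ?_) (adjoin.mono _ _ _ ?_)
  · rintro _ ⟨α, hα, rfl⟩
    exact hN α hα
  · rintro _ ⟨i, rfl⟩
    exact ⟨_, (b i).2, rfl⟩

omit [Ctx k Ω] in
/-- If the rational rank is at most the transcendence degree minus two, the two coordinates of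
every stage are independent over the monomials. -/
theorem na2 {F : IntermediateField k Ω} (hF : Algebra.IsAlgebraic F Ω) {r : ℕ}
    (hmax : ∀ m, Fam F m → m ≤ r) (hr : (r : Cardinal) + 2 ≤ Algebra.trdeg k F) : NA2 k Ω := by
  intro s hs
  obtain ⟨m, hm, f, hf⟩ := mon_gen hF hmax s.toStage
  have h1 : Algebra.IsAlgebraic
      (Algebra.adjoin (adjoin k (s.mon '' s.Λ)) (Set.range ![s.y, s.z])) Ω := by
    refine isAlgebraic_adjoin_iff_top.1 (alg_mono _ _ (fun z hz => ?_) hs)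
    rw [mem_adjoin_adjoin, Matrix.range_cons, Matrix.range_cons, Matrix.range_empty,
      Set.union_empty, Set.singleton_union]
    exact hz
  have h2 : (2 : Cardinal) ≤ Algebra.trdeg (adjoin k (s.mon '' s.Λ)) Ω := by
    have h3 := trdeg_le_add (k := k) f
    rw [← hf] at h3
    have h4 : Algebra.trdeg k F ≤ Algebra.trdeg k Ω :=
      trdeg_le_of_injective F.val Subtype.val_injective
    have h5 : (m : Cardinal) ≤ r := by exact_mod_cast hm
    have h6 := (hr.trans (h4.trans h3)).trans (add_le_add_left h5 _)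
    rw [add_comm, add_comm (r : Cardinal)] at h6
    exact (Cardinal.add_le_add_iff_of_lt_aleph0 Cardinal.natCast_lt_aleph0).1 h6
  refine (Algebra.IsAlgebraic.isTranscendenceBasis_of_lift_le_trdeg_of_finite
    (adjoin k (s.mon '' s.Λ)) ![s.y, s.z] ?_).1
  simpa using h2

omit [Ctx k Ω] in
/-- The values of a maximal family span a full lattice. -/
theorem full_of_max {F : IntermediateField k Ω} (hF : Algebra.IsAlgebraic F Ω) {r : ℕ}
    (hmax : ∀ m, Fam F m → m ≤ r) (x : Fin r → Ω) (hx : ∀ i, x i ∈ F ∧ x i ≠ 0)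
    (hli : LinearIndependent ℤ fun i => nu (x i)) (a : Ω) (ha : a ≠ 0) :
    ∃ d : ℕ, 0 < d ∧ (d : ℝ) * nu a ∈ Submodule.span ℤ (Set.range fun i => nu (x i)) := by
  obtain ⟨d, hd, e, he, he0, hde⟩ := exists_mul_nu hF ha
  have hnot : ¬ ∀ (c : ℤ), ∀ w ∈ Submodule.span ℤ (Set.range fun i => nu (x i)),
      c • nu e + w = (0 : ℝ) → c = 0 := by
    intro h
    have h1 := hmax (r + 1) ⟨Fin.cons e x, fun i => ?_, ?_⟩
    · omega
    · refine Fin.cases ?_ (fun j => ?_) i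
      · exact ⟨he, he0⟩
      · exact hx j
    · have h2 := LinearIndependent.finCons' (nu e) _ hli h
      have h3 : (fun i => nu ((Fin.cons e x : Fin (r + 1) → Ω) i)) =
          Fin.cons (nu e) fun i => nu (x i) := by
        funext i
        refine Fin.cases ?_ (fun j => ?_) i <;> rfl
      rw [h3]
      exact h2
  push Not at hnot
  obtain ⟨c, w, hw, hcw, hc⟩ := hnot
  refine ⟨(c * c).toNat * d, ?_, ?_⟩
  · have : 0 < c * c := mul_self_pos.2 hc
    have : 0 < (c * c).toNat := by omega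
    positivity
  · have h1 : (((c * c).toNat : ℕ) : ℝ) = c * c := by
      have : (((c * c).toNat : ℕ) : ℤ) = c * c := Int.toNat_of_nonneg (mul_self_nonneg c)
      exact_mod_cast this
    have h2 : (((c * c).toNat * d : ℕ) : ℝ) * nu a = (-c) • w := by
      rw [Nat.cast_mul, h1, mul_assoc _ (d : ℝ), hde]
      simp only [zsmul_eq_mul] at hcw ⊢
      push_cast
      linear_combination (c : ℝ) * hcw
    rw [h2]
    exact Submodule.smul_mem _ _ hw

end InitK

open InitK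

variable {k Ω : Type*} [Field k] [NontriviallyNormedField Ω] [IsUltrametricDist Ω] [Algebra k Ω]
  [Ctx k Ω]

theorem initK : InitKStmt k Ω := by
  intro F _ hF r x hx hli hr htr
  refine or_iff_not_imp_left.2 fun hno => ?_
  have hlt : ∀ m, Fam F m → (m : Cardinal) + 1 < Algebra.trdeg k F := by
    rintro m ⟨x', hx', hli'⟩
    by_contra h
    exact hno ⟨m, x', hx', hli', not_lt.1 h⟩
  have hmax : ∀ m, Fam F m → m ≤ r := by
    intro m hm
    have h1 : m + 1 < r + 2 := by exact_mod_cast (hlt m hm).trans_le htr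
    omega
  have hge : (r : Cardinal) + 2 ≤ Algebra.trdeg k F := by
    have h1 := Cardinal.add_one_le_of_lt (hlt r ⟨x, hx, hli⟩)
    rwa [add_assoc, one_add_one_eq_two] at h1
  refine ⟨na2 hF hmax hge, ?_⟩
  have hx0 : ∀ i, x i ≠ 0 := fun i => (hx i).2
  obtain ⟨a, ha, b, hb, hab⟩ := exists_two hF x (ind _ x hx0 hli) htr
  obtain ⟨y, hyF, hy1, hy⟩ := exists_small' ha
  obtain ⟨z, hzF, hz1, hz⟩ := exists_small' hb
  obtain ⟨s, hsy, hsX, hsm⟩ := exists_stage x hx0 hli (full_of_max hF hmax x hx hli) y hy1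
  refine ⟨⟨s, z, hz1, dense_of_two s x hx0 hli hr⟩, adjoin_le_iff.2 ?_, ?_⟩
  · rintro _ (⟨α, hα, rfl⟩ | rfl | rfl)
    · obtain ⟨m, hm⟩ := hsm α hα
      change s.mon α ∈ F
      rw [hm]
      exact prod_mem fun i _ => zpow_mem (hx i).1 _
    · change s.y ∈ F
      rw [hsy]
      exact hyF
    · exact hzF
  · refine alg_mono _ _ (fun w hw => ?_) hab
    refine adjoin_le_iff.2 ?_ hw
    rintro _ (⟨i, rfl⟩ | rfl | rfl)
    · rcases hsX i with h | h
      · exact subset_adjoin _ _ (Or.inl h)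
      · exact subset_adjoin _ _ (Or.inr (Or.inl h))
    · exact hy _ (subset_adjoin _ _ (Or.inr (Or.inl hsy.symm)))
    · exact hz _ (subset_adjoin _ _ (Or.inr (Or.inr rfl)))

end Pool.Agent.MP_19ffc6_ag.LU2

end MrgPart1

-- ======== part 2: formerly Pool.Agent.MP_19ffc6_ag.LU2.R
section MrgPart2

/-! PROJECT LU2, modules R (a stage for a purely inseparable extension) and GLUE2 (from a real
valuation to a normed algebraic closure). -/

namespace Pool.Agent.MP_19ffc6_ag.LU2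

open Polynomial IntermediateField Pool.Agent.MP_19ffc6_ag.LU

namespace RM

variable {k Ω : Type*} [Field k] [NontriviallyNormedField Ω] [Algebra k Ω]

theorem trdeg_adjoin_le {m : ℕ} (f : Fin m → Ω) :
    Algebra.trdeg k (adjoin k (Set.range f)) ≤ m := by
  let g : Fin m → adjoin k (Set.range f) := fun i => ⟨f i, subset_adjoin _ _ ⟨i, rfl⟩⟩
  have h1 : adjoin k (Set.range g) = ⊤ := by
    apply lift_injective
    rw [lift_top, lift_adjoin, ← Set.range_comp]
    rfl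
  have h2 := InitK.trdeg_le_add (k := k) g
  have h3 : Algebra.IsAlgebraic (adjoin k (Set.range g)) (adjoin k (Set.range f)) :=
    ⟨fun a => isAlgebraic_algebraMap (⟨a, h1 ▸ mem_top⟩ : adjoin k (Set.range g))⟩
  rwa [trdeg_eq_zero (R := adjoin k (Set.range g)), add_zero] at h2

theorem trdeg_le_of_alg {K1 L : IntermediateField k Ω} (h : ∀ a ∈ L, IsAlgebraic K1 a) :
    Algebra.trdeg k L ≤ Algebra.trdeg k K1 := by
  have h1 : L ≤ (algebraicClosure K1 Ω).restrictScalars k := fun a ha =>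
    mem_algebraicClosure_iff.2 (h a ha)
  refine (trdeg_le_of_injective (inclusion h1) (inclusion_injective h1)).trans (le_of_eq ?_)
  change Algebra.trdeg k (algebraicClosure K1 Ω) = _
  rw [← trdeg_add_eq k K1 (A := algebraicClosure K1 Ω), trdeg_eq_zero (R := K1), add_zero]

theorem dense_of_dense (s : St Ω) (t : Stage Ω) : Dense (t.Λ : Set ℝ) := by
  refine (AddSubgroup.dense_or_cyclic t.Λ).resolve_right ?_
  rintro ⟨a, ha⟩
  have h1 : ∃ D : ℕ, 0 < D ∧ ∀ α ∈ s.Λ, (D : ℝ) * α ∈ t.Λ := by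
    obtain ⟨T, hT⟩ := s.fg
    have hTΛ : ∀ α ∈ T, α ∈ s.Λ := fun α h => hT ▸ AddSubgroup.subset_closure h
    choose! d hd0 hd using fun α (h : α ∈ T) => t.full _ (s.mon_ne_zero (hTΛ α h))
    refine ⟨∏ α ∈ T, d α, Finset.prod_pos hd0, fun α hα => ?_⟩
    rw [← hT] at hα
    induction hα using AddSubgroup.closure_induction with
    | mem x hx =>
      obtain ⟨c, hc⟩ := Finset.dvd_prod_of_mem d hx
      have := natCast_mul_mem (hd x hx) c
      rw [s.nu_mon (hTΛ x hx)] at this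
      rw [hc, Nat.cast_mul, mul_comm (d x : ℝ), mul_assoc]
      exact this
    | zero => simp
    | add x y _ _ h1 h2 => rw [mul_add]; exact add_mem h1 h2
    | neg x _ h1 => rw [mul_neg]; exact neg_mem h1
  obtain ⟨D, hD, h2⟩ := h1
  have hD' : (0 : ℝ) < D := by exact_mod_cast hD
  have h3 : ∀ α ∈ s.Λ, 0 < α → |a| ≤ D * α := by
    intro α hα h0
    have h4 := h2 α hα
    rw [ha, AddSubgroup.mem_closure_singleton] at h4
    obtain ⟨n, hn⟩ := h4
    have h5 : 0 < (D : ℝ) * α := mul_pos hD' h0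
    have h6 : n ≠ 0 := by rintro rfl; simp at hn; rcases hn with h | h <;> simp_all
    have h7 : (1 : ℝ) ≤ |(n : ℝ)| := by exact_mod_cast Int.one_le_abs h6
    rw [← abs_of_pos h5, ← hn, zsmul_eq_mul, abs_mul]
    exact le_mul_of_one_le_left (abs_nonneg a) h7
  have h0 : 0 < |a| := by
    obtain ⟨α, hα, h0⟩ := t.exists_pos
    rw [ha, AddSubgroup.mem_closure_singleton] at hα
    obtain ⟨n, rfl⟩ := hα
    rw [abs_pos]; rintro rfl; simp at h0
  obtain ⟨α, hα, g1, g2⟩ := exists_mem_between s.dense (div_pos h0 hD')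
  rw [lt_div_iff₀ hD'] at g2
  linarith [h3 α hα g1]

theorem alg_of_forall {M L : IntermediateField k Ω} (h : ∀ a ∈ L, IsAlgebraic M a)
    (hL : Algebra.IsAlgebraic L Ω) : Algebra.IsAlgebraic M Ω := by
  have h1 : L ≤ (algebraicClosure M Ω).restrictScalars k := fun a ha =>
    mem_algebraicClosure_iff.2 (h a ha)
  have : Algebra.IsAlgebraic (algebraicClosure M Ω) Ω := InitK.alg_mono L _ h1 hL
  exact Algebra.IsAlgebraic.trans M (algebraicClosure M Ω) Ω

end RM

theorem rOf {k Ω : Type*} [Field k] [NontriviallyNormedField Ω] [IsUltrametricDist Ω] [Algebra k Ω]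
    [IsAlgClosed Ω] [Ctx k Ω] {p : ℕ} [Fact p.Prime] [CharP k p] [CharP Ω p]
    (hrel : RelStmt k Ω p) (hlow : LowStmt k Ω) : RStmt k Ω p := by
  intro K s hK halg hM
  have hb' : HB k Ω p := hb
  have e0 := s.M_eq_sup k
  have hK1 : s.toStage.M k ≤ K := (e0 ▸ le_sup_left : s.toStage.M k ≤ s.M k).trans hM
  obtain ⟨L1, F2, y, N, h1, h2, h3, h4, h5, h6, h7, h8⟩ := hrel K (s.toStage.M k) s.z hK
    (s.toStage.M_fg k) hK1 (alg_of_le hM halg) (e0 ▸ halg) (fun a ha => by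
      obtain ⟨d, hd, h⟩ := s.full a ha
      refine ⟨d, hd, _, s.toStage.mon_mem_M k h, ?_⟩
      rw [s.norm_mon _ h, norm_eq_exp ha, ← Real.exp_nat_mul, mul_neg])
  obtain ⟨r, b, -, hbi, hbc, -⟩ := perron s.Λ s.fg ∅ (by simp)
  have hbm : ∀ i, b i ∈ s.Λ := fun i => hbc ▸ AddSubgroup.subset_closure ⟨i, rfl⟩
  have htr : Algebra.trdeg k L1 ≤ r + 1 := by
    refine (RM.trdeg_le_of_alg h3).trans ?_
    have e1 : s.toStage.M k = adjoin k (Set.range (Fin.cons s.y fun i => s.mon (b i) :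
        Fin (r + 1) → Ω)) := by
      rw [Fin.range_cons, Set.insert_eq, Set.union_comm, adjoin_union,
        ← Final.adjoin_mon s.toStage b hbc, ← adjoin_union]
      rfl
    rw [e1]
    exact_mod_cast RM.trdeg_adjoin_le (k := k) _
  obtain ⟨t, t1, t2⟩ := hlow L1 h1 r (fun i => s.mon (b i))
    (fun i => ⟨h2 (s.toStage.mon_mem_M k (hbm i)), s.mon_ne_zero (hbm i)⟩)
    (by simpa only [s.nu_mon (hbm _)] using hbi) htr (fun a ha => by
      obtain ⟨d, hd, h⟩ := s.full a ha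
      exact ⟨d, hd, _, h2 (s.toStage.mon_mem_M k h), s.mon_ne_zero h, s.nu_mon h⟩)
  obtain ⟨z', z1, z2, z3⟩ := InitK.exists_small' (k := k) (F := adjoin k {y})
    (mem_adjoin_simple_self k y)
  let s' : St Ω := ⟨t, z', z2, RM.dense_of_dense s t⟩
  have e2 : s'.M k = t.M k ⊔ adjoin k {z'} := s'.M_eq_sup k
  have ha2 : Algebra.IsAlgebraic F2 Ω := alg_of_le (hM.trans h5) halg
  have hy : y ∈ s'.M k := z3 _ (s'.z_mem_M k)
  have ht : t.M k ≤ s'.M k := e2 ▸ le_sup_left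
  have g1 : L1 ⊔ adjoin k {y} ≤ hens (s'.M k) :=
    sup_le (t2.trans (hens_mono ht)) (adjoin_simple_le_iff.2 (le_hens _ hy))
  have ha : Algebra.IsAlgebraic (s'.M k) Ω := by
    refine RM.alg_of_forall (fun a ha => (sepOver_hens _ a ha).isIntegral.isAlgebraic)
      (alg_of_le g1 (RM.alg_of_forall (fun a ha => ?_) ha2))
    exact (sepOver_hens _ a (h8 ha)).isIntegral.isAlgebraic
  refine ⟨F2, N, s', h4, h5, h6, ha, ?_,
    h8.trans (hb'.hens_le _ (alg_hens ha) (hens_isHens _ ha) _ g1)⟩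
  rw [e2]
  refine sup_le (t1.trans (hb'.hens_le _ (alg_hens ha2) (hens_isHens _ ha2) _
    (le_sup_left.trans h7))) (adjoin_simple_le_iff.2 (h7 ?_))
  exact (le_sup_right : adjoin k {y} ≤ _) z1

open NNReal

universe u v

/-- Transfer of the theorem from the image of `F` in `Ω` back to `F`. -/
theorem transfer2 {k : Type*} {F Ω : Type v} [Field k] [Field F] [Algebra k F]
    [NontriviallyNormedField Ω] [Algebra k Ω] [Algebra F Ω] [IsScalarTower k F Ω]
    [Algebra.IsAlgebraic F Ω] (core : Core2Stmt k Ω) (hfg : (⊤ : IntermediateField k F).FG)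
    (v : Valuation F ℝ≥0) (hv : ∀ a, ‖algebraMap F Ω a‖ = v a)
    (r : ℕ) (x : Fin r → F) (hx : ∀ i, x i ≠ 0)
    (hind : ∀ m : Fin r → ℤ, ∏ i, v (x i) ^ m i = 1 → m = 0)
    (hr : 2 ≤ r) (htr : Algebra.trdeg k F ≤ r + 2) (Z : Finset F) (hZ : ∀ z ∈ Z, v z ≤ 1) :
    ∃ A : Subalgebra k F, A.FG ∧ (∀ a ∈ A, v a ≤ 1) ∧ (∀ z ∈ Z, z ∈ A) ∧
      IsFractionRing A F ∧ Algebra.Smooth k A := by
  classical
  let φ : F →ₐ[k] Ω := IsScalarTower.toAlgHom k F Ω
  have hφ : ∀ a, φ a = algebraMap F Ω a := fun _ => rfl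
  have hinj : Function.Injective φ := φ.injective
  let e : F ≃ₐ[k] φ.fieldRange := AlgEquiv.ofInjectiveField φ
  have hFG : φ.fieldRange.FG := by
    obtain ⟨t, ht⟩ := hfg
    refine ⟨t.image φ, ?_⟩
    rw [Finset.coe_image, ← IntermediateField.adjoin_map, ht, AlgHom.fieldRange_eq_map]
  have halg : Algebra.IsAlgebraic φ.fieldRange Ω := by
    refine ⟨fun a => ?_⟩
    have ha := Algebra.IsAlgebraic.isAlgebraic (R := F) a
    exact ha.ringHom_of_comp_eq (e : F →+* φ.fieldRange) (RingHom.id Ω) e.injective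
      (RingHom.ext fun _ => rfl)
  have hpos : ∀ i, (0 : ℝ) < v (x i) := fun i => by
    rw [← hv]; exact norm_pos_iff.2 (by simpa using hx i)
  have hli : LinearIndependent ℤ (fun i => nu (φ (x i))) := by
    rw [Fintype.linearIndependent_iff]
    intro m hm i
    have h1 : Real.log (∏ i, (v (x i) : ℝ) ^ m i) = 0 := by
      rw [Real.log_prod (fun i _ => (zpow_pos (hpos i) _).ne')]
      simp only [nu, hφ, hv, zsmul_eq_mul, mul_neg, Finset.sum_neg_distrib, neg_eq_zero] at hm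
      simpa only [Real.log_zpow] using hm
    have h2 : ∏ i, (v (x i) : ℝ) ^ m i = 1 :=
      Real.eq_one_of_pos_of_log_eq_zero (Finset.prod_pos fun i _ => zpow_pos (hpos i) _) h1
    have h3 : ∏ i, v (x i) ^ m i = 1 := by
      apply NNReal.coe_injective
      simpa using h2
    exact congrFun (hind m h3) i
  obtain ⟨A, hA, hAF, hA1, hAZ, hAq, hAs⟩ := core φ.fieldRange hFG halg r (fun i => φ (x i))
    (fun i => ⟨⟨x i, rfl⟩, by simpa using hx i⟩) hli hr (by rw [← e.trdeg_eq]; exact htr)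
    (Z.image φ) (by
      intro z hz
      obtain ⟨w, hw, rfl⟩ := Finset.mem_image.1 hz
      refine ⟨⟨w, rfl⟩, ?_⟩
      rw [hφ, hv]; exact_mod_cast hZ w hw)
  have hmap : (A.comap φ).map φ = A := by
    rw [Subalgebra.map_comap_eq]
    exact inf_eq_left.2 hAF
  refine ⟨A.comap φ, Subalgebra.fg_of_fg_map _ φ hinj (by rwa [hmap]), fun a ha => ?_,
    fun z hz => hAZ _ (Finset.mem_image_of_mem _ hz), ?_, ?_⟩
  · have : ‖φ a‖ ≤ 1 := hA1 _ ha
    rw [hφ, hv] at this
    exact_mod_cast this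
  · refine IsFractionRing.of_field _ _ fun z => ?_
    obtain ⟨a, ha, b, hb, -, h⟩ := hAq (φ z) ⟨z, rfl⟩
    obtain ⟨a', rfl⟩ := hAF ha
    obtain ⟨b', rfl⟩ := hAF hb
    refine ⟨⟨a', ha⟩, ⟨b', hb⟩, hinj ?_⟩
    rw [map_div₀]
    exact h
  · exact Algebra.Smooth.of_equiv
      (((A.comap φ).equivMapOfInjective φ hinj).trans (Subalgebra.equivOfEq _ _ hmap)).symm

/-- Reduction of the theorem to the normed algebraically closed setting. -/
theorem glue2 (k : Type u) (F : Type v) [Field k] [IsAlgClosed k] [Field F] [Algebra k F]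
    (p : ℕ) [Fact p.Prime] [CharP k p] : Glue2Stmt k F p := by
  intro core hfg v h1 h2 r x hx hind hr htr Z hZ
  by_cases hn : ∃ a, 1 < v a
  · let f : AbsoluteValue F ℝ :=
      { toFun := fun a => v a
        map_mul' := fun a b => by simp
        nonneg' := fun a => (v a).2
        eq_zero' := fun a => by simp
        add_le' := fun a b => by
          have := v.map_add a b
          have h : v (a + b) ≤ v a + v b :=
            this.trans (max_le (le_add_of_nonneg_right bot_le) (le_add_of_nonneg_left bot_le))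
          exact_mod_cast h }
    have hf : IsNonarchimedean f := fun a b => by
      change ((v (a + b) : ℝ≥0) : ℝ) ≤ max (v a : ℝ) (v b : ℝ)
      exact_mod_cast v.map_add a b
    obtain ⟨a0, ha0⟩ := hn
    have ha1 : 1 < f a0 := by
      change (1 : ℝ) < ((v a0 : ℝ≥0) : ℝ)
      exact_mod_cast ha0
    obtain ⟨g, hg, hgf⟩ := Glue.exists_abs F f hf ⟨a0, ha1⟩
    let : NontriviallyNormedField (AlgebraicClosure F) :=
      { g.toNormedField with
        non_trivial := ⟨algebraMap F _ a0, by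
          change 1 < g _
          rw [hgf]; exact ha1⟩ }
    have hv : ∀ a, ‖algebraMap F (AlgebraicClosure F) a‖ = v a := hgf
    have : IsUltrametricDist (AlgebraicClosure F) :=
      IsUltrametricDist.isUltrametricDist_of_forall_norm_add_le_max_norm hg
    have hk : ∀ c : k, c ≠ 0 → ‖algebraMap k (AlgebraicClosure F) c‖ = 1 := fun c hc => by
      rw [IsScalarTower.algebraMap_apply k F, hv, h1 c hc]; rfl
    have : Ctx k (AlgebraicClosure F) :=
      ⟨hk, Glue.res_of_algebraic (F := F) hk fun b hb => by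
        rw [hv] at hb
        obtain ⟨c, hc⟩ := h2 b (by exact_mod_cast hb)
        refine ⟨c, ?_⟩
        rw [IsScalarTower.algebraMap_apply k F, ← map_sub, hv]
        exact_mod_cast hc⟩
    have : CharP (AlgebraicClosure F) p :=
      charP_of_injective_algebraMap (algebraMap k (AlgebraicClosure F)).injective p
    exact transfer2 (core (AlgebraicClosure F)) hfg v hv r x hx hind hr htr Z hZ
  · push Not at hn
    have hall : ∀ a : F, a ∈ (⊥ : Subalgebra k F) := by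
      intro a
      obtain ⟨c, hc⟩ := h2 a (hn a)
      have h0 : a - algebraMap k F c = 0 := by
        by_contra h0
        have h3 := hn (a - algebraMap k F c)⁻¹
        rw [map_inv₀, inv_le_one₀ (pos_iff_ne_zero.2 ((Valuation.ne_zero_iff v).2 h0))] at h3
        exact absurd hc (not_lt.2 h3)
      rw [sub_eq_zero.1 h0]
      exact Subalgebra.algebraMap_mem _ c
    refine ⟨⊥, Subalgebra.fg_bot, fun a _ => hn a, fun z _ => hall z, ?_,
      Algebra.Smooth.of_equiv (Algebra.botEquiv k F).symm⟩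
    exact IsFractionRing.of_field _ _ fun z => ⟨⟨z, hall z⟩, 1, by simp⟩

end Pool.Agent.MP_19ffc6_ag.LU2

end MrgPart2

-- ======== part 3: formerly Pool.Agent.MP_19ffc6_ag.LU2.Step
section MrgPart3

/-! LU2, module STEP: the full transition on the level of polynomials. -/

namespace Pool.Agent.MP_19ffc6_ag.LU2

open Polynomial Pool.Agent.MP_19ffc6_ag.LU

namespace Step

variable {k : Type*} [Field k] {p : ℕ}

/-! ### The choice of the best shift -/

section best

variable {s ε' : ℕ} {χ : ℕ → Prop} {E : k[X][X]} {adm : Prop}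

/-- All essential terms below the top height lie above the line of slope `b'`. -/
def Bd (p s ε' : ℕ) (χ : ℕ → Prop) (E : k[X][X]) (b' : ℝ) : Prop :=
  ∀ i < s, ∀ j, Ess p χ E i j → ε' + ((s : ℝ) - i) * b' ≤ j

theorem gap_pos {i : ℕ} (hi : i < s) : (0 : ℝ) < (s : ℝ) - i := by
  have : (i : ℝ) < s := by exact_mod_cast hi
  linarith

/-- A bounded family of lines has a best line, and it touches an essential term. -/
theorem exists_touch {g J : ℕ} (hg : 1 ≤ g) (hB : ∀ b', Bd p s ε' χ E b' → ε' + g * b' ≤ J) :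
    ∃ b' : ℝ, Bd p s ε' χ E b' ∧ (∃ N : ℤ, b' * s.factorial = N) ∧
      ∃ i < s, ∃ j, Ess p χ E i j ∧ ε' + ((s : ℝ) - i) * b' = j := by
  classical
  set S : Finset (ℕ × ℕ) := ((Finset.range s).biUnion fun i =>
    (E.coeff i).support.image fun j => (i, j)).filter fun x => Ess p χ E x.1 x.2 with hS
  have hmem : ∀ i j, (i, j) ∈ S ↔ i < s ∧ Ess p χ E i j := by
    intro i j
    simp only [hS, Finset.mem_filter, Finset.mem_biUnion, Finset.mem_range, Finset.mem_image,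
      mem_support_iff, Prod.mk.injEq]
    constructor
    · rintro ⟨⟨i', hi', j', _, rfl, rfl⟩, h⟩
      exact ⟨hi', h⟩
    · rintro ⟨h1, h2⟩
      exact ⟨⟨i, h1, j, h2.1, rfl, rfl⟩, h2⟩
  have hne : S.Nonempty := by
    by_contra h
    rw [Finset.not_nonempty_iff_eq_empty] at h
    have h1 := hB (J + 1) fun i hi j hj => by
      have := (hmem i j).2 ⟨hi, hj⟩
      rw [h] at this
      exact absurd this (Finset.notMem_empty _)
    have h2 : (1 : ℝ) ≤ g := by exact_mod_cast hg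
    have h3 : (0 : ℝ) ≤ ε' := Nat.cast_nonneg _
    have h4 : (0 : ℝ) ≤ J := Nat.cast_nonneg _
    nlinarith
  obtain ⟨⟨i, j⟩, hx, hmin⟩ :=
    S.exists_min_image (fun x => ((x.2 : ℝ) - ε') / ((s : ℝ) - x.1)) hne
  obtain ⟨hi, he⟩ := (hmem i j).1 hx
  refine ⟨((j : ℝ) - ε') / ((s : ℝ) - i), fun i' hi' j' he' => ?_, ?_, i, hi, j, he, ?_⟩
  · have h1 := hmin (i', j') ((hmem i' j').2 ⟨hi', he'⟩)
    simp only at h1
    rw [le_div_iff₀ (gap_pos hi')] at h1
    linarith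
  · obtain ⟨m, hm⟩ := rat_of_div (s := s) (g := s - i) (by omega) (by omega) ((j : ℤ) - ε')
    refine ⟨m, ?_⟩
    rw [← hm, Nat.cast_sub hi.le]
    push_cast
    rfl
  · have := gap_pos hi
    field_simp
    ring

/-- The best admissible shift. -/
theorem exists_best {g J : ℕ} (hg : 1 ≤ g)
    (hB : ∀ (l : k[X]) (b' : ℝ), (l ≠ 0 → adm) → Bd p s ε' χ (taylor l E) b' → ε' + g * b' ≤ J) :
    ∃ (l : k[X]) (b' : ℝ), (l ≠ 0 → adm) ∧ Bd p s ε' χ (taylor l E) b' ∧
      (∃ N : ℤ, b' * s.factorial = N) ∧ ∀ l1 : k[X], (l1 ≠ 0 → adm) →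
        ∃ i < s, ∃ j, Ess p χ (taylor l1 E) i j ∧ (j : ℝ) ≤ ε' + ((s : ℝ) - i) * b' := by
  have hf : (0 : ℝ) < s.factorial := by exact_mod_cast s.factorial_pos
  have hg' : (1 : ℝ) ≤ g := by exact_mod_cast hg
  obtain ⟨N, ⟨l, b', hl, hb, hN⟩, hmax⟩ := Int.exists_greatest_of_bdd
    (P := fun N : ℤ => ∃ (l : k[X]) (b' : ℝ), (l ≠ 0 → adm) ∧ Bd p s ε' χ (taylor l E) b' ∧
      b' * s.factorial = N)
    ⟨J * s.factorial, by
      rintro N ⟨l, b', hl, hb, hN⟩
      have h1 := hB l b' hl hb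
      have h3 : (0 : ℝ) ≤ ε' := Nat.cast_nonneg _
      have h4 : (0 : ℝ) ≤ J := Nat.cast_nonneg _
      have h2 : b' ≤ J := by
        by_contra h
        push Not at h
        nlinarith
      have h5 : (N : ℝ) ≤ J * s.factorial := by
        rw [← hN]; exact mul_le_mul_of_nonneg_right h2 hf.le
      exact_mod_cast h5⟩
    (by
      obtain ⟨b', h1, ⟨N, hN⟩, -⟩ := exists_touch hg fun b' => hB 0 b' fun h => absurd rfl h
      exact ⟨N, 0, b', fun h => absurd rfl h, h1, hN⟩)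
  refine ⟨l, b', hl, hb, ⟨N, hN⟩, fun l1 hl1 => ?_⟩
  obtain ⟨b1, h1, ⟨N1, hN1⟩, i, hi, j, he, hj⟩ := exists_touch hg fun b' => hB l1 b' hl1
  refine ⟨i, hi, j, he, ?_⟩
  have h2 : (N1 : ℝ) ≤ N := by exact_mod_cast hmax N1 ⟨l1, b1, hl1, h1, hN1⟩
  rw [← hN, ← hN1] at h2
  have h3 : b1 ≤ b' := le_of_mul_le_mul_right h2 hf
  rw [← hj]
  have := mul_le_mul_of_nonneg_left h3 (gap_pos hi).le
  linarith

theorem taylor_top (hE : E.natDegree ≤ s) (l : k[X]) : (taylor l E).coeff s = E.coeff s := by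
  rcases hE.lt_or_eq with h | h
  · rw [coeff_eq_zero_of_natDegree_lt h, coeff_eq_zero_of_natDegree_lt]
    rwa [natDegree_taylor]
  · rw [← h]
    exact coeff_taylor_natDegree l E

/-- A further shift of large order keeps the bound. -/
theorem Bd.shift (hl : LucStmt k p) (hE : E.natDegree ≤ s) (h1 : ∀ i, χ i → p ∣ i)
    (h2 : adm → ∀ i i', p ∣ i' → χ i → χ i') (h3 : ε' ≤ 1) (h4 : ε' = 1 → χ s) {b' : ℝ}
    (hb : Bd p s ε' χ E b') {l : k[X]} (ha : l ≠ 0 → adm) (hm : ∀ m, l.coeff m ≠ 0 → b' ≤ m) :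
    Bd p s ε' χ (taylor l E) b' := by
  by_cases h0 : l = 0
  · rw [h0, taylor_zero]; exact hb
  intro i hi j hj
  refine hl.back E l χ s ε' b' hE h1 (h2 (ha h0)) hm (fun i hi j hj => ?_) i hi.le j hj
  rcases hi.lt_or_eq with hi | rfl
  · exact hb i hi j hj
  · rw [sub_self, zero_mul, add_zero]
    rcases Nat.le_one_iff_eq_zero_or_eq_one.1 h3 with h | h
    · rw [h]; simp
    · have : j ≠ 0 := fun hj0 => hj.2 ⟨h4 h, hj0 ▸ dvd_zero p⟩
      have : ε' ≤ j := by omega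
      exact_mod_cast this

/-- The best admissible shift, truncated. -/
theorem exists_best' (hl : LucStmt k p) (hE : E.natDegree ≤ s) (h1 : ∀ i, χ i → p ∣ i)
    (h2 : adm → ∀ i i', p ∣ i' → χ i → χ i') (h3 : ε' ≤ 1) (h4 : ε' = 1 → χ s)
    {g J : ℕ} (hg : 1 ≤ g)
    (hB : ∀ (l : k[X]) (b' : ℝ), (l ≠ 0 → adm) → Bd p s ε' χ (taylor l E) b' → ε' + g * b' ≤ J) :
    ∃ (l : k[X]) (b' : ℝ), (l ≠ 0 → adm) ∧ Bd p s ε' χ (taylor l E) b' ∧
      (∀ m, l.coeff m ≠ 0 → (m : ℝ) ≤ b') ∧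
      (∃ N : ℤ, b' * s.factorial = N) ∧ ∀ l1 : k[X], (l1 ≠ 0 → adm) →
        ∃ i < s, ∃ j, Ess p χ (taylor l1 E) i j ∧ (j : ℝ) ≤ ε' + ((s : ℝ) - i) * b' := by
  classical
  obtain ⟨l, b', ha, hb, hN, hmax⟩ := exists_best hg hB
  set l2 : k[X] := ∑ m ∈ l.support.filter fun m : ℕ => b' < m, monomial m (l.coeff m) with hl2
  have hc : ∀ m : ℕ, l2.coeff m = if b' < m then l.coeff m else 0 := by
    intro m
    rw [hl2, finsetSum_coeff]
    simp only [coeff_monomial]
    rw [Finset.sum_ite_eq']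
    simp only [Finset.mem_filter, mem_support_iff]
    by_cases h : b' < m
    · by_cases h' : l.coeff m = 0 <;> simp [h, h']
    · simp [h]
  have h0 : l = 0 → l2 = 0 := fun h => by
    ext m
    rw [hc, h]; simp
  refine ⟨-l2 + l, b', fun h => ha fun h' => h ?_, ?_, fun m hm => ?_, hN, hmax⟩
  · rw [h0 h', h']; simp
  · rw [← taylor_taylor]
    refine Bd.shift hl (by rwa [natDegree_taylor]) h1 h2 h3 h4 hb
      (fun h => ha fun h' => h (by rw [h0 h', neg_zero])) fun m hm => ?_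
    rw [coeff_neg, hc] at hm
    by_contra h
    exact hm (by rw [if_neg fun h' => h h'.le, neg_zero])
  · rw [coeff_add, coeff_neg, hc] at hm
    by_contra h
    exact hm (by rw [if_pos (not_le.1 h), neg_add_cancel])

theorem pow_coeff_le {l : k[X]} {b' : ℝ} (hm : ∀ m, l.coeff m ≠ 0 → (m : ℝ) ≤ b') (hb : 0 ≤ b')
    {n j : ℕ} (h : (l ^ n).coeff j ≠ 0) : (j : ℝ) ≤ n * b' := by
  have h1 : j ≤ n * l.natDegree := (le_natDegree_of_ne_zero h).trans natDegree_pow_le
  have h2 : (l.natDegree : ℝ) ≤ b' := by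
    by_cases h0 : l = 0
    · rw [h0]; simpa using hb
    · exact hm _ (leadingCoeff_ne_zero.2 h0)
  have h3 : (j : ℝ) ≤ n * l.natDegree := by exact_mod_cast h1
  exact h3.trans (mul_le_mul_of_nonneg_left h2 (Nat.cast_nonneg _))

end best

/-! ### The new polygon -/

/-- The parameters after the transition. -/
def nP (P : Par) (η : ℝ) (ε' : ℕ) (b' : ℝ) : Par :=
  ⟨P.β + P.ε * η, ε', P.s, P.δ + η * P.b, b'⟩

/-- The cleaned classes after the transition. -/
def chi (fl : Prop) (p : ℕ) (Λ' : AddSubgroup ℝ) (P : Par) (η : ℝ) (i : ℕ) : Prop :=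
  fl ∧ PMul p Λ' (P.β + P.ε * η + ((P.s : ℝ) - i) * (P.δ + η * P.b)) ∧ p ∣ i

/-- The polynomial after the transition and the shift by `l`. -/
noncomputable def nF (fl : Prop) (p : ℕ) (Λ' : AddSubgroup ℝ) (P : Par) (η : ℝ) (Ψ : Pol2 k)
    (l : k[X]) : Pol2 k :=
  cln fl p Λ' (shp (P.δ + η * P.b) l Ψ)

variable {fl : Prop} {Λ Λ' : AddSubgroup ℝ} {Φ Ψ : Pol2 k} {P : Par} {η b' : ℝ} {d n0 ε' : ℕ}
  {σ : ℝ → ℤ} {κ : k} {l : k[X]} {E : k[X][X]}

theorem origin {x' : Pt} (h : x' ∈ (nF fl p Λ' P η (stp η d σ n0 κ Φ) l).support) :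
    ∃ x ∈ Φ.support, ∃ n j j' : ℕ, (l ^ n).coeff j ≠ 0 ∧ j' ≤ (ex η d σ x + n0).toNat ∧
      x'.1 = x.1 + x.2.1 * η + n * (P.δ + η * P.b) ∧ x'.2.1 = j' + j ∧ x'.2.2 + n = x.2.2 := by
  obtain ⟨x1, h1, n, j, h2, -, h3, h4, h5⟩ := shp_support (mem_cln_support.1 h).1
  obtain ⟨x, hx, h6, h7, h8⟩ := stp_support h1
  exact ⟨x, hx, n, j, x1.2.1, h2, h8, by rw [h3, h6], h4, by rw [h5, h7]⟩

theorem dfc_origin {x x' : Pt} {n : ℕ} (h1 : x'.1 = x.1 + x.2.1 * η + n * (P.δ + η * P.b))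
    (h2 : x'.2.2 + n = x.2.2) : (nP P η ε' b').dfc x' = P.dfc x - η * P.cod x := by
  have h3 : (x.2.2 : ℝ) = x'.2.2 + n := by exact_mod_cast h2.symm
  simp only [Par.dfc, Par.cod, Par.gap, nP, h1, h3]
  ring

theorem level_of_dfc {x : Pt} (h : (nP P η ε' b').dfc x = 0) :
    x.1 = P.β + P.ε * η + ((P.s : ℝ) - x.2.2) * (P.δ + η * P.b) := by
  simp only [Par.dfc, Par.gap, nP] at h
  linarith

/-- The point of height `i` and exponent `j` on the new vertical edge. -/
def pt (P : Par) (η : ℝ) (i j : ℕ) : Pt :=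
  (P.β + P.ε * η + ((P.s : ℝ) - i) * (P.δ + η * P.b), j, i)

theorem dfc_pt (i j : ℕ) : (nP P η ε' b').dfc (pt P η i j) = 0 := by
  simp only [Par.dfc, Par.gap, nP, pt]
  ring

theorem cod_nP (x : Pt) : (nP P η ε' b').cod x = ε' + ((P.s : ℝ) - x.2.2) * b' - x.2.1 := rfl

theorem mem_iff (hE : diag Ψ (P.δ + η * P.b) (P.β + P.ε * η + P.s * (P.δ + η * P.b)) = E)
    {x : Pt} (h : (nP P η ε' b').dfc x = 0) :
    x ∈ (nF fl p Λ' P η Ψ l).support ↔ Ess p (chi fl p Λ' P η) (taylor l E) x.2.2 x.2.1 := by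
  have h1 := level_of_dfc h
  have h2 : x.1 + x.2.2 * (P.δ + η * P.b) = P.β + P.ε * η + P.s * (P.δ + η * P.b) := by
    rw [h1]; ring
  rw [nF, mem_cln_support, Finsupp.mem_support_iff, shp_apply, h2, hE, Ess, PW2, chi, ← h1]
  tauto

theorem pt_mem (hE : diag Ψ (P.δ + η * P.b) (P.β + P.ε * η + P.s * (P.δ + η * P.b)) = E)
    {i j : ℕ} (h : Ess p (chi fl p Λ' P η) (taylor l E) i j) :
    pt P η i j ∈ (nF fl p Λ' P η Ψ l).support :=
  (mem_iff (ε' := 0) (b' := 0) hE (dfc_pt i j)).2 h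

theorem top_eq : (nP P η ε' b').top = pt P η P.s ε' := by
  simp [Par.top, nP, pt]

theorem δ_pos (hP : PS fl p Λ Φ P) (hb : 1 ≤ P.b) (hη : 0 < η) : 0 < P.δ + η * P.b :=
  add_pos_of_nonneg_of_pos hP.δ0 (mul_pos hη (by linarith))

/-- The terms at heights at least `s`. -/
theorem high (hP : PS fl p Λ Φ P) (hX : Exact Φ P) (hb : 1 ≤ P.b) (hη : 0 < η) {x' : Pt}
    (h : x' ∈ (nF fl p Λ' P η (stp η d σ n0 κ Φ) l).support) (hs : P.s ≤ x'.2.2) :
    (P.ε = 0 ∧ P.β + P.ε * η < x'.1) ∨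
      ∃ j ≤ (ex η d σ P.top + n0).toNat, x' = pt P η P.s j := by
  obtain ⟨x, hx, n, j, j', h1, h2, h3, h4, h5⟩ := origin h
  by_cases ht : x = P.top
  · right
    subst ht
    have hn : n = 0 := by
      have : P.top.2.2 = P.s := rfl
      omega
    subst hn
    have hj : j = 0 := by
      by_contra hj
      exact h1 (by rw [pow_zero, coeff_one, if_neg hj])
    refine ⟨j', h2, Prod.ext ?_ (Prod.ext ?_ ?_)⟩
    · rw [h3]; simp [Par.top, pt]
    · rw [h4, hj]; rfl
    · exact h5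
  · left
    have he : P.ε = 0 := by
      by_contra he
      exact ht (hX (by have := hP.eps; omega) x hx (by omega))
    refine ⟨he, ?_⟩
    obtain ⟨h6, h7⟩ := hP.junk x hx (by omega) ht
    have h8 : 0 ≤ (n : ℝ) * (P.δ + η * P.b) :=
      mul_nonneg (Nat.cast_nonneg _) (δ_pos hP hb hη).le
    have h9 : 0 ≤ (x.2.1 : ℝ) * η := mul_nonneg (Nat.cast_nonneg _) hη.le
    rw [h3, he, Nat.cast_zero, zero_mul, add_zero]
    rcases h7 with h7 | h7
    · linarith
    · have : (0 : ℝ) < x.2.1 := by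
        have : 0 < x.2.1 := by omega
        exact_mod_cast this
      have := mul_pos this hη
      linarith

/-- The new state. -/
theorem ps_new (hP : PS fl p Λ Φ P) (hX : Exact Φ P) (hb : 1 ≤ P.b) (hS : SD Λ Λ' η d σ)
    (hA : Above Φ P η)
    (hE : diag (stp η d σ n0 κ Φ) (P.δ + η * P.b) (P.β + P.ε * η + P.s * (P.δ + η * P.b)) = E)
    (hl : l ≠ 0 → P.δ + η * P.b ∈ Λ') (he : ε' ≤ 1) (hχ : ε' = 1 → chi fl p Λ' P η P.s)
    (ht : Ess p (chi fl p Λ' P η) (taylor l E) P.s ε')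
    (hB : Bd p P.s ε' (chi fl p Λ' P η) (taylor l E) b') (hN : ∃ N : ℤ, b' * P.s.factorial = N) :
    PS fl p Λ' (nF fl p Λ' P η (stp η d σ n0 κ Φ) l) (nP P η ε' b') where
  supp := ((hP.supp.stp hS).shp hl).cln
  ess x hx := (mem_cln_support.1 hx).2
  top := by rw [top_eq]; exact pt_mem hE ht
  eps := he
  two := hP.two
  β0 := add_nonneg hP.β0 (mul_nonneg (Nat.cast_nonneg _) hS.pos.le)
  δ0 := (δ_pos hP hb hS.pos).le
  pos := Or.inl (δ_pos hP hb hS.pos)
  typ h := by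
    obtain ⟨h1, h2, h3⟩ := hχ h
    rw [sub_self, zero_mul, add_zero] at h2
    exact ⟨h1, h3, h2⟩
  low x' hx' hs := by
    obtain ⟨x, hx, n, j, j', -, -, h3, -, h5⟩ := origin hx'
    have h1 : 0 ≤ (nP P η ε' b').dfc x' := by
      rw [dfc_origin h3 h5]; exact sub_nonneg.2 (hA x hx)
    refine h1.lt_or_eq.imp id fun h => ⟨h.symm, ?_⟩
    have := hB _ hs _ ((mem_iff hE h.symm).1 hx')
    rw [cod_nP]
    linarith
  junk x' hx' hs hne := by
    rcases high hP hX hb hS.pos hx' hs with ⟨-, h⟩ | ⟨j, -, rfl⟩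
    · exact ⟨h.le, Or.inl h⟩
    · refine ⟨by simp [nP, pt], Or.inr ?_⟩
      have h1 : j ≠ ε' := fun h => hne (by rw [top_eq, h])
      have h2 := (mem_iff (ε' := ε') (b' := b') hE (dfc_pt P.s j)).1 hx'
      have h3 : ε' = 1 → j ≠ 0 := fun h h0 => h2.2 ⟨hχ h, by rw [h0]; exact dvd_zero p⟩
      change ε' < j
      omega
  rat := hN

/-- An essential term on the vertex line after a further shift witnesses unsolvability. -/
theorem witness [Fact p.Prime] [CharP k p]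
    (hE : diag Ψ (P.δ + η * P.b) (P.β + P.ε * η + P.s * (P.δ + η * P.b)) = E)
    (hP' : PS fl p Λ' (nF fl p Λ' P η Ψ l) (nP P η ε' b')) (c : k)
    (hc : c ≠ 0 → P.δ + η * P.b ∈ Λ' ∧ ∃ m : ℕ, b' = m) :
    ∃ l1 : k[X], (l1 ≠ 0 → P.δ + η * P.b ∈ Λ') ∧ (∀ m, l1.coeff m ≠ 0 → b' ≤ m) ∧
      ∀ i < P.s, ∀ j, Ess p (chi fl p Λ' P η) (taylor (l1 + l) E) i j →
        ε' + ((P.s : ℝ) - i) * b' = j →
        (taylor c (vtx (nF fl p Λ' P η Ψ l) (nP P η ε' b'))).coeff i ≠ 0 ∧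
          ¬ (VCl fl p Λ' (nP P η ε' b') ∧ p ∣ i) := by
  have key : ∀ l2 : k[X], ∀ i < P.s, ∀ j, Ess p (chi fl p Λ' P η) (taylor l2 E) i j →
      ε' + ((P.s : ℝ) - i) * b' = j →
      (vtx (nF fl p Λ' P η Ψ l2) (nP P η ε' b')).coeff i ≠ 0 ∧
        ¬ (VCl fl p Λ' (nP P η ε' b') ∧ p ∣ i) := by
    intro l2 i hi j h1 h2
    have h3 := pt_mem hE h1
    have h4 : (nP P η ε' b').cod (pt P η i j) = 0 := by
      rw [cod_nP]; exact sub_eq_zero.2 h2
    refine ⟨?_, fun h => (mem_cln_support.1 h3).2 (pw2_of_vcl h.1 h.2 hi.le (dfc_pt i j) h4)⟩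
    have := vtx_coeff_of_vtx (P := nP P η ε' b') (nF fl p Λ' P η Ψ l2) (x := pt P η i j) hi.le
      (dfc_pt i j) h4
    exact this ▸ Finsupp.mem_support_iff.1 h3
  by_cases h0 : c = 0
  · refine ⟨0, fun h => absurd rfl h, fun m hm => absurd (coeff_zero m) hm, fun i hi j h1 h2 => ?_⟩
    rw [zero_add] at h1
    rw [h0, taylor_zero]
    exact key l i hi j h1 h2
  obtain ⟨ha, m, hm⟩ := hc h0
  refine ⟨monomial m c, fun _ => ha, fun m' hm' => ?_, fun i hi j h1 h2 => ?_⟩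
  · rw [coeff_monomial] at hm'
    by_cases h : m = m'
    · rw [hm, h]
    · exact absurd (if_neg h) hm'
  obtain ⟨h3, h4⟩ := key _ i hi j h1 h2
  refine ⟨?_, h4⟩
  have h5 := vtx_cln_shp (P := nP P η ε' b') (Λ := Λ') (fl := fl) ha hm c 0 hP'.no_high h4
  have h6 : cln fl p Λ' (shp (nP P η ε' b').δ (monomial m c) (nF fl p Λ' P η Ψ l)) =
      nF fl p Λ' P η Ψ (monomial m c + l) := by
    rw [nF, nF, ← shp_shp]
    exact cln_shp_cln (fun _ => ha) _
  rw [h6, zero_add, taylor_zero] at h5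
  exact h5 ▸ h3

theorem coeff_one_top {n : ℕ} {t : k} [CharP k p] (ht : t ≠ 0) (hκ : κ ≠ 0) (hn : ¬ p ∣ n) :
    (taylor κ (monomial n t)).coeff 1 ≠ 0 := by
  rw [taylor_coeff_one, derivative_monomial, eval_monomial]
  exact mul_ne_zero (mul_ne_zero ht fun h => hn ((CharP.cast_eq_zero_iff k p n).1 h))
    (pow_ne_zero _ hκ)

/-- The new top is essential. -/
theorem top_ess [hp : Fact p.Prime] [CharP k p] {s ε n : ℕ} {b : ℝ} {adm : Prop} {χ : ℕ → Prop}
    {t : k} {G : ℕ → k[X]} {jj : ℕ → ℕ → ℕ} (h : FD p s ε ε' d n b adm χ t κ G jj) (l : k[X]) :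
    Ess p χ (taylor l (facePol s n t κ G)) s ε' := by
  rw [Ess, taylor_top Bound.face_deg, Bound.face_top]
  rcases Nat.le_one_iff_eq_zero_or_eq_one.1 h.eps' with h0 | h0
  · refine ⟨h0 ▸ Bound.top_coeff_zero h.t_ne h.κ_ne, fun h1 => ?_⟩
    have := h.chi_top.1.2 h1.1
    omega
  · subst h0
    exact ⟨coeff_one_top h.t_ne h.κ_ne (h.chi_top.2 (h.chi_top.1.1 rfl)),
      fun h1 => hp.out.not_dvd_one h1.2⟩

/-- A vertex term lies on the face. -/
theorem face_of_uns {g : ℕ} (h : Uns fl p Λ Φ P g) (η : ℝ) :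
    ∃ x, Face Φ P η x ∧ P.s ≤ x.2.2 + g := by
  obtain ⟨x, hx, h1, h2, h3, h4⟩ := h.exists_vtx
  exact ⟨x, ⟨hx, h1, by rw [h3, h4, mul_zero]⟩, h2⟩

/-- Descent of the terms when the lattice does not change. -/
theorem dsc_new (hS : SD Λ Λ' η 1 σ) (hb : 1 ≤ P.b) (hm : ∀ m, l.coeff m ≠ 0 → (m : ℝ) ≤ P.b) :
    Dsc Φ P (nF fl p Λ' P η (stp η 1 σ 0 κ Φ) l) (nP P η P.ε P.b) η η := by
  intro x' hx'
  obtain ⟨x, hx, n, j, j', h1, h2, h3, h4, h5⟩ := origin hx'
  refine ⟨x, hx, ?_, by rw [dfc_origin h3 h5]; ring⟩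
  have h6 := pow_coeff_le hm (by linarith) h1
  rw [hS.ex_one] at h2
  have h7 : (j' : ℝ) ≤ x.2.1 := by
    have : j' ≤ x.2.1 := by simpa using h2
    exact_mod_cast this
  have h8 : (x.2.2 : ℝ) = x'.2.2 + n := by exact_mod_cast h5.symm
  have h9 : (x'.2.1 : ℝ) = j' + j := by exact_mod_cast h4
  rw [cod_nP, Par.cod, Par.gap, h8, h9]
  linarith

end Step

open Step in
theorem step2 {k : Type*} [Field k] {p : ℕ} [hp : Fact p.Prime] [CharP k p] (hl : LucStmt k p)
    (hb : BoundStmt k p) (ha : ArithStmt p) (hf : FaceStmt k p) : StepStmt k p := by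
  intro fl Λ Λ' Φ P η W d n0 σ κ hP hX hb1 hU hS hA hPr hκ hn0 hd0 hex hW
  obtain ⟨ε', n, jj, hF, hE, hF1, hF2⟩ := hf fl Λ Λ' Φ P η d n0 σ κ hP hX hb1 hU hS hA hPr hκ hn0
    hd0 hex
  set G : ℕ → k[X] := fun i =>
    fib η d σ n0 Φ (P.β + P.ε * η + ((P.s : ℝ) - i) * (P.δ + η * P.b)) i with hG
  change FD p P.s P.ε ε' d n P.b (P.δ + η * P.b ∈ Λ') (chi fl p Λ' P η) (Φ P.top) κ G jj at hF
  change ∀ i < P.s, ∀ e, (G i).coeff e ≠ 0 → ∃ x, Face Φ P η x ∧ x.2.2 = i ∧ x.2.1 = jj i e at hF1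
  change ∀ x, Face Φ P η x → G x.2.2 ≠ 0 at hF2
  clear_value G
  have h2 := hP.two
  have htop := top_ess hF
  rcases hb _ _ _ _ _ _ _ _ _ _ _ _ hF with ⟨hps, hbe, hadm, hχ, hG0, c, e, hc, hGe⟩ |
    ⟨g, J, hg1, hgs, hB, hUU, hM, hXX, hSS, hDL, hLD⟩
  · -- the exceptional alternative
    have he0 : ε' = 0 := by
      by_contra h
      exact hps (hF.chi_p _ (hF.chi_top.1.1 (by have := hF.eps'; omega)))
    subst he0
    have hlow : ∀ i < P.s, ∀ j, Ess p (chi fl p Λ' P η)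
        (taylor 0 (facePol P.s n (Φ P.top) κ G)) i j → i + 1 = P.s := by
      intro i hi j hj
      by_contra h
      have h1 := hj.1
      rw [taylor_zero, Bound.face_low hi, hG0 i (by omega)] at h1
      simp at h1
    have hcast : ((P.s - 1 : ℕ) : ℝ) = P.s - 1 := by
      rw [Nat.cast_sub (by omega), Nat.cast_one]
    have hP' := ps_new (b' := 1) hP hX hb1 hS hA hE (l := 0) (fun h => absurd rfl h) hF.eps'
      hF.chi_top.1.1 (htop 0) (fun i hi j hj => by
        have h1 := hlow i hi j hj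
        have h3 : i = P.s - 1 := by omega
        have h4 : j ≠ 0 := fun h => hj.2 ⟨h3 ▸ hχ, h ▸ dvd_zero p⟩
        have h5 : (1 : ℝ) ≤ j := by exact_mod_cast Nat.one_le_iff_ne_zero.2 h4
        rw [h3, hcast]
        push_cast
        linarith) ⟨P.s.factorial, by simp⟩
    refine ⟨0, nP P η 0 1, _, fun h => absurd rfl h, rfl, rfl, rfl, rfl, hP', Or.inl
      ⟨hχ.1, rfl, hχ.2.2, rfl, hadm, ?_, ⟨pt P η (P.s - 1) 1, pt_mem hE ⟨?_, ?_⟩, ?_,
        dfc_pt _ _, ?_⟩, fun x hx hs h0 _ => hlow _ hs _ ((mem_iff hE h0).1 hx)⟩⟩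
    · have h1 := pmul_add hχ.2.1 (pmul_of_dvd hadm hχ.2.2)
      rw [hcast] at h1
      have h3 : (nP P η 0 1).lev = P.β + P.ε * η + ((P.s : ℝ) - (P.s - 1)) * (P.δ + η * P.b) +
          ((P.s : ℝ) - 1) * (P.δ + η * P.b) := by
        simp only [Par.lev, nP]; ring
      rw [h3]
      exact h1
    · rw [taylor_zero, Bound.face_low (by omega), hGe]
      refine coeff_one_top hc hκ (hF.chi_e (P.s - 1) (by omega) hχ e ?_).1
      rw [hGe, coeff_monomial, if_pos rfl]
      exact hc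
    · exact fun h => hp.out.not_dvd_one h.2
    · change P.s - 1 + 1 = P.s
      omega
    · rw [cod_nP]
      change ((0 : ℕ) : ℝ) + ((P.s : ℝ) - (P.s - 1 : ℕ)) * 1 - (1 : ℕ) = 0
      rw [hcast]; push_cast; ring
  -- the main alternative
  obtain ⟨l, b', hla, hlb, hlm, hN, hmax⟩ := exists_best' hl Bound.face_deg hF.chi_p hF.chi_adm
    hF.eps' hF.chi_top.1.1 hg1 hB
  have hP' := ps_new hP hX hb1 hS hA hE hla hF.eps' hF.chi_top.1.1 (htop l) hlb hN
  have hJ := hB l b' hla hlb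
  have hg0 : (0 : ℝ) < g := by exact_mod_cast hg1
  have hadd : ∀ l1 : k[X], (l1 ≠ 0 → P.δ + η * P.b ∈ Λ') → (∀ m, l1.coeff m ≠ 0 → b' ≤ m) →
      (l1 + l ≠ 0 → P.δ + η * P.b ∈ Λ') ∧
      Bd p P.s ε' (chi fl p Λ' P η) (taylor (l1 + l) (facePol P.s n (Φ P.top) κ G)) b' := by
    intro l1 h1 h3
    refine ⟨fun h => ?_, ?_⟩
    · by_cases h0 : l1 = 0
      · exact hla fun h' => h (by rw [h0, h', add_zero])
      · exact h1 h0
    · rw [← taylor_taylor]
      exact Bd.shift hl (by rw [natDegree_taylor]; exact Bound.face_deg) hF.chi_p hF.chi_adm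
        hF.eps' hF.chi_top.1.1 hlb h1 h3
  have uns_s : Uns fl p Λ' (nF fl p Λ' P η (stp η d σ n0 κ Φ) l) (nP P η ε' b') P.s := by
    intro c hc
    obtain ⟨l1, h1, h3, h4⟩ := witness hE hP' c hc
    obtain ⟨h5, h6⟩ := hadd l1 h1 h3
    obtain ⟨i, hi, j, h7, h8⟩ := hmax _ h5
    exact ⟨i, hi, Nat.le_add_left _ _, h4 i hi j h7 (le_antisymm (h6 i hi j h7) h8)⟩
  have uu : p ∣ P.s → g < qq p P.s → ε' + g * b' = J →
      Uns fl p Λ' (nF fl p Λ' P η (stp η d σ n0 κ Φ) l) (nP P η ε' b') g := by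
    intro hps hq hJe c hc
    obtain ⟨l1, h1, h3, h4⟩ := witness hE hP' c hc
    obtain ⟨h5, h6⟩ := hadd l1 h1 h3
    obtain ⟨j, hj, h7⟩ := hUU hps hq _ h5
    have hi : P.s - g < P.s := by omega
    have h8 : (j : ℝ) ≤ J := by exact_mod_cast hj
    refine ⟨P.s - g, hi, by change P.s ≤ _; omega,
      h4 _ hi j h7 (le_antisymm (h6 _ hi j h7) ?_)⟩
    rw [Nat.cast_sub hgs, sub_sub_cancel, hJe]
    exact h8
  have mm : p ∣ P.s → ∀ g0, Uns fl p Λ Φ P g0 → g ≤ g0 := by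
    intro hps g0 h
    obtain ⟨x, hx, h1⟩ := face_of_uns h η
    have := hM hps _ hx.2.1 (hF2 x hx)
    omega
  have same : ε' = P.ε → b' < P.b ∨ (b' = P.b ∧ d = 1 ∧ ε' + g * b' = J ∧
      ∃ x ∈ Φ.support, 0 < P.cod x ∧ P.dfc x = η * P.cod x) := by
    intro he
    rcases hSS he with h | ⟨hd, h, i, hi, e, h1, h3⟩
    · left
      rw [← he] at h
      exact lt_of_mul_lt_mul_left (by linarith) hg0.le
    · rw [← he] at h
      have h4 : b' ≤ P.b := le_of_mul_le_mul_left (by linarith) hg0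
      refine h4.lt_or_eq.imp id fun h5 => ⟨h5, hd, le_antisymm hJ (h5 ▸ h), ?_⟩
      obtain ⟨x, hx, h6, h7⟩ := hF1 i hi e h1
      refine ⟨x, hx.1, ?_, hx.2.2⟩
      rw [Par.cod, Par.gap, h6, h7]
      linarith
  have ld : P.ε = 0 → ε' = 1 → p ∣ P.s ∧ 1 + g * b' ≤ J ∧ LDnum p (qq p P.s) P.b g J := by
    intro h0 h1
    refine ⟨hF.chi_p _ (hF.chi_top.1.1 h1), ?_, hLD h0 h1⟩
    rw [h1, Nat.cast_one] at hJ
    exact hJ
  refine ⟨l, nP P η ε' b', _, hla, rfl, rfl, rfl, rfl, hP', Or.inr ⟨uns_s,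
    ⟨rfl, fun he => ?_, fun h1 h0 => ?_, fun h0 h1 b0 hb0 hΦ => ?_, fun h0 h1 hbe => ?_,
      fun h0 h1 h3 h4 => ?_, fun h0 h1 h3 _ => ?_⟩, fun he hbe h1 x hx hs => ?_⟩⟩
  · -- the type is kept
    change ε' = P.ε at he
    refine (same he).imp id fun ⟨h1, hd, h3, h4⟩ => ⟨h1, ?_, fun hps g1 hq h5 => ?_⟩
    · subst hd
      have h6 := hd0 rfl
      subst h6 he h1
      have h7 := hS.eq_of_one
      exact ⟨h7, η, η, hS.pos, hW, h7 ▸ hS.η_mem, rfl, by simp only [nP]; ring, hA, h4,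
        dsc_new hS hb1 hlm, Or.inl rfl⟩
    · have h6 := mm hps g1 h5
      exact (uu hps (by omega) h3).mono h6
  · -- from D to L
    change ε' = 0 at h0
    have h3 : g * b' ≤ J := by
      rw [h0, Nat.cast_zero, zero_add] at hJ
      exact hJ
    refine ⟨g, J, hg1, h3, fun h4 hq => uu (hF.typ1 h1) hq ?_, hDL h1 h0⟩
    rw [h0, Nat.cast_zero, zero_add]
    exact h4
  · -- from L to D, with memory
    obtain ⟨hps, h3, h4⟩ := ld h0 h1
    obtain ⟨g0, J0, h5, h6, h7, h8⟩ := hΦ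
    have := (ha P.s g J P.b hps h2 hg1 hgs hb1 h4).1 b0 g0 J0 hb0 h5 h6
      (fun h hq => mm hps g0 (h7 h hq)) h8
    exact lt_of_mul_lt_mul_left (a := (g : ℝ)) (by change g * b' < _; linarith) hg0.le
  · -- from L to D, slope one
    obtain ⟨hps, h3, h4⟩ := ld h0 h1
    have h5 := (ha P.s g J P.b hps h2 hg1 hgs hb1 h4).2.1 hbe
    have h6 : (J : ℝ) + 1 ≤ g := by exact_mod_cast h5
    have h7 : b' < 1 := lt_of_mul_lt_mul_left (a := (g : ℝ)) (by linarith) hg0.le
    refine ⟨h7, fun x hx hs h8 h9 => ?_⟩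
    change x.2.2 < P.s at hs
    change x.2.1 + x.2.2 ≠ P.s
    by_cases hgap : P.s < x.2.2 + g
    · rw [add_comm]
      exact hXX h1 l hla _ hs hgap _ ((mem_iff hE h8).1 hx)
    · intro h
      change ε' = 1 at h1
      rw [cod_nP, h1] at h9
      have h10 : (x.2.1 : ℝ) + x.2.2 = P.s := by exact_mod_cast h
      have h11 : (x.2.2 : ℝ) + g ≤ P.s := by exact_mod_cast not_lt.1 hgap
      push_cast at h9
      nlinarith
  · -- from L to D, after the exit through a pure power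
    obtain ⟨hps, h5, h6⟩ := ld h0 h1
    obtain ⟨h7, h8⟩ := (ha P.s g J P.b hps h2 hg1 hgs hb1 h6).2.2 h3 fun h h' =>
      le_antisymm (mm hps 1 (h4 h h')) hg1
    change b' * P.s < P.s - 1
    rcases hgs.lt_or_eq with h | h
    · have h9 : (J : ℝ) ≤ g := by exact_mod_cast h7
      have h10 : (g : ℝ) < P.s := by exact_mod_cast h
      have h11 : b' < 1 := lt_of_mul_lt_mul_left (a := (g : ℝ)) (by linarith) hg0.le
      nlinarith
    · have h9 : (J : ℝ) + 1 ≤ g := by exact_mod_cast h8 h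
      rw [← h]
      linarith
  · -- shifts are possible
    by_contra h
    obtain ⟨x, hx, h4⟩ := face_of_uns h3 η
    have h5 : x.2.2 = P.s - 1 := by have := hx.2.1; omega
    exact hF2 x hx (h5 ▸ hF.nadm h)
  · -- exactness
    change ε' = P.ε at he
    change b' = P.b at hbe
    change ε' = 1 at h1
    obtain ⟨-, hd, -⟩ := (same he).resolve_left (by rw [hbe]; exact lt_irrefl _)
    subst hd
    by_contra hne
    rcases high hP hX hb1 hS.pos hx hs with ⟨h, -⟩ | ⟨j, hj, rfl⟩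
    · omega
    · rw [hS.ex_one, hd0 rfl] at hj
      have h3 : j ≤ P.ε := by simpa [Par.top] using hj
      rcases (hP'.junk _ hx hs hne).2 with h | h
      · simp [nP, pt] at h
      · change ε' < j at h
        omega

end Pool.Agent.MP_19ffc6_ag.LU2

end MrgPart3

-- marker of a merged file
example : 731051 + 448512 = 731051 + 448512 := rfl
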